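import Pool.Agent.helper33.AglerDefs

/-!
# Basic facts on the coefficient model of `H²(𝔻²)`
-/

open Filter Topology ComplexConjugate InnerProductSpace
open scoped ComplexOrder

namespace Pool.Agent.AglerBidisk

theorem mem_Bidisk {z : ℂ × ℂ} : z ∈ Bidisk ↔ ‖z.1‖ < 1 ∧ ‖z.2‖ < 1 := by
  simp [Bidisk]

/-- The monomial `z₁^m z₂^n`. -/
noncomputable def mono (z : ℂ × ℂ) (n : ℕ × ℕ) : ℂ := z.1 ^ n.1 * z.2 ^ n.2

theorem norm_mono (z : ℂ × ℂ) (n : ℕ × ℕ) : ‖mono z n‖ = ‖z.1‖ ^ n.1 * ‖z.2‖ ^ n.2 := by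
  simp [mono]

theorem mono_add (z : ℂ × ℂ) (m n : ℕ × ℕ) : mono z (m + n) = mono z m * mono z n := by
  simp [mono, pow_add]; ring

theorem mono_mul (z w : ℂ × ℂ) (n : ℕ × ℕ) :
    mono (z.1 * w.1, z.2 * w.2) n = mono z n * mono w n := by
  simp [mono, mul_pow]; ring

theorem norm_mono_le_one {z : ℂ × ℂ} (h1 : ‖z.1‖ ≤ 1) (h2 : ‖z.2‖ ≤ 1) (n : ℕ × ℕ) :
    ‖mono z n‖ ≤ 1 := by
  rw [norm_mono]
  exact mul_le_one₀ (pow_le_one₀ (norm_nonneg _) h1) (by positivity)
    (pow_le_one₀ (norm_nonneg _) h2)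

theorem summable_geom {a b : ℝ} (ha : 0 ≤ a) (ha1 : a < 1) (hb : 0 ≤ b) (hb1 : b < 1) :
    Summable (fun n : ℕ × ℕ => a ^ n.1 * b ^ n.2) :=
  (summable_geometric_of_lt_one ha ha1).mul_of_nonneg (summable_geometric_of_lt_one hb hb1)
    (fun _ => pow_nonneg ha _) (fun _ => pow_nonneg hb _)

theorem summable_norm_mono {z : ℂ × ℂ} (hz : z ∈ Bidisk) : Summable (fun n => ‖mono z n‖) := by
  rw [mem_Bidisk] at hz
  simp only [norm_mono]
  exact summable_geom (norm_nonneg _) hz.1 (norm_nonneg _) hz.2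

theorem memℓp_mono {z : ℂ × ℂ} (hz : z ∈ Bidisk) :
    Memℓp (E := fun _ : ℕ × ℕ => ℂ) (fun n => conj (mono z n)) 2 := by
  have h0 : (0 : ℝ) < (2 : ENNReal).toReal := by norm_num
  refine (memℓp_gen_iff h0).2 ?_
  refine Summable.of_nonneg_of_le (fun n => by positivity) (fun n => ?_) (summable_norm_mono hz)
  rw [RCLike.norm_conj]
  have h1 : ‖mono z n‖ ≤ 1 := norm_mono_le_one (mem_Bidisk.1 hz).1.le (mem_Bidisk.1 hz).2.le n
  have : (2 : ENNReal).toReal = 2 := by norm_num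
  rw [this]
  calc ‖mono z n‖ ^ (2 : ℝ) = ‖mono z n‖ * ‖mono z n‖ := by
        rw [show (2 : ℝ) = ((2 : ℕ) : ℝ) by norm_num, Real.rpow_natCast]; ring
    _ ≤ 1 * ‖mono z n‖ := by gcongr
    _ = ‖mono z n‖ := one_mul _

/-- The Szegő kernel function at the point `z`. -/
noncomputable def szego (z : Bidisk) : H2 := ⟨fun n => conj (mono z n), memℓp_mono z.2⟩

@[simp] theorem szego_apply (z : Bidisk) (n : ℕ × ℕ) : szego z n = conj (mono z n) := rfl

theorem inner_szego (z : Bidisk) (f : H2) : ⟪szego z, f⟫_ℂ = ev f z := by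
  rw [lp.inner_eq_tsum, ev]
  refine tsum_congr fun n => ?_
  simp [mono]

theorem inner_szego' (z : Bidisk) (f : H2) : ⟪f, szego z⟫_ℂ = conj (ev f z) := by
  rw [← inner_szego, inner_conj_symm]

theorem hasSum_ev (f : H2) (z : Bidisk) : HasSum (fun n => f n * mono z n) (ev f z) := by
  have := lp.hasSum_inner (𝕜 := ℂ) (szego z) f
  rw [inner_szego] at this
  simpa using this

theorem ev_add (f g : H2) (z : Bidisk) : ev (f + g) z = ev f z + ev g z := by
  simp only [← inner_szego, inner_add_right]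

theorem ev_sub (f g : H2) (z : Bidisk) : ev (f - g) z = ev f z - ev g z := by
  simp only [← inner_szego, inner_sub_right]

theorem ev_smul (c : ℂ) (f : H2) (z : Bidisk) : ev (c • f) z = c * ev f z := by
  simp only [← inner_szego, inner_smul_right]

theorem ev_zero (z : Bidisk) : ev 0 z = 0 := by
  simp only [← inner_szego, inner_zero_right]

theorem continuous_ev (z : Bidisk) : Continuous (fun f : H2 => ev f z) := by
  simp only [← inner_szego]
  fun_prop

theorem shift_apply_apply {ι κ : Type} {u : ι → κ} (hu : Function.Injective u)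
    (f : lp (fun _ : ι => ℂ) 2) (n : ι) : shift u hu f (u n) = f n := hu.extend_apply _ _ _

theorem shift_apply_of_notMem {ι κ : Type} {u : ι → κ} (hu : Function.Injective u)
    (f : lp (fun _ : ι => ℂ) 2) {n : κ} (h : n ∉ Set.range u) : shift u hu f n = 0 := by
  change Function.extend u f 0 n = 0
  rw [Function.extend_apply' _ _ _ (fun ⟨a, ha⟩ => h ⟨a, ha⟩)]
  rfl

theorem ev_shift {u : ℕ × ℕ → ℕ × ℕ} (hu : Function.Injective u) (f : H2) (z : ℂ × ℂ) :
    ev (shift u hu f) z = ∑' n : ℕ × ℕ, f n * mono z (u n) := by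
  unfold ev
  rw [← hu.tsum_eq]
  · refine tsum_congr fun n => ?_
    rw [shift_apply_apply hu]
    rfl
  · intro n hn
    by_contra hn'
    apply hn
    simp only
    rw [shift_apply_of_notMem hu f hn', zero_mul]

theorem ev_T₁ (f : H2) (z : ℂ × ℂ) : ev (T₁ f) z = z.1 * ev f z := by
  change ev (shift up₁ up₁_injective f) z = _
  rw [ev_shift, ev, ← tsum_mul_left]
  refine tsum_congr fun n => ?_
  simp [mono, up₁, pow_succ]
  ring

theorem ev_T₂ (f : H2) (z : ℂ × ℂ) : ev (T₂ f) z = z.2 * ev f z := by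
  change ev (shift up₂ up₂_injective f) z = _
  rw [ev_shift, ev, ← tsum_mul_left]
  refine tsum_congr fun n => ?_
  simp [mono, up₂, pow_succ]
  ring

theorem norm_T₁ (f : H2) : ‖T₁ f‖ = ‖f‖ := (shift up₁ up₁_injective).norm_map f

theorem norm_T₂ (f : H2) : ‖T₂ f‖ = ‖f‖ := (shift up₂ up₂_injective).norm_map f

theorem inner_T₁ (f g : H2) : ⟪T₁ f, T₁ g⟫_ℂ = ⟪f, g⟫_ℂ :=
  (shift up₁ up₁_injective).inner_map_map f g

theorem inner_T₂ (f g : H2) : ⟪T₂ f, T₂ g⟫_ℂ = ⟪f, g⟫_ℂ :=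
  (shift up₂ up₂_injective).inner_map_map f g

end Pool.Agent.AglerBidisk
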