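import Pool.Agent.helper33.AglerProduct

/-!
# Products of one-variable inner functions have reducing Agler subspaces
-/

open Filter Topology ComplexConjugate InnerProductSpace MeasureTheory
open scoped ComplexOrder Real

namespace Pool.Agent.AglerBidisk

/-- The Hilbert space adjoint of an isometry. -/
noncomputable abbrev adj (M : H2 →ₗᵢ[ℂ] H2) : H2 →L[ℂ] H2 :=
  ContinuousLinearMap.adjoint M.toContinuousLinearMap

theorem inner_adj_left (M : H2 →ₗᵢ[ℂ] H2) (f g : H2) : ⟪adj M f, g⟫_ℂ = ⟪f, M g⟫_ℂ := by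
  rw [adj, ContinuousLinearMap.adjoint_inner_left]
  rfl

theorem inner_adj_right (M : H2 →ₗᵢ[ℂ] H2) (f g : H2) : ⟪f, adj M g⟫_ℂ = ⟪M f, g⟫_ℂ := by
  rw [adj, ContinuousLinearMap.adjoint_inner_right]
  rfl

theorem adj_apply_self (M : H2 →ₗᵢ[ℂ] H2) (h : H2) : adj M (M h) = h := adjoint_apply_self M h

theorem T₁_szego (w : Bidisk) : conj w.1.1 • T₁ (szego w) = szego w - szego (pr₂ w) := by
  refine sub_eq_zero.1 (ev_injective fun z => ?_)
  have e1 : ∀ w, ev (szego w) z = sz z w := fun w => (inner_szego z (szego w)).symm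
  rw [ev_sub, ev_smul, ev_T₁, ev_sub, e1, e1, sz_eq, sz_eq]
  have hx := mul_inv_cancel₀ (den₁_ne_zero z w)
  simp only [pr₂, map_zero, mul_zero, sub_zero, inv_one, one_mul]
  linear_combination (-(1 - z.1.2 * conj w.1.2)⁻¹) * hx

theorem T₂_szego (w : Bidisk) : conj w.1.2 • T₂ (szego w) = szego w - szego (pr₁ w) := by
  refine sub_eq_zero.1 (ev_injective fun z => ?_)
  have e1 : ∀ w, ev (szego w) z = sz z w := fun w => (inner_szego z (szego w)).symm
  rw [ev_sub, ev_smul, ev_T₂, ev_sub, e1, e1, sz_eq, sz_eq]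
  have hx := mul_inv_cancel₀ (den₂_ne_zero z w)
  simp only [pr₁, map_zero, mul_zero, sub_zero, inv_one, mul_one]
  linear_combination (-(1 - z.1.1 * conj w.1.1)⁻¹) * hx

theorem ev_T₁_adjoint (g : H2) (w : Bidisk) :
    ev (T₁ (ContinuousLinearMap.adjoint T₁ g)) w = ev g w - ev g (pr₂ w) := by
  rw [ev_T₁, ← inner_szego w (ContinuousLinearMap.adjoint T₁ g),
    ContinuousLinearMap.adjoint_inner_right]
  have h := T₁_szego w
  have h2 : ⟪conj w.1.1 • T₁ (szego w), g⟫_ℂ = ev g w - ev g (pr₂ w) := by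
    rw [h, inner_sub_left, inner_szego, inner_szego]
  rw [inner_smul_left, RCLike.conj_conj] at h2
  exact h2

theorem ev_T₂_adjoint (g : H2) (w : Bidisk) :
    ev (T₂ (ContinuousLinearMap.adjoint T₂ g)) w = ev g w - ev g (pr₁ w) := by
  rw [ev_T₂, ← inner_szego w (ContinuousLinearMap.adjoint T₂ g),
    ContinuousLinearMap.adjoint_inner_right]
  have h := T₂_szego w
  have h2 : ⟪conj w.1.2 • T₂ (szego w), g⟫_ℂ = ev g w - ev g (pr₁ w) := by
    rw [h, inner_sub_left, inner_szego, inner_szego]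
  rw [inner_smul_left, RCLike.conj_conj] at h2
  exact h2

theorem T₁_eq_zero {f : H2} (h : T₁ f = 0) : f = 0 := by
  rw [← norm_eq_zero, ← norm_T₁, h, norm_zero]

theorem T₂_eq_zero {f : H2} (h : T₂ f = 0) : f = 0 := by
  rw [← norm_eq_zero, ← norm_T₂, h, norm_zero]

theorem T₁_adjoint_T₁ (f : H2) : ContinuousLinearMap.adjoint T₁ (T₁ f) = f := by
  refine ext_inner_left ℂ fun v => ?_
  rw [ContinuousLinearMap.adjoint_inner_right, inner_T₁]

theorem T₂_adjoint_T₂ (f : H2) : ContinuousLinearMap.adjoint T₂ (T₂ f) = f := by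
  refine ext_inner_left ℂ fun v => ?_
  rw [ContinuousLinearMap.adjoint_inner_right, inner_T₂]

/-- Multiplication by a function of `z₂` commutes with the adjoint of `T_{z₁}`. -/
theorem adjoint_T₁_comm {χ : ℂ × ℂ → ℂ} (hχ : ∀ z : Bidisk, χ z = χ (pr₂ z)) {M : H2 →ₗᵢ[ℂ] H2}
    (hM : ∀ (f : H2) (z : Bidisk), ev (M f) z = χ z * ev f z) (f : H2) :
    ContinuousLinearMap.adjoint T₁ (M f) = M (ContinuousLinearMap.adjoint T₁ f) := by
  set f₁ := ContinuousLinearMap.adjoint T₁ f with hf₁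
  set f₀ := f - T₁ f₁ with hf₀
  have h0 : ContinuousLinearMap.adjoint T₁ f₀ = 0 := by
    rw [hf₀, map_sub, T₁_adjoint_T₁, ← hf₁, sub_self]
  have h1 : ContinuousLinearMap.adjoint T₁ (M f₀) = 0 := by
    refine T₁_eq_zero (ev_injective fun w => ?_)
    rw [ev_T₁_adjoint, hM, hM, hχ w]
    have h2 := ev_T₁_adjoint f₀ w
    rw [h0, map_zero, ev_zero] at h2
    have h3 : pr₂ (pr₂ w) = pr₂ w := rfl
    rw [← mul_sub, ← h2, mul_zero]
  have h2 : f = f₀ + T₁ f₁ := by rw [hf₀]; abel
  rw [h2, map_add, map_add, h1, zero_add, comm_T₁ hM, T₁_adjoint_T₁]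

/-- Multiplication by a function of `z₁` commutes with the adjoint of `T_{z₂}`. -/
theorem adjoint_T₂_comm {χ : ℂ × ℂ → ℂ} (hχ : ∀ z : Bidisk, χ z = χ (pr₁ z)) {M : H2 →ₗᵢ[ℂ] H2}
    (hM : ∀ (f : H2) (z : Bidisk), ev (M f) z = χ z * ev f z) (f : H2) :
    ContinuousLinearMap.adjoint T₂ (M f) = M (ContinuousLinearMap.adjoint T₂ f) := by
  set f₁ := ContinuousLinearMap.adjoint T₂ f with hf₁
  set f₀ := f - T₂ f₁ with hf₀
  have h0 : ContinuousLinearMap.adjoint T₂ f₀ = 0 := by
    rw [hf₀, map_sub, T₂_adjoint_T₂, ← hf₁, sub_self]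
  have h1 : ContinuousLinearMap.adjoint T₂ (M f₀) = 0 := by
    refine T₂_eq_zero (ev_injective fun w => ?_)
    rw [ev_T₂_adjoint, hM, hM, hχ w]
    have h2 := ev_T₂_adjoint f₀ w
    rw [h0, map_zero, ev_zero] at h2
    have h3 : pr₁ (pr₁ w) = pr₁ w := rfl
    rw [← mul_sub, ← h2, mul_zero]
  have h2 : f = f₀ + T₂ f₁ := by rw [hf₀]; abel
  rw [h2, map_add, map_add, h1, zero_add, comm_T₂ hM, T₂_adjoint_T₂]

theorem adj_T_comm {T : H2 →L[ℂ] H2} {M : H2 →ₗᵢ[ℂ] H2}
    (h : ∀ f, ContinuousLinearMap.adjoint T (M f) = M (ContinuousLinearMap.adjoint T f)) (f : H2) :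
    adj M (T f) = T (adj M f) := by
  refine ext_inner_left ℂ fun v => ?_
  rw [inner_adj_right, ← ContinuousLinearMap.adjoint_inner_left, h, ← inner_adj_right,
    ContinuousLinearMap.adjoint_inner_left]

theorem adj_adjoint_comm {T : H2 →L[ℂ] H2} {M : H2 →ₗᵢ[ℂ] H2}
    (h : ∀ f, M (T f) = T (M f)) (f : H2) :
    adj M (ContinuousLinearMap.adjoint T f) = ContinuousLinearMap.adjoint T (adj M f) := by
  refine ext_inner_left ℂ fun v => ?_
  rw [inner_adj_right, ContinuousLinearMap.adjoint_inner_right,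
    ContinuousLinearMap.adjoint_inner_right, ← h, inner_adj_right]

/-- The reproducing kernel space of the kernel of a projection `A` is the range of `A`. -/
theorem memRKHS_projection {A : H2 →L[ℂ] H2} (hA : ∀ f, A (A f) = A f)
    (hA' : ∀ f g, ⟪A f, g⟫_ℂ = ⟪f, A g⟫_ℂ) {k : Bidisk → Bidisk → ℂ}
    (hk : ∀ z w, k z w = ⟪szego z, A (szego w)⟫_ℂ) (f : H2) :
    MemRKHS k (fun z : Bidisk => ev f z) ↔ A f = f := by
  have hk' : ∀ z w, k z w = ⟪A (szego z), A (szego w)⟫_ℂ := by
    intro z w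
    rw [hk, hA', hA]
  have hpos : (Matrix.of k).PosSemidef := by
    have h1 := posSemidef_gram (fun z => A (szego z))
    have h2 : (Matrix.of fun z w => ⟪A (szego z), A (szego w)⟫_ℂ) = Matrix.of k := by
      ext z w
      simp only [Matrix.of_apply]
      rw [hk']
    rwa [h2] at h1
  have hop : Fact (opKernel k).PosSemidef := ⟨opKernel_posSemidef hpos⟩
  have hdom : (Matrix.of fun z w => sz z w - k z w).PosSemidef := by
    have h1 := posSemidef_gram (fun z => szego z - A (szego z))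
    have h2 : (Matrix.of fun z w => ⟪szego z - A (szego z), szego w - A (szego w)⟫_ℂ) =
        Matrix.of fun z w => sz z w - k z w := by
      ext z w
      simp only [Matrix.of_apply]
      rw [inner_sub_left, inner_sub_right, inner_sub_right, hA' (szego z) (szego w), ← hk' z w,
        ← hk z w, sz]
      ring
    rwa [h2] at h1
  obtain ⟨V, hV, hJ⟩ := exists_V hdom
  have hVV : ∀ f, ContinuousLinearMap.adjoint V (V f) = A f := by
    have h1 : ((ContinuousLinearMap.adjoint V ∘L V : H2 →L[ℂ] H2) : H2 → H2) = A := by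
      refine DenseRange.equalizer denseRange_szego (ContinuousLinearMap.continuous _)
        A.continuous ?_
      funext a
      simp only [Function.comp]
      rw [Finsupp.linearCombination_apply, map_finsuppSum, map_finsuppSum]
      refine Finsupp.sum_congr fun i _ => ?_
      rw [map_smul, map_smul]
      congr 1
      refine sub_eq_zero.1 (ev_injective fun z => ?_)
      rw [ev_sub, ContinuousLinearMap.comp_apply, hJ, hV, kf_apply, ← inner_szego, hk, sub_self]
    intro f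
    exact congrFun h1 f
  have hVA : ∀ f, V (A f) = V f := by
    intro f
    refine sub_eq_zero.1 (norm_eq_zero.1 ?_)
    have h1 : ⟪V (A f) - V f, V (A f) - V f⟫_ℂ = 0 := by
      rw [← map_sub, ← ContinuousLinearMap.adjoint_inner_right, hVV, map_sub, hA, sub_self,
        inner_zero_right]
    rw [inner_self_eq_zero] at h1
    rw [h1, norm_zero]
  constructor
  · rintro ⟨h, g, hg⟩
    have h1 : f = ContinuousLinearMap.adjoint V g := by
      refine sub_eq_zero.1 (ev_injective fun z => ?_)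
      rw [ev_sub]
      have h2 := hJ g z
      have h3 := congrFun hg z
      rw [h2, ← h3]
      exact sub_self _
    rw [h1]
    refine ext_inner_left ℂ fun v => ?_
    rw [← hA', ContinuousLinearMap.adjoint_inner_right, hVA,
      ContinuousLinearMap.adjoint_inner_right]
  · intro hf
    refine ⟨hop.out, V f, ?_⟩
    funext z
    have h1 := hJ (V f) z
    rw [hVV, hf] at h1
    exact h1.symm

theorem isInner₂_of_snd {ψ : ℂ → ℂ} (hψ : IsInner₁ ψ) : IsInner₂ (fun z => ψ z.2) := by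
  obtain ⟨C, hC⟩ := hψ.bounded
  refine ⟨?_, ⟨C, fun z hz => hC _ hz.2⟩, ?_⟩
  · exact hψ.differentiableOn.comp (by fun_prop) fun z hz => hz.2
  · have h1 := (Measure.quasiMeasurePreserving_snd (μ := (volume : Measure ℝ))
      (ν := (volume : Measure ℝ))).ae hψ.boundary
    exact h1

theorem isInner₂_of_fst {φ : ℂ → ℂ} (hφ : IsInner₁ φ) : IsInner₂ (fun z => φ z.1) := by
  obtain ⟨C, hC⟩ := hφ.bounded
  refine ⟨?_, ⟨C, fun z hz => hC _ hz.1⟩, ?_⟩
  · exact hφ.differentiableOn.comp (by fun_prop) fun z hz => hz.1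
  · have h1 := (Measure.quasiMeasurePreserving_fst (μ := (volume : Measure ℝ))
      (ν := (volume : Measure ℝ))).ae hφ.boundary
    exact h1

theorem inner_proj (M : H2 →ₗᵢ[ℂ] H2) {χ : ℂ × ℂ → ℂ}
    (hM : ∀ (f : H2) (z : Bidisk), ev (M f) z = χ z * ev f z) (z w : Bidisk) :
    ⟪szego z, M (adj M (szego w))⟫_ℂ = χ z * conj (χ w) * sz z w := by
  rw [← inner_adj_left, inner_adjoint_M hM]

/-- The kernel `(1 - χ(z) χ(w)^*) / (1 - z₂ w₂^*)` is positive if `χ` is an inner function of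
`z₂`. -/
theorem pos_kernel₂ {χ : ℂ × ℂ → ℂ} (hχ : ∀ z : Bidisk, χ z = χ (pr₂ z)) {M : H2 →ₗᵢ[ℂ] H2}
    (hM : ∀ (f : H2) (z : Bidisk), ev (M f) z = χ z * ev f z) :
    ∃ q : Bidisk → H2, ∀ z w : Bidisk,
      ⟪q z, q w⟫_ℂ = (1 - χ z * conj (χ w)) / (1 - z.1.2 * conj w.1.2) := by
  refine ⟨fun z => (szego z - M (adj M (szego z))) -
    T₁ (ContinuousLinearMap.adjoint T₁ (szego z - M (adj M (szego z)))), fun z w => ?_⟩
  have hproj : ∀ x y : H2, ⟪x - T₁ (ContinuousLinearMap.adjoint T₁ x),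
      y - T₁ (ContinuousLinearMap.adjoint T₁ y)⟫_ℂ =
      ⟪x, y⟫_ℂ - ⟪ContinuousLinearMap.adjoint T₁ x, ContinuousLinearMap.adjoint T₁ y⟫_ℂ := by
    intro x y
    have a1 := ContinuousLinearMap.adjoint_inner_left T₁ (ContinuousLinearMap.adjoint T₁ y) x
    have a2 := ContinuousLinearMap.adjoint_inner_right T₁ (ContinuousLinearMap.adjoint T₁ x) y
    rw [inner_sub_left, inner_sub_right, inner_sub_right, inner_T₁, ← a1, ← a2]
    ring
  have hcomm : ∀ x : Bidisk, ContinuousLinearMap.adjoint T₁ (szego x - M (adj M (szego x))) =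
      conj x.1.1 • (szego x - M (adj M (szego x))) := by
    intro x
    rw [map_sub, adjoint_T₁_comm hχ hM, ← adj_adjoint_comm (comm_T₁ hM), adjoint_T₁_szego,
      map_smul, map_smul, smul_sub]
  have hself : ⟪szego z - M (adj M (szego z)), szego w - M (adj M (szego w))⟫_ℂ =
      (1 - χ z * conj (χ w)) * sz z w := by
    rw [inner_sub_left, inner_sub_right, inner_sub_right, inner_proj M hM, M.inner_map_map]
    have h1 : ⟪M (adj M (szego z)), szego w⟫_ℂ = ⟪adj M (szego z), adj M (szego w)⟫_ℂ := by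
      rw [inner_adj_right]
    rw [h1, inner_adjoint_M hM]
    change sz z w - _ - _ = _
    ring
  rw [hproj, hcomm, hcomm, inner_smul_left, inner_smul_right, hself, sz_eq]
  have d1 := den₁_ne_zero z w
  have d2 := den₂_ne_zero z w
  simp only [RCLike.conj_conj]
  field_simp

/-- The kernel `(1 - χ(z) χ(w)^*) / (1 - z₁ w₁^*)` is positive if `χ` is an inner function of
`z₁`. -/
theorem pos_kernel₁ {χ : ℂ × ℂ → ℂ} (hχ : ∀ z : Bidisk, χ z = χ (pr₁ z)) {M : H2 →ₗᵢ[ℂ] H2}
    (hM : ∀ (f : H2) (z : Bidisk), ev (M f) z = χ z * ev f z) :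
    ∃ q : Bidisk → H2, ∀ z w : Bidisk,
      ⟪q z, q w⟫_ℂ = (1 - χ z * conj (χ w)) / (1 - z.1.1 * conj w.1.1) := by
  refine ⟨fun z => (szego z - M (adj M (szego z))) -
    T₂ (ContinuousLinearMap.adjoint T₂ (szego z - M (adj M (szego z)))), fun z w => ?_⟩
  have hproj : ∀ x y : H2, ⟪x - T₂ (ContinuousLinearMap.adjoint T₂ x),
      y - T₂ (ContinuousLinearMap.adjoint T₂ y)⟫_ℂ =
      ⟪x, y⟫_ℂ - ⟪ContinuousLinearMap.adjoint T₂ x, ContinuousLinearMap.adjoint T₂ y⟫_ℂ := by
    intro x y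
    have a1 := ContinuousLinearMap.adjoint_inner_left T₂ (ContinuousLinearMap.adjoint T₂ y) x
    have a2 := ContinuousLinearMap.adjoint_inner_right T₂ (ContinuousLinearMap.adjoint T₂ x) y
    rw [inner_sub_left, inner_sub_right, inner_sub_right, inner_T₂, ← a1, ← a2]
    ring
  have hcomm : ∀ x : Bidisk, ContinuousLinearMap.adjoint T₂ (szego x - M (adj M (szego x))) =
      conj x.1.2 • (szego x - M (adj M (szego x))) := by
    intro x
    rw [map_sub, adjoint_T₂_comm hχ hM, ← adj_adjoint_comm (comm_T₂ hM), adjoint_T₂_szego,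
      map_smul, map_smul, smul_sub]
  have hself : ⟪szego z - M (adj M (szego z)), szego w - M (adj M (szego w))⟫_ℂ =
      (1 - χ z * conj (χ w)) * sz z w := by
    rw [inner_sub_left, inner_sub_right, inner_sub_right, inner_proj M hM, M.inner_map_map]
    have h1 : ⟪M (adj M (szego z)), szego w⟫_ℂ = ⟪adj M (szego z), adj M (szego w)⟫_ℂ := by
      rw [inner_adj_right]
    rw [h1, inner_adjoint_M hM]
    change sz z w - _ - _ = _
    ring
  rw [hproj, hcomm, hcomm, inner_smul_left, inner_smul_right, hself, sz_eq]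
  have d1 := den₁_ne_zero z w
  have d2 := den₂_ne_zero z w
  simp only [RCLike.conj_conj]
  field_simp

/-- A product of one-variable inner functions has a pair of Agler kernels whose Agler subspaces
are closed, orthogonal complements of each other, and reducing for `S_{z₁}`. -/
theorem orthogonalReducing_of_isProduct {θ : ℂ × ℂ → ℂ} (h : IsProductOfInner θ) :
    HasOrthRed θ T₁ := by
  obtain ⟨φ, ψ, hφ, hψ, hθ⟩ := h
  set χ : ℂ × ℂ → ℂ := fun z => ψ z.2 with hχdef
  set ω : ℂ × ℂ → ℂ := fun z => φ z.1 with hωdef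
  obtain ⟨Mχ, hMχ⟩ := exists_isometry (isInner₂_of_snd hψ)
  obtain ⟨Mω, hMω⟩ := exists_isometry (isInner₂_of_fst hφ)
  have hχ : ∀ z : Bidisk, χ z = χ (pr₂ z) := fun z => rfl
  have hω : ∀ z : Bidisk, ω z = ω (pr₁ z) := fun z => rfl
  replace hMχ : ∀ (f : H2) (z : Bidisk), ev (Mχ f) z = χ z * ev f z := hMχ
  replace hMω : ∀ (f : H2) (z : Bidisk), ev (Mω f) z = ω z * ev f z := hMω
  have hθ' : ∀ z : Bidisk, θ z = ω z * χ z := fun z => hθ z z.2
  set M : H2 →ₗᵢ[ℂ] H2 := Mχ.comp Mω with hMdef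
  have hMapp : ∀ f, M f = Mχ (Mω f) := fun f => rfl
  have hM : ∀ (f : H2) (z : Bidisk), ev (M f) z = θ z * ev f z := by
    intro f z
    rw [hMapp, hMχ, hMω, hθ']
    ring
  have hadjM : ∀ f, adj M f = adj Mω (adj Mχ f) := by
    intro f
    refine ext_inner_left ℂ fun v => ?_
    rw [inner_adj_right, hMapp, inner_adj_right, inner_adj_right]
  -- the kernels
  obtain ⟨q₁, hq₁⟩ := pos_kernel₂ hχ hMχ
  obtain ⟨q₂, hq₂⟩ := pos_kernel₁ hω hMω
  set K₁ : Bidisk → Bidisk → ℂ := fun z w => (1 - χ z * conj (χ w)) / (1 - z.1.2 * conj w.1.2)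
    with hK₁
  set K₂ : Bidisk → Bidisk → ℂ := fun z w =>
    χ z * conj (χ w) * ((1 - ω z * conj (ω w)) / (1 - z.1.1 * conj w.1.1)) with hK₂
  have hpair : IsAglerPair θ K₁ K₂ := by
    refine ⟨?_, ?_, fun z w => ?_⟩
    · have h1 := posSemidef_gram q₁
      have h2 : (Matrix.of fun z w => ⟪q₁ z, q₁ w⟫_ℂ) = Matrix.of K₁ := by
        ext z w
        simp only [Matrix.of_apply]
        rw [hq₁]
      rwa [h2] at h1
    · have h1 := posSemidef_gram (fun z : Bidisk => conj (χ z) • q₂ z)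
      have h2 : (Matrix.of fun z w : Bidisk => ⟪conj (χ z) • q₂ z, conj (χ w) • q₂ w⟫_ℂ) =
          Matrix.of K₂ := by
        ext z w
        simp only [Matrix.of_apply]
        rw [inner_smul_left, inner_smul_right, hq₂, RCLike.conj_conj, hK₂]
        ring
      rwa [h2] at h1
    · have d1 := den₁_ne_zero z w
      have d2 := den₂_ne_zero z w
      simp only [hK₁, hK₂]
      rw [hθ', hθ', map_mul]
      field_simp
      ring
  -- the projections
  set A₁ : H2 →L[ℂ] H2 := ContinuousLinearMap.id ℂ H2 - Mχ.toContinuousLinearMap ∘L adj Mχ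
    with hA₁
  set A₂ : H2 →L[ℂ] H2 := Mχ.toContinuousLinearMap ∘L adj Mχ - M.toContinuousLinearMap ∘L adj M
    with hA₂
  have hA₁app : ∀ f, A₁ f = f - Mχ (adj Mχ f) := fun f => rfl
  have hA₂app : ∀ f, A₂ f = Mχ (adj Mχ f) - M (adj M f) := fun f => rfl
  have hMad : ∀ f, M (adj M f) = Mχ (Mω (adj Mω (adj Mχ f))) := by
    intro f
    rw [hadjM, hMapp]
  have e₁ : ∀ f : mSpace θ, (f ∈ agl₁ θ K₁ ↔ adj Mχ (f : H2) = 0) := by
    intro f
    have h1 := memRKHS_projection (A := A₁) (k := kern₁ K₁) ?_ ?_ ?_ (f : H2)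
    · change MemRKHS (kern₁ K₁) (fun z : Bidisk => ev (f : H2) z) ↔ _
      rw [h1, hA₁app, sub_eq_self]
      constructor
      · intro h2
        have h3 := congrArg (adj Mχ) h2
        rwa [adj_apply_self, map_zero] at h3
      · intro h2
        rw [h2, map_zero]
    · intro f
      rw [hA₁app, hA₁app, map_sub, adj_apply_self, sub_self, map_zero, sub_zero]
    · intro f g
      rw [hA₁app, hA₁app, inner_sub_left, inner_sub_right, ← inner_adj_left, ← inner_adj_right]
    · intro z w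
      rw [hA₁app, inner_sub_right, inner_proj Mχ hMχ]
      change kern₁ K₁ z w = sz z w - _
      rw [sz_eq, kern₁, hK₁]
      have d1 := den₁_ne_zero z w
      have d2 := den₂_ne_zero z w
      field_simp
  have e₂ : ∀ f : mSpace θ, (f ∈ agl₂ θ K₂ ↔ Mχ (adj Mχ (f : H2)) = (f : H2)) := by
    intro f
    have hf : adj M (f : H2) = 0 := by
      refine ext_inner_left ℂ fun v => ?_
      rw [inner_adj_right, inner_zero_right]
      exact (mem_mSpace_iff hM).1 f.2 v
    have h1 := memRKHS_projection (A := A₂) (k := kern₂ K₂) ?_ ?_ ?_ (f : H2)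
    · change MemRKHS (kern₂ K₂) (fun z : Bidisk => ev (f : H2) z) ↔ _
      rw [h1, hA₂app, hf, map_zero, sub_zero]
    · intro f
      rw [hA₂app, hA₂app, hMad, hMad]
      simp only [map_sub, adj_apply_self]
      abel
    · intro f g
      rw [hA₂app, hA₂app, inner_sub_left, inner_sub_right, ← inner_adj_left, ← inner_adj_left,
        ← inner_adj_right, ← inner_adj_right]
    · intro z w
      rw [hA₂app, inner_sub_right, inner_proj Mχ hMχ, inner_proj M hM]
      rw [sz_eq, kern₂, hK₂, hθ', hθ', map_mul]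
      have d1 := den₁_ne_zero z w
      have d2 := den₂_ne_zero z w
      field_simp
  -- the subspaces
  set M₁ : Submodule ℂ (mSpace θ) :=
    LinearMap.ker ((adj Mχ).toLinearMap ∘ₗ (mSpace θ).subtype) with hM₁
  have hmem₁ : ∀ f : mSpace θ, f ∈ M₁ ↔ adj Mχ (f : H2) = 0 := by
    intro f
    rw [hM₁, LinearMap.mem_ker]
    rfl
  have hclosed : IsClosed (M₁ : Set (mSpace θ)) := by
    have : (M₁ : Set (mSpace θ)) = (fun f : mSpace θ => adj Mχ (f : H2)) ⁻¹' {0} := by
      ext f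
      simpa using hmem₁ f
    rw [this]
    exact isClosed_singleton.preimage (by fun_prop)
  have hcomplete : CompleteSpace M₁ := hclosed.completeSpace_coe
  have horth : M₁ᗮᗮ = M₁ := Submodule.orthogonal_orthogonal M₁
  have hmem₂ : ∀ f : mSpace θ, f ∈ M₁ᗮ ↔ Mχ (adj Mχ (f : H2)) = (f : H2) := by
    intro f
    have hf : adj M (f : H2) = 0 := by
      refine ext_inner_left ℂ fun v => ?_
      rw [inner_adj_right, inner_zero_right]
      exact (mem_mSpace_iff hM).1 f.2 v
    rw [Submodule.mem_orthogonal]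
    constructor
    · intro h1
      set d : H2 := (f : H2) - Mχ (adj Mχ (f : H2)) with hd
      have hd1 : adj Mχ d = 0 := by
        rw [hd, map_sub, adj_apply_self, sub_self]
      have hd2 : d ∈ mSpace θ := by
        rw [mem_mSpace_iff hM]
        intro v
        rw [← inner_adj_right, hadjM, hd1, map_zero, inner_zero_right]
      have h2 := h1 ⟨d, hd2⟩ ((hmem₁ _).2 hd1)
      rw [Submodule.coe_inner] at h2
      have h3 : ⟪d, d⟫_ℂ = 0 := by
        have h4 : ⟪d, d⟫_ℂ = ⟪d, (f : H2)⟫_ℂ - ⟪d, Mχ (adj Mχ (f : H2))⟫_ℂ := by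
          rw [← inner_sub_right]
        have h5 : ⟪d, Mχ (adj Mχ (f : H2))⟫_ℂ = 0 := by
          rw [← inner_adj_left, hd1, inner_zero_left]
        rw [h4, h5, sub_zero]
        exact h2
      rw [inner_self_eq_zero, hd, sub_eq_zero] at h3
      exact h3.symm
    · intro h1 g hg
      rw [hmem₁] at hg
      rw [Submodule.coe_inner, ← h1, ← inner_adj_left, hg, inner_zero_left]
  have hS : ∀ f : mSpace θ, f ∈ M₁ → compr θ T₁ f ∈ M₁ := by
    intro f hf
    rw [hmem₁] at hf
    have h1 : adj Mχ (T₁ (f : H2)) = 0 := by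
      rw [adj_T_comm (adjoint_T₁_comm hχ hMχ), hf, map_zero]
    have h2 : T₁ (f : H2) ∈ mSpace θ := by
      rw [mem_mSpace_iff hM]
      intro v
      rw [← inner_adj_right, hadjM, h1, map_zero, inner_zero_right]
    have h3 : compr θ T₁ f = ⟨T₁ (f : H2), h2⟩ := by
      simp only [compr, ContinuousLinearMap.comp_apply, Submodule.subtypeL_apply]
      exact Submodule.orthogonalProjectionOnto_mem_subspace_eq_self
        (⟨T₁ (f : H2), h2⟩ : mSpace θ)
    rw [h3, hmem₁]
    exact h1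
  have hS' : ∀ f : mSpace θ, f ∈ M₁ →
      ContinuousLinearMap.adjoint (compr θ T₁) f ∈ M₁ := by
    intro f hf
    rw [hmem₁] at hf ⊢
    rw [adjoint_compr hM (comm_T₁ hM), adj_adjoint_comm (comm_T₁ hMχ), hf, map_zero]
  refine ⟨K₁, K₂, hpair, M₁, M₁ᗮ, rfl, horth, ?_, ?_, ?_, ?_⟩
  · ext f
    rw [e₁, SetLike.mem_coe, hmem₁]
  · ext f
    rw [e₂, SetLike.mem_coe, hmem₂]
  · intro f hf
    exact ⟨hS f hf, hS' f hf⟩
  · intro f hf
    rw [SetLike.mem_coe, Submodule.mem_orthogonal] at hf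
    constructor
    · rw [SetLike.mem_coe, Submodule.mem_orthogonal]
      intro g hg
      rw [← ContinuousLinearMap.adjoint_inner_left]
      exact hf _ (hS' g hg)
    · rw [SetLike.mem_coe, Submodule.mem_orthogonal]
      intro g hg
      rw [ContinuousLinearMap.adjoint_inner_right]
      exact hf _ (hS g hg)

end Pool.Agent.AglerBidisk
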