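import Pool.Agent.helper33.AglerKernel

/-!
# The operators attached to a pair of Agler kernels
-/

open Filter Topology ComplexConjugate InnerProductSpace MeasureTheory
open scoped ComplexOrder Real

namespace Pool.Agent.AglerBidisk

/-- The point `(z₁, 0)`. -/
def pr₁ (z : Bidisk) : Bidisk := ⟨(z.1.1, 0), by
  have := mem_Bidisk.1 z.2
  rw [mem_Bidisk]
  simp [this.1]⟩

/-- The point `(0, z₂)`. -/
def pr₂ (z : Bidisk) : Bidisk := ⟨(0, z.1.2), by
  have := mem_Bidisk.1 z.2
  rw [mem_Bidisk]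
  simp [this.2]⟩

theorem sz_pr₁ (z w : Bidisk) : sz (pr₁ z) (pr₁ w) = (1 - z.1.1 * conj w.1.1)⁻¹ := by
  rw [sz_eq]
  simp [pr₁]

theorem sz_pr₂ (z w : Bidisk) : sz (pr₂ z) (pr₂ w) = (1 - z.1.2 * conj w.1.2)⁻¹ := by
  rw [sz_eq]
  simp [pr₂]

theorem posSemidef_kern₁ {K₁ : Bidisk → Bidisk → ℂ} (h : (Matrix.of K₁).PosSemidef) :
    (Matrix.of (kern₁ K₁)).PosSemidef := by
  have h1 := h.hadamard (posSemidef_gram (fun z => szego (pr₁ z)))
  have h2 : Matrix.of (kern₁ K₁) = (Matrix.of K₁).hadamard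
      (Matrix.of fun z w => ⟪szego (pr₁ z), szego (pr₁ w)⟫_ℂ) := by
    ext z w
    have := sz_pr₁ z w
    unfold sz at this
    simp only [Matrix.hadamard_apply, Matrix.of_apply, this, kern₁, div_eq_mul_inv]
  rw [h2]
  exact h1

theorem posSemidef_kern₂ {K₂ : Bidisk → Bidisk → ℂ} (h : (Matrix.of K₂).PosSemidef) :
    (Matrix.of (kern₂ K₂)).PosSemidef := by
  have h1 := h.hadamard (posSemidef_gram (fun z => szego (pr₂ z)))
  have h2 : Matrix.of (kern₂ K₂) = (Matrix.of K₂).hadamard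
      (Matrix.of fun z w => ⟪szego (pr₂ z), szego (pr₂ w)⟫_ℂ) := by
    ext z w
    have := sz_pr₂ z w
    unfold sz at this
    simp only [Matrix.hadamard_apply, Matrix.of_apply, this, kern₂, div_eq_mul_inv]
  rw [h2]
  exact h1

theorem adjoint_T₁_szego (w : Bidisk) :
    ContinuousLinearMap.adjoint T₁ (szego w) = conj w.1.1 • szego w := by
  refine ext_inner_right ℂ fun f => ?_
  rw [ContinuousLinearMap.adjoint_inner_left, inner_smul_left, inner_szego, inner_szego, ev_T₁]
  simp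

theorem adjoint_T₂_szego (w : Bidisk) :
    ContinuousLinearMap.adjoint T₂ (szego w) = conj w.1.2 • szego w := by
  refine ext_inner_right ℂ fun f => ?_
  rw [ContinuousLinearMap.adjoint_inner_left, inner_smul_left, inner_szego, inner_szego, ev_T₂]
  simp

theorem adjoint_M_szego {θ : ℂ × ℂ → ℂ} {M : H2 →ₗᵢ[ℂ] H2}
    (hM : ∀ (f : H2) (z : Bidisk), ev (M f) z = θ z * ev f z) (w : Bidisk) :
    ContinuousLinearMap.adjoint M.toContinuousLinearMap (szego w) = conj (θ w) • szego w := by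
  refine ext_inner_right ℂ fun f => ?_
  rw [ContinuousLinearMap.adjoint_inner_left, inner_smul_left, inner_szego, inner_szego]
  simp only [LinearIsometry.coe_toContinuousLinearMap]
  rw [hM]
  simp

theorem comm_T₁ {θ : ℂ × ℂ → ℂ} {M : H2 →ₗᵢ[ℂ] H2}
    (hM : ∀ (f : H2) (z : Bidisk), ev (M f) z = θ z * ev f z) (v : H2) : M (T₁ v) = T₁ (M v) := by
  refine sub_eq_zero.1 (ev_injective fun z => ?_)
  rw [ev_sub, hM, ev_T₁, ev_T₁, hM]
  ring

theorem comm_T₂ {θ : ℂ × ℂ → ℂ} {M : H2 →ₗᵢ[ℂ] H2}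
    (hM : ∀ (f : H2) (z : Bidisk), ev (M f) z = θ z * ev f z) (v : H2) : M (T₂ v) = T₂ (M v) := by
  refine sub_eq_zero.1 (ev_injective fun z => ?_)
  rw [ev_sub, hM, ev_T₂, ev_T₂, hM]
  ring

theorem kern_sum {θ : ℂ × ℂ → ℂ} {K₁ K₂ : Bidisk → Bidisk → ℂ} (hK : IsAglerPair θ K₁ K₂)
    (z w : Bidisk) : kern₁ K₁ z w + kern₂ K₂ z w + θ z * conj (θ w) * sz z w = sz z w := by
  have h1 := hK.eq z w
  have d1 := den₁_ne_zero z w
  have d2 := den₂_ne_zero z w
  rw [sz_eq, kern₁, kern₂]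
  field_simp
  linear_combination (-1 : ℂ) * h1

theorem inner_adjoint_M {θ : ℂ × ℂ → ℂ} {M : H2 →ₗᵢ[ℂ] H2}
    (hM : ∀ (f : H2) (z : Bidisk), ev (M f) z = θ z * ev f z) (z w : Bidisk) :
    ⟪ContinuousLinearMap.adjoint M.toContinuousLinearMap (szego z),
      ContinuousLinearMap.adjoint M.toContinuousLinearMap (szego w)⟫_ℂ =
      θ z * conj (θ w) * sz z w := by
  rw [adjoint_M_szego hM, adjoint_M_szego hM, inner_smul_left, inner_smul_right, sz]
  simp
  ring

theorem dom₁ {θ : ℂ × ℂ → ℂ} {M : H2 →ₗᵢ[ℂ] H2}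
    (hM : ∀ (f : H2) (z : Bidisk), ev (M f) z = θ z * ev f z)
    {K₁ K₂ : Bidisk → Bidisk → ℂ} (hK : IsAglerPair θ K₁ K₂) :
    (Matrix.of fun z w => sz z w - kern₁ K₁ z w).PosSemidef := by
  have h1 := (posSemidef_kern₂ hK.pos₂).add (posSemidef_gram
    (fun z => ContinuousLinearMap.adjoint M.toContinuousLinearMap (szego z)))
  convert h1 using 1
  ext z w
  simp only [Matrix.of_apply, Matrix.add_apply]
  rw [inner_adjoint_M hM]
  linear_combination (-1 : ℂ) * kern_sum hK z w

theorem dom₂ {θ : ℂ × ℂ → ℂ} {M : H2 →ₗᵢ[ℂ] H2}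
    (hM : ∀ (f : H2) (z : Bidisk), ev (M f) z = θ z * ev f z)
    {K₁ K₂ : Bidisk → Bidisk → ℂ} (hK : IsAglerPair θ K₁ K₂) :
    (Matrix.of fun z w => sz z w - kern₂ K₂ z w).PosSemidef := by
  have h1 := (posSemidef_kern₁ hK.pos₁).add (posSemidef_gram
    (fun z => ContinuousLinearMap.adjoint M.toContinuousLinearMap (szego z)))
  convert h1 using 1
  ext z w
  simp only [Matrix.of_apply, Matrix.add_apply]
  rw [inner_adjoint_M hM]
  linear_combination (-1 : ℂ) * kern_sum hK z w

/-- `‖V T† v‖ ≤ ‖V v‖` when `V` realises a kernel `k` such that `(1 - c(z) c(w)^*) k(z, w)` is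
positive and `T†` multiplies the Szegő kernel function at `w` by `c(w)^*`. -/
theorem norm_V_adjoint_le {k : Bidisk → Bidisk → ℂ} [hk : Fact (opKernel k).PosSemidef]
    {V : H2 →L[ℂ] RKHS.OfKernel (opKernel k)} (hV : ∀ w, V (szego w) = kf k w)
    {c : Bidisk → ℂ} {Td : H2 →L[ℂ] H2} (hT : ∀ w, Td (szego w) = conj (c w) • szego w)
    (hpos : (Matrix.of fun z w => (1 - c z * conj (c w)) * k z w).PosSemidef) (v : H2) :
    ‖V (Td v)‖ ≤ ‖V v‖ := by
  refine denseRange_szego.induction_on v (isClosed_le (by fun_prop) (by fun_prop)) fun a => ?_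
  have h1 : V (Finsupp.linearCombination ℂ szego a) = Finsupp.linearCombination ℂ (kf k) a := by
    rw [Finsupp.linearCombination_apply, Finsupp.linearCombination_apply, map_finsuppSum]
    refine Finsupp.sum_congr fun i _ => ?_
    rw [map_smul, hV]
  have h2 : V (Td (Finsupp.linearCombination ℂ szego a)) =
      Finsupp.linearCombination ℂ (fun w => conj (c w) • kf k w) a := by
    rw [Finsupp.linearCombination_apply, Finsupp.linearCombination_apply, map_finsuppSum,
      map_finsuppSum]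
    refine Finsupp.sum_congr fun i _ => ?_
    rw [map_smul, map_smul, hT, map_smul, hV]
  rw [h1, h2]
  have h3 := hpos.2 a
  have h4 : (a.sum fun i xi => a.sum fun j xj => star xi *
        (Matrix.of fun z w => (1 - c z * conj (c w)) * k z w) i j * xj) =
        ⟪Finsupp.linearCombination ℂ (kf k) a, Finsupp.linearCombination ℂ (kf k) a⟫_ℂ -
        ⟪Finsupp.linearCombination ℂ (fun w => conj (c w) • kf k w) a,
          Finsupp.linearCombination ℂ (fun w => conj (c w) • kf k w) a⟫_ℂ := by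
    rw [inner_linearCombination, inner_linearCombination, ← Finsupp.sum_sub]
    refine Finsupp.sum_congr fun i _ => ?_
    rw [← Finsupp.sum_sub]
    refine Finsupp.sum_congr fun j _ => ?_
    rw [inner_smul_left, inner_smul_right, inner_kf_kf]
    simp only [Matrix.of_apply, RCLike.conj_conj]
    ring
  rw [h4] at h3
  have h5 := (Complex.nonneg_iff.1 h3).1
  rw [Complex.sub_re] at h5
  refine (pow_le_pow_iff_left₀ (norm_nonneg _) (norm_nonneg _) two_ne_zero).1 ?_
  rw [← inner_self_eq_norm_sq (𝕜 := ℂ), ← inner_self_eq_norm_sq (𝕜 := ℂ)]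
  simp only [RCLike.re_to_complex]
  linarith

/-- A pair of Agler kernels gives the operator data used in the abstract argument. -/
theorem exists_aglerData {θ : ℂ × ℂ → ℂ} {M : H2 →ₗᵢ[ℂ] H2}
    (hM : ∀ (f : H2) (z : Bidisk), ev (M f) z = θ z * ev f z)
    {K₁ K₂ : Bidisk → Bidisk → ℂ} (hK : IsAglerPair θ K₁ K₂)
    [h₁ : Fact (opKernel (kern₁ K₁)).PosSemidef] [h₂ : Fact (opKernel (kern₂ K₂)).PosSemidef] :
    ∃ (V₁ : H2 →L[ℂ] RKHS.OfKernel (opKernel (kern₁ K₁)))
      (V₂ : H2 →L[ℂ] RKHS.OfKernel (opKernel (kern₂ K₂))),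
      AglerData V₁ V₂ M T₁ T₂ ∧
      (∀ (h : RKHS.OfKernel (opKernel (kern₁ K₁))) (z : Bidisk),
        ev (ContinuousLinearMap.adjoint V₁ h) z = h z) ∧
      (∀ (h : RKHS.OfKernel (opKernel (kern₂ K₂))) (z : Bidisk),
        ev (ContinuousLinearMap.adjoint V₂ h) z = h z) := by
  obtain ⟨V₁, hV₁, hJ₁⟩ := exists_V (dom₁ hM hK)
  obtain ⟨V₂, hV₂, hJ₂⟩ := exists_V (dom₂ hM hK)
  refine ⟨V₁, V₂, ⟨?_, ?_, ?_, comm_T₁ hM, comm_T₂ hM⟩, hJ₁, hJ₂⟩
  · set A : H2 →L[ℂ] H2 := ContinuousLinearMap.adjoint V₁ ∘L V₁ +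
      ContinuousLinearMap.adjoint V₂ ∘L V₂ + M.toContinuousLinearMap ∘L
      ContinuousLinearMap.adjoint M.toContinuousLinearMap with hA
    have hsz : ∀ w, A (szego w) = szego w := by
      intro w
      refine sub_eq_zero.1 (ev_injective fun z => ?_)
      have e1 : ev (szego w) z = sz z w := (inner_szego z (szego w)).symm
      rw [ev_sub, e1, hA]
      simp only [add_apply, ContinuousLinearMap.comp_apply]
      have e2 := ContinuousLinearMap.adjoint_inner_left M.toContinuousLinearMap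
        (ContinuousLinearMap.adjoint M.toContinuousLinearMap (szego w)) (szego z)
      rw [ev_add, ev_add, ← inner_szego z (ContinuousLinearMap.adjoint V₁ _),
        ← inner_szego z (ContinuousLinearMap.adjoint V₂ _),
        ← inner_szego z (M.toContinuousLinearMap _), ContinuousLinearMap.adjoint_inner_right,
        ContinuousLinearMap.adjoint_inner_right, ← e2,
        inner_adjoint_M hM, hV₁, hV₁, hV₂, hV₂, inner_kf_kf, inner_kf_kf, kern_sum hK, sub_self]
    have hAid : (A : H2 → H2) = id := by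
      refine DenseRange.equalizer denseRange_szego A.continuous continuous_id ?_
      funext a
      simp only [Function.comp, id]
      rw [Finsupp.linearCombination_apply, map_finsuppSum]
      refine Finsupp.sum_congr fun i _ => ?_
      rw [map_smul, hsz]
    intro u v
    have h1 : ⟪u, A v⟫_ℂ = ⟪u, v⟫_ℂ := by rw [hAid]; rfl
    have e2 := ContinuousLinearMap.adjoint_inner_left M.toContinuousLinearMap
        (ContinuousLinearMap.adjoint M.toContinuousLinearMap v) u
    rw [← h1, hA]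
    simp only [add_apply, ContinuousLinearMap.comp_apply]
    rw [inner_add_right, inner_add_right, ContinuousLinearMap.adjoint_inner_right V₁ u,
      ContinuousLinearMap.adjoint_inner_right V₂ u, ← e2]
  · refine norm_V_adjoint_le hV₁ (c := fun w => w.1.1) adjoint_T₁_szego ?_
    convert hK.pos₁ using 1
    ext z w
    simp only [Matrix.of_apply, kern₁]
    rw [mul_div_cancel₀ _ (den₁_ne_zero z w)]
  · refine norm_V_adjoint_le hV₂ (c := fun w => w.1.2) adjoint_T₂_szego ?_
    convert hK.pos₂ using 1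
    ext z w
    simp only [Matrix.of_apply, kern₂]
    rw [mul_div_cancel₀ _ (den₂_ne_zero z w)]

end Pool.Agent.AglerBidisk
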