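import Pool.Agent.helper33.AglerStatement

/-!
# The coefficient model of the Hardy space of the bidisk
-/

open Filter Topology ComplexConjugate
open scoped ComplexOrder

namespace Pool.Agent.AglerBidisk

/-- The Hardy space `H²(𝔻²)`, as the Hilbert space of square summable families of Taylor
coefficients: `f` stands for the function `∑ f (m, n) z₁^m z₂^n` on `𝔻²`. -/
abbrev H2 : Type := lp (fun _ : ℕ × ℕ => ℂ) 2

/-- The value at the point `z` of the function in `H²(𝔻²)` with Taylor coefficients `f`. -/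
noncomputable def ev (f : H2) (z : ℂ × ℂ) : ℂ := ∑' n : ℕ × ℕ, f n * (z.1 ^ n.1 * z.2 ^ n.2)

/-- The index maps `(m, n) ↦ (m + 1, n)` and `(m, n) ↦ (m, n + 1)`. -/
def up₁ (n : ℕ × ℕ) : ℕ × ℕ := (n.1 + 1, n.2)

/-- See `up₁`. -/
def up₂ (n : ℕ × ℕ) : ℕ × ℕ := (n.1, n.2 + 1)

theorem up₁_injective : Function.Injective up₁ := by
  rintro ⟨a, b⟩ ⟨c, d⟩ h
  simpa [up₁] using h

theorem up₂_injective : Function.Injective up₂ := by
  rintro ⟨a, b⟩ ⟨c, d⟩ h
  simpa [up₂] using h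

section Shift

variable {ι κ : Type} {u : ι → κ}

/-- Extending a square summable family by zero along an injective map of the index set. -/
theorem memℓp_extend (hu : Function.Injective u) (f : lp (fun _ : ι => ℂ) 2) :
    Memℓp (E := fun _ : κ => ℂ) (Function.extend u f 0) 2 := by
  have h0 : (0 : ℝ) < (2 : ENNReal).toReal := by norm_num
  refine (memℓp_gen_iff h0).2 ?_
  have h1 := (memℓp_gen_iff h0).1 (lp.memℓp f)
  rw [← hu.summable_iff]
  · refine h1.congr fun n => ?_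
    simp [hu.extend_apply]
  · intro n hn
    have : Function.extend u f 0 n = 0 := by
      rw [Function.extend_apply' _ _ _ (fun ⟨a, ha⟩ => hn ⟨a, ha⟩)]
      rfl
    rw [this]
    norm_num

theorem norm_extend (hu : Function.Injective u) (f : lp (fun _ : ι => ℂ) 2) :
    ‖(⟨Function.extend u f 0, memℓp_extend hu f⟩ : lp (fun _ : κ => ℂ) 2)‖ = ‖f‖ := by
  have h0 : (0 : ℝ) < (2 : ENNReal).toReal := by norm_num
  rw [lp.norm_eq_tsum_rpow h0, lp.norm_eq_tsum_rpow h0]
  congr 1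
  rw [← hu.tsum_eq]
  · refine tsum_congr fun n => ?_
    simp [hu.extend_apply]
  · intro n hn
    by_contra hn'
    apply hn
    have : Function.extend u f 0 n = 0 := by
      rw [Function.extend_apply' _ _ _ (fun ⟨a, ha⟩ => hn' ⟨a, ha⟩)]
      rfl
    change ‖Function.extend u f 0 n‖ ^ (2 : ENNReal).toReal = 0
    rw [this]
    norm_num

/-- The isometry between spaces of square summable families which moves the entry of index `n`
to the index `u n`, and puts zeros at the indices outside the range of `u`. -/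
noncomputable def shift (u : ι → κ) (hu : Function.Injective u) :
    lp (fun _ : ι => ℂ) 2 →ₗᵢ[ℂ] lp (fun _ : κ => ℂ) 2 where
  toFun f := ⟨Function.extend u f 0, memℓp_extend hu f⟩
  map_add' f g := by
    ext n
    by_cases h : ∃ a, u a = n
    · obtain ⟨a, rfl⟩ := h
      simp [hu.extend_apply]
    · simp [Function.extend_apply' _ _ _ h]
  map_smul' c f := by
    ext n
    by_cases h : ∃ a, u a = n
    · obtain ⟨a, rfl⟩ := h
      simp [hu.extend_apply]
    · simp [Function.extend_apply' _ _ _ h]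
  norm_map' f := norm_extend hu f

end Shift

/-- The operator `T_{z₁}` of multiplication by `z₁` on `H²(𝔻²)`. -/
noncomputable def T₁ : H2 →L[ℂ] H2 := (shift up₁ up₁_injective).toContinuousLinearMap

/-- The operator `T_{z₂}` of multiplication by `z₂` on `H²(𝔻²)`. -/
noncomputable def T₂ : H2 →L[ℂ] H2 := (shift up₂ up₂_injective).toContinuousLinearMap

/-- The model space `K_θ = H²(𝔻²) ⊖ θ H²(𝔻²)`. -/
noncomputable abbrev mSpace (θ : ℂ × ℂ → ℂ) : Submodule ℂ H2 :=
  (Submodule.span ℂ {g : H2 | ∃ f : H2, ∀ z ∈ Bidisk, ev g z = θ z * ev f z})ᗮ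

/-- The compr `P_θ T |_{K_θ}` to the model space of an operator `T` on `H²(𝔻²)`; for
`T = T_{z_j}` this is the compressed shift `S_{z_j}`. -/
noncomputable def compr (θ : ℂ × ℂ → ℂ) (T : H2 →L[ℂ] H2) :
    mSpace θ →L[ℂ] mSpace θ :=
  (mSpace θ).orthogonalProjectionOnto ∘L T ∘L (mSpace θ).subtypeL

/-- The Agler subspace `𝓢₁ = 𝓗(K₁(z, w) / (1 - z₁ w₁^*))`, viewed inside `K_θ`. -/
def agl₁ (θ : ℂ × ℂ → ℂ) (K₁ : Bidisk → Bidisk → ℂ) : Set (mSpace θ) :=
  {f | MemRKHS (kern₁ K₁) (fun z : Bidisk => ev f z)}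

/-- The Agler subspace `𝓢₂ = 𝓗(K₂(z, w) / (1 - z₂ w₂^*))`, viewed inside `K_θ`. -/
def agl₂ (θ : ℂ × ℂ → ℂ) (K₂ : Bidisk → Bidisk → ℂ) : Set (mSpace θ) :=
  {f | MemRKHS (kern₂ K₂) (fun z : Bidisk => ev f z)}

/-- The compressed shift `S = P_θ T |_{K_θ}`, where `T` is `T_{z₁}` or `T_{z₂}`, has reducing
Agler subspaces: for some pair of Agler kernels of `θ`, both Agler subspaces `𝓢₁` and `𝓢₂` are
invariant under `S` and `S^*`. -/
def HasRed (θ : ℂ × ℂ → ℂ) (T : H2 →L[ℂ] H2) : Prop :=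
  ∃ K₁ K₂ : Bidisk → Bidisk → ℂ, IsAglerPair θ K₁ K₂ ∧
    IsReducing (compr θ T) (agl₁ θ K₁) ∧
    IsReducing (compr θ T) (agl₂ θ K₂)

/-- The strongest reading: for some pair of Agler kernels of `θ`, the Agler subspaces are closed
subspaces `M₁`, `M₂` of `K_θ`, orthogonal complements of each other, and both are invariant
under `S = P_θ T |_{K_θ}` and `S^*`. -/
def HasOrthRed (θ : ℂ × ℂ → ℂ) (T : H2 →L[ℂ] H2) : Prop :=
  ∃ K₁ K₂ : Bidisk → Bidisk → ℂ, IsAglerPair θ K₁ K₂ ∧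
    ∃ M₁ M₂ : Submodule ℂ (mSpace θ), M₁ᗮ = M₂ ∧ M₂ᗮ = M₁ ∧
      agl₁ θ K₁ = M₁ ∧ agl₂ θ K₂ = M₂ ∧
      IsReducing (compr θ T) (M₁ : Set (mSpace θ)) ∧
      IsReducing (compr θ T) (M₂ : Set (mSpace θ))

end Pool.Agent.AglerBidisk
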