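import Pool.Agent.helper33.AglerData

/-!
# Reducing Agler subspaces force a coefficient matrix of rank one
-/

open Filter Topology ComplexConjugate InnerProductSpace MeasureTheory
open scoped ComplexOrder Real

namespace Pool.Agent.AglerBidisk

variable {θ : ℂ × ℂ → ℂ} {M : H2 →ₗᵢ[ℂ] H2}

theorem mem_mSpace_iff (hM : ∀ (f : H2) (z : Bidisk), ev (M f) z = θ z * ev f z) {f : H2} :
    f ∈ mSpace θ ↔ ∀ h, ⟪M h, f⟫_ℂ = 0 := by
  rw [Submodule.mem_orthogonal]
  constructor
  · intro hf h
    exact hf _ (Submodule.subset_span ⟨h, fun z hz => hM h ⟨z, hz⟩⟩)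
  · intro hf g hg
    have hle : Submodule.span ℂ {g : H2 | ∃ f : H2, ∀ z ∈ Bidisk, ev g z = θ z * ev f z} ≤
        LinearMap.range M.toLinearMap := by
      refine Submodule.span_le.2 ?_
      rintro g ⟨h, hh⟩
      refine ⟨h, ?_⟩
      refine sub_eq_zero.1 (ev_injective fun z => ?_)
      have h1 := hM h z
      rw [ev_sub]
      change ev (M h) z - ev g z = 0
      rw [h1, hh z z.2, sub_self]
    obtain ⟨h, rfl⟩ := hle hg
    exact hf h

theorem adjoint_mem_mSpace (hM : ∀ (f : H2) (z : Bidisk), ev (M f) z = θ z * ev f z)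
    {T : H2 →L[ℂ] H2} (hT : ∀ v, M (T v) = T (M v)) {f : H2} (hf : f ∈ mSpace θ) :
    ContinuousLinearMap.adjoint T f ∈ mSpace θ := by
  rw [mem_mSpace_iff hM] at hf ⊢
  intro h
  rw [ContinuousLinearMap.adjoint_inner_right, ← hT, hf]

theorem adjoint_compr (hM : ∀ (f : H2) (z : Bidisk), ev (M f) z = θ z * ev f z)
    {T : H2 →L[ℂ] H2} (hT : ∀ v, M (T v) = T (M v)) (f : mSpace θ) :
    (ContinuousLinearMap.adjoint (compr θ T) f : H2) =
      ContinuousLinearMap.adjoint T (f : H2) := by
  have h1 : ContinuousLinearMap.adjoint (compr θ T) f =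
      ⟨ContinuousLinearMap.adjoint T (f : H2), adjoint_mem_mSpace hM hT f.2⟩ := by
    refine ext_inner_right ℂ fun g => ?_
    rw [ContinuousLinearMap.adjoint_inner_left, compr]
    simp only [ContinuousLinearMap.comp_apply, Submodule.subtypeL_apply]
    rw [Submodule.coe_inner, Submodule.coe_inner, ContinuousLinearMap.adjoint_inner_left]
    rw [← Submodule.coe_inner]
    rw [Submodule.inner_orthogonalProjectionOnto_eq_of_mem_left]
  rw [h1]

/-- The coefficient matrix of `θ`. -/
theorem ev_M_single (hM : ∀ (f : H2) (z : Bidisk), ev (M f) z = θ z * ev f z) (z : Bidisk) :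
    ev (M (lp.single 2 (0, 0) 1)) z = θ z := by
  rw [hM]
  have : ev (lp.single 2 (0, 0) (1 : ℂ)) z = 1 := by
    unfold ev
    rw [tsum_eq_single (0, 0)]
    · simp
    · intro n hn
      simp [hn]
  rw [this, mul_one]

section Shifts

variable {ι κ : Type} [DecidableEq ι] [DecidableEq κ] {u : ι → κ}

theorem shift_single (hu : Function.Injective u) (n : ι) (a : ℂ) :
    shift u hu (lp.single 2 n a) = lp.single 2 (u n) a := by
  ext k
  by_cases h : k ∈ Set.range u
  · obtain ⟨m, rfl⟩ := h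
    rw [shift_apply_apply]
    by_cases hm : m = n
    · subst hm
      simp
    · have : u m ≠ u n := fun h => hm (hu h)
      simp [hm, this]
  · rw [shift_apply_of_notMem hu _ h]
    have : k ≠ u n := fun h' => h ⟨n, h'.symm⟩
    simp [this]

theorem adjoint_shift_apply (hu : Function.Injective u) (f : lp (fun _ : κ => ℂ) 2) (n : ι) :
    ContinuousLinearMap.adjoint (shift u hu).toContinuousLinearMap f n = f (u n) := by
  have h1 : ⟪lp.single 2 n (1 : ℂ),
      ContinuousLinearMap.adjoint (shift u hu).toContinuousLinearMap f⟫_ℂ =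
      ⟪lp.single 2 (u n) (1 : ℂ), f⟫_ℂ := by
    rw [ContinuousLinearMap.adjoint_inner_right]
    simp only [LinearIsometry.coe_toContinuousLinearMap]
    rw [shift_single]
  rw [lp.inner_single_left, lp.inner_single_left] at h1
  simpa using h1

end Shifts

/-- The abstract form of the computation with rows: `emb m` embeds a copy of `ℓ²(ℕ)` into `H`
as the `m`-th row. -/
theorem rows_orthogonal {G₁ G₂ : Type*} [NormedAddCommGroup G₁] [InnerProductSpace ℂ G₁]
    [NormedAddCommGroup G₂] [InnerProductSpace ℂ G₂]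
    {V₁ : H2 →L[ℂ] G₁} {V₂ : H2 →L[ℂ] G₂} {M : H2 →ₗᵢ[ℂ] H2} {T T' : H2 →L[ℂ] H2}
    (D : AglerData V₁ V₂ M T T') (h3 : ∀ v, V₁ v = 0 → V₁ (T v) = 0)
    {e₀ : H2} (he : ContinuousLinearMap.adjoint T' e₀ = 0)
    (emb : ℕ → (L2N →ₗᵢ[ℂ] H2)) (P1 : ∀ m x, emb (m + 1) x = T (emb m x))
    (P2 : ∀ f : H2, f - T (ContinuousLinearMap.adjoint T f) =
      emb 0 (ContinuousLinearMap.adjoint (emb 0).toContinuousLinearMap f))
    (P3 : ∀ m x, T' (emb m x) = emb m (Sh x)) (i m k : ℕ) :
    ⟪ContinuousLinearMap.adjoint (emb m).toContinuousLinearMap (M e₀),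
      (Sh^[k + 1]) (ContinuousLinearMap.adjoint (emb i).toContinuousLinearMap (M e₀))⟫_ℂ = 0 := by
  -- the vectors `T†^i Θ` are killed by `V₁`
  have h4 : ∀ i : ℕ, V₁ ((ContinuousLinearMap.adjoint T ^ i) (M e₀)) = 0 := by
    intro i
    induction i with
    | zero => simpa using D.V₁_M e₀
    | succ i ih =>
      rw [pow_succ', mul_apply_eq_comp]
      exact D.V₁_adjoint ih
  -- adjoints of the embeddings
  have h5 : ∀ (i : ℕ) (f : H2), ContinuousLinearMap.adjoint (emb i).toContinuousLinearMap f =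
      ContinuousLinearMap.adjoint (emb 0).toContinuousLinearMap
        ((ContinuousLinearMap.adjoint T ^ i) f) := by
    intro i
    induction i with
    | zero => intro f; simp
    | succ i ih =>
      intro f
      rw [pow_succ, mul_apply_eq_comp, ← ih]
      refine ext_inner_right ℂ fun x => ?_
      rw [ContinuousLinearMap.adjoint_inner_left, ContinuousLinearMap.adjoint_inner_left,
        ContinuousLinearMap.adjoint_inner_left]
      simp only [LinearIsometry.coe_toContinuousLinearMap]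
      rw [P1]
  -- the rows belong to the kernel of `V₁`
  have h6 : V₁ (emb 0 (ContinuousLinearMap.adjoint (emb i).toContinuousLinearMap (M e₀))) = 0 := by
    rw [h5, ← P2, map_sub, h4, h3 _ (D.V₁_adjoint (h4 i)), sub_zero]
  have h7 : ∀ m : ℕ,
      V₁ (emb m (ContinuousLinearMap.adjoint (emb i).toContinuousLinearMap (M e₀))) = 0 := by
    intro m
    induction m with
    | zero => exact h6
    | succ m ih => rw [P1]; exact h3 _ ih
  have h8 := D.inner_eq_zero he (h7 m) k
  have h9 : ∀ (k : ℕ) (x : L2N), (T' ^ k) (emb m x) = emb m ((Sh^[k]) x) := by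
    intro k
    induction k with
    | zero => intro x; simp
    | succ k ih =>
      intro x
      rw [pow_succ, mul_apply_eq_comp, P3, ih, Function.iterate_succ_apply]
  rw [h9] at h8
  rw [ContinuousLinearMap.adjoint_inner_left]
  exact h8

/-- The embedding of `ℓ²(ℕ)` as the `m`-th row. -/
noncomputable def rowEmb (m : ℕ) : L2N →ₗᵢ[ℂ] H2 :=
  shift (fun n : ℕ => (m, n)) (fun a b h => by simpa using h)

/-- The embedding of `ℓ²(ℕ)` as the `m`-th column. -/
noncomputable def colEmb (m : ℕ) : L2N →ₗᵢ[ℂ] H2 :=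
  shift (fun n : ℕ => (n, m)) (fun a b h => by simpa using h)

theorem rowEmb_apply (m : ℕ) (x : L2N) (a b : ℕ) :
    rowEmb m x (a, b) = if a = m then x b else 0 := by
  by_cases h : a = m
  · subst h
    rw [if_pos rfl]
    exact shift_apply_apply (u := fun n : ℕ => (a, n)) _ x b
  · rw [if_neg h]
    refine shift_apply_of_notMem (u := fun n : ℕ => (m, n)) _ x ?_
    rintro ⟨n, hn⟩
    simp only [Prod.mk.injEq] at hn
    exact h hn.1.symm

theorem colEmb_apply (m : ℕ) (x : L2N) (a b : ℕ) :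
    colEmb m x (a, b) = if b = m then x a else 0 := by
  by_cases h : b = m
  · subst h
    rw [if_pos rfl]
    exact shift_apply_apply (u := fun n : ℕ => (n, b)) _ x a
  · rw [if_neg h]
    refine shift_apply_of_notMem (u := fun n : ℕ => (n, m)) _ x ?_
    rintro ⟨n, hn⟩
    simp only [Prod.mk.injEq] at hn
    exact h hn.2.symm

theorem T₁_apply_zero (f : H2) (b : ℕ) : T₁ f (0, b) = 0 :=
  shift_apply_of_notMem up₁_injective f (by
    rintro ⟨⟨x, y⟩, h⟩
    simp [up₁] at h)

theorem T₁_apply_succ (f : H2) (a b : ℕ) : T₁ f (a + 1, b) = f (a, b) :=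
  shift_apply_apply up₁_injective f (a, b)

theorem T₂_apply_zero (f : H2) (a : ℕ) : T₂ f (a, 0) = 0 :=
  shift_apply_of_notMem up₂_injective f (by
    rintro ⟨⟨x, y⟩, h⟩
    simp [up₂] at h)

theorem T₂_apply_succ (f : H2) (a b : ℕ) : T₂ f (a, b + 1) = f (a, b) :=
  shift_apply_apply up₂_injective f (a, b)

theorem adjoint_T₁_apply (f : H2) (a b : ℕ) :
    ContinuousLinearMap.adjoint T₁ f (a, b) = f (a + 1, b) :=
  adjoint_shift_apply up₁_injective f (a, b)

theorem adjoint_T₂_apply (f : H2) (a b : ℕ) :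
    ContinuousLinearMap.adjoint T₂ f (a, b) = f (a, b + 1) :=
  adjoint_shift_apply up₂_injective f (a, b)

theorem adjoint_rowEmb_apply (m : ℕ) (f : H2) (n : ℕ) :
    ContinuousLinearMap.adjoint (rowEmb m).toContinuousLinearMap f n = f (m, n) :=
  adjoint_shift_apply (u := fun n : ℕ => (m, n)) _ f n

theorem adjoint_colEmb_apply (m : ℕ) (f : H2) (n : ℕ) :
    ContinuousLinearMap.adjoint (colEmb m).toContinuousLinearMap f n = f (n, m) :=
  adjoint_shift_apply (u := fun n : ℕ => (n, m)) _ f n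

theorem Sh_apply_zero (x : L2N) : Sh x 0 = 0 :=
  shift_apply_of_notMem Nat.succ_injective x (by simp)

theorem Sh_apply_succ (x : L2N) (n : ℕ) : Sh x (n + 1) = x n :=
  shift_apply_apply Nat.succ_injective x n

theorem adjoint_T₁_single : ContinuousLinearMap.adjoint T₁ (lp.single 2 (0, 0) (1 : ℂ)) = 0 := by
  ext ⟨a, b⟩
  rw [adjoint_T₁_apply]
  simp

theorem adjoint_T₂_single : ContinuousLinearMap.adjoint T₂ (lp.single 2 (0, 0) (1 : ℂ)) = 0 := by
  ext ⟨a, b⟩
  rw [adjoint_T₂_apply]
  simp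

/-- If `𝓢₁` is invariant under the adjoint of `S_{z₁}`, the coefficient matrix of `θ` has rank at
most one. -/
theorem rank_one₁ (hM : ∀ (f : H2) (z : Bidisk), ev (M f) z = θ z * ev f z)
    {K₁ K₂ : Bidisk → Bidisk → ℂ} (hK : IsAglerPair θ K₁ K₂)
    (hred : ∀ f ∈ agl₁ θ K₁,
      ContinuousLinearMap.adjoint (compr θ T₁) f ∈ agl₁ θ K₁) (i m n n' : ℕ) :
    M (lp.single 2 (0, 0) 1) (i, n) * M (lp.single 2 (0, 0) 1) (m, n') =
      M (lp.single 2 (0, 0) 1) (i, n') * M (lp.single 2 (0, 0) 1) (m, n) := by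
  have h₁ : Fact (opKernel (kern₁ K₁)).PosSemidef :=
    ⟨opKernel_posSemidef (posSemidef_kern₁ hK.pos₁)⟩
  have h₂ : Fact (opKernel (kern₂ K₂)).PosSemidef :=
    ⟨opKernel_posSemidef (posSemidef_kern₂ hK.pos₂)⟩
  obtain ⟨V₁, V₂, D, hJ₁, hJ₂⟩ := exists_aglerData hM hK
  have h3 : ∀ v, V₁ v = 0 → V₁ (T₁ v) = 0 := by
    intro v hv
    refine ext_inner_right ℂ fun h => ?_
    rw [inner_zero_left, ← ContinuousLinearMap.adjoint_inner_right,
      ← ContinuousLinearMap.adjoint_inner_right]
    have hmem : ContinuousLinearMap.adjoint V₁ h ∈ mSpace θ := by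
      rw [mem_mSpace_iff hM]
      intro g
      rw [ContinuousLinearMap.adjoint_inner_right, D.V₁_M, inner_zero_left]
    have h4 : (⟨ContinuousLinearMap.adjoint V₁ h, hmem⟩ : mSpace θ) ∈ agl₁ θ K₁ := by
      refine ⟨h₁.out, h, ?_⟩
      funext z
      exact (hJ₁ h z).symm
    obtain ⟨h₁', g, hg⟩ := hred _ h4
    have h5 : ContinuousLinearMap.adjoint T₁ (ContinuousLinearMap.adjoint V₁ h) =
        ContinuousLinearMap.adjoint V₁ g := by
      refine sub_eq_zero.1 (ev_injective fun z => ?_)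
      rw [ev_sub, hJ₁ g z]
      have h6 := congrFun hg z
      rw [adjoint_compr hM (comm_T₁ hM)] at h6
      rw [← h6]
      exact sub_self _
    rw [h5, ContinuousLinearMap.adjoint_inner_right, hv, inner_zero_left]
  have key := rows_orthogonal D h3 adjoint_T₂_single rowEmb
    (fun m x => by
      ext ⟨a, b⟩
      rw [rowEmb_apply]
      rcases a with _ | a
      · rw [T₁_apply_zero, if_neg (by omega)]
      · rw [T₁_apply_succ, rowEmb_apply]
        by_cases h : a = m
        · simp [h]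
        · simp [h])
    (fun f => by
      ext ⟨a, b⟩
      rw [rowEmb_apply, lp.coeFn_sub, Pi.sub_apply, adjoint_rowEmb_apply]
      rcases a with _ | a
      · rw [T₁_apply_zero, if_pos rfl, sub_zero]
      · rw [T₁_apply_succ, adjoint_T₁_apply, if_neg (by omega), sub_self])
    (fun m x => by
      ext ⟨a, b⟩
      rw [rowEmb_apply]
      rcases b with _ | b
      · rw [T₂_apply_zero, Sh_apply_zero]
        simp
      · rw [T₂_apply_succ, rowEmb_apply, Sh_apply_succ])
  have := rank_one_of_rows _ key i m n n'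
  simpa only [adjoint_rowEmb_apply] using this

/-- If `𝓢₂` is invariant under the adjoint of `S_{z₂}`, the coefficient matrix of `θ` has rank at
most one. -/
theorem rank_one₂ (hM : ∀ (f : H2) (z : Bidisk), ev (M f) z = θ z * ev f z)
    {K₁ K₂ : Bidisk → Bidisk → ℂ} (hK : IsAglerPair θ K₁ K₂)
    (hred : ∀ f ∈ agl₂ θ K₂,
      ContinuousLinearMap.adjoint (compr θ T₂) f ∈ agl₂ θ K₂) (i m n n' : ℕ) :
    M (lp.single 2 (0, 0) 1) (i, n) * M (lp.single 2 (0, 0) 1) (m, n') =
      M (lp.single 2 (0, 0) 1) (i, n') * M (lp.single 2 (0, 0) 1) (m, n) := by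
  have h₁ : Fact (opKernel (kern₁ K₁)).PosSemidef :=
    ⟨opKernel_posSemidef (posSemidef_kern₁ hK.pos₁)⟩
  have h₂ : Fact (opKernel (kern₂ K₂)).PosSemidef :=
    ⟨opKernel_posSemidef (posSemidef_kern₂ hK.pos₂)⟩
  obtain ⟨V₁, V₂, D, hJ₁, hJ₂⟩ := exists_aglerData hM hK
  have h3 : ∀ v, V₂ v = 0 → V₂ (T₂ v) = 0 := by
    intro v hv
    refine ext_inner_right ℂ fun h => ?_
    rw [inner_zero_left, ← ContinuousLinearMap.adjoint_inner_right,
      ← ContinuousLinearMap.adjoint_inner_right]
    have hmem : ContinuousLinearMap.adjoint V₂ h ∈ mSpace θ := by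
      rw [mem_mSpace_iff hM]
      intro g
      rw [ContinuousLinearMap.adjoint_inner_right, D.symm.V₁_M, inner_zero_left]
    have h4 : (⟨ContinuousLinearMap.adjoint V₂ h, hmem⟩ : mSpace θ) ∈ agl₂ θ K₂ := by
      refine ⟨h₂.out, h, ?_⟩
      funext z
      exact (hJ₂ h z).symm
    obtain ⟨h₂', g, hg⟩ := hred _ h4
    have h5 : ContinuousLinearMap.adjoint T₂ (ContinuousLinearMap.adjoint V₂ h) =
        ContinuousLinearMap.adjoint V₂ g := by
      refine sub_eq_zero.1 (ev_injective fun z => ?_)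
      rw [ev_sub, hJ₂ g z]
      have h6 := congrFun hg z
      rw [adjoint_compr hM (comm_T₂ hM)] at h6
      rw [← h6]
      exact sub_self _
    rw [h5, ContinuousLinearMap.adjoint_inner_right, hv, inner_zero_left]
  have key := rows_orthogonal D.symm h3 adjoint_T₁_single colEmb
    (fun m x => by
      ext ⟨a, b⟩
      rw [colEmb_apply]
      rcases b with _ | b
      · rw [T₂_apply_zero, if_neg (by omega)]
      · rw [T₂_apply_succ, colEmb_apply]
        by_cases h : b = m
        · simp [h]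
        · simp [h])
    (fun f => by
      ext ⟨a, b⟩
      rw [colEmb_apply, lp.coeFn_sub, Pi.sub_apply, adjoint_colEmb_apply]
      rcases b with _ | b
      · rw [T₂_apply_zero, if_pos rfl, sub_zero]
      · rw [T₂_apply_succ, adjoint_T₂_apply, if_neg (by omega), sub_self])
    (fun m x => by
      ext ⟨a, b⟩
      rw [colEmb_apply]
      rcases a with _ | a
      · rw [T₁_apply_zero, Sh_apply_zero]
        simp
      · rw [T₁_apply_succ, colEmb_apply, Sh_apply_succ])
  have := rank_one_of_rows _ key n n' i m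
  simp only [adjoint_colEmb_apply] at this
  rw [this]
  ring

end Pool.Agent.AglerBidisk
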