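import Pool.Agent.helper33.AglerBasic

/-!
# Fourier analysis on the torus
-/

open Filter Topology ComplexConjugate InnerProductSpace MeasureTheory
open scoped ComplexOrder Real

namespace Pool.Agent.AglerBidisk

/-- Lebesgue measure on `(0, 2π]`. -/
noncomputable def ν : Measure ℝ := volume.restrict (Set.Ioc 0 (2 * π))

/-- Lebesgue measure on `(0, 2π]²`. -/
noncomputable def μ : Measure (ℝ × ℝ) := ν.prod ν

instance : IsFiniteMeasure ν := by
  unfold ν
  infer_instance

instance : IsFiniteMeasure μ := by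
  unfold μ
  infer_instance

theorem ae_μ_of_ae {p : ℝ × ℝ → Prop} (h : ∀ᵐ t, p t) : ∀ᵐ t ∂μ, p t := by
  unfold μ ν
  rw [Measure.prod_restrict]
  exact ae_restrict_of_ae h

theorem ae_ν_of_ae {p : ℝ → Prop} (h : ∀ᵐ t, p t) : ∀ᵐ t ∂ν, p t := by
  unfold ν
  exact ae_restrict_of_ae h

/-- The point `e^{i s}`. -/
noncomputable def e (s : ℝ) : ℂ := Complex.exp (s * Complex.I)

/-- The point `(e^{i t₁}, e^{i t₂})` of the torus. -/
noncomputable def E (t : ℝ × ℝ) : ℂ × ℂ := (e t.1, e t.2)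

@[simp] theorem norm_e (s : ℝ) : ‖e s‖ = 1 := Complex.norm_exp_ofReal_mul_I s

@[fun_prop] theorem continuous_e : Continuous e := by
  unfold e
  fun_prop

@[fun_prop] theorem continuous_E : Continuous E := by
  unfold E
  fun_prop

theorem norm_mono_E (t : ℝ × ℝ) (n : ℕ × ℕ) : ‖mono (E t) n‖ = 1 := by
  simp [norm_mono, E]

@[fun_prop] theorem continuous_mono (n : ℕ × ℕ) : Continuous (fun z => mono z n) := by
  unfold mono
  fun_prop

theorem integral_e (m n : ℕ) : ∫ s, conj (e s ^ n) * e s ^ m ∂ν = if n = m then (2 * π : ℂ) else 0 := by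
  have h1 : ∀ s : ℝ, conj (e s ^ n) * e s ^ m =
      Complex.exp ((((m : ℤ) - n : ℤ) * Complex.I) * s) := by
    intro s
    unfold e
    rw [map_pow, ← Complex.exp_conj, ← Complex.exp_nat_mul, ← Complex.exp_nat_mul,
      ← Complex.exp_add]
    congr 1
    simp
    ring
  simp_rw [h1]
  unfold ν
  rw [← intervalIntegral.integral_of_le (by positivity)]
  by_cases hnm : n = m
  · subst hnm
    simp
  · have hc : (((m : ℤ) - n : ℤ) * Complex.I : ℂ) ≠ 0 := by
      refine mul_ne_zero ?_ Complex.I_ne_zero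
      rw [Int.cast_ne_zero]
      omega
    rw [integral_exp_mul_complex hc, if_neg hnm]
    have h2 : Complex.exp ((((m : ℤ) - n : ℤ) * Complex.I) * ((2 * π : ℝ) : ℂ)) = 1 := by
      have := Complex.exp_int_mul_two_pi_mul_I ((m : ℤ) - n)
      rw [← this]
      congr 1
      push_cast
      ring
    rw [h2]
    simp

theorem integral_mono_E (m n : ℕ × ℕ) :
    ∫ t, conj (mono (E t) n) * mono (E t) m ∂μ = if n = m then ((2 * π) ^ 2 : ℂ) else 0 := by
  have h1 : ∀ t : ℝ × ℝ, conj (mono (E t) n) * mono (E t) m =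
      (conj (e t.1 ^ n.1) * e t.1 ^ m.1) * (conj (e t.2 ^ n.2) * e t.2 ^ m.2) := by
    intro t
    simp [mono, E]
    ring
  simp_rw [h1]
  unfold μ
  rw [integral_prod_mul (μ := ν) (ν := ν) (fun s => conj (e s ^ n.1) * e s ^ m.1)
    (fun s => conj (e s ^ n.2) * e s ^ m.2), integral_e, integral_e]
  by_cases h : n = m
  · subst h
    simp
    ring
  · rw [if_neg h]
    by_cases h2 : n.1 = m.1
    · have : n.2 ≠ m.2 := fun h3 => h (Prod.ext h2 h3)
      simp [this]
    · simp [h2]

/-- Termwise integration of an absolutely convergent series of continuous functions against a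
bounded function. -/
theorem hasSum_integral_gen {u : ℕ × ℕ → ℝ × ℝ → ℂ} (hu : ∀ n, Continuous (u n))
    (hu1 : ∀ n t, ‖u n t‖ = 1) {a : ℕ × ℕ → ℂ} (ha : Summable (fun n => ‖a n‖)) {G : ℝ × ℝ → ℂ}
    (hG : AEStronglyMeasurable G μ) {C : ℝ} (hC : ∀ᵐ t ∂μ, ‖G t‖ ≤ C) :
    HasSum (fun n => a n * ∫ t, u n t * G t ∂μ)
      (∫ t, (∑' n, a n * u n t) * G t ∂μ) := by
  have hint : ∀ n, Integrable (fun t => a n * (u n t * G t)) μ := by
    intro n
    refine Integrable.const_mul ?_ _
    refine Integrable.of_bound (C := C) ?_ ?_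
    · exact (hu n).aestronglyMeasurable.mul hG
    · filter_upwards [hC] with t ht
      rw [norm_mul, hu1, one_mul]
      exact ht
  have hC0 : 0 ≤ |C| := abs_nonneg C
  have hsum : Summable (fun n => ∫ t, ‖a n * (u n t * G t)‖ ∂μ) := by
    refine Summable.of_nonneg_of_le (fun n => integral_nonneg fun t => norm_nonneg _)
      (fun n => ?_) (ha.mul_right (|C| * μ.real Set.univ))
    calc ∫ t, ‖a n * (u n t * G t)‖ ∂μ ≤ ∫ t, ‖a n‖ * |C| ∂μ := by
          refine integral_mono_ae (hint n).norm (integrable_const _) ?_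
          filter_upwards [hC] with t ht
          rw [norm_mul, norm_mul, hu1, one_mul]
          exact mul_le_mul_of_nonneg_left (ht.trans (le_abs_self C)) (norm_nonneg _)
      _ = ‖a n‖ * (|C| * μ.real Set.univ) := by
          rw [integral_const, smul_eq_mul]
          ring
  have key := hasSum_integral_of_summable_integral_norm hint hsum
  have h1 : ∀ n, ∫ t, a n * (u n t * G t) ∂μ = a n * ∫ t, u n t * G t ∂μ :=
    fun n => integral_const_mul _ _
  simp only [h1] at key
  have h2 : ∫ t, (∑' n, a n * u n t) * G t ∂μ =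
      ∫ t, ∑' n, a n * (u n t * G t) ∂μ := by
    refine integral_congr_ae (Filter.Eventually.of_forall fun t => ?_)
    simp only
    rw [← tsum_mul_right]
    refine tsum_congr fun n => ?_
    ring
  rw [h2]
  exact key

/-- Termwise integration of an absolutely convergent Fourier series against a bounded
function. -/
theorem hasSum_integral_mono {a : ℕ × ℕ → ℂ} (ha : Summable (fun n => ‖a n‖)) {G : ℝ × ℝ → ℂ}
    (hG : AEStronglyMeasurable G μ) {C : ℝ} (hC : ∀ᵐ t ∂μ, ‖G t‖ ≤ C) :
    HasSum (fun n => a n * ∫ t, mono (E t) n * G t ∂μ)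
      (∫ t, (∑' n, a n * mono (E t) n) * G t ∂μ) :=
  hasSum_integral_gen (u := fun n t => mono (E t) n) (fun n => by fun_prop)
    (fun n t => norm_mono_E t n) ha hG hC

/-- The Parseval identity for two absolutely convergent Fourier series. -/
theorem integral_conj_mul {a b : ℕ × ℕ → ℂ} (ha : Summable (fun n => ‖a n‖))
    (hb : Summable (fun n => ‖b n‖)) :
    ∫ t, conj (∑' n, a n * mono (E t) n) * (∑' n, b n * mono (E t) n) ∂μ =
      (2 * π) ^ 2 * ∑' n, conj (a n) * b n := by
  have hbt : ∀ t : ℝ × ℝ, Summable (fun n => ‖b n * mono (E t) n‖) := by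
    intro t
    simpa [norm_mono_E] using hb
  have hat : ∀ t : ℝ × ℝ, Summable (fun n => ‖a n * mono (E t) n‖) := by
    intro t
    simpa [norm_mono_E] using ha
  have hAcont : Continuous (fun t : ℝ × ℝ => ∑' n, a n * mono (E t) n) := by
    refine continuous_tsum (fun n => by fun_prop) ha fun n t => ?_
    rw [norm_mul, norm_mono_E, mul_one]
  have hBcont : Continuous (fun t : ℝ × ℝ => ∑' n, b n * mono (E t) n) := by
    refine continuous_tsum (fun n => by fun_prop) hb fun n t => ?_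
    rw [norm_mul, norm_mono_E, mul_one]
  have hAbd : ∀ t : ℝ × ℝ, ‖conj (∑' n, a n * mono (E t) n)‖ ≤ ∑' n, ‖a n‖ := by
    intro t
    rw [RCLike.norm_conj]
    refine (norm_tsum_le_tsum_norm (hat t)).trans_eq (tsum_congr fun n => ?_)
    rw [norm_mul, norm_mono_E, mul_one]
  -- the Fourier coefficients of the second series
  have hcoef : ∀ n, ∫ t, conj (mono (E t) n) * (∑' m, b m * mono (E t) m) ∂μ =
      (2 * π) ^ 2 * b n := by
    intro n
    have h1 := hasSum_integral_mono hb (G := fun t => conj (mono (E t) n))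
      (by
        have : Continuous fun t : ℝ × ℝ => conj (mono (E t) n) := by fun_prop
        exact this.aestronglyMeasurable) (C := 1)
      (Filter.Eventually.of_forall fun t => by rw [RCLike.norm_conj, norm_mono_E])
    have h2 : (fun m => b m * ∫ t, mono (E t) m * conj (mono (E t) n) ∂μ) =
        fun m => if m = n then (2 * π) ^ 2 * b n else 0 := by
      funext m
      have : ∫ t, mono (E t) m * conj (mono (E t) n) ∂μ =
          if n = m then ((2 * π) ^ 2 : ℂ) else 0 := by
        rw [← integral_mono_E m n]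
        refine integral_congr_ae (Filter.Eventually.of_forall fun t => ?_)
        simp only
        ring
      rw [this]
      by_cases h : m = n
      · subst h
        simp
        ring
      · rw [if_neg h, if_neg (fun h' => h h'.symm), mul_zero]
    rw [h2] at h1
    have h3 := h1.unique (hasSum_ite_eq n ((2 * π) ^ 2 * b n))
    rw [← h3]
    refine integral_congr_ae (Filter.Eventually.of_forall fun t => ?_)
    simp only
    ring
  -- termwise integration of the first series
  have h4 := hasSum_integral_mono ha (G := fun t => conj (∑' n, b n * mono (E t) n))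
      (by
        have : Continuous fun t : ℝ × ℝ => conj (∑' n, b n * mono (E t) n) :=
          Complex.continuous_conj.comp hBcont
        exact this.aestronglyMeasurable) (C := ∑' n, ‖b n‖)
      (Filter.Eventually.of_forall fun t => by
        rw [RCLike.norm_conj]
        refine (norm_tsum_le_tsum_norm (hbt t)).trans_eq (tsum_congr fun n => ?_)
        rw [norm_mul, norm_mono_E, mul_one])
  have h5 : ∀ n, ∫ t, mono (E t) n * conj (∑' m, b m * mono (E t) m) ∂μ =
      conj ((2 * π) ^ 2 * b n) := by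
    intro n
    rw [← hcoef n, ← integral_conj (𝕜 := ℂ)]
    refine integral_congr_ae (Filter.Eventually.of_forall fun t => ?_)
    simp
  simp only [h5] at h4
  have h6 : ∫ t, conj (∑' n, a n * mono (E t) n) * (∑' n, b n * mono (E t) n) ∂μ =
      conj (∫ t, (∑' n, a n * mono (E t) n) * conj (∑' n, b n * mono (E t) n) ∂μ) := by
    rw [← integral_conj (𝕜 := ℂ)]
    refine integral_congr_ae (Filter.Eventually.of_forall fun t => ?_)
    simp
  rw [h6, ← h4.tsum_eq, Complex.conj_tsum, ← tsum_mul_left]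
  refine tsum_congr fun n => ?_
  simp
  ring

/-- The point `r (e^{i t₁}, e^{i t₂})`. -/
noncomputable def R (r : ℝ) (t : ℝ × ℝ) : ℂ × ℂ := (r * e t.1, r * e t.2)

@[fun_prop] theorem continuous_R (r : ℝ) : Continuous (R r) := by
  unfold R
  fun_prop

theorem R_mem {r : ℝ} (h0 : 0 ≤ r) (h1 : r < 1) (t : ℝ × ℝ) : R r t ∈ Bidisk := by
  rw [mem_Bidisk]
  simp [R, abs_of_nonneg h0, h1]

theorem mono_R (r : ℝ) (t : ℝ × ℝ) (n : ℕ × ℕ) :
    mono (R r t) n = (r : ℂ) ^ (n.1 + n.2) * mono (E t) n := by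
  simp [mono, R, E, mul_pow, pow_add]
  ring

theorem summable_bdd_mul_pow {f : ℕ × ℕ → ℂ} {B : ℝ} (hB : ∀ n, ‖f n‖ ≤ B) {r : ℝ} (h0 : 0 ≤ r)
    (h1 : r < 1) : Summable (fun n : ℕ × ℕ => ‖f n * (r : ℂ) ^ (n.1 + n.2)‖) := by
  refine Summable.of_nonneg_of_le (fun n => norm_nonneg _) (fun n => ?_)
    ((summable_geom h0 h1 h0 h1).mul_left B)
  rw [norm_mul, norm_pow, Complex.norm_real, Real.norm_of_nonneg h0, pow_add]
  exact mul_le_mul_of_nonneg_right (hB n) (by positivity)

theorem norm_apply_le_norm (f : H2) (n : ℕ × ℕ) : ‖f n‖ ≤ ‖f‖ :=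
  lp.norm_apply_le_norm (by norm_num) f n

/-- A function in `H²(𝔻²)` is determined by its values. -/
theorem ev_injective {f : H2} (hf : ∀ z : Bidisk, ev f z = 0) : f = 0 := by
  have h0 : (0 : ℝ) ≤ 1 / 2 := by norm_num
  have h1 : (1 / 2 : ℝ) < 1 := by norm_num
  have hs := summable_bdd_mul_pow (norm_apply_le_norm f) h0 h1
  have key := integral_conj_mul hs hs
  have h2 : ∀ t : ℝ × ℝ, ∑' n : ℕ × ℕ, f n * ((1 / 2 : ℝ) : ℂ) ^ (n.1 + n.2) * mono (E t) n = 0 := by
    intro t
    rw [← hf ⟨R (1 / 2) t, R_mem h0 h1 t⟩, ev]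
    refine tsum_congr fun n => ?_
    have := mono_R (1 / 2) t n
    unfold mono at this ⊢
    rw [this]
    simp only
    ring
  simp only [h2] at key
  have h3 : ∑' n : ℕ × ℕ, conj (f n * ((1 / 2 : ℝ) : ℂ) ^ (n.1 + n.2)) *
      (f n * ((1 / 2 : ℝ) : ℂ) ^ (n.1 + n.2)) = 0 := by
    have h4 : ((2 * π : ℂ)) ^ 2 ≠ 0 := by
      have : (π : ℂ) ≠ 0 := by exact_mod_cast Real.pi_ne_zero
      positivity
    have h5 : (0 : ℂ) = (2 * π : ℂ) ^ 2 * ∑' n : ℕ × ℕ, conj (f n * ((1 / 2 : ℝ) : ℂ) ^ (n.1 + n.2)) *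
      (f n * ((1 / 2 : ℝ) : ℂ) ^ (n.1 + n.2)) := by
      rw [← key]
      simp
    rcases mul_eq_zero.1 h5.symm with h | h
    · exact absurd h h4
    · exact h
  have h6 : ∑' n : ℕ × ℕ, ‖f n * ((1 / 2 : ℝ) : ℂ) ^ (n.1 + n.2)‖ ^ 2 = 0 := by
    have h7 : ∀ n : ℕ × ℕ, conj (f n * ((1 / 2 : ℝ) : ℂ) ^ (n.1 + n.2)) *
      (f n * ((1 / 2 : ℝ) : ℂ) ^ (n.1 + n.2)) =
      ((‖f n * ((1 / 2 : ℝ) : ℂ) ^ (n.1 + n.2)‖ ^ 2 : ℝ) : ℂ) := by
      intro n
      rw [RCLike.conj_mul]
      push_cast
      rfl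
    simp only [h7] at h3
    exact_mod_cast h3
  have h8 : Summable (fun n : ℕ × ℕ => ‖f n * ((1 / 2 : ℝ) : ℂ) ^ (n.1 + n.2)‖ ^ 2) := by
    refine Summable.of_nonneg_of_le (fun n => by positivity) (fun n => ?_) (hs.mul_left ‖f‖)
    rw [sq]
    refine mul_le_mul_of_nonneg_right ?_ (norm_nonneg _)
    rw [norm_mul, norm_pow, Complex.norm_real, Real.norm_of_nonneg h0]
    calc ‖f n‖ * (1 / 2) ^ (n.1 + n.2) ≤ ‖f‖ * 1 := by
          refine mul_le_mul (norm_apply_le_norm f n) (pow_le_one₀ h0 h1.le) (by positivity)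
            (norm_nonneg _)
      _ = ‖f‖ := mul_one _
  ext n
  have h9 := (hasSum_zero_iff_of_nonneg (fun n => by positivity)).1 (h6 ▸ h8.hasSum)
  have h10 := congrFun h9 n
  simp only [Pi.zero_apply] at h10
  have h11 : f n * ((1 / 2 : ℝ) : ℂ) ^ (n.1 + n.2) = 0 := by
    rw [← norm_eq_zero]
    exact pow_eq_zero_iff (two_ne_zero) |>.1 h10
  rcases mul_eq_zero.1 h11 with h | h
  · simpa using h
  · exact absurd h (pow_ne_zero _ (by norm_num))

end Pool.Agent.AglerBidisk
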