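import Pool.Agent.helper33.AglerInner

/-!
# The Hilbert space part of the argument
-/

open Filter Topology ComplexConjugate InnerProductSpace MeasureTheory
open scoped ComplexOrder Real

namespace Pool.Agent.AglerBidisk

section Abstract

variable {H G₁ G₂ : Type*} [NormedAddCommGroup H] [InnerProductSpace ℂ H] [CompleteSpace H]
  [NormedAddCommGroup G₁] [InnerProductSpace ℂ G₁]
  [NormedAddCommGroup G₂] [InnerProductSpace ℂ G₂]

/-- The data extracted from a pair of Agler kernels. -/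
structure AglerData (V₁ : H →L[ℂ] G₁) (V₂ : H →L[ℂ] G₂) (M : H →ₗᵢ[ℂ] H) (T T' : H →L[ℂ] H) :
    Prop where
  sum : ∀ u v : H, ⟪V₁ u, V₁ v⟫_ℂ + ⟪V₂ u, V₂ v⟫_ℂ +
    ⟪ContinuousLinearMap.adjoint M.toContinuousLinearMap u,
      ContinuousLinearMap.adjoint M.toContinuousLinearMap v⟫_ℂ = ⟪u, v⟫_ℂ
  le₁ : ∀ v, ‖V₁ (ContinuousLinearMap.adjoint T v)‖ ≤ ‖V₁ v‖
  le₂ : ∀ v, ‖V₂ (ContinuousLinearMap.adjoint T' v)‖ ≤ ‖V₂ v‖
  comm : ∀ v, M (T v) = T (M v)
  comm' : ∀ v, M (T' v) = T' (M v)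

variable {V₁ : H →L[ℂ] G₁} {V₂ : H →L[ℂ] G₂} {M : H →ₗᵢ[ℂ] H} {T T' : H →L[ℂ] H}

theorem adjoint_apply_self (M : H →ₗᵢ[ℂ] H) (h : H) :
    ContinuousLinearMap.adjoint M.toContinuousLinearMap (M h) = h := by
  refine ext_inner_left ℂ fun v => ?_
  rw [ContinuousLinearMap.adjoint_inner_right]
  exact M.inner_map_map v h

theorem AglerData.symm (D : AglerData V₁ V₂ M T T') : AglerData V₂ V₁ M T' T where
  sum u v := by rw [← D.sum u v]; ring
  le₁ := D.le₂
  le₂ := D.le₁
  comm := D.comm'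
  comm' := D.comm

theorem AglerData.V₁_M (D : AglerData V₁ V₂ M T T') (h : H) : V₁ (M h) = 0 := by
  have h1 := D.sum (M h) (M h)
  rw [adjoint_apply_self, M.inner_map_map] at h1
  have h2 : ⟪V₁ (M h), V₁ (M h)⟫_ℂ + ⟪V₂ (M h), V₂ (M h)⟫_ℂ = 0 := by
    have := congrArg (fun x => x - ⟪h, h⟫_ℂ) h1
    simpa using this
  have h3 := congrArg RCLike.re h2
  rw [map_add, inner_self_eq_norm_sq, inner_self_eq_norm_sq, map_zero] at h3
  have h4 : ‖V₁ (M h)‖ ^ 2 = 0 := by nlinarith [sq_nonneg ‖V₁ (M h)‖, sq_nonneg ‖V₂ (M h)‖]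
  exact norm_eq_zero.1 (pow_eq_zero_iff two_ne_zero |>.1 h4)

theorem AglerData.V₁_adjoint (D : AglerData V₁ V₂ M T T') {v : H} (hv : V₁ v = 0) :
    V₁ (ContinuousLinearMap.adjoint T v) = 0 := by
  have := D.le₁ v
  rw [hv, norm_zero] at this
  exact norm_le_zero_iff.1 this

theorem V₂_adjoint_pow (D : AglerData V₁ V₂ M T T') (h : H) (k : ℕ) :
    V₂ ((ContinuousLinearMap.adjoint T' ^ k) (M h)) = 0 := by
  induction k with
  | zero => simpa using D.symm.V₁_M h
  | succ k ih =>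
    rw [pow_succ', mul_apply_eq_comp]
    exact D.symm.V₁_adjoint ih

/-- The key orthogonality: if `v` is killed by `V₁` and `e₀` is killed by the adjoint of `T'`,
then `T'^{k+1} v` is orthogonal to `M e₀`. -/
theorem AglerData.inner_eq_zero (D : AglerData V₁ V₂ M T T') {e₀ : H}
    (he : ContinuousLinearMap.adjoint T' e₀ = 0) {v : H} (hv : V₁ v = 0) (k : ℕ) :
    ⟪M e₀, (T' ^ (k + 1)) v⟫_ℂ = 0 := by
  set Md := ContinuousLinearMap.adjoint M.toContinuousLinearMap with hMd
  set h : H := Md v with hh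
  set n : H := v - M h with hn
  have hVn : V₁ n = 0 := by
    rw [hn, map_sub, hv, D.V₁_M, sub_zero]
  have hMn : Md n = 0 := by
    rw [hn, map_sub, hMd, adjoint_apply_self, ← hMd, ← hh, sub_self]
  have hsum : ∀ w, ⟪n, w⟫_ℂ = ⟪V₂ n, V₂ w⟫_ℂ := by
    intro w
    rw [← D.sum n w, hVn, ← hMd, hMn]
    simp
  -- `T'^{k+1} n` is orthogonal to the range of `M`
  have hadj : ∀ (k : ℕ) (x y : H), ⟪x, (T' ^ k) y⟫_ℂ =
      ⟪(ContinuousLinearMap.adjoint T' ^ k) x, y⟫_ℂ := by
    intro k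
    induction k with
    | zero => intro x y; simp
    | succ k ih =>
      intro x y
      rw [pow_succ, mul_apply_eq_comp, ih, pow_succ', mul_apply_eq_comp,
        ContinuousLinearMap.adjoint_inner_left]
  have h1 : ⟪M e₀, (T' ^ (k + 1)) n⟫_ℂ = 0 := by
    rw [hadj, ← inner_conj_symm, hsum, V₂_adjoint_pow D, inner_zero_right, map_zero]
  have hcomm : ∀ (k : ℕ) (x : H), (T' ^ k) (M x) = M ((T' ^ k) x) := by
    intro k
    induction k with
    | zero => intro x; simp
    | succ k ih =>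
      intro x
      rw [pow_succ, mul_apply_eq_comp, mul_apply_eq_comp, ← D.comm', ih]
  have h2 : ⟪M e₀, (T' ^ (k + 1)) (M h)⟫_ℂ = 0 := by
    rw [hcomm, M.inner_map_map, hadj, pow_succ, mul_apply_eq_comp, he, map_zero,
      inner_zero_left]
  have h3 : v = n + M h := by rw [hn]; abel
  rw [h3, map_add, inner_add_right, h1, h2, add_zero]

omit [CompleteSpace H] in
theorem inner_iterate (S : H →ₗᵢ[ℂ] H) (x y : H) (j m : ℕ) :
    ⟪(S^[j]) x, (S^[j + m]) y⟫_ℂ = ⟪x, (S^[m]) y⟫_ℂ := by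
  induction j with
  | zero => simp
  | succ j ih =>
    rw [show j + 1 + m = (j + m) + 1 by ring, Function.iterate_succ_apply',
      Function.iterate_succ_apply', S.inner_map_map, ih]

omit [CompleteSpace H] in
theorem norm_iterate (S : H →ₗᵢ[ℂ] H) (x : H) (j : ℕ) : ‖(S^[j]) x‖ = ‖x‖ := by
  induction j with
  | zero => rfl
  | succ j ih => rw [Function.iterate_succ_apply', S.norm_map, ih]

omit [CompleteSpace H] in
theorem iterate_smul (S : H →ₗᵢ[ℂ] H) (c : ℂ) (x : H) (j : ℕ) :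
    (S^[j]) (c • x) = c • (S^[j]) x := by
  induction j with
  | zero => rfl
  | succ j ih => rw [Function.iterate_succ_apply', Function.iterate_succ_apply', ih, map_smul]

omit [CompleteSpace H] in
/-- All inner products between the orbits of `x` and `y` vanish except on the diagonal. -/
theorem inner_orbit_ne (S : H →ₗᵢ[ℂ] H) {x y : H} (hxy : ∀ k, ⟪x, (S^[k + 1]) y⟫_ℂ = 0)
    (hyx : ∀ k, ⟪y, (S^[k + 1]) x⟫_ℂ = 0) {j k : ℕ} (hjk : j ≠ k) :
    ⟪(S^[j]) x, (S^[k]) y⟫_ℂ = 0 := by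
  rcases lt_or_gt_of_ne hjk with h | h
  · obtain ⟨m, rfl⟩ := Nat.exists_eq_add_of_lt h
    rw [show j + m + 1 = j + (m + 1) by ring, inner_iterate, hxy]
  · obtain ⟨m, rfl⟩ := Nat.exists_eq_add_of_lt h
    rw [show k + m + 1 = k + (m + 1) by ring, ← inner_conj_symm, inner_iterate, hyx, map_zero]

/-- Square summable series along a wandering orbit of an isometry converge. -/
theorem orbit_sum (S : H →ₗᵢ[ℂ] H) {a : H} (ha : ∀ k, ⟪a, (S^[k + 1]) a⟫_ℂ = 0)
    (β : ℕ → ℂ) (hβ : Summable (fun k => ‖β k‖ ^ 2)) :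
    Summable (fun k => β k • (S^[k]) a) := by
  by_cases ha0 : a = 0
  · have : (fun k => β k • (S^[k]) a) = fun _ => 0 := by
      funext k
      have : ‖(S^[k]) a‖ = 0 := by rw [norm_iterate, ha0, norm_zero]
      rw [norm_eq_zero.1 this, smul_zero]
    rw [this]
    exact summable_zero
  · have hna : (‖a‖ : ℂ) ≠ 0 := by
      rw [Ne, Complex.ofReal_eq_zero, norm_eq_zero]
      exact ha0
    have hO : Orthonormal ℂ (fun k : ℕ => (S^[k]) (((‖a‖ : ℂ)⁻¹) • a)) := by
      constructor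
      · intro k
        rw [norm_iterate, norm_smul, norm_inv, Complex.norm_real, norm_norm,
          inv_mul_cancel₀ (norm_ne_zero_iff.2 ha0)]
      · intro j k hjk
        simp only
        rw [iterate_smul, iterate_smul, inner_smul_left, inner_smul_right,
          inner_orbit_ne S ha ha hjk, mul_zero, mul_zero]
    have h1 := hO.orthogonalFamily.summable_iff_norm_sq_summable (fun k => (‖a‖ : ℂ) * β k)
    have h2 : Summable (fun k => ‖(‖a‖ : ℂ) * β k‖ ^ 2) := by
      have : (fun k => ‖(‖a‖ : ℂ) * β k‖ ^ 2) = fun k => ‖a‖ ^ 2 * ‖β k‖ ^ 2 := by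
        funext k
        rw [norm_mul, Complex.norm_real, norm_norm, mul_pow]
      rw [this]
      exact hβ.mul_left _
    have h3 := h1.2 h2
    refine h3.congr fun k => ?_
    rw [LinearIsometry.toSpanSingleton_apply, iterate_smul, smul_smul]
    congr 1
    field_simp

end Abstract

section Rows

/-- The space of square summable sequences. -/
abbrev L2N : Type := lp (fun _ : ℕ => ℂ) 2

/-- The unilateral shift. -/
noncomputable def Sh : L2N →ₗᵢ[ℂ] L2N := shift Nat.succ Nat.succ_injective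

theorem Sh_iterate_apply (a : L2N) (k n : ℕ) :
    (Sh^[k]) a n = if k ≤ n then a (n - k) else 0 := by
  induction k generalizing n with
  | zero => simp
  | succ k ih =>
    rw [Function.iterate_succ_apply']
    rcases n with _ | n
    · rw [if_neg (by omega)]
      exact shift_apply_of_notMem Nat.succ_injective _ (by simp)
    · have : Sh ((Sh^[k]) a) (n + 1) = (Sh^[k]) a n :=
        shift_apply_apply Nat.succ_injective ((Sh^[k]) a) n
      rw [this, ih]
      by_cases h : k ≤ n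
      · rw [if_pos h, if_pos (by omega), show n + 1 - (k + 1) = n - k by omega]
      · rw [if_neg h, if_neg (by omega)]

theorem summable_norm_sq (b : L2N) : Summable (fun k => ‖b k‖ ^ 2) := by
  have h0 : (0 : ℝ) < (2 : ENNReal).toReal := by norm_num
  have h2 : (2 : ENNReal).toReal = ((2 : ℕ) : ℝ) := by norm_num
  have := (memℓp_gen_iff h0).1 (lp.memℓp b)
  simpa [h2] using this

theorem norm_apply_le_norm' (f : L2N) (n : ℕ) : ‖f n‖ ≤ ‖f‖ :=
  lp.norm_apply_le_norm (by norm_num) f n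

/-- The coordinate functional. -/
noncomputable def coord (n : ℕ) : L2N →L[ℂ] ℂ :=
  LinearMap.mkContinuous
    { toFun := fun f => f n
      map_add' := fun _ _ => rfl
      map_smul' := fun _ _ => rfl } 1 (fun f => by
        rw [one_mul]
        exact norm_apply_le_norm' f n)

theorem coord_apply (n : ℕ) (f : L2N) : coord n f = f n := rfl

theorem orbit_sum_coord {a u : L2N} {β : ℕ → ℂ} (h : HasSum (fun k => β k • (Sh^[k]) a) u) (n : ℕ) :
    u n = ∑ p ∈ Finset.HasAntidiagonal.antidiagonal n, β p.1 * a p.2 := by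
  have h1 := h.mapL (coord n)
  simp only [coord_apply] at h1
  have h2 : (fun k => (β k • (Sh^[k]) a : L2N) n) =
      fun k => if k ≤ n then β k * a (n - k) else 0 := by
    funext k
    have : (β k • (Sh^[k]) a : L2N) n = β k * (Sh^[k]) a n := rfl
    rw [this, Sh_iterate_apply]
    by_cases h : k ≤ n
    · rw [if_pos h, if_pos h]
    · rw [if_neg h, if_neg h, mul_zero]
  rw [h2] at h1
  have h3 : HasSum (fun k => if k ≤ n then β k * a (n - k) else 0)
      (∑ k ∈ Finset.range (n + 1), if k ≤ n then β k * a (n - k) else 0) := by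
    refine hasSum_sum_of_ne_finset_zero fun k hk => ?_
    rw [if_neg]
    simpa using hk
  rw [h1.unique h3, Finset.Nat.sum_antidiagonal_eq_sum_range_succ_mk]
  refine Finset.sum_congr rfl fun k hk => ?_
  rw [if_pos]
  simpa [Nat.lt_succ_iff] using hk

/-- Two nonzero square summable sequences cannot have mutually orthogonal orbits. -/
theorem eq_zero_of_orbits {a b : L2N} (ha : a ≠ 0) (haa : ∀ k, ⟪a, (Sh^[k + 1]) a⟫_ℂ = 0)
    (hbb : ∀ k, ⟪b, (Sh^[k + 1]) b⟫_ℂ = 0) (hab : ∀ k, ⟪a, (Sh^[k + 1]) b⟫_ℂ = 0)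
    (hba : ∀ k, ⟪b, (Sh^[k + 1]) a⟫_ℂ = 0) (h0 : ⟪a, b⟫_ℂ = 0) : b = 0 := by
  obtain ⟨u, hu⟩ := orbit_sum Sh haa b (summable_norm_sq b)
  obtain ⟨u', hu'⟩ := orbit_sum Sh hbb a (summable_norm_sq a)
  have huu : u = u' := by
    ext n
    rw [orbit_sum_coord hu, orbit_sum_coord hu', ← Finset.Nat.sum_antidiagonal_swap]
    refine Finset.sum_congr rfl fun p _ => ?_
    simp only [Prod.fst_swap, Prod.snd_swap]
    ring
  ext j
  have h1 : HasSum (fun k => ⟪(Sh^[j]) a, b k • (Sh^[k]) a⟫_ℂ) ⟪(Sh^[j]) a, u⟫_ℂ :=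
    hu.mapL (innerSL ℂ ((Sh^[j]) a))
  have h2 : HasSum (fun k => ⟪(Sh^[j]) a, a k • (Sh^[k]) b⟫_ℂ) ⟪(Sh^[j]) a, u'⟫_ℂ :=
    hu'.mapL (innerSL ℂ ((Sh^[j]) a))
  have h3 : (fun k => ⟪(Sh^[j]) a, a k • (Sh^[k]) b⟫_ℂ) = fun _ => 0 := by
    funext k
    rw [inner_smul_right]
    by_cases hjk : j = k
    · subst hjk
      have := inner_iterate Sh a b j 0
      rw [add_zero] at this
      rw [this]
      simp [h0]
    · rw [inner_orbit_ne Sh hab hba hjk, mul_zero]
  rw [h3] at h2
  have h4 : (fun k => ⟪(Sh^[j]) a, b k • (Sh^[k]) a⟫_ℂ) =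
      fun k => if k = j then b j * ⟪a, a⟫_ℂ else 0 := by
    funext k
    rw [inner_smul_right]
    by_cases hjk : k = j
    · subst hjk
      have := inner_iterate Sh a a k 0
      rw [add_zero] at this
      rw [this, if_pos rfl]
      simp
    · rw [inner_orbit_ne Sh haa haa (fun h => hjk h.symm), mul_zero, if_neg hjk]
  rw [h4] at h1
  have h5 := h1.unique (hasSum_ite_eq j (b j * ⟪a, a⟫_ℂ))
  have h6 := h2.unique hasSum_zero
  rw [huu, h6] at h5
  rcases mul_eq_zero.1 h5.symm with h | h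
  · simpa using h
  · exact absurd (inner_self_eq_zero.1 h) ha

/-- If all inner products of a row with proper shifts of rows vanish, the rows are
proportional. -/
theorem rank_one_of_rows (r : ℕ → L2N) (h : ∀ i m k, ⟪r m, (Sh^[k + 1]) (r i)⟫_ℂ = 0)
    (i m n n' : ℕ) : r i n * r m n' = r i n' * r m n := by
  by_cases ha : r i = 0
  · rw [ha]
    simp
  · set c : ℂ := ⟪r i, r m⟫_ℂ / ⟪r i, r i⟫_ℂ with hc
    have hii : ⟪r i, r i⟫_ℂ ≠ 0 := fun h => ha (inner_self_eq_zero.1 h)
    have hb : r m - c • r i = 0 := by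
      have hit : ∀ k, (Sh^[k + 1]) (r m - c • r i) = (Sh^[k + 1]) (r m) - c • (Sh^[k + 1]) (r i) := by
        intro k
        ext n
        simp only [Sh_iterate_apply, lp.coeFn_sub, lp.coeFn_smul, Pi.sub_apply, Pi.smul_apply,
          smul_eq_mul]
        by_cases h : k + 1 ≤ n
        · simp [h]
        · simp [h]
      refine eq_zero_of_orbits ha (h i i) (fun k => ?_) (fun k => ?_) (fun k => ?_) ?_
      · rw [hit, inner_sub_left, inner_sub_right, inner_sub_right, inner_smul_left,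
          inner_smul_right, inner_smul_left, inner_smul_right, h, h, h, h]
        simp
      · rw [hit, inner_sub_right, inner_smul_right, h, h]
        simp
      · rw [inner_sub_left, inner_smul_left, h, h]
        simp
      · rw [inner_sub_right, inner_smul_right, hc, div_mul_cancel₀ _ hii, sub_self]
    have hm : r m = c • r i := sub_eq_zero.1 hb
    rw [hm]
    simp only [lp.coeFn_smul, Pi.smul_apply, smul_eq_mul]
    ring

end Rows

end Pool.Agent.AglerBidisk
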