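import Pool.Agent.helper33.AglerFourier

/-!
# Inner functions: Taylor coefficients and the isometry `f ↦ θ f`
-/

open Filter Topology ComplexConjugate InnerProductSpace MeasureTheory
open scoped ComplexOrder Real

namespace Pool.Agent.AglerBidisk

/-- Cauchy's formula in one variable. -/
theorem cauchy_one {g : ℂ → ℂ} (hg : DifferentiableOn ℂ g (Metric.ball 0 1)) {r : ℝ} (h0 : 0 < r)
    (h1 : r < 1) {z : ℂ} (hz : ‖z‖ < 1) :
    ∫ s, g (r * e s) * (1 - z * conj (e s))⁻¹ ∂ν = 2 * π * g (r * z) := by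
  have hsub : Metric.closedBall (0 : ℂ) r ⊆ Metric.ball 0 1 := Metric.closedBall_subset_ball h1
  have hw : (r * z : ℂ) ∈ Metric.ball (0 : ℂ) r := by
    rw [mem_ball_zero_iff, norm_mul, Complex.norm_real, Real.norm_of_nonneg h0.le]
    calc r * ‖z‖ < r * 1 := by gcongr
      _ = r := mul_one r
  have key := (hg.mono hsub).circleIntegral_sub_inv_smul hw
  rw [circleIntegral] at key
  have h2 : ∀ s : ℝ, deriv (circleMap 0 r) s • ((circleMap 0 r s - r * z)⁻¹ • g (circleMap 0 r s)) =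
      Complex.I * (g (r * e s) * (1 - z * conj (e s))⁻¹) := by
    intro s
    have he : e s ≠ 0 := by
      intro h
      have := norm_e s
      rw [h] at this
      simp at this
    have hconj : conj (e s) = (e s)⁻¹ := by
      rw [Complex.inv_def, Complex.normSq_eq_norm_sq, norm_e]
      simp
    have hc : circleMap 0 r s = r * e s := by simp [circleMap, e]
    have hr : (r : ℂ) ≠ 0 := by exact_mod_cast h0.ne'
    rw [deriv_circleMap, hc, smul_eq_mul, smul_eq_mul, hconj]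
    have h3 : (r * e s - r * z : ℂ) = r * e s * (1 - z * (e s)⁻¹) := by
      field_simp
    rw [h3, mul_inv]
    field_simp
  simp only [h2] at key
  rw [intervalIntegral.integral_const_mul, intervalIntegral.integral_of_le (by positivity)] at key
  have hI : Complex.I ≠ 0 := Complex.I_ne_zero
  have h4 : Complex.I * ∫ s in Set.Ioc 0 (2 * π), g (r * e s) * (1 - z * conj (e s))⁻¹ =
      Complex.I * (2 * π * g (r * z)) := by
    rw [key, smul_eq_mul]
    ring
  exact mul_left_cancel₀ hI h4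

theorem norm_conj_e (s : ℝ) : ‖conj (e s)‖ = 1 := by
  rw [RCLike.norm_conj, norm_e]

theorem one_sub_ne_zero {z : ℂ} (hz : ‖z‖ < 1) {w : ℂ} (hw : ‖w‖ ≤ 1) : 1 - z * w ≠ 0 := by
  intro h
  have h1 : z * w = 1 := (sub_eq_zero.1 h).symm
  have h2 : ‖z * w‖ < 1 := by
    rw [norm_mul]
    calc ‖z‖ * ‖w‖ ≤ ‖z‖ * 1 := by gcongr
      _ < 1 := by simpa using hz
  rw [h1] at h2
  simp at h2

theorem continuous_comp_R {θ : ℂ × ℂ → ℂ} (hθ : DifferentiableOn ℂ θ Bidisk) {r : ℝ} (h0 : 0 ≤ r)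
    (h1 : r < 1) : Continuous (fun t => θ (R r t)) := by
  have := hθ.continuousOn.comp_continuous (continuous_R r) (fun t => R_mem h0 h1 t)
  exact this

/-- Cauchy's formula in two variables. -/
theorem cauchy_two {θ : ℂ × ℂ → ℂ} (hθ : DifferentiableOn ℂ θ Bidisk) {r : ℝ} (h0 : 0 < r)
    (h1 : r < 1) {z : ℂ × ℂ} (hz : z ∈ Bidisk) :
    ∫ t, θ (R r t) * ((1 - z.1 * conj (e t.1))⁻¹ * (1 - z.2 * conj (e t.2))⁻¹) ∂μ =
      (2 * π) ^ 2 * θ (r * z.1, r * z.2) := by
  rw [mem_Bidisk] at hz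
  have hc1 : Continuous (fun s : ℝ => (1 - z.1 * conj (e s))⁻¹) := by
    refine Continuous.inv₀ (by fun_prop) fun s => one_sub_ne_zero hz.1 (norm_conj_e s).le
  have hc2 : Continuous (fun s : ℝ => (1 - z.2 * conj (e s))⁻¹) := by
    refine Continuous.inv₀ (by fun_prop) fun s => one_sub_ne_zero hz.2 (norm_conj_e s).le
  have hcont : Continuous (fun t : ℝ × ℝ =>
      θ (R r t) * ((1 - z.1 * conj (e t.1))⁻¹ * (1 - z.2 * conj (e t.2))⁻¹)) :=
    (continuous_comp_R hθ h0.le h1).mul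
      ((hc1.comp continuous_fst).mul (hc2.comp continuous_snd))
  have hint : Integrable (fun t : ℝ × ℝ =>
      θ (R r t) * ((1 - z.1 * conj (e t.1))⁻¹ * (1 - z.2 * conj (e t.2))⁻¹)) (ν.prod ν) := by
    unfold ν
    rw [Measure.prod_restrict]
    have : IntegrableOn (fun t : ℝ × ℝ =>
      θ (R r t) * ((1 - z.1 * conj (e t.1))⁻¹ * (1 - z.2 * conj (e t.2))⁻¹))
      (Set.Icc 0 (2 * π) ×ˢ Set.Icc 0 (2 * π)) (volume.prod volume) :=
      hcont.continuousOn.integrableOn_compact (isCompact_Icc.prod isCompact_Icc)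
    exact this.mono_set (Set.prod_mono Set.Ioc_subset_Icc_self Set.Ioc_subset_Icc_self)
  unfold μ
  rw [integral_prod _ hint]
  have h2 : ∀ s : ℝ, ∫ t, θ (R r (s, t)) * ((1 - z.1 * conj (e s))⁻¹ * (1 - z.2 * conj (e t))⁻¹) ∂ν =
      (2 * π) * (θ (r * e s, r * z.2) * (1 - z.1 * conj (e s))⁻¹) := by
    intro s
    have hg : DifferentiableOn ℂ (fun w => θ (r * e s, w)) (Metric.ball 0 1) := by
      refine hθ.comp (by fun_prop) fun w hw => ?_
      rw [mem_Bidisk]
      refine ⟨?_, by simpa using hw⟩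
      simp [abs_of_pos h0, h1]
    have := cauchy_one hg h0 h1 hz.2
    rw [show (2 * π) * (θ (r * e s, r * z.2) * (1 - z.1 * conj (e s))⁻¹) =
      (1 - z.1 * conj (e s))⁻¹ * (2 * π * θ (r * e s, r * z.2)) by ring, ← this,
      ← integral_const_mul]
    refine integral_congr_ae (Filter.Eventually.of_forall fun t => ?_)
    simp only [R]
    ring
  simp only [h2]
  rw [integral_const_mul]
  have hg : DifferentiableOn ℂ (fun w => θ (w, r * z.2)) (Metric.ball 0 1) := by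
    refine hθ.comp (by fun_prop) fun w hw => ?_
    rw [mem_Bidisk]
    refine ⟨by simpa using hw, ?_⟩
    rw [norm_mul, Complex.norm_real, Real.norm_of_nonneg h0.le]
    calc r * ‖z.2‖ ≤ 1 * ‖z.2‖ := by gcongr
      _ < 1 := by simpa using hz.2
  rw [cauchy_one hg h0 h1 hz.1]
  ring

theorem tsum_mono_conj {z : ℂ × ℂ} (hz : z ∈ Bidisk) (t : ℝ × ℝ) :
    ∑' n, mono z n * conj (mono (E t) n) =
      (1 - z.1 * conj (e t.1))⁻¹ * (1 - z.2 * conj (e t.2))⁻¹ := by
  rw [mem_Bidisk] at hz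
  have h1 : ‖z.1 * conj (e t.1)‖ < 1 := by
    rw [norm_mul, norm_conj_e, mul_one]; exact hz.1
  have h2 : ‖z.2 * conj (e t.2)‖ < 1 := by
    rw [norm_mul, norm_conj_e, mul_one]; exact hz.2
  rw [← tsum_geometric_of_norm_lt_one h1, ← tsum_geometric_of_norm_lt_one h2]
  have s1 : Summable (fun n : ℕ => ‖(z.1 * conj (e t.1)) ^ n‖) := by
    simp_rw [norm_pow]
    exact summable_geometric_of_lt_one (norm_nonneg _) h1
  have s2 : Summable (fun n : ℕ => ‖(z.2 * conj (e t.2)) ^ n‖) := by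
    simp_rw [norm_pow]
    exact summable_geometric_of_lt_one (norm_nonneg _) h2
  rw [tsum_mul_tsum_of_summable_norm s1 s2]
  refine tsum_congr fun n => ?_
  simp [mono, E, mul_pow]
  ring

/-- A sequence of radii tending to one. -/
noncomputable def ρ (k : ℕ) : ℝ := 1 - 1 / ((k : ℝ) + 2)

theorem ρ_pos (k : ℕ) : 0 < ρ k := by
  have : (1 : ℝ) / ((k : ℝ) + 2) < 1 := by
    rw [div_lt_one (by positivity)]
    have : (0 : ℝ) ≤ k := Nat.cast_nonneg k
    linarith
  unfold ρ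
  linarith

theorem ρ_lt_one (k : ℕ) : ρ k < 1 := by
  have : (0 : ℝ) < 1 / ((k : ℝ) + 2) := by positivity
  unfold ρ
  linarith

theorem tendsto_ρ : Tendsto ρ atTop (𝓝 1) := by
  have h1 : Tendsto (fun k : ℕ => (1 : ℝ) / ((k : ℝ) + 2)) atTop (𝓝 0) := by
    have := (tendsto_const_div_atTop_nhds_zero_nat (1 : ℝ)).comp (tendsto_add_atTop_nat 2)
    refine this.congr fun k => ?_
    simp
  have := (tendsto_const_nhds (x := (1 : ℝ))).sub h1
  rw [sub_zero] at this
  exact this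

theorem tendsto_ρ' : Tendsto ρ atTop (𝓝[<] 1) :=
  tendsto_nhdsWithin_iff.2 ⟨tendsto_ρ, Filter.Eventually.of_forall ρ_lt_one⟩

theorem tendsto_ρ_complex : Tendsto (fun k => ((ρ k : ℝ) : ℂ)) atTop (𝓝 1) := by
  have := (Complex.continuous_ofReal.tendsto 1).comp tendsto_ρ
  simpa [Function.comp_def] using this

/-- The boundary function of an inner function. -/
theorem exists_boundary {θ : ℂ × ℂ → ℂ} (hθ : IsInner₂ θ) :
    ∃ b : ℝ × ℝ → ℂ, AEStronglyMeasurable b μ ∧ (∀ᵐ t ∂μ, ‖b t‖ = 1) ∧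
      ∀ᵐ t ∂μ, Tendsto (fun k => θ (R (ρ k) t)) atTop (𝓝 (b t)) := by
  have hbd := ae_μ_of_ae hθ.boundary
  have hex : ∀ t : ℝ × ℝ, ∃ c : ℂ, (∃ c : ℂ, ‖c‖ = 1 ∧
      Tendsto (fun r : ℝ => θ (r * Complex.exp (t.1 * Complex.I),
        r * Complex.exp (t.2 * Complex.I))) (𝓝[<] 1) (𝓝 c)) → (‖c‖ = 1 ∧
      Tendsto (fun r : ℝ => θ (r * Complex.exp (t.1 * Complex.I),
        r * Complex.exp (t.2 * Complex.I))) (𝓝[<] 1) (𝓝 c)) := by
    intro t
    by_cases h : ∃ c : ℂ, ‖c‖ = 1 ∧ Tendsto (fun r : ℝ => θ (r * Complex.exp (t.1 * Complex.I),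
        r * Complex.exp (t.2 * Complex.I))) (𝓝[<] 1) (𝓝 c)
    · obtain ⟨c, hc⟩ := h
      exact ⟨c, fun _ => hc⟩
    · exact ⟨0, fun h' => absurd h' h⟩
  choose b hb using hex
  have hlim : ∀ᵐ t ∂μ, Tendsto (fun k => θ (R (ρ k) t)) atTop (𝓝 (b t)) := by
    filter_upwards [hbd] with t ht
    exact (hb t ht).2.comp tendsto_ρ'
  refine ⟨b, ?_, ?_, hlim⟩
  · exact aestronglyMeasurable_of_tendsto_ae atTop
      (fun k => (continuous_comp_R hθ.differentiableOn (ρ_pos k).le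
        (ρ_lt_one k)).aestronglyMeasurable) hlim
  · filter_upwards [hbd] with t ht
    exact (hb t ht).1

theorem two_pi_sq_ne_zero : ((2 * π : ℂ)) ^ 2 ≠ 0 := by
  have : (π : ℂ) ≠ 0 := by exact_mod_cast Real.pi_ne_zero
  positivity

/-- The Taylor coefficients of an inner function. -/
theorem exists_coeff {θ : ℂ × ℂ → ℂ} (hθ : IsInner₂ θ) :
    ∃ Θ : ℕ × ℕ → ℂ, (∃ B, ∀ n, ‖Θ n‖ ≤ B) ∧
      ∀ z ∈ Bidisk, HasSum (fun n => Θ n * mono z n) (θ z) := by
  obtain ⟨C, hC⟩ := hθ.bounded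
  obtain ⟨b, hmeas, hb1, hlim⟩ := exists_boundary hθ
  have hnorm : ∀ᵐ t ∂μ, ‖b t‖ ≤ 1 := by
    filter_upwards [hb1] with t ht
    exact ht.le
  refine ⟨fun n => ((2 * π : ℂ) ^ 2)⁻¹ * ∫ t, conj (mono (E t) n) * b t ∂μ,
    ⟨‖((2 * π : ℂ) ^ 2)⁻¹‖ * μ.real Set.univ, fun n => ?_⟩, ?_⟩
  · rw [norm_mul]
    refine mul_le_mul_of_nonneg_left ?_ (norm_nonneg _)
    have := norm_integral_le_of_norm_le_const (μ := μ) (C := 1)
      (f := fun t => conj (mono (E t) n) * b t) (by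
        filter_upwards [hnorm] with t ht
        rw [norm_mul, RCLike.norm_conj, norm_mono_E, one_mul]
        exact ht)
    simpa using this
  · intro z hz
    have hs := summable_norm_mono hz
    have h1 := hasSum_integral_gen (u := fun n t => conj (mono (E t) n)) (fun n => by fun_prop)
      (fun n t => by rw [RCLike.norm_conj, norm_mono_E]) hs hmeas hnorm
    have h2 : ∫ t, (∑' n, mono z n * conj (mono (E t) n)) * b t ∂μ = (2 * π) ^ 2 * θ z := by
      simp only [tsum_mono_conj hz]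
      have hz' := mem_Bidisk.1 hz
      have hc1 : Continuous (fun s : ℝ => (1 - z.1 * conj (e s))⁻¹) := by
        refine Continuous.inv₀ (by fun_prop) fun s => one_sub_ne_zero hz'.1 (norm_conj_e s).le
      have hc2 : Continuous (fun s : ℝ => (1 - z.2 * conj (e s))⁻¹) := by
        refine Continuous.inv₀ (by fun_prop) fun s => one_sub_ne_zero hz'.2 (norm_conj_e s).le
      have hkc : Continuous (fun t : ℝ × ℝ =>
          (1 - z.1 * conj (e t.1))⁻¹ * (1 - z.2 * conj (e t.2))⁻¹) :=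
        (hc1.comp continuous_fst).mul (hc2.comp continuous_snd)
      have hkb : ∀ t : ℝ × ℝ, ‖(1 - z.1 * conj (e t.1))⁻¹ * (1 - z.2 * conj (e t.2))⁻¹‖ ≤
          ∑' n, ‖mono z n‖ := by
        intro t
        rw [← tsum_mono_conj hz]
        refine (norm_tsum_le_tsum_norm ?_).trans_eq ?_
        · simpa [norm_mono_E] using hs
        · refine tsum_congr fun n => ?_
          rw [norm_mul, RCLike.norm_conj, norm_mono_E, mul_one]
      have h3 : Tendsto (fun k => ∫ t, (1 - z.1 * conj (e t.1))⁻¹ * (1 - z.2 * conj (e t.2))⁻¹ *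
          θ (R (ρ k) t) ∂μ) atTop (𝓝 (∫ t, (1 - z.1 * conj (e t.1))⁻¹ *
          (1 - z.2 * conj (e t.2))⁻¹ * b t ∂μ)) := by
        refine tendsto_integral_of_dominated_convergence (fun _ => (∑' n, ‖mono z n‖) * C)
          (fun k => (hkc.mul (continuous_comp_R hθ.differentiableOn (ρ_pos k).le
            (ρ_lt_one k))).aestronglyMeasurable) (integrable_const _) (fun k => ?_) ?_
        · refine Filter.Eventually.of_forall fun t => ?_
          rw [norm_mul]
          exact mul_le_mul (hkb t) (hC _ (R_mem (ρ_pos k).le (ρ_lt_one k) t)) (norm_nonneg _)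
            (tsum_nonneg fun n => norm_nonneg _)
        · filter_upwards [hlim] with t ht
          exact ht.const_mul _
      have h4 : ∀ k, ∫ t, (1 - z.1 * conj (e t.1))⁻¹ * (1 - z.2 * conj (e t.2))⁻¹ *
          θ (R (ρ k) t) ∂μ = (2 * π) ^ 2 * θ (ρ k * z.1, ρ k * z.2) := by
        intro k
        rw [← cauchy_two hθ.differentiableOn (ρ_pos k) (ρ_lt_one k) hz]
        refine integral_congr_ae (Filter.Eventually.of_forall fun t => ?_)
        simp only
        ring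
      simp only [h4] at h3
      have h5 : Tendsto (fun k => (2 * π : ℂ) ^ 2 * θ (ρ k * z.1, ρ k * z.2)) atTop
          (𝓝 ((2 * π) ^ 2 * θ z)) := by
        refine Tendsto.const_mul _ ?_
        have hcont : ContinuousAt θ z := by
          refine (hθ.differentiableOn.continuousOn).continuousAt ?_
          exact (Metric.isOpen_ball.prod Metric.isOpen_ball).mem_nhds hz
        have h6 : Tendsto (fun k => ((ρ k * z.1, ρ k * z.2) : ℂ × ℂ)) atTop (𝓝 z) := by
          have := (tendsto_ρ_complex.mul_const z.1).prodMk_nhds (tendsto_ρ_complex.mul_const z.2)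
          simpa using this
        exact hcont.tendsto.comp h6
      exact tendsto_nhds_unique h3 h5
    rw [h2] at h1
    have h7 := h1.mul_left (((2 * π : ℂ) ^ 2)⁻¹)
    rw [inv_mul_cancel_left₀ two_pi_sq_ne_zero] at h7
    have h8 : (fun n => ((2 * π : ℂ) ^ 2)⁻¹ * (mono z n * ∫ t, conj (mono (E t) n) * b t ∂μ)) =
        fun n => ((2 * π : ℂ) ^ 2)⁻¹ * (∫ t, conj (mono (E t) n) * b t ∂μ) * mono z n := by
      funext n
      ring
    rw [← h8]
    exact h7

/-- The index map `n ↦ n + α`. -/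
def upBy (α : ℕ × ℕ) (n : ℕ × ℕ) : ℕ × ℕ := n + α

theorem upBy_injective (α : ℕ × ℕ) : Function.Injective (upBy α) := fun _ _ h =>
  add_right_cancel h

/-- Multiplication by the monomial of exponent `α` on `H²(𝔻²)`. -/
noncomputable def Tmono (α : ℕ × ℕ) : H2 →ₗᵢ[ℂ] H2 := shift (upBy α) (upBy_injective α)

theorem ev_Tmono (α : ℕ × ℕ) (f : H2) (z : ℂ × ℂ) : ev (Tmono α f) z = mono z α * ev f z := by
  unfold Tmono
  rw [ev_shift, ev, ← tsum_mul_left]
  refine tsum_congr fun n => ?_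
  rw [upBy, mono_add, mono]
  ring

theorem mono_R' (r : ℝ) (t : ℝ × ℝ) (f : ℕ × ℕ → ℂ) :
    ∑' n, f n * (r : ℂ) ^ (n.1 + n.2) * mono (E t) n = ∑' n, f n * mono (R r t) n := by
  refine tsum_congr fun n => ?_
  rw [mono_R]
  ring

theorem tendsto_tsum_ρ (f g : H2) :
    Tendsto (fun k => ∑' n, conj (f n * (ρ k : ℂ) ^ (n.1 + n.2)) *
      (g n * (ρ k : ℂ) ^ (n.1 + n.2))) atTop (𝓝 ⟪f, g⟫_ℂ) := by
  rw [lp.inner_eq_tsum]
  refine tendsto_tsum_of_dominated_convergence (bound := fun n => ‖⟪f n, g n⟫_ℂ‖)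
    (lp.summable_inner f g).norm (fun n => ?_) (Filter.Eventually.of_forall fun k n => ?_)
  · have h1 : Tendsto (fun k => (ρ k : ℂ) ^ (n.1 + n.2)) atTop (𝓝 1) := by
      simpa using tendsto_ρ_complex.pow (n.1 + n.2)
    have h2 : Tendsto (fun k => conj ((ρ k : ℂ) ^ (n.1 + n.2))) atTop (𝓝 1) := by
      have := (Complex.continuous_conj.tendsto 1).comp h1
      simpa [Function.comp_def] using this
    have h3 := (h2.const_mul (conj (f n))).mul (h1.const_mul (g n))
    simp only [mul_one] at h3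
    have h4 : ⟪f n, g n⟫_ℂ = conj (f n) * g n := by
      rw [RCLike.inner_apply, mul_comm]
    rw [h4]
    refine h3.congr fun k => ?_
    rw [map_mul]
  · have aux : ∀ a b : ℂ, ‖⟪a, b⟫_ℂ‖ = ‖a‖ * ‖b‖ := by
      intro a b
      rw [RCLike.inner_apply, norm_mul, RCLike.norm_conj, mul_comm]
    rw [show ‖⟪f n, g n⟫_ℂ‖ = ‖f n‖ * ‖g n‖ from aux (f n) (g n), norm_mul, RCLike.norm_conj,
      norm_mul, norm_mul, norm_pow, Complex.norm_real, Real.norm_of_nonneg (ρ_pos k).le]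
    have h5 : ρ k ^ (n.1 + n.2) ≤ 1 := pow_le_one₀ (ρ_pos k).le (ρ_lt_one k).le
    have h6 : 0 ≤ ρ k ^ (n.1 + n.2) := pow_nonneg (ρ_pos k).le _
    calc ‖f n‖ * ρ k ^ (n.1 + n.2) * (‖g n‖ * ρ k ^ (n.1 + n.2))
        ≤ ‖f n‖ * 1 * (‖g n‖ * 1) := by gcongr
      _ = ‖f n‖ * ‖g n‖ := by ring

theorem memℓp_coeff {θ : ℂ × ℂ → ℂ} (hθ : IsInner₂ θ) {Θ : ℕ × ℕ → ℂ} {B : ℝ}
    (hB : ∀ n, ‖Θ n‖ ≤ B) (hs : ∀ z ∈ Bidisk, HasSum (fun n => Θ n * mono z n) (θ z)) :
    Memℓp (E := fun _ : ℕ × ℕ => ℂ) Θ 2 := by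
  obtain ⟨C, hC⟩ := hθ.bounded
  have h0 : (0 : ℝ) < (2 : ENNReal).toReal := by norm_num
  have h2 : (2 : ENNReal).toReal = ((2 : ℕ) : ℝ) := by norm_num
  refine (memℓp_gen_iff h0).2 ?_
  have hle : ∀ (s : Finset (ℕ × ℕ)) (k : ℕ),
      ∑ n ∈ s, ‖Θ n * (ρ k : ℂ) ^ (n.1 + n.2)‖ ^ 2 ≤
        ((2 * π) ^ 2)⁻¹ * (C ^ 2 * μ.real Set.univ) := by
    intro s k
    have hsum := summable_bdd_mul_pow hB (ρ_pos k).le (ρ_lt_one k)
    have hsum2 : Summable (fun n : ℕ × ℕ => ‖Θ n * (ρ k : ℂ) ^ (n.1 + n.2)‖ ^ 2) := by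
      refine Summable.of_nonneg_of_le (fun n => by positivity) (fun n => ?_) (hsum.mul_left B)
      rw [sq]
      refine mul_le_mul_of_nonneg_right ?_ (norm_nonneg _)
      rw [norm_mul, norm_pow, Complex.norm_real, Real.norm_of_nonneg (ρ_pos k).le]
      calc ‖Θ n‖ * ρ k ^ (n.1 + n.2) ≤ B * 1 := by
            refine mul_le_mul (hB n) (pow_le_one₀ (ρ_pos k).le (ρ_lt_one k).le)
              (pow_nonneg (ρ_pos k).le _) ((norm_nonneg _).trans (hB n))
        _ = B := mul_one _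
    refine (hsum2.sum_le_tsum s (fun n _ => by positivity)).trans ?_
    have key := integral_conj_mul hsum hsum
    simp only [mono_R'] at key
    have h3 : ∀ t, ∑' n, Θ n * mono (R (ρ k) t) n = θ (R (ρ k) t) := fun t =>
      (hs _ (R_mem (ρ_pos k).le (ρ_lt_one k) t)).tsum_eq
    simp only [h3] at key
    have h4 : ∀ n : ℕ × ℕ, conj (Θ n * (ρ k : ℂ) ^ (n.1 + n.2)) *
        (Θ n * (ρ k : ℂ) ^ (n.1 + n.2)) =
        ((‖Θ n * (ρ k : ℂ) ^ (n.1 + n.2)‖ ^ 2 : ℝ) : ℂ) := by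
      intro n
      rw [RCLike.conj_mul]
      push_cast
      rfl
    simp only [h4] at key
    have h5 : ∫ t, conj (θ (R (ρ k) t)) * θ (R (ρ k) t) ∂μ =
        ((∫ t, ‖θ (R (ρ k) t)‖ ^ 2 ∂μ : ℝ) : ℂ) := by
      rw [← integral_complex_ofReal]
      refine integral_congr_ae (Filter.Eventually.of_forall fun t => ?_)
      simp only
      rw [RCLike.conj_mul]
      push_cast
      rfl
    rw [h5] at key
    have h6 : ∫ t, ‖θ (R (ρ k) t)‖ ^ 2 ∂μ =
        (2 * π) ^ 2 * ∑' n : ℕ × ℕ, ‖Θ n * (ρ k : ℂ) ^ (n.1 + n.2)‖ ^ 2 := by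
      have := key
      push_cast at this ⊢
      exact_mod_cast this
    have h7 : ∫ t, ‖θ (R (ρ k) t)‖ ^ 2 ∂μ ≤ C ^ 2 * μ.real Set.univ := by
      have hc := continuous_comp_R hθ.differentiableOn (ρ_pos k).le (ρ_lt_one k)
      have hle2 : ∀ t, ‖θ (R (ρ k) t)‖ ^ 2 ≤ C ^ 2 := fun t =>
        pow_le_pow_left₀ (norm_nonneg _) (hC _ (R_mem (ρ_pos k).le (ρ_lt_one k) t)) 2
      calc ∫ t, ‖θ (R (ρ k) t)‖ ^ 2 ∂μ ≤ ∫ t, C ^ 2 ∂μ := by
            refine integral_mono_ae ?_ (integrable_const _) (Filter.Eventually.of_forall hle2)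
            refine Integrable.of_bound (C := C ^ 2) (hc.norm.pow 2).aestronglyMeasurable ?_
            refine Filter.Eventually.of_forall fun t => ?_
            rw [Real.norm_of_nonneg (by positivity)]
            exact hle2 t
        _ = C ^ 2 * μ.real Set.univ := by
            rw [integral_const, smul_eq_mul, mul_comm]
    rw [le_inv_mul_iff₀ (by positivity), ← h6]
    exact h7
  refine summable_of_sum_le (c := ((2 * π) ^ 2)⁻¹ * (C ^ 2 * μ.real Set.univ))
    (fun n => by positivity) fun s => ?_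
  have hlim : Tendsto (fun k => ∑ n ∈ s, ‖Θ n * (ρ k : ℂ) ^ (n.1 + n.2)‖ ^ 2) atTop
      (𝓝 (∑ n ∈ s, ‖Θ n‖ ^ 2)) := by
    refine tendsto_finsetSum s fun n _ => ?_
    have h1 : Tendsto (fun k => Θ n * (ρ k : ℂ) ^ (n.1 + n.2)) atTop (𝓝 (Θ n)) := by
      simpa using (tendsto_ρ_complex.pow (n.1 + n.2)).const_mul (Θ n)
    exact (h1.norm).pow 2
  have h8 := le_of_tendsto' hlim (hle s)
  simpa [h2] using h8

/-- The vectors `z^α θ` are orthonormal. -/
theorem orthonormal_Tmono {θ : ℂ × ℂ → ℂ} (hθ : IsInner₂ θ) {Θ : H2}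
    (hs : ∀ z ∈ Bidisk, ev Θ z = θ z) : Orthonormal ℂ (fun α => Tmono α Θ) := by
  obtain ⟨C, hC⟩ := hθ.bounded
  obtain ⟨b, hmeas, hb1, hlim⟩ := exists_boundary hθ
  rw [orthonormal_iff_ite]
  intro α β
  have h1 := tendsto_tsum_ρ (Tmono α Θ) (Tmono β Θ)
  have h2 : ∀ k, (2 * π : ℂ) ^ 2 * (∑' n, conj (Tmono α Θ n * (ρ k : ℂ) ^ (n.1 + n.2)) *
      (Tmono β Θ n * (ρ k : ℂ) ^ (n.1 + n.2))) =
      ∫ t, conj (mono (R (ρ k) t) α * θ (R (ρ k) t)) * (mono (R (ρ k) t) β * θ (R (ρ k) t)) ∂μ := by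
    intro k
    rw [← integral_conj_mul (summable_bdd_mul_pow (norm_apply_le_norm _) (ρ_pos k).le (ρ_lt_one k))
      (summable_bdd_mul_pow (norm_apply_le_norm _) (ρ_pos k).le (ρ_lt_one k))]
    refine integral_congr_ae (Filter.Eventually.of_forall fun t => ?_)
    simp only [mono_R']
    have hR := R_mem (ρ_pos k).le (ρ_lt_one k) t
    have h3 : ∀ γ, ∑' n, Tmono γ Θ n * mono (R (ρ k) t) n =
        mono (R (ρ k) t) γ * θ (R (ρ k) t) := by
      intro γ
      rw [← hs _ hR, ← ev_Tmono]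
      rfl
    rw [h3, h3]
  have h4 : Tendsto (fun k => ∫ t, conj (mono (R (ρ k) t) α * θ (R (ρ k) t)) *
      (mono (R (ρ k) t) β * θ (R (ρ k) t)) ∂μ) atTop
      (𝓝 (∫ t, conj (mono (E t) α * b t) * (mono (E t) β * b t) ∂μ)) := by
    refine tendsto_integral_of_dominated_convergence (fun _ => C * C) (fun k => ?_)
      (integrable_const _) (fun k => ?_) ?_
    · have hc := continuous_comp_R hθ.differentiableOn (ρ_pos k).le (ρ_lt_one k)
      have : Continuous (fun t => conj (mono (R (ρ k) t) α * θ (R (ρ k) t)) *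
          (mono (R (ρ k) t) β * θ (R (ρ k) t))) := by
        have hm : ∀ γ, Continuous fun t => mono (R (ρ k) t) γ := fun γ => by fun_prop
        exact (Complex.continuous_conj.comp ((hm α).mul hc)).mul ((hm β).mul hc)
      exact this.aestronglyMeasurable
    · refine Filter.Eventually.of_forall fun t => ?_
      have hR := R_mem (ρ_pos k).le (ρ_lt_one k) t
      have hm : ∀ γ, ‖mono (R (ρ k) t) γ * θ (R (ρ k) t)‖ ≤ C := by
        intro γ
        rw [norm_mul]
        calc ‖mono (R (ρ k) t) γ‖ * ‖θ (R (ρ k) t)‖ ≤ 1 * C := by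
              refine mul_le_mul ?_ (hC _ hR) (norm_nonneg _) zero_le_one
              exact norm_mono_le_one (mem_Bidisk.1 hR).1.le (mem_Bidisk.1 hR).2.le γ
          _ = C := one_mul C
      rw [norm_mul, RCLike.norm_conj]
      exact mul_le_mul (hm α) (hm β) (norm_nonneg _) ((norm_nonneg _).trans (hm α))
    · filter_upwards [hlim] with t ht
      have hm : ∀ γ, Tendsto (fun k => mono (R (ρ k) t) γ) atTop (𝓝 (mono (E t) γ)) := by
        intro γ
        simp only [mono_R]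
        simpa using (tendsto_ρ_complex.pow (γ.1 + γ.2)).mul_const (mono (E t) γ)
      exact ((Complex.continuous_conj.tendsto _).comp ((hm α).mul ht)).mul ((hm β).mul ht)
  have h5 : ∫ t, conj (mono (E t) α * b t) * (mono (E t) β * b t) ∂μ =
      if α = β then (2 * π : ℂ) ^ 2 else 0 := by
    rw [← integral_mono_E β α]
    refine integral_congr_ae ?_
    filter_upwards [hb1] with t ht
    have : conj (b t) * b t = 1 := by
      rw [RCLike.conj_mul, ht]
      simp
    calc conj (mono (E t) α * b t) * (mono (E t) β * b t)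
        = conj (mono (E t) α) * mono (E t) β * (conj (b t) * b t) := by
          rw [map_mul]; ring
      _ = conj (mono (E t) α) * mono (E t) β := by rw [this, mul_one]
  rw [h5] at h4
  have h6 := h1.const_mul ((2 * π : ℂ) ^ 2)
  simp only [h2] at h6
  have h7 := tendsto_nhds_unique h6 h4
  by_cases h : α = β
  · rw [if_pos h] at h7 ⊢
    exact mul_left_cancel₀ two_pi_sq_ne_zero (h7.trans (mul_one _).symm)
  · rw [if_neg h] at h7 ⊢
    exact (mul_eq_zero.1 h7).resolve_left two_pi_sq_ne_zero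

/-- Multiplication by an inner function is an isometry of `H²(𝔻²)`. -/
theorem exists_isometry {θ : ℂ × ℂ → ℂ} (hθ : IsInner₂ θ) :
    ∃ M : H2 →ₗᵢ[ℂ] H2, ∀ (f : H2) (z : Bidisk), ev (M f) z = θ z * ev f z := by
  obtain ⟨Θ, ⟨B, hB⟩, hs⟩ := exists_coeff hθ
  let Θ' : H2 := ⟨Θ, memℓp_coeff hθ hB hs⟩
  have hs' : ∀ z ∈ Bidisk, ev Θ' z = θ z := fun z hz => (hs z hz).tsum_eq
  have hO := orthonormal_Tmono hθ hs'
  refine ⟨hO.orthogonalFamily.linearIsometry, fun f z => ?_⟩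
  have h1 := hO.orthogonalFamily.hasSum_linearIsometry f
  have h2 := h1.mapL (innerSL ℂ (szego z))
  simp only [innerSL_apply_apply, inner_szego] at h2
  have h3 := (hasSum_ev f z).mul_left (θ z)
  refine h2.unique ?_
  have h4 : (fun n => ev ((LinearIsometry.toSpanSingleton ℂ H2 (hO.1 n)) (f n)) z) =
      fun n => θ z * (f n * mono z n) := by
    funext n
    rw [LinearIsometry.toSpanSingleton_apply, ev_smul, ev_Tmono, hs' _ z.2]
    ring
  rw [h4]
  exact h3

end Pool.Agent.AglerBidisk
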