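import Pool.Agent.helper33.AglerHilbert

/-!
# Reproducing kernel spaces inside `H²(𝔻²)`
-/

open Filter Topology ComplexConjugate InnerProductSpace MeasureTheory
open scoped ComplexOrder Real

namespace Pool.Agent.AglerBidisk

section Gram

variable {X : Type*} {H : Type*} [NormedAddCommGroup H] [InnerProductSpace ℂ H]

theorem inner_linearCombination (t : X → H) (c : X →₀ ℂ) :
    ⟪Finsupp.linearCombination ℂ t c, Finsupp.linearCombination ℂ t c⟫_ℂ =
      c.sum fun i xi => c.sum fun j xj => star xi * ⟪t i, t j⟫_ℂ * xj := by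
  rw [Finsupp.linearCombination_apply, Finsupp.sum_inner]
  refine Finsupp.sum_congr fun i _ => ?_
  rw [Finsupp.inner_sum]
  refine Finsupp.sum_congr fun j _ => ?_
  rw [inner_smul_left, inner_smul_right, RCLike.star_def]
  ring

theorem posSemidef_gram (t : X → H) : (Matrix.of fun z w => ⟪t z, t w⟫_ℂ).PosSemidef := by
  refine ⟨?_, fun c => ?_⟩
  · ext i j
    simp [Matrix.conjTranspose_apply]
  · simp only [Matrix.of_apply]
    rw [← inner_linearCombination, inner_self_eq_norm_sq_to_K]
    have : (0 : ℝ) ≤ ‖Finsupp.linearCombination ℂ t c‖ ^ 2 := by positivity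
    have h2 := Complex.zero_le_real.2 this
    rw [Complex.ofReal_pow] at h2
    exact h2

end Gram

section Op

variable {X : Type} {k : X → X → ℂ}

theorem opKernel_posSemidef (hk : (Matrix.of k).PosSemidef) : (opKernel k).PosSemidef := by
  have htfae : (opKernel k).PosSemidef ↔ ((opKernel k).IsHermitian ∧ ∀ (vv : X →₀ ℂ),
      0 ≤ RCLike.re (vv.sum fun x w => vv.sum fun x' w' => ⟪opKernel k x' x w, w'⟫_ℂ)) :=
    (RKHS.posSemidef_tfae (𝕜 := ℂ) (V := ℂ) (K := opKernel k)).out 0 2
  rw [htfae]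
  refine ⟨?_, fun c => ?_⟩
  · refine Matrix.IsHermitian.ext fun i j => ?_
    have h1 := hk.1.apply i j
    simp only [Matrix.of_apply] at h1
    simp only [opKernel, Matrix.of_apply]
    rw [star_smul, ← h1]
    congr 1
    exact star_one (ℂ →L[ℂ] ℂ)
  · have h1 := hk.2 c
    have h2 : (c.sum fun x w => c.sum fun x' w' => ⟪opKernel k x' x w, w'⟫_ℂ) =
        c.sum fun i xi => c.sum fun j xj => star xi * (Matrix.of k) i j * xj := by
      refine Finsupp.sum_congr fun i _ => Finsupp.sum_congr fun j _ => ?_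
      have h3 := hk.1.apply i j
      simp only [Matrix.of_apply] at h3
      simp only [opKernel, Matrix.of_apply]
      rw [← h3]
      simp [RCLike.inner_apply]
      ring
    rw [h2]
    exact (Complex.nonneg_iff.1 h1).1

variable [hk : Fact (opKernel k).PosSemidef]

/-- The kernel function at the point `w`. -/
noncomputable def kf (k : X → X → ℂ) [Fact (opKernel k).PosSemidef] (w : X) :
    RKHS.OfKernel (opKernel k) := RKHS.kerFun (RKHS.OfKernel (opKernel k)) w 1

theorem inner_kf (w : X) (g : RKHS.OfKernel (opKernel k)) : ⟪kf k w, g⟫_ℂ = g w := by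
  unfold kf
  rw [RKHS.kerFun_inner]
  simp

theorem kf_apply (w z : X) : kf k w z = k z w := by
  unfold kf
  rw [RKHS.kerFun_apply, RKHS.OfKernel.kernel_ofKernel]
  simp [opKernel]

theorem inner_kf_kf (z w : X) : ⟪kf k z, kf k w⟫_ℂ = k z w := by
  rw [inner_kf, kf_apply]

end Op

/-- The Szegő kernel. -/
noncomputable def sz (z w : Bidisk) : ℂ := ⟪szego z, szego w⟫_ℂ

theorem sz_eq (z w : Bidisk) :
    sz z w = (1 - z.1.1 * conj w.1.1)⁻¹ * (1 - z.1.2 * conj w.1.2)⁻¹ := by
  have hz := mem_Bidisk.1 z.2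
  have hw := mem_Bidisk.1 w.2
  have h1 : ‖z.1.1 * conj w.1.1‖ < 1 := by
    rw [norm_mul, RCLike.norm_conj]
    exact mul_lt_one_of_nonneg_of_lt_one_left (norm_nonneg _) hz.1 hw.1.le
  have h2 : ‖z.1.2 * conj w.1.2‖ < 1 := by
    rw [norm_mul, RCLike.norm_conj]
    exact mul_lt_one_of_nonneg_of_lt_one_left (norm_nonneg _) hz.2 hw.2.le
  rw [← tsum_geometric_of_norm_lt_one h1, ← tsum_geometric_of_norm_lt_one h2]
  have s1 : Summable (fun n : ℕ => ‖(z.1.1 * conj w.1.1) ^ n‖) := by
    simp_rw [norm_pow]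
    exact summable_geometric_of_lt_one (norm_nonneg _) h1
  have s2 : Summable (fun n : ℕ => ‖(z.1.2 * conj w.1.2) ^ n‖) := by
    simp_rw [norm_pow]
    exact summable_geometric_of_lt_one (norm_nonneg _) h2
  rw [tsum_mul_tsum_of_summable_norm s1 s2, sz, inner_szego, ev]
  refine tsum_congr fun n => ?_
  simp [mono, mul_pow]
  ring

theorem den₁_ne_zero (z w : Bidisk) : 1 - z.1.1 * conj w.1.1 ≠ 0 := by
  refine one_sub_ne_zero (mem_Bidisk.1 z.2).1 ?_
  rw [RCLike.norm_conj]
  exact (mem_Bidisk.1 w.2).1.le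

theorem den₂_ne_zero (z w : Bidisk) : 1 - z.1.2 * conj w.1.2 ≠ 0 := by
  refine one_sub_ne_zero (mem_Bidisk.1 z.2).2 ?_
  rw [RCLike.norm_conj]
  exact (mem_Bidisk.1 w.2).2.le

theorem denseRange_szego : DenseRange (Finsupp.linearCombination ℂ szego) := by
  have h1 : (LinearMap.range (Finsupp.linearCombination ℂ szego))ᗮ = ⊥ := by
    rw [Submodule.eq_bot_iff]
    intro f hf
    refine ev_injective fun z => ?_
    rw [← inner_szego]
    refine (Submodule.mem_orthogonal _ _).1 hf _ ?_
    exact ⟨Finsupp.single z 1, by simp⟩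
  have h2 := (Submodule.topologicalClosure_eq_top_iff).2 h1
  have h3 := Submodule.dense_iff_topologicalClosure_eq_top.2 h2
  exact h3

/-- Extending a bounded operator defined on the Szegő kernel functions. -/
theorem exists_V {k : Bidisk → Bidisk → ℂ} [hk : Fact (opKernel k).PosSemidef]
    (hdom : (Matrix.of fun z w => sz z w - k z w).PosSemidef) :
    ∃ V : H2 →L[ℂ] RKHS.OfKernel (opKernel k), (∀ w, V (szego w) = kf k w) ∧
      ∀ (h : RKHS.OfKernel (opKernel k)) (z : Bidisk),
        ev (ContinuousLinearMap.adjoint V h) z = h z := by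
  have hle : ∀ c : Bidisk →₀ ℂ, ‖Finsupp.linearCombination ℂ (kf k) c‖ ≤
      1 * ‖Finsupp.linearCombination ℂ szego c‖ := by
    intro c
    have h1 := hdom.2 c
    have h2 : (c.sum fun i xi => c.sum fun j xj => star xi *
        (Matrix.of fun z w => sz z w - k z w) i j * xj) =
        ⟪Finsupp.linearCombination ℂ szego c, Finsupp.linearCombination ℂ szego c⟫_ℂ -
        ⟪Finsupp.linearCombination ℂ (kf k) c, Finsupp.linearCombination ℂ (kf k) c⟫_ℂ := by
      rw [inner_linearCombination, inner_linearCombination, ← Finsupp.sum_sub]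
      refine Finsupp.sum_congr fun i _ => ?_
      rw [← Finsupp.sum_sub]
      refine Finsupp.sum_congr fun j _ => ?_
      rw [inner_kf_kf]
      simp only [Matrix.of_apply, sz]
      ring
    rw [h2] at h1
    have h3 := (Complex.nonneg_iff.1 h1).1
    have h4 : ‖Finsupp.linearCombination ℂ (kf k) c‖ ^ 2 ≤
        ‖Finsupp.linearCombination ℂ szego c‖ ^ 2 := by
      rw [← inner_self_eq_norm_sq (𝕜 := ℂ), ← inner_self_eq_norm_sq (𝕜 := ℂ)]
      rw [Complex.sub_re] at h3
      simp only [RCLike.re_to_complex]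
      linarith
    rw [one_mul]
    exact (pow_le_pow_iff_left₀ (norm_nonneg _) (norm_nonneg _) two_ne_zero).1 h4
  set V := (Finsupp.linearCombination ℂ (kf k)).extendOfNorm (Finsupp.linearCombination ℂ szego)
    with hV
  have hVs : ∀ w, V (szego w) = kf k w := by
    intro w
    have := LinearMap.extendOfNorm_eq denseRange_szego ⟨1, hle⟩ (Finsupp.single w 1)
    simpa using this
  refine ⟨V, hVs, fun h z => ?_⟩
  rw [← inner_szego, ContinuousLinearMap.adjoint_inner_right, hVs, inner_kf]

end Pool.Agent.AglerBidisk
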