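import Pool.Agent.helper33.AglerForward

/-!
# Inner functions whose coefficient matrix has rank one are products
-/

open Filter Topology ComplexConjugate InnerProductSpace MeasureTheory
open scoped ComplexOrder Real

namespace Pool.Agent.AglerBidisk

/-- Exchanging the second coordinates of two pairs. -/
def exch : (ℕ × ℕ) × (ℕ × ℕ) ≃ (ℕ × ℕ) × (ℕ × ℕ) where
  toFun p := ((p.1.1, p.2.2), (p.2.1, p.1.2))
  invFun p := ((p.1.1, p.2.2), (p.2.1, p.1.2))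
  left_inv _ := rfl
  right_inv _ := rfl

theorem summable_norm_mul_mono (Θ : H2) {z : ℂ × ℂ} (hz : z ∈ Bidisk) :
    Summable (fun n => ‖Θ n * mono z n‖) := by
  refine Summable.of_nonneg_of_le (fun n => norm_nonneg _) (fun n => ?_)
    ((summable_norm_mono hz).mul_left ‖Θ‖)
  rw [norm_mul]
  exact mul_le_mul_of_nonneg_right (norm_apply_le_norm Θ n) (norm_nonneg _)

theorem exchange_of_rank_one {Θ : H2}
    (h : ∀ i m n n' : ℕ, Θ (i, n) * Θ (m, n') = Θ (i, n') * Θ (m, n)) {z w : ℂ × ℂ}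
    (hz : z ∈ Bidisk) (hw : w ∈ Bidisk) :
    ev Θ z * ev Θ w = ev Θ (z.1, w.2) * ev Θ (w.1, z.2) := by
  have hzw : (z.1, w.2) ∈ Bidisk := mem_Bidisk.2 ⟨(mem_Bidisk.1 hz).1, (mem_Bidisk.1 hw).2⟩
  have hwz : (w.1, z.2) ∈ Bidisk := mem_Bidisk.2 ⟨(mem_Bidisk.1 hw).1, (mem_Bidisk.1 hz).2⟩
  have key : ∀ z : ℂ × ℂ, ev Θ z = ∑' n, Θ n * mono z n := fun z => rfl
  rw [key, key, key, key,
    tsum_mul_tsum_of_summable_norm (summable_norm_mul_mono Θ hz) (summable_norm_mul_mono Θ hw),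
    tsum_mul_tsum_of_summable_norm (summable_norm_mul_mono Θ hzw) (summable_norm_mul_mono Θ hwz),
    ← exch.tsum_eq]
  refine tsum_congr fun p => ?_
  obtain ⟨⟨i, n⟩, ⟨m, n'⟩⟩ := p
  have h1 := h i m n n'
  simp only [exch, Equiv.coe_fn_mk, mono]
  linear_combination (z.1 ^ i * z.2 ^ n' * (w.1 ^ m * w.2 ^ n)) * (-h1)

/-- The factor `η` has a nonzero limit. -/
theorem exists_limit_factor {g : ℂ → ℂ} (hg : DifferentiableOn ℂ g (Metric.ball 0 1)) {C : ℝ}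
    (hC : ∀ z ∈ Metric.ball (0 : ℂ) 1, ‖g z‖ ≤ C) {w : ℂ} (hw : ‖w‖ < 1) (hgw : g w ≠ 0)
    {η : ℝ → ℂ} {C' : ℝ} (hC' : ∀ r ∈ Set.Ioo (0 : ℝ) 1, ‖η r‖ ≤ C') {κ : ℝ} (hκ : 0 < κ)
    (hlim : ∀ᵐ s : ℝ, ∃ c : ℂ, ‖c‖ = κ ∧
      Tendsto (fun r : ℝ => g (r * e s) * η r) (𝓝[<] 1) (𝓝 c)) :
    ∃ a : ℂ, a ≠ 0 ∧ Tendsto η (𝓝[<] 1) (𝓝 a) := by
  have hex : ∀ s : ℝ, ∃ c : ℂ, (∃ c : ℂ, ‖c‖ = κ ∧
      Tendsto (fun r : ℝ => g (r * e s) * η r) (𝓝[<] 1) (𝓝 c)) → (‖c‖ = κ ∧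
      Tendsto (fun r : ℝ => g (r * e s) * η r) (𝓝[<] 1) (𝓝 c)) := by
    intro s
    by_cases h : ∃ c : ℂ, ‖c‖ = κ ∧ Tendsto (fun r : ℝ => g (r * e s) * η r) (𝓝[<] 1) (𝓝 c)
    · obtain ⟨c, hc⟩ := h
      exact ⟨c, fun _ => hc⟩
    · exact ⟨0, fun h' => absurd h' h⟩
  choose L hL using hex
  have hL' : ∀ᵐ s ∂ν, ‖L s‖ = κ ∧ Tendsto (fun r : ℝ => g (r * e s) * η r) (𝓝[<] 1) (𝓝 (L s)) := by
    filter_upwards [ae_ν_of_ae hlim] with s hs
    exact hL s hs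
  have hIoo : ∀ᶠ r in 𝓝[<] (1 : ℝ), r ∈ Set.Ioo (0 : ℝ) 1 := Ioo_mem_nhdsLT zero_lt_one
  have hmem : ∀ {r : ℝ}, r ∈ Set.Ioo (0 : ℝ) 1 → ∀ s, (r * e s : ℂ) ∈ Metric.ball (0 : ℂ) 1 := by
    intro r hr s
    rw [mem_ball_zero_iff, norm_mul, norm_e, mul_one, Complex.norm_real,
      Real.norm_of_nonneg hr.1.le]
    exact hr.2
  -- dominated convergence
  have hkc : Continuous (fun s : ℝ => (1 - w * conj (e s))⁻¹) := by
    refine Continuous.inv₀ (by fun_prop) fun s => one_sub_ne_zero hw (norm_conj_e s).le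
  have hkb : ∀ s : ℝ, ‖(1 - w * conj (e s))⁻¹‖ ≤ (1 - ‖w‖)⁻¹ := by
    intro s
    rw [norm_inv]
    refine inv_anti₀ (by linarith) ?_
    have h1 := norm_sub_norm_le (1 : ℂ) (w * conj (e s))
    rw [norm_mul, norm_conj_e, mul_one, norm_one] at h1
    exact h1
  have hC0 : 0 ≤ C := (norm_nonneg _).trans (hC w (by simpa using hw))
  have h1 : Tendsto (fun r : ℝ => ∫ s, g (r * e s) * η r * (1 - w * conj (e s))⁻¹ ∂ν) (𝓝[<] 1)
      (𝓝 (∫ s, L s * (1 - w * conj (e s))⁻¹ ∂ν)) := by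
    refine tendsto_integral_filter_of_dominated_convergence
      (fun _ => C * C' * (1 - ‖w‖)⁻¹) ?_ ?_ (integrable_const _) ?_
    · filter_upwards [hIoo] with r hr
      have hgc : Continuous (fun s => g (r * e s)) :=
        hg.continuousOn.comp_continuous (by fun_prop) (hmem hr)
      exact ((hgc.mul continuous_const).mul hkc).aestronglyMeasurable
    · filter_upwards [hIoo] with r hr
      refine Filter.Eventually.of_forall fun s => ?_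
      rw [norm_mul, norm_mul]
      exact mul_le_mul (mul_le_mul (hC _ (hmem hr s)) (hC' r hr) (norm_nonneg _) hC0) (hkb s)
        (norm_nonneg _) (mul_nonneg hC0 ((norm_nonneg _).trans (hC' r hr)))
    · filter_upwards [hL'] with s hs
      exact hs.2.mul_const _
  have h2 : ∀ᶠ r : ℝ in 𝓝[<] (1 : ℝ), ∫ s, g (r * e s) * η r * (1 - w * conj (e s))⁻¹ ∂ν =
      2 * π * g (r * w) * η r := by
    filter_upwards [hIoo] with r hr
    rw [← cauchy_one hg hr.1 hr.2 hw, ← integral_mul_const]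
    refine integral_congr_ae (Filter.Eventually.of_forall fun s => ?_)
    simp only
    ring
  have h3 : Tendsto (fun r : ℝ => 2 * π * g (r * w) * η r) (𝓝[<] 1)
      (𝓝 (∫ s, L s * (1 - w * conj (e s))⁻¹ ∂ν)) := h1.congr' h2
  have h4 : Tendsto (fun r : ℝ => 2 * π * g (r * w)) (𝓝[<] 1) (𝓝 (2 * π * g w)) := by
    refine Tendsto.const_mul _ ?_
    have hc : ContinuousAt g w :=
      hg.continuousOn.continuousAt (Metric.isOpen_ball.mem_nhds (by simpa using hw))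
    have h5 : Tendsto (fun r : ℝ => (r * w : ℂ)) (𝓝[<] 1) (𝓝 w) := by
      have h6 : Tendsto (fun r : ℝ => (r * w : ℂ)) (𝓝 1) (𝓝 ((1 : ℝ) * w)) := by
        have : Continuous (fun r : ℝ => (r * w : ℂ)) := by fun_prop
        exact this.tendsto 1
      rw [Complex.ofReal_one, one_mul] at h6
      exact h6.mono_left nhdsWithin_le_nhds
    exact hc.tendsto.comp h5
  have hπ : (2 * π * g w : ℂ) ≠ 0 := by
    have : (π : ℂ) ≠ 0 := by exact_mod_cast Real.pi_ne_zero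
    exact mul_ne_zero (mul_ne_zero two_ne_zero this) hgw
  have h5 : Tendsto η (𝓝[<] 1) (𝓝 ((∫ s, L s * (1 - w * conj (e s))⁻¹ ∂ν) / (2 * π * g w))) := by
    refine (h3.div h4 hπ).congr' ?_
    filter_upwards [h4.eventually_ne hπ] with r hr
    exact mul_div_cancel_left₀ _ hr
  refine ⟨_, ?_, h5⟩
  intro h0
  rw [h0] at h5
  -- one good point
  obtain ⟨s, c, hc, hs⟩ := hlim.exists
  have h6 : Tendsto (fun r : ℝ => g (r * e s) * η r) (𝓝[<] 1) (𝓝 0) := by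
    refine squeeze_zero_norm' (a := fun r => C * ‖η r‖) ?_ ?_
    · filter_upwards [hIoo] with r hr
      rw [norm_mul]
      exact mul_le_mul_of_nonneg_right (hC _ (hmem hr s)) (norm_nonneg _)
    · simpa using (h5.norm).const_mul C
  have h7 := tendsto_nhds_unique hs h6
  rw [h7, norm_zero] at hc
  exact hκ.ne hc

theorem boundary_factor {g : ℂ → ℂ} (hg : DifferentiableOn ℂ g (Metric.ball 0 1)) {C : ℝ}
    (hC : ∀ z ∈ Metric.ball (0 : ℂ) 1, ‖g z‖ ≤ C) {w : ℂ} (hw : ‖w‖ < 1) (hgw : g w ≠ 0)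
    {η : ℝ → ℂ} {C' : ℝ} (hC' : ∀ r ∈ Set.Ioo (0 : ℝ) 1, ‖η r‖ ≤ C') {κ : ℝ} (hκ : 0 < κ)
    (hlim : ∀ᵐ s : ℝ, ∃ c : ℂ, ‖c‖ = κ ∧
      Tendsto (fun r : ℝ => g (r * e s) * η r) (𝓝[<] 1) (𝓝 c)) :
    ∃ κ' : ℝ, 0 < κ' ∧ ∀ᵐ s : ℝ, ∃ c : ℂ, ‖c‖ = κ' ∧
      Tendsto (fun r : ℝ => g (r * e s)) (𝓝[<] 1) (𝓝 c) := by
  obtain ⟨a, ha, hη⟩ := exists_limit_factor hg hC hw hgw hC' hκ hlim
  refine ⟨κ / ‖a‖, div_pos hκ (norm_pos_iff.2 ha), ?_⟩
  filter_upwards [hlim] with s hs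
  obtain ⟨c, hc, h⟩ := hs
  refine ⟨c / a, by rw [norm_div, hc], ?_⟩
  refine (h.div hη ha).congr' ?_
  filter_upwards [hη.eventually_ne ha] with r hr
  exact mul_div_cancel_right₀ _ hr

/-- An inner function with the exchange property is a product of one-variable inner
functions. -/
theorem isProduct_of_exchange {θ : ℂ × ℂ → ℂ} (hθ : IsInner₂ θ)
    (hR : ∀ z ∈ Bidisk, ∀ w ∈ Bidisk, θ z * θ w = θ (z.1, w.2) * θ (w.1, z.2)) :
    IsProductOfInner θ := by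
  obtain ⟨C, hC⟩ := hθ.bounded
  have hIoo : ∀ᶠ r in 𝓝[<] (1 : ℝ), r ∈ Set.Ioo (0 : ℝ) 1 := Ioo_mem_nhdsLT zero_lt_one
  have hball : ∀ {r : ℝ}, r ∈ Set.Ioo (0 : ℝ) 1 → ∀ s, (r * e s : ℂ) ∈ Metric.ball (0 : ℂ) 1 := by
    intro r hr s
    rw [mem_ball_zero_iff, norm_mul, norm_e, mul_one, Complex.norm_real,
      Real.norm_of_nonneg hr.1.le]
    exact hr.2
  -- a point where `θ` does not vanish
  obtain ⟨w, hw, hθw⟩ : ∃ w ∈ Bidisk, θ w ≠ 0 := by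
    by_contra hcon
    push Not at hcon
    obtain ⟨t, c, hc, ht⟩ := hθ.boundary.exists
    have h1 : Tendsto (fun r : ℝ => θ (r * Complex.exp (t.1 * Complex.I),
        r * Complex.exp (t.2 * Complex.I))) (𝓝[<] 1) (𝓝 0) := by
      refine tendsto_const_nhds.congr' ?_
      filter_upwards [hIoo] with r hr
      exact (hcon _ ⟨hball hr t.1, hball hr t.2⟩).symm
    rw [tendsto_nhds_unique ht h1, norm_zero] at hc
    exact zero_ne_one hc
  have hw' := mem_Bidisk.1 hw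
  set c₀ := θ w with hc₀
  set g : ℂ → ℂ := fun s => θ (s, w.2) with hg
  set h : ℂ → ℂ := fun t => θ (w.1, t) with hh
  have hgd : DifferentiableOn ℂ g (Metric.ball 0 1) := by
    refine hθ.differentiableOn.comp (by fun_prop) fun s hs => ?_
    exact ⟨hs, by simpa using hw'.2⟩
  have hhd : DifferentiableOn ℂ h (Metric.ball 0 1) := by
    refine hθ.differentiableOn.comp (by fun_prop) fun s hs => ?_
    exact ⟨by simpa using hw'.1, hs⟩
  have hgC : ∀ z ∈ Metric.ball (0 : ℂ) 1, ‖g z‖ ≤ C := fun z hz =>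
    hC _ ⟨hz, by simpa using hw'.2⟩
  have hhC : ∀ z ∈ Metric.ball (0 : ℂ) 1, ‖h z‖ ≤ C := fun z hz =>
    hC _ ⟨by simpa using hw'.1, hz⟩
  have hgh : ∀ z ∈ Bidisk, g z.1 * h z.2 = c₀ * θ z := by
    intro z hz
    have := hR z hz w hw
    rw [hg, hh, ← this, hc₀]
    ring
  have hκ : 0 < ‖c₀‖ := norm_pos_iff.2 hθw
  -- the product has radial limits
  have hprod : ∀ᵐ t : ℝ × ℝ, ∃ c : ℂ, ‖c‖ = ‖c₀‖ ∧
      Tendsto (fun r : ℝ => g (r * e t.1) * h (r * e t.2)) (𝓝[<] 1) (𝓝 c) := by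
    filter_upwards [hθ.boundary] with t ht
    obtain ⟨c, hc, ht⟩ := ht
    refine ⟨c₀ * c, by rw [norm_mul, hc, mul_one], ?_⟩
    refine (ht.const_mul c₀).congr' ?_
    filter_upwards [hIoo] with r hr
    exact (hgh (r * e t.1, r * e t.2) ⟨hball hr t.1, hball hr t.2⟩).symm
  have hprod1 : ∀ᵐ t : ℝ, ∀ᵐ s : ℝ, ∃ c : ℂ, ‖c‖ = ‖c₀‖ ∧
      Tendsto (fun r : ℝ => g (r * e s) * h (r * e t)) (𝓝[<] 1) (𝓝 c) := by
    have h1 : ∀ᵐ t : ℝ × ℝ ∂((volume : Measure ℝ).prod volume), ∃ c : ℂ, ‖c‖ = ‖c₀‖ ∧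
      Tendsto (fun r : ℝ => g (r * e t.2) * h (r * e t.1)) (𝓝[<] 1) (𝓝 c) := by
      have h2 := (Measure.measurePreserving_swap (μ := (volume : Measure ℝ))
        (ν := (volume : Measure ℝ))).quasiMeasurePreserving.ae hprod
      exact h2
    exact Measure.ae_ae_of_ae_prod h1
  have hprod2 : ∀ᵐ s : ℝ, ∀ᵐ t : ℝ, ∃ c : ℂ, ‖c‖ = ‖c₀‖ ∧
      Tendsto (fun r : ℝ => h (r * e t) * g (r * e s)) (𝓝[<] 1) (𝓝 c) := by
    have h1 : ∀ᵐ s : ℝ, ∀ᵐ t : ℝ, ∃ c : ℂ, ‖c‖ = ‖c₀‖ ∧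
        Tendsto (fun r : ℝ => g (r * e s) * h (r * e t)) (𝓝[<] 1) (𝓝 c) :=
      Measure.ae_ae_of_ae_prod hprod
    filter_upwards [h1] with s hs
    filter_upwards [hs] with t ht
    obtain ⟨c, hc, ht⟩ := ht
    exact ⟨c, hc, ht.congr fun r => mul_comm _ _⟩
  obtain ⟨t₀, ht₀⟩ := hprod1.exists
  obtain ⟨s₀, hs₀⟩ := hprod2.exists
  obtain ⟨κg, hκg, hgb⟩ := boundary_factor hgd hgC hw'.1 (w := w.1) hθw
    (η := fun r => h (r * e t₀)) (C' := C) (fun r hr => hhC _ (hball hr t₀)) hκ ht₀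
  obtain ⟨κh, hκh, hhb⟩ := boundary_factor hhd hhC hw'.2 (w := w.2) hθw
    (η := fun r => g (r * e s₀)) (C' := C) (fun r hr => hgC _ (hball hr s₀)) hκ hs₀
  have hκκ : κg * κh = ‖c₀‖ := by
    obtain ⟨s, hs1, hs2⟩ := (hgb.and hprod2).exists
    obtain ⟨t, ht1, ht2⟩ := (hhb.and hs2).exists
    obtain ⟨a, ha, ha'⟩ := hs1
    obtain ⟨b, hb, hb'⟩ := ht1
    obtain ⟨c, hc, hc'⟩ := ht2
    have := tendsto_nhds_unique hc' (hb'.mul ha')
    rw [this, norm_mul, ha, hb] at hc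
    rw [← hc, mul_comm]
  have hκg' : (κg : ℂ) ≠ 0 := by exact_mod_cast hκg.ne'
  refine ⟨fun z => g z / κg, fun z => κg / c₀ * h z, ⟨?_, ⟨C / κg, ?_⟩, ?_⟩,
    ⟨?_, ⟨κg / ‖c₀‖ * C, ?_⟩, ?_⟩, ?_⟩
  · exact hgd.div_const _
  · intro z hz
    rw [norm_div, Complex.norm_real, Real.norm_of_nonneg hκg.le]
    exact div_le_div_of_nonneg_right (hgC z hz) hκg.le
  · filter_upwards [hgb] with s hs
    obtain ⟨c, hc, hs⟩ := hs
    refine ⟨c / κg, ?_, hs.div_const _⟩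
    rw [norm_div, Complex.norm_real, Real.norm_of_nonneg hκg.le, hc, div_self hκg.ne']
  · exact hhd.const_mul _
  · intro z hz
    rw [norm_mul, norm_div, Complex.norm_real, Real.norm_of_nonneg hκg.le]
    exact mul_le_mul_of_nonneg_left (hhC z hz) (by positivity)
  · filter_upwards [hhb] with t ht
    obtain ⟨c, hc, ht⟩ := ht
    refine ⟨κg / c₀ * c, ?_, ht.const_mul _⟩
    rw [norm_mul, norm_div, Complex.norm_real, Real.norm_of_nonneg hκg.le, hc, div_mul_eq_mul_div,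
      hκκ, div_self hκ.ne']
  · intro z hz
    have h1 := hgh z hz
    simp only
    field_simp
    rw [h1]
    ring

end Pool.Agent.AglerBidisk
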