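import Mathlib

/-!
# Definitions for the problem on reducing Agler subspaces (MP_f7d35b_an)

Points of `ℂ²` are pairs `z = (z.1, z.2)`.  The Hardy space `H²(𝔻²)` is the Hilbert space of
functions on the bidisk with reproducing kernel `1 / ((1 - z₁ w₁^*) (1 - z₂ w₂^*))`; reproducing
kernel Hilbert spaces are those of Mathlib (`RKHS`, `RKHS.OfKernel`).
-/

open Filter Topology ComplexConjugate
open scoped ComplexOrder

namespace Pool.Agent.AglerBidisk

/-- The open unit bidisk `𝔻²`. -/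
def Bidisk : Set (ℂ × ℂ) := Metric.ball (0 : ℂ) 1 ×ˢ Metric.ball (0 : ℂ) 1

/-- `θ` is an inner function on the bidisk: it is analytic and bounded on `𝔻²`, and at almost
every point `(e^{i t₁}, e^{i t₂})` of the torus `𝕋²` its radial limit exists and has
modulus one. -/
structure IsInner₂ (θ : ℂ × ℂ → ℂ) : Prop where
  differentiableOn : DifferentiableOn ℂ θ Bidisk
  bounded : ∃ C : ℝ, ∀ z ∈ Bidisk, ‖θ z‖ ≤ C
  boundary : ∀ᵐ t : ℝ × ℝ, ∃ c : ℂ, ‖c‖ = 1 ∧
    Tendsto (fun r : ℝ => θ (r * Complex.exp (t.1 * Complex.I), r * Complex.exp (t.2 * Complex.I)))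
      (𝓝[<] 1) (𝓝 c)

/-- `φ` is a one-variable inner function: it is analytic and bounded on the unit disk, and at
almost every point `e^{i t}` of the unit circle its radial limit exists and has modulus one. -/
structure IsInner₁ (φ : ℂ → ℂ) : Prop where
  differentiableOn : DifferentiableOn ℂ φ (Metric.ball 0 1)
  bounded : ∃ C : ℝ, ∀ z ∈ Metric.ball (0 : ℂ) 1, ‖φ z‖ ≤ C
  boundary : ∀ᵐ t : ℝ, ∃ c : ℂ, ‖c‖ = 1 ∧
    Tendsto (fun r : ℝ => φ (r * Complex.exp (t * Complex.I))) (𝓝[<] 1) (𝓝 c)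

/-- `θ(z) = φ(z₁) ψ(z₂)` on `𝔻²` for some one-variable inner functions `φ` and `ψ`. -/
def IsProductOfInner (θ : ℂ × ℂ → ℂ) : Prop :=
  ∃ φ ψ : ℂ → ℂ, IsInner₁ φ ∧ IsInner₁ ψ ∧ ∀ z ∈ Bidisk, θ z = φ z.1 * ψ z.2

/-- A scalar kernel on `X`, as a kernel with values in the operators on `ℂ`. -/
noncomputable def opKernel {X : Type} (k : X → X → ℂ) : Matrix X X (ℂ →L[ℂ] ℂ) :=
  Matrix.of fun z w => k z w • ContinuousLinearMap.id ℂ ℂ

/-- The function `f` belongs to `𝓗(k)`, the reproducing kernel Hilbert space of the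
positive kernel `k`. -/
def MemRKHS {X : Type} (k : X → X → ℂ) (f : X → ℂ) : Prop :=
  ∃ h : (opKernel k).PosSemidef,
    haveI : Fact (opKernel k).PosSemidef := ⟨h⟩
    ∃ g : RKHS.OfKernel (opKernel k), (g : X → ℂ) = f

/-- The Szegő kernel of the bidisk. -/
noncomputable def szegoKernel (z w : Bidisk) : ℂ :=
  1 / ((1 - z.1.1 * conj w.1.1) * (1 - z.1.2 * conj w.1.2))

/-- `(K₁, K₂)` is a pair of Agler kernels of `θ`: positive kernels on `𝔻² × 𝔻²` with
`1 - θ(z) θ(w)^* = (1 - z₁ w₁^*) K₂(z, w) + (1 - z₂ w₂^*) K₁(z, w)`. -/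
structure IsAglerPair (θ : ℂ × ℂ → ℂ) (K₁ K₂ : Bidisk → Bidisk → ℂ) : Prop where
  pos₁ : (Matrix.of K₁).PosSemidef
  pos₂ : (Matrix.of K₂).PosSemidef
  eq : ∀ z w : Bidisk, 1 - θ z * conj (θ w) =
    (1 - z.1.1 * conj w.1.1) * K₂ z w + (1 - z.1.2 * conj w.1.2) * K₁ z w

/-- The kernel `K₁(z, w) / (1 - z₁ w₁^*)`. -/
noncomputable def kern₁ (K₁ : Bidisk → Bidisk → ℂ) (z w : Bidisk) : ℂ :=
  K₁ z w / (1 - z.1.1 * conj w.1.1)

/-- The kernel `K₂(z, w) / (1 - z₂ w₂^*)`. -/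
noncomputable def kern₂ (K₂ : Bidisk → Bidisk → ℂ) (z w : Bidisk) : ℂ :=
  K₂ z w / (1 - z.1.2 * conj w.1.2)

/-- A set `A` of vectors of a Hilbert space is invariant under the operator `S` and its
adjoint. -/
def IsReducing {K : Type} [NormedAddCommGroup K] [InnerProductSpace ℂ K] [CompleteSpace K]
    (S : K →L[ℂ] K) (A : Set K) : Prop :=
  ∀ f ∈ A, S f ∈ A ∧ ContinuousLinearMap.adjoint S f ∈ A

/-- `H` is the Hardy space `H²(𝔻²)`: a reproducing kernel Hilbert space of functions on `𝔻²` whose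
kernel is the Szegő kernel. -/
def IsHardySpace (H : Type) [NormedAddCommGroup H] [InnerProductSpace ℂ H] [CompleteSpace H]
    [RKHS ℂ H Bidisk ℂ] : Prop :=
  RKHS.kernel H = opKernel szegoKernel

/-- The model space `K_θ = H²(𝔻²) ⊖ θ H²(𝔻²)`. -/
noncomputable def modelSpace (H : Type) [NormedAddCommGroup H] [InnerProductSpace ℂ H]
    [CompleteSpace H] [RKHS ℂ H Bidisk ℂ] (θ : ℂ × ℂ → ℂ) : Submodule ℂ H :=
  (Submodule.span ℂ {g : H | ∃ f : H, ∀ z : Bidisk, g z = θ z * f z})ᗮ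

instance (H : Type) [NormedAddCommGroup H] [InnerProductSpace ℂ H]
    [CompleteSpace H] [RKHS ℂ H Bidisk ℂ] (θ : ℂ × ℂ → ℂ) : CompleteSpace (modelSpace H θ) := by
  unfold modelSpace
  infer_instance

section

variable {H : Type} [NormedAddCommGroup H] [InnerProductSpace ℂ H] [CompleteSpace H]
  [RKHS ℂ H Bidisk ℂ]

/-- The compression `P_θ T |_{K_θ}` to the model space of an operator `T` on `H²(𝔻²)`; for
`T = T_{z_j}` this is the compressed shift `S_{z_j}`. -/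
noncomputable def compression (θ : ℂ × ℂ → ℂ) (T : H →L[ℂ] H) :
    modelSpace H θ →L[ℂ] modelSpace H θ :=
  (modelSpace H θ).orthogonalProjectionOnto ∘L T ∘L (modelSpace H θ).subtypeL

/-- The part of the model space `K_θ` that lies in `𝓗(k)`, for a positive kernel `k`. -/
def aglerSubspace (H : Type) [NormedAddCommGroup H] [InnerProductSpace ℂ H]
    [CompleteSpace H] [RKHS ℂ H Bidisk ℂ] (θ : ℂ × ℂ → ℂ) (k : Bidisk → Bidisk → ℂ) :
    Set (modelSpace H θ) :=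
  {f | MemRKHS k (f : H)}

/-- The compressed shift `S = P_θ T |_{K_θ}`, where `T` is `T_{z₁}` or `T_{z₂}`, has reducing
Agler subspaces: for some pair of Agler kernels of `θ`, both Agler subspaces
`𝓢₁ = 𝓗(K₁(z, w) / (1 - z₁ w₁^*))` and `𝓢₂ = 𝓗(K₂(z, w) / (1 - z₂ w₂^*))`, viewed inside `K_θ`,
are invariant under `S` and `S^*`. -/
def HasReducingAglerSubspaces (θ : ℂ × ℂ → ℂ) (T : H →L[ℂ] H) : Prop :=
  ∃ K₁ K₂ : Bidisk → Bidisk → ℂ, IsAglerPair θ K₁ K₂ ∧
    IsReducing (compression θ T) (aglerSubspace H θ (kern₁ K₁)) ∧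
    IsReducing (compression θ T) (aglerSubspace H θ (kern₂ K₂))

/-- The strongest reading: for some pair of Agler kernels of `θ`, the Agler subspaces are closed
subspaces `M₁`, `M₂` of `K_θ`, orthogonal complements of each other, and both are invariant
under `S = P_θ T |_{K_θ}` and `S^*`. -/
def HasOrthogonalReducingAglerSubspaces (θ : ℂ × ℂ → ℂ) (T : H →L[ℂ] H) : Prop :=
  ∃ K₁ K₂ : Bidisk → Bidisk → ℂ, IsAglerPair θ K₁ K₂ ∧
    ∃ M₁ M₂ : Submodule ℂ (modelSpace H θ), M₁ᗮ = M₂ ∧ M₂ᗮ = M₁ ∧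
      aglerSubspace H θ (kern₁ K₁) = M₁ ∧ aglerSubspace H θ (kern₂ K₂) = M₂ ∧
      IsReducing (compression θ T) (M₁ : Set (modelSpace H θ)) ∧
      IsReducing (compression θ T) (M₂ : Set (modelSpace H θ))

end

end Pool.Agent.AglerBidisk
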