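import Pool.Agent.helper33.AglerConverse

/-!
# Every copy of the Hardy space is isometric to the coefficient model
-/

open Filter Topology ComplexConjugate InnerProductSpace
open scoped ComplexOrder Real

namespace Pool.Agent.AglerBidisk

theorem sz_eq_szegoKernel (z w : Bidisk) : sz z w = szegoKernel z w := by
  rw [sz_eq, szegoKernel, one_div, mul_inv]

section Abstract

variable {E F : Type*} [NormedAddCommGroup E] [InnerProductSpace ℂ E] [CompleteSpace E]
  [NormedAddCommGroup F] [InnerProductSpace ℂ F] [CompleteSpace F]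

omit [CompleteSpace E] [CompleteSpace F] in
theorem norm_linearCombination_eq {X : Type*} {a : X → E} {b : X → F}
    (h : ∀ z w, ⟪a z, a w⟫_ℂ = ⟪b z, b w⟫_ℂ) (c : X →₀ ℂ) :
    ‖Finsupp.linearCombination ℂ a c‖ = ‖Finsupp.linearCombination ℂ b c‖ := by
  have h1 : ⟪Finsupp.linearCombination ℂ a c, Finsupp.linearCombination ℂ a c⟫_ℂ =
      ⟪Finsupp.linearCombination ℂ b c, Finsupp.linearCombination ℂ b c⟫_ℂ := by
    rw [inner_linearCombination, inner_linearCombination]
    refine Finsupp.sum_congr fun i _ => Finsupp.sum_congr fun j _ => ?_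
    rw [h]
  have h2 := congrArg RCLike.re h1
  rw [inner_self_eq_norm_sq, inner_self_eq_norm_sq] at h2
  exact (pow_left_inj₀ (norm_nonneg _) (norm_nonneg _) two_ne_zero).1 h2

/-- Two total families with the same Gram matrix correspond to each other under a unitary. -/
theorem exists_unitary {X : Type*} {a : X → E} {b : X → F}
    (h : ∀ z w, ⟪a z, a w⟫_ℂ = ⟪b z, b w⟫_ℂ) (ha : DenseRange (Finsupp.linearCombination ℂ a))
    (hb : DenseRange (Finsupp.linearCombination ℂ b)) :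
    ∃ U : E ≃ₗᵢ[ℂ] F, ∀ z, U (a z) = b z := by
  set V := (Finsupp.linearCombination ℂ b).extendOfNorm (Finsupp.linearCombination ℂ a) with hV
  set W := (Finsupp.linearCombination ℂ a).extendOfNorm (Finsupp.linearCombination ℂ b) with hW
  have h1 : ∀ c, ‖Finsupp.linearCombination ℂ b c‖ ≤ 1 * ‖Finsupp.linearCombination ℂ a c‖ :=
    fun c => by rw [one_mul, norm_linearCombination_eq h]
  have h2 : ∀ c, ‖Finsupp.linearCombination ℂ a c‖ ≤ 1 * ‖Finsupp.linearCombination ℂ b c‖ :=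
    fun c => by rw [one_mul, norm_linearCombination_eq h]
  have hVc : ∀ c, V (Finsupp.linearCombination ℂ a c) = Finsupp.linearCombination ℂ b c :=
    fun c => LinearMap.extendOfNorm_eq ha ⟨1, h1⟩ c
  have hWc : ∀ c, W (Finsupp.linearCombination ℂ b c) = Finsupp.linearCombination ℂ a c :=
    fun c => LinearMap.extendOfNorm_eq hb ⟨1, h2⟩ c
  have hWV : ∀ x, W (V x) = x := by
    intro x
    refine ha.induction_on (p := fun x => W (V x) = x) x ?_ ?_
    · exact isClosed_eq (W.continuous.comp V.continuous) continuous_id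
    · intro c
      rw [hVc, hWc]
  have hVW : ∀ x, V (W x) = x := by
    intro x
    refine hb.induction_on (p := fun x => V (W x) = x) x ?_ ?_
    · exact isClosed_eq (V.continuous.comp W.continuous) continuous_id
    · intro c
      rw [hWc, hVc]
  have hVn : ∀ x, ‖V x‖ = ‖x‖ := by
    intro x
    refine ha.induction_on (p := fun x => ‖V x‖ = ‖x‖) x ?_ ?_
    · exact isClosed_eq (continuous_norm.comp V.continuous) continuous_norm
    · intro c
      rw [hVc, norm_linearCombination_eq h]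
  refine ⟨⟨LinearEquiv.ofLinearMap V.toLinearMap W.toLinearMap (LinearMap.ext hVW)
    (LinearMap.ext hWV), hVn⟩, fun z => ?_⟩
  have := hVc (Finsupp.single z 1)
  simp only [Finsupp.linearCombination_single, one_smul] at this
  exact this

end Abstract

section Transport

variable {H : Type} [NormedAddCommGroup H] [InnerProductSpace ℂ H] [CompleteSpace H]
  [RKHS ℂ H Bidisk ℂ]

theorem exists_U (hH : IsHardySpace H) :
    ∃ U : H ≃ₗᵢ[ℂ] H2, ∀ (f : H) (z : Bidisk), ev (U f) z = f z := by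
  have hgram : ∀ z w : Bidisk, ⟪RKHS.kerFun H z 1, RKHS.kerFun H w 1⟫_ℂ = ⟪szego z, szego w⟫_ℂ := by
    intro z w
    rw [RKHS.kerFun_inner, RKHS.kerFun_apply, hH]
    change _ = sz z w
    rw [sz_eq_szegoKernel]
    simp [opKernel]
  have hdense : DenseRange (Finsupp.linearCombination ℂ (fun z : Bidisk => RKHS.kerFun H z 1)) := by
    have h1 : (LinearMap.range (Finsupp.linearCombination ℂ
        (fun z : Bidisk => RKHS.kerFun H z 1)))ᗮ = ⊥ := by
      rw [Submodule.eq_bot_iff]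
      intro f hf
      refine RKHS.ext fun z => ?_
      have h2 := (Submodule.mem_orthogonal _ _).1 hf (RKHS.kerFun H z 1)
        ⟨Finsupp.single z 1, by simp⟩
      rw [RKHS.kerFun_inner] at h2
      simpa using h2
    have h2 := (Submodule.topologicalClosure_eq_top_iff).2 h1
    exact Submodule.dense_iff_topologicalClosure_eq_top.2 h2
  obtain ⟨U, hU⟩ := exists_unitary hgram hdense denseRange_szego
  refine ⟨U, fun f z => ?_⟩
  rw [← inner_szego, ← hU, U.inner_map_map, RKHS.kerFun_inner]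
  simp

variable {U : H ≃ₗᵢ[ℂ] H2} (hU : ∀ (f : H) (z : Bidisk), ev (U f) z = f z)

include hU

theorem U_mem {θ : ℂ × ℂ → ℂ} (f : H) : U f ∈ mSpace θ ↔ f ∈ modelSpace H θ := by
  unfold modelSpace
  rw [mSpace, Submodule.mem_orthogonal, Submodule.mem_orthogonal]
  have key : ∀ g : H, g ∈ Submodule.span ℂ {g : H | ∃ f : H, ∀ z : Bidisk, g z = θ z * f z} ↔
      U g ∈ Submodule.span ℂ {g : H2 | ∃ f : H2, ∀ z ∈ Bidisk, ev g z = θ z * ev f z} := by
    have himg : (U : H → H2) '' {g : H | ∃ f : H, ∀ z : Bidisk, g z = θ z * f z} =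
        {g : H2 | ∃ f : H2, ∀ z ∈ Bidisk, ev g z = θ z * ev f z} := by
      ext g
      constructor
      · rintro ⟨g, ⟨f, hf⟩, rfl⟩
        refine ⟨U f, fun z hz => ?_⟩
        have h1 := hU g ⟨z, hz⟩
        have h2 := hU f ⟨z, hz⟩
        simp only at h1 h2
        rw [h1, h2, hf ⟨z, hz⟩]
      · rintro ⟨f, hf⟩
        refine ⟨U.symm g, ⟨U.symm f, fun z => ?_⟩, U.apply_symm_apply g⟩
        rw [← hU, ← hU, U.apply_symm_apply, U.apply_symm_apply]
        exact hf z z.2
    intro g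
    have h2 : Submodule.span ℂ {g : H2 | ∃ f : H2, ∀ z ∈ Bidisk, ev g z = θ z * ev f z} =
        (Submodule.span ℂ {g : H | ∃ f : H, ∀ z : Bidisk, g z = θ z * f z}).map
          U.toLinearEquiv.toLinearMap := by
      rw [Submodule.map_span, ← himg]
      rfl
    rw [h2]
    constructor
    · intro h
      exact ⟨g, h, rfl⟩
    · rintro ⟨g', h, h'⟩
      have : g' = g := U.injective h'
      exact this ▸ h
  constructor
  · intro h u hu
    have := h (U u) ((key u).1 hu)
    rwa [U.inner_map_map] at this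
  · intro h u hu
    have h1 := h (U.symm u) ((key _).2 (by rw [U.apply_symm_apply]; exact hu))
    rw [← U.inner_map_map, U.apply_symm_apply] at h1
    exact h1

theorem exists_W (θ : ℂ × ℂ → ℂ) :
    ∃ W : modelSpace H θ ≃ₗᵢ[ℂ] mSpace θ, ∀ f, (W f : H2) = U f := by
  refine ⟨⟨LinearEquiv.ofLinearMap
    ((U.toLinearEquiv.toLinearMap.comp (modelSpace H θ).subtype).codRestrict (mSpace θ)
      (fun f => (U_mem hU _).2 f.2))
    ((U.symm.toLinearEquiv.toLinearMap.comp (mSpace θ).subtype).codRestrict (modelSpace H θ)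
      (fun f => (U_mem hU _).1 (by
        have : U (U.symm (f : H2)) = f := U.apply_symm_apply _
        change U (U.symm (f : H2)) ∈ _
        rw [this]
        exact f.2))) ?_ ?_, ?_⟩, fun f => rfl⟩
  · ext1 f
    exact Subtype.ext (U.apply_symm_apply _)
  · ext1 f
    exact Subtype.ext (U.symm_apply_apply _)
  · intro f
    exact U.norm_map _

/-- Intertwining of the multiplication operators. -/
theorem U_comm₁ {T : H →L[ℂ] H} (hT : ∀ (f : H) (z : Bidisk), T f z = z.1.1 * f z) (f : H) :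
    U (T f) = T₁ (U f) := by
  refine sub_eq_zero.1 (ev_injective fun z => ?_)
  rw [ev_sub, hU, hT, ev_T₁, hU, sub_self]

theorem U_comm₂ {T : H →L[ℂ] H} (hT : ∀ (f : H) (z : Bidisk), T f z = z.1.2 * f z) (f : H) :
    U (T f) = T₂ (U f) := by
  refine sub_eq_zero.1 (ev_injective fun z => ?_)
  rw [ev_sub, hU, hT, ev_T₂, hU, sub_self]

omit hU in
theorem W_compression {θ : ℂ × ℂ → ℂ} {W : modelSpace H θ ≃ₗᵢ[ℂ] mSpace θ}
    (hW : ∀ f, (W f : H2) = U f) {T : H →L[ℂ] H} {T' : H2 →L[ℂ] H2}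
    (hT : ∀ f, U (T f) = T' (U f)) (f : modelSpace H θ) :
    W (compression θ T f) = compr θ T' (W f) := by
  refine ext_inner_left ℂ fun g => ?_
  obtain ⟨g, rfl⟩ := W.surjective g
  rw [W.inner_map_map]
  have h1 : ⟪g, compression θ T f⟫_ℂ = ⟪(g : H), T f⟫_ℂ := by
    have : compression θ T f = (modelSpace H θ).orthogonalProjectionOnto (T f) := rfl
    rw [this, Submodule.inner_orthogonalProjectionOnto_eq_of_mem_left]
  have h2 : ⟪W g, compr θ T' (W f)⟫_ℂ = ⟪(W g : H2), T' (W f : H2)⟫_ℂ := by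
    have : compr θ T' (W f) = (mSpace θ).orthogonalProjectionOnto (T' (W f : H2)) := rfl
    rw [this, Submodule.inner_orthogonalProjectionOnto_eq_of_mem_left]
  rw [h1, h2, hW, hW, ← hT, U.inner_map_map]

omit hU in
theorem W_adjoint_compression {θ : ℂ × ℂ → ℂ} {W : modelSpace H θ ≃ₗᵢ[ℂ] mSpace θ}
    (hW : ∀ f, (W f : H2) = U f) {T : H →L[ℂ] H} {T' : H2 →L[ℂ] H2}
    (hT : ∀ f, U (T f) = T' (U f)) (f : modelSpace H θ) :
    W (ContinuousLinearMap.adjoint (compression θ T) f) =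
      ContinuousLinearMap.adjoint (compr θ T') (W f) := by
  refine ext_inner_left ℂ fun g => ?_
  obtain ⟨g, rfl⟩ := W.surjective g
  rw [W.inner_map_map, ContinuousLinearMap.adjoint_inner_right,
    ContinuousLinearMap.adjoint_inner_right, ← W_compression hW hT, W.inner_map_map]

theorem W_agl₁ {θ : ℂ × ℂ → ℂ} {W : modelSpace H θ ≃ₗᵢ[ℂ] mSpace θ}
    (hW : ∀ f, (W f : H2) = U f) (K₁ : Bidisk → Bidisk → ℂ) (f : modelSpace H θ) :
    W f ∈ agl₁ θ K₁ ↔ f ∈ aglerSubspace H θ (kern₁ K₁) := by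
  have : (fun z : Bidisk => ev (W f) z) = ((f : H) : Bidisk → ℂ) := by
    funext z
    rw [hW, hU]
  change MemRKHS _ _ ↔ MemRKHS _ _
  rw [this]

theorem W_agl₂ {θ : ℂ × ℂ → ℂ} {W : modelSpace H θ ≃ₗᵢ[ℂ] mSpace θ}
    (hW : ∀ f, (W f : H2) = U f) (K₂ : Bidisk → Bidisk → ℂ) (f : modelSpace H θ) :
    W f ∈ agl₂ θ K₂ ↔ f ∈ aglerSubspace H θ (kern₂ K₂) := by
  have : (fun z : Bidisk => ev (W f) z) = ((f : H) : Bidisk → ℂ) := by
    funext z
    rw [hW, hU]
  change MemRKHS _ _ ↔ MemRKHS _ _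
  rw [this]

omit hU in
theorem isReducing_iff {θ : ℂ × ℂ → ℂ} {W : modelSpace H θ ≃ₗᵢ[ℂ] mSpace θ}
    (hW : ∀ f, (W f : H2) = U f) {T : H →L[ℂ] H} {T' : H2 →L[ℂ] H2}
    (hT : ∀ f, U (T f) = T' (U f)) {A : Set (modelSpace H θ)} {A' : Set (mSpace θ)}
    (hA : ∀ f, W f ∈ A' ↔ f ∈ A) :
    IsReducing (compression θ T) A ↔ IsReducing (compr θ T') A' := by
  constructor
  · intro h f hf
    obtain ⟨f, rfl⟩ := W.surjective f
    have h1 := h f ((hA f).1 hf)
    rw [← W_compression hW hT, ← W_adjoint_compression hW hT, hA, hA]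
    exact h1
  · intro h f hf
    have h1 := h (W f) ((hA f).2 hf)
    rw [← W_compression hW hT, ← W_adjoint_compression hW hT, hA, hA] at h1
    exact h1

theorem hasRed_of {θ : ℂ × ℂ → ℂ} {T : H →L[ℂ] H} {T' : H2 →L[ℂ] H2}
    (hT : ∀ f, U (T f) = T' (U f)) (h : HasReducingAglerSubspaces θ T) : HasRed θ T' := by
  obtain ⟨W, hW⟩ := exists_W hU θ
  obtain ⟨K₁, K₂, hK, h1, h2⟩ := h
  exact ⟨K₁, K₂, hK, (isReducing_iff hW hT (W_agl₁ hU hW K₁)).1 h1,
    (isReducing_iff hW hT (W_agl₂ hU hW K₂)).1 h2⟩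

omit hU [CompleteSpace H] [RKHS ℂ H Bidisk ℂ] in
theorem comap_orthogonal {E F : Type*} [NormedAddCommGroup E] [InnerProductSpace ℂ E]
    [NormedAddCommGroup F] [InnerProductSpace ℂ F] (W : E ≃ₗᵢ[ℂ] F) (M : Submodule ℂ F) :
    (M.comap W.toLinearEquiv.toLinearMap)ᗮ = Mᗮ.comap W.toLinearEquiv.toLinearMap := by
  ext x
  rw [Submodule.mem_orthogonal, Submodule.mem_comap, Submodule.mem_orthogonal]
  constructor
  · intro h u hu
    have h1 := h (W.symm u) (by
      rw [Submodule.mem_comap]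
      change W (W.symm u) ∈ M
      rw [W.apply_symm_apply]
      exact hu)
    rw [← W.inner_map_map, W.apply_symm_apply] at h1
    exact h1
  · intro h u hu
    have h1 := h (W u) hu
    change ⟪W u, W x⟫_ℂ = 0 at h1
    rwa [W.inner_map_map] at h1

theorem hasOrthRed_of {θ : ℂ × ℂ → ℂ} {T : H →L[ℂ] H} {T' : H2 →L[ℂ] H2}
    (hT : ∀ f, U (T f) = T' (U f)) (h : HasOrthRed θ T') :
    HasOrthogonalReducingAglerSubspaces θ T := by
  obtain ⟨W, hW⟩ := exists_W hU θ
  obtain ⟨K₁, K₂, hK, M₁, M₂, e12, e21, e1, e2, h1, h2⟩ := h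
  have hM₁ : ∀ f, W f ∈ (M₁ : Set (mSpace θ)) ↔
      f ∈ ((M₁.comap W.toLinearEquiv.toLinearMap : Submodule ℂ (modelSpace H θ)) :
        Set (modelSpace H θ)) := fun f => Iff.rfl
  have hM₂ : ∀ f, W f ∈ (M₂ : Set (mSpace θ)) ↔
      f ∈ ((M₂.comap W.toLinearEquiv.toLinearMap : Submodule ℂ (modelSpace H θ)) :
        Set (modelSpace H θ)) := fun f => Iff.rfl
  refine ⟨K₁, K₂, hK, M₁.comap W.toLinearEquiv.toLinearMap,
    M₂.comap W.toLinearEquiv.toLinearMap, ?_, ?_, ?_, ?_,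
    (isReducing_iff hW hT hM₁).2 h1, (isReducing_iff hW hT hM₂).2 h2⟩
  · rw [comap_orthogonal, e12]
  · rw [comap_orthogonal, e21]
  · ext f
    rw [← W_agl₁ hU hW, e1]
    rfl
  · ext f
    rw [← W_agl₂ hU hW, e2]
    rfl

end Transport

end Pool.Agent.AglerBidisk
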