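import Mathlib

/-!
# Planar grids: chains and piecewise affine functions
-/

namespace Pool.Agent.SierpinskiCarpet

section Mirsky

variable {α : Type*}

open Classical in
/-- Either there is a chain of length `M`, or a height function with values below `M`. -/
theorem mirsky (r : α → α → Prop) (htr : ∀ a b c, r a b → r b c → r a c) (M : ℕ) (G : Finset α) :
    (∃ l : List α, l.length = M ∧ l.Pairwise r ∧ ∀ a ∈ l, a ∈ G) ∨
    ∃ h : α → ℕ, (∀ a ∈ G, h a < M) ∧ ∀ a ∈ G, ∀ b ∈ G, r a b → h a < h b := by
  induction M generalizing G with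
  | zero => exact Or.inl ⟨[], rfl, List.Pairwise.nil, by simp⟩
  | succ M ih =>
    set G' := G.filter fun b => ∃ a ∈ G, r a b with hG'
    rcases ih G' with ⟨l, hl, hlr, hlG⟩ | ⟨h, hh, hhr⟩
    · cases l with
      | nil =>
        rcases G.eq_empty_or_nonempty with rfl | ⟨a, ha⟩
        · exact Or.inr ⟨fun _ => 0, by simp, by simp⟩
        · refine Or.inl ⟨[a], ?_, List.pairwise_singleton _ _, ?_⟩
          · simp only [List.length_nil] at hl
            simp [← hl]
          · intro b hb
            rw [List.mem_singleton.1 hb]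
            exact ha
      | cons b l =>
        have hb := hlG b List.mem_cons_self
        rw [hG', Finset.mem_filter] at hb
        obtain ⟨hbG, a, haG, hab⟩ := hb
        refine Or.inl ⟨a :: b :: l, by simp [← hl], List.pairwise_cons.2 ⟨?_, hlr⟩, ?_⟩
        · intro c hc
          rcases List.mem_cons.1 hc with rfl | hc
          · exact hab
          · exact htr _ _ _ hab ((List.pairwise_cons.1 hlr).1 c hc)
        · intro c hc
          rcases List.mem_cons.1 hc with rfl | hc
          · exact haG
          · exact (Finset.mem_filter.1 (hlG c hc)).1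
    · refine Or.inr ⟨fun a => if a ∈ G' then h a + 1 else 0, fun a _ => ?_, fun a ha b hb hab => ?_⟩
      · simp only
        split_ifs with h1
        · have := hh a h1
          omega
        · omega
      · have hb' : b ∈ G' := by
          rw [hG', Finset.mem_filter]
          exact ⟨hb, a, ha, hab⟩
        simp only [if_pos hb']
        split_ifs with h1
        · have := hhr a h1 b hb' hab
          omega
        · omega

end Mirsky

/-- North-east. -/
def NE (a b : ℤ × ℤ) : Prop := a.1 < b.1 ∧ a.2 < b.2

/-- South-east. -/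
def SE (a b : ℤ × ℤ) : Prop := a.1 < b.1 ∧ b.2 < a.2

open Classical in
theorem exists_partition_chains (M : ℕ) (G : Finset (ℤ × ℤ)) :
    ∃ G₁ G₂ : Finset (ℤ × ℤ), G₁ ∪ G₂ = G ∧
      (∀ l : List (ℤ × ℤ), l.Pairwise NE → (∀ a ∈ l, a ∈ G₂) → l.length ≠ M ∨ M = 0) ∧
      (∀ l : List (ℤ × ℤ), l.Pairwise SE → (∀ a ∈ l, a ∈ G₁) → l.length * M ≤ G.card) := by
  induction hn : G.card using Nat.strong_induction_on generalizing G with
  | _ n ih =>
    by_cases hM : M = 0
    · exact ⟨∅, G, by simp, fun _ _ _ => Or.inr hM, fun l _ _ => by simp [hM]⟩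
    by_cases hc : ∃ l : List (ℤ × ℤ), l.Pairwise NE ∧ (∀ a ∈ l, a ∈ G) ∧ l.length = M
    · obtain ⟨l, hl, hlG, hlM⟩ := hc
      have hnd : l.Nodup := hl.imp fun {a b} hab => by
        rintro rfl
        exact lt_irrefl _ hab.1
      set C := l.toFinset with hC
      have hCc : C.card = M := by rw [hC, List.toFinset_card_of_nodup hnd, hlM]
      have hCG : C ⊆ G := fun a ha => hlG a (List.mem_toFinset.1 ha)
      have hcard : (G \ C).card + M = G.card := by
        rw [← hCc, Finset.card_sdiff_add_card_eq_card hCG]
      obtain ⟨G₁, G₂, hU, h2, h1⟩ := ih (G \ C).card (by omega) (G \ C) rfl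
      refine ⟨G₁ ∪ C, G₂, ?_, h2, fun T hT hTG => ?_⟩
      · rw [Finset.union_right_comm, hU, Finset.sdiff_union_of_subset hCG]
      · have hcomp : ∀ a ∈ l, ∀ b ∈ l, a ≠ b → NE a b ∨ NE b a := by
          have hs : l.Pairwise fun a b => NE a b ∨ NE b a := hl.imp Or.inl
          intro a ha b hb hab
          have : Std.Symm (fun a b : ℤ × ℤ => NE a b ∨ NE b a) := ⟨fun _ _ hxy => Or.symm hxy⟩
          exact hs.forall ha hb hab
        have e1 : (T.filter (fun a => decide (a ∈ C))).length ≤ 1 := by
          have hsub : (T.filter (fun a => decide (a ∈ C))).Pairwise SE :=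
            hT.sublist List.filter_sublist
          have hmem : ∀ a ∈ T.filter (fun a => decide (a ∈ C)), a ∈ l := fun a ha => by
            have := (List.mem_filter.1 ha).2
            simp only [decide_eq_true_eq] at this
            exact List.mem_toFinset.1 this
          match hm : T.filter (fun a => decide (a ∈ C)) with
          | [] => simp
          | [a] => simp
          | a :: b :: t =>
            exfalso
            rw [hm] at hsub hmem
            have hab : SE a b := (List.pairwise_cons.1 hsub).1 b (by simp)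
            have hne : a ≠ b := by
              rintro rfl
              exact lt_irrefl _ hab.1
            rcases hcomp a (hmem a (by simp)) b (hmem b (by simp)) hne with h | h
            · exact lt_asymm h.2 hab.2
            · exact lt_asymm h.1 hab.1
        have e2 : (T.filter (fun a => !decide (a ∈ C))).length * M ≤ (G \ C).card := by
          refine h1 _ (hT.sublist List.filter_sublist) fun a ha => ?_
          have h3 := (List.mem_filter.1 ha)
          have h4 := hTG a h3.1
          rw [Finset.mem_union] at h4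
          rcases h4 with h4 | h4
          · exact h4
          · simp [h4] at h3
        have e3 := T.length_eq_length_filter_add (fun a => decide (a ∈ C))
        rw [e3, add_mul, ← hn]
        nlinarith
    · push Not at hc
      exact ⟨∅, G, by simp, fun l hl hlG => Or.inl (hc l hl hlG), fun l _ hlG => by
        have : l = [] := List.eq_nil_iff_forall_not_mem.2 fun a ha => by simpa using hlG a ha
        simp [this]⟩

theorem exists_heights (M : ℕ) (hM : 0 < M) (G : Finset (ℤ × ℤ)) :
    ∃ (G₁ G₂ : Finset (ℤ × ℤ)) (h₁ h₂ : ℤ × ℤ → ℕ), (∀ a ∈ G, a ∈ G₁ ∨ a ∈ G₂) ∧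
      (∀ a ∈ G₁, h₁ a < G.card / M + 1) ∧ (∀ a ∈ G₂, h₂ a < M) ∧
      (∀ a ∈ G₁, ∀ b ∈ G₁, SE a b → h₁ a < h₁ b) ∧ (∀ a ∈ G₂, ∀ b ∈ G₂, NE a b → h₂ a < h₂ b) := by
  obtain ⟨G₁, G₂, hU, hNE, hSE⟩ := exists_partition_chains M G
  rcases mirsky NE (fun a b c h h' => ⟨h.1.trans h'.1, h.2.trans h'.2⟩) M G₂ with
    ⟨l, hl, hlr, hlG⟩ | ⟨h₂, hh₂, hr₂⟩
  · rcases hNE l hlr hlG with h | h
    · exact absurd hl h
    · omega
  rcases mirsky SE (fun a b c h h' => ⟨h.1.trans h'.1, h'.2.trans h.2⟩) (G.card / M + 1) G₁ with
    ⟨l, hl, hlr, hlG⟩ | ⟨h₁, hh₁, hr₁⟩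
  · have := hSE l hlr hlG
    rw [hl] at this
    exfalso
    have h3 := Nat.div_add_mod G.card M
    have h4 := Nat.mod_lt G.card hM
    nlinarith
  refine ⟨G₁, G₂, h₁, h₂, fun a ha => ?_, hh₁, hh₂, hr₁, hr₂⟩
  rw [← hU] at ha
  exact Finset.mem_union.1 ha

section Pieces

variable {T : Type*}

/-- The function `f` crosses an integer level. -/
def CrossesFn (f : T → ℝ) : Prop := ∃ j : ℤ, (∃ t, f t ≤ j) ∧ ∃ t, (j : ℝ) ≤ f t

theorem not_crossesFn {f : T → ℝ} (h : ¬CrossesFn f) (j : ℤ) :
    (∀ t, (j : ℝ) < f t) ∨ ∀ t, f t < j := by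
  unfold CrossesFn at h
  push Not at h
  by_cases h1 : ∃ t, f t ≤ j
  · exact Or.inr (h j h1)
  · push Not at h1
    exact Or.inl h1

/-- The function `f` is an integer, or `x` plus an integer, or `y` plus an integer. -/
def Piece (x y f : T → ℝ) : Prop :=
  ∃ c : ℤ, (∀ t, f t = c) ∨ (∀ t, f t = x t + c) ∨ ∀ t, f t = y t + c

variable {x y : T → ℝ} (hx : ¬CrossesFn x) (hy : ¬CrossesFn y)
  (hxy : ¬CrossesFn fun t => x t - y t)

include hx hy hxy

theorem Piece.le_or_ge {f g : T → ℝ} (hf : Piece x y f) (hg : Piece x y g) :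
    (∀ t, f t ≤ g t) ∨ ∀ t, g t ≤ f t := by
  obtain ⟨c, hf⟩ := hf
  obtain ⟨d, hg⟩ := hg
  have cd : (c : ℝ) ≤ d ∨ (d : ℝ) ≤ c := le_total _ _
  rcases hf with hf | hf | hf <;> rcases hg with hg | hg | hg
  · rcases cd with h | h
    · exact Or.inl fun t => by rw [hf, hg]; exact h
    · exact Or.inr fun t => by rw [hf, hg]; exact h
  · rcases not_crossesFn hx (c - d) with h | h
    · refine Or.inl fun t => ?_
      have := h t
      push_cast at this
      rw [hf, hg]
      linarith
    · refine Or.inr fun t => ?_
      have := h t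
      push_cast at this
      rw [hf, hg]
      linarith
  · rcases not_crossesFn hy (c - d) with h | h
    · refine Or.inl fun t => ?_
      have := h t
      push_cast at this
      rw [hf, hg]
      linarith
    · refine Or.inr fun t => ?_
      have := h t
      push_cast at this
      rw [hf, hg]
      linarith
  · rcases not_crossesFn hx (d - c) with h | h
    · refine Or.inr fun t => ?_
      have := h t
      push_cast at this
      rw [hf, hg]
      linarith
    · refine Or.inl fun t => ?_
      have := h t
      push_cast at this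
      rw [hf, hg]
      linarith
  · rcases cd with h | h
    · exact Or.inl fun t => by rw [hf, hg]; linarith
    · exact Or.inr fun t => by rw [hf, hg]; linarith
  · rcases not_crossesFn hxy (d - c) with h | h
    · refine Or.inr fun t => ?_
      have := h t
      push_cast at this
      rw [hf, hg]
      linarith
    · refine Or.inl fun t => ?_
      have := h t
      push_cast at this
      rw [hf, hg]
      linarith
  · rcases not_crossesFn hy (d - c) with h | h
    · refine Or.inr fun t => ?_
      have := h t
      push_cast at this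
      rw [hf, hg]
      linarith
    · refine Or.inl fun t => ?_
      have := h t
      push_cast at this
      rw [hf, hg]
      linarith
  · rcases not_crossesFn hxy (c - d) with h | h
    · refine Or.inl fun t => ?_
      have := h t
      push_cast at this
      rw [hf, hg]
      linarith
    · refine Or.inr fun t => ?_
      have := h t
      push_cast at this
      rw [hf, hg]
      linarith
  · rcases cd with h | h
    · exact Or.inl fun t => by rw [hf, hg]; linarith
    · exact Or.inr fun t => by rw [hf, hg]; linarith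

theorem Piece.max {f g : T → ℝ} (hf : Piece x y f) (hg : Piece x y g) :
    Piece x y fun t => max (f t) (g t) := by
  rcases Piece.le_or_ge hx hy hxy hf hg with h | h
  · rw [show (fun t => Max.max (f t) (g t)) = g from funext fun t => max_eq_right (h t)]
    exact hg
  · rw [show (fun t => Max.max (f t) (g t)) = f from funext fun t => max_eq_left (h t)]
    exact hf

theorem Piece.min {f g : T → ℝ} (hf : Piece x y f) (hg : Piece x y g) :
    Piece x y fun t => min (f t) (g t) := by
  rcases Piece.le_or_ge hx hy hxy hf hg with h | h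
  · rw [show (fun t => Min.min (f t) (g t)) = f from funext fun t => min_eq_left (h t)]
    exact hf
  · rw [show (fun t => Min.min (f t) (g t)) = g from funext fun t => min_eq_right (h t)]
    exact hg

end Pieces

/-- The building blocks of the functions which are non-constant on the squares of the grid. -/
noncomputable def block (h : ℕ) (q : ℤ × ℤ) (a b : ℝ) : ℝ :=
  min (min (a - q.1) (b - q.2) + (3 * h + 1)) (3 * h + 3)

theorem abs_block_sub_le (h : ℕ) (q : ℤ × ℤ) (a b a' b' : ℝ) :
    |block h q a b - block h q a' b'| ≤ |a - a'| + |b - b'| := by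
  unfold block
  refine (abs_min_sub_min_le_max _ _ _ _).trans ?_
  rw [sub_self, abs_zero]
  have h1 := abs_nonneg (a - a')
  have h2 := abs_nonneg (b - b')
  refine max_le ?_ (by linarith)
  rw [add_sub_add_right_eq_sub]
  refine (abs_min_sub_min_le_max _ _ _ _).trans ?_
  rw [sub_sub_sub_cancel_right, sub_sub_sub_cancel_right]
  exact max_le (by linarith) (by linarith)

/-- A small function with integer pieces which is not constant near the squares of `G`. -/
theorem exists_stairs (G : Finset (ℤ × ℤ)) (h : ℤ × ℤ → ℕ) :
    ∃ φ : ℝ → ℝ → ℝ, (∀ a b, 0 ≤ φ a b) ∧ (∀ q ∈ G, ∀ a b, block (h q) q a b ≤ φ a b) ∧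
      (∀ a b, φ a b = 0 ∨ ∃ q ∈ G, φ a b = block (h q) q a b) ∧
      (∀ a b a' b', |φ a b - φ a' b'| ≤ |a - a'| + |b - b'|) ∧
      (∀ (T : Type) (x y : T → ℝ), ¬CrossesFn x → ¬CrossesFn y → ¬CrossesFn (fun t => x t - y t) →
        Piece x y fun t => φ (x t) (y t)) := by
  classical
  induction G using Finset.induction_on with
  | empty =>
    refine ⟨fun _ _ => 0, by simp, by simp, by simp, fun a b a' b' => ?_, fun T x y _ _ _ => ?_⟩
    · rw [sub_self, abs_zero]
      positivity
    · exact ⟨0, Or.inl fun t => by simp⟩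
  | insert q G hq ih =>
    obtain ⟨φ, h0, h1, h2, h3, h4⟩ := ih
    refine ⟨fun a b => max (φ a b) (block (h q) q a b), fun a b => ?_, ?_, ?_, ?_, ?_⟩
    · exact (h0 a b).trans (le_max_left _ _)
    · intro q' hq' a b
      rcases Finset.mem_insert.1 hq' with rfl | hq'
      · exact le_max_right _ _
      · exact (h1 q' hq' a b).trans (le_max_left _ _)
    · intro a b
      rcases le_total (φ a b) (block (h q) q a b) with hle | hle
      · refine Or.inr ⟨q, Finset.mem_insert_self q G, max_eq_right hle⟩
      · simp only
        rw [max_eq_left hle]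
        rcases h2 a b with h5 | ⟨q', hq', h5⟩
        · exact Or.inl h5
        · exact Or.inr ⟨q', Finset.mem_insert_of_mem hq', h5⟩
    · intro a b a' b'
      refine (abs_max_sub_max_le_max _ _ _ _).trans ?_
      exact max_le (h3 a b a' b') (abs_block_sub_le _ _ _ _ _ _)
    · intro T x y hx hy hxy
      refine Piece.max hx hy hxy (h4 T x y hx hy hxy) ?_
      refine Piece.min hx hy hxy ?_ ⟨3 * (h q) + 3, Or.inl fun t => by push_cast; ring⟩
      have e : (fun t => min (x t - q.1) (y t - q.2) + (3 * (h q : ℝ) + 1)) =
          fun t => min (x t - q.1 + (3 * (h q : ℝ) + 1)) (y t - q.2 + (3 * (h q : ℝ) + 1)) := by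
        funext t
        rw [min_add_add_right]
      rw [e]
      refine Piece.min hx hy hxy ⟨3 * (h q) + 1 - q.1, Or.inr (Or.inl fun t => ?_)⟩
        ⟨3 * (h q) + 1 - q.2, Or.inr (Or.inr fun t => ?_)⟩
      · push_cast
        ring
      · push_cast
        ring

/-- The function of the previous theorem is not constant on the squares of `G`. -/
theorem exists_stairs' (G : Finset (ℤ × ℤ)) (h : ℤ × ℤ → ℕ) (M : ℕ) (hM : ∀ q ∈ G, h q < M)
    (hr : ∀ a ∈ G, ∀ b ∈ G, NE a b → h a < h b) :
    ∃ φ : ℝ → ℝ → ℝ, (∀ a b, 0 ≤ φ a b) ∧ (∀ a b, φ a b ≤ 3 * M) ∧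
      (∀ a b a' b', |φ a b - φ a' b'| ≤ |a - a'| + |b - b'|) ∧
      (∀ (T : Type) (x y : T → ℝ), ¬CrossesFn x → ¬CrossesFn y → ¬CrossesFn (fun t => x t - y t) →
        (∃ c : ℤ, (∀ t, φ (x t) (y t) = c) ∨ (∀ t, φ (x t) (y t) = x t + c) ∨
          ∀ t, φ (x t) (y t) = y t + c) ∧
        ((∃ t, (⌊x t⌋, ⌊y t⌋) ∈ G) →
          ∃ c : ℤ, (∀ t, φ (x t) (y t) = x t + c) ∨ ∀ t, φ (x t) (y t) = y t + c)) := by
  obtain ⟨φ, h0, h1, h2, h3, h4⟩ := exists_stairs G h
  refine ⟨φ, h0, fun a b => ?_, h3, fun T x y hx hy hxy => ?_⟩
  · rcases h2 a b with h5 | ⟨q, hq, h5⟩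
    · rw [h5]
      positivity
    · rw [h5]
      have h6 : (h q : ℝ) + 1 ≤ M := by exact_mod_cast hM q hq
      refine (min_le_right _ _).trans ?_
      linarith
  · have hP := h4 T x y hx hy hxy
    refine ⟨hP, ?_⟩
    rintro ⟨t, ht⟩
    obtain ⟨c, hc | hc | hc⟩ := hP
    · exfalso
      set q : ℤ × ℤ := (⌊x t⌋, ⌊y t⌋) with hq
      have b1 := Int.floor_le (x t)
      have b2 := Int.lt_floor_add_one (x t)
      have b3 := Int.floor_le (y t)
      have b4 := Int.lt_floor_add_one (y t)
      have hge : 3 * (h q : ℝ) + 1 ≤ φ (x t) (y t) := by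
        refine le_trans ?_ (h1 q ht _ _)
        unfold block
        refine le_min ?_ (by linarith)
        have : 0 ≤ min (x t - q.1) (y t - q.2) := le_min (by simp only [hq]; linarith)
          (by simp only [hq]; linarith)
        linarith
      have nx : ∀ k : ℤ, x t ≠ k := fun k hk => by
        rcases not_crossesFn hx k with h5 | h5
        · exact (h5 t).ne' hk
        · exact (h5 t).ne hk
      have ny : ∀ k : ℤ, y t ≠ k := fun k hk => by
        rcases not_crossesFn hy k with h5 | h5
        · exact (h5 t).ne' hk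
        · exact (h5 t).ne hk
      rcases h2 (x t) (y t) with h5 | ⟨q', hq', h5⟩
      · rw [h5] at hge
        have : (0 : ℝ) ≤ h q := by positivity
        linarith
      · have hct : φ (x t) (y t) = c := hc t
        unfold block at h5
        have hcap : φ (x t) (y t) = 3 * (h q' : ℝ) + 3 ∧
            3 * (h q' : ℝ) + 3 ≤ min (x t - q'.1) (y t - q'.2) + (3 * (h q' : ℝ) + 1) := by
          rcases le_total (min (x t - q'.1) (y t - q'.2) + (3 * (h q' : ℝ) + 1))
            (3 * (h q' : ℝ) + 3) with h6 | h6
          · exfalso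
            rw [min_eq_left h6] at h5
            rcases le_total (x t - q'.1) (y t - q'.2) with h7 | h7
            · rw [min_eq_left h7, hct] at h5
              apply nx (c + q'.1 - (3 * h q' + 1))
              push_cast
              linarith
            · rw [min_eq_right h7, hct] at h5
              apply ny (c + q'.2 - (3 * h q' + 1))
              push_cast
              linarith
          · exact ⟨by rw [h5, min_eq_right h6], h6⟩
        have h6 := min_le_left (x t - q'.1) (y t - q'.2)
        have h7 := min_le_right (x t - q'.1) (y t - q'.2)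
        have h8 : NE q' q := by
          constructor
          · have : (q'.1 : ℝ) < q.1 := by
              simp only [hq]
              linarith [hcap.2]
            exact_mod_cast this
          · have : (q'.2 : ℝ) < q.2 := by
              simp only [hq]
              linarith [hcap.2]
            exact_mod_cast this
        have h9 : h q' + 1 ≤ h q := hr q' hq' q ht h8
        have h10 : (h q' : ℝ) + 1 ≤ h q := by exact_mod_cast h9
        have := hcap.1
        linarith
    · exact ⟨c, Or.inl hc⟩
    · exact ⟨c, Or.inr hc⟩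

end Pool.Agent.SierpinskiCarpet
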