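import Pool.Agent.helper33.SCEnergy

/-!
# Compactness: limits of functions of bounded energy
-/

open MeasureTheory Filter Topology
open scoped ENNReal

namespace Pool.Agent.SierpinskiCarpet

variable {K : Set (ℝ × ℝ)} {hK : IsCarpet K} {m : Measure K} {p ρ : ℝ} {F : Set (K → ℝ)}
  {E : (K → ℝ) → ℝ}

/-- The `L^p` norm. -/
noncomputable def lpn (m : Measure K) (p : ℝ) (u : K → ℝ) : ℝ := (∫ x, |u x| ^ p ∂m) ^ (1 / p)

theorem lpn_eq (hp : 1 < p) {u : K → ℝ} (hu : AEStronglyMeasurable u m) :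
    lpn m p u = lpNorm u (ENNReal.ofReal p) m := by
  have hp0 : 0 < p := by linarith
  rw [lpNorm_eq_integral_norm_rpow_toReal _ ENNReal.ofReal_ne_top hu,
    ENNReal.toReal_ofReal hp0.le, lpn, one_div]
  · rfl
  · simpa using hp0

theorem lpn_add_le (hp : 1 < p) {u v : K → ℝ} (hu : MemLp u (ENNReal.ofReal p) m)
    (hv : MemLp v (ENNReal.ofReal p) m) : lpn m p (u + v) ≤ lpn m p u + lpn m p v := by
  rw [lpn_eq hp (hu.add hv).aestronglyMeasurable, lpn_eq hp hu.aestronglyMeasurable,
    lpn_eq hp hv.aestronglyMeasurable]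
  refine lpNorm_add_le hu ?_
  rw [ENNReal.one_le_ofReal]
  exact hp.le

theorem lpn_nonneg (u : K → ℝ) : 0 ≤ lpn m p u := by
  unfold lpn
  exact Real.rpow_nonneg (integral_nonneg fun x => by positivity) _

theorem lpn_rpow (hp : 1 < p) (u : K → ℝ) : lpn m p u ^ p = ∫ x, |u x| ^ p ∂m := by
  have hp0 : 0 < p := by linarith
  rw [lpn, ← Real.rpow_mul (integral_nonneg fun x => by positivity), one_div_mul_cancel hp0.ne',
    Real.rpow_one]

namespace IsSelfSimilarEnergy

variable (h : IsSelfSimilarEnergy hK m p ρ F E)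

include h

theorem energyNorm_eq (hp : 1 < p) {u : K → ℝ} (hu : u ∈ F) :
    energyNorm m p E u = (lpn m p u ^ p + (E u ^ (1 / p)) ^ p) ^ (1 / p) := by
  have hp0 : 0 < p := by linarith
  rw [energyNorm, lpn_rpow hp, ← Real.rpow_mul (h.nonneg u hu), one_div_mul_cancel hp0.ne',
    Real.rpow_one]

theorem energyNorm_nonneg {u : K → ℝ} (hu : u ∈ F) : 0 ≤ energyNorm m p E u := by
  unfold energyNorm
  exact Real.rpow_nonneg (add_nonneg (integral_nonneg fun x => by positivity) (h.nonneg u hu)) _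

theorem energyNorm_rpow (hp : 1 < p) {u : K → ℝ} (hu : u ∈ F) :
    energyNorm m p E u ^ p = ∫ x, |u x| ^ p ∂m + E u := by
  have hp0 : 0 < p := by linarith
  rw [energyNorm, ← Real.rpow_mul (add_nonneg (integral_nonneg fun x => by positivity)
    (h.nonneg u hu)), one_div_mul_cancel hp0.ne', Real.rpow_one]

theorem energyNorm_add_le (hp : 1 < p) {u v : K → ℝ} (hu : u ∈ F) (hv : v ∈ F) :
    energyNorm m p E (u + v) ≤ energyNorm m p E u + energyNorm m p E v := by
  have hp0 : 0 < p := by linarith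
  rw [h.energyNorm_eq hp hu, h.energyNorm_eq hp hv, h.energyNorm_eq hp (h.add_mem u hu v hv)]
  have e1 := lpn_add_le hp (h.memLp u hu) (h.memLp v hv)
  have e2 := h.subadd u hu v hv
  have n1 := lpn_nonneg (m := m) (p := p) u
  have n2 := lpn_nonneg (m := m) (p := p) v
  have n3 := lpn_nonneg (m := m) (p := p) (u + v)
  have n4 : 0 ≤ E u ^ (1 / p) := Real.rpow_nonneg (h.nonneg u hu) _
  have n5 : 0 ≤ E v ^ (1 / p) := Real.rpow_nonneg (h.nonneg v hv) _
  have n6 : 0 ≤ E (u + v) ^ (1 / p) := Real.rpow_nonneg (h.nonneg _ (h.add_mem u hu v hv)) _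
  have key := Real.Lp_add_le_of_nonneg (s := (Finset.univ : Finset (Fin 2)))
    (f := ![lpn m p u, E u ^ (1 / p)]) (g := ![lpn m p v, E v ^ (1 / p)]) hp.le
    (by intro i _; fin_cases i; exacts [n1, n4]) (by intro i _; fin_cases i; exacts [n2, n5])
  simp only [Fin.sum_univ_two, Matrix.cons_val_zero, Matrix.cons_val_one] at key
  refine le_trans ?_ key
  refine Real.rpow_le_rpow (by positivity) ?_ (by positivity)
  gcongr

theorem energyNorm_smul (hp : 1 < p) {u : K → ℝ} (hu : u ∈ F) (c : ℝ) :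
    energyNorm m p E (c • u) = |c| * energyNorm m p E u := by
  have hp0 : 0 < p := by linarith
  have e1 : ∫ x, |(c • u) x| ^ p ∂m = |c| ^ p * ∫ x, |u x| ^ p ∂m := by
    rw [← integral_const_mul]
    refine integral_congr_ae (Eventually.of_forall fun x => ?_)
    simp only [Pi.smul_apply, smul_eq_mul, abs_mul]
    rw [Real.mul_rpow (abs_nonneg _) (abs_nonneg _)]
  have hnn : 0 ≤ ∫ x, |u x| ^ p ∂m + E u :=
    add_nonneg (integral_nonneg fun x => by positivity) (h.nonneg u hu)
  rw [energyNorm, energyNorm, e1, h.smul u hu c, ← mul_add,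
    Real.mul_rpow (by positivity) hnn, ← Real.rpow_mul (abs_nonneg _), mul_one_div_cancel hp0.ne',
    Real.rpow_one]

theorem energyNorm_congr {u v : K → ℝ} (hu : u ∈ F) (huv : v =ᵐ[m] u) :
    energyNorm m p E v = energyNorm m p E u := by
  rw [energyNorm, energyNorm, (h.congr u hu v huv).2]
  congr 2
  refine integral_congr_ae ?_
  filter_upwards [huv] with x hx
  rw [hx]

/-- Forward convex combinations of a bounded sequence which converge in the energy norm. -/
theorem exists_mazur (hp : 1 < p) {u : ℕ → K → ℝ} (hu : ∀ n, u n ∈ F) {L : ℝ}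
    (hL : ∀ n, energyNorm m p E (u n) ≤ L) :
    ∃ y : ℕ → K → ℝ, (∀ n, y n ∈ F ∧ y n ∈ convexHull ℝ (u '' Set.Ici n)) ∧
      ∃ v ∈ F, Tendsto (fun n => energyNorm m p E (y n - v)) atTop (𝓝 0) := by
  let V : Submodule ℝ (K → ℝ) :=
    { carrier := F
      add_mem' := fun {a b} ha hb => h.add_mem a ha b hb
      zero_mem' := h.zero_mem
      smul_mem' := fun c x hx => h.smul_mem c x hx }
  let instN : Norm V := ⟨fun x => energyNorm m p E (x : K → ℝ)⟩
  have core : SeminormedSpace.Core ℝ V :=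
    { norm_nonneg := fun x => h.energyNorm_nonneg x.2
      norm_smul := fun c x => h.energyNorm_smul hp x.2 c
      norm_triangle := fun x y => h.energyNorm_add_le hp x.2 y.2 }
  let inst : SeminormedAddCommGroup V := SeminormedAddCommGroup.ofCore core
  have hnorm : ∀ x : V, ‖x‖ = energyNorm m p E (x : K → ℝ) := fun x => rfl
  let instS : NormedSpace ℝ V := ⟨fun c x => by
    rw [hnorm, hnorm, Real.norm_eq_abs]
    exact (h.energyNorm_smul hp x.2 c).le⟩
  have instU : UniformConvexSpace V := ⟨fun ε hε => by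
    obtain ⟨δ, hδ, H⟩ := h.uniformConvex ε hε
    exact ⟨δ, hδ, fun x hx y hy hxy => H x x.2 y y.2 hx hy hxy⟩⟩
  obtain ⟨y, hy, hyc⟩ := exists_cauchy_convex (E := V) (fun n => ⟨u n, hu n⟩) (R := L) hL
  refine ⟨fun n => (y n : K → ℝ), fun n => ⟨(y n).2, ?_⟩, ?_⟩
  · have e1 : (y n : K → ℝ) ∈ V.subtype '' convexHull ℝ ((fun n => (⟨u n, hu n⟩ : V)) '' Set.Ici n) :=
      ⟨y n, hy n, rfl⟩
    rw [LinearMap.image_convexHull, ← Set.image_comp] at e1
    exact e1
  · refine h.complete _ (fun n => (y n).2) fun ε hε => ?_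
    obtain ⟨N, hN⟩ := Metric.cauchySeq_iff.1 hyc ε hε
    refine ⟨N, fun k hk l hl => ?_⟩
    have := hN k hk l hl
    rw [dist_eq_norm, hnorm] at this
    exact this

end IsSelfSimilarEnergy

theorem convexHull_subset_ball (S : Set (K → ℝ)) (v : K → ℝ) (ε : ℝ)
    (hS : ∀ u ∈ S, ∀ x, |u x - v x| ≤ ε) : ∀ u ∈ convexHull ℝ S, ∀ x, |u x - v x| ≤ ε := by
  intro u hu
  have hconv : Convex ℝ {u : K → ℝ | ∀ x, |u x - v x| ≤ ε} := by
    intro a ha b hb s t hs ht hst x
    have h1 := ha x
    have h2 := hb x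
    have e : (s • a + t • b) x - v x = s * (a x - v x) + t * (b x - v x) := by
      have ht1 : t = 1 - s := by linarith
      simp only [Pi.add_apply, Pi.smul_apply, smul_eq_mul]
      rw [ht1]
      ring
    rw [e]
    calc |s * (a x - v x) + t * (b x - v x)| ≤ |s * (a x - v x)| + |t * (b x - v x)| :=
          abs_add_le _ _
      _ = s * |a x - v x| + t * |b x - v x| := by
          rw [abs_mul, abs_mul, abs_of_nonneg hs, abs_of_nonneg ht]
      _ ≤ s * ε + t * ε := by gcongr
      _ = ε := by rw [← add_mul, hst, one_mul]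
  exact convexHull_min hS hconv hu

theorem convexHull_continuous (S : Set (K → ℝ)) (hS : ∀ u ∈ S, Continuous u) :
    ∀ u ∈ convexHull ℝ S, Continuous u := by
  intro u hu
  have hconv : Convex ℝ {u : K → ℝ | Continuous u} := by
    intro a ha b hb s t _ _ _
    exact (ha.const_smul s).add (hb.const_smul t)
  exact convexHull_min hS hconv hu

namespace IsSelfSimilarEnergy

variable (h : IsSelfSimilarEnergy hK m p ρ F E)

include h

theorem lpn_le_energyNorm (hp : 1 < p) {u : K → ℝ} (hu : u ∈ F) :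
    lpn m p u ≤ energyNorm m p E u := by
  unfold lpn energyNorm
  refine Real.rpow_le_rpow (integral_nonneg fun x => by positivity) ?_ (by positivity)
  have := h.nonneg u hu
  linarith

theorem energy_le_energyNorm (hp : 1 < p) {u : K → ℝ} (hu : u ∈ F) :
    E u ≤ energyNorm m p E u ^ p := by
  rw [h.energyNorm_rpow hp hu]
  have : 0 ≤ ∫ x, |u x| ^ p ∂m := integral_nonneg fun x => by positivity
  linarith

theorem closed_uniform (hp : 1 < p) (hm : IsSelfSimilarMeasure hK m) {u : ℕ → K → ℝ}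
    (hu : ∀ n, u n ∈ F) (huc : ∀ n, Continuous (u n)) {L : ℝ} (hL : ∀ n, E (u n) ≤ L) {v : K → ℝ}
    (hv : ∀ ε > 0, ∃ N, ∀ n ≥ N, ∀ x, |u n x - v x| ≤ ε) :
    v ∈ F ∧ Continuous v ∧ ∃ y : ℕ → K → ℝ,
      (∀ n, y n ∈ F ∧ Continuous (y n) ∧ y n ∈ convexHull ℝ (u '' Set.Ici n)) ∧
      Tendsto (fun n => E (y n - v)) atTop (𝓝 0) := by
  have hprob := hm.1
  have := hK.instCompact
  have := hK.instNonempty
  have hp0 : 0 < p := by linarith
  have hvc : Continuous v := by
    have hunif : TendstoUniformly u v atTop := by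
      rw [Metric.tendstoUniformly_iff]
      intro ε hε
      obtain ⟨N, hN⟩ := hv (ε / 2) (by positivity)
      filter_upwards [eventually_ge_atTop N] with n hn x
      rw [dist_comm, Real.dist_eq]
      exact (hN n hn x).trans_lt (by linarith)
    exact hunif.continuous (Frequently.of_forall huc)
  obtain ⟨x₀, -, hx₀⟩ := isCompact_univ.exists_isMaxOn Set.univ_nonempty
    (continuous_abs.comp hvc).continuousOn
  set B : ℝ := |v x₀| with hB
  have hvB : ∀ x, |v x| ≤ B := fun x => hx₀ (Set.mem_univ x)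
  obtain ⟨N, hN⟩ := hv 1 one_pos
  set u' : ℕ → K → ℝ := fun n => u (n + N) with hu'
  have hu'B : ∀ n x, |u' n x| ≤ B + 1 := fun n x => by
    have h1 := hN (n + N) (Nat.le_add_left N n) x
    have h2 := hvB x
    have h3 : u' n x = (u (n + N) x - v x) + v x := by simp [hu']
    rw [h3]
    refine (abs_add_le _ _).trans ?_
    linarith
  have hL0 : 0 ≤ L := (h.nonneg _ (hu 0)).trans (hL 0)
  have hB0 : 0 ≤ B := abs_nonneg _
  have hbound : ∀ n, energyNorm m p E (u' n) ≤ ((B + 1) ^ p + L) ^ (1 / p) := by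
    intro n
    unfold energyNorm
    refine Real.rpow_le_rpow (add_nonneg (integral_nonneg fun x => by positivity)
      (h.nonneg _ (hu _))) ?_ (by positivity)
    refine add_le_add ?_ (hL _)
    have e1 : ∫ x, |u' n x| ^ p ∂m ≤ ∫ _, (B + 1) ^ p ∂m := by
      refine integral_mono (integrable_cont hK ?_) (integrable_const _) fun x => ?_
      · exact (Real.continuous_rpow_const hp0.le).comp (huc _).abs
      · exact Real.rpow_le_rpow (abs_nonneg _) (hu'B n x) hp0.le
    refine e1.trans ?_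
    simp
  obtain ⟨y, hy, w, hw, hlim⟩ := h.exists_mazur hp (u := u') (fun n => hu _) hbound
  have hyconv : ∀ n, y n ∈ convexHull ℝ (u '' Set.Ici n) := fun n => by
    refine convexHull_mono ?_ (hy n).2
    rintro _ ⟨k, hk, rfl⟩
    exact ⟨k + N, le_trans hk (Nat.le_add_right k N), rfl⟩
  have hyc : ∀ n, Continuous (y n) := fun n =>
    convexHull_continuous _ (by rintro _ ⟨k, -, rfl⟩; exact huc k) _ (hyconv n)
  have hyv : ∀ ε > 0, ∃ M, ∀ n ≥ M, ∀ x, |y n x - v x| ≤ ε := by
    intro ε hε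
    obtain ⟨M, hM⟩ := hv ε hε
    refine ⟨M, fun n hn => convexHull_subset_ball _ v ε ?_ _ (hyconv n)⟩
    rintro _ ⟨k, hk, rfl⟩
    exact hM k (hn.trans hk)
  have hvmem : MemLp v (ENNReal.ofReal p) m := by
    have : MemLp v ⊤ m := memLp_top_of_bound hvc.aestronglyMeasurable B
      (Eventually.of_forall fun x => hvB x)
    exact this.mono_exponent le_top
  have hlpyv : ∀ ε > 0, ∃ M, ∀ n ≥ M, lpn m p (y n - v) ≤ ε := by
    intro ε hε
    obtain ⟨M, hM⟩ := hyv ε hε
    refine ⟨M, fun n hn => ?_⟩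
    have e1 : ∫ x, |(y n - v) x| ^ p ∂m ≤ ∫ _, ε ^ p ∂m := by
      refine integral_mono (integrable_cont hK ?_) (integrable_const _) fun x => ?_
      · exact (Real.continuous_rpow_const hp0.le).comp ((hyc n).sub hvc).abs
      · exact Real.rpow_le_rpow (abs_nonneg _) (hM n hn x) hp0.le
    have e1' : ∫ _ : K, ε ^ p ∂m = ε ^ p := by simp
    rw [e1'] at e1
    calc lpn m p (y n - v) ≤ (ε ^ p) ^ (1 / p) := by
          exact Real.rpow_le_rpow (integral_nonneg fun x => by positivity) e1 (by positivity)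
      _ = ε := by rw [← Real.rpow_mul hε.le, mul_one_div_cancel hp0.ne', Real.rpow_one]
  have hwv : lpn m p (w - v) = 0 := by
    refine le_antisymm (le_of_forall_pos_le_add fun ε hε => ?_) (lpn_nonneg _)
    obtain ⟨M, hM⟩ := hlpyv (ε / 2) (by positivity)
    obtain ⟨M', hM'⟩ := eventually_atTop.1 (hlim.eventually (gt_mem_nhds (half_pos hε)))
    have h1 := hM (max M M') (le_max_left _ _)
    have h2 := (hM' (max M M') (le_max_right _ _)).le
    set n := max M M'
    have h3 := h.lpn_le_energyNorm hp (h.sub_mem (hy n).1 hw)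
    have e1 : w - v = (w - y n) + (y n - v) := by abel
    have e2 : lpn m p (w - y n) = lpn m p (y n - w) := by
      unfold lpn
      congr 2
      funext x
      simp only [Pi.sub_apply]
      rw [abs_sub_comm]
    rw [e1]
    refine (lpn_add_le hp ((h.memLp w hw).sub (h.memLp _ (hy n).1))
      ((h.memLp _ (hy n).1).sub hvmem)).trans ?_
    rw [e2]
    linarith
  have hae : v =ᵐ[m] w := by
    have hint : Integrable (fun x => |(w - v) x| ^ p) m := by
      have := ((h.memLp w hw).sub hvmem).integrable_norm_rpow (by simpa using hp0)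
        ENNReal.ofReal_ne_top
      rw [ENNReal.toReal_ofReal hp0.le] at this
      exact this
    have h0 : ∫ x, |(w - v) x| ^ p ∂m = 0 := by
      rw [← lpn_rpow hp, hwv, Real.zero_rpow hp0.ne']
    rw [integral_eq_zero_iff_of_nonneg (fun x => by positivity) hint] at h0
    filter_upwards [h0] with x hx
    have : |(w - v) x| = 0 := by
      by_contra hne
      have : 0 < |(w - v) x| ^ p := Real.rpow_pos_of_pos (lt_of_le_of_ne (abs_nonneg _)
        (Ne.symm hne)) _
      simp only [Pi.zero_apply] at hx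
      linarith
    have := abs_eq_zero.1 this
    simp only [Pi.sub_apply] at this
    linarith
  have hvF := (h.congr w hw v hae).1
  refine ⟨hvF, hvc, y, fun n => ⟨(hy n).1, hyc n, hyconv n⟩, ?_⟩
  have e3 : ∀ n, energyNorm m p E (y n - v) = energyNorm m p E (y n - w) := fun n => by
    refine h.energyNorm_congr (h.sub_mem (hy n).1 hw) ?_
    filter_upwards [hae] with x hx
    simp [hx]
  have e4 : Tendsto (fun n => energyNorm m p E (y n - w) ^ p) atTop (𝓝 0) := by
    have := hlim.rpow_const (p := p) (Or.inr hp0.le)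
    rwa [Real.zero_rpow hp0.ne'] at this
  refine squeeze_zero (fun n => h.nonneg _ (h.sub_mem (hy n).1 hvF)) (fun n => ?_) e4
  rw [← e3]
  exact h.energy_le_energyNorm hp (h.sub_mem (hy n).1 hvF)

end IsSelfSimilarEnergy

end Pool.Agent.SierpinskiCarpet
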