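import Pool.Agent.helper33.SCClosed

/-!
# Crossing functions and the lower bound `3 ^ p ≤ 8 ρ`
-/

open MeasureTheory Filter Topology
open scoped ENNReal

namespace Pool.Agent.SierpinskiCarpet

variable {K : Set (ℝ × ℝ)} (hK : IsCarpet K) {m : Measure K} {p ρ : ℝ} {F : Set (K → ℝ)}
  {E : (K → ℝ) → ℝ}

section Refl

theorem isSymm_reflX : IsSquareSymmetry (fun z => (-z.1, z.2)) :=
  ⟨-1, 1, by norm_num, by norm_num, Or.inl fun z => by simp⟩

theorem isSymm_reflY : IsSquareSymmetry (fun z => (z.1, -z.2)) :=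
  ⟨1, -1, by norm_num, by norm_num, Or.inl fun z => by simp⟩

theorem isSymm_swap : IsSquareSymmetry (fun z => (z.2, z.1)) :=
  ⟨1, 1, by norm_num, by norm_num, Or.inr fun z => by simp⟩

/-- The reflection `(x, y) ↦ (-x, y)`. -/
def reflX (z : K) : K := ⟨(-z.1.1, z.1.2), symmetry_mem hK isSymm_reflX z.2⟩

/-- The reflection `(x, y) ↦ (x, -y)`. -/
def reflY (z : K) : K := ⟨(z.1.1, -z.1.2), symmetry_mem hK isSymm_reflY z.2⟩

/-- The reflection `(x, y) ↦ (y, x)`. -/
def swapXY (z : K) : K := ⟨(z.1.2, z.1.1), symmetry_mem hK isSymm_swap z.2⟩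

theorem continuous_reflX : Continuous (reflX hK) :=
  Continuous.subtype_mk (by fun_prop) _

theorem continuous_reflY : Continuous (reflY hK) :=
  Continuous.subtype_mk (by fun_prop) _

theorem continuous_swapXY : Continuous (swapXY hK) :=
  Continuous.subtype_mk (by fun_prop) _

theorem reflX_reflX (z : K) : reflX hK (reflX hK z) = z :=
  Subtype.ext (Prod.ext (neg_neg _) rfl)

theorem reflY_reflY (z : K) : reflY hK (reflY hK z) = z :=
  Subtype.ext (Prod.ext rfl (neg_neg _))

theorem swapXY_swapXY (z : K) : swapXY hK (swapXY hK z) = z := rfl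

end Refl

/-- A continuous function which is `0` on the left side and `1` on the right side. -/
structure IsCrossing (u : K → ℝ) : Prop where
  cont : Continuous u
  left : ∀ x, x.1.1 = -1 → u x = 0
  right : ∀ x, x.1.1 = 1 → u x = 1

/-- The reflection used in the cell `i` when functions are copied into the three columns. -/
noncomputable def rmap (i : Fin 8) : K → K := if (q i).2 = 0 then reflY hK else id

theorem continuous_rmap (i : Fin 8) : Continuous (rmap hK i) := by
  unfold rmap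
  split_ifs
  · exact continuous_reflY hK
  · exact continuous_id

theorem rmap_fst (i : Fin 8) (z : K) : (rmap hK i z).1.1 = z.1.1 := by
  unfold rmap
  split_ifs <;> rfl

/-- Copying a crossing function into the three columns. -/
theorem exists_columns {u : K → ℝ} (hu : IsCrossing u) (α β : ℝ → ℝ)
    (h1 : α (-1) + β (-1) = α 0) (h2 : α 0 + β 0 = α 1) :
    ∃ g : K → ℝ, Continuous g ∧
      ∀ i, g ∘ cellMap hK i = fun z => α (q i).1 + β (q i).1 * u (rmap hK i z) := by
  refine exists_glue hK _ (fun i => ?_) ?_ ?_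
  · exact continuous_const.add (continuous_const.mul (hu.cont.comp (continuous_rmap hK i)))
  · intro i j z z' e1 e2 hz hz' hzz'
    rw [hu.right _ (by rw [rmap_fst, hz]), hu.left (rmap hK j z') (by rw [rmap_fst, hz'])]
    rcases q_fst i with h | h | h
    · rw [e1, h]
      norm_num
      linarith
    · rw [e1, h]
      norm_num
      linarith
    · exfalso
      rw [h] at e1
      rcases q_fst j with h' | h' | h' <;> rw [h'] at e1 <;> norm_num at e1
  · intro i j z z' e1 e2 hz hz' hzz'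
    rw [e2]
    congr 2
    congr 1
    unfold rmap
    rcases q_snd i with h | h | h
    · rw [if_neg (by rw [h]; norm_num), if_pos (by rw [e1, h]; norm_num)]
      exact Subtype.ext (Prod.ext hzz' (by simp [reflY, hz, hz']))
    · rw [if_pos h, if_neg (by rw [e1, h]; norm_num)]
      exact Subtype.ext (Prod.ext hzz' (by simp [reflY, hz, hz']))
    · exfalso
      rw [h] at e1
      rcases q_snd j with h' | h' | h' <;> rw [h'] at e1 <;> norm_num at e1

theorem sum_columns (β : ℝ → ℝ) :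
    ∑ i, β (q i).1 = 3 * β (-1) + 2 * β 0 + 3 * β 1 := by
  simp only [Fin.sum_univ_eight, q, Matrix.cons_val]
  ring

theorem left_of_cell {i : Fin 8} {y : K} (h : (cellMap hK i y).1.1 = -1) :
    (q i).1 = -1 ∧ y.1.1 = -1 := by
  have e : (cellMap hK i y).1.1 = (y.1.1 + 2 * (q i).1) / 3 := contraction_fst i y
  have b := abs_le.1 (abs_fst_le hK y)
  rw [h] at e
  rcases q_fst i with a | a | a <;> rw [a] at e ⊢
  · exact ⟨rfl, by linarith⟩
  · exfalso; linarith
  · exfalso; linarith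

theorem right_of_cell {i : Fin 8} {y : K} (h : (cellMap hK i y).1.1 = 1) :
    (q i).1 = 1 ∧ y.1.1 = 1 := by
  have e : (cellMap hK i y).1.1 = (y.1.1 + 2 * (q i).1) / 3 := contraction_fst i y
  have b := abs_le.1 (abs_fst_le hK y)
  rw [h] at e
  rcases q_fst i with a | a | a <;> rw [a] at e ⊢
  · exfalso; linarith
  · exfalso; linarith
  · exact ⟨rfl, by linarith⟩

variable {hK}

namespace IsSelfSimilarEnergy

variable (h : IsSelfSimilarEnergy hK m p ρ F E)

include h

theorem exists_crossing : ∃ u ∈ F, IsCrossing u := by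
  obtain ⟨u, hu, huc, hclose⟩ := h.dense_continuous (fun x => x.1.1) (by fun_prop) (1 / 4)
    (by norm_num)
  have h1 : (fun x => ((2 / 3 : ℝ) • u) x + 1 / 2) ∈ F :=
    (h.add_const _ (h.smul_mem (2 / 3) u hu) (1 / 2)).1
  have h2 := (h.markov _ h1).1
  refine ⟨_, h2, ?_, ?_, ?_⟩
  · simp only [Pi.smul_apply, smul_eq_mul]
    fun_prop
  · intro x hx
    have := abs_lt.1 (hclose x)
    simp only [Pi.smul_apply, smul_eq_mul]
    rw [max_eq_right (by linarith), min_eq_left (by norm_num)]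
  · intro x hx
    have := abs_lt.1 (hclose x)
    simp only [Pi.smul_apply, smul_eq_mul]
    rw [max_eq_left (by linarith), min_eq_right (by linarith)]

theorem comp_reflY {u : K → ℝ} (hu : u ∈ F) : u ∘ reflY hK ∈ F ∧ E (u ∘ reflY hK) = E u :=
  h.symm _ isSymm_reflY (reflY hK) (fun _ => rfl) u hu

theorem comp_reflX {u : K → ℝ} (hu : u ∈ F) : u ∘ reflX hK ∈ F ∧ E (u ∘ reflX hK) = E u :=
  h.symm _ isSymm_reflX (reflX hK) (fun _ => rfl) u hu

theorem comp_swapXY {u : K → ℝ} (hu : u ∈ F) : u ∘ swapXY hK ∈ F ∧ E (u ∘ swapXY hK) = E u :=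
  h.symm _ isSymm_swap (swapXY hK) (fun _ => rfl) u hu

theorem comp_rmap {u : K → ℝ} (hu : u ∈ F) (i : Fin 8) :
    u ∘ rmap hK i ∈ F ∧ E (u ∘ rmap hK i) = E u := by
  unfold rmap
  split_ifs
  · exact h.comp_reflY hu
  · exact ⟨hu, rfl⟩

theorem energy_columns {u : K → ℝ} (huF : u ∈ F) (hu : IsCrossing u) (α β : ℝ → ℝ)
    (h1 : α (-1) + β (-1) = α 0) (h2 : α 0 + β 0 = α 1) :
    ∃ g ∈ F, Continuous g ∧
      (∀ i z, g (cellMap hK i z) = α (q i).1 + β (q i).1 * u (rmap hK i z)) ∧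
      E g = ρ * ((3 * |β (-1)| ^ p + 2 * |β 0| ^ p + 3 * |β 1| ^ p) * E u) := by
  obtain ⟨g, hgc, hg⟩ := exists_columns hK hu α β h1 h2
  have hcomp : ∀ i, g ∘ cellMap hK i ∈ F ∧ E (g ∘ cellMap hK i) = |β (q i).1| ^ p * E u := by
    intro i
    have e : g ∘ cellMap hK i =
        fun z => (β (q i).1 • (u ∘ rmap hK i)) z + α (q i).1 := by
      rw [hg i]
      funext z
      simp only [Pi.smul_apply, smul_eq_mul, Function.comp_apply]
      ring
    have hr := h.comp_rmap huF i
    have hs := h.smul_mem (β (q i).1) _ hr.1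
    rw [e]
    refine ⟨(h.add_const _ hs _).1, ?_⟩
    rw [(h.add_const _ hs _).2, h.smul _ hr.1, hr.2]
  have hgF : g ∈ F := h.mem_of_comp_mem g hgc fun i => (hcomp i).1
  refine ⟨g, hgF, hgc, fun i z => congrFun (hg i) z, ?_⟩
  rw [← h.scaling g hgF]
  congr 1
  rw [Finset.sum_congr rfl fun i _ => (hcomp i).2, ← Finset.sum_mul,
    sum_columns (fun c => |β c| ^ p)]

/-- The energy of crossing functions is bounded from below. -/
theorem exists_crossing_bound (hp : 1 < p) (hm : IsSelfSimilarMeasure hK m) :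
    ∃ c : ℝ, 0 < c ∧ ∀ u ∈ F, IsCrossing u → c ≤ E u := by
  have hprob := hm.1
  have hp0 : 0 < p := by linarith
  obtain ⟨C₀, hC₀⟩ := h.poincare
  set C : ℝ := max C₀ 1 with hC
  have hCpos : 0 < C := lt_of_lt_of_le one_pos (le_max_right _ _)
  have hpo : ∀ g ∈ F, ∫ x, |g x - ∫ y, g y ∂m| ^ p ∂m ≤ C * E g := fun g hg => by
    refine (hC₀ g hg).trans ?_
    have := h.nonneg g hg
    gcongr
    exact le_max_left _ _
  have hρ := h.scale_pos
  have hpow : ∀ a b : ℝ, |a - b| ^ p ≤ 2 ^ (p - 1) * (|a| ^ p + |b| ^ p) := by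
    intro a b
    have h1 : |a - b| ^ p ≤ (|a| + |b|) ^ p := by
      refine Real.rpow_le_rpow (abs_nonneg _) (abs_sub a b) hp0.le
    have h2 := NNReal.rpow_add_le_mul_rpow_add_rpow ⟨|a|, abs_nonneg a⟩ ⟨|b|, abs_nonneg b⟩ hp.le
    have h2 : (|a| + |b|) ^ p ≤ 2 ^ (p - 1) * (|a| ^ p + |b| ^ p) := by exact_mod_cast h2
    exact h1.trans h2
  have contp : ∀ {f : K → ℝ} (c : ℝ), Continuous f → Continuous (fun x => |f x - c| ^ p) :=
    fun {f} c hf => (Real.continuous_rpow_const hp0.le).comp (hf.sub continuous_const).abs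
  -- from a glued function to a bound for `∫ |u - c|^p`
  have key : ∀ u : K → ℝ, Continuous u → ∀ g ∈ F, Continuous g → ∀ (i j : Fin 8) (c : ℝ),
      (∀ z, g (cellMap hK i z) = u z) → (∀ z, g (cellMap hK j z) = c) → i ≠ j →
      ∫ x, |u x - c| ^ p ∂m ≤ 2 ^ (p - 1) * (8 * (C * E g)) := by
    intro u huc g hgF hgc i j c hi hj hij
    set M := ∫ y, g y ∂m with hM
    have e1 := integral_cellMap hm (contp M hgc)
    have e2 : ∫ x, |g (cellMap hK i x) - M| ^ p ∂m + ∫ x, |g (cellMap hK j x) - M| ^ p ∂m ≤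
        ∑ k, ∫ x, |g (cellMap hK k x) - M| ^ p ∂m := by
      have := Finset.sum_le_univ_sum_of_nonneg (s := {i, j})
        (f := fun k => ∫ x, |g (cellMap hK k x) - M| ^ p ∂m)
        (fun k => integral_nonneg fun x => by positivity)
      rwa [Finset.sum_pair hij] at this
    have e3 : ∑ k, ∫ x, |g (cellMap hK k x) - M| ^ p ∂m ≤ 8 * (C * E g) := by
      have := hpo g hgF
      rw [← hM, e1] at this
      linarith
    simp only [hi, hj] at e2
    have e4 : ∫ x, |u x - c| ^ p ∂m ≤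
        ∫ x, 2 ^ (p - 1) * (|u x - M| ^ p + |c - M| ^ p) ∂m := by
      refine integral_mono (integrable_cont hK (contp _ huc))
        (integrable_cont hK ?_) fun x => ?_
      · exact continuous_const.mul ((contp _ huc).add continuous_const)
      · have := hpow (u x - M) (c - M)
        simpa using this
    refine e4.trans ?_
    rw [integral_const_mul, integral_add (integrable_cont hK (contp _ huc))
      (integrable_const _)]
    gcongr
    exact e2.trans e3
  refine ⟨(2 ^ (p - 1) * (2 * (2 ^ (p - 1) * (8 * (C * (ρ * 3))))))⁻¹, by positivity,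
    fun u huF hu => ?_⟩
  have hz1 : (0 : ℝ) ^ p = 0 := Real.zero_rpow hp0.ne'
  -- first glued function
  obtain ⟨g₁, hg₁F, hg₁c, hg₁, hE₁⟩ := h.energy_columns huF hu
    (fun c => if c = -1 then 0 else 1) (fun c => if c = -1 then 1 else 0)
    (by norm_num) (by norm_num)
  obtain ⟨g₂, hg₂F, hg₂c, hg₂, hE₂⟩ := h.energy_columns huF hu
    (fun _ => 0) (fun c => if c = 1 then 1 else 0) (by norm_num) (by norm_num)
  have hE₁' : E g₁ = ρ * 3 * E u := by
    rw [hE₁]
    norm_num [hz1]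
    ring
  have hE₂' : E g₂ = ρ * 3 * E u := by
    rw [hE₂]
    norm_num [hz1]
    ring
  have r0 : rmap hK (0 : Fin 8) = id := by
    unfold rmap
    rw [if_neg]
    simp [q]
  have r2 : rmap hK (2 : Fin 8) = id := by
    unfold rmap
    rw [if_neg]
    simp [q]
  have k1 := key u hu.cont g₁ hg₁F hg₁c 0 1 1 (fun z => by rw [hg₁, r0]; simp [q])
    (fun z => by rw [hg₁]; simp [q]) (by decide)
  have k2 := key u hu.cont g₂ hg₂F hg₂c 2 1 0 (fun z => by rw [hg₂, r2]; simp [q])
    (fun z => by rw [hg₂]; simp [q]) (by decide)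
  rw [hE₁'] at k1
  rw [hE₂'] at k2
  have e5 : (1 : ℝ) ≤ ∫ x, 2 ^ (p - 1) * (|u x - 0| ^ p + |u x - 1| ^ p) ∂m := by
    have e6 : ∫ _ : K, (1 : ℝ) ∂m ≤ ∫ x, 2 ^ (p - 1) * (|u x - 0| ^ p + |u x - 1| ^ p) ∂m := by
      refine integral_mono (integrable_const _) (integrable_cont hK ?_) fun x => ?_
      · exact continuous_const.mul ((contp _ hu.cont).add
          (contp _ hu.cont))
      · have := hpow (u x - 0) (u x - 1)
        simpa using this
    refine le_trans ?_ e6
    simp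
  rw [integral_const_mul, integral_add (integrable_cont hK (contp _ hu.cont))
    (integrable_cont hK (contp _ hu.cont))] at e5
  rw [inv_le_iff_one_le_mul₀ (by positivity)]
  have h2p : (0 : ℝ) < 2 ^ (p - 1) := by positivity
  calc (1 : ℝ) ≤ 2 ^ (p - 1) * (∫ x, |u x - 0| ^ p ∂m + ∫ x, |u x - 1| ^ p ∂m) := e5
    _ ≤ 2 ^ (p - 1) * (2 ^ (p - 1) * (8 * (C * (ρ * 3 * E u))) +
        2 ^ (p - 1) * (8 * (C * (ρ * 3 * E u)))) := by gcongr
    _ = E u * (2 ^ (p - 1) * (2 * (2 ^ (p - 1) * (8 * (C * (ρ * 3)))))) := by ring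

/-- The scaling factor is at least `3 ^ p / 8`. -/
theorem three_rpow_le (hp : 1 < p) (hm : IsSelfSimilarMeasure hK m) : 3 ^ p ≤ 8 * ρ := by
  obtain ⟨c, hc, hbound⟩ := h.exists_crossing_bound hp hm
  obtain ⟨u₀, hu₀F, hu₀⟩ := h.exists_crossing
  have hp0 : 0 < p := by linarith
  have hρ := h.scale_pos
  have step : ∀ u ∈ F, IsCrossing u → ∃ v ∈ F, IsCrossing v ∧ E v = (8 * ρ / 3 ^ p) * E u := by
    intro u huF hu
    obtain ⟨g, hgF, hgc, hg, hE⟩ := h.energy_columns huF hu (fun c => (c + 1) / 3)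
      (fun _ => 1 / 3) (by norm_num) (by norm_num)
    refine ⟨g, hgF, ⟨hgc, ?_, ?_⟩, ?_⟩
    · intro x hx
      obtain ⟨i, y, rfl⟩ := exists_cellMap hK x
      obtain ⟨h1, h2⟩ := left_of_cell hK hx
      rw [hg, hu.left _ (by rw [rmap_fst, h2]), h1]
      norm_num
    · intro x hx
      obtain ⟨i, y, rfl⟩ := exists_cellMap hK x
      obtain ⟨h1, h2⟩ := right_of_cell hK hx
      rw [hg, hu.right _ (by rw [rmap_fst, h2]), h1]
      norm_num
    · rw [hE, abs_of_pos (by norm_num : (0 : ℝ) < 1 / 3), one_div,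
        Real.inv_rpow (by norm_num)]
      field_simp
      ring
  have iter : ∀ n : ℕ, ∃ v ∈ F, IsCrossing v ∧ E v = (8 * ρ / 3 ^ p) ^ n * E u₀ := by
    intro n
    induction n with
    | zero => exact ⟨u₀, hu₀F, hu₀, by simp⟩
    | succ n ih =>
      obtain ⟨v, hvF, hv, hEv⟩ := ih
      obtain ⟨w, hwF, hw, hEw⟩ := step v hvF hv
      exact ⟨w, hwF, hw, by rw [hEw, hEv]; ring⟩
  by_contra hcon
  push Not at hcon
  have h3 : (0 : ℝ) < 3 ^ p := by positivity
  have hlt : 8 * ρ / 3 ^ p < 1 := by rwa [div_lt_one h3]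
  have hlim : Tendsto (fun n : ℕ => (8 * ρ / 3 ^ p) ^ n * E u₀) atTop (𝓝 0) := by
    have := (tendsto_pow_atTop_nhds_zero_of_lt_one (by positivity) hlt).mul_const (E u₀)
    rwa [zero_mul] at this
  obtain ⟨n, hn⟩ := (hlim.eventually (gt_mem_nhds hc)).exists
  obtain ⟨v, hvF, hv, hEv⟩ := iter n
  have := hbound v hvF hv
  rw [hEv] at this
  linarith

end IsSelfSimilarEnergy

end Pool.Agent.SierpinskiCarpet
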