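import Mathlib

/-!
# Definitions for the problem on self-similar `p`-energies on the Sierpinski carpet (MP_9c5d4e_an)

A subset of `L^p(K, m)` is represented by the set of all functions `K → ℝ` whose classes belong to
it, that is, by a set of functions which is stable under changes on `m`-null sets.
-/

open MeasureTheory Filter Topology
open scoped ENNReal

namespace Pool.Agent.SierpinskiCarpet

/-- The points `q₁, …, q₈` of the plane. -/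
def q : Fin 8 → ℝ × ℝ :=
  ![(-1, -1), (0, -1), (1, -1), (1, 0), (1, 1), (0, 1), (-1, 1), (-1, 0)]

/-- The contractions `f_i(x) = (x - q_i) / 3 + q_i`. -/
noncomputable def contraction (i : Fin 8) (x : ℝ × ℝ) : ℝ × ℝ := (3 : ℝ)⁻¹ • (x - q i) + q i

/-- `K` is the planar standard Sierpinski carpet: the nonempty compact set which is the union of
its images under the eight contractions. -/
structure IsCarpet (K : Set (ℝ × ℝ)) : Prop where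
  nonempty : K.Nonempty
  isCompact : IsCompact K
  eq_iUnion : K = ⋃ i, contraction i '' K

/-- The restriction `F_i` of the `i`-th contraction to the carpet. -/
noncomputable def cellMap {K : Set (ℝ × ℝ)} (hK : IsCarpet K) (i : Fin 8) (x : K) : K :=
  ⟨contraction i x, (Set.ext_iff.1 hK.eq_iUnion _).2 (Set.mem_iUnion.2 ⟨i, x, x.2, rfl⟩)⟩

/-- `m` is the self-similar probability measure on `K` with weights `(1/8, …, 1/8)`. -/
def IsSelfSimilarMeasure {K : Set (ℝ × ℝ)} (hK : IsCarpet K) (m : Measure K) : Prop :=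
  IsProbabilityMeasure m ∧ m = (8 : ℝ≥0∞)⁻¹ • ∑ i, m.map (cellMap hK i)

/-- The eight symmetries of the square `[-1, 1]²`. -/
def IsSquareSymmetry (Φ : ℝ × ℝ → ℝ × ℝ) : Prop :=
  ∃ a b : ℝ, |a| = 1 ∧ |b| = 1 ∧
    ((∀ z, Φ z = (a * z.1, b * z.2)) ∨ (∀ z, Φ z = (a * z.2, b * z.1)))

/-- The norm `(‖u‖_{L^p}^p + E(u))^{1/p}`. -/
noncomputable def energyNorm {X : Type} [MeasurableSpace X] (m : Measure X) (p : ℝ)
    (E : (X → ℝ) → ℝ) (u : X → ℝ) : ℝ :=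
  (∫ x, |u x| ^ p ∂m + E u) ^ (1 / p)

/-- `(E, F)` is a self-similar `p`-energy on the carpet `K`, with scaling factor `ρ`.  The labels
(a), …, (g) are those of the problem. -/
structure IsSelfSimilarEnergy {K : Set (ℝ × ℝ)} (hK : IsCarpet K) (m : Measure K) (p ρ : ℝ)
    (F : Set (K → ℝ)) (E : (K → ℝ) → ℝ) : Prop where
  /-- `F` is a linear subspace of `L^p(K, m)` and `E : F → [0, ∞)`. -/
  memLp : ∀ u ∈ F, MemLp u (ENNReal.ofReal p) m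
  congr : ∀ u ∈ F, ∀ v : K → ℝ, v =ᵐ[m] u → v ∈ F ∧ E v = E u
  zero_mem : (0 : K → ℝ) ∈ F
  add_mem : ∀ u ∈ F, ∀ v ∈ F, u + v ∈ F
  smul_mem : ∀ (a : ℝ), ∀ u ∈ F, a • u ∈ F
  nonneg : ∀ u ∈ F, 0 ≤ E u
  /-- (a) -/
  eq_zero_iff : ∀ u ∈ F, E u = 0 ↔ ∃ c : ℝ, u =ᵐ[m] fun _ => c
  add_const : ∀ u ∈ F, ∀ a : ℝ, (fun x => u x + a) ∈ F ∧ E (fun x => u x + a) = E u
  smul : ∀ u ∈ F, ∀ a : ℝ, E (a • u) = |a| ^ p * E u
  /-- (b) -/
  subadd : ∀ u ∈ F, ∀ v ∈ F, E (u + v) ^ (1 / p) ≤ E u ^ (1 / p) + E v ^ (1 / p)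
  complete : ∀ u : ℕ → K → ℝ, (∀ n, u n ∈ F) →
    (∀ ε > 0, ∃ N, ∀ k ≥ N, ∀ l ≥ N, energyNorm m p E (u k - u l) < ε) →
    ∃ v ∈ F, Tendsto (fun n => energyNorm m p E (u n - v)) atTop (𝓝 0)
  uniformConvex : ∀ ε > 0, ∃ δ > 0, ∀ u ∈ F, ∀ v ∈ F, energyNorm m p E u = 1 →
    energyNorm m p E v = 1 → ε ≤ energyNorm m p E (u - v) → energyNorm m p E (u + v) ≤ 2 - δ
  /-- (c) -/
  dense_continuous : ∀ g : K → ℝ, Continuous g → ∀ ε > 0, ∃ u ∈ F, Continuous u ∧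
    ∀ x, |u x - g x| < ε
  dense_energy : ∀ u ∈ F, ∀ ε > 0, ∃ v ∈ F, Continuous v ∧ energyNorm m p E (u - v) < ε
  /-- (d) -/
  symm : ∀ Φ, IsSquareSymmetry Φ → ∀ G : K → K, (∀ x, (G x : ℝ × ℝ) = Φ x) → ∀ u ∈ F,
    u ∘ G ∈ F ∧ E (u ∘ G) = E u
  /-- (e) -/
  scale_pos : 0 < ρ
  comp_mem : ∀ u ∈ F, ∀ i, u ∘ cellMap hK i ∈ F
  scaling : ∀ u ∈ F, ρ * ∑ i, E (u ∘ cellMap hK i) = E u
  mem_of_comp_mem : ∀ u : K → ℝ, Continuous u → (∀ i, u ∘ cellMap hK i ∈ F) → u ∈ F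
  /-- (f) -/
  markov : ∀ u ∈ F, (fun x => min (max (u x) 0) 1) ∈ F ∧ E (fun x => min (max (u x) 0) 1) ≤ E u
  /-- (g) -/
  poincare : ∃ C : ℝ, ∀ u ∈ F, ∫ x, |u x - ∫ y, u y ∂m| ^ p ∂m ≤ C * E u

end Pool.Agent.SierpinskiCarpet
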