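import Mathlib

/-!
# Convex combinations in uniformly convex spaces
-/

open Filter Topology

namespace Pool.Agent.SierpinskiCarpet

/-- In a uniformly convex space every bounded sequence has a Cauchy sequence of forward convex
combinations. -/
theorem exists_cauchy_convex {E : Type*} [SeminormedAddCommGroup E] [NormedSpace ℝ E]
    [UniformConvexSpace E] (x : ℕ → E) {R : ℝ} (hR : ∀ n, ‖x n‖ ≤ R) :
    ∃ y : ℕ → E, (∀ n, y n ∈ convexHull ℝ (x '' Set.Ici n)) ∧ CauchySeq y := by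
  set C : ℕ → Set E := fun n => convexHull ℝ (x '' Set.Ici n) with hC
  have hCne : ∀ n, (C n).Nonempty := fun n =>
    ⟨x n, subset_convexHull ℝ _ ⟨n, le_refl n, rfl⟩⟩
  have hCanti : ∀ {n m : ℕ}, n ≤ m → C m ⊆ C n := fun {n m} h =>
    convexHull_mono (Set.image_mono (Set.Ici_subset_Ici.2 h))
  set d : ℕ → ℝ := fun n => sInf (norm '' C n) with hd
  have hbdd : ∀ n, BddBelow (norm '' C n) := fun n => ⟨0, by
    rintro _ ⟨y, -, rfl⟩
    exact norm_nonneg y⟩
  have hdle : ∀ n, ∀ y ∈ C n, d n ≤ ‖y‖ := fun n y hy => csInf_le (hbdd n) ⟨y, hy, rfl⟩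
  have hdR : ∀ n, d n ≤ R := fun n =>
    (hdle n (x n) (subset_convexHull ℝ _ ⟨n, le_refl n, rfl⟩)).trans (hR n)
  have hd0 : ∀ n, 0 ≤ d n := fun n => by
    refine le_csInf ((hCne n).image _) ?_
    rintro _ ⟨y, -, rfl⟩
    exact norm_nonneg y
  have hdmono : Monotone d := fun n m h => by
    refine le_csInf ((hCne m).image _) ?_
    rintro _ ⟨y, hy, rfl⟩
    exact hdle n y (hCanti h hy)
  have hlim : Tendsto d atTop (𝓝 (⨆ n, d n)) :=
    tendsto_atTop_ciSup hdmono ⟨R, by rintro _ ⟨n, rfl⟩; exact hdR n⟩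
  set D := ⨆ n, d n with hD
  have hdD : ∀ n, d n ≤ D := fun n => le_ciSup ⟨R, by rintro _ ⟨n, rfl⟩; exact hdR n⟩ n
  have hD0 : 0 ≤ D := (hd0 0).trans (hdD 0)
  have hex : ∀ n : ℕ, ∃ y ∈ C n, ‖y‖ < d n + 1 / (n + 1) := by
    intro n
    obtain ⟨_, ⟨y, hy, rfl⟩, h⟩ := exists_lt_of_csInf_lt ((hCne n).image norm)
      (show sInf (norm '' C n) < d n + 1 / (n + 1) by
        have : (0 : ℝ) < 1 / (n + 1) := by positivity
        change d n < _
        linarith)
    exact ⟨y, hy, h⟩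
  choose y hy hyn using hex
  refine ⟨y, hy, ?_⟩
  have hysmall : ∀ η > 0, ∃ N, ∀ n ≥ N, ‖y n‖ ≤ D + η ∧ D - η ≤ d n := by
    intro η hη
    have h1 : Tendsto (fun n : ℕ => (1 : ℝ) / (n + 1)) atTop (𝓝 0) :=
      tendsto_one_div_add_atTop_nhds_zero_nat
    obtain ⟨N₁, hN₁⟩ := eventually_atTop.1 (h1.eventually (gt_mem_nhds hη))
    obtain ⟨N₂, hN₂⟩ := eventually_atTop.1 (hlim.eventually (lt_mem_nhds (show D - η < D by linarith)))
    refine ⟨max N₁ N₂, fun n hn => ⟨?_, ?_⟩⟩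
    · have := hN₁ n (le_of_max_le_left hn)
      have h3 := hyn n
      have h4 := hdD n
      linarith
    · exact (hN₂ n (le_of_max_le_right hn)).le
  rw [Metric.cauchySeq_iff]
  intro ε hε
  rcases hD0.eq_or_lt with h0 | hpos
  · obtain ⟨N, hN⟩ := hysmall (ε / 4) (by positivity)
    refine ⟨N, fun m hm n hn => ?_⟩
    rw [dist_eq_norm]
    have h1 := (hN m hm).1
    have h2 := (hN n hn).1
    have h3 := norm_sub_le (y m) (y n)
    linarith
  · obtain ⟨δ, hδ, h⟩ := exists_forall_closed_ball_dist_add_le_two_sub E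
      (ε := ε / (D + 1)) (by positivity)
    have hη : 0 < min 1 (D * δ / 8) := by positivity
    obtain ⟨N, hN⟩ := hysmall (min 1 (D * δ / 8)) hη
    set η := min 1 (D * δ / 8) with hηdef
    have hη1 : η ≤ 1 := min_le_left _ _
    have hη2 : η ≤ D * δ / 8 := min_le_right _ _
    refine ⟨N, fun m hm n hn => ?_⟩
    rw [dist_eq_norm]
    by_contra hcon
    push Not at hcon
    have hr : 0 < D + η := by linarith
    have e1 : ‖(D + η)⁻¹ • y m‖ ≤ 1 := by
      rw [norm_smul, Real.norm_of_nonneg (inv_nonneg.2 hr.le), inv_mul_le_iff₀ hr, mul_one]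
      exact (hN m hm).1
    have e2 : ‖(D + η)⁻¹ • y n‖ ≤ 1 := by
      rw [norm_smul, Real.norm_of_nonneg (inv_nonneg.2 hr.le), inv_mul_le_iff₀ hr, mul_one]
      exact (hN n hn).1
    have e3 : ε / (D + 1) ≤ ‖(D + η)⁻¹ • y m - (D + η)⁻¹ • y n‖ := by
      rw [← smul_sub, norm_smul, Real.norm_of_nonneg (inv_nonneg.2 hr.le), inv_mul_eq_div]
      have : D + η ≤ D + 1 := by linarith
      gcongr
    have e4 := h e1 e2 e3
    rw [← smul_add, norm_smul, Real.norm_of_nonneg (inv_nonneg.2 hr.le), inv_mul_le_iff₀ hr] at e4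
    -- the midpoint
    have hmid : (1 / 2 : ℝ) • y m + (1 / 2 : ℝ) • y n ∈ C (min m n) :=
      (convex_convexHull ℝ _) (hCanti (min_le_left m n) (hy m)) (hCanti (min_le_right m n) (hy n))
        (by norm_num) (by norm_num) (by norm_num)
    have e5 := hdle _ _ hmid
    rw [← smul_add, norm_smul, Real.norm_of_nonneg (by norm_num)] at e5
    have e6 := (hN (min m n) (le_min hm hn)).2
    nlinarith
  
end Pool.Agent.SierpinskiCarpet
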