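import Pool.Agent.helper33.SCGeometry
import Pool.Agent.helper33.SCMazur

/-!
# Basic properties of self-similar `p`-energies
-/

open MeasureTheory Filter Topology
open scoped ENNReal

namespace Pool.Agent.SierpinskiCarpet

variable {K : Set (ℝ × ℝ)} {hK : IsCarpet K} {m : Measure K} {p ρ : ℝ} {F : Set (K → ℝ)}
  {E : (K → ℝ) → ℝ}

section Integral

theorem integrable_cont [IsFiniteMeasure m] (hK : IsCarpet K) {u : K → ℝ} (hu : Continuous u) :
    Integrable u m := by
  have := hK.instCompact
  exact hu.integrable_of_hasCompactSupport (HasCompactSupport.of_compactSpace _)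

theorem integral_cellMap (hm : IsSelfSimilarMeasure hK m) {u : K → ℝ} (hu : Continuous u) :
    ∫ x, u x ∂m = 8⁻¹ * ∑ i, ∫ x, u (cellMap hK i x) ∂m := by
  have := hm.1
  have h1 : ∫ x, u x ∂m = ∫ x, u x ∂((8 : ℝ≥0∞)⁻¹ • ∑ i, m.map (cellMap hK i)) := by
    rw [← hm.2]
  have hint : ∀ i ∈ Finset.univ, Integrable u (m.map (cellMap hK i)) := fun i _ => by
    have := Measure.isProbabilityMeasure_map (μ := m) (continuous_cellMap hK i).aemeasurable
    exact integrable_cont hK hu
  rw [h1, integral_smul_measure, integral_finsetSum_measure hint]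
  simp only [ENNReal.toReal_inv, ENNReal.toReal_ofNat, smul_eq_mul]
  congr 1
  refine Finset.sum_congr rfl fun i _ => ?_
  exact integral_map (continuous_cellMap hK i).aemeasurable hu.aestronglyMeasurable

theorem jensen (hm : IsProbabilityMeasure m) (hK : IsCarpet K) (hp : 1 < p) {u : K → ℝ}
    (hu : Continuous u) : |∫ x, u x ∂m| ^ p ≤ ∫ x, |u x| ^ p ∂m := by
  have hp0 : 0 ≤ p := by linarith
  have h1 : |∫ x, u x ∂m| ≤ ∫ x, |u x| ∂m := abs_integral_le_integral_abs
  have h2 : (∫ x, |u x| ∂m) ^ p ≤ ∫ x, |u x| ^ p ∂m :=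
    (convexOn_rpow hp.le).map_integral_le
      (Real.continuous_rpow_const hp0).continuousOn isClosed_Ici
      (Eventually.of_forall fun x => Set.mem_Ici.2 (abs_nonneg _)) (integrable_cont hK (by fun_prop))
      (integrable_cont hK (((Real.continuous_rpow_const hp0).comp (by fun_prop))))
  refine le_trans ?_ h2
  exact Real.rpow_le_rpow (abs_nonneg _) h1 hp0

end Integral

namespace IsSelfSimilarEnergy

variable (h : IsSelfSimilarEnergy hK m p ρ F E)

include h

theorem const_mem (c : ℝ) : (fun _ : K => c) ∈ F := by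
  have := (h.add_const 0 h.zero_mem c).1
  simpa using this

theorem sub_mem {u v : K → ℝ} (hu : u ∈ F) (hv : v ∈ F) : u - v ∈ F := by
  have := h.add_mem u hu _ (h.smul_mem (-1) v hv)
  have e : u + (-1 : ℝ) • v = u - v := by
    funext x
    simp [sub_eq_add_neg]
  rwa [e] at this

theorem energy_neg {u : K → ℝ} (hu : u ∈ F) : E (-u) = E u := by
  have := h.smul u hu (-1)
  simpa using this

theorem energy_const (c : ℝ) : E (fun _ => c) = 0 :=
  (h.eq_zero_iff _ (h.const_mem c)).2 ⟨c, Eventually.of_forall fun _ => rfl⟩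

theorem energy_zero : E 0 = 0 := h.energy_const 0

theorem energy_comp_le {u : K → ℝ} (hu : u ∈ F) (i : Fin 8) :
    E (u ∘ cellMap hK i) ≤ ρ⁻¹ * E u := by
  rw [← h.scaling u hu, inv_mul_cancel_left₀ h.scale_pos.ne']
  exact Finset.single_le_sum (f := fun i => E (u ∘ cellMap hK i))
    (fun j _ => h.nonneg _ (h.comp_mem u hu j)) (Finset.mem_univ i)

/-- The set of continuous functions of finite energy. -/
theorem mem_FC_cell {u : K → ℝ} (hu : u ∈ F) (w : List (Fin 8)) : u ∘ cell hK w ∈ F := by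
  induction w generalizing u with
  | nil => exact hu
  | cons i w ih => exact ih (h.comp_mem u hu i)

section Mean

variable (hp : 1 < p) (hm : IsSelfSimilarMeasure hK m)

include hp hm

theorem exists_poincare : ∃ C : ℝ, 0 < C ∧ ∀ u ∈ F, Continuous u →
    ∀ i, |∫ x, u (cellMap hK i x) ∂m - ∫ x, u x ∂m| ≤ C * E u ^ (1 / p) := by
  have hprob := hm.1
  obtain ⟨C₀, hC₀⟩ := h.poincare
  set C : ℝ := max C₀ 1 with hC
  have hCpos : 0 < C := lt_of_lt_of_le one_pos (le_max_right _ _)
  have hp0 : 0 < p := by linarith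
  refine ⟨(8 * C) ^ (1 / p), by positivity, fun u hu huc i => ?_⟩
  set M := ∫ x, u x ∂m with hM
  have e1 : ∫ x, u (cellMap hK i x) ∂m - M = ∫ x, (u (cellMap hK i x) - M) ∂m := by
    have hint : Integrable (fun x => u (cellMap hK i x)) m :=
      integrable_cont hK (huc.comp (continuous_cellMap hK i))
    rw [integral_sub hint (integrable_const _)]
    simp
  have e2 : |∫ x, (u (cellMap hK i x) - M) ∂m| ^ p ≤ ∫ x, |u (cellMap hK i x) - M| ^ p ∂m :=
    jensen hprob hK hp ((huc.comp (continuous_cellMap hK i)).sub continuous_const)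
  have hcont : Continuous (fun x => |u x - M| ^ p) :=
    (Real.continuous_rpow_const hp0.le).comp (by fun_prop)
  have e3 := integral_cellMap hm hcont
  have e4 : ∫ x, |u (cellMap hK i x) - M| ^ p ∂m ≤
      ∑ j, ∫ x, |u (cellMap hK j x) - M| ^ p ∂m :=
    Finset.single_le_sum (f := fun j => ∫ x, |u (cellMap hK j x) - M| ^ p ∂m)
      (fun j _ => integral_nonneg fun x => by positivity) (Finset.mem_univ i)
  have e5 : ∫ x, |u x - M| ^ p ∂m ≤ C * E u := by
    refine (hC₀ u hu).trans ?_
    gcongr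
    · exact h.nonneg u hu
    · exact le_max_left _ _
  have e6 : |∫ x, u (cellMap hK i x) ∂m - M| ^ p ≤ 8 * C * E u := by
    rw [e1]
    refine e2.trans (e4.trans ?_)
    have : ∑ j, ∫ x, |u (cellMap hK j x) - M| ^ p ∂m = 8 * ∫ x, |u x - M| ^ p ∂m := by
      rw [e3]
      ring
    rw [this]
    linarith
  have hE := h.nonneg u hu
  calc |∫ x, u (cellMap hK i x) ∂m - M|
      = (|∫ x, u (cellMap hK i x) ∂m - M| ^ p) ^ (1 / p) := by
        rw [← Real.rpow_mul (abs_nonneg _), mul_one_div_cancel hp0.ne', Real.rpow_one]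
    _ ≤ (8 * C * E u) ^ (1 / p) := Real.rpow_le_rpow (by positivity) e6 (by positivity)
    _ = (8 * C) ^ (1 / p) * E u ^ (1 / p) := Real.mul_rpow (by positivity) hE

theorem exists_mean_bound (hρ : 1 < ρ) : ∃ C : ℝ, 0 < C ∧ ∀ u ∈ F, Continuous u →
    ∀ x, |u x - ∫ y, u y ∂m| ≤ C * E u ^ (1 / p) := by
  have hprob := hm.1
  have hp0 : 0 < p := by linarith
  obtain ⟨C, hC, hb⟩ := h.exists_poincare hp hm
  set r : ℝ := ρ⁻¹ ^ (1 / p) with hr
  have hr0 : 0 < r := by positivity
  have hr1 : r < 1 := Real.rpow_lt_one (by positivity) (inv_lt_one_of_one_lt₀ hρ) (by positivity)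
  set G : ℝ := C / (1 - r) with hG
  have hG0 : 0 < G := div_pos hC (by linarith)
  have hGr : G * r + C = G := by
    have h1 : 1 - r ≠ 0 := by linarith
    rw [hG]
    field_simp
    ring
  have key : ∀ (w : List (Fin 8)) (u : K → ℝ), u ∈ F → Continuous u →
      |∫ x, u (cell hK w x) ∂m - ∫ x, u x ∂m| ≤ G * E u ^ (1 / p) := by
    intro w
    induction w with
    | nil =>
      intro u hu _
      have := h.nonneg u hu
      simp only [cell_nil, id_eq, sub_self, abs_zero]
      positivity
    | cons i w ih =>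
      intro u hu huc
      have h1 := ih (u ∘ cellMap hK i) (h.comp_mem u hu i) (huc.comp (continuous_cellMap hK i))
      have h2 := hb u hu huc i
      have hE := h.nonneg u hu
      have h3 : E (u ∘ cellMap hK i) ^ (1 / p) ≤ r * E u ^ (1 / p) := by
        rw [hr, ← Real.mul_rpow (by have := h.scale_pos; positivity) hE]
        exact Real.rpow_le_rpow (h.nonneg _ (h.comp_mem u hu i)) (h.energy_comp_le hu i)
          (by positivity)
      have h4 : G * E (u ∘ cellMap hK i) ^ (1 / p) ≤ G * (r * E u ^ (1 / p)) := by gcongr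
      have h5 : ∫ x, u (cell hK (i :: w) x) ∂m - ∫ x, u x ∂m =
          (∫ x, (u ∘ cellMap hK i) (cell hK w x) ∂m - ∫ x, (u ∘ cellMap hK i) x ∂m) +
          (∫ x, u (cellMap hK i x) ∂m - ∫ x, u x ∂m) := by
        simp only [Function.comp_apply, cell_cons]
        ring
      rw [h5]
      refine (abs_add_le _ _).trans ((add_le_add (h1.trans h4) h2).trans (le_of_eq ?_))
      calc G * (r * E u ^ (1 / p)) + C * E u ^ (1 / p) = (G * r + C) * E u ^ (1 / p) := by ring
        _ = G * E u ^ (1 / p) := by rw [hGr]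
  refine ⟨G, hG0, fun u hu huc x => le_of_forall_pos_le_add fun ε hε => ?_⟩
  obtain ⟨n₀, hn₀⟩ := exists_mesh hK huc hε
  obtain ⟨w, hw, y, hy⟩ := exists_cell hK n₀ x
  have h1 := key w u hu huc
  have hcw : Continuous (fun z => u (cell hK w z)) := huc.comp (continuous_cell hK w)
  have h2 : |u x - ∫ z, u (cell hK w z) ∂m| ≤ ε := by
    have e1 : u x - ∫ z, u (cell hK w z) ∂m = ∫ z, (u x - u (cell hK w z)) ∂m := by
      rw [integral_sub (integrable_const _) (integrable_cont hK hcw)]
      simp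
    rw [e1]
    refine (abs_integral_le_integral_abs).trans ?_
    have e2 : ∫ z, |u x - u (cell hK w z)| ∂m ≤ ∫ _, ε ∂m := by
      refine integral_mono (integrable_cont hK ?_) (integrable_const _) fun z => ?_
      · exact (continuous_const.sub hcw).abs
      · rw [← hy]
        exact (hn₀ n₀ le_rfl w hw y z).le
    refine e2.trans ?_
    simp
  have h3 : u x - ∫ y, u y ∂m = (u x - ∫ z, u (cell hK w z) ∂m) +
      (∫ z, u (cell hK w z) ∂m - ∫ y, u y ∂m) := by ring
  rw [h3]
  refine (abs_add_le _ _).trans ?_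
  linarith

end Mean

end IsSelfSimilarEnergy

end Pool.Agent.SierpinskiCarpet
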