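import Pool.Agent.helper33.SCGeometry

/-!
# Additive functions on the tree of words: cells on which the densities are nearly constant
-/

open Filter Topology

namespace Pool.Agent.SierpinskiCarpet

/-- A nonnegative additive function of the words. -/
structure TreeMeasure (q : List (Fin 8) → ℝ) : Prop where
  nonneg : ∀ w, 0 ≤ q w
  sum : ∀ w k, ∑ x ∈ words k, q (w ++ x) = q w

/-- The sum of squares of the density, over the words of length `k` below `w`. -/
noncomputable def sqSum (q ν : List (Fin 8) → ℝ) (w : List (Fin 8)) (k : ℕ) : ℝ :=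
  ∑ x ∈ words k, q (w ++ x) ^ 2 / ν (w ++ x)

theorem sqSum_zero (q ν : List (Fin 8) → ℝ) (w : List (Fin 8)) : sqSum q ν w 0 = q w ^ 2 / ν w := by
  rw [sqSum, sum_words_zero, List.append_nil]

theorem sqSum_add (q ν : List (Fin 8) → ℝ) (w : List (Fin 8)) (k l : ℕ) :
    sqSum q ν w (k + l) = ∑ x ∈ words k, sqSum q ν (w ++ x) l := by
  rw [sqSum, sum_words_add]
  refine Finset.sum_congr rfl fun x _ => ?_
  rw [sqSum]
  simp only [List.append_assoc]

section

variable {q ν : List (Fin 8) → ℝ} {C : ℝ} (hq : TreeMeasure q) (hν : TreeMeasure ν)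
  (hC : ∀ w, q w ≤ C * ν w)

include hq hν hC

theorem sqSum_sub (w : List (Fin 8)) (k : ℕ) :
    sqSum q ν w k - sqSum q ν w 0 =
      ∑ x ∈ words k, ν (w ++ x) * (q (w ++ x) / ν (w ++ x) - q w / ν w) ^ 2 := by
  have hzero : ∀ w, ν w = 0 → q w = 0 := fun w hw => by
    have h1 := hC w
    rw [hw, mul_zero] at h1
    exact le_antisymm h1 (hq.nonneg w)
  have e1 : ∀ x, ν (w ++ x) * (q (w ++ x) / ν (w ++ x) - q w / ν w) ^ 2 =
      q (w ++ x) ^ 2 / ν (w ++ x) - 2 * (q w / ν w) * q (w ++ x) +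
        (q w / ν w) ^ 2 * ν (w ++ x) := by
    intro x
    by_cases h0 : ν (w ++ x) = 0
    · rw [h0, hzero _ h0]
      simp
    · field_simp
      ring
  simp_rw [e1]
  rw [Finset.sum_add_distrib, Finset.sum_sub_distrib, ← Finset.mul_sum, ← Finset.mul_sum,
    hq.sum, hν.sum, ← sqSum, sqSum_zero]
  by_cases h0 : ν w = 0
  · rw [h0, hzero _ h0]
    simp
  · field_simp
    ring

theorem sqSum_zero_le (w : List (Fin 8)) (k : ℕ) : sqSum q ν w 0 ≤ sqSum q ν w k := by
  have h1 := sqSum_sub hq hν hC w k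
  have h2 : 0 ≤ ∑ x ∈ words k, ν (w ++ x) * (q (w ++ x) / ν (w ++ x) - q w / ν w) ^ 2 :=
    Finset.sum_nonneg fun x _ => mul_nonneg (hν.nonneg _) (sq_nonneg _)
  linarith

theorem sqSum_mono (w : List (Fin 8)) {k l : ℕ} (hkl : k ≤ l) : sqSum q ν w k ≤ sqSum q ν w l := by
  obtain ⟨d, rfl⟩ := Nat.exists_eq_add_of_le hkl
  rw [sqSum_add]
  have e : sqSum q ν w k = ∑ x ∈ words k, sqSum q ν (w ++ x) 0 := by
    rw [← sqSum_add, add_zero]
  rw [e]
  exact Finset.sum_le_sum fun x _ => sqSum_zero_le hq hν hC _ _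

theorem sqSum_le (hC0 : 0 ≤ C) (w : List (Fin 8)) (k : ℕ) : sqSum q ν w k ≤ C ^ 2 * ν w := by
  have e1 : ∀ x, q (w ++ x) ^ 2 / ν (w ++ x) ≤ C ^ 2 * ν (w ++ x) := by
    intro x
    by_cases h0 : ν (w ++ x) = 0
    · rw [h0]
      simp
    · have h1 : 0 < ν (w ++ x) := lt_of_le_of_ne (hν.nonneg _) (Ne.symm h0)
      rw [div_le_iff₀ h1]
      have h2 := hC (w ++ x)
      have h3 := hq.nonneg (w ++ x)
      calc q (w ++ x) ^ 2 ≤ (C * ν (w ++ x)) ^ 2 := by gcongr
        _ = C ^ 2 * ν (w ++ x) * ν (w ++ x) := by ring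
  calc sqSum q ν w k ≤ ∑ x ∈ words k, C ^ 2 * ν (w ++ x) := Finset.sum_le_sum fun x _ => e1 x
    _ = C ^ 2 * ν w := by rw [← Finset.mul_sum, hν.sum]

theorem sq_sum_abs_le (w : List (Fin 8)) (k : ℕ) :
    (∑ x ∈ words k, |q (w ++ x) - q w / ν w * ν (w ++ x)|) ^ 2 ≤
      ν w * (sqSum q ν w k - sqSum q ν w 0) := by
  have hzero : ∀ w, ν w = 0 → q w = 0 := fun w hw => by
    have h1 := hC w
    rw [hw, mul_zero] at h1
    exact le_antisymm h1 (hq.nonneg w)
  rw [sqSum_sub hq hν hC, ← hν.sum w k]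
  rw [hν.sum w k]
  have h1 := Finset.sum_sq_le_sum_mul_sum_of_sq_eq_mul (words k)
    (r := fun x => |q (w ++ x) - q w / ν w * ν (w ++ x)|)
    (f := fun x => ν (w ++ x))
    (g := fun x => ν (w ++ x) * (q (w ++ x) / ν (w ++ x) - q w / ν w) ^ 2)
    (fun x _ => hν.nonneg _) (fun x _ => mul_nonneg (hν.nonneg _) (sq_nonneg _)) (fun x _ => by
      simp only [sq_abs]
      by_cases h0 : ν (w ++ x) = 0
      · rw [h0, hzero _ h0]
        simp
      · field_simp)
  rwa [hν.sum] at h1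

end

open Classical in
/-- If the cells with the property `P` carry a fixed proportion of the mass at infinitely many
levels, there is such a cell on which the densities are nearly constant at all levels. -/
theorem exists_nearly_constant {ι : Type*} [Fintype ι] {q : ι → List (Fin 8) → ℝ}
    {ν : List (Fin 8) → ℝ} {C : ℝ} (hq : ∀ j, TreeMeasure (q j)) (hν : TreeMeasure ν)
    (hC : ∀ j w, q j w ≤ C * ν w) (hC0 : 0 ≤ C) (P : List (Fin 8) → Prop) {c : ℝ} (hc : 0 < c)
    (hP : ∀ N, ∃ n ≥ N, c ≤ ∑ w ∈ (words n).filter P, ν w) {η : ℝ} (hη : 0 < η) :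
    ∃ w, P w ∧ 0 < ν w ∧ ∀ k j,
      ∑ x ∈ words k, |q j (w ++ x) - q j w / ν w * ν (w ++ x)| ≤ η * ν w := by
  set T : ℕ → ℝ := fun n => ∑ j, sqSum (q j) ν [] n with hT
  have hTmono : Monotone T := fun a b hab =>
    Finset.sum_le_sum fun j _ => sqSum_mono (hq j) hν (hC j) [] hab
  have hTbdd : BddAbove (Set.range T) := by
    refine ⟨∑ _j : ι, C ^ 2 * ν [], ?_⟩
    rintro _ ⟨n, rfl⟩
    exact Finset.sum_le_sum fun j _ => sqSum_le (hq j) hν (hC j) hC0 [] n
  have hlim := tendsto_atTop_ciSup hTmono hTbdd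
  have hpos : 0 < η ^ 2 * c / 2 := by positivity
  obtain ⟨N, hN⟩ := (hlim.eventually (lt_mem_nhds
    (show (⨆ n, T n) - η ^ 2 * c / 2 < ⨆ n, T n by linarith))).exists
  obtain ⟨n, hn, hcn⟩ := hP N
  by_contra hcon
  push Not at hcon
  -- choose the bad levels
  have hbad : ∀ w ∈ (words n).filter P, 0 < ν w → ∃ k, ∀ l ≥ k,
      η ^ 2 * ν w ≤ ∑ j, (sqSum (q j) ν w l - sqSum (q j) ν w 0) := by
    intro w hw hνw
    obtain ⟨k, j, hkj⟩ := hcon w (Finset.mem_filter.1 hw).2 hνw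
    refine ⟨k, fun l hl => ?_⟩
    have h1 := sq_sum_abs_le (hq j) hν (hC j) w k
    have h2 : (η * ν w) ^ 2 ≤ ν w * (sqSum (q j) ν w k - sqSum (q j) ν w 0) := by
      refine le_trans ?_ h1
      gcongr
    have h3 : η ^ 2 * ν w ≤ sqSum (q j) ν w k - sqSum (q j) ν w 0 := by
      have : ν w * (η ^ 2 * ν w) ≤ ν w * (sqSum (q j) ν w k - sqSum (q j) ν w 0) := by
        calc ν w * (η ^ 2 * ν w) = (η * ν w) ^ 2 := by ring
          _ ≤ _ := h2
      exact le_of_mul_le_mul_left this hνw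
    have h4 : sqSum (q j) ν w k - sqSum (q j) ν w 0 ≤ sqSum (q j) ν w l - sqSum (q j) ν w 0 := by
      have := sqSum_mono (hq j) hν (hC j) w hl
      linarith
    refine (h3.trans h4).trans (Finset.single_le_sum
      (f := fun j => sqSum (q j) ν w l - sqSum (q j) ν w 0) (fun i _ => ?_) (Finset.mem_univ j))
    have := sqSum_zero_le (hq i) hν (hC i) w l
    linarith
  choose! k hk using hbad
  set L := ((words n).filter P).sup k with hL
  have h1 : ∀ w ∈ (words n).filter P,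
      η ^ 2 * ν w ≤ ∑ j, (sqSum (q j) ν w L - sqSum (q j) ν w 0) := by
    intro w hw
    rcases (hν.nonneg w).eq_or_lt with h0 | h0
    · rw [← h0, mul_zero]
      exact Finset.sum_nonneg fun j _ => by
        have := sqSum_zero_le (hq j) hν (hC j) w L
        linarith
    · exact hk w hw h0 L (Finset.le_sup hw)
  have h2 : η ^ 2 * c ≤ T (n + L) - T n := by
    calc η ^ 2 * c ≤ η ^ 2 * ∑ w ∈ (words n).filter P, ν w := by gcongr
      _ = ∑ w ∈ (words n).filter P, η ^ 2 * ν w := by rw [Finset.mul_sum]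
      _ ≤ ∑ w ∈ (words n).filter P, ∑ j, (sqSum (q j) ν w L - sqSum (q j) ν w 0) :=
        Finset.sum_le_sum h1
      _ ≤ ∑ w ∈ words n, ∑ j, (sqSum (q j) ν w L - sqSum (q j) ν w 0) := by
        refine Finset.sum_le_sum_of_subset_of_nonneg (Finset.filter_subset _ _) fun w _ _ => ?_
        exact Finset.sum_nonneg fun j _ => by
          have := sqSum_zero_le (hq j) hν (hC j) w L
          linarith
      _ = T (n + L) - T n := by
        rw [Finset.sum_comm, hT]
        simp only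
        rw [← Finset.sum_sub_distrib]
        refine Finset.sum_congr rfl fun j _ => ?_
        rw [Finset.sum_sub_distrib]
        have e1 := sqSum_add (q j) ν [] n L
        have e2 := sqSum_add (q j) ν [] n 0
        simp only [List.nil_append, add_zero] at e1 e2
        rw [e1, e2]
  have h3 : T (n + L) ≤ ⨆ n, T n := le_ciSup hTbdd _
  have h4 : T N ≤ T n := hTmono hn
  have h5 : 0 < η ^ 2 * c := by positivity
  linarith

end Pool.Agent.SierpinskiCarpet
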