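import Pool.Agent.helper33.SCImage
import Pool.Agent.helper33.SCChains
import Pool.Agent.helper33.SCTree

/-!
# The local structure of pairs of functions of finite energy
-/

open MeasureTheory Filter Topology
open scoped ENNReal

namespace Pool.Agent.SierpinskiCarpet

variable {K : Set (ℝ × ℝ)} {hK : IsCarpet K} {A : Set (K → ℝ)} {p ρ : ℝ} {E : (K → ℝ) → ℝ}

/-- The deviation of the energy distribution of `g` from a multiple of that of the pair. -/
noncomputable def dev (hK : IsCarpet K) (ρ : ℝ) (E : (K → ℝ) → ℝ) (u v g : K → ℝ) (k : ℕ) : ℝ :=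
  ∑ x ∈ words k, |ρ ^ k * E (g ∘ cell hK x) -
    E g / (E u + E v) * (ρ ^ k * (E (u ∘ cell hK x) + E (v ∘ cell hK x)))|

/-- The mass of a set of cells. -/
noncomputable def mass (hK : IsCarpet K) (ρ : ℝ) (E : (K → ℝ) → ℝ) (u v : K → ℝ) (k : ℕ)
    (S : Finset (List (Fin 8))) : ℝ :=
  ∑ x ∈ S, ρ ^ k * (E (u ∘ cell hK x) + E (v ∘ cell hK x))

/-- Pairs with a gap whose energy distributions are nearly proportional. -/
structure GapPair (hK : IsCarpet K) (ρ : ℝ) (E : (K → ℝ) → ℝ) (c c₂ η : ℝ) (u v : K → ℝ) : Prop where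
  pos : 0 < E u + E v
  gup : E u + c * (E u + E v) ≤ E (u + v)
  gvp : E v + c * (E u + E v) ≤ E (u + v)
  gum : E u + c * (E u + E v) ≤ E (u - v)
  gvm : E v + c * (E u + E v) ≤ E (u - v)
  lu : c₂ * (E u + E v) ≤ E u
  lv : c₂ * (E u + E v) ≤ E v
  nu : ∀ k, dev hK ρ E u v u k ≤ η * (E u + E v)
  nv : ∀ k, dev hK ρ E u v v k ≤ η * (E u + E v)
  np : ∀ k, dev hK ρ E u v (u + v) k ≤ η * (E u + E v)
  nm : ∀ k, dev hK ρ E u v (u - v) k ≤ η * (E u + E v)

namespace Nice

variable (h : Nice hK p ρ A E)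

include h

theorem tree {g : K → ℝ} (hg : g ∈ A) :
    TreeMeasure fun w => ρ ^ w.length * E (g ∘ cell hK w) := by
  refine ⟨fun w => ?_, fun w k => ?_⟩
  · have := h.rho_pos
    have := h.nonneg _ (h.lat.cell_mem hg w)
    positivity
  · rw [← h.sum_words k _ (h.lat.cell_mem hg w), ← mul_assoc, Finset.mul_sum]
    refine Finset.sum_congr rfl fun x hx => ?_
    rw [List.length_append, mem_words.1 hx, pow_add, cell_append]
    rfl

theorem dev_smul {u v g : K → ℝ} (hu : u ∈ A) (hv : v ∈ A) (hg : g ∈ A) {s : ℝ} (hs : s ≠ 0)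
    (k : ℕ) : dev hK ρ E (s • u) (s • v) (s • g) k = |s| ^ p * dev hK ρ E u v g k := by
  have hsp : 0 < |s| ^ p := by positivity
  rw [dev, dev, Finset.mul_sum]
  refine Finset.sum_congr rfl fun x _ => ?_
  have e : ∀ f ∈ A, E ((s • f) ∘ cell hK x) = |s| ^ p * E (f ∘ cell hK x) := fun f hf => by
    have := h.smul _ (h.lat.cell_mem hf x) s
    rw [← this]
    rfl
  rw [e g hg, e u hu, e v hv, h.smul g hg, h.smul u hu, h.smul v hv, ← mul_add,
    mul_div_mul_left _ _ hsp.ne', ← mul_add]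
  have e2 : ρ ^ k * (|s| ^ p * E (g ∘ cell hK x)) - E g / (E u + E v) *
      (ρ ^ k * (|s| ^ p * (E (u ∘ cell hK x) + E (v ∘ cell hK x)))) =
      |s| ^ p * (ρ ^ k * E (g ∘ cell hK x) - E g / (E u + E v) *
        (ρ ^ k * (E (u ∘ cell hK x) + E (v ∘ cell hK x)))) := by ring
  rw [e2, abs_mul, abs_of_pos hsp]

theorem gapPair_smul {c c₂ η : ℝ} {u v : K → ℝ} (hu : u ∈ A) (hv : v ∈ A)
    (hg : GapPair hK ρ E c c₂ η u v) {s : ℝ} (hs : s ≠ 0) :
    GapPair hK ρ E c c₂ η (s • u) (s • v) := by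
  have hsp : 0 < |s| ^ p := by positivity
  have e1 := h.smul u hu s
  have e2 := h.smul v hv s
  have e3 := h.smul _ (h.lat.add_mem u hu v hv) s
  have e4 := h.smul _ (h.lat.sub_mem hu hv) s
  rw [smul_add] at e3
  rw [smul_sub] at e4
  have d1 := h.dev_smul hu hv hu hs
  have d2 := h.dev_smul hu hv hv hs
  have d3 := h.dev_smul hu hv (h.lat.add_mem u hu v hv) hs
  have d4 := h.dev_smul hu hv (h.lat.sub_mem hu hv) hs
  rw [smul_add] at d3
  rw [smul_sub] at d4
  have aux : ∀ a b : ℝ, a * (|s| ^ p * E u + |s| ^ p * E v) = |s| ^ p * (a * (E u + E v)) :=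
    fun a b => by ring
  refine ⟨?_, ?_, ?_, ?_, ?_, ?_, ?_, fun k => ?_, fun k => ?_, fun k => ?_, fun k => ?_⟩
  · rw [e1, e2, ← mul_add]
    exact mul_pos hsp hg.pos
  · rw [e1, e2, e3, aux c 0, ← mul_add]
    exact mul_le_mul_of_nonneg_left hg.gup hsp.le
  · rw [e1, e2, e3, aux c 0, ← mul_add]
    exact mul_le_mul_of_nonneg_left hg.gvp hsp.le
  · rw [e1, e2, e4, aux c 0, ← mul_add]
    exact mul_le_mul_of_nonneg_left hg.gum hsp.le
  · rw [e1, e2, e4, aux c 0, ← mul_add]
    exact mul_le_mul_of_nonneg_left hg.gvm hsp.le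
  · rw [e1, e2, aux c₂ 0]
    exact mul_le_mul_of_nonneg_left hg.lu hsp.le
  · rw [e1, e2, aux c₂ 0]
    exact mul_le_mul_of_nonneg_left hg.lv hsp.le
  · rw [d1, e1, e2, aux η 0]
    exact mul_le_mul_of_nonneg_left (hg.nu k) hsp.le
  · rw [d2, e1, e2, aux η 0]
    exact mul_le_mul_of_nonneg_left (hg.nv k) hsp.le
  · rw [d3, e1, e2, aux η 0]
    exact mul_le_mul_of_nonneg_left (hg.np k) hsp.le
  · rw [d4, e1, e2, aux η 0]
    exact mul_le_mul_of_nonneg_left (hg.nm k) hsp.le

theorem neg_mem {u : K → ℝ} (hu : u ∈ A) : -u ∈ A := by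
  have := h.lat.smul_mem (-1) u hu
  simpa using this

theorem dev_neg {u v g : K → ℝ} (hv : v ∈ A) (k : ℕ) :
    dev hK ρ E u (-v) g k = dev hK ρ E u v g k := by
  rw [dev, dev]
  refine Finset.sum_congr rfl fun x _ => ?_
  have e : E ((-v) ∘ cell hK x) = E (v ∘ cell hK x) := h.energy_neg (h.lat.cell_mem hv x)
  rw [e, h.energy_neg hv]

theorem dev_neg' {u v g : K → ℝ} (hg : g ∈ A) (k : ℕ) :
    dev hK ρ E u v (-g) k = dev hK ρ E u v g k := by
  rw [dev, dev]
  refine Finset.sum_congr rfl fun x _ => ?_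
  have e : E ((-g) ∘ cell hK x) = E (g ∘ cell hK x) := h.energy_neg (h.lat.cell_mem hg x)
  rw [e, h.energy_neg hg]

theorem mass_neg {u v : K → ℝ} (hv : v ∈ A) (k : ℕ) (S : Finset (List (Fin 8))) :
    mass hK ρ E u (-v) k S = mass hK ρ E u v k S := by
  rw [mass, mass]
  refine Finset.sum_congr rfl fun x _ => ?_
  have e : E ((-v) ∘ cell hK x) = E (v ∘ cell hK x) := h.energy_neg (h.lat.cell_mem hv x)
  rw [e]

theorem gapPair_neg {c c₂ η : ℝ} {u v : K → ℝ} (hv : v ∈ A)
    (hg : GapPair hK ρ E c c₂ η u v) : GapPair hK ρ E c c₂ η u (-v) := by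
  have e1 := h.energy_neg hv
  refine ⟨?_, ?_, ?_, ?_, ?_, ?_, ?_, fun k => ?_, fun k => ?_, fun k => ?_, fun k => ?_⟩
  · rw [e1]; exact hg.pos
  · rw [e1, ← sub_eq_add_neg]; exact hg.gum
  · rw [e1, ← sub_eq_add_neg]; exact hg.gvm
  · rw [e1, sub_neg_eq_add]; exact hg.gup
  · rw [e1, sub_neg_eq_add]; exact hg.gvp
  · rw [e1]; exact hg.lu
  · rw [e1]; exact hg.lv
  · rw [h.dev_neg hv, e1]; exact hg.nu k
  · rw [h.dev_neg hv, h.dev_neg' hv, e1]; exact hg.nv k
  · rw [h.dev_neg hv, ← sub_eq_add_neg, e1]; exact hg.nm k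
  · rw [h.dev_neg hv, sub_neg_eq_add, e1]; exact hg.np k

theorem mass_words {u v : K → ℝ} (hu : u ∈ A) (hv : v ∈ A) (k : ℕ) :
    mass hK ρ E u v k (words k) = E u + E v := by
  rw [mass, ← Finset.mul_sum, Finset.sum_add_distrib, mul_add, h.sum_words k u hu,
    h.sum_words k v hv]

theorem mass_term_nonneg {u v : K → ℝ} (hu : u ∈ A) (hv : v ∈ A) (k : ℕ) (x : List (Fin 8)) :
    0 ≤ ρ ^ k * (E (u ∘ cell hK x) + E (v ∘ cell hK x)) := by
  have := h.rho_pos
  have := h.nonneg _ (h.lat.cell_mem hu x)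
  have := h.nonneg _ (h.lat.cell_mem hv x)
  positivity

/-- The key estimate on one side. -/
theorem one_sided {c c₂ η CL : ℝ} (hc : 0 ≤ c) (hCL0 : 0 ≤ CL)
    (hCL : ∀ ψ : ℝ → ℝ → ℝ, (∀ a b a' b', |ψ a b - ψ a' b'| ≤ 2 * (|a - a'| + |b - b'|)) →
      ∀ u ∈ A, ∀ v ∈ A, (fun x => ψ (u x) (v x)) ∈ A ∧ E (fun x => ψ (u x) (v x)) ≤ CL * (E u + E v))
    {u v : K → ℝ} (hu : u ∈ A) (hv : v ∈ A) (hg : GapPair hK ρ E c c₂ η u v)
    {G : Finset (ℤ × ℤ)} {φ : ℝ → ℝ → ℝ}
    (hφL : ∀ a b a' b', |φ a b - φ a' b'| ≤ |a - a'| + |b - b'|)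
    (hφ : ∀ (T : Type) (x y : T → ℝ), ¬CrossesFn x → ¬CrossesFn y →
      ¬CrossesFn (fun t => x t - y t) →
        (∃ c : ℤ, (∀ t, φ (x t) (y t) = c) ∨ (∀ t, φ (x t) (y t) = x t + c) ∨
          ∀ t, φ (x t) (y t) = y t + c) ∧
        ((∃ t, (⌊x t⌋, ⌊y t⌋) ∈ G) →
          ∃ c : ℤ, (∀ t, φ (x t) (y t) = x t + c) ∨ ∀ t, φ (x t) (y t) = y t + c))
    {k : ℕ} {B S : Finset (List (Fin 8))} (hB : B ⊆ words k) (hS : S ⊆ words k)
    (hBS : ∀ x ∈ S, x ∉ B)
    (hBc : ∀ x ∈ words k, x ∉ B → ¬Crosses hK u x ∧ ¬Crosses hK v x ∧ ¬Crosses hK (u - v) x)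
    (hSG : ∀ x ∈ S, ∃ z, (⌊u (cell hK x z)⌋, ⌊v (cell hK x z)⌋) ∈ G) :
    (fun x => u x + v x - φ (u x) (v x)) ∈ A ∧
    E (fun x => u x + v x - φ (u x) (v x)) ≤
      E (u + v) + 3 * (η * (E u + E v)) + CL * mass hK ρ E u v k B - c * mass hK ρ E u v k S := by
  classical
  have hρ := h.rho_pos
  set f : K → ℝ := fun x => u x + v x - φ (u x) (v x) with hf
  have hψ := hCL (fun a b => a + b - φ a b) (fun a b a' b' => by
    have h1 := hφL a b a' b'
    have h2 : a + b - φ a b - (a' + b' - φ a' b') = (a - a') + (b - b') - (φ a b - φ a' b') := by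
      ring
    rw [h2]
    refine (abs_sub _ _).trans ?_
    have := abs_add_le (a - a') (b - b')
    linarith)
  have hfA : f ∈ A := (hψ u hu v hv).1
  refine ⟨hfA, ?_⟩
  set ν := E u + E v with hν
  have hν0 : 0 < ν := hg.pos
  set m : List (Fin 8) → ℝ := fun x => ρ ^ k * (E (u ∘ cell hK x) + E (v ∘ cell hK x)) with hm
  have hm0 : ∀ x, 0 ≤ m x := fun x => h.mass_term_nonneg hu hv k x
  set d : (K → ℝ) → List (Fin 8) → ℝ := fun g x =>
    |ρ ^ k * E (g ∘ cell hK x) - E g / ν * m x| with hd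
  have hdle : ∀ g x, ρ ^ k * E (g ∘ cell hK x) ≤ E g / ν * m x + d g x := fun g x => by
    have := le_abs_self (ρ ^ k * E (g ∘ cell hK x) - E g / ν * m x)
    simp only [hd]
    linarith
  have hd0 : ∀ g x, 0 ≤ d g x := fun g x => abs_nonneg _
  have huv := h.lat.add_mem u hu v hv
  have hEuv : 0 ≤ E (u + v) / ν := div_nonneg (h.nonneg _ huv) hν0.le
  have hu1 : E u / ν ≤ E (u + v) / ν - c := by
    rw [le_sub_iff_add_le, ← div_add_div_same_aux hν0.ne' (E u) c]
    gcongr
    exact hg.gup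
  have hv1 : E v / ν ≤ E (u + v) / ν - c := by
    rw [le_sub_iff_add_le, ← div_add_div_same_aux hν0.ne' (E v) c]
    gcongr
    exact hg.gvp
  have key : ∀ x ∈ words k, ρ ^ k * E (f ∘ cell hK x) ≤
      E (u + v) / ν * m x + (d u x + d v x + d (u + v) x) + (if x ∈ B then CL * m x else 0) -
        (if x ∈ S then c * m x else 0) := by
    intro x hx
    by_cases hxB : x ∈ B
    · have hxS : x ∉ S := fun hh => hBS x hh hxB
      rw [if_pos hxB, if_neg hxS]
      have h1 := (hCL (fun a b => a + b - φ a b) (fun a b a' b' => by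
        have h1 := hφL a b a' b'
        have h2 : a + b - φ a b - (a' + b' - φ a' b') =
            (a - a') + (b - b') - (φ a b - φ a' b') := by
          ring
        rw [h2]
        refine (abs_sub _ _).trans ?_
        have := abs_add_le (a - a') (b - b')
        linarith) _ (h.lat.cell_mem hu x) _ (h.lat.cell_mem hv x)).2
      have h2 : ρ ^ k * E (f ∘ cell hK x) ≤ CL * m x := by
        calc ρ ^ k * E (f ∘ cell hK x) ≤
            ρ ^ k * (CL * (E (u ∘ cell hK x) + E (v ∘ cell hK x))) := by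
              gcongr
              exact h1
          _ = CL * m x := by simp only [hm]; ring
      have h3 : 0 ≤ E (u + v) / ν * m x := mul_nonneg hEuv (hm0 x)
      have h4 := hd0 u x
      have h5 := hd0 v x
      have h6 := hd0 (u + v) x
      linarith
    · rw [if_neg hxB]
      obtain ⟨c1, c2, c3⟩ := hBc x hx hxB
      have hpiece := hφ K (fun z => u (cell hK x z)) (fun z => v (cell hK x z)) c1 c2 c3
      -- the energies in the three cases
      have E1 : ∀ a : ℝ, (∀ z, φ (u (cell hK x z)) (v (cell hK x z)) = a) →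
          E (f ∘ cell hK x) = E ((u + v) ∘ cell hK x) := fun a ha => by
        rw [← h.add_const _ (h.lat.cell_mem huv x) (-a)]
        congr 1
        funext z
        simp only [hf, Function.comp_apply, ha z, Pi.add_apply]
        ring
      have E2 : ∀ a : ℝ, (∀ z, φ (u (cell hK x z)) (v (cell hK x z)) = u (cell hK x z) + a) →
          E (f ∘ cell hK x) = E (v ∘ cell hK x) := fun a ha => by
        rw [← h.add_const _ (h.lat.cell_mem hv x) (-a)]
        congr 1
        funext z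
        simp only [hf, Function.comp_apply, ha z]
        ring
      have E3 : ∀ a : ℝ, (∀ z, φ (u (cell hK x z)) (v (cell hK x z)) = v (cell hK x z) + a) →
          E (f ∘ cell hK x) = E (u ∘ cell hK x) := fun a ha => by
        rw [← h.add_const _ (h.lat.cell_mem hu x) (-a)]
        congr 1
        funext z
        simp only [hf, Function.comp_apply, ha z]
        ring
      have b1 := hdle u x
      have b2 := hdle v x
      have b3 := hdle (u + v) x
      have b4 := hd0 u x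
      have b5 := hd0 v x
      have b6 := hd0 (u + v) x
      have b7 : E u / ν * m x ≤ (E (u + v) / ν - c) * m x := by
        have := hm0 x
        gcongr
      have b8 : E v / ν * m x ≤ (E (u + v) / ν - c) * m x := by
        have := hm0 x
        gcongr
      have b9 : 0 ≤ c * m x := mul_nonneg hc (hm0 x)
      rw [sub_mul] at b7 b8
      by_cases hxS : x ∈ S
      · rw [if_pos hxS]
        obtain ⟨a, ha | ha⟩ := hpiece.2 (hSG x hxS)
        · rw [E2 a ha]
          linarith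
        · rw [E3 a ha]
          linarith
      · rw [if_neg hxS]
        obtain ⟨a, ha | ha | ha⟩ := hpiece.1
        · rw [E1 a ha]
          linarith
        · rw [E2 a ha]
          linarith
        · rw [E3 a ha]
          linarith
  calc E f = ∑ x ∈ words k, ρ ^ k * E (f ∘ cell hK x) := by
        rw [← Finset.mul_sum, h.sum_words k f hfA]
    _ ≤ ∑ x ∈ words k, (E (u + v) / ν * m x + (d u x + d v x + d (u + v) x) +
          (if x ∈ B then CL * m x else 0) - (if x ∈ S then c * m x else 0)) :=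
        Finset.sum_le_sum key
    _ = E (u + v) / ν * mass hK ρ E u v k (words k) +
          (dev hK ρ E u v u k + dev hK ρ E u v v k + dev hK ρ E u v (u + v) k) +
          CL * mass hK ρ E u v k B - c * mass hK ρ E u v k S := by
        rw [Finset.sum_sub_distrib, Finset.sum_add_distrib, Finset.sum_add_distrib,
          Finset.sum_add_distrib, Finset.sum_add_distrib, Finset.sum_ite_mem,
          Finset.sum_ite_mem, Finset.inter_eq_right.2 hB, Finset.inter_eq_right.2 hS]
        have s1 : ∑ x ∈ words k, E (u + v) / ν * m x =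
            E (u + v) / ν * mass hK ρ E u v k (words k) := by rw [mass, Finset.mul_sum]
        have s2 : ∑ x ∈ B, CL * m x = CL * mass hK ρ E u v k B := by rw [mass, Finset.mul_sum]
        have s3 : ∑ x ∈ S, c * m x = c * mass hK ρ E u v k S := by rw [mass, Finset.mul_sum]
        rw [s1, s2, s3]
        rfl
    _ ≤ _ := by
        rw [h.mass_words hu hv]
        have h1 := hg.nu k
        have h2 := hg.nv k
        have h3 := hg.np k
        rw [← hν] at h1 h2 h3
        have h4 : E (u + v) / ν * (E u + E v) = E (u + v) := by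
          rw [← hν]
          field_simp
        rw [h4]
        linarith
where
  div_add_div_same_aux {ν : ℝ} (hν : ν ≠ 0) (a c : ℝ) : (a + c * ν) / ν = a / ν + c := by
    field_simp

end Nice

end Pool.Agent.SierpinskiCarpet
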