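import Pool.Agent.helper33.SCGap

/-!
# Pairs with a gap do not exist
-/

open MeasureTheory Filter Topology
open scoped ENNReal

namespace Pool.Agent.SierpinskiCarpet

variable {K : Set (ℝ × ℝ)} {hK : IsCarpet K} {A : Set (K → ℝ)} {p ρ : ℝ} {E : (K → ℝ) → ℝ}

theorem crosses_neg {v : K → ℝ} {x : List (Fin 8)} (hv : Crosses hK (-v) x) : Crosses hK v x := by
  obtain ⟨j, ⟨z, hz⟩, ⟨z', hz'⟩⟩ := hv
  simp only [Pi.neg_apply] at hz hz'
  refine ⟨-j, ⟨z', ?_⟩, ⟨z, ?_⟩⟩
  · push_cast
    linarith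
  · push_cast
    linarith

namespace Nice

variable (h : Nice hK p ρ A E)

include h

/-- The cells which cross an integer level carry little mass. -/
theorem mass_crosses_le {c₂ η : ℝ} (hc₂ : 0 < c₂) {u v g : K → ℝ} (hu : u ∈ A) (hv : v ∈ A)
    (hg : g ∈ A) (hν : 0 < E u + E v) (hlow : c₂ * (E u + E v) ≤ E g)
    (hdev : ∀ k, dev hK ρ E u v g k ≤ η * (E u + E v)) {κ : ℝ} (hκ : 0 < κ) :
    ∃ k₀, ∀ k ≥ k₀, ∀ B ⊆ words k, (∀ x ∈ B, Crosses hK g x) →
      mass hK ρ E u v k B ≤ (κ + η * (E u + E v)) / c₂ := by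
  have hρ := h.rho_pos
  obtain ⟨k₀, hk₀⟩ := h.sum_crosses hg hκ
  refine ⟨k₀, fun k hk B hB hcr => ?_⟩
  have h1 := hk₀ k hk B hB hcr
  have h2 := hdev k
  set ν := E u + E v with hνdef
  have h3 : ∑ x ∈ B, |ρ ^ k * E (g ∘ cell hK x) -
      E g / ν * (ρ ^ k * (E (u ∘ cell hK x) + E (v ∘ cell hK x)))| ≤ η * ν := by
    refine le_trans ?_ h2
    exact Finset.sum_le_sum_of_subset_of_nonneg hB fun x _ _ => abs_nonneg _
  have h4 : c₂ ≤ E g / ν := by
    rw [le_div_iff₀ hν]
    exact hlow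
  have h5 : E g / ν * mass hK ρ E u v k B ≤ κ + η * ν := by
    rw [mass, Finset.mul_sum]
    rw [Finset.mul_sum] at h1
    calc ∑ x ∈ B, E g / ν * (ρ ^ k * (E (u ∘ cell hK x) + E (v ∘ cell hK x)))
        ≤ ∑ x ∈ B, (ρ ^ k * E (g ∘ cell hK x) + |ρ ^ k * E (g ∘ cell hK x) -
            E g / ν * (ρ ^ k * (E (u ∘ cell hK x) + E (v ∘ cell hK x)))|) := by
          refine Finset.sum_le_sum fun x _ => ?_
          have := neg_abs_le (ρ ^ k * E (g ∘ cell hK x) -
            E g / ν * (ρ ^ k * (E (u ∘ cell hK x) + E (v ∘ cell hK x))))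
          linarith
      _ ≤ κ + η * ν := by
          rw [Finset.sum_add_distrib]
          linarith
  have h6 : 0 ≤ mass hK ρ E u v k B :=
    Finset.sum_nonneg fun x _ => h.mass_term_nonneg hu hv k x
  rw [le_div_iff₀ hc₂]
  calc mass hK ρ E u v k B * c₂ ≤ mass hK ρ E u v k B * (E g / ν) := by gcongr
    _ = E g / ν * mass hK ρ E u v k B := mul_comm _ _
    _ ≤ _ := h5

theorem mass_union_le {u v : K → ℝ} (hu : u ∈ A) (hv : v ∈ A) (k : ℕ)
    (S T : Finset (List (Fin 8))) [DecidableEq (List (Fin 8))] :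
    mass hK ρ E u v k (S ∪ T) ≤ mass hK ρ E u v k S + mass hK ρ E u v k T := by
  have h1 := Finset.sum_union_inter (s₁ := S) (s₂ := T)
    (f := fun x => ρ ^ k * (E (u ∘ cell hK x) + E (v ∘ cell hK x)))
  have h2 : 0 ≤ ∑ x ∈ S ∩ T, ρ ^ k * (E (u ∘ cell hK x) + E (v ∘ cell hK x)) :=
    Finset.sum_nonneg fun x _ => h.mass_term_nonneg hu hv k x
  unfold mass
  linarith

theorem mass_mono {u v : K → ℝ} (hu : u ∈ A) (hv : v ∈ A) (k : ℕ)
    {S T : Finset (List (Fin 8))} (hST : S ⊆ T) :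
    mass hK ρ E u v k S ≤ mass hK ρ E u v k T :=
  Finset.sum_le_sum_of_subset_of_nonneg hST fun x _ _ => h.mass_term_nonneg hu hv k x

open Classical in
/-- There are no pairs with a gap whose energy distributions are nearly proportional. -/
theorem no_gapPair {c c₂ : ℝ} (hc : 0 < c) (hc₂ : 0 < c₂) (hcc : c₂ ≤ c) :
    ∃ η : ℝ, 0 < η ∧ ∀ u ∈ A, ∀ v ∈ A, ¬GapPair hK ρ E c c₂ η u v := by
  have hρ := h.rho_pos
  have hp := h.p_pos
  obtain ⟨CL, hCL0, hCL⟩ := h.lipschitz_comp 2 (by norm_num)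
  set D : ℝ := 3 + 8 * CL / c₂ with hD
  have hD0 : 0 < D := by positivity
  set η : ℝ := min (c₂ / 24) (c / (6 * D)) with hη
  have hη0 : 0 < η := by positivity
  have hη1 : 8 * η / c₂ ≤ 1 / 3 := by
    rw [div_le_iff₀ hc₂]
    have := min_le_left (c₂ / 24) (c / (6 * D))
    rw [← hη] at this
    linarith
  have hη2 : D * η ≤ c / 6 := by
    have := min_le_right (c₂ / 24) (c / (6 * D))
    rw [← hη] at this
    calc D * η ≤ D * (c / (6 * D)) := by gcongr
      _ = c / 6 := by field_simp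
  refine ⟨η, hη0, fun u hu v hv hg => ?_⟩
  have hν : 0 < E u + E v := hg.pos
  set ν := E u + E v with hνdef
  have huvp := h.lat.add_mem u hu v hv
  have huvm := h.lat.sub_mem hu hv
  -- small perturbations which decrease the energy
  have claim : ∀ ε > 0, (∃ ψ ∈ A, (∀ x, |ψ x| ≤ ε) ∧ E (u + v - ψ) ≤ E (u + v) - c / 6 * ν) ∨
      ∃ ψ ∈ A, (∀ x, |ψ x| ≤ ε) ∧ E (u - v - ψ) ≤ E (u - v) - c / 6 * ν := by
    intro ε hε
    set ε' := ε / 6 with hε'
    have hε'0 : 0 < ε' := by positivity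
    obtain ⟨δ₀, hδ₀, hgrid⟩ := h.exists_grid hu hv (show 0 < ε' ^ 2 by positivity)
    set δ := min δ₀ ε' with hδ
    have hδ0 : 0 < δ := lt_min hδ₀ hε'0
    have hδε : δ ≤ ε' := min_le_right _ _
    obtain ⟨G, hG, hGc⟩ := hgrid δ hδ0 (min_le_left _ _)
    set M := ⌈ε' / δ⌉₊ with hM
    have hM0 : 0 < M := Nat.ceil_pos.2 (by positivity)
    have hM1 : ε' / δ ≤ M := Nat.le_ceil _
    have hM2 : (M : ℝ) < ε' / δ + 1 := Nat.ceil_lt_add_one (by positivity)
    have hMδ : δ * (3 * (M : ℝ)) ≤ ε := by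
      have : δ * (M : ℝ) ≤ δ * (ε' / δ + 1) := by gcongr
      have e : δ * (ε' / δ + 1) = ε' + δ := by field_simp
      rw [e] at this
      have : ε = 6 * ε' := by rw [hε']; ring
      linarith
    have hcardδ : δ * (3 * ((G.card / M + 1 : ℕ) : ℝ)) ≤ ε := by
      have h1 : ((G.card / M : ℕ) : ℝ) ≤ (G.card : ℝ) / M := Nat.cast_div_le
      have h2 : (G.card : ℝ) / M * δ ≤ ε' := by
        have hMp : (0 : ℝ) < M := by positivity
        rw [div_mul_eq_mul_div, div_le_iff₀ hMp]
        have h3 : (G.card : ℝ) * δ * δ ≤ ε' * ε' := by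
          calc (G.card : ℝ) * δ * δ = (G.card : ℝ) * δ ^ 2 := by ring
            _ ≤ ε' ^ 2 := hGc
            _ = ε' * ε' := by ring
        have h4 : ε' ≤ M * δ := by
          rwa [div_le_iff₀ hδ0] at hM1
        have h5 : (G.card : ℝ) * δ * δ ≤ (ε' * M) * δ := by
          calc (G.card : ℝ) * δ * δ ≤ ε' * ε' := h3
            _ ≤ ε' * (M * δ) := by gcongr
            _ = (ε' * M) * δ := by ring
        exact le_of_mul_le_mul_right h5 hδ0
      push_cast
      have : ε = 6 * ε' := by rw [hε']; ring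
      nlinarith
    obtain ⟨G₁, G₂, h₁, h₂, hcov, hh₁, hh₂, hr₁, hr₂⟩ := exists_heights M hM0 G
    -- the rescaled pair
    set s : ℝ := δ⁻¹ with hs
    have hs0 : 0 < s := inv_pos.2 hδ0
    set u' := s • u with hu'
    set v' := s • v with hv'
    have hu'A : u' ∈ A := h.lat.smul_mem s u hu
    have hv'A : v' ∈ A := h.lat.smul_mem s v hv
    have hg' : GapPair hK ρ E c c₂ η u' v' := h.gapPair_smul hu hv hg hs0.ne'
    have hsp : 0 < |s| ^ p := by positivity
    have hν' : E u' + E v' = |s| ^ p * ν := by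
      rw [hu', hv', h.smul u hu, h.smul v hv]
      ring
    set ν' := E u' + E v' with hν'def
    have hν'0 : 0 < ν' := hg'.pos
    have hp'A := h.lat.add_mem u' hu'A v' hv'A
    have hm'A := h.lat.sub_mem hu'A hv'A
    -- the bad cells
    have hκ : 0 < η * ν' := by positivity
    obtain ⟨k₁, hk₁⟩ := h.mass_crosses_le hc₂ hu'A hv'A hu'A hν'0 hg'.lu hg'.nu hκ
    obtain ⟨k₂, hk₂⟩ := h.mass_crosses_le hc₂ hu'A hv'A hv'A hν'0 hg'.lv hg'.nv hκ
    obtain ⟨k₃, hk₃⟩ := h.mass_crosses_le hc₂ hu'A hv'A hp'A hν'0 (by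
      have h1 := hg'.gup
      have h2 := h.nonneg u' hu'A
      have h3 : c₂ * ν' ≤ c * ν' := by gcongr
      rw [← hν'def] at h1
      linarith) hg'.np hκ
    obtain ⟨k₄, hk₄⟩ := h.mass_crosses_le hc₂ hu'A hv'A hm'A hν'0 (by
      have h1 := hg'.gum
      have h2 := h.nonneg u' hu'A
      have h3 : c₂ * ν' ≤ c * ν' := by gcongr
      rw [← hν'def] at h1
      linarith) hg'.nm hκ
    set k := max (max k₁ k₂) (max k₃ k₄) with hk
    set B₁ := (words k).filter (Crosses hK u') with hB₁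
    set B₂ := (words k).filter (Crosses hK v') with hB₂
    set B₃ := (words k).filter (Crosses hK (u' + v')) with hB₃
    set B₄ := (words k).filter (Crosses hK (u' - v')) with hB₄
    have m₁ := hk₁ k ((le_max_left _ _).trans (le_max_left _ _)) B₁ (Finset.filter_subset _ _)
      (fun x hx => (Finset.mem_filter.1 hx).2)
    have m₂ := hk₂ k ((le_max_right _ _).trans (le_max_left _ _)) B₂ (Finset.filter_subset _ _)
      (fun x hx => (Finset.mem_filter.1 hx).2)
    have m₃ := hk₃ k ((le_max_left _ _).trans (le_max_right _ _)) B₃ (Finset.filter_subset _ _)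
      (fun x hx => (Finset.mem_filter.1 hx).2)
    have m₄ := hk₄ k ((le_max_right _ _).trans (le_max_right _ _)) B₄ (Finset.filter_subset _ _)
      (fun x hx => (Finset.mem_filter.1 hx).2)
    set B := (B₁ ∪ B₂) ∪ (B₃ ∪ B₄) with hB
    have hBsub : B ⊆ words k := by
      refine Finset.union_subset (Finset.union_subset ?_ ?_) (Finset.union_subset ?_ ?_) <;>
        exact Finset.filter_subset _ _
    have hBmass : mass hK ρ E u' v' k B ≤ 8 * η / c₂ * ν' := by
      have a1 := h.mass_union_le hu'A hv'A k (B₁ ∪ B₂) (B₃ ∪ B₄)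
      have a2 := h.mass_union_le hu'A hv'A k B₁ B₂
      have a3 := h.mass_union_le hu'A hv'A k B₃ B₄
      have a4 : (η * ν' + η * ν') / c₂ + (η * ν' + η * ν') / c₂ + ((η * ν' + η * ν') / c₂ +
          (η * ν' + η * ν') / c₂) = 8 * η / c₂ * ν' := by ring
      rw [hB, ← a4]
      linarith
    have hnotB : ∀ x ∈ words k, x ∉ B → ¬Crosses hK u' x ∧ ¬Crosses hK v' x ∧
        ¬Crosses hK (u' + v') x ∧ ¬Crosses hK (u' - v') x := by
      intro x hx hxB
      refine ⟨fun hh => hxB ?_, fun hh => hxB ?_, fun hh => hxB ?_, fun hh => hxB ?_⟩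
      · exact Finset.mem_union_left _ (Finset.mem_union_left _ (Finset.mem_filter.2 ⟨hx, hh⟩))
      · exact Finset.mem_union_left _ (Finset.mem_union_right _ (Finset.mem_filter.2 ⟨hx, hh⟩))
      · exact Finset.mem_union_right _ (Finset.mem_union_left _ (Finset.mem_filter.2 ⟨hx, hh⟩))
      · exact Finset.mem_union_right _ (Finset.mem_union_right _ (Finset.mem_filter.2 ⟨hx, hh⟩))
    -- the good cells of the two kinds
    set S₁ := (words k).filter (fun x => x ∉ B ∧
      ∃ z, (⌊u' (cell hK x z)⌋, ⌊v' (cell hK x z)⌋) ∈ G₁) with hS₁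
    set S₂ := (words k).filter (fun x => x ∉ B ∧
      ∃ z, (⌊u' (cell hK x z)⌋, ⌊v' (cell hK x z)⌋) ∈ G₂) with hS₂
    have hcover : words k ⊆ B ∪ (S₁ ∪ S₂) := by
      intro x hx
      by_cases hxB : x ∈ B
      · exact Finset.mem_union_left _ hxB
      · refine Finset.mem_union_right _ ?_
        have hz := hG (cell hK x (corner hK (false, false)))
        have e1 : ∀ (f : K → ℝ) z, (s • f) z = f z / δ := fun f z => by
          rw [Pi.smul_apply, smul_eq_mul, hs, inv_mul_eq_div]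
        rw [← e1 u, ← e1 v] at hz
        rcases hcov _ hz with h1 | h1
        · exact Finset.mem_union_left _ (Finset.mem_filter.2 ⟨hx, hxB, _, h1⟩)
        · exact Finset.mem_union_right _ (Finset.mem_filter.2 ⟨hx, hxB, _, h1⟩)
    have hmass : ν' ≤ 1 / 3 * ν' + (mass hK ρ E u' v' k S₁ + mass hK ρ E u' v' k S₂) := by
      have a1 := h.mass_mono hu'A hv'A k hcover
      rw [h.mass_words hu'A hv'A] at a1
      have a2 := h.mass_union_le hu'A hv'A k B (S₁ ∪ S₂)
      have a3 := h.mass_union_le hu'A hv'A k S₁ S₂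
      have a4 : 8 * η / c₂ * ν' ≤ 1 / 3 * ν' := by gcongr
      linarith
    have hDη : 3 * (η * ν') + CL * mass hK ρ E u' v' k B ≤ c / 6 * ν' := by
      calc 3 * (η * ν') + CL * mass hK ρ E u' v' k B
          ≤ 3 * (η * ν') + CL * (8 * η / c₂ * ν') := by gcongr
        _ = (D * η) * ν' := by rw [hD]; ring
        _ ≤ c / 6 * ν' := by gcongr
    have back : ∀ (f g : K → ℝ), f ∈ A → g ∈ A → E (s • f - g) ≤ E (s • f) - c / 6 * ν' →
        E (f - δ • g) ≤ E f - c / 6 * ν := by
      intro f g hf hgA hfg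
      have e1 : s • (f - δ • g) = s • f - g := by
        rw [smul_sub, smul_smul, hs, inv_mul_cancel₀ hδ0.ne', one_smul]
      have e2 := h.smul _ (h.lat.sub_mem hf (h.lat.smul_mem δ g hgA)) s
      rw [e1] at e2
      rw [e2, h.smul f hf s, hν'] at hfg
      have e3 : |s| ^ p * E (f - δ • g) ≤ |s| ^ p * (E f - c / 6 * ν) := by linarith
      exact le_of_mul_le_mul_left e3 hsp
    rcases le_total (1 / 3 * ν') (mass hK ρ E u' v' k S₂) with hcase | hcase
    · -- north-east
      left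
      obtain ⟨φ, φ0, φM, φL, φP⟩ := exists_stairs' G₂ h₂ M hh₂ hr₂
      have hos := h.one_sided hc.le hCL0.le hCL hu'A hv'A hg' φL φP hBsub
        (S := S₂) (Finset.filter_subset _ _) (fun x hx => (Finset.mem_filter.1 hx).2.1)
        (fun x hx hxB => ⟨(hnotB x hx hxB).1, (hnotB x hx hxB).2.1, (hnotB x hx hxB).2.2.2⟩)
        (fun x hx => (Finset.mem_filter.1 hx).2.2)
      have hψA : (fun x => φ (u' x) (v' x)) ∈ A := (hCL (fun a b => φ a b) (fun a b a' b' => by
        have := φL a b a' b'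
        have := abs_nonneg (a - a')
        have := abs_nonneg (b - b')
        linarith) u' hu'A v' hv'A).1
      refine ⟨δ • fun x => φ (u' x) (v' x), h.lat.smul_mem _ _ hψA, fun x => ?_, ?_⟩
      · simp only [Pi.smul_apply, smul_eq_mul]
        rw [abs_of_nonneg (mul_nonneg hδ0.le (φ0 _ _))]
        refine le_trans ?_ hMδ
        gcongr
        exact φM _ _
      · refine back _ _ huvp hψA ?_
        have e1 : s • (u + v) - (fun x => φ (u' x) (v' x)) =
            fun x => u' x + v' x - φ (u' x) (v' x) := by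
          funext x
          simp only [Pi.sub_apply, Pi.smul_apply, Pi.add_apply, smul_eq_mul, hu', hv']
          ring
        rw [e1, smul_add]
        have e2 := hos.2
        rw [← hν'def] at e2
        have e3 : c * (1 / 3 * ν') ≤ c * mass hK ρ E u' v' k S₂ := by gcongr
        linarith
    · -- south-east
      right
      have hS1 : 1 / 3 * ν' ≤ mass hK ρ E u' v' k S₁ := by linarith
      have hg'' : GapPair hK ρ E c c₂ η u' (-v') := h.gapPair_neg hv'A hg'
      have hnv'A : -v' ∈ A := h.neg_mem hv'A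
      set G₁' := G₁.image (fun a : ℤ × ℤ => (a.1, -a.2 - 1)) with hG₁'
      set h₁' : ℤ × ℤ → ℕ := fun a => h₁ (a.1, -a.2 - 1) with hh₁'
      have hinv : ∀ a ∈ G₁', (a.1, -a.2 - 1) ∈ G₁ := by
        intro a ha
        obtain ⟨b, hb, rfl⟩ := Finset.mem_image.1 ha
        have : ((b.1, -b.2 - 1).1, -(b.1, -b.2 - 1).2 - 1) = b := Prod.ext rfl (by simp)
        rw [this]
        exact hb
      obtain ⟨φ, φ0, φM, φL, φP⟩ := exists_stairs' G₁' h₁' (G.card / M + 1)
        (fun a ha => hh₁ _ (hinv a ha)) (fun a ha b hb hab => hr₁ _ (hinv a ha) _ (hinv b hb)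
          ⟨hab.1, by have := hab.2; simp only; linarith⟩)
      have hos := h.one_sided hc.le hCL0.le hCL hu'A hnv'A hg'' φL φP hBsub
        (S := S₁) (Finset.filter_subset _ _) (fun x hx => (Finset.mem_filter.1 hx).2.1)
        (fun x hx hxB => ⟨(hnotB x hx hxB).1, fun hh => (hnotB x hx hxB).2.1 (crosses_neg hh),
          by rw [sub_neg_eq_add]; exact (hnotB x hx hxB).2.2.1⟩)
        (fun x hx => by
          obtain ⟨hxw, hxB, z, hz⟩ := Finset.mem_filter.1 hx
          refine ⟨z, Finset.mem_image.2 ⟨_, hz, ?_⟩⟩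
          refine Prod.ext rfl ?_
          simp only [Pi.neg_apply]
          have hnc := (hnotB x hxw hxB).2.1
          have b1 := Int.floor_le (v' (cell hK x z))
          have b2 := Int.lt_floor_add_one (v' (cell hK x z))
          symm
          rw [Int.floor_eq_iff]
          push_cast
          have b3 : (⌊v' (cell hK x z)⌋ : ℝ) < v' (cell hK x z) := by
            rcases b1.lt_or_eq with b3 | b3
            · exact b3
            · exact absurd ⟨⌊v' (cell hK x z)⌋, ⟨z, b3.ge⟩, ⟨z, b3.le⟩⟩ hnc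
          constructor <;> linarith)
      have hψA : (fun x => φ (u' x) ((-v') x)) ∈ A :=
        (hCL (fun a b => φ a b) (fun a b a' b' => by
        have := φL a b a' b'
        have := abs_nonneg (a - a')
        have := abs_nonneg (b - b')
        linarith) u' hu'A (-v') hnv'A).1
      refine ⟨δ • fun x => φ (u' x) ((-v') x), h.lat.smul_mem _ _ hψA, fun x => ?_, ?_⟩
      · simp only [Pi.smul_apply, smul_eq_mul]
        rw [abs_of_nonneg (mul_nonneg hδ0.le (φ0 _ _))]
        refine le_trans ?_ hcardδ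
        gcongr
        exact φM _ _
      · refine back _ _ huvm hψA ?_
        have e1 : s • (u - v) - (fun x => φ (u' x) ((-v') x)) =
            fun x => u' x + (-v') x - φ (u' x) ((-v') x) := by
          funext x
          simp only [Pi.sub_apply, Pi.smul_apply, smul_eq_mul, hu', hv', Pi.neg_apply]
          ring
        rw [e1, smul_sub]
        have e2 := hos.2
        rw [h.mass_neg hv'A, h.mass_neg hv'A, h.energy_neg hv'A, ← hν'def, ← sub_eq_add_neg] at e2
        have e3 : c * (1 / 3 * ν') ≤ c * mass hK ρ E u' v' k S₁ := by gcongr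
        linarith
  -- conclusion by lower semicontinuity
  have final : ∀ f ∈ A, ¬∀ ε > 0, ∃ ψ ∈ A, (∀ x, |ψ x| ≤ ε) ∧ E (f - ψ) ≤ E f - c / 6 * ν := by
    intro f hf hall
    choose ψ hψA hψε hψE using fun n : ℕ => hall (1 / (n + 1)) (by positivity)
    have h1 := (h.lsc (u := fun n => f - ψ n) (fun n => h.lat.sub_mem hf (hψA n)) hψE (v := f)
      (fun ε hε => by
        have hlim : Tendsto (fun n : ℕ => (1 : ℝ) / (n + 1)) atTop (𝓝 0) :=
          tendsto_one_div_add_atTop_nhds_zero_nat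
        obtain ⟨N, hN⟩ := eventually_atTop.1 (hlim.eventually (gt_mem_nhds hε))
        refine ⟨N, fun n hn x => ?_⟩
        simp only [Pi.sub_apply]
        have e : f x - ψ n x - f x = -ψ n x := by ring
        rw [e, abs_neg]
        exact (hψε n x).trans (hN n hn).le)).2
    have : 0 < c / 6 * ν := by positivity
    linarith
  have f1 := final _ huvp
  have f2 := final _ huvm
  push Not at f1 f2
  obtain ⟨ε₁, hε₁, hf1⟩ := f1
  obtain ⟨ε₂, hε₂, hf2⟩ := f2
  rcases claim (min ε₁ ε₂) (lt_min hε₁ hε₂) with ⟨ψ, hψA, hψε, hψE⟩ | ⟨ψ, hψA, hψε, hψE⟩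
  · have := hf1 ψ hψA fun x => (hψε x).trans (min_le_left _ _)
    linarith
  · have := hf2 ψ hψA fun x => (hψε x).trans (min_le_right _ _)
    linarith

end Nice

end Pool.Agent.SierpinskiCarpet
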