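import Pool.Agent.helper33.SCDefs

/-!
# Geometry of the Sierpinski carpet
-/

open MeasureTheory Filter Topology

namespace Pool.Agent.SierpinskiCarpet

section Plane

theorem contraction_fst (i : Fin 8) (x : ℝ × ℝ) : (contraction i x).1 = (x.1 + 2 * (q i).1) / 3 := by
  simp only [contraction, Prod.fst_add, Prod.smul_fst, Prod.fst_sub, smul_eq_mul]
  ring

theorem contraction_snd (i : Fin 8) (x : ℝ × ℝ) : (contraction i x).2 = (x.2 + 2 * (q i).2) / 3 := by
  simp only [contraction, Prod.snd_add, Prod.smul_snd, Prod.snd_sub, smul_eq_mul]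
  ring

theorem dist_contraction (i : Fin 8) (x y : ℝ × ℝ) :
    dist (contraction i x) (contraction i y) = dist x y / 3 := by
  rw [contraction, contraction, dist_add_right, dist_smul₀, dist_sub_right, Real.norm_eq_abs]
  rw [abs_of_pos (by norm_num)]
  ring

theorem q_fst (i : Fin 8) : (q i).1 = -1 ∨ (q i).1 = 0 ∨ (q i).1 = 1 := by
  fin_cases i <;> simp [q]

theorem q_snd (i : Fin 8) : (q i).2 = -1 ∨ (q i).2 = 0 ∨ (q i).2 = 1 := by
  fin_cases i <;> simp [q]

theorem q_ne (i : Fin 8) : ¬((q i).1 = 0 ∧ (q i).2 = 0) := by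
  fin_cases i <;> simp [q]

theorem exists_q {a b : ℝ} (ha : a = -1 ∨ a = 0 ∨ a = 1) (hb : b = -1 ∨ b = 0 ∨ b = 1)
    (h : ¬(a = 0 ∧ b = 0)) : ∃ i, q i = (a, b) := by
  rcases ha with rfl | rfl | rfl <;> rcases hb with rfl | rfl | rfl
  · exact ⟨0, by simp [q]⟩
  · exact ⟨7, by simp [q]⟩
  · exact ⟨6, by simp [q]⟩
  · exact ⟨1, by simp [q]⟩
  · exact absurd ⟨rfl, rfl⟩ h
  · exact ⟨5, by simp [q]⟩
  · exact ⟨2, by simp [q]⟩
  · exact ⟨3, by simp [q]⟩
  · exact ⟨4, by simp [q]⟩

theorem q_injective : Function.Injective q := by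
  intro i j h
  fin_cases i <;> fin_cases j <;> first | rfl | (exfalso; simp [q] at h; try norm_num at h)

/-- Points of a set which is covered by its images are limits of points of any closed set that is
stable under the contractions. -/
theorem subset_of_invariant {A B : Set (ℝ × ℝ)} (hA : A ⊆ ⋃ i, contraction i '' A)
    (hAb : Bornology.IsBounded A) (hB : ∀ i, ∀ x ∈ B, contraction i x ∈ B) (hBne : B.Nonempty)
    (hBc : IsClosed B) : A ⊆ B := by
  obtain ⟨b₀, hb₀⟩ := hBne
  obtain ⟨D, hD⟩ := hAb.subset_closedBall b₀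
  have key : ∀ n : ℕ, ∀ a ∈ A, ∃ b ∈ B, dist a b ≤ D / 3 ^ n := by
    intro n
    induction n with
    | zero =>
      intro a ha
      refine ⟨b₀, hb₀, ?_⟩
      simpa using hD ha
    | succ n ih =>
      intro a ha
      obtain ⟨i, a', ha', rfl⟩ := Set.mem_iUnion.1 (hA ha)
      obtain ⟨b, hb, hab⟩ := ih a' ha'
      refine ⟨contraction i b, hB i b hb, ?_⟩
      rw [dist_contraction, pow_succ, ← div_div]
      gcongr
  intro a ha
  rw [← hBc.closure_eq, Metric.mem_closure_iff]
  intro ε hε
  have : Tendsto (fun n : ℕ => D / 3 ^ n) atTop (𝓝 0) := by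
    have h1 := tendsto_pow_atTop_nhds_zero_of_lt_one (r := (1 / 3 : ℝ)) (by norm_num) (by norm_num)
    have h2 := h1.const_mul D
    rw [mul_zero] at h2
    refine h2.congr fun n => ?_
    rw [one_div, inv_pow]
    rfl
  obtain ⟨n, hn⟩ := (this.eventually (gt_mem_nhds hε)).exists
  obtain ⟨b, hb, hab⟩ := key n a ha
  exact ⟨b, hb, hab.trans_lt hn⟩

end Plane

section Words

/-- The words of length `n`. -/
def words : ℕ → Finset (List (Fin 8))
  | 0 => {[]}
  | n + 1 => (Finset.univ ×ˢ words n).map
      ⟨fun p => p.1 :: p.2, fun a b h => by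
        simp only [List.cons.injEq] at h
        exact Prod.ext h.1 h.2⟩

theorem mem_words {n : ℕ} {w : List (Fin 8)} : w ∈ words n ↔ w.length = n := by
  induction n generalizing w with
  | zero => simp [words]
  | succ n ih =>
    simp only [words, Finset.mem_map, Finset.mem_product, Finset.mem_univ, true_and,
      Function.Embedding.coeFn_mk, Prod.exists]
    constructor
    · rintro ⟨i, v, hv, rfl⟩
      simp [ih.1 hv]
    · intro h
      cases w with
      | nil => simp at h
      | cons i v =>
        refine ⟨i, v, ih.2 ?_, rfl⟩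
        simpa using h

theorem sum_words_zero {M : Type*} [AddCommMonoid M] (g : List (Fin 8) → M) :
    ∑ w ∈ words 0, g w = g [] := by
  simp [words]

theorem sum_words_succ {M : Type*} [AddCommMonoid M] (n : ℕ) (g : List (Fin 8) → M) :
    ∑ w ∈ words (n + 1), g w = ∑ i, ∑ w ∈ words n, g (i :: w) := by
  rw [words, Finset.sum_map, Finset.sum_product]
  rfl

theorem sum_words_add {M : Type*} [AddCommMonoid M] (m n : ℕ) (g : List (Fin 8) → M) :
    ∑ w ∈ words (m + n), g w = ∑ w ∈ words m, ∑ x ∈ words n, g (w ++ x) := by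
  induction m generalizing g with
  | zero => simp [sum_words_zero]
  | succ m ih =>
    rw [show m + 1 + n = (m + n) + 1 by ring, sum_words_succ, sum_words_succ]
    refine Finset.sum_congr rfl fun i _ => ?_
    rw [ih]
    rfl

theorem card_words (n : ℕ) : (words n).card = 8 ^ n := by
  rw [Finset.card_eq_sum_ones]
  induction n with
  | zero => rw [sum_words_zero, pow_zero]
  | succ n ih => rw [sum_words_succ, ih]; simp [pow_succ]; ring

theorem words_nonempty (n : ℕ) : (words n).Nonempty := by
  rw [← Finset.card_pos, card_words]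
  positivity

end Words

section Carpet

variable {K : Set (ℝ × ℝ)} (hK : IsCarpet K)

include hK

theorem IsCarpet.instCompact : CompactSpace K := isCompact_iff_compactSpace.1 hK.isCompact

theorem IsCarpet.instNonempty : Nonempty K := hK.nonempty.to_subtype

theorem exists_cellMap (x : K) : ∃ i y, cellMap hK i y = x := by
  have h1 := (Set.ext_iff.1 hK.eq_iUnion _).1 x.2
  obtain ⟨i, y, hy, hxy⟩ := Set.mem_iUnion.1 h1
  exact ⟨i, ⟨y, hy⟩, Subtype.ext hxy⟩

theorem dist_cellMap (i : Fin 8) (x y : K) :
    dist (cellMap hK i x) (cellMap hK i y) = dist x y / 3 := dist_contraction i x y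

theorem continuous_cellMap (i : Fin 8) : Continuous (cellMap hK i) := by
  have : LipschitzWith 1 (cellMap hK i) := LipschitzWith.of_dist_le_mul fun x y => by
    rw [dist_cellMap]
    have : 0 ≤ dist x y := dist_nonneg
    simp only [NNReal.coe_one, one_mul]
    linarith
  exact this.continuous

theorem abs_fst_le (x : K) : |x.1.1| ≤ 1 := by
  have := hK.instCompact
  have := hK.instNonempty
  have hc : Continuous (fun x : K => |x.1.1|) := by fun_prop
  obtain ⟨x₀, -, h₀⟩ := isCompact_univ.exists_isMaxOn Set.univ_nonempty hc.continuousOn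
  have h1 : ∀ x : K, |x.1.1| ≤ |x₀.1.1| := fun x => h₀ (Set.mem_univ x)
  obtain ⟨i, y, hy⟩ := exists_cellMap hK x₀
  have h2 : x₀.1.1 = (y.1.1 + 2 * (q i).1) / 3 := by
    rw [← hy]
    exact contraction_fst i y
  have h3 := h1 y
  have h4 : |(q i).1| ≤ 1 := by rcases q_fst i with h | h | h <;> rw [h] <;> norm_num
  have h5 : |x₀.1.1| ≤ (|y.1.1| + 2 * |(q i).1|) / 3 := by
    rw [h2, abs_div, abs_of_pos (by norm_num : (0 : ℝ) < 3)]
    gcongr
    refine (abs_add_le _ _).trans ?_
    rw [abs_mul, abs_of_pos (by norm_num : (0 : ℝ) < 2)]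
  have h6 := h1 x
  linarith

theorem abs_snd_le (x : K) : |x.1.2| ≤ 1 := by
  have := hK.instCompact
  have := hK.instNonempty
  have hc : Continuous (fun x : K => |x.1.2|) := by fun_prop
  obtain ⟨x₀, -, h₀⟩ := isCompact_univ.exists_isMaxOn Set.univ_nonempty hc.continuousOn
  have h1 : ∀ x : K, |x.1.2| ≤ |x₀.1.2| := fun x => h₀ (Set.mem_univ x)
  obtain ⟨i, y, hy⟩ := exists_cellMap hK x₀
  have h2 : x₀.1.2 = (y.1.2 + 2 * (q i).2) / 3 := by
    rw [← hy]
    exact contraction_snd i y
  have h3 := h1 y
  have h4 : |(q i).2| ≤ 1 := by rcases q_snd i with h | h | h <;> rw [h] <;> norm_num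
  have h5 : |x₀.1.2| ≤ (|y.1.2| + 2 * |(q i).2|) / 3 := by
    rw [h2, abs_div, abs_of_pos (by norm_num : (0 : ℝ) < 3)]
    gcongr
    refine (abs_add_le _ _).trans ?_
    rw [abs_mul, abs_of_pos (by norm_num : (0 : ℝ) < 2)]
  have h6 := h1 x
  linarith

theorem dist_le_two (x y : K) : dist x y ≤ 2 := by
  have h1 := abs_fst_le hK x
  have h2 := abs_fst_le hK y
  have h3 := abs_snd_le hK x
  have h4 := abs_snd_le hK y
  rw [abs_le] at h1 h2 h3 h4
  change dist x.1 y.1 ≤ 2
  rw [Prod.dist_eq, Real.dist_eq, Real.dist_eq]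
  refine max_le ?_ ?_ <;> rw [abs_le] <;> constructor <;> linarith

/-- The square symmetries map the carpet to itself. -/
theorem symmetry_mem {Φ : ℝ × ℝ → ℝ × ℝ} (hΦ : IsSquareSymmetry Φ) {x : ℝ × ℝ} (hx : x ∈ K) :
    Φ x ∈ K := by
  have hsub : Φ '' K ⊆ K := by
    obtain ⟨a, b, ha, hb, h⟩ := hΦ
    have hcont : Continuous Φ := by
      rcases h with h | h
      · rw [show Φ = fun z => (a * z.1, b * z.2) from funext h]
        fun_prop
      · rw [show Φ = fun z => (a * z.2, b * z.1) from funext h]
        fun_prop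
    have hsgn : ∀ c : ℝ, |c| = 1 → c = 1 ∨ c = -1 := fun c hc => by
      rcases abs_cases c with h | h
      · left; linarith [h.1]
      · right; linarith [h.1]
    refine subset_of_invariant ?_ ?_ ?_ hK.nonempty hK.isCompact.isClosed
    · rintro _ ⟨x, hx, rfl⟩
      obtain ⟨i, y, hy, hxy⟩ := Set.mem_iUnion.1 ((Set.ext_iff.1 hK.eq_iUnion _).1 hx)
      obtain ⟨j, hj⟩ : ∃ j, q j = Φ (q i) := by
        have h1 := q_fst i
        have h2 := q_snd i
        have h3 := q_ne i
        rcases hsgn a ha with rfl | rfl <;> rcases hsgn b hb with rfl | rfl <;>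
          rcases h with h | h <;> rw [h] <;> refine exists_q ?_ ?_ ?_ <;>
          first
          | exact fun hh => h3 ⟨by linarith [hh.1, hh.2], by linarith [hh.1, hh.2]⟩
          | (rcases h1 with h1 | h1 | h1 <;> rw [h1] <;> norm_num)
          | (rcases h2 with h2 | h2 | h2 <;> rw [h2] <;> norm_num)
      refine Set.mem_iUnion.2 ⟨j, Φ y, ⟨y, hy, rfl⟩, ?_⟩
      rw [← hxy]
      rcases h with h | h
      · rw [h (contraction i y)]
        ext
        · rw [contraction_fst, hj, h, h, contraction_fst]; ring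
        · rw [contraction_snd, hj, h, h, contraction_snd]; ring
      · rw [h (contraction i y)]
        ext
        · rw [contraction_fst, hj, h, h, contraction_snd]; ring
        · rw [contraction_snd, hj, h, h, contraction_fst]; ring
    · exact (hK.isCompact.image hcont).isBounded
    · intro i x hx
      exact (Set.ext_iff.1 hK.eq_iUnion _).2 (Set.mem_iUnion.2 ⟨i, x, hx, rfl⟩)
  exact hsub ⟨x, hx, rfl⟩

theorem q_mem (i : Fin 8) : q i ∈ K := by
  have : ({q i} : Set (ℝ × ℝ)) ⊆ K := by
    refine subset_of_invariant ?_ Bornology.isBounded_singleton ?_ hK.nonempty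
      hK.isCompact.isClosed
    · rintro x rfl
      refine Set.mem_iUnion.2 ⟨i, q i, rfl, ?_⟩
      simp [contraction]
    · intro i x hx
      exact (Set.ext_iff.1 hK.eq_iUnion _).2 (Set.mem_iUnion.2 ⟨i, x, hx, rfl⟩)
  exact this rfl

theorem corner_mem {a b : ℝ} (ha : |a| = 1) (hb : |b| = 1) : (a, b) ∈ K := by
  have hsgn : ∀ c : ℝ, |c| = 1 → c = -1 ∨ c = 0 ∨ c = 1 := fun c hc => by
    rcases abs_cases c with h | h
    · right; right; linarith [h.1]
    · left; linarith [h.1]
  obtain ⟨i, hi⟩ := exists_q (hsgn a ha) (hsgn b hb) (fun h => by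
    rw [h.1] at ha
    norm_num at ha)
  rw [← hi]
  exact q_mem hK i

end Carpet

section Cells

variable {K : Set (ℝ × ℝ)} (hK : IsCarpet K)

/-- The map onto the cell of a word. -/
noncomputable def cell : List (Fin 8) → K → K
  | [] => id
  | i :: w => cellMap hK i ∘ cell w

theorem cell_nil : cell hK [] = id := rfl

theorem cell_cons (i : Fin 8) (w : List (Fin 8)) : cell hK (i :: w) = cellMap hK i ∘ cell hK w :=
  rfl

theorem cell_append (w x : List (Fin 8)) : cell hK (w ++ x) = cell hK w ∘ cell hK x := by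
  induction w with
  | nil => rfl
  | cons i w ih => rw [List.cons_append, cell_cons, ih, cell_cons]; rfl

theorem cell_singleton (i : Fin 8) : cell hK [i] = cellMap hK i := rfl

theorem continuous_cell (w : List (Fin 8)) : Continuous (cell hK w) := by
  induction w with
  | nil => exact continuous_id
  | cons i w ih => exact (continuous_cellMap hK i).comp ih

theorem dist_cell (w : List (Fin 8)) (x y : K) :
    dist (cell hK w x) (cell hK w y) = dist x y / 3 ^ w.length := by
  induction w with
  | nil => simp [cell_nil]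
  | cons i w ih =>
    rw [cell_cons, Function.comp_apply, Function.comp_apply, dist_cellMap, ih, List.length_cons,
      pow_succ, div_div]

theorem exists_cell (n : ℕ) (x : K) : ∃ w ∈ words n, ∃ y, cell hK w y = x := by
  induction n generalizing x with
  | zero => exact ⟨[], mem_words.2 rfl, x, rfl⟩
  | succ n ih =>
    obtain ⟨i, y, hy⟩ := exists_cellMap hK x
    obtain ⟨w, hw, z, hz⟩ := ih y
    refine ⟨i :: w, mem_words.2 (by simp [mem_words.1 hw]), z, ?_⟩
    rw [cell_cons, Function.comp_apply, hz, hy]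

/-- Continuous functions have small oscillation on small cells. -/
theorem exists_mesh {u : K → ℝ} (hu : Continuous u) {ε : ℝ} (hε : 0 < ε) :
    ∃ n₀, ∀ n ≥ n₀, ∀ w ∈ words n, ∀ x y, |u (cell hK w x) - u (cell hK w y)| < ε := by
  have := hK.instCompact
  have huc := CompactSpace.uniformContinuous_of_continuous hu
  obtain ⟨δ, hδ, h⟩ := Metric.uniformContinuous_iff.1 huc ε hε
  have ht : Tendsto (fun n : ℕ => (2 : ℝ) / 3 ^ n) atTop (𝓝 0) := by
    have h1 := tendsto_pow_atTop_nhds_zero_of_lt_one (r := (1 / 3 : ℝ)) (by norm_num) (by norm_num)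
    have h2 := h1.const_mul 2
    rw [mul_zero] at h2
    refine h2.congr fun n => ?_
    rw [one_div, inv_pow]
    rfl
  obtain ⟨n₀, hn₀⟩ := eventually_atTop.1 (ht.eventually (gt_mem_nhds hδ))
  refine ⟨n₀, fun n hn w hw x y => ?_⟩
  have h1 : dist (cell hK w x) (cell hK w y) < δ := by
    rw [dist_cell, mem_words.1 hw]
    refine lt_of_le_of_lt ?_ (hn₀ n hn)
    gcongr
    exact dist_le_two hK x y
  exact h h1

end Cells

section Glue

variable {K : Set (ℝ × ℝ)} (hK : IsCarpet K)

theorem continuous_of_comp {u : K → ℝ} (h : ∀ i, Continuous (u ∘ cellMap hK i)) : Continuous u := by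
  have := hK.instCompact
  let π : (Σ _ : Fin 8, K) → K := fun p => cellMap hK p.1 p.2
  have hπ : Continuous π := continuous_sigma fun i => continuous_cellMap hK i
  have hq : IsQuotientMap π := by
    refine (hπ.isClosedMap).isQuotientMap hπ fun x => ?_
    obtain ⟨i, y, hy⟩ := exists_cellMap hK x
    exact ⟨⟨i, y⟩, hy⟩
  rw [hq.continuous_iff]
  exact continuous_sigma fun i => h i

/-- Gluing functions on the eight cells of level one. -/
theorem exists_glue (g : Fin 8 → K → ℝ) (hg : ∀ i, Continuous (g i))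
    (hx : ∀ i j (z z' : K), (q j).1 = (q i).1 + 1 → (q j).2 = (q i).2 → z.1.1 = 1 → z'.1.1 = -1 →
      z.1.2 = z'.1.2 → g i z = g j z')
    (hy : ∀ i j (z z' : K), (q j).2 = (q i).2 + 1 → (q j).1 = (q i).1 → z.1.2 = 1 → z'.1.2 = -1 →
      z.1.1 = z'.1.1 → g i z = g j z') :
    ∃ u : K → ℝ, Continuous u ∧ ∀ i, u ∘ cellMap hK i = g i := by
  -- well-definedness
  have key : ∀ i j (z z' : K), cellMap hK i z = cellMap hK j z' → g i z = g j z' := by
    intro i j z z' h
    have h' : contraction i z = contraction j z' := congrArg Subtype.val h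
    have e1 : z.1.1 - z'.1.1 = 2 * ((q j).1 - (q i).1) := by
      have := congrArg Prod.fst h'
      rw [contraction_fst, contraction_fst] at this
      linarith
    have e2 : z.1.2 - z'.1.2 = 2 * ((q j).2 - (q i).2) := by
      have := congrArg Prod.snd h'
      rw [contraction_snd, contraction_snd] at this
      linarith
    have b1 := abs_le.1 (abs_fst_le hK z)
    have b2 := abs_le.1 (abs_fst_le hK z')
    have b3 := abs_le.1 (abs_snd_le hK z)
    have b4 := abs_le.1 (abs_snd_le hK z')
    -- differences are in {-1, 0, 1}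
    have d1 : (q j).1 = (q i).1 ∨ (q j).1 = (q i).1 + 1 ∨ (q i).1 = (q j).1 + 1 := by
      rcases q_fst i with a | a | a <;> rcases q_fst j with b | b | b <;>
        rw [a, b] at e1 ⊢ <;> norm_num at e1 ⊢ <;> linarith
    have d2 : (q j).2 = (q i).2 ∨ (q j).2 = (q i).2 + 1 ∨ (q i).2 = (q j).2 + 1 := by
      rcases q_snd i with a | a | a <;> rcases q_snd j with b | b | b <;>
        rw [a, b] at e2 ⊢ <;> norm_num at e2 ⊢ <;> linarith
    -- the diagonal case, through an intermediate cell
    have diag : ∀ i j (z z' : K), ((q j).1 = (q i).1 + 1) →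
        ((q j).2 = (q i).2 + 1 ∨ (q i).2 = (q j).2 + 1) →
        z.1.1 - z'.1.1 = 2 * ((q j).1 - (q i).1) → z.1.2 - z'.1.2 = 2 * ((q j).2 - (q i).2) →
        g i z = g j z' := by
      intro i j z z' h1 h2 e1 e2
      have b1 := abs_le.1 (abs_fst_le hK z)
      have b2 := abs_le.1 (abs_fst_le hK z')
      have b3 := abs_le.1 (abs_snd_le hK z)
      have b4 := abs_le.1 (abs_snd_le hK z')
      have z1 : z.1.1 = 1 := by linarith
      have z'1 : z'.1.1 = -1 := by linarith
      by_cases hc : (q i).1 + 1 = 0 ∧ (q i).2 = 0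
      · -- use the cell `((q i).1, (q j).2)`
        have hne : ¬((q i).1 = 0 ∧ (q j).2 = 0) := fun hh => by linarith [hc.1, hh.1]
        obtain ⟨k, hk⟩ := exists_q (q_fst i) (q_snd j) hne
        have hk1 : (q k).1 = (q i).1 := by rw [hk]
        have hk2 : (q k).2 = (q j).2 := by rw [hk]
        rcases h2 with h2 | h2
        · have z2 : z.1.2 = 1 := by linarith
          have z'2 : z'.1.2 = -1 := by linarith
          have hm : (1, -1) ∈ K := corner_mem hK (by norm_num) (by norm_num)
          rw [hy i k z ⟨(1, -1), hm⟩ (by rw [hk2, h2]) hk1 z2 rfl z1]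
          exact hx k j _ z' (by rw [hk1, h1]) hk2.symm rfl z'1 z'2.symm
        · have z2 : z.1.2 = -1 := by linarith
          have z'2 : z'.1.2 = 1 := by linarith
          have hm : (1, 1) ∈ K := corner_mem hK (by norm_num) (by norm_num)
          rw [← hy k i ⟨(1, 1), hm⟩ z (by rw [hk2, h2]) hk1.symm rfl z2 z1.symm]
          exact hx k j _ z' (by rw [hk1, h1]) hk2.symm rfl z'1 z'2.symm
      · -- use the cell `((q i).1 + 1, (q i).2)`
        obtain ⟨k, hk⟩ := exists_q (a := (q i).1 + 1) (b := (q i).2) (h1 ▸ q_fst j) (q_snd i) hc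
        have hk1 : (q k).1 = (q i).1 + 1 := by rw [hk]
        have hk2 : (q k).2 = (q i).2 := by rw [hk]
        rcases h2 with h2 | h2
        · have z2 : z.1.2 = 1 := by linarith
          have z'2 : z'.1.2 = -1 := by linarith
          have hm : (-1, 1) ∈ K := corner_mem hK (by norm_num) (by norm_num)
          rw [hx i k z ⟨(-1, 1), hm⟩ hk1 hk2 z1 rfl z2]
          exact hy k j _ z' (by rw [hk2, h2]) (by rw [hk1, h1]) rfl z'2 z'1.symm
        · have z2 : z.1.2 = -1 := by linarith
          have z'2 : z'.1.2 = 1 := by linarith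
          have hm : (-1, -1) ∈ K := corner_mem hK (by norm_num) (by norm_num)
          rw [hx i k z ⟨(-1, -1), hm⟩ hk1 hk2 z1 rfl z2]
          exact (hy j k z' _ (by rw [hk2, h2]) (by rw [hk1, h1]) z'2 rfl z'1).symm
    rcases d1 with d1 | d1 | d1 <;> rcases d2 with d2 | d2 | d2
    · have hij : i = j := q_injective (Prod.ext d1.symm d2.symm)
      subst hij
      congr 1
      refine Subtype.ext (Prod.ext ?_ ?_) <;> linarith
    · exact hy i j z z' d2 d1 (by linarith) (by linarith) (by linarith)
    · exact (hy j i z' z d2 d1.symm (by linarith) (by linarith) (by linarith)).symm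
    · exact hx i j z z' d1 d2 (by linarith) (by linarith) (by linarith)
    · exact diag i j z z' d1 (Or.inl d2) e1 e2
    · exact diag i j z z' d1 (Or.inr d2) e1 e2
    · exact (hx j i z' z d1 d2.symm (by linarith) (by linarith) (by linarith)).symm
    · exact (diag j i z' z d1 (Or.inr d2) (by linarith) (by linarith)).symm
    · exact (diag j i z' z d1 (Or.inl d2) (by linarith) (by linarith)).symm
  choose a b hab using exists_cellMap hK
  have hu : ∀ i, (fun x => g (a x) (b x)) ∘ cellMap hK i = g i := by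
    intro i
    funext z
    exact key _ _ _ _ (hab (cellMap hK i z))
  refine ⟨fun x => g (a x) (b x), continuous_of_comp hK fun i => ?_, hu⟩
  rw [hu i]
  exact hg i

end Glue

end Pool.Agent.SierpinskiCarpet
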