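import Pool.Agent.helper33.SCLocal

/-!
# Pairs of functions of finite energy have a null image
-/

open MeasureTheory Filter Topology
open scoped ENNReal

namespace Pool.Agent.SierpinskiCarpet

variable {K : Set (ℝ × ℝ)} {hK : IsCarpet K} {A : Set (K → ℝ)} {p ρ : ℝ} {E : (K → ℝ) → ℝ}

theorem sum_rpow_le_rpow_sum {ι : Type*} (s : Finset ι) (f : ι → ℝ) (hf : ∀ i ∈ s, 0 ≤ f i)
    {r : ℝ} (hr : 1 ≤ r) : ∑ i ∈ s, f i ^ r ≤ (∑ i ∈ s, f i) ^ r := by
  have hS : 0 ≤ ∑ i ∈ s, f i := Finset.sum_nonneg hf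
  have h1 : ∀ t : ℝ, 0 ≤ t → t ^ r = t * t ^ (r - 1) := fun t ht => by
    rcases ht.eq_or_lt with rfl | ht
    · rw [Real.zero_rpow (by linarith), zero_mul]
    · rw [mul_comm, ← Real.rpow_add_one ht.ne']
      congr 1
      ring
  calc ∑ i ∈ s, f i ^ r ≤ ∑ i ∈ s, f i * (∑ i ∈ s, f i) ^ (r - 1) := by
        refine Finset.sum_le_sum fun i hi => ?_
        rw [h1 _ (hf i hi)]
        have := hf i hi
        have h2 : f i ≤ ∑ i ∈ s, f i := Finset.single_le_sum hf hi
        gcongr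
    _ = (∑ i ∈ s, f i) ^ r := by rw [← Finset.sum_mul, ← h1 _ hS]

namespace Nice

variable (h : Nice hK p ρ A E)

include h

theorem exists_sum_osc {u v : K → ℝ} (hu : u ∈ A) (hv : v ∈ A) {ε : ℝ} (hε : 0 < ε) :
    ∃ (n : ℕ) (R : List (Fin 8) → ℝ), (∀ w, 0 ≤ R w) ∧
      (∀ w x y, |u (cell hK w x) - u (cell hK w y)| ≤ R w) ∧
      (∀ w x y, |v (cell hK w x) - v (cell hK w y)| ≤ R w) ∧ ∑ w ∈ words n, R w ^ (2 : ℝ) ≤ ε := by
  have hp := h.p_pos
  have hp1 := h.one_lt
  have hρ := h.rho_pos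
  have hρ1 := h.one_lt_scale
  obtain ⟨C, hC, hb⟩ := h.osc
  set e : List (Fin 8) → ℝ := fun w => E (u ∘ cell hK w) + E (v ∘ cell hK w) with he
  have he0 : ∀ w, 0 ≤ e w := fun w =>
    add_nonneg (h.nonneg _ (h.lat.cell_mem hu w)) (h.nonneg _ (h.lat.cell_mem hv w))
  set R : List (Fin 8) → ℝ := fun w => (C * e w) ^ (1 / p) with hR
  have hR0 : ∀ w, 0 ≤ R w := fun w => by
    have := he0 w
    positivity
  have hRp : ∀ w, R w ^ p = C * e w := fun w => rpow_one_div_rpow hp (by have := he0 w; positivity)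
  have hsum : ∀ n, ∑ w ∈ words n, e w = (ρ ^ n)⁻¹ * (E u + E v) := by
    intro n
    rw [he, Finset.sum_add_distrib]
    have h1 := h.sum_words n u hu
    have h2 := h.sum_words n v hv
    field_simp
    rw [add_mul, mul_comm _ (ρ ^ n), mul_comm _ (ρ ^ n), h1, h2]
  have hν : 0 ≤ E u + E v := add_nonneg (h.nonneg u hu) (h.nonneg v hv)
  have hosc : ∀ f ∈ A, ∀ w, E (f ∘ cell hK w) ≤ e w → ∀ x y,
      |f (cell hK w x) - f (cell hK w y)| ≤ R w := by
    intro f hf w hfw x y
    have h1 := hb _ (h.lat.cell_mem hf w) x y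
    have h2 : |f (cell hK w x) - f (cell hK w y)| ^ p ≤ R w ^ p := by
      rw [hRp]
      refine h1.trans ?_
      gcongr
    exact (Real.rpow_le_rpow_iff (abs_nonneg _) (hR0 w) hp).1 h2
  have hlimit : ∃ n, ∑ w ∈ words n, R w ^ (2 : ℝ) ≤ ε := by
    rcases le_total p 2 with hp2 | hp2
    · -- superadditivity
      have h1 : ∀ n, ∑ w ∈ words n, R w ^ (2 : ℝ) ≤
          (C * ((ρ⁻¹) ^ n * (E u + E v))) ^ (2 / p) := by
        intro n
        have e1 : ∀ w, R w ^ (2 : ℝ) = (C * e w) ^ (2 / p) := fun w => by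
          rw [hR]
          simp only
          rw [← Real.rpow_mul (by have := he0 w; positivity)]
          congr 1
          ring
        simp_rw [e1]
        refine (sum_rpow_le_rpow_sum _ _ (fun w _ => by have := he0 w; positivity) ?_).trans ?_
        · rw [le_div_iff₀ hp]
          linarith
        · rw [← Finset.mul_sum, hsum, inv_pow]
      have h2 : Tendsto (fun n : ℕ => (C * ((ρ⁻¹) ^ n * (E u + E v))) ^ (2 / p)) atTop (𝓝 0) := by
        have h3 : Tendsto (fun n : ℕ => C * ((ρ⁻¹) ^ n * (E u + E v))) atTop (𝓝 0) := by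
          have := ((tendsto_pow_atTop_nhds_zero_of_lt_one (inv_nonneg.2 hρ.le)
            (inv_lt_one_of_one_lt₀ hρ1)).mul_const (E u + E v)).const_mul C
          simpa using this
        have := h3.rpow_const (p := 2 / p) (Or.inr (by positivity))
        rwa [Real.zero_rpow (by positivity)] at this
      obtain ⟨n, hn⟩ := (h2.eventually (gt_mem_nhds hε)).exists
      exact ⟨n, (h1 n).trans hn.le⟩
    · -- convexity
      set θ : ℝ := 8 ^ (p / 2 - 1) / ρ with hθ
      have hθ0 : 0 < θ := by positivity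
      have hθ1 : θ < 1 := by
        rw [hθ, div_lt_one hρ]
        have h3 : (3 : ℝ) ^ p / 8 ≤ ρ := by
          rw [div_le_iff₀ (by norm_num)]
          linarith [h.three_le]
        refine lt_of_lt_of_le ?_ h3
        rw [Real.rpow_sub_one (by norm_num)]
        gcongr
        have e1 : (8 : ℝ) ^ (p / 2) = (8 ^ (1 / 2 : ℝ)) ^ p := by
          rw [← Real.rpow_mul (by norm_num)]
          congr 1
          ring
        rw [e1]
        refine Real.rpow_lt_rpow (by positivity) ?_ hp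
        rw [← Real.sqrt_eq_rpow]
        rw [Real.sqrt_lt' (by norm_num)]
        norm_num
      have h1 : ∀ n, (∑ w ∈ words n, R w ^ (2 : ℝ)) ^ (p / 2) ≤ θ ^ n * (C * (E u + E v)) := by
        intro n
        have h2 := Real.rpow_sum_le_const_mul_sum_rpow_of_nonneg (s := words n)
          (f := fun w => R w ^ (2 : ℝ)) (p := p / 2) (by linarith) (fun w _ => by
            have := hR0 w
            positivity)
        refine h2.trans (le_of_eq ?_)
        have e1 : ∀ w, (R w ^ (2 : ℝ)) ^ (p / 2) = C * e w := fun w => by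
          rw [← Real.rpow_mul (hR0 w), ← hRp w]
          congr 1
          ring
        simp_rw [e1]
        rw [← Finset.mul_sum, hsum, card_words, hθ, div_pow]
        push_cast
        rw [← Real.rpow_natCast, ← Real.rpow_mul (by norm_num), ← Real.rpow_mul_natCast
          (by norm_num)]
        rw [mul_comm (n : ℝ) (p / 2 - 1)]
        ring
      have h2 : Tendsto (fun n : ℕ => θ ^ n * (C * (E u + E v))) atTop (𝓝 0) := by
        have := (tendsto_pow_atTop_nhds_zero_of_lt_one hθ0.le hθ1).mul_const (C * (E u + E v))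
        rwa [zero_mul] at this
      obtain ⟨n, hn⟩ := (h2.eventually (gt_mem_nhds
        (show 0 < ε ^ (p / 2) by positivity))).exists
      refine ⟨n, ?_⟩
      have h3 := (h1 n).trans hn.le
      exact (Real.rpow_le_rpow_iff (Finset.sum_nonneg fun w _ => by
        have := hR0 w
        positivity) hε.le (by positivity)).1 h3
  obtain ⟨n, hn⟩ := hlimit
  refine ⟨n, R, hR0, fun w => hosc u hu w ?_, fun w => hosc v hv w ?_, hn⟩
  · have := h.nonneg _ (h.lat.cell_mem hv w)
    simp only [he]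
    linarith
  · have := h.nonneg _ (h.lat.cell_mem hu w)
    simp only [he]
    linarith

/-- The image of a pair of functions of finite energy is covered by few squares of the grid. -/
theorem exists_grid {u v : K → ℝ} (hu : u ∈ A) (hv : v ∈ A) {ε : ℝ} (hε : 0 < ε) :
    ∃ δ₀ : ℝ, 0 < δ₀ ∧ ∀ δ : ℝ, 0 < δ → δ ≤ δ₀ → ∃ G : Finset (ℤ × ℤ),
      (∀ z, (⌊u z / δ⌋, ⌊v z / δ⌋) ∈ G) ∧ (G.card : ℝ) * δ ^ 2 ≤ ε := by
  obtain ⟨n, R, hR0, hRu, hRv, hsum⟩ := h.exists_sum_osc hu hv (show 0 < ε / 16 by positivity)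
  have h8 : (0 : ℝ) < 8 ^ n := by positivity
  refine ⟨Real.sqrt (ε / (16 * 8 ^ n)), Real.sqrt_pos.2 (by positivity), fun δ hδ hδ₀ => ?_⟩
  have hδ2 : δ ^ 2 ≤ ε / (16 * 8 ^ n) := by
    rw [← Real.sq_sqrt (show 0 ≤ ε / (16 * 8 ^ n) by positivity)]
    gcongr
  set c₀ := corner hK (false, false) with hc₀
  set I : (K → ℝ) → List (Fin 8) → Finset ℤ := fun f w =>
    Finset.Icc ⌊(f (cell hK w c₀) - R w) / δ⌋ ⌊(f (cell hK w c₀) + R w) / δ⌋ with hI
  have hcard : ∀ f w, ((I f w).card : ℝ) ≤ 2 * R w / δ + 2 := by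
    intro f w
    have hR := hR0 w
    rw [hI]
    simp only
    rw [Int.card_Icc]
    have h1 : ⌊(f (cell hK w c₀) - R w) / δ⌋ ≤ ⌊(f (cell hK w c₀) + R w) / δ⌋ := by
      apply Int.floor_le_floor
      gcongr
      linarith
    have h2 : (0 : ℤ) ≤ ⌊(f (cell hK w c₀) + R w) / δ⌋ + 1 - ⌊(f (cell hK w c₀) - R w) / δ⌋ := by
      linarith
    have h3 : (((⌊(f (cell hK w c₀) + R w) / δ⌋ + 1 - ⌊(f (cell hK w c₀) - R w) / δ⌋).toNat : ℤ) : ℝ)
        = ((⌊(f (cell hK w c₀) + R w) / δ⌋ + 1 - ⌊(f (cell hK w c₀) - R w) / δ⌋ : ℤ) : ℝ) := by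
      rw [Int.toNat_of_nonneg h2]
    have h4 : (((⌊(f (cell hK w c₀) + R w) / δ⌋ + 1 - ⌊(f (cell hK w c₀) - R w) / δ⌋).toNat : ℕ) : ℝ)
        = ((⌊(f (cell hK w c₀) + R w) / δ⌋ + 1 - ⌊(f (cell hK w c₀) - R w) / δ⌋ : ℤ) : ℝ) := by
      exact_mod_cast h3
    rw [h4]
    push_cast
    have h5 := Int.floor_le ((f (cell hK w c₀) + R w) / δ)
    have h6 := Int.lt_floor_add_one ((f (cell hK w c₀) - R w) / δ)
    have h7 : (f (cell hK w c₀) + R w) / δ - (f (cell hK w c₀) - R w) / δ = 2 * R w / δ := by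
      ring
    linarith
  have hmem : ∀ (f : K → ℝ) w z, |f (cell hK w z) - f (cell hK w c₀)| ≤ R w →
      ⌊f (cell hK w z) / δ⌋ ∈ I f w := by
    intro f w z hz
    rw [abs_le] at hz
    rw [hI]
    simp only [Finset.mem_Icc]
    constructor
    · apply Int.floor_le_floor
      gcongr
      linarith
    · apply Int.floor_le_floor
      gcongr
      linarith
  refine ⟨(words n).biUnion fun w => I u w ×ˢ I v w, fun z => ?_, ?_⟩
  · obtain ⟨w, hw, y, rfl⟩ := exists_cell hK n z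
    rw [Finset.mem_biUnion]
    exact ⟨w, hw, Finset.mem_product.2 ⟨hmem u w y (hRu w _ _), hmem v w y (hRv w _ _)⟩⟩
  · have h1 : (((words n).biUnion fun w => I u w ×ˢ I v w).card : ℝ) ≤
        ∑ w ∈ words n, (2 * R w / δ + 2) ^ 2 := by
      calc (((words n).biUnion fun w => I u w ×ˢ I v w).card : ℝ)
          ≤ ((∑ w ∈ words n, (I u w ×ˢ I v w).card : ℕ) : ℝ) := by
            exact_mod_cast Finset.card_biUnion_le
        _ = ∑ w ∈ words n, ((I u w).card : ℝ) * (I v w).card := by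
            push_cast [Finset.card_product]
            rfl
        _ ≤ ∑ w ∈ words n, (2 * R w / δ + 2) ^ 2 := by
            refine Finset.sum_le_sum fun w _ => ?_
            rw [sq]
            have := hR0 w
            exact mul_le_mul (hcard u w) (hcard v w) (by positivity) (by positivity)
    have h2 : ∑ w ∈ words n, (2 * R w / δ + 2) ^ 2 ≤
        8 / δ ^ 2 * ∑ w ∈ words n, R w ^ (2 : ℝ) + 8 * 8 ^ n := by
      have e1 : ∀ w, (2 * R w / δ + 2) ^ 2 ≤ 8 / δ ^ 2 * R w ^ (2 : ℝ) + 8 := by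
        intro w
        have e2 : R w ^ (2 : ℝ) = R w ^ 2 := by exact_mod_cast Real.rpow_natCast (R w) 2
        have e3 : 8 / δ ^ 2 * R w ^ 2 = 2 * (2 * R w / δ) ^ 2 := by
          field_simp
          ring
        rw [e2, e3]
        nlinarith [sq_nonneg (2 * R w / δ - 2)]
      refine (Finset.sum_le_sum fun w _ => e1 w).trans ?_
      rw [Finset.sum_add_distrib, ← Finset.mul_sum, Finset.sum_const, card_words, nsmul_eq_mul]
      push_cast
      linarith
    calc (((words n).biUnion fun w => I u w ×ˢ I v w).card : ℝ) * δ ^ 2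
        ≤ (8 / δ ^ 2 * ∑ w ∈ words n, R w ^ (2 : ℝ) + 8 * 8 ^ n) * δ ^ 2 := by
          gcongr
          exact h1.trans h2
      _ = 8 * ∑ w ∈ words n, R w ^ (2 : ℝ) + 8 * 8 ^ n * δ ^ 2 := by
          field_simp
      _ ≤ 8 * (ε / 16) + 8 * 8 ^ n * (ε / (16 * 8 ^ n)) := by gcongr
      _ = ε := by
          field_simp
          ring

end Nice

end Pool.Agent.SierpinskiCarpet
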