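import Pool.Agent.helper33.SCGap2

/-!
# The energy has index one
-/

open MeasureTheory Filter Topology
open scoped ENNReal

namespace Pool.Agent.SierpinskiCarpet

variable {K : Set (ℝ × ℝ)} {hK : IsCarpet K} {A : Set (K → ℝ)} {p ρ : ℝ} {E : (K → ℝ) → ℝ}

/-- The gap of a pair on a cell. -/
noncomputable def gap (hK : IsCarpet K) (ρ : ℝ) (E : (K → ℝ) → ℝ) (u v : K → ℝ)
    (w : List (Fin 8)) : ℝ :=
  ρ ^ w.length * (min (E ((u + v) ∘ cell hK w)) (E ((u - v) ∘ cell hK w)) -
    max (E (u ∘ cell hK w)) (E (v ∘ cell hK w)))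

namespace Nice

variable (h : Nice hK p ρ A E)

include h

theorem exists_lower {c : ℝ} (hc : 0 < c) : ∃ c₂ : ℝ, 0 < c₂ ∧ c₂ ≤ c ∧ ∀ u ∈ A, ∀ v ∈ A,
    E v + c * (E u + E v) ≤ E (u + v) → c₂ * (E u + E v) ≤ E u := by
  have hp := h.p_pos
  -- choose `t`
  obtain ⟨t, ht0, ht1, ht⟩ : ∃ t : ℝ, 0 < t ∧ t ≤ 1 ∧ (1 + t) ^ p ≤ 1 + c := by
    have hcont : ContinuousAt (fun t : ℝ => (1 + t) ^ p) 0 := by
      refine ContinuousAt.rpow_const (by fun_prop) (Or.inr hp.le)
    have h1 : (fun t : ℝ => (1 + t) ^ p) 0 < 1 + c := by simp [hc]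
    have h2 := hcont.eventually (gt_mem_nhds h1)
    obtain ⟨ε, hε, h3⟩ := Metric.eventually_nhds_iff.1 h2
    refine ⟨min (ε / 2) 1, by positivity, min_le_right _ _, (h3 ?_).le⟩
    rw [Real.dist_eq, sub_zero, abs_of_pos (by positivity)]
    exact (min_le_left _ _).trans_lt (by linarith)
  refine ⟨min (t ^ p / 2) c, by positivity, min_le_right _ _, fun u hu v hv huv => ?_⟩
  have hEu := h.nonneg u hu
  have hEv := h.nonneg v hv
  have hEuv := h.nonneg _ (h.lat.add_mem u hu v hv)
  have hsub := h.subadd u hu v hv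
  set a := E u ^ (1 / p) with ha
  set b := E v ^ (1 / p) with hb
  have ha0 : 0 ≤ a := by positivity
  have hb0 : 0 ≤ b := by positivity
  have hap : a ^ p = E u := rpow_one_div_rpow hp hEu
  have hbp : b ^ p = E v := rpow_one_div_rpow hp hEv
  have htp : t ^ p ≤ 1 := Real.rpow_le_one ht0.le ht1 hp.le
  have key : t * b ≤ a := by
    by_contra hcon
    push Not at hcon
    have hbpos : 0 < b := by
      rcases hb0.eq_or_lt with h0 | h0
      · rw [← h0, mul_zero] at hcon
        linarith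
      · exact h0
    have h1 : E (u + v) ≤ (a + b) ^ p := by
      rw [← rpow_one_div_rpow hp hEuv]
      exact Real.rpow_le_rpow (by positivity) hsub hp.le
    have h2 : (a + b) ^ p < ((1 + t) * b) ^ p :=
      Real.rpow_lt_rpow (by positivity) (by linarith) hp
    rw [Real.mul_rpow (by positivity) hb0, hbp] at h2
    have h3 : (1 + t) ^ p * E v ≤ (1 + c) * E v := by gcongr
    have h4 : 0 ≤ c * E u := by positivity
    linarith
  have h5 : t ^ p * E v ≤ E u := by
    rw [← hap, ← hbp, ← Real.mul_rpow ht0.le hb0]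
    exact Real.rpow_le_rpow (by positivity) key hp.le
  have h6 : t ^ p * E u ≤ 1 * E u := by gcongr
  calc min (t ^ p / 2) c * (E u + E v) ≤ t ^ p / 2 * (E u + E v) := by
        gcongr
        exact min_le_left _ _
    _ ≤ E u := by linarith

open Classical in
/-- The total gap tends to zero. -/
theorem gap_tendsto {u v : K → ℝ} (hu : u ∈ A) (hv : v ∈ A) {ε : ℝ} (hε : 0 < ε) :
    ∃ N, ∀ n ≥ N, ∑ w ∈ words n, max (gap hK ρ E u v w) 0 ≤ ε := by
  have hp := h.p_pos
  have hρ := h.rho_pos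
  by_contra hcon
  push Not at hcon
  have hEu := h.nonneg u hu
  have hEv := h.nonneg v hv
  set ν := E u + E v with hν
  have huv := h.lat.add_mem u hu v hv
  have huv' := h.lat.sub_mem hu hv
  have hcu := fun w => h.nonneg _ (h.lat.cell_mem hu w)
  have hcv := fun w => h.nonneg _ (h.lat.cell_mem hv w)
  set m : List (Fin 8) → ℝ := fun w =>
    ρ ^ w.length * E (u ∘ cell hK w) + ρ ^ w.length * E (v ∘ cell hK w) with hm
  have hmT : TreeMeasure m := by
    have h1 := h.tree hu
    have h2 := h.tree hv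
    refine ⟨fun w => add_nonneg (h1.nonneg w) (h2.nonneg w), fun w k => ?_⟩
    simp only [hm]
    rw [Finset.sum_add_distrib]
    exact congrArg₂ (· + ·) (h1.sum w k) (h2.sum w k)
  have hcomp : ∀ g ∈ A, (∀ w, E (g ∘ cell hK w) ≤
      2 ^ p * (E (u ∘ cell hK w) + E (v ∘ cell hK w))) → ∀ w,
      ρ ^ w.length * E (g ∘ cell hK w) ≤ 2 ^ p * m w := by
    intro g _ hg w
    calc ρ ^ w.length * E (g ∘ cell hK w) ≤
        ρ ^ w.length * (2 ^ p * (E (u ∘ cell hK w) + E (v ∘ cell hK w))) := by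
          gcongr
          exact hg w
      _ = 2 ^ p * m w := by simp only [hm]; ring
  have hone : (1 : ℝ) ≤ 2 ^ p := Real.one_le_rpow (by norm_num) hp.le
  have bu := hcomp u hu (fun w => by
    have h1 := hcu w
    have h2 := hcv w
    nlinarith)
  have bv := hcomp v hv (fun w => by
    have h1 := hcu w
    have h2 := hcv w
    nlinarith)
  have bp := hcomp (u + v) huv (fun w => h.add_le (h.lat.cell_mem hu w) (h.lat.cell_mem hv w))
  have bm := hcomp (u - v) huv' (fun w => h.sub_le (h.lat.cell_mem hu w) (h.lat.cell_mem hv w))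
  have hgapm : ∀ w, gap hK ρ E u v w ≤ 2 ^ p * m w := by
    intro w
    refine le_trans ?_ (bp w)
    unfold gap
    gcongr
    have h1 := min_le_left (E ((u + v) ∘ cell hK w)) (E ((u - v) ∘ cell hK w))
    have h2 := le_max_left (E (u ∘ cell hK w)) (E (v ∘ cell hK w))
    have h3 := hcu w
    linarith
  have hm_sum : ∀ n, ∑ w ∈ words n, m w = ν := by
    intro n
    have := hmT.sum [] n
    simp only [List.nil_append] at this
    rw [this]
    simp only [hm, List.length_nil, pow_zero, one_mul]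
    rfl
  have hν0 : 0 < ν := by
    rcases (show 0 ≤ ν by positivity).eq_or_lt with h0 | h0
    · exfalso
      obtain ⟨n, -, hn⟩ := hcon 0
      have h1 : ∑ w ∈ words n, max (gap hK ρ E u v w) 0 ≤ ∑ w ∈ words n, 2 ^ p * m w :=
        Finset.sum_le_sum fun w _ => max_le (hgapm w) (by have := hmT.nonneg w; positivity)
      rw [← Finset.mul_sum, hm_sum, ← h0, mul_zero] at h1
      linarith
    · exact h0
  set c := ε / (2 * ν) with hc
  have hc0 : 0 < c := by positivity
  set P : List (Fin 8) → Prop := fun w => c * m w ≤ gap hK ρ E u v w with hP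
  obtain ⟨c₂, hc₂, hcc, hlow⟩ := h.exists_lower hc0
  obtain ⟨η, hη, hno⟩ := h.no_gapPair hc0 hc₂ hcc
  have hPmass : ∀ N, ∃ n ≥ N, ε / (2 * 2 ^ p) ≤ ∑ w ∈ (words n).filter P, m w := by
    intro N
    obtain ⟨n, hn, hsum⟩ := hcon N
    refine ⟨n, hn, ?_⟩
    have h1 : ∀ w ∈ words n, max (gap hK ρ E u v w) 0 ≤
        (if P w then 2 ^ p * m w else 0) + c * m w := by
      intro w _
      have h2 := hmT.nonneg w
      have h3 : 0 ≤ c * m w := by positivity
      split_ifs with hPw
      · refine max_le ?_ ?_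
        · have := hgapm w
          linarith
        · positivity
      · simp only [hP, not_le] at hPw
        refine max_le ?_ ?_
        · linarith
        · linarith
    have h2 := hsum.trans_le (Finset.sum_le_sum h1)
    rw [Finset.sum_add_distrib, ← Finset.sum_filter, ← Finset.mul_sum, ← Finset.mul_sum,
      hm_sum] at h2
    have h3 : c * ν = ε / 2 := by
      rw [hc]
      field_simp
    rw [h3] at h2
    rw [div_le_iff₀ (by positivity)]
    linarith
  set q : Fin 4 → List (Fin 8) → ℝ := ![fun w => ρ ^ w.length * E (u ∘ cell hK w),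
    fun w => ρ ^ w.length * E (v ∘ cell hK w), fun w => ρ ^ w.length * E ((u + v) ∘ cell hK w),
    fun w => ρ ^ w.length * E ((u - v) ∘ cell hK w)] with hq
  obtain ⟨w, hPw, hmw, hconst⟩ := exists_nearly_constant (q := q) (ν := m) (C := 2 ^ p)
    (by
      intro j
      fin_cases j
      · exact h.tree hu
      · exact h.tree hv
      · exact h.tree huv
      · exact h.tree huv') hmT
    (by
      intro j w
      fin_cases j
      · exact bu w
      · exact bv w
      · exact bp w
      · exact bm w) (by positivity) P (show 0 < ε / (2 * 2 ^ p) by positivity) hPmass hη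
  have hρw : 0 < ρ ^ w.length := by positivity
  have hmw' : m w = ρ ^ w.length * (E (u ∘ cell hK w) + E (v ∘ cell hK w)) := by
    simp only [hm]
    ring
  have hpos : 0 < E (u ∘ cell hK w) + E (v ∘ cell hK w) := by
    rw [hmw'] at hmw
    exact (mul_pos_iff_of_pos_left hρw).1 hmw
  have hdev : ∀ g : K → ℝ, (∀ k, ∑ x ∈ words k, |ρ ^ (w ++ x).length * E (g ∘ cell hK (w ++ x)) -
      ρ ^ w.length * E (g ∘ cell hK w) / m w * m (w ++ x)| ≤ η * m w) → ∀ k,
      dev hK ρ E (u ∘ cell hK w) (v ∘ cell hK w) (g ∘ cell hK w) k ≤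
        η * (E (u ∘ cell hK w) + E (v ∘ cell hK w)) := by
    intro g hg k
    have h1 := hg k
    have h2 : ∑ x ∈ words k, |ρ ^ (w ++ x).length * E (g ∘ cell hK (w ++ x)) -
        ρ ^ w.length * E (g ∘ cell hK w) / m w * m (w ++ x)| =
        ρ ^ w.length * dev hK ρ E (u ∘ cell hK w) (v ∘ cell hK w) (g ∘ cell hK w) k := by
      rw [dev, Finset.mul_sum]
      refine Finset.sum_congr rfl fun x hx => ?_
      rw [← abs_of_pos hρw, ← abs_mul, abs_of_pos hρw]
      congr 1
      have e1 : ∀ f : K → ℝ, E (f ∘ cell hK (w ++ x)) = E ((f ∘ cell hK w) ∘ cell hK x) :=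
        fun f => by rw [cell_append]; rfl
      simp only [hm, e1, List.length_append, mem_words.1 hx, pow_add]
      field_simp
    rw [h2, hmw'] at h1
    have h3 : ρ ^ w.length * dev hK ρ E (u ∘ cell hK w) (v ∘ cell hK w) (g ∘ cell hK w) k ≤
        ρ ^ w.length * (η * (E (u ∘ cell hK w) + E (v ∘ cell hK w))) := by
      linarith
    exact le_of_mul_le_mul_left h3 hρw
  -- the gap
  have hgapw : max (E (u ∘ cell hK w)) (E (v ∘ cell hK w)) +
      c * (E (u ∘ cell hK w) + E (v ∘ cell hK w)) ≤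
      min (E ((u + v) ∘ cell hK w)) (E ((u - v) ∘ cell hK w)) := by
    have h1 := hPw
    simp only [hP, gap, hmw'] at h1
    have h3 : ρ ^ w.length * (c * (E (u ∘ cell hK w) + E (v ∘ cell hK w))) ≤
        ρ ^ w.length * (min (E ((u + v) ∘ cell hK w)) (E ((u - v) ∘ cell hK w)) -
          max (E (u ∘ cell hK w)) (E (v ∘ cell hK w))) := by
      linarith
    have h4 := le_of_mul_le_mul_left h3 hρw
    linarith
  have g1 := le_max_left (E (u ∘ cell hK w)) (E (v ∘ cell hK w))
  have g2 := le_max_right (E (u ∘ cell hK w)) (E (v ∘ cell hK w))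
  have g3 := min_le_left (E ((u + v) ∘ cell hK w)) (E ((u - v) ∘ cell hK w))
  have g4 := min_le_right (E ((u + v) ∘ cell hK w)) (E ((u - v) ∘ cell hK w))
  have hgup : E (u ∘ cell hK w) + c * (E (u ∘ cell hK w) + E (v ∘ cell hK w)) ≤
      E (u ∘ cell hK w + v ∘ cell hK w) := by
    change _ ≤ E ((u + v) ∘ cell hK w)
    linarith
  have hgvp : E (v ∘ cell hK w) + c * (E (u ∘ cell hK w) + E (v ∘ cell hK w)) ≤
      E (u ∘ cell hK w + v ∘ cell hK w) := by
    change _ ≤ E ((u + v) ∘ cell hK w)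
    linarith
  refine hno _ (h.lat.cell_mem hu w) _ (h.lat.cell_mem hv w)
    ⟨hpos, hgup, hgvp, ?_, ?_, ?_, ?_, ?_, ?_, ?_, ?_⟩
  · change _ ≤ E ((u - v) ∘ cell hK w)
    linarith
  · change _ ≤ E ((u - v) ∘ cell hK w)
    linarith
  · exact hlow _ (h.lat.cell_mem hu w) _ (h.lat.cell_mem hv w) hgvp
  · rw [add_comm (E (u ∘ cell hK w))]
    refine hlow _ (h.lat.cell_mem hv w) _ (h.lat.cell_mem hu w) ?_
    rw [add_comm (E (v ∘ cell hK w)) (E (u ∘ cell hK w)), add_comm (v ∘ cell hK w)]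
    exact hgup
  · exact hdev u fun k => hconst k 0
  · exact hdev v fun k => hconst k 1
  · exact hdev (u + v) fun k => hconst k 2
  · exact hdev (u - v) fun k => hconst k 3

end Nice

section Geometry

/-- In a normed plane there are two vectors whose sum and difference are much longer. -/
theorem norm_geometry (N : ℝ × ℝ → ℝ) (hadd : ∀ x y, N (x + y) ≤ N x + N y)
    (hsmul : ∀ (t : ℝ) x, N (t • x) = |t| * N x) (hub : ∀ x, N x ≤ |x.1| + |x.2|) {c : ℝ}
    (hc : 0 < c) (hlb : ∀ x, c * max |x.1| |x.2| ≤ N x) :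
    ∃ a b : ℝ × ℝ, (|a.1| ≤ 2 / c ∧ |a.2| ≤ 2 / c ∧ |b.1| ≤ 2 / c ∧ |b.2| ≤ 2 / c) ∧
      ∃ s : ℝ, 1 ≤ s ∧ N a ≤ s ∧ N b ≤ s ∧ √2 * s ≤ N (a + b) ∧ √2 * s ≤ N (a - b) := by
  have hneg : ∀ x, N (-x) = N x := fun x => by
    have := hsmul (-1) x
    simpa using this
  have hsub : ∀ x y, |N x - N y| ≤ N (x - y) := fun x y => by
    have h1 := hadd (x - y) y
    have h2 := hadd (y - x) x
    rw [sub_add_cancel] at h1 h2
    rw [← neg_sub x y, hneg] at h2
    rw [abs_le]
    constructor <;> linarith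
  have hcont : Continuous N := by
    rw [Metric.continuous_iff]
    intro x ε hε
    refine ⟨ε / 2, by positivity, fun y hy => ?_⟩
    rw [Real.dist_eq]
    refine (hsub y x).trans_lt ((hub _).trans_lt ?_)
    have e1 : |y.1 - x.1| < ε / 2 := lt_of_le_of_lt (le_max_left _ _) hy
    have e2 : |y.2 - x.2| < ε / 2 := lt_of_le_of_lt (le_max_right _ _) hy
    simp only [Prod.fst_sub, Prod.snd_sub]
    linarith
  have hpos : ∀ x : ℝ × ℝ, x ≠ 0 → 0 < N x := fun x hx => by
    refine lt_of_lt_of_le ?_ (hlb x)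
    refine mul_pos hc ?_
    by_contra hcon
    push Not at hcon
    apply hx
    have h1 := (le_max_left |x.1| |x.2|).trans hcon
    have h2 := (le_max_right |x.1| |x.2|).trans hcon
    exact Prod.ext (abs_eq_zero.1 (le_antisymm h1 (abs_nonneg _)))
      (abs_eq_zero.1 (le_antisymm h2 (abs_nonneg _)))
  set X : ℝ → ℝ × ℝ := fun t => (Real.cos t, Real.sin t) with hX
  have hX0 : ∀ t, X t ≠ 0 := fun t ht => by
    have h1 : Real.cos t = 0 := congrArg Prod.fst ht
    have h2 : Real.sin t = 0 := congrArg Prod.snd ht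
    have := Real.sin_sq_add_cos_sq t
    rw [h1, h2] at this
    norm_num at this
  have hXc : Continuous X := by fun_prop
  set b : ℝ → ℝ × ℝ := fun t => (N (X t))⁻¹ • X t with hb
  have hbc : Continuous b :=
    ((hcont.comp hXc).inv₀ fun t => (hpos _ (hX0 t)).ne').smul hXc
  have hbN : ∀ t, N (b t) = 1 := fun t => by
    have := hpos _ (hX0 t)
    rw [hb]
    simp only
    rw [hsmul, abs_of_pos (inv_pos.2 this), inv_mul_cancel₀ this.ne']
  have hbπ : b Real.pi = -b 0 := by
    have e : X Real.pi = -X 0 := by simp [hX]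
    simp only [hb]
    rw [e, hneg, smul_neg]
  have hN0 : N 0 = 0 := by
    have := hsmul 0 0
    simpa using this
  have hN2 : ∀ t, N (b t + b t) = 2 := fun t => by
    rw [← two_smul ℝ, hsmul, hbN]
    norm_num
  obtain ⟨t, -, ht⟩ : (0 : ℝ) ∈ (fun t => N (b 0 - b t) - N (b 0 + b t)) ''
      Set.Icc 0 Real.pi := by
    refine intermediate_value_Icc Real.pi_pos.le (ContinuousOn.sub ?_ ?_) ?_
    · exact (hcont.comp (continuous_const.sub hbc)).continuousOn
    · exact (hcont.comp (continuous_const.add hbc)).continuousOn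
    · change (0 : ℝ) ∈ Set.Icc (N (b 0 - b 0) - N (b 0 + b 0))
        (N (b 0 - b Real.pi) - N (b 0 + b Real.pi))
      rw [sub_self, hN0, hN2, hbπ, sub_neg_eq_add, hN2, add_neg_cancel, hN0]
      constructor <;> norm_num
  have ht : N (b 0 - b t) - N (b 0 + b t) = 0 := ht
  set r := N (b 0 + b t) with hr
  have hr' : N (b 0 - b t) = r := by linarith
  have hbound : ∀ t, |(b t).1| ≤ 1 / c ∧ |(b t).2| ≤ 1 / c := fun t => by
    have h1 := hlb (b t)
    rw [hbN] at h1
    have h2 := le_max_left |(b t).1| |(b t).2|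
    have h3 := le_max_right |(b t).1| |(b t).2|
    rw [le_div_iff₀ hc, le_div_iff₀ hc]
    constructor <;> nlinarith
  have hc2 : 1 / c ≤ 2 / c := by gcongr; norm_num
  have h0 := hbound 0
  have h1 := hbound t
  have hr1 : 1 ≤ r := by
    have h2 := hadd (b 0 + b t) (b 0 - b t)
    have e : b 0 + b t + (b 0 - b t) = b 0 + b 0 := by abel
    rw [e, hN2, ← hr, hr'] at h2
    linarith
  rcases le_total (√2) r with hcase | hcase
  · refine ⟨b 0, b t, ⟨h0.1.trans hc2, h0.2.trans hc2, h1.1.trans hc2, h1.2.trans hc2⟩, 1, le_rfl,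
      (hbN 0).le, (hbN t).le, ?_, ?_⟩
    · rw [mul_one]
      exact hcase
    · rw [mul_one, hr']
      exact hcase
  · have e2 : ∀ x y : ℝ, |x| ≤ 1 / c → |y| ≤ 1 / c → |x + y| ≤ 2 / c ∧ |x - y| ≤ 2 / c := by
      intro x y hx hy
      have h3 := abs_add_le x y
      have h4 := abs_sub x y
      have h5 : 1 / c + 1 / c = 2 / c := by ring
      constructor <;> linarith
    have h2 : √2 * r ≤ 2 := by
      have : √2 * √2 = 2 := Real.mul_self_sqrt (by norm_num)
      have h3 : √2 * r ≤ √2 * √2 := by gcongr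
      linarith
    refine ⟨b 0 + b t, b 0 - b t, ⟨(e2 _ _ h0.1 h1.1).1, (e2 _ _ h0.2 h1.2).1,
      (e2 _ _ h0.1 h1.1).2, (e2 _ _ h0.2 h1.2).2⟩, r, hr1, hr.symm.le, hr'.le, ?_, ?_⟩
    · have e : b 0 + b t + (b 0 - b t) = b 0 + b 0 := by abel
      rw [e, hN2]
      exact h2
    · have e : b 0 + b t - (b 0 - b t) = b t + b t := by abel
      rw [e, hN2]
      exact h2

theorem norm_geometry_grid {p : ℝ} (hp : 1 ≤ p) {c : ℝ} (hc : 0 < c) :
    ∃ J : Finset ((ℝ × ℝ) × (ℝ × ℝ)), ∀ N : ℝ × ℝ → ℝ, (∀ x, 0 ≤ N x) →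
      (∀ x y, N (x + y) ≤ N x + N y) → (∀ (t : ℝ) x, N (t • x) = |t| * N x) →
      (∀ x, N x ≤ |x.1| + |x.2|) → (∀ x, c * max |x.1| |x.2| ≤ N x) →
      ∃ ab ∈ J, max (N ab.1 ^ p) (N ab.2 ^ p) + 1 / 3 ≤
        min (N (ab.1 + ab.2) ^ p) (N (ab.1 - ab.2) ^ p) := by
  classical
  set m : ℤ := ⌈100 * (2 / c)⌉ + 1 with hm
  set I : Finset ℝ := (Finset.Icc (-m) m).image (fun i : ℤ => (i : ℝ) / 100) with hI
  refine ⟨(I ×ˢ I) ×ˢ (I ×ˢ I), fun N hN hadd hsmul hub hlb => ?_⟩
  obtain ⟨a, b, ⟨ha1, ha2, hb1, hb2⟩, s, hs, hNa, hNb, hNp, hNm⟩ :=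
    norm_geometry N hadd hsmul hub hc hlb
  have hneg : ∀ x, N (-x) = N x := fun x => by
    have := hsmul (-1) x
    simpa using this
  -- rounding
  have hround : ∀ x : ℝ, |x| ≤ 2 / c → ∃ y ∈ I, |x - y| ≤ 1 / 100 := by
    intro x hx
    refine ⟨(⌊100 * x⌋ : ℝ) / 100, Finset.mem_image.2 ⟨⌊100 * x⌋, ?_, rfl⟩, ?_⟩
    · rw [Finset.mem_Icc]
      have h1 := Int.le_ceil (100 * (2 / c))
      have h2 := Int.floor_le (100 * x)
      have h3 := Int.lt_floor_add_one (100 * x)
      rw [abs_le] at hx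
      constructor
      · have : (-m : ℝ) ≤ ⌊100 * x⌋ := by
          rw [hm]
          push_cast
          linarith
        exact_mod_cast this
      · have : (⌊100 * x⌋ : ℝ) ≤ m := by
          rw [hm]
          push_cast
          linarith
        exact_mod_cast this
    · have h2 := Int.floor_le (100 * x)
      have h3 := Int.lt_floor_add_one (100 * x)
      rw [abs_le]
      constructor <;> linarith
  obtain ⟨a1, ha1I, ha1'⟩ := hround _ ha1
  obtain ⟨a2, ha2I, ha2'⟩ := hround _ ha2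
  obtain ⟨b1, hb1I, hb1'⟩ := hround _ hb1
  obtain ⟨b2, hb2I, hb2'⟩ := hround _ hb2
  refine ⟨((a1, a2), (b1, b2)), ?_, ?_⟩
  · exact Finset.mem_product.2 ⟨Finset.mem_product.2 ⟨ha1I, ha2I⟩,
      Finset.mem_product.2 ⟨hb1I, hb2I⟩⟩
  · set a' : ℝ × ℝ := (a1, a2) with ha'
    set b' : ℝ × ℝ := (b1, b2) with hb'
    have da : N (a - a') ≤ 1 / 50 := by
      refine (hub _).trans ?_
      simp only [Prod.fst_sub, Prod.snd_sub, ha']
      linarith
    have db : N (b - b') ≤ 1 / 50 := by
      refine (hub _).trans ?_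
      simp only [Prod.fst_sub, Prod.snd_sub, hb']
      linarith
    have n1 : N a' ≤ s + 1 / 50 := by
      have h1 := hadd a (-(a - a'))
      rw [hneg] at h1
      have e : a + -(a - a') = a' := by abel
      rw [e] at h1
      linarith
    have n2 : N b' ≤ s + 1 / 50 := by
      have h1 := hadd b (-(b - b'))
      rw [hneg] at h1
      have e : b + -(b - b') = b' := by abel
      rw [e] at h1
      linarith
    have n3 : √2 * s - 1 / 25 ≤ N (a' + b') := by
      have h1 := hadd (a' + b') ((a - a') + (b - b'))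
      have h2 := hadd (a - a') (b - b')
      have e : a' + b' + ((a - a') + (b - b')) = a + b := by abel
      rw [e] at h1
      linarith
    have n4 : √2 * s - 1 / 25 ≤ N (a' - b') := by
      have h1 := hadd (a' - b') ((a - a') + -(b - b'))
      have h2 := hadd (a - a') (-(b - b'))
      rw [hneg] at h2
      have e : a' - b' + ((a - a') + -(b - b')) = a - b := by abel
      rw [e] at h1
      linarith
    have h2 : (1.41 : ℝ) ≤ √2 := by
      rw [Real.le_sqrt (by norm_num) (by norm_num)]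
      norm_num
    have h3 : 1.36 * s ≤ √2 * s - 1 / 25 := by nlinarith
    have h4 : s + 1 / 50 ≤ 1.02 * s := by linarith
    have h5 : (1.02 * s) ^ p + 1 / 3 ≤ (1.36 * s) ^ p := by
      have e1 : (1.36 * s : ℝ) = (4 / 3) * (1.02 * s) := by ring
      have e4 : (4 / 3 * (1.02 * s) : ℝ) ^ p = (4 / 3) ^ p * (1.02 * s) ^ p :=
        Real.mul_rpow (by norm_num) (by positivity)
      rw [e1, e4]
      have e2 : (4 / 3 : ℝ) ≤ (4 / 3) ^ p := by
        calc (4 / 3 : ℝ) = (4 / 3) ^ (1 : ℝ) := (Real.rpow_one _).symm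
          _ ≤ (4 / 3) ^ p := Real.rpow_le_rpow_of_exponent_le (by norm_num) hp
      have e3 : (1 : ℝ) ≤ (1.02 * s) ^ p := Real.one_le_rpow (by linarith) (by linarith)
      nlinarith
    have h6 : max (N a' ^ p) (N b' ^ p) ≤ (1.02 * s) ^ p :=
      max_le (Real.rpow_le_rpow (hN _) (n1.trans h4) (by linarith))
        (Real.rpow_le_rpow (hN _) (n2.trans h4) (by linarith))
    have h7 : (1.36 * s) ^ p ≤ min (N (a' + b') ^ p) (N (a' - b') ^ p) :=
      le_min (Real.rpow_le_rpow (by positivity) (h3.trans n3) (by linarith))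
        (Real.rpow_le_rpow (by positivity) (h3.trans n4) (by linarith))
    linarith

end Geometry

/-- The linear combination. -/
def lin (a : ℝ × ℝ) (u v : K → ℝ) : K → ℝ := a.1 • u + a.2 • v

namespace Nice

variable (h : Nice hK p ρ A E)

include h

theorem lin_mem (a : ℝ × ℝ) {u v : K → ℝ} (hu : u ∈ A) (hv : v ∈ A) : lin a u v ∈ A :=
  h.lat.add_mem _ (h.lat.smul_mem _ u hu) _ (h.lat.smul_mem _ v hv)

open Classical in
/-- The cells on which the pair is nondegenerate carry asymptotically no mass. -/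
theorem index_one {u v : K → ℝ} (hu : u ∈ A) (hv : v ∈ A) {c₀ : ℝ} (hc₀ : 0 < c₀) {ε : ℝ}
    (hε : 0 < ε) :
    ∃ N, ∀ n ≥ N, ∀ S ⊆ words n, (∀ w ∈ S, ∀ a : ℝ × ℝ, max |a.1| |a.2| = 1 →
      c₀ * (E (u ∘ cell hK w) + E (v ∘ cell hK w)) ≤ E (lin a (u ∘ cell hK w) (v ∘ cell hK w))) →
      mass hK ρ E u v n S ≤ ε := by
  have hp := h.p_pos
  have hρ := h.rho_pos
  have hc : 0 < c₀ ^ (1 / p) := by positivity
  obtain ⟨J, hJ⟩ := norm_geometry_grid h.one_lt.le hc
  have hε' : 0 < ε / (3 * (J.card + 1)) := by positivity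
  choose N hN using fun ab : (ℝ × ℝ) × (ℝ × ℝ) =>
    h.gap_tendsto (h.lin_mem ab.1 hu hv) (h.lin_mem ab.2 hu hv) hε'
  refine ⟨J.sup N, fun n hn S hS hnd => ?_⟩
  have hcell : ∀ w ∈ S, ρ ^ n * (E (u ∘ cell hK w) + E (v ∘ cell hK w)) ≤
      3 * ∑ ab ∈ J, max (gap hK ρ E (lin ab.1 u v) (lin ab.2 u v) w) 0 := by
    intro w hw
    set f := u ∘ cell hK w with hf
    set g := v ∘ cell hK w with hg
    have hfA : f ∈ A := h.lat.cell_mem hu w
    have hgA : g ∈ A := h.lat.cell_mem hv w
    have hEf := h.nonneg f hfA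
    have hEg := h.nonneg g hgA
    rcases (show 0 ≤ E f + E g by positivity).eq_or_lt with h0 | h0
    · rw [← h0, mul_zero]
      exact mul_nonneg (by norm_num) (Finset.sum_nonneg fun _ _ => le_max_right _ _)
    set ν := E f + E g with hν
    set N' : ℝ × ℝ → ℝ := fun a => (E (lin a f g) / ν) ^ (1 / p) with hN'
    have hE0 : ∀ a, 0 ≤ E (lin a f g) := fun a => h.nonneg _ (h.lin_mem a hfA hgA)
    have hN'p : ∀ a, N' a ^ p = E (lin a f g) / ν := fun a =>
      rpow_one_div_rpow hp (div_nonneg (hE0 a) h0.le)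
    have hN'eq : ∀ a, N' a = E (lin a f g) ^ (1 / p) / ν ^ (1 / p) := fun a =>
      Real.div_rpow (hE0 a) h0.le _
    have hνp : 0 < ν ^ (1 / p) := by positivity
    have hsmul : ∀ (t : ℝ) a, N' (t • a) = |t| * N' a := by
      intro t a
      have e : lin (t • a) f g = t • lin a f g := by
        funext x
        simp only [lin, Prod.smul_fst, Prod.smul_snd, smul_eq_mul, Pi.add_apply, Pi.smul_apply]
        ring
      rw [hN'eq, hN'eq, e, h.smul _ (h.lin_mem a hfA hgA), Real.mul_rpow (by positivity) (hE0 a),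
        rpow_rpow_one_div hp (abs_nonneg t)]
      ring
    have hadd : ∀ a b, N' (a + b) ≤ N' a + N' b := by
      intro a b
      have e : lin (a + b) f g = lin a f g + lin b f g := by
        funext x
        simp only [lin, Prod.fst_add, Prod.snd_add, smul_eq_mul, Pi.add_apply, Pi.smul_apply]
        ring
      rw [hN'eq, hN'eq, hN'eq, e, ← add_div]
      gcongr
      exact h.subadd _ (h.lin_mem a hfA hgA) _ (h.lin_mem b hfA hgA)
    have hub : ∀ a, N' a ≤ |a.1| + |a.2| := by
      intro a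
      have h1 : N' a ≤ N' (a.1, 0) + N' (0, a.2) := by
        have := hadd (a.1, 0) (0, a.2)
        simpa using this
      have h2 : N' (a.1, 0) ≤ |a.1| := by
        have e1 : ((a.1, 0) : ℝ × ℝ) = a.1 • ((1, 0) : ℝ × ℝ) := by simp
        rw [e1, hsmul]
        have e2 : N' (1, 0) ≤ 1 := by
          refine Real.rpow_le_one (div_nonneg (hE0 _) h0.le) ?_ (by positivity)
          rw [div_le_one h0]
          have : lin (1, 0) f g = f := by
            funext x
            simp [lin]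
          rw [this]
          linarith
        calc |a.1| * N' (1, 0) ≤ |a.1| * 1 := by gcongr
          _ = |a.1| := mul_one _
      have h3 : N' (0, a.2) ≤ |a.2| := by
        have e1 : ((0, a.2) : ℝ × ℝ) = a.2 • ((0, 1) : ℝ × ℝ) := by simp
        rw [e1, hsmul]
        have e2 : N' (0, 1) ≤ 1 := by
          refine Real.rpow_le_one (div_nonneg (hE0 _) h0.le) ?_ (by positivity)
          rw [div_le_one h0]
          have : lin (0, 1) f g = g := by
            funext x
            simp [lin]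
          rw [this]
          linarith
        calc |a.2| * N' (0, 1) ≤ |a.2| * 1 := by gcongr
          _ = |a.2| := mul_one _
      linarith
    have hlb : ∀ a, c₀ ^ (1 / p) * max |a.1| |a.2| ≤ N' a := by
      intro a
      rcases (show 0 ≤ max |a.1| |a.2| from (abs_nonneg _).trans (le_max_left _ _)).eq_or_lt
        with h1 | h1
      · rw [← h1, mul_zero]
        exact Real.rpow_nonneg (div_nonneg (hE0 _) h0.le) _
      · set t := max |a.1| |a.2| with ht
        have e1 : a = t • (t⁻¹ • a) := by rw [smul_smul, mul_inv_cancel₀ h1.ne', one_smul]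
        have e2 : max |(t⁻¹ • a).1| |(t⁻¹ • a).2| = 1 := by
          simp only [Prod.smul_fst, Prod.smul_snd, smul_eq_mul, abs_mul, abs_inv, abs_of_pos h1]
          rw [← mul_max_of_nonneg _ _ (inv_nonneg.2 h1.le), ← ht, inv_mul_cancel₀ h1.ne']
        have e3 := hnd w hw (t⁻¹ • a) e2
        have e4 : c₀ ^ (1 / p) ≤ N' (t⁻¹ • a) := by
          refine Real.rpow_le_rpow hc₀.le ?_ (by positivity)
          rw [le_div_iff₀ h0]
          exact e3
        calc c₀ ^ (1 / p) * t ≤ N' (t⁻¹ • a) * t := by gcongr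
          _ = N' (t • (t⁻¹ • a)) := by rw [hsmul t, abs_of_pos h1, mul_comm]
          _ = N' a := by rw [← e1]
    obtain ⟨ab, hab, hgap⟩ := hJ N' (fun a => Real.rpow_nonneg (div_nonneg (hE0 _) h0.le) _)
      hadd hsmul hub hlb
    rw [hN'p, hN'p, hN'p, hN'p] at hgap
    have hgap2 : ν / 3 ≤ min (E (lin (ab.1 + ab.2) f g)) (E (lin (ab.1 - ab.2) f g)) -
        max (E (lin ab.1 f g)) (E (lin ab.2 f g)) := by
      rw [max_div_div_right h0.le, min_div_div_right h0.le] at hgap
      rw [le_div_iff₀ h0, add_mul, div_mul_cancel₀ _ h0.ne'] at hgap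
      linarith
    have hgapw : ρ ^ n * (ν / 3) ≤ gap hK ρ E (lin ab.1 u v) (lin ab.2 u v) w := by
      unfold gap
      have e1 : (lin ab.1 u v + lin ab.2 u v) ∘ cell hK w = lin (ab.1 + ab.2) f g := by
        funext x
        simp only [lin, hf, hg, Function.comp_apply, Pi.add_apply, Pi.smul_apply, smul_eq_mul,
          Prod.fst_add, Prod.snd_add]
        ring
      have e2 : (lin ab.1 u v - lin ab.2 u v) ∘ cell hK w = lin (ab.1 - ab.2) f g := by
        funext x
        simp only [lin, hf, hg, Function.comp_apply, Pi.add_apply, Pi.sub_apply, Pi.smul_apply,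
          smul_eq_mul, Prod.fst_sub, Prod.snd_sub]
        ring
      have e3 : ∀ a, lin a u v ∘ cell hK w = lin a f g := fun a => rfl
      rw [e1, e2, e3, e3, mem_words.1 (hS hw)]
      gcongr
    have h5 : gap hK ρ E (lin ab.1 u v) (lin ab.2 u v) w ≤
        ∑ ab ∈ J, max (gap hK ρ E (lin ab.1 u v) (lin ab.2 u v) w) 0 :=
      (le_max_left _ 0).trans (Finset.single_le_sum
        (f := fun ab : (ℝ × ℝ) × (ℝ × ℝ) => max (gap hK ρ E (lin ab.1 u v) (lin ab.2 u v) w) 0)
        (fun _ _ => le_max_right _ _) hab)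
    linarith
  calc mass hK ρ E u v n S
      ≤ ∑ w ∈ S, 3 * ∑ ab ∈ J, max (gap hK ρ E (lin ab.1 u v) (lin ab.2 u v) w) 0 :=
        Finset.sum_le_sum hcell
    _ ≤ ∑ w ∈ words n, 3 * ∑ ab ∈ J, max (gap hK ρ E (lin ab.1 u v) (lin ab.2 u v) w) 0 := by
        refine Finset.sum_le_sum_of_subset_of_nonneg hS fun w _ _ => ?_
        exact mul_nonneg (by norm_num) (Finset.sum_nonneg fun _ _ => le_max_right _ _)
    _ = 3 * ∑ ab ∈ J, ∑ w ∈ words n, max (gap hK ρ E (lin ab.1 u v) (lin ab.2 u v) w) 0 := by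
        rw [← Finset.mul_sum, Finset.sum_comm]
    _ ≤ 3 * ∑ _ab ∈ J, ε / (3 * (J.card + 1)) := by
        gcongr with ab hab
        exact hN ab n ((Finset.le_sup hab).trans hn)
    _ = (J.card / (J.card + 1)) * ε := by
        rw [Finset.sum_const, nsmul_eq_mul]
        field_simp
    _ ≤ 1 * ε := by
        gcongr
        rw [div_le_one (by positivity)]
        linarith
    _ = ε := one_mul ε

end Nice

end Pool.Agent.SierpinskiCarpet
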