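import Pool.Agent.helper33.SCCross

/-!
# Interpolation by template functions
-/

open MeasureTheory Filter Topology
open scoped ENNReal

namespace Pool.Agent.SierpinskiCarpet

variable {K : Set (ℝ × ℝ)} {hK : IsCarpet K} {A : Set (K → ℝ)} {p ρ : ℝ}

/-- A linear lattice of continuous functions which is stable under symmetries and gluing. -/
structure LatClass (hK : IsCarpet K) (A : Set (K → ℝ)) : Prop where
  cont : ∀ u ∈ A, Continuous u
  const_mem : ∀ c : ℝ, (fun _ => c) ∈ A
  add_mem : ∀ u ∈ A, ∀ v ∈ A, u + v ∈ A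
  smul_mem : ∀ a : ℝ, ∀ u ∈ A, a • u ∈ A
  abs_mem : ∀ u ∈ A, (fun x => |u x|) ∈ A
  reflX_mem : ∀ u ∈ A, u ∘ reflX hK ∈ A
  reflY_mem : ∀ u ∈ A, u ∘ reflY hK ∈ A
  swap_mem : ∀ u ∈ A, u ∘ swapXY hK ∈ A
  comp_mem : ∀ u ∈ A, ∀ i, u ∘ cellMap hK i ∈ A
  glue : ∀ u, Continuous u → (∀ i, u ∘ cellMap hK i ∈ A) → u ∈ A

namespace LatClass

variable (h : LatClass hK A)

include h

theorem sub_mem {u v : K → ℝ} (hu : u ∈ A) (hv : v ∈ A) : u - v ∈ A := by
  have := h.add_mem u hu _ (h.smul_mem (-1) v hv)
  have e : u + (-1 : ℝ) • v = u - v := by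
    funext x
    simp [sub_eq_add_neg]
  rwa [e] at this

theorem add_const_mem {u : K → ℝ} (hu : u ∈ A) (c : ℝ) : (fun x => u x + c) ∈ A :=
  h.add_mem u hu _ (h.const_mem c)

theorem max_mem {u v : K → ℝ} (hu : u ∈ A) (hv : v ∈ A) : (fun x => max (u x) (v x)) ∈ A := by
  have h1 := h.smul_mem (1 / 2) _ (h.add_mem _ (h.add_mem u hu v hv) _
    (h.abs_mem _ (h.sub_mem hu hv)))
  have e : (1 / 2 : ℝ) • (u + v + fun x => |(u - v) x|) = fun x => max (u x) (v x) := by
    funext x
    simp only [Pi.smul_apply, Pi.add_apply, Pi.sub_apply, smul_eq_mul]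
    rcases le_total (u x) (v x) with hh | hh
    · rw [max_eq_right hh, abs_of_nonpos (by linarith)]
      ring
    · rw [max_eq_left hh, abs_of_nonneg (by linarith)]
      ring
  rwa [e] at h1

theorem min_mem {u v : K → ℝ} (hu : u ∈ A) (hv : v ∈ A) : (fun x => min (u x) (v x)) ∈ A := by
  have h1 := h.smul_mem (-1) _ (h.max_mem (h.smul_mem (-1) u hu) (h.smul_mem (-1) v hv))
  have e : ((-1 : ℝ) • fun x => max (((-1 : ℝ) • u) x) (((-1 : ℝ) • v) x)) =
      fun x => min (u x) (v x) := by
    funext x
    simp only [Pi.smul_apply, smul_eq_mul, neg_mul, one_mul]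
    rw [max_neg_neg, neg_neg]
  rwa [e] at h1

theorem sum_mem {ι : Type*} (s : Finset ι) (f : ι → K → ℝ) (hf : ∀ i ∈ s, f i ∈ A) :
    (fun x => ∑ i ∈ s, f i x) ∈ A := by
  classical
  induction s using Finset.induction_on with
  | empty => simpa using h.const_mem 0
  | insert i s hi ih =>
    have h1 := h.add_mem _ (hf i (Finset.mem_insert_self i s)) _
      (ih fun j hj => hf j (Finset.mem_insert_of_mem hj))
    have e : (fun x => ∑ j ∈ insert i s, f j x) = f i + fun x => ∑ j ∈ s, f j x := by
      funext x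
      rw [Finset.sum_insert hi]
      rfl
    rw [e]
    exact h1

theorem cell_mem {u : K → ℝ} (hu : u ∈ A) (w : List (Fin 8)) : u ∘ cell hK w ∈ A := by
  induction w generalizing u with
  | nil => exact hu
  | cons i w ih => exact ih (h.comp_mem u hu i)

end LatClass

/-- The sign of a boolean. -/
def sgn (b : Bool) : ℝ := if b then 1 else -1

theorem abs_sgn (b : Bool) : |sgn b| = 1 := by cases b <;> simp [sgn]

/-- The corners of the carpet. -/
def corner (hK : IsCarpet K) (c : Bool × Bool) : K :=
  ⟨(sgn c.1, sgn c.2), corner_mem hK (abs_sgn _) (abs_sgn _)⟩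

/-- Template functions for the interpolation. -/
structure IsTemplate (A : Set (K → ℝ)) (τ : Bool × Bool → K → ℝ) : Prop where
  mem : ∀ c, τ c ∈ A
  sum : ∀ x, ∑ c, τ c x = 1
  bound : ∀ c x, |τ c x| ≤ 2
  h0 : ∀ a b z, z.1.1 = sgn a → τ (!a, b) z = 0
  h1 : ∀ a a' b z z', z.1.1 = sgn a → z'.1.1 = sgn a' → z.1.2 = z'.1.2 → τ (a, b) z = τ (a', b) z'
  v0 : ∀ a b z, z.1.2 = sgn b → τ (a, !b) z = 0
  v1 : ∀ a b b' z z', z.1.2 = sgn b → z'.1.2 = sgn b' → z.1.1 = z'.1.1 → τ (a, b) z = τ (a, b') z'

theorem exists_template (h : LatClass hK A) (hc : ∃ u ∈ A, IsCrossing u) :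
    ∃ τ, IsTemplate A τ := by
  obtain ⟨u, hu, hcr⟩ := hc
  -- symmetrise and clamp
  set g₁ : K → ℝ := (1 / 2 : ℝ) • (u + u ∘ reflY hK) with hg₁
  have hg₁A : g₁ ∈ A := h.smul_mem _ _ (h.add_mem u hu _ (h.reflY_mem u hu))
  set g : K → ℝ := fun x => min (max (g₁ x) 0) 1 with hg
  have hgA : g ∈ A := h.min_mem (h.max_mem hg₁A (h.const_mem 0)) (h.const_mem 1)
  have g_left : ∀ x, x.1.1 = -1 → g x = 0 := fun x hx => by
    have : g₁ x = 0 := by
      simp only [hg₁, Pi.smul_apply, Pi.add_apply, Function.comp_apply, smul_eq_mul]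
      rw [hcr.left x hx, hcr.left (reflY hK x) hx]
      norm_num
    simp only [hg, this]
    norm_num
  have g_right : ∀ x, x.1.1 = 1 → g x = 1 := fun x hx => by
    have : g₁ x = 1 := by
      simp only [hg₁, Pi.smul_apply, Pi.add_apply, Function.comp_apply, smul_eq_mul]
      rw [hcr.right x hx, hcr.right (reflY hK x) hx]
      norm_num
    simp only [hg, this]
    norm_num
  have g_symm : ∀ x, g (reflY hK x) = g x := fun x => by
    have : g₁ (reflY hK x) = g₁ x := by
      simp only [hg₁, Pi.smul_apply, Pi.add_apply, Function.comp_apply, smul_eq_mul]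
      rw [reflY_reflY]
      ring
    simp only [hg, this]
  have g0 : ∀ x, 0 ≤ g x := fun x => le_min (le_max_right _ _) zero_le_one
  have g1 : ∀ x, g x ≤ 1 := fun x => min_le_right _ _
  -- the functions in the two coordinates
  set e : Bool → K → ℝ := fun a x => if a then g x else 1 - g x with he
  set e' : Bool → K → ℝ := fun b x => e b (swapXY hK x) with he'
  have heA : ∀ a, e a ∈ A := fun a => by
    cases a
    · have := h.sub_mem (h.const_mem 1) hgA
      exact this
    · exact hgA
  have he'A : ∀ a, e' a ∈ A := fun a => h.swap_mem _ (heA a)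
  have e0 : ∀ a x, 0 ≤ e a x := fun a x => by
    cases a
    · have := g1 x
      simp [he, this]
    · have := g0 x
      simp [he, this]
  have e1 : ∀ a x, e a x ≤ 1 := fun a x => by
    cases a
    · have := g0 x
      simp [he, this]
    · have := g1 x
      simp [he, this]
  have e_side : ∀ a z, z.1.1 = sgn a → e a z = 1 ∧ e (!a) z = 0 := fun a z hz => by
    cases a
    · have := g_left z hz
      simp [he, this]
    · have := g_right z hz
      simp [he, this]
  have esum : ∀ x, e true x + e false x = 1 := fun x => by simp [he]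
  have e_trace : ∀ (b b' : Bool) a (z z' : K), z.1.2 = sgn b → z'.1.2 = sgn b' → z.1.1 = z'.1.1 →
      e a z = e a z' := by
    intro b b' a z z' hz hz' hzz'
    have : z = z' ∨ z = reflY hK z' := by
      cases b <;> cases b'
      · left
        exact Subtype.ext (Prod.ext hzz' (by rw [hz, hz']))
      · right
        refine Subtype.ext (Prod.ext hzz' ?_)
        simp [reflY, hz, hz', sgn]
      · right
        refine Subtype.ext (Prod.ext hzz' ?_)
        simp [reflY, hz, hz', sgn]
      · left
        exact Subtype.ext (Prod.ext hzz' (by rw [hz, hz']))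
    rcases this with rfl | rfl
    · rfl
    · simp only [he, g_symm]
  set t : Bool × Bool → K → ℝ := fun c x => min (e c.1 x) (e' c.2 x) with ht
  have htA : ∀ c, t c ∈ A := fun c => h.min_mem (heA _) (he'A _)
  have t0 : ∀ c x, 0 ≤ t c x := fun c x => le_min (e0 _ _) (e0 _ _)
  have t1 : ∀ c x, t c x ≤ 1 := fun c x => (min_le_left _ _).trans (e1 _ _)
  have hsumA : (fun x => ∑ c, t c x) ∈ A := h.sum_mem _ _ fun c _ => htA c
  set τ : Bool × Bool → K → ℝ := fun c x => t c x + (1 / 4) * (1 - ∑ c, t c x) with hτ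
  have sum4 : ∀ f : Bool × Bool → ℝ,
      ∑ c, f c = f (true, true) + f (true, false) + (f (false, true) + f (false, false)) :=
    fun f => by rw [Fintype.sum_prod_type]; simp
  have sum_h : ∀ a (z : K), z.1.1 = sgn a → ∑ c, t c z = 1 := by
    intro a z hz
    have h1 := e_side a z hz
    have h2 := esum (swapXY hK z)
    have ht1 : ∀ b, t (a, b) z = e' b z := fun b => by
      simp only [ht]
      rw [h1.1, min_eq_right (e1 _ _)]
    have ht2 : ∀ b, t (!a, b) z = 0 := fun b => by
      simp only [ht]
      rw [h1.2, min_eq_left (e0 _ _)]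
    rw [sum4]
    cases a
    · have b1 := ht1 true
      have b2 := ht1 false
      have b3 := ht2 true
      have b4 := ht2 false
      simp only [Bool.not_false] at b3 b4
      rw [b1, b2, b3, b4]
      simp only [he']
      linarith
    · have b1 := ht1 true
      have b2 := ht1 false
      have b3 := ht2 true
      have b4 := ht2 false
      simp only [Bool.not_true] at b3 b4
      rw [b1, b2, b3, b4]
      simp only [he']
      linarith
  have sum_v : ∀ b (z : K), z.1.2 = sgn b → ∑ c, t c z = 1 := by
    intro b z hz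
    have h1 := e_side b (swapXY hK z) hz
    have h2 := esum z
    have ht1 : ∀ a, t (a, b) z = e a z := fun a => by
      simp only [ht, he']
      rw [h1.1, min_eq_left (e1 _ _)]
    have ht2 : ∀ a, t (a, !b) z = 0 := fun a => by
      simp only [ht, he']
      rw [h1.2, min_eq_right (e0 _ _)]
    rw [sum4]
    cases b
    · have b1 := ht1 true
      have b2 := ht1 false
      have b3 := ht2 true
      have b4 := ht2 false
      simp only [Bool.not_false] at b3 b4
      rw [b1, b2, b3, b4]
      linarith
    · have b1 := ht1 true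
      have b2 := ht1 false
      have b3 := ht2 true
      have b4 := ht2 false
      simp only [Bool.not_true] at b3 b4
      rw [b1, b2, b3, b4]
      linarith
  refine ⟨τ, ⟨fun c => ?_, fun x => ?_, fun c x => ?_, ?_, ?_, ?_, ?_⟩⟩
  · exact h.add_mem _ (htA c) _ (h.smul_mem (1 / 4) _ (h.sub_mem (h.const_mem 1) hsumA))
  · simp only [hτ]
    rw [Finset.sum_add_distrib, Finset.sum_const, Finset.card_univ]
    simp only [Fintype.card_prod, Fintype.card_bool, nsmul_eq_mul]
    push_cast
    ring
  · have s0 : 0 ≤ ∑ c, t c x := Finset.sum_nonneg fun c _ => t0 c x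
    have s1 : ∑ c, t c x ≤ 4 := by
      rw [sum4]
      have a1 := t1 (true, true) x
      have a2 := t1 (true, false) x
      have a3 := t1 (false, true) x
      have a4 := t1 (false, false) x
      linarith
    have a1 := t0 c x
    have a2 := t1 c x
    simp only [hτ]
    rw [abs_le]
    constructor <;> linarith
  · intro a b z hz
    simp only [hτ]
    rw [sum_h a z hz]
    simp only [ht, (e_side a z hz).2, sub_self, mul_zero, add_zero]
    exact min_eq_left (e0 _ _)
  · intro a a' b z z' hz hz' hzz'
    simp only [hτ]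
    rw [sum_h a z hz, sum_h a' z' hz']
    simp only [ht, (e_side a z hz).1, (e_side a' z' hz').1, sub_self, mul_zero, add_zero]
    congr 1
    exact e_trace a a' b _ _ hz hz' hzz'
  · intro a b z hz
    simp only [hτ]
    rw [sum_v b z hz]
    have := (e_side b (swapXY hK z) hz).2
    simp only [ht, he', this, sub_self, mul_zero, add_zero]
    exact min_eq_right (e0 _ _)
  · intro a b b' z z' hz hz' hzz'
    simp only [hτ]
    rw [sum_v b z hz, sum_v b' z' hz']
    have h1 := (e_side b (swapXY hK z) hz).1
    have h2 := (e_side b' (swapXY hK z') hz').1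
    simp only [ht, he', h1, h2, sub_self, mul_zero, add_zero]
    congr 1
    exact e_trace b b' a _ _ hz hz' hzz'

/-- `g` interpolates `f` at the corners of the cells of level `n`. -/
def IsInterp (hK : IsCarpet K) (τ : Bool × Bool → K → ℝ) (n : ℕ) (f g : K → ℝ) : Prop :=
  ∀ w ∈ words n, ∀ y, g (cell hK w y) = ∑ c, f (cell hK w (corner hK c)) * τ c y

theorem IsInterp.comp {τ : Bool × Bool → K → ℝ} {n : ℕ} {f g : K → ℝ}
    (h : IsInterp hK τ (n + 1) f g) (i : Fin 8) :
    IsInterp hK τ n (f ∘ cellMap hK i) (g ∘ cellMap hK i) := by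
  intro w hw y
  exact h (i :: w) (mem_words.2 (by simp [mem_words.1 hw])) y

theorem IsInterp.zero {τ : Bool × Bool → K → ℝ} {f g : K → ℝ}
    (h : IsInterp hK τ 0 f g) (y : K) : g y = ∑ c, f (corner hK c) * τ c y :=
  h [] (mem_words.2 rfl) y

theorem sgn_of_cell {a : Bool} {i : Fin 8} {y : K} (h : (cellMap hK i y).1.1 = sgn a) :
    (q i).1 = sgn a ∧ y.1.1 = sgn a := by
  cases a
  · exact left_of_cell hK h
  · exact right_of_cell hK h

theorem sgn_of_cell' {a : Bool} {i : Fin 8} {y : K} (h : (cellMap hK i y).1.2 = sgn a) :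
    (q i).2 = sgn a ∧ y.1.2 = sgn a := by
  have e : (cellMap hK i y).1.2 = (y.1.2 + 2 * (q i).2) / 3 := contraction_snd i y
  have b := abs_le.1 (abs_snd_le hK y)
  rw [h] at e
  cases a <;> rcases q_snd i with a | a | a <;> rw [a] at e ⊢ <;> simp only [sgn] at e ⊢ <;>
    norm_num at e ⊢ <;> linarith

theorem exists_side (hK : IsCarpet K) (a a' : Bool) (y : K) (hy : y.1.1 = sgn a) :
    ∃ y' : K, y'.1.1 = sgn a' ∧ y'.1.2 = y.1.2 := by
  by_cases h : a = a'
  · exact ⟨y, by rw [hy, h], rfl⟩
  · refine ⟨reflX hK y, ?_, rfl⟩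
    change -y.1.1 = sgn a'
    rw [hy]
    cases a <;> cases a' <;> simp_all [sgn]

theorem exists_side' (hK : IsCarpet K) (a a' : Bool) (y : K) (hy : y.1.2 = sgn a) :
    ∃ y' : K, y'.1.2 = sgn a' ∧ y'.1.1 = y.1.1 := by
  by_cases h : a = a'
  · exact ⟨y, by rw [hy, h], rfl⟩
  · refine ⟨reflY hK y, ?_, rfl⟩
    change -y.1.2 = sgn a'
    rw [hy]
    cases a <;> cases a' <;> simp_all [sgn]

theorem sum_corners (f : Bool × Bool → ℝ) (a : Bool) :
    ∑ c, f c = ∑ b, f (a, b) + ∑ b, f (!a, b) := by
  rw [Fintype.sum_prod_type]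
  cases a <;> simp [add_comm]

theorem sum_corners' (f : Bool × Bool → ℝ) (b : Bool) :
    ∑ c, f c = ∑ a, f (a, b) + ∑ a, f (a, !b) := by
  rw [Fintype.sum_prod_type_right]
  cases b <;> simp [add_comm]

/-- The traces of the interpolants on the vertical sides depend only on the traces of the
functions. -/
theorem IsInterp.trace_h {τ : Bool × Bool → K → ℝ} (hτ : IsTemplate A τ) (a a' : Bool) {n : ℕ}
    {f f' g g' : K → ℝ} (hg : IsInterp hK τ n f g) (hg' : IsInterp hK τ n f' g')
    (hff' : ∀ z z' : K, z.1.1 = sgn a → z'.1.1 = sgn a' → z.1.2 = z'.1.2 → f z = f' z') :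
    ∀ z z' : K, z.1.1 = sgn a → z'.1.1 = sgn a' → z.1.2 = z'.1.2 → g z = g' z' := by
  induction n generalizing f f' g g' with
  | zero =>
    intro z z' hz hz' hzz'
    rw [hg.zero, hg'.zero, sum_corners _ a, sum_corners _ a']
    simp only [hτ.h0 a _ z hz, hτ.h0 a' _ z' hz', mul_zero, Finset.sum_const_zero, add_zero]
    refine Finset.sum_congr rfl fun b _ => ?_
    rw [hτ.h1 a a' b z z' hz hz' hzz']
    congr 1
    exact hff' _ _ rfl rfl rfl
  | succ n ih =>
    intro z z' hz hz' hzz'
    obtain ⟨i, y, rfl⟩ := exists_cellMap hK z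
    obtain ⟨hi, hy⟩ := sgn_of_cell hz
    have hb : ∀ b : Bool, sgn b = -1 ∨ sgn b = 0 ∨ sgn b = 1 := fun b => by
      cases b <;> simp [sgn]
    have hb' : ∀ b : Bool, sgn b ≠ 0 := fun b => by
      cases b <;> simp [sgn]
    obtain ⟨j, hj⟩ := exists_q (hb a') (q_snd i) (fun hh => hb' a' hh.1)
    obtain ⟨y', hy'1, hy'2⟩ := exists_side hK a a' y hy
    have hz'eq : z' = cellMap hK j y' := by
      refine Subtype.ext (Prod.ext ?_ ?_)
      · rw [hz']
        change _ = (contraction j y').1
        rw [contraction_fst, hj, hy'1]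
        ring
      · rw [← hzz']
        change (contraction i y).2 = (contraction j y').2
        rw [contraction_snd, contraction_snd, hj, hy'2]
    rw [hz'eq]
    refine ih (hg.comp i) (hg'.comp j) (fun x x' hx hx' hxx' => ?_) y y' hy hy'1 hy'2.symm
    refine hff' _ _ ?_ ?_ ?_
    · change (contraction i x).1 = _
      rw [contraction_fst, hi, hx]
      ring
    · change (contraction j x').1 = _
      rw [contraction_fst, hj, hx']
      ring
    · change (contraction i x).2 = (contraction j x').2
      rw [contraction_snd, contraction_snd, hj, hxx']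

theorem IsInterp.trace_v {τ : Bool × Bool → K → ℝ} (hτ : IsTemplate A τ) (b b' : Bool) {n : ℕ}
    {f f' g g' : K → ℝ} (hg : IsInterp hK τ n f g) (hg' : IsInterp hK τ n f' g')
    (hff' : ∀ z z' : K, z.1.2 = sgn b → z'.1.2 = sgn b' → z.1.1 = z'.1.1 → f z = f' z') :
    ∀ z z' : K, z.1.2 = sgn b → z'.1.2 = sgn b' → z.1.1 = z'.1.1 → g z = g' z' := by
  induction n generalizing f f' g g' with
  | zero =>
    intro z z' hz hz' hzz'
    rw [hg.zero, hg'.zero, sum_corners' _ b, sum_corners' _ b']
    simp only [hτ.v0 _ b z hz, hτ.v0 _ b' z' hz', mul_zero, Finset.sum_const_zero, add_zero]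
    refine Finset.sum_congr rfl fun a _ => ?_
    rw [hτ.v1 a b b' z z' hz hz' hzz']
    congr 1
    exact hff' _ _ rfl rfl rfl
  | succ n ih =>
    intro z z' hz hz' hzz'
    obtain ⟨i, y, rfl⟩ := exists_cellMap hK z
    obtain ⟨hi, hy⟩ := sgn_of_cell' hz
    have hb : ∀ b : Bool, sgn b = -1 ∨ sgn b = 0 ∨ sgn b = 1 := fun b => by
      cases b <;> simp [sgn]
    have hb' : ∀ b : Bool, sgn b ≠ 0 := fun b => by
      cases b <;> simp [sgn]
    obtain ⟨j, hj⟩ := exists_q (q_fst i) (hb b') (fun hh => hb' b' hh.2)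
    obtain ⟨y', hy'1, hy'2⟩ := exists_side' hK b b' y hy
    have hz'eq : z' = cellMap hK j y' := by
      refine Subtype.ext (Prod.ext ?_ ?_)
      · rw [← hzz']
        change (contraction i y).1 = (contraction j y').1
        rw [contraction_fst, contraction_fst, hj, hy'2]
      · rw [hz']
        change _ = (contraction j y').2
        rw [contraction_snd, hj, hy'1]
        ring
    rw [hz'eq]
    refine ih (hg.comp i) (hg'.comp j) (fun x x' hx hx' hxx' => ?_) y y' hy hy'1 hy'2.symm
    refine hff' _ _ ?_ ?_ ?_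
    · change (contraction i x).2 = _
      rw [contraction_snd, hi, hx]
      ring
    · change (contraction j x').2 = _
      rw [contraction_snd, hj, hx']
      ring
    · change (contraction i x).1 = (contraction j x').1
      rw [contraction_fst, contraction_fst, hj, hxx']

/-- Existence of interpolants. -/
theorem exists_interp (h : LatClass hK A) {τ : Bool × Bool → K → ℝ} (hτ : IsTemplate A τ) (n : ℕ)
    (f : K → ℝ) : ∃ g ∈ A, IsInterp hK τ n f g := by
  induction n generalizing f with
  | zero =>
    refine ⟨fun x => ∑ c, f (corner hK c) * τ c x,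
      h.sum_mem _ (fun c => f (corner hK c) • τ c) fun c _ => h.smul_mem _ _ (hτ.mem c), ?_⟩
    intro w hw y
    have : w = [] := List.length_eq_zero_iff.1 (mem_words.1 hw)
    subst this
    rfl
  | succ n ih =>
    choose G hGA hG using fun i => ih (f ∘ cellMap hK i)
    obtain ⟨g, hgc, hg⟩ := exists_glue hK G (fun i => h.cont _ (hGA i)) (by
      intro i j z z' h1 h2 hz hz' hzz'
      refine IsInterp.trace_h hτ true false (hG i) (hG j) (fun x x' hx hx' hxx' => ?_) z z' hz hz'
        hzz'
      simp only [Function.comp_apply]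
      congr 1
      refine Subtype.ext (Prod.ext ?_ ?_)
      · change (contraction i x).1 = (contraction j x').1
        rw [contraction_fst, contraction_fst, hx, hx', h1]
        simp only [sgn]
        norm_num
        ring
      · change (contraction i x).2 = (contraction j x').2
        rw [contraction_snd, contraction_snd, hxx', h2]) (by
      intro i j z z' h1 h2 hz hz' hzz'
      refine IsInterp.trace_v hτ true false (hG i) (hG j) (fun x x' hx hx' hxx' => ?_) z z' hz hz'
        hzz'
      simp only [Function.comp_apply]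
      congr 1
      refine Subtype.ext (Prod.ext ?_ ?_)
      · change (contraction i x).1 = (contraction j x').1
        rw [contraction_fst, contraction_fst, hxx', h2]
      · change (contraction i x).2 = (contraction j x').2
        rw [contraction_snd, contraction_snd, hx, hx', h1]
        simp only [sgn]
        norm_num
        ring)
    refine ⟨g, h.glue g hgc fun i => by rw [hg i]; exact hGA i, ?_⟩
    intro w hw y
    cases w with
    | nil =>
      have := mem_words.1 hw
      simp at this
    | cons i w =>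
      have hw' : w ∈ words n := mem_words.2 (by simpa using mem_words.1 hw)
      have := hG i w hw' y
      rw [← hg i] at this
      exact this

/-- Interpolants of a continuous function converge uniformly. -/
theorem IsInterp.dist_le {τ : Bool × Bool → K → ℝ} (hτ : IsTemplate A τ) {n : ℕ}
    {f g : K → ℝ} (hg : IsInterp hK τ n f g) {ε : ℝ}
    (hf : ∀ w ∈ words n, ∀ x y, |f (cell hK w x) - f (cell hK w y)| ≤ ε) (x : K) :
    |g x - f x| ≤ 8 * ε := by
  obtain ⟨w, hw, y, rfl⟩ := exists_cell hK n x
  rw [hg w hw y]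
  have e1 : ∑ c, f (cell hK w (corner hK c)) * τ c y - f (cell hK w y) =
      ∑ c, (f (cell hK w (corner hK c)) - f (cell hK w y)) * τ c y := by
    simp only [sub_mul, Finset.sum_sub_distrib, ← Finset.mul_sum, hτ.sum, mul_one]
  rw [e1]
  refine (Finset.abs_sum_le_sum_abs _ _).trans ?_
  have e2 : ∀ c : Bool × Bool, |(f (cell hK w (corner hK c)) - f (cell hK w y)) * τ c y| ≤
      ε * 2 := fun c => by
    rw [abs_mul]
    have h1 := hf w hw (corner hK c) y
    have h2 := hτ.bound c y
    have : 0 ≤ ε := (abs_nonneg _).trans h1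
    gcongr
  refine (Finset.sum_le_sum fun c _ => e2 c).trans ?_
  rw [Finset.sum_const, Finset.card_univ]
  simp only [Fintype.card_prod, Fintype.card_bool, nsmul_eq_mul]
  push_cast
  linarith

/-- The interpolant of a crossing function is a crossing function. -/
theorem IsInterp.isCrossing {τ : Bool × Bool → K → ℝ} (hτ : IsTemplate A τ) {n : ℕ}
    {f g : K → ℝ} (hg : IsInterp hK τ n f g) (hgc : Continuous g) (hf : IsCrossing f) :
    IsCrossing g := by
  have const : ∀ c : ℝ, IsInterp hK τ n (fun _ => c) (fun _ => c) := fun c w _ y => by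
    rw [← Finset.mul_sum, hτ.sum, mul_one]
  refine ⟨hgc, fun x hx => ?_, fun x hx => ?_⟩
  · exact IsInterp.trace_h hτ false false hg (const 0)
      (fun z z' hz _ _ => hf.left z hz) x x hx hx rfl
  · exact IsInterp.trace_h hτ true true hg (const 1)
      (fun z z' hz _ _ => hf.right z hz) x x hx hx rfl

end Pool.Agent.SierpinskiCarpet
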