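import Pool.Agent.helper33.SCNice

/-!
# Strong locality
-/

open MeasureTheory Filter Topology
open scoped ENNReal

namespace Pool.Agent.SierpinskiCarpet

variable {K : Set (ℝ × ℝ)} {hK : IsCarpet K} {A : Set (K → ℝ)} {p ρ : ℝ} {E : (K → ℝ) → ℝ}

theorem exists_bound (hK : IsCarpet K) {u : K → ℝ} (hu : Continuous u) :
    ∃ R : ℝ, 0 < R ∧ ∀ x, |u x| ≤ R := by
  have := hK.instCompact
  have := hK.instNonempty
  obtain ⟨x₀, -, hx₀⟩ := isCompact_univ.exists_isMaxOn Set.univ_nonempty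
    (continuous_abs.comp hu).continuousOn
  refine ⟨|u x₀| + 1, by positivity, fun x => ?_⟩
  have : |u x| ≤ |u x₀| := hx₀ (Set.mem_univ x)
  linarith

/-- Clamping. -/
noncomputable def clamp (ε t : ℝ) : ℝ := max (min t ε) (-ε)

theorem abs_clamp_sub_le (ε s t : ℝ) : |clamp ε s - clamp ε t| ≤ |s - t| := by
  unfold clamp
  refine (abs_max_sub_max_le_max _ _ _ _).trans ?_
  rw [sub_self, abs_zero]
  refine max_le ?_ (abs_nonneg _)
  refine (abs_min_sub_min_le_max _ _ _ _).trans ?_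
  rw [sub_self, abs_zero]
  exact max_le le_rfl (abs_nonneg _)

theorem abs_clamp_le {ε : ℝ} (hε : 0 ≤ ε) (t : ℝ) : |clamp ε t| ≤ ε := by
  unfold clamp
  rw [abs_le]
  exact ⟨le_max_right _ _, max_le (min_le_right _ _) (by linarith)⟩

theorem clamp_of_abs_le {ε t : ℝ} (h : |t| ≤ ε) : clamp ε t = t := by
  unfold clamp
  rw [abs_le] at h
  rw [min_eq_left h.2, max_eq_left h.1]

/-- The integer levels are crossed by `u` on the cell `w`. -/
def Crosses (hK : IsCarpet K) (u : K → ℝ) (w : List (Fin 8)) : Prop :=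
  ∃ j : ℤ, (∃ z, u (cell hK w z) ≤ j) ∧ ∃ z, (j : ℝ) ≤ u (cell hK w z)

namespace Nice

variable (h : Nice hK p ρ A E)

include h

/-- Near its zero set a function agrees with a function of small energy. -/
theorem exists_local {u : K → ℝ} (hu : u ∈ A) {κ : ℝ} (hκ : 0 < κ) :
    ∃ ε > 0, ∃ y ∈ A, E y ≤ κ ∧ ∀ x, |u x| < ε → y x = u x := by
  obtain ⟨C, hC, hb⟩ := h.lipschitz_comp 1 zero_le_one
  have hpos : ∀ n : ℕ, (0 : ℝ) < 1 / (n + 1) := fun n => by positivity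
  set v : ℕ → K → ℝ := fun n x => clamp (1 / (n + 1)) (u x) with hv
  have hvE : ∀ n, v n ∈ A ∧ E (v n) ≤ C * (E u + E u) := fun n =>
    hb (fun a _ => clamp (1 / (n + 1)) a) (fun a b a' b' => by
      have := abs_clamp_sub_le (1 / (n + 1)) a a'
      have := abs_nonneg (b - b')
      linarith) u hu u hu
  have hlim : Tendsto (fun n : ℕ => (1 : ℝ) / (n + 1)) atTop (𝓝 0) :=
    tendsto_one_div_add_atTop_nhds_zero_nat
  obtain ⟨-, y, hy, hy0⟩ := h.closed v (fun n => (hvE n).1) _ (fun n => (hvE n).2) 0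
    (fun ε hε => by
      obtain ⟨N, hN⟩ := eventually_atTop.1 (hlim.eventually (gt_mem_nhds hε))
      refine ⟨N, fun n hn x => ?_⟩
      simp only [hv, Pi.zero_apply, sub_zero]
      exact (abs_clamp_le (hpos n).le _).trans (hN n hn).le)
  obtain ⟨n, hn⟩ := (hy0.eventually (gt_mem_nhds hκ)).exists
  rw [sub_zero] at hn
  have hconv : Convex ℝ {y : K → ℝ | ∃ ε > 0, ∀ x, |u x| < ε → y x = u x} := by
    rintro a ⟨ε₁, h1, ha⟩ b ⟨ε₂, h2, hb⟩ s t _ _ hst
    refine ⟨min ε₁ ε₂, lt_min h1 h2, fun x hx => ?_⟩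
    simp only [Pi.add_apply, Pi.smul_apply, smul_eq_mul]
    rw [ha x (hx.trans_le (min_le_left _ _)), hb x (hx.trans_le (min_le_right _ _)), ← add_mul,
      hst, one_mul]
  have hmem := convexHull_min (s := v '' Set.Ici n) (by
    rintro _ ⟨k, -, rfl⟩
    exact ⟨1 / (k + 1), hpos k, fun x hx => clamp_of_abs_le hx.le⟩) hconv (hy n).2
  obtain ⟨ε, hε, hyε⟩ := hmem
  exact ⟨ε, hε, y n, (hy n).1, hn.le, hyε⟩

/-- The energy of `u` on the cells where `u` crosses an integer level tends to zero. -/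
theorem sum_crosses {u : K → ℝ} (hu : u ∈ A) {κ : ℝ} (hκ : 0 < κ) :
    ∃ k₀, ∀ k ≥ k₀, ∀ B ⊆ words k, (∀ x ∈ B, Crosses hK u x) →
      ρ ^ k * ∑ x ∈ B, E (u ∘ cell hK x) ≤ κ := by
  have hρ := h.rho_pos
  obtain ⟨R, hR, hRu⟩ := exists_bound hK (h.lat.cont u hu)
  set J : Finset ℤ := Finset.Icc (-⌈R⌉) ⌈R⌉ with hJ
  have hκ' : 0 < κ / (J.card + 1) := by positivity
  have hmem : ∀ j : ℤ, (fun x => u x + (-(j : ℝ))) ∈ A := fun j => h.lat.add_const_mem hu _
  choose ε hε y hyA hyE hy using fun j : ℤ => h.exists_local (hmem j) hκ'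
  obtain ⟨ε₀, hε₀, hle⟩ : ∃ ε₀ > 0, ∀ j ∈ J, ε₀ ≤ ε j := by
    have hne : J.Nonempty := ⟨0, by
      rw [hJ, Finset.mem_Icc]
      have : (0 : ℤ) ≤ ⌈R⌉ := Int.ceil_nonneg hR.le
      constructor <;> linarith⟩
    obtain ⟨j₀, hj₀, hmin⟩ := J.exists_min_image ε hne
    exact ⟨ε j₀, hε j₀, hmin⟩
  obtain ⟨k₀, hk₀⟩ := exists_mesh hK (h.lat.cont u hu) hε₀
  refine ⟨k₀, fun k hk B hB hcr => ?_⟩
  have key : ∀ x ∈ B, E (u ∘ cell hK x) ≤ ∑ j ∈ J, E (y j ∘ cell hK x) := by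
    intro x hx
    obtain ⟨j, ⟨z, hz⟩, ⟨z', hz'⟩⟩ := hcr x hx
    have hjJ : j ∈ J := by
      rw [hJ, Finset.mem_Icc]
      have h1 := abs_le.1 (hRu (cell hK x z))
      have h2 := abs_le.1 (hRu (cell hK x z'))
      constructor
      · have : -(⌈R⌉ : ℝ) ≤ j := by
          have := Int.le_ceil R
          linarith
        exact_mod_cast this
      · have : (j : ℝ) ≤ ⌈R⌉ := by
          have := Int.le_ceil R
          linarith
        exact_mod_cast this
    have heq : y j ∘ cell hK x = fun t => (u ∘ cell hK x) t + (-(j : ℝ)) := by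
      funext t
      refine hy j _ (lt_of_lt_of_le ?_ (hle j hjJ))
      have h1 := abs_lt.1 (hk₀ k hk x (hB hx) z t)
      have h2 := abs_lt.1 (hk₀ k hk x (hB hx) z' t)
      rw [abs_lt]
      constructor <;> linarith
    have e1 : E (u ∘ cell hK x) = E (y j ∘ cell hK x) := by
      rw [heq, h.add_const _ (h.lat.cell_mem hu x)]
    rw [e1]
    exact Finset.single_le_sum (f := fun j => E (y j ∘ cell hK x))
      (fun i _ => h.nonneg _ (h.lat.cell_mem (hyA i) x)) hjJ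
  calc ρ ^ k * ∑ x ∈ B, E (u ∘ cell hK x) ≤ ρ ^ k * ∑ x ∈ B, ∑ j ∈ J, E (y j ∘ cell hK x) := by
        gcongr with x hx
        exact key x hx
    _ ≤ ρ ^ k * ∑ x ∈ words k, ∑ j ∈ J, E (y j ∘ cell hK x) := by
        gcongr
        intro i hi _
        exact Finset.sum_nonneg fun j _ => h.nonneg _ (h.lat.cell_mem (hyA j) i)
    _ = ∑ j ∈ J, E (y j) := by
        rw [Finset.sum_comm, Finset.mul_sum]
        exact Finset.sum_congr rfl fun j _ => h.sum_words k _ (hyA j)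
    _ ≤ ∑ _j ∈ J, κ / (J.card + 1) := Finset.sum_le_sum fun j _ => hyE j
    _ = (J.card / (J.card + 1)) * κ := by
        rw [Finset.sum_const, nsmul_eq_mul]
        ring
    _ ≤ 1 * κ := by
        gcongr
        rw [div_le_one (by positivity)]
        linarith
    _ = κ := one_mul κ

end Nice

end Pool.Agent.SierpinskiCarpet
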