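import Pool.Agent.helper33.SCZero

/-!
# Uniqueness of the self-similar `p`-energy when points have positive capacity
-/

open MeasureTheory Filter Topology
open scoped ENNReal

namespace Pool.Agent.SierpinskiCarpet

variable {K : Set (ℝ × ℝ)} {hK : IsCarpet K} {m : Measure K} {A : Set (K → ℝ)} {p ρ ρ' : ℝ}
  {F F' : Set (K → ℝ)} {E E' : (K → ℝ) → ℝ}

/-- The continuous functions of finite energy. -/
def contPart (F : Set (K → ℝ)) : Set (K → ℝ) := {u | u ∈ F ∧ Continuous u}

namespace IsSelfSimilarEnergy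

variable (h : IsSelfSimilarEnergy hK m p ρ F E)

include h

theorem posPart_mem {u : K → ℝ} (hu : u ∈ F) (huc : Continuous u) :
    (fun x => max (u x) 0) ∈ F := by
  obtain ⟨B, hB, hb⟩ := exists_bound hK huc
  have h1 := (h.markov _ (h.smul_mem B⁻¹ u hu)).1
  have h2 := h.smul_mem B _ h1
  have e : (B • fun x => min (max ((B⁻¹ • u) x) 0) 1) = fun x => max (u x) 0 := by
    funext x
    simp only [Pi.smul_apply, smul_eq_mul]
    have h3 := (abs_le.1 (hb x)).2
    have h4 : B⁻¹ * u x ≤ 1 := by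
      rw [inv_mul_le_iff₀ hB, mul_one]
      exact h3
    rw [min_eq_left (max_le h4 zero_le_one), mul_max_of_nonneg _ _ hB.le, mul_zero,
      mul_inv_cancel_left₀ hB.ne']
  rwa [e] at h2

theorem lat : LatClass hK (contPart F) := by
  refine ⟨fun u hu => hu.2, fun c => ⟨h.const_mem c, continuous_const⟩,
    fun u hu v hv => ⟨h.add_mem u hu.1 v hv.1, hu.2.add hv.2⟩,
    fun a u hu => ⟨h.smul_mem a u hu.1, hu.2.const_smul a⟩, fun u hu => ⟨?_, hu.2.abs⟩,
    fun u hu => ⟨(h.comp_reflX hu.1).1, hu.2.comp (continuous_reflX hK)⟩,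
    fun u hu => ⟨(h.comp_reflY hu.1).1, hu.2.comp (continuous_reflY hK)⟩,
    fun u hu => ⟨(h.comp_swapXY hu.1).1, hu.2.comp (continuous_swapXY hK)⟩,
    fun u hu i => ⟨h.comp_mem u hu.1 i, hu.2.comp (continuous_cellMap hK i)⟩,
    fun u huc hu => ⟨h.mem_of_comp_mem u huc fun i => (hu i).1, huc⟩⟩
  have h1 := h.posPart_mem hu.1 hu.2
  have h2 := h.posPart_mem (h.smul_mem (-1) u hu.1) (hu.2.const_smul (-1 : ℝ))
  have h3 := h.add_mem _ h1 _ h2
  have e : ((fun x => max (u x) 0) + fun x => max (((-1 : ℝ) • u) x) 0) = fun x => |u x| := by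
    funext x
    simp only [Pi.add_apply, Pi.smul_apply, smul_eq_mul, neg_mul, one_mul]
    rcases le_total 0 (u x) with hx | hx
    · rw [max_eq_left hx, max_eq_right (by linarith), abs_of_nonneg hx, add_zero]
    · rw [max_eq_right hx, max_eq_left (by linarith), abs_of_nonpos hx, zero_add]
  rwa [e] at h3

theorem pre (hp : 1 < p) : Pre hK p ρ (contPart F) E :=
  ⟨h.lat, hp, h.scale_pos, fun u hu => h.nonneg u hu.1, fun u hu c => (h.add_const u hu.1 c).2,
    fun u hu a => h.smul u hu.1 a, fun u hu v hv => h.subadd u hu.1 v hv.1,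
    fun u hu => h.scaling u hu.1⟩

theorem crossing : ∃ u ∈ contPart F, IsCrossing u := by
  obtain ⟨u, hu, hcr⟩ := h.exists_crossing
  exact ⟨u, ⟨hu, hcr.cont⟩, hcr⟩

theorem nice (hp : 1 < p) (hm : IsSelfSimilarMeasure hK m) (hρ : 1 < ρ) :
    Nice hK p ρ (contPart F) E := by
  have hp0 : 0 < p := by linarith
  have hX : ∀ u ∈ contPart F, E (u ∘ reflX hK) = E u := fun u hu => (h.comp_reflX hu.1).2
  have hY : ∀ u ∈ contPart F, E (u ∘ reflY hK) = E u := fun u hu => (h.comp_reflY hu.1).2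
  have hXY : ∀ u ∈ contPart F, E (u ∘ swapXY hK) = E u := fun u hu => (h.comp_swapXY hu.1).2
  refine ⟨h.pre hp, hρ, h.three_rpow_le hp hm, hX, hY, hXY, ?_, ?_, h.crossing⟩
  · obtain ⟨C, hC, hb⟩ := h.exists_mean_bound hp hm hρ
    refine ⟨(2 * C) ^ p, by positivity, fun u hu x y => ?_⟩
    have hE := h.nonneg u hu.1
    have h1 := hb u hu.1 hu.2 x
    have h2 := hb u hu.1 hu.2 y
    have h3 : |u x - u y| ≤ 2 * C * E u ^ (1 / p) := by
      have e : u x - u y = (u x - ∫ z, u z ∂m) - (u y - ∫ z, u z ∂m) := by ring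
      rw [e]
      refine (abs_sub _ _).trans ?_
      linarith
    calc |u x - u y| ^ p ≤ (2 * C * E u ^ (1 / p)) ^ p :=
          Real.rpow_le_rpow (abs_nonneg _) h3 hp0.le
      _ = (2 * C) ^ p * E u := by
          rw [Real.mul_rpow (by positivity) (by positivity), rpow_one_div_rpow hp0 hE]
  · intro u hu L hL v hv
    obtain ⟨hvF, hvc, y, hy, hlim⟩ := h.closed_uniform hp hm (fun n => (hu n).1)
      (fun n => (hu n).2) hL hv
    exact ⟨⟨hvF, hvc⟩, y, fun n => ⟨⟨(hy n).1, (hy n).2.1⟩, (hy n).2.2⟩, hlim⟩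

/-- The scaling factor of an energy for which points have positive capacity is minimal. -/
theorem scale_le (hp : 1 < p) (hm : IsSelfSimilarMeasure hK m) (hρ : 1 < ρ)
    (h' : IsSelfSimilarEnergy hK m p ρ' F' E') : ρ ≤ ρ' := by
  have hN := h.nice hp hm hρ
  have hρ0 := h.scale_pos
  have hρ'0 := h'.scale_pos
  by_contra hcon
  push Not at hcon
  obtain ⟨f, hf, hfcr⟩ := hN.crossing
  obtain ⟨C₂, hC₂, h2⟩ := hN.cvar_le
  obtain ⟨τ, hτ⟩ := exists_template h'.lat h'.crossing
  obtain ⟨C, hC, hb⟩ := (h'.pre hp).energy_interp hτ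
  obtain ⟨c, hc, hcb⟩ := h'.exists_crossing_bound hp hm
  have hθ : ρ' / ρ < 1 := by rwa [div_lt_one hρ0]
  have key : ∀ n : ℕ, c ≤ (ρ' / ρ) ^ n * (C * (C₂ * E f)) := by
    intro n
    obtain ⟨g, hgA, hg⟩ := exists_interp h'.lat hτ n f
    have e1 := hcb g hgA.1 (hg.isCrossing hτ hgA.2 hfcr)
    have e2 := hb n f g hgA hg
    have e3 := h2 n f hf
    have e4 : ρ' ^ n * ∑ w ∈ words n, cvar hK p (f ∘ cell hK w) =
        (ρ' / ρ) ^ n * (ρ ^ n * ∑ w ∈ words n, cvar hK p (f ∘ cell hK w)) := by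
      rw [div_pow]
      field_simp
    rw [e4] at e2
    calc c ≤ C * ((ρ' / ρ) ^ n * (ρ ^ n * ∑ w ∈ words n, cvar hK p (f ∘ cell hK w))) :=
          e1.trans e2
      _ ≤ C * ((ρ' / ρ) ^ n * (C₂ * E f)) := by gcongr
      _ = (ρ' / ρ) ^ n * (C * (C₂ * E f)) := by ring
  have hlim : Tendsto (fun n : ℕ => (ρ' / ρ) ^ n * (C * (C₂ * E f))) atTop (𝓝 0) := by
    have := (tendsto_pow_atTop_nhds_zero_of_lt_one (by positivity) hθ).mul_const
      (C * (C₂ * E f))
    rwa [zero_mul] at this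
  have := ge_of_tendsto' hlim key
  linarith

/-- Every function of finite energy has a continuous representative. -/
theorem exists_continuous (hp : 1 < p) (hm : IsSelfSimilarMeasure hK m) (hρ : 1 < ρ)
    {u : K → ℝ} (hu : u ∈ F) : ∃ v ∈ contPart F, u =ᵐ[m] v := by
  have hprob := hm.1
  have := hK.instCompact
  have := hK.instNonempty
  have hp0 : 0 < p := by linarith
  obtain ⟨C, hC, hb⟩ := h.exists_mean_bound hp hm hρ
  have hsup : ∀ w ∈ F, Continuous w → ∀ x, |w x| ≤ (C + 1) * energyNorm m p E w := by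
    intro w hw hwc x
    have h1 := hb w hw hwc x
    have h2 : E w ^ (1 / p) ≤ energyNorm m p E w := by
      unfold energyNorm
      refine Real.rpow_le_rpow (h.nonneg w hw) ?_ (by positivity)
      have : 0 ≤ ∫ x, |w x| ^ p ∂m := integral_nonneg fun x => by positivity
      linarith
    have h3 : |∫ y, w y ∂m| ≤ energyNorm m p E w := by
      have e1 := jensen hm.1 hK hp hwc
      calc |∫ y, w y ∂m| = (|∫ y, w y ∂m| ^ p) ^ (1 / p) :=
            (rpow_rpow_one_div hp0 (abs_nonneg _)).symm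
        _ ≤ lpn m p w := Real.rpow_le_rpow (by positivity) e1 (by positivity)
        _ ≤ energyNorm m p E w := h.lpn_le_energyNorm hp hw
    have h4 : |w x| ≤ |w x - ∫ y, w y ∂m| + |∫ y, w y ∂m| := by
      have := abs_add_le (w x - ∫ y, w y ∂m) (∫ y, w y ∂m)
      rwa [sub_add_cancel] at this
    have h5 : C * E w ^ (1 / p) ≤ C * energyNorm m p E w := by gcongr
    linarith
  have happ : ∀ n : ℕ, ∃ v ∈ F, Continuous v ∧ energyNorm m p E (u - v) < 1 / (n + 1) :=
    fun n => h.dense_energy u hu (1 / (n + 1)) (by positivity)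
  choose v hv hvc hvu using happ
  have hlim : Tendsto (fun n : ℕ => (1 : ℝ) / (n + 1)) atTop (𝓝 0) :=
    tendsto_one_div_add_atTop_nhds_zero_nat
  have hsym : ∀ a ∈ F, ∀ b ∈ F, energyNorm m p E (a - b) = energyNorm m p E (b - a) := by
    intro a ha b hb
    have := h.energyNorm_smul hp (h.sub_mem hb ha) (-1)
    rw [abs_neg, abs_one, one_mul, neg_smul, one_smul, neg_sub] at this
    exact this
  have hdiff : ∀ i j : ℕ, energyNorm m p E (v i - v j) ≤ 1 / (i + 1) + 1 / (j + 1) := by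
    intro i j
    have e : v i - v j = (v i - u) + (u - v j) := by abel
    rw [e]
    refine (h.energyNorm_add_le hp (h.sub_mem (hv i) hu) (h.sub_mem hu (hv j))).trans ?_
    rw [hsym _ (hv i) _ hu]
    exact add_le_add (hvu i).le (hvu j).le
  let f : ℕ → BoundedContinuousFunction K ℝ := fun n =>
    BoundedContinuousFunction.mkOfCompact ⟨v n, hvc n⟩
  have hf : ∀ n x, f n x = v n x := fun n x => rfl
  have hcauchy : CauchySeq f := by
    rw [Metric.cauchySeq_iff']
    intro ε hε
    have hε' : 0 < ε / (4 * (C + 1)) := by positivity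
    obtain ⟨N, hN⟩ := eventually_atTop.1 (hlim.eventually (gt_mem_nhds hε'))
    refine ⟨N, fun n hn => ?_⟩
    refine lt_of_le_of_lt ((BoundedContinuousFunction.dist_le
      (show 0 ≤ ε / 2 by positivity)).2 fun x => ?_) (show ε / 2 < ε by linarith)
    rw [Real.dist_eq, hf, hf]
    have h1 := hsup _ (h.sub_mem (hv n) (hv N)) ((hvc n).sub (hvc N)) x
    have h2 := hdiff n N
    have h3 := hN n hn
    have h4 := hN N le_rfl
    simp only [Pi.sub_apply] at h1
    calc |v n x - v N x| ≤ (C + 1) * energyNorm m p E (v n - v N) := h1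
      _ ≤ (C + 1) * (ε / (4 * (C + 1)) + ε / (4 * (C + 1))) := by
        gcongr
        linarith
      _ = ε / 2 := by
        field_simp
        ring
  obtain ⟨w, hw⟩ := cauchySeq_tendsto_of_complete hcauchy
  have hunif : ∀ ε > 0, ∃ N, ∀ n ≥ N, ∀ x, |v n x - w x| ≤ ε := by
    intro ε hε
    obtain ⟨N, hN⟩ := Metric.tendsto_atTop.1 hw ε hε
    refine ⟨N, fun n hn x => ?_⟩
    have h1 := BoundedContinuousFunction.dist_coe_le_dist (f := f n) (g := w) x
    rw [Real.dist_eq, hf] at h1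
    exact h1.trans (hN n hn).le
  have hnorm : ∀ n, energyNorm m p E (v n) ≤ energyNorm m p E u + 1 := by
    intro n
    have e : v n = (v n - u) + u := by abel
    rw [e]
    refine (h.energyNorm_add_le hp (h.sub_mem (hv n) hu) hu).trans ?_
    rw [hsym _ (hv n) _ hu]
    have h1 := (hvu n).le
    have h2 : (1 : ℝ) / (n + 1) ≤ 1 := by
      rw [div_le_one (by positivity)]
      have : (0 : ℝ) ≤ n := by positivity
      linarith
    linarith
  have hEb : ∀ n, E (v n) ≤ (energyNorm m p E u + 1) ^ p := fun n =>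
    (h.energy_le_energyNorm hp (hv n)).trans
      (Real.rpow_le_rpow (h.energyNorm_nonneg (hv n)) (hnorm n) hp0.le)
  obtain ⟨hwF, hwc, -⟩ := h.closed_uniform hp hm hv hvc hEb hunif
  refine ⟨w, ⟨hwF, hwc⟩, ?_⟩
  have hzero : lpn m p (u - w) = 0 := by
    refine le_antisymm (le_of_forall_pos_le_add fun ε hε => ?_) (lpn_nonneg _)
    obtain ⟨N, hN⟩ := hunif (ε / 2) (by positivity)
    obtain ⟨N', hN'⟩ := eventually_atTop.1 (hlim.eventually (gt_mem_nhds (half_pos hε)))
    set n := max N N' with hn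
    have h1 := hN n (le_max_left _ _)
    have h2 := (hvu n).trans (hN' n (le_max_right _ _))
    have e : u - w = (u - v n) + (v n - w) := by abel
    rw [e]
    refine (lpn_add_le hp (h.memLp _ (h.sub_mem hu (hv n)))
      (h.memLp _ (h.sub_mem (hv n) hwF))).trans ?_
    have h3 := h.lpn_le_energyNorm hp (h.sub_mem hu (hv n))
    have h4 : lpn m p (v n - w) ≤ ε / 2 := by
      have e1 : ∫ x, |(v n - w) x| ^ p ∂m ≤ ∫ _, (ε / 2) ^ p ∂m := by
        refine integral_mono (integrable_cont hK ?_) (integrable_const _) fun x => ?_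
        · exact (Real.continuous_rpow_const hp0.le).comp ((hvc n).sub hwc).abs
        · exact Real.rpow_le_rpow (abs_nonneg _) (h1 x) hp0.le
      have e1' : ∫ _ : K, (ε / 2) ^ p ∂m = (ε / 2) ^ p := by simp
      rw [e1'] at e1
      calc lpn m p (v n - w) ≤ ((ε / 2) ^ p) ^ (1 / p) := by
            exact Real.rpow_le_rpow (integral_nonneg fun x => by positivity) e1 (by positivity)
        _ = ε / 2 := rpow_rpow_one_div hp0 (by positivity)
    linarith
  have hint : Integrable (fun x => |(u - w) x| ^ p) m := by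
    have := (h.memLp _ (h.sub_mem hu hwF)).integrable_norm_rpow (by simpa using hp0)
      ENNReal.ofReal_ne_top
    rw [ENNReal.toReal_ofReal hp0.le] at this
    exact this
  have h0 : ∫ x, |(u - w) x| ^ p ∂m = 0 := by
    rw [← lpn_rpow hp, hzero, Real.zero_rpow hp0.ne']
  rw [integral_eq_zero_iff_of_nonneg (fun x => by positivity) hint] at h0
  filter_upwards [h0] with x hx
  have : |(u - w) x| = 0 := by
    by_contra hne
    have : 0 < |(u - w) x| ^ p := Real.rpow_pos_of_pos (lt_of_le_of_ne (abs_nonneg _)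
      (Ne.symm hne)) _
    simp only [Pi.zero_apply] at hx
    linarith
  have := abs_eq_zero.1 this
  simp only [Pi.sub_apply] at this
  linarith

end IsSelfSimilarEnergy

/-- The continuity of the energy on bounded sets. -/
theorem Pre.cont (h : Pre hK p ρ A E) {κ : ℝ} (hκ : 0 < κ) : ∃ c₀ > 0, ∀ x ∈ A, ∀ y ∈ A,
    ∀ ν : ℝ, E x ≤ ν → E (x + y) ≤ ν → E y ≤ c₀ * ν → |E (x + y) - E x| ≤ κ * ν := by
  have hp := h.p_pos
  have hcont : Continuous fun t : ℝ => t ^ p := Real.continuous_rpow_const hp.le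
  have huc := (isCompact_Icc (a := (0 : ℝ)) (b := 1)).uniformContinuousOn_of_continuous
    hcont.continuousOn
  rw [Metric.uniformContinuousOn_iff] at huc
  obtain ⟨δ, hδ, hδ'⟩ := huc κ hκ
  refine ⟨(δ / 2) ^ p, by positivity, fun x hx y hy ν h1 h2 h3 => ?_⟩
  have hxy := h.lat.add_mem x hx y hy
  have n1 := h.nonneg x hx
  have n2 := h.nonneg y hy
  have n3 := h.nonneg _ hxy
  rcases (n1.trans h1).eq_or_lt with h0 | h0
  · rw [← h0] at h1 h2 ⊢
    rw [le_antisymm h1 n1, le_antisymm h2 n3]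
    simp
  · have hX : ∀ g ∈ A, E g ≤ ν → (E g / ν) ^ (1 / p) ∈ Set.Icc (0 : ℝ) 1 := fun g hg hgν => by
      have := h.nonneg g hg
      refine ⟨by positivity, Real.rpow_le_one (by positivity) ?_ (by positivity)⟩
      rwa [div_le_one h0]
    have hXp : ∀ g ∈ A, ((E g / ν) ^ (1 / p)) ^ p = E g / ν := fun g hg =>
      rpow_one_div_rpow hp (div_nonneg (h.nonneg g hg) h0.le)
    have e1 := h.subadd x hx y hy
    have e2 : E x ^ (1 / p) ≤ E (x + y) ^ (1 / p) + E y ^ (1 / p) := by
      have := h.subadd _ hxy _ (h.lat.smul_mem (-1) y hy)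
      rw [h.smul y hy, abs_neg, abs_one, Real.one_rpow, one_mul] at this
      have e : x + y + (-1 : ℝ) • y = x := by
        rw [neg_smul, one_smul]
        abel
      rwa [e] at this
    have hνp : 0 < ν ^ (1 / p) := by positivity
    have e3 : E y ^ (1 / p) / ν ^ (1 / p) ≤ δ / 2 := by
      rw [div_le_iff₀ hνp]
      calc E y ^ (1 / p) ≤ ((δ / 2) ^ p * ν) ^ (1 / p) :=
            Real.rpow_le_rpow n2 h3 (by positivity)
        _ = δ / 2 * ν ^ (1 / p) := by
            rw [Real.mul_rpow (by positivity) h0.le, rpow_rpow_one_div hp (by positivity)]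
    have e4 : dist ((E (x + y) / ν) ^ (1 / p)) ((E x / ν) ^ (1 / p)) < δ := by
      rw [Real.dist_eq, Real.div_rpow n3 h0.le, Real.div_rpow n1 h0.le, ← sub_div, abs_div,
        abs_of_pos hνp]
      refine lt_of_le_of_lt ?_ (show δ / 2 < δ by linarith)
      refine le_trans ?_ e3
      gcongr
      rw [abs_le]
      constructor <;> linarith
    have e5 := hδ' _ (hX _ hxy h2) _ (hX _ hx h1) e4
    rw [hXp _ hxy, hXp _ hx, Real.dist_eq, ← sub_div, abs_div, abs_of_pos h0,
      div_lt_iff₀ h0] at e5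
    exact e5.le

/-- The difference of a multiple of `E` and a comparable energy `E'`. -/
theorem sub_of_nice (h : Nice hK p ρ A E) (h' : Nice hK p ρ A E') {M : ℝ} (hM : 0 ≤ M)
    (hle : ∀ u ∈ A, E' u ≤ M * E u) : Sub hK p ρ M A E (fun u => M * E u - E' u) := by
  refine ⟨hM, fun u hu => by have := hle u hu; linarith, fun u hu => by
    have := h'.nonneg u hu; linarith, fun u hu c => by
    simp only [h.add_const u hu c, h'.add_const u hu c], fun u hu a => by
    simp only [h.smul u hu a, h'.smul u hu a]; ring, fun u hu => by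
    simp only [h.reflX u hu, h'.reflX u hu], fun u hu => by
    simp only [h.reflY u hu, h'.reflY u hu], fun u hu => by
    simp only [h.swap u hu, h'.swap u hu], fun u hu => ?_, fun κ hκ => ?_⟩
  · simp only [Finset.sum_sub_distrib, ← Finset.mul_sum]
    have h1 := h.scaling u hu
    have h2 := h'.scaling u hu
    rw [mul_sub, h2, ← h1]
    ring
  · obtain ⟨c₁, hc₁, h1⟩ := h.toPre.cont (show 0 < κ / (2 * (M + 1)) by positivity)
    obtain ⟨c₂, hc₂, h2⟩ := h'.toPre.cont (show 0 < κ / (2 * (M + 1)) by positivity)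
    refine ⟨min c₁ c₂, lt_min hc₁ hc₂, fun x hx y hy ν hxν hxyν hyν => ?_⟩
    have hxy := h.lat.add_mem x hx y hy
    have hν0 : 0 ≤ ν := (h.nonneg x hx).trans hxν
    have hbound : ∀ g ∈ A, E g ≤ ν → E' g ≤ (M + 1) * ν := fun g hg hgν => by
      have := hle g hg
      have : M * E g ≤ M * ν := by gcongr
      linarith
    have k1 := h1 x hx y hy ν hxν hxyν (hyν.trans (by gcongr; exact min_le_left _ _))
    have k2 := h2 x hx y hy ((M + 1) * ν) (hbound x hx hxν) (hbound _ hxy hxyν) (by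
      have e1 := hle y hy
      have e2 : E y ≤ c₂ * ν := hyν.trans (by gcongr; exact min_le_right _ _)
      have e3 : M * E y ≤ M * (c₂ * ν) := by gcongr
      have e4 : 0 ≤ c₂ * ν := by positivity
      linarith)
    have e5 : M * E (x + y) - E' (x + y) - (M * E x - E' x) =
        M * (E (x + y) - E x) - (E' (x + y) - E' x) := by ring
    rw [e5]
    refine (abs_sub _ _).trans ?_
    rw [abs_mul, abs_of_nonneg hM]
    have k3 : κ / (2 * (M + 1)) * ((M + 1) * ν) = κ / 2 * ν := by field_simp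
    rw [k3] at k2
    have k4 : M * |E (x + y) - E x| ≤ (M + 1) * (κ / (2 * (M + 1)) * ν) := by
      have : M * |E (x + y) - E x| ≤ (M + 1) * |E (x + y) - E x| := by
        gcongr
        linarith
      refine this.trans ?_
      gcongr
    have k5 : (M + 1) * (κ / (2 * (M + 1)) * ν) = κ / 2 * ν := by field_simp
    linarith

/-- Two comparable energies with the same scaling factor are proportional. -/
theorem nice_unique (h : Nice hK p ρ A E) (h' : Nice hK p ρ A E')
    (hpos : ∃ f ∈ A, 0 < E f) (hcomp : ∃ C : ℝ, ∀ u ∈ A, E' u ≤ C * E u) :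
    ∃ M : ℝ, ∀ u ∈ A, E' u = M * E u := by
  obtain ⟨f₀, hf₀, hEf₀⟩ := hpos
  obtain ⟨C, hC⟩ := hcomp
  set S : Set ℝ := {m | ∀ u ∈ A, E' u ≤ m * E u} with hS
  have hS0 : ∀ m ∈ S, 0 ≤ m := fun m hm => by
    have h1 := hm f₀ hf₀
    have h2 := h'.nonneg f₀ hf₀
    by_contra hcon
    push Not at hcon
    have := mul_neg_of_neg_of_pos hcon hEf₀
    linarith
  have hbdd : BddBelow S := ⟨0, fun m hm => hS0 m hm⟩
  have hne : S.Nonempty := ⟨C, hC⟩
  set M := sInf S with hMdef
  have hM0 : 0 ≤ M := le_csInf hne hS0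
  have hMS : ∀ u ∈ A, E' u ≤ M * E u := by
    intro u hu
    have hEu := h.nonneg u hu
    refine le_of_forall_pos_le_add fun ε hε => ?_
    obtain ⟨m, hm, hlt⟩ := exists_lt_of_csInf_lt hne
      (show sInf S < M + ε / (E u + 1) by
        have : 0 < ε / (E u + 1) := by positivity
        linarith)
    have h1 := hm u hu
    have h2 : m * E u ≤ (M + ε / (E u + 1)) * E u := by gcongr
    have h3 : ε / (E u + 1) * E u ≤ ε := by
      rw [div_mul_eq_mul_div, div_le_iff₀ (by positivity)]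
      nlinarith
    linarith
  have hG := sub_of_nice h h' hM0 hMS
  refine ⟨M, fun u hu => ?_⟩
  have hzero := hG.eq_zero h (fun η hη => by
    by_contra hcon
    push Not at hcon
    have hmem : M - η ∈ S := by
      intro f hf
      rcases (h.nonneg f hf).eq_or_lt with h0 | h0
      · have := hMS f hf
        rw [← h0, mul_zero] at this ⊢
        exact this
      · have := hcon f hf h0
        linarith
    have := csInf_le hbdd hmem
    linarith) u hu
  linarith

/-- **Uniqueness of the self-similar `p`-energy** when `8 < 3 ^ p` or the scaling factor of one of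
the energies exceeds one. -/
theorem unique_energy (hp : 1 < p) (hm : IsSelfSimilarMeasure hK m)
    (h : IsSelfSimilarEnergy hK m p ρ F E) (h' : IsSelfSimilarEnergy hK m p ρ' F' E')
    (hcase : (8 : ℝ) < 3 ^ p ∨ 1 < ρ) :
    ρ' = ρ ∧ F' = F ∧ ∃ c : ℝ, 0 < c ∧ ∀ u ∈ F, E' u = c * E u := by
  have hp0 : 0 < p := by linarith
  have hρ : 1 < ρ := by
    rcases hcase with h1 | h1
    · have := h.three_rpow_le hp hm
      linarith
    · exact h1
  have h1 := h.scale_le hp hm hρ h'
  have h2 := h'.scale_le hp hm (hρ.trans_le h1) h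
  have hρρ : ρ' = ρ := le_antisymm h2 h1
  subst hρρ
  have hN := h.nice hp hm hρ
  have hN' := h'.nice hp hm hρ
  obtain ⟨C₁, hC₁, a1⟩ := hN.cvar_le
  obtain ⟨C₂, hC₂, a2⟩ := hN'.mem_of_cvar
  obtain ⟨C₃, hC₃, a3⟩ := hN'.cvar_le
  obtain ⟨C₄, hC₄, a4⟩ := hN.mem_of_cvar
  have hsub : ∀ u ∈ contPart F, u ∈ contPart F' ∧ E' u ≤ C₂ * (C₁ * E u) := fun u hu =>
    a2 u hu.2 _ fun n => a1 n u hu
  have hsub' : ∀ u ∈ contPart F', u ∈ contPart F := fun u hu =>
    (a4 u hu.2 _ fun n => a3 n u hu).1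
  have hAA : contPart F' = contPart F :=
    Set.Subset.antisymm hsub' fun u hu => (hsub u hu).1
  obtain ⟨f₀, hf₀, hcr⟩ := hN.crossing
  obtain ⟨c₁, hc₁, b1⟩ := h.exists_crossing_bound hp hm
  obtain ⟨c₂, hc₂, b2⟩ := h'.exists_crossing_bound hp hm
  have hEf₀ : 0 < E f₀ := hc₁.trans_le (b1 f₀ hf₀.1 hcr)
  rw [hAA] at hN'
  obtain ⟨M, hM⟩ := nice_unique hN hN' ⟨f₀, hf₀, hEf₀⟩
    ⟨C₂ * C₁, fun u hu => by rw [mul_assoc]; exact (hsub u hu).2⟩
  have hMpos : 0 < M := by
    have e1 := hM f₀ hf₀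
    have e2 := b2 f₀ (hsub f₀ hf₀).1.1 hcr
    by_contra hcon
    push Not at hcon
    have := mul_nonpos_of_nonpos_of_nonneg hcon hEf₀.le
    linarith
  have key : ∀ u ∈ F, u ∈ F' ∧ E' u = M * E u := by
    intro u hu
    obtain ⟨v, hv, huv⟩ := h.exists_continuous hp hm hρ hu
    have e1 := (hsub v hv).1
    have e2 := h'.congr v e1.1 u huv
    have e3 := h.congr v hv.1 u huv
    refine ⟨e2.1, ?_⟩
    rw [e2.2, e3.2, hM v hv]
  refine ⟨rfl, Set.Subset.antisymm (fun u hu => ?_) fun u hu => (key u hu).1, M, hMpos,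
    fun u hu => (key u hu).2⟩
  obtain ⟨v, hv, huv⟩ := h'.exists_continuous hp hm hρ hu
  exact (h.congr v (hsub' v hv).1 u huv).1

end Pool.Agent.SierpinskiCarpet
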