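import Pool.Agent.helper33.SCInterp

/-!
# Self-similar energies of continuous functions with the oscillation bound
-/

open MeasureTheory Filter Topology
open scoped ENNReal

namespace Pool.Agent.SierpinskiCarpet

variable {K : Set (ℝ × ℝ)} {hK : IsCarpet K} {A : Set (K → ℝ)} {p ρ : ℝ} {E : (K → ℝ) → ℝ}

/-- Basic properties of the restriction of a self-similar `p`-energy to the continuous
functions. -/
structure Pre (hK : IsCarpet K) (p ρ : ℝ) (A : Set (K → ℝ)) (E : (K → ℝ) → ℝ) : Prop where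
  lat : LatClass hK A
  one_lt : 1 < p
  rho_pos : 0 < ρ
  nonneg : ∀ u ∈ A, 0 ≤ E u
  add_const : ∀ u ∈ A, ∀ c : ℝ, E (fun x => u x + c) = E u
  smul : ∀ u ∈ A, ∀ a : ℝ, E (a • u) = |a| ^ p * E u
  subadd : ∀ u ∈ A, ∀ v ∈ A, E (u + v) ^ (1 / p) ≤ E u ^ (1 / p) + E v ^ (1 / p)
  scaling : ∀ u ∈ A, ρ * ∑ i, E (u ∘ cellMap hK i) = E u

/-- The properties of the restriction of a self-similar `p`-energy to the continuous functions
which are used in the proof. -/
structure Nice (hK : IsCarpet K) (p ρ : ℝ) (A : Set (K → ℝ)) (E : (K → ℝ) → ℝ) : Prop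
    extends Pre hK p ρ A E where
  one_lt_scale : 1 < ρ
  three_le : 3 ^ p ≤ 8 * ρ
  reflX : ∀ u ∈ A, E (u ∘ reflX hK) = E u
  reflY : ∀ u ∈ A, E (u ∘ reflY hK) = E u
  swap : ∀ u ∈ A, E (u ∘ swapXY hK) = E u
  osc : ∃ C : ℝ, 0 < C ∧ ∀ u ∈ A, ∀ x y, |u x - u y| ^ p ≤ C * E u
  closed : ∀ u : ℕ → K → ℝ, (∀ n, u n ∈ A) → ∀ L : ℝ, (∀ n, E (u n) ≤ L) → ∀ v : K → ℝ,
    (∀ ε > 0, ∃ N, ∀ n ≥ N, ∀ x, |u n x - v x| ≤ ε) →
    v ∈ A ∧ ∃ y : ℕ → K → ℝ, (∀ n, y n ∈ A ∧ y n ∈ convexHull ℝ (u '' Set.Ici n)) ∧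
      Tendsto (fun n => E (y n - v)) atTop (𝓝 0)
  crossing : ∃ u ∈ A, IsCrossing u

theorem add_rpow_le {p : ℝ} (hp : 0 < p) {a b : ℝ} (ha : 0 ≤ a) (hb : 0 ≤ b) :
    (a + b) ^ p ≤ 2 ^ p * (a ^ p + b ^ p) := by
  rcases le_total a b with h | h
  · calc (a + b) ^ p ≤ (2 * b) ^ p := Real.rpow_le_rpow (by positivity) (by linarith) hp.le
      _ = 2 ^ p * b ^ p := Real.mul_rpow (by norm_num) hb
      _ ≤ 2 ^ p * (a ^ p + b ^ p) := by
        gcongr
        have : 0 ≤ a ^ p := by positivity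
        linarith
  · calc (a + b) ^ p ≤ (2 * a) ^ p := Real.rpow_le_rpow (by positivity) (by linarith) hp.le
      _ = 2 ^ p * a ^ p := Real.mul_rpow (by norm_num) ha
      _ ≤ 2 ^ p * (a ^ p + b ^ p) := by
        gcongr
        have : 0 ≤ b ^ p := by positivity
        linarith

theorem rpow_one_div_rpow {p : ℝ} (hp : 0 < p) {a : ℝ} (ha : 0 ≤ a) : (a ^ (1 / p)) ^ p = a := by
  rw [← Real.rpow_mul ha, one_div_mul_cancel hp.ne', Real.rpow_one]

theorem rpow_rpow_one_div {p : ℝ} (hp : 0 < p) {a : ℝ} (ha : 0 ≤ a) : (a ^ p) ^ (1 / p) = a := by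
  rw [← Real.rpow_mul ha, mul_one_div_cancel hp.ne', Real.rpow_one]

/-- The `p`-variation over the corners. -/
noncomputable def cvar (hK : IsCarpet K) (p : ℝ) (f : K → ℝ) : ℝ :=
  ∑ c, |f (corner hK c) - f (corner hK (false, false))| ^ p

theorem cvar_nonneg (f : K → ℝ) : 0 ≤ cvar hK p f := Finset.sum_nonneg fun c _ => by positivity

namespace Pre

variable (h : Pre hK p ρ A E)

include h

theorem p_pos : 0 < p := by have := h.one_lt; linarith

theorem energy_zero : E 0 = 0 := by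
  have h1 := h.smul _ (h.lat.const_mem 0) 0
  rw [abs_zero, Real.zero_rpow h.p_pos.ne', zero_mul, zero_smul] at h1
  exact h1

theorem energy_const (c : ℝ) : E (fun _ => c) = 0 := by
  have h1 := h.add_const _ (h.lat.const_mem 0) c
  have e : (fun _ : K => (0 : ℝ)) = 0 := rfl
  simp only [zero_add] at h1
  rw [h1, e, h.energy_zero]

theorem energy_neg {u : K → ℝ} (hu : u ∈ A) : E (-u) = E u := by
  have := h.smul u hu (-1)
  simpa using this

theorem sum_words (n : ℕ) : ∀ u ∈ A, ρ ^ n * ∑ w ∈ words n, E (u ∘ cell hK w) = E u := by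
  induction n with
  | zero =>
    intro u _
    rw [sum_words_zero, pow_zero, one_mul]
    rfl
  | succ n ih =>
    intro u hu
    rw [sum_words_succ]
    have e1 : ∀ i : Fin 8, ρ ^ n * ∑ w ∈ words n, E (u ∘ cell hK (i :: w)) =
        E (u ∘ cellMap hK i) := fun i => ih _ (h.lat.comp_mem u hu i)
    rw [← h.scaling u hu]
    simp_rw [← e1]
    rw [← Finset.mul_sum, pow_succ]
    ring

theorem energy_cell_le {u : K → ℝ} (hu : u ∈ A) (w : List (Fin 8)) :
    ρ ^ w.length * E (u ∘ cell hK w) ≤ E u := by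
  rw [← h.sum_words w.length u hu]
  have := h.rho_pos
  gcongr
  exact Finset.single_le_sum (f := fun w => E (u ∘ cell hK w))
    (fun x _ => h.nonneg _ (h.lat.cell_mem hu x)) (mem_words.2 rfl)

theorem sum_rpow_le {ι : Type*} (s : Finset ι) (f : ι → K → ℝ) (hf : ∀ i ∈ s, f i ∈ A) :
    E (fun x => ∑ i ∈ s, f i x) ^ (1 / p) ≤ ∑ i ∈ s, E (f i) ^ (1 / p) := by
  classical
  induction s using Finset.induction_on with
  | empty =>
    simp only [Finset.sum_empty]
    rw [h.energy_const, Real.zero_rpow (by have := h.p_pos; positivity)]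
  | insert i s hi ih =>
    have h1 := h.subadd _ (hf i (Finset.mem_insert_self i s)) _
      (h.lat.sum_mem s f fun j hj => hf j (Finset.mem_insert_of_mem hj))
    have h2 := ih fun j hj => hf j (Finset.mem_insert_of_mem hj)
    have e : (fun x => ∑ j ∈ insert i s, f j x) = f i + fun x => ∑ j ∈ s, f j x := by
      funext x
      rw [Finset.sum_insert hi]
      rfl
    rw [e, Finset.sum_insert hi]
    linarith

theorem add_le {u v : K → ℝ} (hu : u ∈ A) (hv : v ∈ A) : E (u + v) ≤ 2 ^ p * (E u + E v) := by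
  have hp := h.p_pos
  have hE := h.nonneg u hu
  have hE' := h.nonneg v hv
  have hE2 := h.nonneg _ (h.lat.add_mem u hu v hv)
  calc E (u + v) = (E (u + v) ^ (1 / p)) ^ p := (rpow_one_div_rpow hp hE2).symm
    _ ≤ (E u ^ (1 / p) + E v ^ (1 / p)) ^ p :=
      Real.rpow_le_rpow (by positivity) (h.subadd u hu v hv) hp.le
    _ ≤ 2 ^ p * ((E u ^ (1 / p)) ^ p + (E v ^ (1 / p)) ^ p) :=
      add_rpow_le hp (by positivity) (by positivity)
    _ = 2 ^ p * (E u + E v) := by rw [rpow_one_div_rpow hp hE, rpow_one_div_rpow hp hE']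

theorem sub_le {u v : K → ℝ} (hu : u ∈ A) (hv : v ∈ A) : E (u - v) ≤ 2 ^ p * (E u + E v) := by
  have h1 := h.add_le hu (h.lat.smul_mem (-1) v hv)
  rw [h.smul v hv, abs_neg, abs_one, Real.one_rpow, one_mul] at h1
  have e : u + (-1 : ℝ) • v = u - v := by
    funext x
    simp [sub_eq_add_neg]
  rwa [e] at h1

theorem add_cvar_le {τ : Bool × Bool → K → ℝ} (hτ : IsTemplate A τ) :
    ∃ C : ℝ, 0 < C ∧ ∀ f : K → ℝ, E (fun y => ∑ c, f (corner hK c) * τ c y) ≤ C * cvar hK p f := by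
  have hp := h.p_pos
  set T : ℝ := ∑ c, E (τ c) ^ (1 / p) with hT
  have hT0 : 0 ≤ T := Finset.sum_nonneg fun c _ => by
    have := h.nonneg _ (hτ.mem c)
    positivity
  refine ⟨(T + 1) ^ p, by positivity, fun f => ?_⟩
  set c₀ : Bool × Bool := (false, false) with hc₀
  have e1 : (fun y => ∑ c, f (corner hK c) * τ c y) =
      fun y => (∑ c, ((f (corner hK c) - f (corner hK c₀)) • τ c) y) + f (corner hK c₀) := by
    funext y
    simp only [Pi.smul_apply, smul_eq_mul, sub_mul, Finset.sum_sub_distrib, ← Finset.mul_sum,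
      hτ.sum]
    ring
  have hmem : ∀ c ∈ (Finset.univ : Finset (Bool × Bool)),
      (f (corner hK c) - f (corner hK c₀)) • τ c ∈ A := fun c _ => h.lat.smul_mem _ _ (hτ.mem c)
  rw [e1, h.add_const _ (h.lat.sum_mem _ _ hmem)]
  have h2 := h.sum_rpow_le Finset.univ (fun c => (f (corner hK c) - f (corner hK c₀)) • τ c) hmem
  have hv0 : 0 ≤ cvar hK p f := cvar_nonneg f
  have e3 : ∀ c, E ((f (corner hK c) - f (corner hK c₀)) • τ c) ^ (1 / p) ≤
      cvar hK p f ^ (1 / p) * E (τ c) ^ (1 / p) := by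
    intro c
    have hE := h.nonneg _ (hτ.mem c)
    rw [h.smul _ (hτ.mem c), Real.mul_rpow (by positivity) hE]
    gcongr
    exact Finset.single_le_sum (f := fun c => |f (corner hK c) - f (corner hK c₀)| ^ p)
      (fun c _ => by positivity) (Finset.mem_univ c)
  have h3 := h2.trans (Finset.sum_le_sum fun c _ => e3 c)
  rw [← Finset.mul_sum, ← hT] at h3
  have hnn := h.nonneg _ (h.lat.sum_mem _ _ hmem)
  calc E (fun y => ∑ c, ((f (corner hK c) - f (corner hK c₀)) • τ c) y)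
      = (E (fun y => ∑ c, ((f (corner hK c) - f (corner hK c₀)) • τ c) y) ^ (1 / p)) ^ p :=
        (rpow_one_div_rpow hp hnn).symm
    _ ≤ (cvar hK p f ^ (1 / p) * T) ^ p := Real.rpow_le_rpow (by positivity) h3 hp.le
    _ ≤ (cvar hK p f ^ (1 / p) * (T + 1)) ^ p := by
      refine Real.rpow_le_rpow (by positivity) ?_ hp.le
      gcongr
      linarith
    _ = (T + 1) ^ p * cvar hK p f := by
      rw [Real.mul_rpow (by positivity) (by positivity), rpow_one_div_rpow hp hv0]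
      ring

theorem energy_interp {τ : Bool × Bool → K → ℝ} (hτ : IsTemplate A τ) :
    ∃ C : ℝ, 0 < C ∧ ∀ n, ∀ f, ∀ g ∈ A, IsInterp hK τ n f g →
      E g ≤ C * (ρ ^ n * ∑ w ∈ words n, cvar hK p (f ∘ cell hK w)) := by
  obtain ⟨C, hC, hb⟩ := h.add_cvar_le hτ
  refine ⟨C, hC, fun n f g hg hfg => ?_⟩
  have hρ := h.rho_pos
  rw [← h.sum_words n g hg]
  calc ρ ^ n * ∑ w ∈ words n, E (g ∘ cell hK w)
      ≤ ρ ^ n * ∑ w ∈ words n, C * cvar hK p (f ∘ cell hK w) := by
        gcongr with w hw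
        have e : g ∘ cell hK w = fun y => ∑ c, (f ∘ cell hK w) (corner hK c) * τ c y := by
          funext y
          exact hfg w hw y
        rw [e]
        exact hb _
    _ = C * (ρ ^ n * ∑ w ∈ words n, cvar hK p (f ∘ cell hK w)) := by
        rw [← Finset.mul_sum]
        ring

end Pre

namespace Nice

variable (h : Nice hK p ρ A E)

include h

theorem cvar_le : ∃ C : ℝ, 0 < C ∧ ∀ n, ∀ u ∈ A,
    ρ ^ n * ∑ w ∈ words n, cvar hK p (u ∘ cell hK w) ≤ C * E u := by
  obtain ⟨C, hC, hb⟩ := h.osc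
  refine ⟨4 * C, by positivity, fun n u hu => ?_⟩
  have hρ := h.rho_pos
  rw [← h.sum_words n u hu]
  calc ρ ^ n * ∑ w ∈ words n, cvar hK p (u ∘ cell hK w)
      ≤ ρ ^ n * ∑ w ∈ words n, (4 * C) * E (u ∘ cell hK w) := by
        gcongr with w hw
        have : cvar hK p (u ∘ cell hK w) ≤ ∑ _c : Bool × Bool, C * E (u ∘ cell hK w) :=
          Finset.sum_le_sum fun c _ => hb _ (h.lat.cell_mem hu w) _ _
        refine this.trans (le_of_eq ?_)
        rw [Finset.sum_const, Finset.card_univ]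
        simp only [Fintype.card_prod, Fintype.card_bool, nsmul_eq_mul]
        push_cast
        ring
    _ = 4 * C * (ρ ^ n * ∑ w ∈ words n, E (u ∘ cell hK w)) := by
        rw [← Finset.mul_sum]
        ring

/-- Sublevel sets of the energy are convex. -/
theorem energy_le_of_mem_convexHull {S : Set (K → ℝ)} {L : ℝ} (hS : ∀ u ∈ S, u ∈ A ∧ E u ≤ L)
    {y : K → ℝ} (hy : y ∈ convexHull ℝ S) : y ∈ A ∧ E y ≤ L := by
  have hp := h.p_pos
  have hconv : Convex ℝ {u : K → ℝ | u ∈ A ∧ E u ≤ L} := by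
    intro a ha b hb s t hs ht hst
    have h1 := h.lat.smul_mem s a ha.1
    have h2 := h.lat.smul_mem t b hb.1
    have h3 := h.lat.add_mem _ h1 _ h2
    refine ⟨h3, ?_⟩
    have hEa := h.nonneg a ha.1
    have hEb := h.nonneg b hb.1
    have hL : 0 ≤ L := hEa.trans ha.2
    have e1 : E (s • a) ^ (1 / p) ≤ s * L ^ (1 / p) := by
      rw [h.smul a ha.1, abs_of_nonneg hs, Real.mul_rpow (by positivity) hEa,
        rpow_rpow_one_div hp hs]
      gcongr
      exact ha.2
    have e2 : E (t • b) ^ (1 / p) ≤ t * L ^ (1 / p) := by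
      rw [h.smul b hb.1, abs_of_nonneg ht, Real.mul_rpow (by positivity) hEb,
        rpow_rpow_one_div hp ht]
      gcongr
      exact hb.2
    have e3 := h.subadd _ h1 _ h2
    have e4 : E (s • a + t • b) ^ (1 / p) ≤ L ^ (1 / p) := by
      calc _ ≤ _ := e3
        _ ≤ s * L ^ (1 / p) + t * L ^ (1 / p) := add_le_add e1 e2
        _ = L ^ (1 / p) := by rw [← add_mul, hst, one_mul]
    have hnn := h.nonneg _ h3
    calc E (s • a + t • b) = (E (s • a + t • b) ^ (1 / p)) ^ p := (rpow_one_div_rpow hp hnn).symm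
      _ ≤ (L ^ (1 / p)) ^ p := Real.rpow_le_rpow (by positivity) e4 hp.le
      _ = L := rpow_one_div_rpow hp hL
  exact convexHull_min hS hconv hy

/-- Lower semicontinuity of the energy under uniform convergence. -/
theorem lsc {u : ℕ → K → ℝ} (hu : ∀ n, u n ∈ A) {L : ℝ} (hL : ∀ n, E (u n) ≤ L) {v : K → ℝ}
    (hv : ∀ ε > 0, ∃ N, ∀ n ≥ N, ∀ x, |u n x - v x| ≤ ε) : v ∈ A ∧ E v ≤ L := by
  have hp := h.p_pos
  obtain ⟨hvA, y, hy, hlim⟩ := h.closed u hu L hL v hv
  refine ⟨hvA, ?_⟩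
  have hEv := h.nonneg v hvA
  have hL0 : 0 ≤ L := (h.nonneg _ (hu 0)).trans (hL 0)
  have hyL : ∀ n, E (y n) ≤ L := fun n => (h.energy_le_of_mem_convexHull (S := u '' Set.Ici n)
    (by rintro _ ⟨k, -, rfl⟩; exact ⟨hu k, hL k⟩) (hy n).2).2
  have key : ∀ n, E v ^ (1 / p) ≤ L ^ (1 / p) + E (y n - v) ^ (1 / p) := by
    intro n
    have e1 := h.subadd _ (hy n).1 _ (h.lat.sub_mem hvA (hy n).1)
    have e2 : y n + (v - y n) = v := by abel
    have e3 : E (v - y n) = E (y n - v) := by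
      rw [← h.energy_neg (h.lat.sub_mem (hy n).1 hvA), neg_sub]
    rw [e2, e3] at e1
    have e4 : E (y n) ^ (1 / p) ≤ L ^ (1 / p) :=
      Real.rpow_le_rpow (h.nonneg _ (hy n).1) (hyL n) (by positivity)
    linarith
  have hlim2 : Tendsto (fun n => L ^ (1 / p) + E (y n - v) ^ (1 / p)) atTop
      (𝓝 (L ^ (1 / p) + 0)) := by
    refine tendsto_const_nhds.add ?_
    have := hlim.rpow_const (p := 1 / p) (Or.inr (by positivity))
    rwa [Real.zero_rpow (by positivity)] at this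
  have e5 := ge_of_tendsto' hlim2 key
  rw [add_zero] at e5
  calc E v = (E v ^ (1 / p)) ^ p := (rpow_one_div_rpow hp hEv).symm
    _ ≤ (L ^ (1 / p)) ^ p := Real.rpow_le_rpow (by positivity) e5 hp.le
    _ = L := rpow_one_div_rpow hp hL0

/-- A continuous function with bounded discrete energies belongs to the class. -/
theorem mem_of_cvar : ∃ C : ℝ, 0 < C ∧ ∀ f : K → ℝ, Continuous f → ∀ B : ℝ,
    (∀ n, ρ ^ n * ∑ w ∈ words n, cvar hK p (f ∘ cell hK w) ≤ B) → f ∈ A ∧ E f ≤ C * B := by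
  obtain ⟨τ, hτ⟩ := exists_template h.lat h.crossing
  obtain ⟨C, hC, hb⟩ := h.energy_interp hτ
  refine ⟨C, hC, fun f hf B hB => ?_⟩
  choose g hgA hg using fun n => exists_interp h.lat hτ n f
  refine h.lsc (u := g) hgA (fun n => (hb n f (g n) (hgA n) (hg n)).trans ?_) ?_
  · have := hB n
    gcongr
  · intro ε hε
    obtain ⟨N, hN⟩ := exists_mesh hK hf (show 0 < ε / 8 by positivity)
    refine ⟨N, fun n hn x => ?_⟩
    refine ((hg n).dist_le hτ (ε := ε / 8) (fun w hw x y => (hN n hn w hw x y).le) x).trans ?_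
    linarith

/-- Lipschitz functions of two functions of finite energy. -/
theorem lipschitz_comp (L : ℝ) (hL : 0 ≤ L) : ∃ C : ℝ, 0 < C ∧ ∀ ψ : ℝ → ℝ → ℝ,
    (∀ a b a' b', |ψ a b - ψ a' b'| ≤ L * (|a - a'| + |b - b'|)) → ∀ u ∈ A, ∀ v ∈ A,
      (fun x => ψ (u x) (v x)) ∈ A ∧ E (fun x => ψ (u x) (v x)) ≤ C * (E u + E v) := by
  have hp := h.p_pos
  have hρ := h.rho_pos
  obtain ⟨C₁, hC₁, h1⟩ := h.mem_of_cvar
  obtain ⟨C₂, hC₂, h2⟩ := h.cvar_le
  refine ⟨C₁ * (((L + 1) * 2) ^ p * C₂), by positivity, fun ψ hψ u hu v hv => ?_⟩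
  have hψc : Continuous fun x => ψ (u x) (v x) := by
    have h3 : Continuous fun z : ℝ × ℝ => ψ z.1 z.2 := by
      rw [Metric.continuous_iff]
      intro z ε hε
      refine ⟨ε / (2 * (L + 1)), by positivity, fun z' hz' => ?_⟩
      rw [Real.dist_eq]
      refine (hψ _ _ _ _).trans_lt ?_
      have e1 : |z'.1 - z.1| < ε / (2 * (L + 1)) := lt_of_le_of_lt (le_max_left _ _) hz'
      have e2 : |z'.2 - z.2| < ε / (2 * (L + 1)) := lt_of_le_of_lt (le_max_right _ _) hz'
      have e3 : 0 ≤ |z'.1 - z.1| := abs_nonneg _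
      have e4 : 0 ≤ |z'.2 - z.2| := abs_nonneg _
      calc L * (|z'.1 - z.1| + |z'.2 - z.2|) ≤ (L + 1) * (|z'.1 - z.1| + |z'.2 - z.2|) := by
            gcongr
            linarith
        _ < (L + 1) * (ε / (2 * (L + 1)) + ε / (2 * (L + 1))) := by gcongr
        _ = ε := by field_simp; ring
    exact h3.comp ((h.lat.cont u hu).prodMk (h.lat.cont v hv))
  have hcv : ∀ w, cvar hK p ((fun x => ψ (u x) (v x)) ∘ cell hK w) ≤
      ((L + 1) * 2) ^ p * (cvar hK p (u ∘ cell hK w) + cvar hK p (v ∘ cell hK w)) := by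
    intro w
    unfold cvar
    rw [← Finset.sum_add_distrib, Finset.mul_sum]
    refine Finset.sum_le_sum fun c _ => ?_
    simp only [Function.comp_apply]
    set a := u (cell hK w (corner hK c))
    set b := v (cell hK w (corner hK c))
    set a' := u (cell hK w (corner hK (false, false)))
    set b' := v (cell hK w (corner hK (false, false)))
    calc |ψ a b - ψ a' b'| ^ p ≤ ((L + 1) * (|a - a'| + |b - b'|)) ^ p := by
          refine Real.rpow_le_rpow (abs_nonneg _) ((hψ a b a' b').trans ?_) hp.le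
          gcongr
          linarith
      _ = (L + 1) ^ p * (|a - a'| + |b - b'|) ^ p := Real.mul_rpow (by positivity) (by positivity)
      _ ≤ (L + 1) ^ p * (2 ^ p * (|a - a'| ^ p + |b - b'| ^ p)) := by
          gcongr
          exact add_rpow_le hp (abs_nonneg _) (abs_nonneg _)
      _ = ((L + 1) * 2) ^ p * (|a - a'| ^ p + |b - b'| ^ p) := by
          rw [Real.mul_rpow (by positivity) (by positivity)]
          ring
  have hB : ∀ n, ρ ^ n * ∑ w ∈ words n, cvar hK p ((fun x => ψ (u x) (v x)) ∘ cell hK w) ≤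
      ((L + 1) * 2) ^ p * C₂ * (E u + E v) := by
    intro n
    calc ρ ^ n * ∑ w ∈ words n, cvar hK p ((fun x => ψ (u x) (v x)) ∘ cell hK w)
        ≤ ρ ^ n * ∑ w ∈ words n,
          ((L + 1) * 2) ^ p * (cvar hK p (u ∘ cell hK w) + cvar hK p (v ∘ cell hK w)) := by
          gcongr with w hw
          exact hcv w
      _ = ((L + 1) * 2) ^ p * (ρ ^ n * ∑ w ∈ words n, cvar hK p (u ∘ cell hK w) +
          ρ ^ n * ∑ w ∈ words n, cvar hK p (v ∘ cell hK w)) := by
          rw [← Finset.mul_sum, Finset.sum_add_distrib]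
          ring
      _ ≤ ((L + 1) * 2) ^ p * (C₂ * E u + C₂ * E v) := by
          have := h2 n u hu
          have := h2 n v hv
          gcongr
      _ = ((L + 1) * 2) ^ p * C₂ * (E u + E v) := by ring
  have := h1 _ hψc _ hB
  refine ⟨this.1, this.2.trans (le_of_eq ?_)⟩
  ring

end Nice

end Pool.Agent.SierpinskiCarpet
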