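import Pool.Agent.helper33.SCIndex

/-!
# Functionals controlled by a self-similar energy are subadditive
-/

open MeasureTheory Filter Topology
open scoped ENNReal

namespace Pool.Agent.SierpinskiCarpet

variable {K : Set (ℝ × ℝ)} {hK : IsCarpet K} {A : Set (K → ℝ)} {p ρ M : ℝ}
  {E G : (K → ℝ) → ℝ}

/-- A self-similar functional which is controlled by the energy `E`. -/
structure Sub (hK : IsCarpet K) (p ρ M : ℝ) (A : Set (K → ℝ)) (E G : (K → ℝ) → ℝ) : Prop where
  const_nonneg : 0 ≤ M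
  nonneg : ∀ u ∈ A, 0 ≤ G u
  le : ∀ u ∈ A, G u ≤ M * E u
  add_const : ∀ u ∈ A, ∀ c : ℝ, G (fun x => u x + c) = G u
  smul : ∀ u ∈ A, ∀ a : ℝ, G (a • u) = |a| ^ p * G u
  reflX : ∀ u ∈ A, G (u ∘ reflX hK) = G u
  reflY : ∀ u ∈ A, G (u ∘ reflY hK) = G u
  swap : ∀ u ∈ A, G (u ∘ swapXY hK) = G u
  scaling : ∀ u ∈ A, ρ * ∑ i, G (u ∘ cellMap hK i) = G u
  cont : ∀ κ > 0, ∃ c₀ > 0, ∀ x ∈ A, ∀ y ∈ A, ∀ ν : ℝ, E x ≤ ν → E (x + y) ≤ ν → E y ≤ c₀ * ν →
    |G (x + y) - G x| ≤ κ * ν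

theorem rpow_add_le_of_le_one {r a b : ℝ} (ha : 0 ≤ a) (hb : 0 ≤ b) (hr : 0 ≤ r) (hr1 : r ≤ 1) :
    (a + b) ^ r ≤ a ^ r + b ^ r := by
  have := NNReal.rpow_add_le_add_rpow (⟨a, ha⟩ : NNReal) ⟨b, hb⟩ hr hr1
  exact_mod_cast this

namespace Sub

variable (hG : Sub hK p ρ M A E G) (h : Nice hK p ρ A E)

include hG h

theorem sum_words (n : ℕ) : ∀ u ∈ A, ρ ^ n * ∑ w ∈ words n, G (u ∘ cell hK w) = G u := by
  induction n with
  | zero =>
    intro u _
    rw [sum_words_zero, pow_zero, one_mul]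
    rfl
  | succ n ih =>
    intro u hu
    rw [sum_words_succ]
    have e1 : ∀ i : Fin 8, ρ ^ n * ∑ w ∈ words n, G (u ∘ cell hK (i :: w)) =
        G (u ∘ cellMap hK i) := fun i => ih _ (h.lat.comp_mem u hu i)
    rw [← hG.scaling u hu]
    simp_rw [← e1]
    rw [← Finset.mul_sum, pow_succ]
    ring

/-- The estimate on a degenerate cell. -/
theorem cell_bound {κ c₀ : ℝ} (hκ : 0 < κ) (hc₀ : 0 < c₀)
    (hcont : ∀ x ∈ A, ∀ y ∈ A, ∀ ν : ℝ, E x ≤ ν → E (x + y) ≤ ν → E y ≤ c₀ * ν →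
      |G (x + y) - G x| ≤ κ * ν) {f g : K → ℝ} (hf : f ∈ A) (hg : g ∈ A) {b : ℝ} (hb : |b| ≤ 1)
    (hd : E (f + b • g) ≤ c₀ * (E f + E g)) :
    G (f + g) ^ (1 / p) ≤ G f ^ (1 / p) + G g ^ (1 / p) +
      2 * (κ * (2 ^ p * (E f + E g))) ^ (1 / p) := by
  have hp := h.p_pos
  have hp1 := h.one_lt
  have hEf := h.nonneg f hf
  have hEg := h.nonneg g hg
  set ν := 2 ^ p * (E f + E g) with hν
  have hone : (1 : ℝ) ≤ 2 ^ p := Real.one_le_rpow (by norm_num) hp.le
  have hν1 : E f + E g ≤ ν := by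
    have : 0 ≤ E f + E g := by positivity
    rw [hν]
    nlinarith
  have hν0 : 0 ≤ ν := by positivity
  have hbg := h.lat.smul_mem b g hg
  set y := f + b • g with hy
  have hyA : y ∈ A := h.lat.add_mem f hf _ hbg
  have hyE : E y ≤ c₀ * ν := hd.trans (by gcongr)
  have hr1 : 1 / p ≤ 1 := by rw [div_le_one hp]; exact hp1.le
  have hr0 : 0 ≤ 1 / p := by positivity
  -- first estimate
  have e1 : (1 - b) • g + y = f + g := by
    rw [hy, sub_smul, one_smul]
    abel
  have e2 : (-b) • g + y = f := by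
    rw [hy, neg_smul]
    abel
  have hb1 : |1 - b| ≤ 2 := by
    have := abs_sub (1 : ℝ) b
    rw [abs_one] at this
    linarith
  have k1 := hcont _ (h.lat.smul_mem (1 - b) g hg) y hyA ν (by
    rw [h.smul g hg, hν]
    have : |1 - b| ^ p ≤ 2 ^ p := Real.rpow_le_rpow (abs_nonneg _) hb1 hp.le
    gcongr
    linarith) (by rw [e1]; exact h.add_le hf hg) hyE
  have k2 := hcont _ (h.lat.smul_mem (-b) g hg) y hyA ν (by
    rw [h.smul g hg, abs_neg]
    have : |b| ^ p ≤ 1 := Real.rpow_le_one (abs_nonneg _) hb hp.le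
    have : |b| ^ p * E g ≤ 1 * E g := by gcongr
    linarith) (by rw [e2]; linarith) hyE
  rw [e1, hG.smul g hg, abs_le] at k1
  rw [e2, hG.smul g hg, abs_neg, abs_le] at k2
  have hGf := hG.nonneg f hf
  have hGg := hG.nonneg g hg
  have hGfg := hG.nonneg _ (h.lat.add_mem f hf g hg)
  have k3 : G (f + g) ^ (1 / p) ≤ |1 - b| * G g ^ (1 / p) + (κ * ν) ^ (1 / p) := by
    calc G (f + g) ^ (1 / p) ≤ (|1 - b| ^ p * G g + κ * ν) ^ (1 / p) := by
          refine Real.rpow_le_rpow hGfg (by linarith) hr0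
      _ ≤ (|1 - b| ^ p * G g) ^ (1 / p) + (κ * ν) ^ (1 / p) :=
          rpow_add_le_of_le_one (by positivity) (by positivity) hr0 hr1
      _ = |1 - b| * G g ^ (1 / p) + (κ * ν) ^ (1 / p) := by
          rw [Real.mul_rpow (by positivity) hGg, rpow_rpow_one_div hp (abs_nonneg _)]
  have k4 : |b| * G g ^ (1 / p) ≤ G f ^ (1 / p) + (κ * ν) ^ (1 / p) := by
    calc |b| * G g ^ (1 / p) = (|b| ^ p * G g) ^ (1 / p) := by
          rw [Real.mul_rpow (by positivity) hGg, rpow_rpow_one_div hp (abs_nonneg _)]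
      _ ≤ (G f + κ * ν) ^ (1 / p) := Real.rpow_le_rpow (by positivity) (by linarith) hr0
      _ ≤ G f ^ (1 / p) + (κ * ν) ^ (1 / p) :=
          rpow_add_le_of_le_one hGf (by positivity) hr0 hr1
  have k5 : |1 - b| * G g ^ (1 / p) ≤ (1 + |b|) * G g ^ (1 / p) := by
    have := abs_sub (1 : ℝ) b
    rw [abs_one] at this
    gcongr
  linarith

open Classical in
/-- The main consequence of the index one property. -/
theorem subadd {f g : K → ℝ} (hf : f ∈ A) (hg : g ∈ A) :
    G (f + g) ^ (1 / p) ≤ G f ^ (1 / p) + G g ^ (1 / p) := by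
  have hp := h.p_pos
  have hp1 := h.one_lt
  have hρ := h.rho_pos
  have hM := hG.const_nonneg
  have hEf := h.nonneg f hf
  have hEg := h.nonneg g hg
  have hfg := h.lat.add_mem f hf g hg
  set D : ℝ := M * 2 ^ p + 2 ^ p * 2 ^ p * (E f + E g) with hD
  have hD0 : 0 ≤ D := by positivity
  refine le_of_forall_pos_le_add fun ε hε => ?_
  set κ : ℝ := ε ^ p / (D + 1) with hκdef
  have hκ : 0 < κ := by positivity
  obtain ⟨c₀, hc₀, hcont⟩ := hG.cont κ hκ
  obtain ⟨n, hn⟩ := h.index_one hf hg hc₀ hκ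
  have hn := hn n le_rfl
  set S := (words n).filter (fun w => ∀ a : ℝ × ℝ, max |a.1| |a.2| = 1 →
      c₀ * (E (f ∘ cell hK w) + E (g ∘ cell hK w)) ≤
        E (lin a (f ∘ cell hK w) (g ∘ cell hK w))) with hS
  have hSm := hn S (Finset.filter_subset _ _) fun w hw => (Finset.mem_filter.1 hw).2
  set ν : List (Fin 8) → ℝ := fun w => E (f ∘ cell hK w) + E (g ∘ cell hK w) with hν
  have hν0 : ∀ w, 0 ≤ ν w := fun w =>
    add_nonneg (h.nonneg _ (h.lat.cell_mem hf w)) (h.nonneg _ (h.lat.cell_mem hg w))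
  set coef : List (Fin 8) → ℝ := fun w => if w ∈ S then M * 2 ^ p else 2 ^ p * (κ * 2 ^ p)
    with hcoef
  have hcoef0 : ∀ w, 0 ≤ coef w := fun w => by
    simp only [hcoef]
    split_ifs <;> positivity
  have hcell : ∀ w ∈ words n, G ((f + g) ∘ cell hK w) ^ (1 / p) ≤
      G (f ∘ cell hK w) ^ (1 / p) + G (g ∘ cell hK w) ^ (1 / p) +
        (coef w * ν w) ^ (1 / p) := by
    intro w hw
    have hfw := h.lat.cell_mem hf w
    have hgw := h.lat.cell_mem hg w
    have hfgw := h.lat.cell_mem hfg w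
    have hGf := hG.nonneg _ hfw
    have hGg := hG.nonneg _ hgw
    have hν0w := hν0 w
    by_cases hwS : w ∈ S
    · have e1 : coef w = M * 2 ^ p := by simp only [hcoef, if_pos hwS]
      have h1 : G ((f + g) ∘ cell hK w) ^ (1 / p) ≤ (coef w * ν w) ^ (1 / p) := by
        refine Real.rpow_le_rpow (hG.nonneg _ hfgw) ?_ (by positivity)
        rw [e1]
        calc G ((f + g) ∘ cell hK w) ≤ M * E ((f + g) ∘ cell hK w) := hG.le _ hfgw
          _ ≤ M * (2 ^ p * ν w) := by
            gcongr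
            exact h.add_le hfw hgw
          _ = M * 2 ^ p * ν w := by ring
      have h2 : 0 ≤ G (f ∘ cell hK w) ^ (1 / p) := by positivity
      have h3 : 0 ≤ G (g ∘ cell hK w) ^ (1 / p) := by positivity
      linarith
    · have e1 : coef w = 2 ^ p * (κ * 2 ^ p) := by simp only [hcoef, if_neg hwS]
      have e2 : (coef w * ν w) ^ (1 / p) = 2 * (κ * (2 ^ p * ν w)) ^ (1 / p) := by
        rw [e1, mul_assoc, Real.mul_rpow (by positivity) (by positivity),
          rpow_rpow_one_div hp (by norm_num), mul_assoc]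
      rw [e2]
      have hnd : ∃ a : ℝ × ℝ, max |a.1| |a.2| = 1 ∧
          E (lin a (f ∘ cell hK w) (g ∘ cell hK w)) < c₀ * ν w := by
        by_contra hcon
        push Not at hcon
        exact hwS (Finset.mem_filter.2 ⟨hw, hcon⟩)
      obtain ⟨a, ha, haE⟩ := hnd
      rcases le_total |a.2| |a.1| with hle | hle
      · rw [max_eq_left hle] at ha
        have hane : a.1 ≠ 0 := by
          intro h0
          rw [h0, abs_zero] at ha
          norm_num at ha
        have e3 : lin a (f ∘ cell hK w) (g ∘ cell hK w) =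
            a.1 • (f ∘ cell hK w + (a.2 / a.1) • (g ∘ cell hK w)) := by
          rw [lin, smul_add, smul_smul, mul_div_cancel₀ _ hane]
        have e4 := h.smul _ (h.lat.add_mem _ hfw _ (h.lat.smul_mem (a.2 / a.1) _ hgw)) a.1
        rw [← e3, ha, Real.one_rpow, one_mul] at e4
        have e7 : E (f ∘ cell hK w + (a.2 / a.1) • (g ∘ cell hK w)) ≤ c₀ * ν w := by
          rw [← e4]
          exact haE.le
        exact hG.cell_bound h hκ hc₀ hcont hfw hgw (b := a.2 / a.1)
          (by rw [abs_div, ha, div_one, ← ha]; exact hle) e7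
      · rw [max_eq_right hle] at ha
        have hane : a.2 ≠ 0 := by
          intro h0
          rw [h0, abs_zero] at ha
          norm_num at ha
        have e3 : lin a (f ∘ cell hK w) (g ∘ cell hK w) =
            a.2 • (g ∘ cell hK w + (a.1 / a.2) • (f ∘ cell hK w)) := by
          rw [lin, smul_add, smul_smul, mul_div_cancel₀ _ hane, add_comm]
        have e4 := h.smul _ (h.lat.add_mem _ hgw _ (h.lat.smul_mem (a.1 / a.2) _ hfw)) a.2
        rw [← e3, ha, Real.one_rpow, one_mul] at e4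
        have e7 : E (g ∘ cell hK w + (a.1 / a.2) • (f ∘ cell hK w)) ≤
            c₀ * (E (g ∘ cell hK w) + E (f ∘ cell hK w)) := by
          rw [← e4, add_comm (E (g ∘ cell hK w))]
          exact haE.le
        have e5 := hG.cell_bound h hκ hc₀ hcont hgw hfw (b := a.1 / a.2)
          (by rw [abs_div, ha, div_one, ← ha]; exact hle) e7
        have e6 : (f + g) ∘ cell hK w = g ∘ cell hK w + f ∘ cell hK w := by
          funext x
          simp only [Function.comp_apply, Pi.add_apply]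
          ring
        rw [e6]
        simp only [hν]
        rw [add_comm (E (f ∘ cell hK w))]
        linarith
  -- Minkowski
  have hρn : 0 < ρ ^ n := by positivity
  set x : List (Fin 8) → ℝ := fun w => (ρ ^ n * G (f ∘ cell hK w)) ^ (1 / p) with hx
  set y : List (Fin 8) → ℝ := fun w => (ρ ^ n * G (g ∘ cell hK w)) ^ (1 / p) with hy
  set z : List (Fin 8) → ℝ := fun w => (ρ ^ n * (coef w * ν w)) ^ (1 / p) with hz
  have hx0 : ∀ w, 0 ≤ x w := fun w => by
    have := hG.nonneg _ (h.lat.cell_mem hf w)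
    positivity
  have hy0 : ∀ w, 0 ≤ y w := fun w => by
    have := hG.nonneg _ (h.lat.cell_mem hg w)
    positivity
  have hz0 : ∀ w, 0 ≤ z w := fun w => by
    have := hcoef0 w
    have := hν0 w
    positivity
  have hxp : ∑ w ∈ words n, x w ^ p = G f := by
    rw [← hG.sum_words h n f hf, Finset.mul_sum]
    refine Finset.sum_congr rfl fun w _ => ?_
    exact rpow_one_div_rpow hp (mul_nonneg hρn.le (hG.nonneg _ (h.lat.cell_mem hf w)))
  have hyp : ∑ w ∈ words n, y w ^ p = G g := by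
    rw [← hG.sum_words h n g hg, Finset.mul_sum]
    refine Finset.sum_congr rfl fun w _ => ?_
    exact rpow_one_div_rpow hp (mul_nonneg hρn.le (hG.nonneg _ (h.lat.cell_mem hg w)))
  have hzp : ∑ w ∈ words n, z w ^ p ≤ κ * D := by
    have e1 : ∀ w ∈ words n, z w ^ p ≤
        (if w ∈ S then M * 2 ^ p * (ρ ^ n * ν w) else 0) + κ * (2 ^ p * 2 ^ p) * (ρ ^ n * ν w) := by
      intro w _
      have h1 := hν0 w
      rw [hz]
      simp only
      rw [rpow_one_div_rpow hp (mul_nonneg hρn.le (mul_nonneg (hcoef0 w) h1))]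
      simp only [hcoef]
      split_ifs
      · have : 0 ≤ κ * (2 ^ p * 2 ^ p) * (ρ ^ n * ν w) := by positivity
        linarith
      · linarith
    refine (Finset.sum_le_sum e1).trans ?_
    have hSsub : S ⊆ words n := Finset.filter_subset _ _
    rw [Finset.sum_add_distrib, Finset.sum_ite_mem, Finset.inter_eq_right.2 hSsub]
    have e2 : ∑ w ∈ S, M * 2 ^ p * (ρ ^ n * ν w) = M * 2 ^ p * mass hK ρ E f g n S := by
      rw [mass, Finset.mul_sum]
    have e3 : ∑ w ∈ words n, κ * (2 ^ p * 2 ^ p) * (ρ ^ n * ν w) =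
        κ * (2 ^ p * 2 ^ p) * (E f + E g) := by
      rw [← h.mass_words hf hg n, mass, Finset.mul_sum]
    rw [e2, e3, hD]
    have : M * 2 ^ p * mass hK ρ E f g n S ≤ M * 2 ^ p * κ := by gcongr
    linarith
  have hsum : ∀ w ∈ words n, (ρ ^ n * G ((f + g) ∘ cell hK w)) ^ (1 / p) ≤ x w + y w + z w := by
    intro w hw
    have h1 := hcell w hw
    simp only [hx, hy, hz]
    rw [Real.mul_rpow hρn.le (hG.nonneg _ (h.lat.cell_mem hfg w)),
      Real.mul_rpow hρn.le (hG.nonneg _ (h.lat.cell_mem hf w)),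
      Real.mul_rpow hρn.le (hG.nonneg _ (h.lat.cell_mem hg w)),
      Real.mul_rpow hρn.le (mul_nonneg (hcoef0 w) (hν0 w)), ← mul_add, ← mul_add]
    gcongr
  have hfin : G (f + g) ≤ ∑ w ∈ words n, (x w + y w + z w) ^ p := by
    rw [← hG.sum_words h n _ hfg, Finset.mul_sum]
    refine Finset.sum_le_sum fun w hw => ?_
    have h1 := hG.nonneg _ (h.lat.cell_mem hfg w)
    rw [← rpow_one_div_rpow hp (show 0 ≤ ρ ^ n * G ((f + g) ∘ cell hK w) by positivity)]
    exact Real.rpow_le_rpow (by positivity) (hsum w hw) hp.le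
  have hmink := Real.Lp_add_le_of_nonneg (s := words n) (f := fun w => x w + y w) (g := z) hp1.le
    (fun w _ => add_nonneg (hx0 w) (hy0 w)) (fun w _ => hz0 w)
  have hmink2 := Real.Lp_add_le_of_nonneg (s := words n) (f := x) (g := y) hp1.le
    (fun w _ => hx0 w) (fun w _ => hy0 w)
  rw [hxp, hyp] at hmink2
  have hG0 := hG.nonneg _ hfg
  have h1 : G (f + g) ^ (1 / p) ≤ (∑ w ∈ words n, (x w + y w + z w) ^ p) ^ (1 / p) :=
    Real.rpow_le_rpow hG0 hfin (by positivity)
  have h2 : (∑ w ∈ words n, z w ^ p) ^ (1 / p) ≤ ε := by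
    calc (∑ w ∈ words n, z w ^ p) ^ (1 / p) ≤ (ε ^ p) ^ (1 / p) := by
          refine Real.rpow_le_rpow (Finset.sum_nonneg fun w _ => by
            have := hz0 w
            positivity) (hzp.trans ?_) (by positivity)
          rw [hκdef, div_mul_eq_mul_div, div_le_iff₀ (by positivity)]
          have : 0 < ε ^ p := by positivity
          nlinarith
      _ = ε := rpow_rpow_one_div hp hε.le
  linarith

/-- Sublevel sets are convex. -/
theorem le_of_mem_convexHull {S : Set (K → ℝ)} {L : ℝ} (hS : ∀ u ∈ S, u ∈ A ∧ G u ≤ L)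
    {y : K → ℝ} (hy : y ∈ convexHull ℝ S) : y ∈ A ∧ G y ≤ L := by
  have hp := h.p_pos
  have hconv : Convex ℝ {u : K → ℝ | u ∈ A ∧ G u ≤ L} := by
    intro a ha b hb s t hs ht hst
    have h1 := h.lat.smul_mem s a ha.1
    have h2 := h.lat.smul_mem t b hb.1
    have h3 := h.lat.add_mem _ h1 _ h2
    refine ⟨h3, ?_⟩
    have hEa := hG.nonneg a ha.1
    have hEb := hG.nonneg b hb.1
    have hL : 0 ≤ L := hEa.trans ha.2
    have e1 : G (s • a) ^ (1 / p) ≤ s * L ^ (1 / p) := by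
      rw [hG.smul a ha.1, abs_of_nonneg hs, Real.mul_rpow (by positivity) hEa,
        rpow_rpow_one_div hp hs]
      gcongr
      exact ha.2
    have e2 : G (t • b) ^ (1 / p) ≤ t * L ^ (1 / p) := by
      rw [hG.smul b hb.1, abs_of_nonneg ht, Real.mul_rpow (by positivity) hEb,
        rpow_rpow_one_div hp ht]
      gcongr
      exact hb.2
    have e3 := hG.subadd h h1 h2
    have e4 : G (s • a + t • b) ^ (1 / p) ≤ L ^ (1 / p) := by
      calc _ ≤ _ := e3
        _ ≤ s * L ^ (1 / p) + t * L ^ (1 / p) := add_le_add e1 e2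
        _ = L ^ (1 / p) := by rw [← add_mul, hst, one_mul]
    have hnn := hG.nonneg _ h3
    calc G (s • a + t • b) = (G (s • a + t • b) ^ (1 / p)) ^ p := (rpow_one_div_rpow hp hnn).symm
      _ ≤ (L ^ (1 / p)) ^ p := Real.rpow_le_rpow (by positivity) e4 hp.le
      _ = L := rpow_one_div_rpow hp hL
  exact convexHull_min hS hconv hy

/-- The zero set is closed under uniform limits with bounded energies. -/
theorem zero_of_tendsto {u : ℕ → K → ℝ} (hu : ∀ n, u n ∈ A) {L : ℝ} (hL : ∀ n, E (u n) ≤ L)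
    (hGu : ∀ ε > 0, ∃ N, ∀ n ≥ N, G (u n) ≤ ε) {v : K → ℝ}
    (hv : ∀ ε > 0, ∃ N, ∀ n ≥ N, ∀ x, |u n x - v x| ≤ ε) : v ∈ A ∧ G v = 0 := by
  have hp := h.p_pos
  have hM := hG.const_nonneg
  obtain ⟨hvA, y, hy, hlim⟩ := h.closed u hu L hL v hv
  refine ⟨hvA, ?_⟩
  have hGv := hG.nonneg v hvA
  have key : ∀ ε > 0, G v ^ (1 / p) ≤ ε ^ (1 / p) := by
    intro ε hε
    obtain ⟨N, hN⟩ := hGu ε hε
    have h1 : ∀ n, N ≤ n → G v ^ (1 / p) ≤ ε ^ (1 / p) + (M * E (y n - v)) ^ (1 / p) := by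
      intro n hn
      have e0 : G (y n) ≤ ε := (hG.le_of_mem_convexHull h (S := u '' Set.Ici n)
        (by rintro _ ⟨k, hk, rfl⟩; exact ⟨hu k, hN k (hn.trans hk)⟩) (hy n).2).2
      have e1 := hG.subadd h (hy n).1 (h.lat.sub_mem hvA (hy n).1)
      have e2 : y n + (v - y n) = v := by abel
      rw [e2] at e1
      have e3 : G (v - y n) ≤ M * E (y n - v) := by
        refine (hG.le _ (h.lat.sub_mem hvA (hy n).1)).trans (le_of_eq ?_)
        rw [← h.energy_neg (h.lat.sub_mem (hy n).1 hvA), neg_sub]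
      have e4 : G (y n) ^ (1 / p) ≤ ε ^ (1 / p) :=
        Real.rpow_le_rpow (hG.nonneg _ (hy n).1) e0 (by positivity)
      have e5 : G (v - y n) ^ (1 / p) ≤ (M * E (y n - v)) ^ (1 / p) :=
        Real.rpow_le_rpow (hG.nonneg _ (h.lat.sub_mem hvA (hy n).1)) e3 (by positivity)
      linarith
    have hlim2 : Tendsto (fun n => ε ^ (1 / p) + (M * E (y n - v)) ^ (1 / p)) atTop
        (𝓝 (ε ^ (1 / p) + 0)) := by
      refine tendsto_const_nhds.add ?_
      have := (hlim.const_mul M).rpow_const (p := 1 / p) (Or.inr (by positivity))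
      rwa [mul_zero, Real.zero_rpow (by positivity)] at this
    have e5 := ge_of_tendsto hlim2 (eventually_atTop.2 ⟨N, h1⟩)
    rwa [add_zero] at e5
  refine le_antisymm (le_of_forall_pos_le_add fun ε hε => ?_) hGv
  have := key ε hε
  rw [Real.rpow_le_rpow_iff hGv hε.le (by positivity)] at this
  linarith

end Sub

end Pool.Agent.SierpinskiCarpet
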