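import Pool.Agent.helper33.SCSub

/-!
# The zero set of a controlled functional
-/

open MeasureTheory Filter Topology
open scoped ENNReal

namespace Pool.Agent.SierpinskiCarpet

variable {K : Set (ℝ × ℝ)} {hK : IsCarpet K} {A Z : Set (K → ℝ)} {p ρ M : ℝ}
  {E G : (K → ℝ) → ℝ}

section Separation

theorem eventually_same_cell (hK : IsCarpet K) (n : ℕ) (x : K) :
    ∀ᶠ y in 𝓝 x, ∃ w ∈ words n, (∃ z, cell hK w z = x) ∧ ∃ z, cell hK w z = y := by
  classical
  have := hK.instCompact
  set T := (words n).filter (fun w => ¬∃ z, cell hK w z = x) with hT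
  have hclosed : IsClosed (⋃ w ∈ T, Set.range (cell hK w)) :=
    isClosed_biUnion_finset fun w _ => (isCompact_range (continuous_cell hK w)).isClosed
  have hx : x ∈ (⋃ w ∈ T, Set.range (cell hK w))ᶜ := by
    intro hmem
    obtain ⟨w, hw, z, hz⟩ := Set.mem_iUnion₂.1 hmem
    exact (Finset.mem_filter.1 hw).2 ⟨z, hz⟩
  filter_upwards [hclosed.isOpen_compl.mem_nhds hx] with y hy
  obtain ⟨w, hw, z, hz⟩ := exists_cell hK n y
  refine ⟨w, hw, ?_, z, hz⟩
  by_contra hcon
  exact hy (Set.mem_iUnion₂.2 ⟨w, Finset.mem_filter.2 ⟨hw, hcon⟩, z, hz⟩)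

theorem tendsto_iterate (hK : IsCarpet K) (i : Fin 8) (s : K) :
    Tendsto (fun n => (cellMap hK i)^[n] s) atTop (𝓝 ⟨q i, q_mem hK i⟩) := by
  have hfix : cellMap hK i ⟨q i, q_mem hK i⟩ = ⟨q i, q_mem hK i⟩ :=
    Subtype.ext (by change contraction i (q i) = q i; simp [contraction])
  have hd : ∀ n, dist ((cellMap hK i)^[n] s) ⟨q i, q_mem hK i⟩ ≤ 2 * (1 / 3) ^ n := by
    intro n
    induction n with
    | zero =>
      simp only [Function.iterate_zero, id_eq, pow_zero, mul_one]
      exact dist_le_two hK _ _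
    | succ n ih =>
      rw [Function.iterate_succ_apply']
      calc dist (cellMap hK i ((cellMap hK i)^[n] s)) ⟨q i, q_mem hK i⟩
          = dist (cellMap hK i ((cellMap hK i)^[n] s)) (cellMap hK i ⟨q i, q_mem hK i⟩) := by
            rw [hfix]
        _ = dist ((cellMap hK i)^[n] s) ⟨q i, q_mem hK i⟩ / 3 := dist_cellMap hK i _ _
        _ ≤ 2 * (1 / 3) ^ n / 3 := by gcongr
        _ = 2 * (1 / 3) ^ (n + 1) := by ring
  rw [tendsto_iff_dist_tendsto_zero]
  refine squeeze_zero (fun n => dist_nonneg) hd ?_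
  have := (tendsto_pow_atTop_nhds_zero_of_lt_one (r := (1 / 3 : ℝ)) (by norm_num)
    (by norm_num)).const_mul 2
  rwa [mul_zero] at this

/-- Points of the left side are separated from points of the right side. -/
theorem LatClass.separates (hZ : LatClass hK Z) {g₀ : K → ℝ} (hg₀ : g₀ ∈ Z)
    (hv : 0 < cvar hK p g₀) (hp : 0 < p) (s t : K) (hs : s.1.1 = -1) (ht : t.1.1 = 1) :
    ∃ f ∈ Z, f s ≠ f t := by
  by_contra hcon
  push Not at hcon
  have q0 : q 0 = (-1, -1) := by simp [q]
  have q1 : q 1 = (0, -1) := by simp [q]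
  have q2 : q 2 = (1, -1) := by simp [q]
  have step : ∀ s t : K, s.1.1 = -1 → t.1.1 = 1 → (∀ f ∈ Z, f s = f t) →
      (cellMap hK 0 s).1.1 = -1 ∧ (cellMap hK 2 t).1.1 = 1 ∧
        ∀ f ∈ Z, f (cellMap hK 0 s) = f (cellMap hK 2 t) := by
    intro s t hs ht hst
    refine ⟨?_, ?_, fun f hf => ?_⟩
    · change (contraction 0 s).1 = -1
      rw [contraction_fst, hs, q0]
      norm_num
    · change (contraction 2 t).1 = 1
      rw [contraction_fst, ht, q2]
      norm_num
    · have h1 := hst _ (hZ.comp_mem f hf 0)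
      have h2 := hst _ (hZ.reflX_mem _ (hZ.comp_mem f hf 1))
      have h3 := hst _ (hZ.comp_mem f hf 2)
      simp only [Function.comp_apply] at h1 h2 h3
      have e1 : cellMap hK 0 t = cellMap hK 1 (SierpinskiCarpet.reflX hK t) := by
        refine Subtype.ext (Prod.ext ?_ ?_)
        · change (contraction 0 t).1 = (contraction 1 (-t.1.1, t.1.2)).1
          rw [contraction_fst, contraction_fst, ht, q0, q1]
          norm_num
        · change (contraction 0 t).2 = (contraction 1 (-t.1.1, t.1.2)).2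
          rw [contraction_snd, contraction_snd, q0, q1]
      have e2 : cellMap hK 1 (SierpinskiCarpet.reflX hK s) = cellMap hK 2 s := by
        refine Subtype.ext (Prod.ext ?_ ?_)
        · change (contraction 1 (-s.1.1, s.1.2)).1 = (contraction 2 s).1
          rw [contraction_fst, contraction_fst, hs, q1, q2]
          norm_num
        · change (contraction 1 (-s.1.1, s.1.2)).2 = (contraction 2 s).2
          rw [contraction_snd, contraction_snd, q1, q2]
      rw [h1, e1, ← h2, e2, h3]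
  have iter : ∀ n : ℕ, ((cellMap hK 0)^[n] s).1.1 = -1 ∧ ((cellMap hK 2)^[n] t).1.1 = 1 ∧
      ∀ f ∈ Z, f ((cellMap hK 0)^[n] s) = f ((cellMap hK 2)^[n] t) := by
    intro n
    induction n with
    | zero => exact ⟨hs, ht, hcon⟩
    | succ n ih =>
      rw [Function.iterate_succ_apply', Function.iterate_succ_apply']
      exact step _ _ ih.1 ih.2.1 ih.2.2
  have hlim : ∀ f ∈ Z, f ⟨q 0, q_mem hK 0⟩ = f ⟨q 2, q_mem hK 2⟩ := by
    intro f hf
    have h1 := ((hZ.cont f hf).tendsto _).comp (tendsto_iterate hK 0 s)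
    have h2 := ((hZ.cont f hf).tendsto _).comp (tendsto_iterate hK 2 t)
    refine tendsto_nhds_unique h1 (h2.congr fun n => ?_)
    exact ((iter n).2.2 f hf).symm
  have c0 : corner hK (false, false) = ⟨q 0, q_mem hK 0⟩ :=
    Subtype.ext (by
      change ((sgn false, sgn false) : ℝ × ℝ) = q 0
      rw [q0]
      simp [sgn])
  have c2 : corner hK (true, false) = ⟨q 2, q_mem hK 2⟩ :=
    Subtype.ext (by
      change ((sgn true, sgn false) : ℝ × ℝ) = q 2
      rw [q2]
      simp [sgn])
  have h1 : ∀ f ∈ Z, f (corner hK (true, false)) = f (corner hK (false, false)) := fun f hf => by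
    rw [c0, c2]
    exact (hlim f hf).symm
  have h2 : ∀ f ∈ Z, f (corner hK (true, true)) = f (corner hK (false, true)) := fun f hf => by
    have := h1 _ (hZ.reflY_mem f hf)
    simp only [Function.comp_apply] at this
    have e1 : SierpinskiCarpet.reflY hK (corner hK (true, false)) = corner hK (true, true) :=
      Subtype.ext (by simp [SierpinskiCarpet.reflY, corner, sgn])
    have e2 : SierpinskiCarpet.reflY hK (corner hK (false, false)) = corner hK (false, true) :=
      Subtype.ext (by simp [SierpinskiCarpet.reflY, corner, sgn])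
    rwa [e1, e2] at this
  have h3 : ∀ f ∈ Z, f (corner hK (false, true)) = f (corner hK (false, false)) := fun f hf => by
    have := h1 _ (hZ.swap_mem f hf)
    simp only [Function.comp_apply] at this
    have e1 : swapXY hK (corner hK (true, false)) = corner hK (false, true) :=
      Subtype.ext (by simp [swapXY, corner, sgn])
    have e2 : swapXY hK (corner hK (false, false)) = corner hK (false, false) :=
      Subtype.ext (by simp [swapXY, corner, sgn])
    rwa [e1, e2] at this
  have hzero : cvar hK p g₀ = 0 := by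
    unfold cvar
    refine Finset.sum_eq_zero fun c _ => ?_
    have : g₀ (corner hK c) = g₀ (corner hK (false, false)) := by
      obtain ⟨a, b⟩ := c
      cases a <;> cases b
      · rfl
      · exact h3 _ hg₀
      · exact h1 _ hg₀
      · rw [h2 _ hg₀, h3 _ hg₀]
    rw [this, sub_self, abs_zero, Real.zero_rpow hp.ne']
  linarith

/-- A class which contains a function that is not constant on the corners contains a crossing
function. -/
theorem LatClass.exists_crossing (hZ : LatClass hK Z) {g₀ : K → ℝ} (hg₀ : g₀ ∈ Z)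
    (hv : 0 < cvar hK p g₀) (hp : 0 < p) : ∃ u ∈ Z, IsCrossing u := by
  have := hK.instCompact
  set L : Set K := {x | x.1.1 = -1} with hL
  set R : Set K := {x | x.1.1 = 1} with hR
  have hLc : IsCompact L := (isClosed_eq (by fun_prop) continuous_const).isCompact
  have hRc : IsCompact R := (isClosed_eq (by fun_prop) continuous_const).isCompact
  have h1 : ∀ s ∈ L, ∀ t ∈ R, ∃ f ∈ Z, f s < 0 ∧ 1 < f t := by
    intro s hs t ht
    obtain ⟨f, hf, hst⟩ := hZ.separates hg₀ hv hp s t hs ht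
    set d := f t - f s with hd
    have hd0 : d ≠ 0 := sub_ne_zero.2 (Ne.symm hst)
    refine ⟨fun x => ((3 / d) • f) x + (-(3 / d) * f s - 1),
      hZ.add_const_mem (hZ.smul_mem _ f hf) _, ?_, ?_⟩
    · simp only [Pi.smul_apply, smul_eq_mul]
      linarith
    · simp only [Pi.smul_apply, smul_eq_mul]
      have : 3 / d * f t + (-(3 / d) * f s - 1) = 3 / d * d - 1 := by rw [hd]; ring
      rw [this, div_mul_cancel₀ _ hd0]
      norm_num
  have h2 : ∀ s ∈ L, ∃ f ∈ Z, f s < 0 ∧ ∀ t ∈ R, 1 < f t := by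
    intro s hs
    refine hRc.induction_on (p := fun T => ∃ f ∈ Z, f s < 0 ∧ ∀ t ∈ T, 1 < f t) ?_ ?_ ?_ ?_
    · exact ⟨fun _ => -1, hZ.const_mem _, by norm_num, by simp⟩
    · rintro T T' hTT' ⟨f, hf, hfs, hft⟩
      exact ⟨f, hf, hfs, fun t ht => hft t (hTT' ht)⟩
    · rintro T T' ⟨f, hf, hfs, hft⟩ ⟨f', hf', hfs', hft'⟩
      refine ⟨fun x => max (f x) (f' x), hZ.max_mem hf hf', max_lt hfs hfs', fun t ht => ?_⟩
      rcases ht with ht | ht
      · exact lt_max_of_lt_left (hft t ht)
      · exact lt_max_of_lt_right (hft' t ht)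
    · intro t ht
      obtain ⟨f, hf, hfs, hft⟩ := h1 s hs t ht
      refine ⟨{x | 1 < f x}, mem_nhdsWithin_of_mem_nhds ?_, f, hf, hfs, fun x hx => hx⟩
      exact (isOpen_lt continuous_const (hZ.cont f hf)).mem_nhds hft
  obtain ⟨f, hf, hfL, hfR⟩ : ∃ f ∈ Z, (∀ s ∈ L, f s < 0) ∧ ∀ t ∈ R, 1 < f t := by
    refine hLc.induction_on (p := fun T => ∃ f ∈ Z, (∀ s ∈ T, f s < 0) ∧ ∀ t ∈ R, 1 < f t)
      ?_ ?_ ?_ ?_
    · exact ⟨fun _ => 2, hZ.const_mem _, by simp, by norm_num⟩
    · rintro T T' hTT' ⟨f, hf, hfs, hft⟩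
      exact ⟨f, hf, fun t ht => hfs t (hTT' ht), hft⟩
    · rintro T T' ⟨f, hf, hfs, hft⟩ ⟨f', hf', hfs', hft'⟩
      refine ⟨fun x => min (f x) (f' x), hZ.min_mem hf hf', fun t ht => ?_,
        fun t ht => lt_min (hft t ht) (hft' t ht)⟩
      rcases ht with ht | ht
      · exact min_lt_of_left_lt (hfs t ht)
      · exact min_lt_of_right_lt (hfs' t ht)
    · intro s hs
      obtain ⟨f, hf, hfs, hft⟩ := h2 s hs
      refine ⟨{x | f x < 0}, mem_nhdsWithin_of_mem_nhds ?_, f, hf, fun x hx => hx, hft⟩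
      exact (isOpen_lt (hZ.cont f hf) continuous_const).mem_nhds hfs
  have hgZ : (fun x => min (max (f x) 0) 1) ∈ Z :=
    hZ.min_mem (hZ.max_mem hf (hZ.const_mem 0)) (hZ.const_mem 1)
  refine ⟨_, hgZ, hZ.cont _ hgZ, fun x hx => ?_, fun x hx => ?_⟩
  · have := hfL x hx
    change min (max (f x) 0) 1 = 0
    rw [max_eq_right this.le, min_eq_left zero_le_one]
  · have := hfR x hx
    change min (max (f x) 0) 1 = 1
    rw [max_eq_left (by linarith), min_eq_right this.le]

end Separation

namespace Nice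

variable (h : Nice hK p ρ A E)

include h

theorem exists_subseq {g : ℕ → K → ℝ} (hg : ∀ n, g n ∈ A) {L R : ℝ} (hL : ∀ n, E (g n) ≤ L)
    (hR : ∀ n x, |g n x| ≤ R) : ∃ (v : K → ℝ) (φ : ℕ → ℕ), StrictMono φ ∧
      ∀ ε > 0, ∃ N, ∀ n ≥ N, ∀ x, |g (φ n) x - v x| ≤ ε := by
  have := hK.instCompact
  have hp := h.p_pos
  have hρ := h.rho_pos
  obtain ⟨C, hC, hosc⟩ := h.osc
  have hL0 : 0 ≤ L := (h.nonneg _ (hg 0)).trans (hL 0)
  let f : ℕ → BoundedContinuousFunction K ℝ := fun n =>
    BoundedContinuousFunction.mkOfCompact ⟨g n, h.lat.cont _ (hg n)⟩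
  have hf : ∀ n x, f n x = g n x := fun n x => rfl
  have hcomp : IsCompact (closure (Set.range f)) := by
    refine BoundedContinuousFunction.arzela_ascoli (Set.Icc (-R) R) isCompact_Icc _ ?_ ?_
    · rintro _ x ⟨n, rfl⟩
      rw [hf]
      exact abs_le.1 (hR n x)
    · intro x
      rw [Metric.equicontinuousAt_iff_right]
      intro ε hε
      have hlim : Tendsto (fun n : ℕ => C * ((ρ⁻¹) ^ n * L)) atTop (𝓝 0) := by
        have := ((tendsto_pow_atTop_nhds_zero_of_lt_one (inv_nonneg.2 hρ.le)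
          (inv_lt_one_of_one_lt₀ h.one_lt_scale)).mul_const L).const_mul C
        simpa using this
      obtain ⟨n, hn⟩ := (hlim.eventually (gt_mem_nhds (show 0 < ε ^ p by positivity))).exists
      filter_upwards [eventually_same_cell hK n x] with y hy
      obtain ⟨w, hw, ⟨z, rfl⟩, ⟨z', rfl⟩⟩ := hy
      rintro ⟨_, k, rfl⟩
      simp only [hf]
      rw [Real.dist_eq]
      have h1 := hosc _ (h.lat.cell_mem (hg k) w) z z'
      have h2 := h.energy_cell_le (hg k) w
      rw [mem_words.1 hw] at h2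
      have h3 : E (g k ∘ cell hK w) ≤ (ρ⁻¹) ^ n * L := by
        rw [inv_pow, ← div_eq_inv_mul, le_div_iff₀ (by positivity)]
        have := hL k
        linarith
      have h4 : |(g k ∘ cell hK w) z - (g k ∘ cell hK w) z'| ^ p < ε ^ p :=
        h1.trans_lt (lt_of_le_of_lt (by gcongr) hn)
      exact (Real.rpow_lt_rpow_iff (abs_nonneg _) hε.le hp).1 h4
  obtain ⟨v, -, φ, hφ, hlim⟩ := hcomp.tendsto_subseq (fun n => subset_closure (Set.mem_range_self n))
  refine ⟨v, φ, hφ, fun ε hε => ?_⟩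
  obtain ⟨N, hN⟩ := Metric.tendsto_atTop.1 hlim ε hε
  refine ⟨N, fun n hn x => ?_⟩
  have h1 := BoundedContinuousFunction.dist_coe_le_dist (f := f (φ n)) (g := v) x
  rw [Real.dist_eq, hf] at h1
  exact h1.trans (hN n hn).le

end Nice

namespace Sub

variable (hG : Sub hK p ρ M A E G) (h : Nice hK p ρ A E)

include hG h

theorem const_zero (c : ℝ) : G (fun _ => c) = 0 := by
  have h1 := hG.smul _ (h.lat.const_mem 0) 0
  rw [abs_zero, Real.zero_rpow h.p_pos.ne', zero_mul, zero_smul] at h1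
  have h2 := hG.add_const _ (h.lat.const_mem 0) c
  have e : (fun _ : K => (0 : ℝ)) = 0 := rfl
  simp only [zero_add] at h2
  rw [h2, e, h1]

theorem abs_zero_mem {f : K → ℝ} (hf : f ∈ A) (hGf : G f = 0) : G (fun x => |f x|) = 0 := by
  classical
  have hρ := h.rho_pos
  have hp := h.p_pos
  have hM := hG.const_nonneg
  have habs := h.lat.abs_mem f hf
  obtain ⟨CL, hCL, hlip⟩ := h.lipschitz_comp 1 zero_le_one
  have habsle : ∀ u ∈ A, E (fun x => |u x|) ≤ CL * (E u + E u) := fun u hu =>
    (hlip (fun a _ => |a|) (fun a b a' b' => by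
      have h1 := abs_abs_sub_abs_le_abs_sub a a'
      have h2 := abs_nonneg (b - b')
      linarith) u hu u hu).2
  have hcell0 : ∀ k, ∀ x ∈ words k, G (f ∘ cell hK x) = 0 := by
    intro k x hx
    have h1 := hG.sum_words h k f hf
    rw [hGf] at h1
    have h2 : ∑ w ∈ words k, G (f ∘ cell hK w) = 0 := by
      rcases mul_eq_zero.1 h1 with h3 | h3
      · exact absurd h3 (by positivity)
      · exact h3
    exact (Finset.sum_eq_zero_iff_of_nonneg
      (fun w _ => hG.nonneg _ (h.lat.cell_mem hf w))).1 h2 x hx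
  refine le_antisymm (le_of_forall_pos_le_add fun ε hε => ?_) (hG.nonneg _ habs)
  have hκ : 0 < ε / (M * (2 * CL) + 1) := by positivity
  obtain ⟨δ, hδ, y, hyA, hyE, hy⟩ := h.exists_local hf hκ
  obtain ⟨k, hk⟩ := exists_mesh hK (h.lat.cont f hf) hδ
  have hk := hk k le_rfl
  have key : ∀ x ∈ words k, G ((fun z => |f z|) ∘ cell hK x) ≤
      M * (2 * CL) * E (y ∘ cell hK x) := by
    intro x hx
    have hyx := h.nonneg _ (h.lat.cell_mem hyA x)
    have hR : 0 ≤ M * (2 * CL) * E (y ∘ cell hK x) := by positivity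
    by_cases hpos : ∀ z, 0 < f (cell hK x z)
    · have e : (fun z => |f z|) ∘ cell hK x = f ∘ cell hK x := by
        funext z
        exact abs_of_pos (hpos z)
      rw [e, hcell0 k x hx]
      exact hR
    by_cases hneg : ∀ z, f (cell hK x z) < 0
    · have e : (fun z => |f z|) ∘ cell hK x = (-1 : ℝ) • (f ∘ cell hK x) := by
        funext z
        simp only [Function.comp_apply, Pi.smul_apply, smul_eq_mul, neg_mul, one_mul]
        exact abs_of_neg (hneg z)
      rw [e, hG.smul _ (h.lat.cell_mem hf x), hcell0 k x hx, mul_zero]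
      exact hR
    push Not at hpos hneg
    obtain ⟨z₁, hz₁⟩ := hpos
    obtain ⟨z₂, hz₂⟩ := hneg
    have e : y ∘ cell hK x = f ∘ cell hK x := by
      funext z
      refine hy _ ?_
      have h1 := abs_lt.1 (hk x hx z₁ z)
      have h2 := abs_lt.1 (hk x hx z₂ z)
      rw [abs_lt]
      constructor <;> linarith
    rw [e]
    calc G ((fun z => |f z|) ∘ cell hK x) ≤ M * E ((fun z => |f z|) ∘ cell hK x) :=
          hG.le _ (h.lat.cell_mem habs x)
      _ ≤ M * (CL * (E (f ∘ cell hK x) + E (f ∘ cell hK x))) := by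
          gcongr
          exact habsle _ (h.lat.cell_mem hf x)
      _ = M * (2 * CL) * E (f ∘ cell hK x) := by ring
  calc G (fun x => |f x|) = ρ ^ k * ∑ x ∈ words k, G ((fun z => |f z|) ∘ cell hK x) :=
        (hG.sum_words h k _ habs).symm
    _ ≤ ρ ^ k * ∑ x ∈ words k, M * (2 * CL) * E (y ∘ cell hK x) := by
        gcongr with x hx
        exact key x hx
    _ = M * (2 * CL) * E y := by
        rw [← h.sum_words k y hyA, ← Finset.mul_sum]
        ring
    _ ≤ M * (2 * CL) * (ε / (M * (2 * CL) + 1)) := by gcongr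
    _ ≤ 0 + ε := by
        rw [zero_add, mul_div_assoc', div_le_iff₀ (by positivity)]
        nlinarith

theorem latClass : LatClass hK {u | u ∈ A ∧ G u = 0} := by
  have hp := h.p_pos
  refine ⟨fun u hu => h.lat.cont u hu.1, fun c => ⟨h.lat.const_mem c, hG.const_zero h c⟩,
    fun u hu v hv => ⟨h.lat.add_mem u hu.1 v hv.1, ?_⟩,
    fun a u hu => ⟨h.lat.smul_mem a u hu.1, by rw [hG.smul u hu.1, hu.2, mul_zero]⟩,
    fun u hu => ⟨h.lat.abs_mem u hu.1, hG.abs_zero_mem h hu.1 hu.2⟩,
    fun u hu => ⟨h.lat.reflX_mem u hu.1, by rw [hG.reflX u hu.1, hu.2]⟩,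
    fun u hu => ⟨h.lat.reflY_mem u hu.1, by rw [hG.reflY u hu.1, hu.2]⟩,
    fun u hu => ⟨h.lat.swap_mem u hu.1, by rw [hG.swap u hu.1, hu.2]⟩,
    fun u hu i => ⟨h.lat.comp_mem u hu.1 i, ?_⟩, fun u huc hu => ?_⟩
  · have h1 := hG.subadd h hu.1 hv.1
    rw [hu.2, hv.2, Real.zero_rpow (by positivity), add_zero] at h1
    have h2 := hG.nonneg _ (h.lat.add_mem u hu.1 v hv.1)
    have h3 : G (u + v) ^ (1 / p) = 0 := le_antisymm h1 (by positivity)
    exact (Real.rpow_eq_zero h2 (by positivity)).1 h3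
  · have h1 := hG.scaling u hu.1
    rw [hu.2] at h1
    have h2 : ∑ i, G (u ∘ cellMap hK i) = 0 := by
      rcases mul_eq_zero.1 h1 with h3 | h3
      · exact absurd h3 h.rho_pos.ne'
      · exact h3
    exact (Finset.sum_eq_zero_iff_of_nonneg
      (fun j _ => hG.nonneg _ (h.lat.comp_mem u hu.1 j))).1 h2 i (Finset.mem_univ i)
  · have huA := h.lat.glue u huc fun i => (hu i).1
    refine ⟨huA, ?_⟩
    rw [← hG.scaling u huA, Finset.sum_eq_zero fun i _ => (hu i).2, mul_zero]

/-- If `G / E` is not bounded away from zero, then `G` has a nonconstant zero. -/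
theorem exists_nonconst (hinf : ∀ η > 0, ∃ f ∈ A, 0 < E f ∧ G f ≤ η * E f) :
    ∃ g ∈ A, G g = 0 ∧ 0 < cvar hK p g := by
  have hp := h.p_pos
  have hρ := h.rho_pos
  obtain ⟨C₁, hC₁, h1⟩ := h.mem_of_cvar
  obtain ⟨C₂, hC₂, h2⟩ := h.cvar_le
  obtain ⟨C₃, hC₃, h3⟩ := h.osc
  set c : ℝ := 1 / (2 * C₁) with hc
  have hc0 : 0 < c := by positivity
  have hcv : ∀ u ∈ A, cvar hK p u ≤ C₂ * E u := fun u hu => by
    have := h2 0 u hu
    rwa [sum_words_zero, pow_zero, one_mul, cell_nil, Function.comp_id] at this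
  have step : ∀ η > 0, ∃ g ∈ A, E g = 1 ∧ c / 2 ≤ cvar hK p g ∧ G g ≤ η ∧
      ∀ x, |g x| ≤ C₃ ^ (1 / p) := by
    intro η hη
    set η' := η * c / (4 * C₂) with hη'
    have hη'0 : 0 < η' := by positivity
    obtain ⟨f, hf, hEf, hGf⟩ := hinf η' hη'0
    obtain ⟨n, hn⟩ : ∃ n, c * E f < ρ ^ n * ∑ w ∈ words n, cvar hK p (f ∘ cell hK w) := by
      by_contra hcon
      push Not at hcon
      have h4 := (h1 f (h.lat.cont f hf) (c * E f) hcon).2
      have h5 : C₁ * (c * E f) = E f / 2 := by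
        rw [hc]
        field_simp
      rw [h5] at h4
      linarith
    obtain ⟨w, hw, hcw⟩ : ∃ w ∈ words n, c / 2 * E (f ∘ cell hK w) +
        c / (4 * η') * G (f ∘ cell hK w) < cvar hK p (f ∘ cell hK w) := by
      by_contra hcon
      push Not at hcon
      have h4 : ρ ^ n * ∑ w ∈ words n, cvar hK p (f ∘ cell hK w) ≤
          c / 2 * E f + c / (4 * η') * G f := by
        calc ρ ^ n * ∑ w ∈ words n, cvar hK p (f ∘ cell hK w)
            ≤ ρ ^ n * ∑ w ∈ words n, (c / 2 * E (f ∘ cell hK w) +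
              c / (4 * η') * G (f ∘ cell hK w)) := by
              gcongr with w hw
              exact hcon w hw
          _ = c / 2 * E f + c / (4 * η') * G f := by
              rw [← h.sum_words n f hf, ← hG.sum_words h n f hf, Finset.sum_add_distrib,
                ← Finset.mul_sum, ← Finset.mul_sum]
              ring
      have h5 : c / (4 * η') * G f ≤ c / (4 * η') * (η' * E f) := by gcongr
      have h6 : c / (4 * η') * (η' * E f) = c / 4 * E f := by field_simp
      have h7 : 0 < c * E f := by positivity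
      linarith
    have hfw := h.lat.cell_mem hf w
    have hEw := h.nonneg _ hfw
    have hGw := hG.nonneg _ hfw
    have hcvw := hcv _ hfw
    have hη'c : 0 ≤ c / (4 * η') * G (f ∘ cell hK w) := by positivity
    have hEpos : 0 < E (f ∘ cell hK w) := by
      rcases hEw.eq_or_lt with h0 | h0
      · exfalso
        rw [← h0] at hcw hcvw
        linarith
      · exact h0
    have hGle : G (f ∘ cell hK w) ≤ η * E (f ∘ cell hK w) := by
      have h5 : c / (4 * η') * G (f ∘ cell hK w) ≤ C₂ * E (f ∘ cell hK w) := by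
        have : 0 ≤ c / 2 * E (f ∘ cell hK w) := by positivity
        linarith
      have h6 : c / (4 * η') = C₂ / η := by
        rw [hη']
        field_simp
      rw [h6, div_mul_eq_mul_div, div_le_iff₀ hη] at h5
      have h7 : C₂ * G (f ∘ cell hK w) ≤ C₂ * (η * E (f ∘ cell hK w)) := by linarith
      exact le_of_mul_le_mul_left h7 hC₂
    -- normalise
    set s : ℝ := (E (f ∘ cell hK w) ^ (1 / p))⁻¹ with hs
    have hs0 : 0 < s := by positivity
    have hsp : |s| ^ p * E (f ∘ cell hK w) = 1 := by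
      rw [abs_of_pos hs0, hs, Real.inv_rpow (by positivity), rpow_one_div_rpow hp hEw,
        inv_mul_cancel₀ hEpos.ne']
    set a : ℝ := (s • (f ∘ cell hK w)) (corner hK (false, false)) with ha
    set g : K → ℝ := fun x => (s • (f ∘ cell hK w)) x + (-a) with hg
    have hsm := h.lat.smul_mem s _ hfw
    have hgA : g ∈ A := h.lat.add_const_mem hsm _
    have hEg : E g = 1 := by
      rw [hg, h.add_const _ hsm, h.smul _ hfw, hsp]
    refine ⟨g, hgA, hEg, ?_, ?_, fun x => ?_⟩
    · have e1 : cvar hK p g = |s| ^ p * cvar hK p (f ∘ cell hK w) := by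
        unfold cvar
        rw [Finset.mul_sum]
        refine Finset.sum_congr rfl fun c _ => ?_
        rw [← Real.mul_rpow (abs_nonneg _) (abs_nonneg _), ← abs_mul]
        congr 2
        simp only [hg, Pi.smul_apply, smul_eq_mul]
        ring
      rw [e1]
      calc c / 2 = |s| ^ p * E (f ∘ cell hK w) * (c / 2) := by rw [hsp, one_mul]
        _ = |s| ^ p * (c / 2 * E (f ∘ cell hK w)) := by ring
        _ ≤ |s| ^ p * cvar hK p (f ∘ cell hK w) := by
          gcongr
          linarith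
    · rw [hg, hG.add_const _ hsm, hG.smul _ hfw]
      calc |s| ^ p * G (f ∘ cell hK w) ≤ |s| ^ p * (η * E (f ∘ cell hK w)) := by gcongr
        _ = η * (|s| ^ p * E (f ∘ cell hK w)) := by ring
        _ = η := by rw [hsp, mul_one]
    · have h5 := h3 g hgA x (corner hK (false, false))
      have e1 : g (corner hK (false, false)) = 0 := by
        simp only [hg, ha]
        ring
      rw [e1, sub_zero, hEg, mul_one] at h5
      calc |g x| = (|g x| ^ p) ^ (1 / p) := (rpow_rpow_one_div hp (abs_nonneg _)).symm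
        _ ≤ C₃ ^ (1 / p) := Real.rpow_le_rpow (by positivity) h5 (by positivity)
  choose g hgA hgE hgc hgG hgb using fun n : ℕ => step (1 / (n + 1)) (by positivity)
  obtain ⟨v, φ, hφ, hv⟩ := h.exists_subseq hgA (fun n => (hgE n).le) hgb
  have hlim : Tendsto (fun n : ℕ => (1 : ℝ) / (n + 1)) atTop (𝓝 0) :=
    tendsto_one_div_add_atTop_nhds_zero_nat
  obtain ⟨hvA, hvG⟩ := hG.zero_of_tendsto h (u := fun n => g (φ n)) (fun n => hgA _)
    (fun n => (hgE _).le) (fun ε hε => by
      obtain ⟨N, hN⟩ := eventually_atTop.1 (hlim.eventually (gt_mem_nhds hε))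
      refine ⟨N, fun n hn => (hgG _).trans (hN (φ n) (hn.trans (hφ.id_le n))).le⟩) hv
  refine ⟨v, hvA, hvG, ?_⟩
  have hpt : ∀ x, Tendsto (fun n => g (φ n) x) atTop (𝓝 (v x)) := by
    intro x
    rw [Metric.tendsto_atTop]
    intro ε hε
    obtain ⟨N, hN⟩ := hv (ε / 2) (by positivity)
    refine ⟨N, fun n hn => ?_⟩
    rw [Real.dist_eq]
    exact (hN n hn x).trans_lt (by linarith)
  have hcvlim : Tendsto (fun n => cvar hK p (g (φ n))) atTop (𝓝 (cvar hK p v)) := by
    unfold cvar
    refine tendsto_finsetSum _ fun c _ => ?_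
    exact (((hpt _).sub (hpt _)).abs).rpow_const (Or.inr hp.le)
  have := ge_of_tendsto' hcvlim fun n => hgc (φ n)
  linarith

/-- A controlled functional whose ratio to the energy is not bounded away from zero vanishes. -/
theorem eq_zero (hinf : ∀ η > 0, ∃ f ∈ A, 0 < E f ∧ G f ≤ η * E f) : ∀ f ∈ A, G f = 0 := by
  have hp := h.p_pos
  have hρ := h.rho_pos
  obtain ⟨g₀, hg₀A, hg₀G, hg₀⟩ := hG.exists_nonconst h hinf
  have hZ := hG.latClass h
  have hcr := hZ.exists_crossing (g₀ := g₀) ⟨hg₀A, hg₀G⟩ hg₀ hp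
  obtain ⟨τ, hτ⟩ := exists_template hZ hcr
  have hτA : IsTemplate A τ := ⟨fun c => (hτ.mem c).1, hτ.sum, hτ.bound, hτ.h0, hτ.h1, hτ.v0, hτ.v1⟩
  obtain ⟨C, hC, hb⟩ := h.energy_interp hτA
  obtain ⟨C₂, hC₂, h2⟩ := h.cvar_le
  intro f hf
  choose g hgZ hg using fun n => exists_interp hZ hτ n f
  refine (hG.zero_of_tendsto h (u := g) (fun n => (hgZ n).1) (L := C * (C₂ * E f)) (fun n => ?_)
    (fun ε hε => ⟨0, fun n _ => ?_⟩) (v := f) (fun ε hε => ?_)).2
  · refine (hb n f (g n) (hgZ n).1 (hg n)).trans ?_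
    have := h2 n f hf
    gcongr
  · rw [(hgZ n).2]
    exact le_of_lt hε
  · obtain ⟨N, hN⟩ := exists_mesh hK (h.lat.cont f hf) (show 0 < ε / 8 by positivity)
    refine ⟨N, fun n hn x => ?_⟩
    refine ((hg n).dist_le hτ (ε := ε / 8) (fun w hw x y => (hN n hn w hw x y).le) x).trans ?_
    linarith

end Sub

end Pool.Agent.SierpinskiCarpet
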