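import Pool.Agent.helper33.SRFold

/-!
# Values on neighbouring cells; continua leaving the neighbourhood of a cell
-/

open MeasureTheory Filter Topology

namespace Pool.Agent.SierpinskiCarpet

variable {K : Set (ℝ × ℝ)} {hK : IsCarpet K} {A : Set (K → ℝ)} {p ρ : ℝ} {E : (K → ℝ) → ℝ}

/-- The value of `f` on the cell `w`. -/
noncomputable def vv (hK : IsCarpet K) (f : K → ℝ) (w : List (Fin 8)) : ℝ := val (f ∘ cell hK w)

/-- Energy on the neighbourhood of a cell. -/
noncomputable def enb (hK : IsCarpet K) (E : (K → ℝ) → ℝ) (f : K → ℝ) (y : List (Fin 8)) : ℝ :=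
  ∑ w ∈ nbh 1 y.length y, E (f ∘ cell hK w)

namespace Reg

variable (h : Reg hK p ρ A E)

include h

theorem comp_rv {u : K → ℝ} (hu : u ∈ A) (w : List (Fin 8)) :
    u ∘ rv hK w ∈ A ∧ E (u ∘ rv hK w) = E u ∧ val (u ∘ rv hK w) = val u := by
  rcases sg_cases true w with h1 | h1 <;> rcases sg_cases false w with h2 | h2
  · have e : rv hK w = id := by
      funext z
      refine ext_co fun d => ?_
      rw [rv_co]
      cases d <;> simp [h1, h2]
    rw [e]
    exact ⟨hu, rfl, rfl⟩
  · have e : rv hK w = SierpinskiCarpet.reflY hK := by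
      funext z
      refine ext_co fun d => ?_
      rw [rv_co]
      cases d <;> simp [h1, h2, SierpinskiCarpet.reflY]
    rw [e]
    exact ⟨h.lat.reflY_mem u hu, h.reflY u hu, val_reflY hK u⟩
  · have e : rv hK w = SierpinskiCarpet.reflX hK := by
      funext z
      refine ext_co fun d => ?_
      rw [rv_co]
      cases d <;> simp [h1, h2, SierpinskiCarpet.reflX]
    rw [e]
    exact ⟨h.lat.reflX_mem u hu, h.reflX u hu, val_reflX hK u⟩
  · have e : u ∘ rv hK w = (u ∘ SierpinskiCarpet.reflX hK) ∘ SierpinskiCarpet.reflY hK := by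
      funext z
      simp only [Function.comp_apply]
      congr 1
      refine ext_co fun d => ?_
      rw [rv_co]
      cases d <;> simp [h1, h2, SierpinskiCarpet.reflX, SierpinskiCarpet.reflY]
    rw [e]
    have m := h.lat.reflX_mem u hu
    exact ⟨h.lat.reflY_mem _ m, by rw [h.reflY _ m, h.reflX u hu], by
      rw [val_reflY, val_reflX]⟩

theorem fw_mem {f : K → ℝ} (hf : f ∈ A) (w : List (Fin 8)) : fw hK f w ∈ A :=
  (h.comp_rv (h.lat.cell_mem hf w) w).1

theorem energy_fw {f : K → ℝ} (hf : f ∈ A) (w : List (Fin 8)) :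
    E (fw hK f w) = E (f ∘ cell hK w) := (h.comp_rv (h.lat.cell_mem hf w) w).2.1

theorem val_fw {f : K → ℝ} (hf : f ∈ A) (w : List (Fin 8)) :
    val (fw hK f w) = vv hK f w := (h.comp_rv (h.lat.cell_mem hf w) w).2.2

theorem vv_adj {f : K → ℝ} (hf : f ∈ A) {w w' : List (Fin 8)} (hl : w.length = w'.length)
    (hww : SAdj w w') : |vv hK f w - vv hK f w'| ≤
      cadj p ρ * kpe A E p (E (f ∘ cell hK w) + E (f ∘ cell hK w')) := by
  obtain ⟨d, a, hd⟩ := hww.agree (hK := hK) hl
  have := h.adj (h.fw_mem hf w) (h.fw_mem hf w') d a (hd f)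
  rwa [h.val_fw hf, h.val_fw hf, h.energy_fw hf, h.energy_fw hf] at this

theorem enb_nonneg {f : K → ℝ} (hf : f ∈ A) (y : List (Fin 8)) : 0 ≤ enb hK E f y :=
  Finset.sum_nonneg fun w _ => h.words_mem hf

theorem le_enb {f : K → ℝ} (hf : f ∈ A) {n : ℕ} {y w : List (Fin 8)} (hy : y ∈ words n)
    (hw : w ∈ nbh 1 n y) : E (f ∘ cell hK w) ≤ enb hK E f y := by
  rw [← mem_words.1 hy] at hw
  exact Finset.single_le_sum (f := fun w => E (f ∘ cell hK w)) (fun w _ => h.words_mem hf) hw

theorem kpe_two_le {a b e : ℝ} (ha : a ≤ e) (hb : b ≤ e) (ha0 : 0 ≤ a) (hb0 : 0 ≤ b) :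
    kpe A E p (a + b) ≤ 2 * kpe A E p e := by
  have h1 := h.kpe_add_le ha0 hb0
  have h2 := h.kpe_mono ha0 ha
  have h3 := h.kpe_mono hb0 hb
  linarith

/-- Values on neighbouring cells. -/
theorem vv_nb {f : K → ℝ} (hf : f ∈ A) {n : ℕ} {y w : List (Fin 8)} (hy : y ∈ words n)
    (hw : w ∈ nbh 1 n y) :
    |vv hK f w - vv hK f y| ≤ 4 * cadj p ρ * kpe A E p (enb hK E f y) := by
  have hc := h.cadj_pos
  have hn : ∀ w, 0 ≤ E (f ∘ cell hK w) := fun _ => h.words_mem hf
  have hyy : y ∈ nbh 1 n y := mem_nbh.2 ⟨hy, Nb.refl zero_le_one y⟩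
  have hk := h.kpe_nonneg (h.enb_nonneg hf y)
  obtain ⟨hwn, hwy⟩ := mem_nbh.1 hw
  have hl : ∀ v ∈ words n, v.length = y.length := fun v hv => by
    rw [mem_words.1 hv, mem_words.1 hy]
  rcases nb_connected hy hwn hwy with rfl | h1 | ⟨v, hv, hvn, h1, h2⟩
  · rw [sub_self, abs_zero]
    positivity
  · have := h.vv_adj hf (hl w hwn).symm h1
    have h3 := h.kpe_two_le (h.le_enb hf hy hyy) (h.le_enb hf hy hw) (hn _) (hn _)
    rw [abs_sub_comm]
    refine this.trans ?_
    nlinarith
  · have e1 := h.vv_adj hf (hl v hv).symm h1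
    have e2 := h.vv_adj hf ((hl v hv).trans (hl w hwn).symm) h2
    have hvv : v ∈ nbh 1 n y := mem_nbh.2 ⟨hv, hvn⟩
    have h3 := h.kpe_two_le (h.le_enb hf hy hyy) (h.le_enb hf hy hvv) (hn _) (hn _)
    have h4 := h.kpe_two_le (h.le_enb hf hy hvv) (h.le_enb hf hy hw) (hn _) (hn _)
    have e3 := mul_le_mul_of_nonneg_left h3 hc.le
    have e4 := mul_le_mul_of_nonneg_left h4 hc.le
    rw [abs_le] at *
    constructor <;> linarith [e1.1, e1.2, e2.1, e2.2]

end Reg

/-- The maximum of the functions of a list and a base function. -/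
noncomputable def mx (g : K → ℝ) : List (K → ℝ) → K → ℝ
  | [] => g
  | f :: L => fun x => max (f x) (mx g L x)

/-- Every word of the list is adjacent to a later one or to `y`. -/
def Linked (y : List (Fin 8)) : List (List (Fin 8)) → Prop
  | [] => True
  | w :: L => (∃ w' ∈ y :: L, SAdj w w') ∧ Linked y L

theorem Linked.append {y : List (Fin 8)} {L₂ : List (List (Fin 8))} (h₂ : Linked y L₂) :
    ∀ L₁ : List (List (Fin 8)), (∀ w ∈ L₁, ∃ w' ∈ y :: L₂, SAdj w w') → Linked y (L₁ ++ L₂) := by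
  intro L₁
  induction L₁ with
  | nil => intro _; exact h₂
  | cons w L₁ ih =>
    intro hL
    refine ⟨?_, ih fun v hv => hL v (List.mem_cons_of_mem _ hv)⟩
    obtain ⟨w', hw', ha⟩ := hL w List.mem_cons_self
    refine ⟨w', ?_, ha⟩
    rcases List.mem_cons.1 hw' with rfl | hw'
    · exact List.mem_cons_self
    · exact List.mem_cons_of_mem _ (List.mem_append_right _ hw')

theorem le_mx (g : K → ℝ) (x : K) : ∀ L : List (K → ℝ), ∀ f ∈ g :: L, f x ≤ mx g L x := by
  intro L
  induction L with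
  | nil =>
    intro f hf
    rw [List.mem_singleton] at hf
    rw [hf, mx]
  | cons f' L ih =>
    intro f hf
    rw [mx]
    simp only [List.mem_cons] at hf
    rcases hf with rfl | rfl | hf
    · exact (ih _ List.mem_cons_self).trans (le_max_right _ _)
    · exact le_max_left _ _
    · exact (ih f (List.mem_cons_of_mem _ hf)).trans (le_max_right _ _)

namespace Reg

variable (h : Reg hK p ρ A E)

include h

/-- The value of the maximum over linked cells. -/
theorem exists_mx_bound (k : ℕ) : ∃ b c : ℝ, 0 < b ∧ 0 < c ∧ ∀ (n : ℕ) (f : K → ℝ), f ∈ A →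
    ∀ (y : List (Fin 8)) (L : List (List (Fin 8))) (e : ℝ), L.length ≤ k → y ∈ words n →
      (∀ w ∈ L, w ∈ words n) → Linked y L → (∀ w ∈ y :: L, E (f ∘ cell hK w) ≤ e) →
      mx (fw hK f y) (L.map (fw hK f)) ∈ A ∧ E (mx (fw hK f y) (L.map (fw hK f))) ≤ b * e ∧
      val (mx (fw hK f y) (L.map (fw hK f))) ≤ vv hK f y + c * kpe A E p e := by
  have hp := h.p_pos
  have hcadj := h.cadj_pos
  induction k with
  | zero =>
    refine ⟨1, 1, one_pos, one_pos, fun n f hf y L e hL hy _ _ he => ?_⟩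
    have : L = [] := List.length_eq_zero_iff.1 (by omega)
    subst this
    have h1 := he y List.mem_cons_self
    have h2 : 0 ≤ e := (h.words_mem hf).trans h1
    simp only [List.map_nil, mx]
    refine ⟨h.fw_mem hf y, by rw [h.energy_fw hf, one_mul]; exact h1, ?_⟩
    rw [h.val_fw hf]
    have := h.kpe_nonneg h2
    linarith
  | succ k ih =>
    obtain ⟨b, c, hb, hc, ih⟩ := ih
    refine ⟨3 ^ p * (1 + b) + b, c + cadj p ρ * (3 ^ p * (1 + b) + b) ^ (1 / p), by positivity,
      by positivity, fun n f hf y L e hL hy hLw hLL he => ?_⟩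
    have h2 : 0 ≤ e := (h.words_mem hf).trans (he y List.mem_cons_self)
    have hk := h.kpe_nonneg h2
    cases L with
    | nil =>
      obtain ⟨m1, m2, m3⟩ := ih n f hf y [] e (by simp) hy (by simp) trivial he
      refine ⟨m1, m2.trans ?_, m3.trans ?_⟩
      · have : 0 ≤ 3 ^ p * (1 + b) := by positivity
        nlinarith
      · have : 0 ≤ cadj p ρ * (3 ^ p * (1 + b) + b) ^ (1 / p) := by positivity
        nlinarith
    | cons w L =>
      obtain ⟨m1, m2, m3⟩ := ih n f hf y L e (by simpa using hL) hy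
        (fun v hv => hLw v (List.mem_cons_of_mem _ hv)) hLL.2 (by
          intro v hv
          rcases List.mem_cons.1 hv with rfl | hv
          · exact he _ List.mem_cons_self
          · exact he _ (List.mem_cons_of_mem _ (List.mem_cons_of_mem _ hv)))
      set G := mx (fw hK f y) (L.map (fw hK f)) with hG
      have hwn : w ∈ words n := hLw w List.mem_cons_self
      have hwE : E (fw hK f w) ≤ e := by
        rw [h.energy_fw hf]
        exact he w (List.mem_cons_of_mem _ List.mem_cons_self)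
      have hwA := h.fw_mem hf w
      have hG' : mx (fw hK f y) ((w :: L).map (fw hK f)) = fun x => max (fw hK f w x) (G x) := rfl
      rw [hG']
      have m4 := h.lat.max_mem hwA m1
      have m5 : E (fun x => max (fw hK f w x) (G x)) ≤ 3 ^ p * (1 + b) * e := by
        refine (h.energy_max_le hwA m1).trans ?_
        rw [mul_assoc]
        gcongr
        linarith
      have hGn := h.nonneg G m1
      have hGn' := h.nonneg _ m4
      refine ⟨m4, m5.trans ?_, ?_⟩
      · nlinarith
      obtain ⟨⟨w', hw', ha⟩, -⟩ := hLL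
      have hw'n : w' ∈ words n := by
        rcases List.mem_cons.1 hw' with rfl | hw'
        · exact hy
        · exact hLw _ (List.mem_cons_of_mem _ hw')
      obtain ⟨d, a, hd⟩ := ha.agree (hK := hK) (by rw [mem_words.1 hwn, mem_words.1 hw'n])
      have m6 := h.adj m4 m1 d a (fun x hx => by
        have e1 : fw hK f w x = fw hK f w' x := hd f x hx
        have e2 : fw hK f w' x ≤ G x := le_mx _ x _ _ (by
          rcases List.mem_cons.1 hw' with rfl | hw'
          · exact List.mem_cons_self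
          · exact List.mem_cons_of_mem _ (List.mem_map_of_mem hw'))
        simp only [e1]
        exact max_eq_right e2)
      have m7 : kpe A E p (E (fun x => max (fw hK f w x) (G x)) + E G) ≤
          (3 ^ p * (1 + b) + b) ^ (1 / p) * kpe A E p e := by
        rw [← h.kpe_mul h2 (by positivity)]
        refine h.kpe_mono (by positivity) ?_
        rw [add_mul]
        linarith
      have m8 := mul_le_mul_of_nonneg_left m7 hcadj.le
      have m9 := (abs_le.1 m6).2
      nlinarith

open Classical in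
omit h in
/-- The neighbourhood of a cell as a linked list. -/
theorem exists_linked {n : ℕ} {y : List (Fin 8)} (hy : y ∈ words n) :
    ∃ L : List (List (Fin 8)), L.length ≤ 18 ∧ (∀ w ∈ L, w ∈ nbh 1 n y) ∧ Linked y L ∧
      ∀ w ∈ nbh 1 n y, w ∈ y :: L := by
  set S₁ := (nbh 1 n y).filter fun w => SAdj w y with hS₁
  set S₂ := (nbh 1 n y).filter fun w => ¬SAdj w y ∧ w ≠ y with hS₂
  have c1 : S₁.card ≤ 9 := (Finset.card_filter_le _ _).trans (card_nbh_le 1 n y)
  have c2 : S₂.card ≤ 9 := (Finset.card_filter_le _ _).trans (card_nbh_le 1 n y)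
  have l1 : Linked y (S₁.toList ++ []) := Linked.append (L₂ := []) trivial _ fun w hw => by
    rw [Finset.mem_toList, hS₁, Finset.mem_filter] at hw
    exact ⟨y, List.mem_cons_self, hw.2⟩
  rw [List.append_nil] at l1
  refine ⟨S₂.toList ++ S₁.toList, ?_, ?_, l1.append _ ?_, ?_⟩
  · rw [List.length_append, Finset.length_toList, Finset.length_toList]
    omega
  · intro w hw
    rw [List.mem_append, Finset.mem_toList, Finset.mem_toList, hS₁, hS₂, Finset.mem_filter,
      Finset.mem_filter] at hw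
    rcases hw with hw | hw <;> exact hw.1
  · intro w hw
    rw [Finset.mem_toList, hS₂, Finset.mem_filter] at hw
    obtain ⟨hw1, hw2, hw3⟩ := hw
    obtain ⟨hw4, hw5⟩ := mem_nbh.1 hw1
    rcases nb_connected hy hw4 hw5 with h1 | h1 | ⟨v, hv, hvn, h1, h2⟩
    · exact absurd h1 hw3
    · exact absurd h1.symm hw2
    · refine ⟨v, List.mem_cons_of_mem _ ?_, h2.symm⟩
      rw [Finset.mem_toList, hS₁, Finset.mem_filter]
      exact ⟨mem_nbh.2 ⟨hv, hvn⟩, h1.symm⟩
  · intro w hw
    rw [List.mem_cons, List.mem_append, Finset.mem_toList, Finset.mem_toList, hS₁, hS₂,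
      Finset.mem_filter, Finset.mem_filter]
    tauto

end Reg

section Gd

/-- The distance from the centre of the cell, in units of the half side length. -/
noncomputable def gd (y : List (Fin 8)) (x : K) : ℝ :=
  max |3 ^ y.length * co true x.1 - 2 * cz true (pos y)|
    |3 ^ y.length * co false x.1 - 2 * cz false (pos y)|

theorem le_gd (d : Bool) (y : List (Fin 8)) (x : K) :
    |3 ^ y.length * co d x.1 - 2 * cz d (pos y)| ≤ gd y x := by
  cases d
  · exact le_max_right _ _
  · exact le_max_left _ _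

theorem exists_gd (y : List (Fin 8)) (x : K) :
    ∃ d, gd y x = |3 ^ y.length * co d x.1 - 2 * cz d (pos y)| := by
  unfold gd
  rcases max_choice |3 ^ y.length * co true x.1 - 2 * cz true (pos y)|
    |3 ^ y.length * co false x.1 - 2 * cz false (pos y)| with h | h
  · exact ⟨true, h⟩
  · exact ⟨false, h⟩

theorem continuous_co' (d : Bool) : Continuous fun x : K => co d x.1 :=
  (continuous_co d).comp continuous_subtype_val

theorem continuous_gd (y : List (Fin 8)) : Continuous (gd (K := K) y) := by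
  unfold gd
  have h1 := continuous_co' (K := K) true
  have h2 := continuous_co' (K := K) false
  fun_prop

theorem cell_co' (hK : IsCarpet K) (d : Bool) (w : List (Fin 8)) (z : K) :
    3 ^ w.length * co d (cell hK w z).1 = co d z.1 + 2 * cz d (pos w) := by
  rw [cell_co]
  field_simp

theorem gd_cell_le (hK : IsCarpet K) (y : List (Fin 8)) (z : K) : gd y (cell hK y z) ≤ 1 := by
  obtain ⟨d, hd⟩ := exists_gd y (cell hK y z)
  rw [hd, cell_co', add_sub_cancel_right]
  exact abs_co_le hK d z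

/-- Points outside the neighbourhood. -/
theorem three_le_gd {y w : List (Fin 8)} (hl : w.length = y.length) (hw : ¬Nb 1 y w) (z : K) :
    3 ≤ gd y (cell hK w z) := by
  unfold Nb at hw
  push Not at hw
  obtain ⟨d, hd⟩ := hw
  refine le_trans ?_ (le_gd d y _)
  rw [← hl, cell_co']
  have hd' : (2 : ℤ) ≤ |cz d (pos y) - cz d (pos w)| := hd
  have h1 : (2 : ℝ) ≤ |(cz d (pos y) : ℝ) - cz d (pos w)| := by exact_mod_cast hd'
  have h2 := abs_le.1 (abs_co_le hK d z)
  rw [le_abs] at h1 ⊢
  rcases h1 with h1 | h1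
  · right; linarith
  · left; linarith

/-- Points close to the cell belong to the neighbourhood. -/
theorem nb_of_gd_lt {y w : List (Fin 8)} (hl : w.length = y.length) {z : K}
    (hz : gd y (cell hK w z) < 3) : Nb 1 y w := by
  by_contra hcon
  have := three_le_gd (hK := hK) hl hcon z
  linarith

end Gd

namespace Reg

variable (h : Reg hK p ρ A E)

include h

/-- A function which is large on a continuum joining a cell with the complement of its
neighbourhood has a large value on the cell. -/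
theorem acl : ∃ C : ℝ, 0 < C ∧ ∀ (y : List (Fin 8)) (f : K → ℝ), f ∈ A → ∀ (s : ℝ)
    (S : Set K), IsClosed S → IsPreconnected S → (∃ x ∈ S, gd y x ≤ 1) → (∃ x ∈ S, 3 ≤ gd y x) →
    (∀ x ∈ S, s ≤ f x) → s ≤ vv hK f y + C * kpe A E p (enb hK E f y) := by
  have := hK.instCompact
  have hp := h.p_pos
  obtain ⟨b, c, hb, hc, hbc⟩ := h.exists_mx_bound 18
  refine ⟨c + b ^ (1 / p), by positivity, fun y f hf s S hSc hSp hS1 hS3 hSf => ?_⟩
  have hy : y ∈ words y.length := mem_words.2 rfl
  have hfc := h.lat.cont f hf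
  -- the direction
  let g₁ : Bool × Bool → K → ℝ := fun b x =>
    sgn b.2 * (3 ^ y.length * co b.1 x.1 - 2 * cz b.1 (pos y))
  have hg₁ : ∀ b, Continuous (g₁ b) := fun b =>
    continuous_const.mul ((continuous_const.mul (continuous_co' b.1)).sub continuous_const)
  let si : Bool → ℤ := fun b => if b then 1 else -1
  have hsi : ∀ b, (si b : ℝ) = sgn b := fun b => by cases b <;> simp [si, sgn]
  let T : Bool × Bool → Set K := fun b => {x | s ≤ f x ∧ ∃ w ∈ nbh 1 y.length y,
    cz b.1 (pos w) = cz b.1 (pos y) + si b.2 ∧ x ∈ Set.range (cell hK w)}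
  have hTc : ∀ b, IsClosed (T b) := by
    intro b
    have e : T b = {x | s ≤ f x} ∩ ⋃ w ∈ (nbh 1 y.length y).filter fun w =>
        cz b.1 (pos w) = cz b.1 (pos y) + si b.2, Set.range (cell hK w) := by
      ext x
      simp only [T, Set.mem_ofPred_eq, Set.mem_inter_iff, Set.mem_iUnion, Finset.mem_filter]
      constructor
      · rintro ⟨h1, w, h2, h3, h4⟩
        exact ⟨h1, w, ⟨h2, h3⟩, h4⟩
      · rintro ⟨h1, w, ⟨h2, h3⟩, h4⟩
        exact ⟨h1, w, h2, h3, h4⟩
    rw [e]
    refine (isClosed_le continuous_const hfc).inter ?_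
    exact Set.Finite.isClosed_biUnion (Finset.finite_toSet _) fun w _ =>
      (isCompact_range (continuous_cell hK w)).isClosed
  have hdir : ∃ b : Bool × Bool, ∀ ε > 0, ∃ C ⊆ T b, IsPreconnected C ∧
      (∃ x ∈ C, g₁ b x ≤ 1 + ε) ∧ ∃ x ∈ C, 3 - ε ≤ g₁ b x := by
    by_contra hcon
    push Not at hcon
    choose ε hε hno using hcon
    obtain ⟨b₀, hb₀⟩ := Finite.exists_min ε
    set η := min (ε b₀) (1 / 2) with hη
    have hη0 : 0 < η := lt_min (hε b₀) (by norm_num)
    have hη1 : η ≤ 1 / 2 := min_le_right _ _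
    have hηε : ∀ b, η ≤ ε b := fun b => (min_le_left _ _).trans (hb₀ b)
    obtain ⟨C', hC'S, hC'c, hC'p, hC'b, ⟨x₁, hx₁, hx₁g⟩, x₂, hx₂, hx₂g⟩ :=
      exists_bump hSc hSp (continuous_gd y) (show (1 : ℝ) < 3 - η by linarith) hS1 (by
        obtain ⟨x, hx, hx3⟩ := hS3
        exact ⟨x, hx, by linarith⟩)
    obtain ⟨d, hd⟩ := exists_gd y x₂
    obtain ⟨a, ha⟩ : ∃ a, g₁ (d, a) x₂ = 3 - η := by
      rw [hd] at hx₂g
      rcases abs_eq (a := 3 ^ y.length * co d x₂.1 - 2 * (cz d (pos y) : ℝ)) (b := 3 - η)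
        (by linarith) |>.1 hx₂g with h1 | h1
      · exact ⟨true, by simp only [g₁, h1, sgn, if_true, one_mul]⟩
      · refine ⟨false, ?_⟩
        simp only [g₁, h1, sgn]
        norm_num
    have habs : ∀ x, |g₁ (d, a) x| ≤ gd y x := fun x => by
      simp only [g₁]
      rw [abs_mul, abs_sgn, one_mul]
      exact le_gd d y x
    obtain ⟨C'', hC''S, hC''c, hC''p, hC''b, ⟨x₃, hx₃, hx₃g⟩, x₄, hx₄, hx₄g⟩ :=
      exists_bump hC'c hC'p (hg₁ (d, a)) (show (1 : ℝ) + η < 3 - η by linarith)
        ⟨x₁, hx₁, by have := (abs_le.1 (habs x₁)).2; linarith⟩ ⟨x₂, hx₂, ha.ge⟩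
    have hsubT : C'' ⊆ T (d, a) := by
      intro x hx
      refine ⟨hSf x (hC'S (hC''S hx)), ?_⟩
      obtain ⟨w, hw, z, rfl⟩ := exists_cell hK y.length x
      have hl : w.length = y.length := mem_words.1 hw
      have hgd : gd y (cell hK w z) < 3 := by
        have := (hC'b _ (hC''S hx)).2
        linarith
      have hnb := nb_of_gd_lt (hK := hK) hl hgd
      refine ⟨w, mem_nbh.2 ⟨hw, hnb⟩, ?_, z, rfl⟩
      have h1 := hC''b _ hx
      simp only [g₁] at h1
      rw [← hl, cell_co'] at h1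
      have h2 := abs_le.1 (abs_co_le hK d z)
      have h3 := hnb d
      rw [abs_le] at h3
      change cz d (pos w) = cz d (pos y) + si a
      have h4 : (0 : ℝ) < sgn a * (cz d (pos w) - cz d (pos y)) := by
        have e1 : sgn true = 1 := rfl
        have e2 : sgn false = -1 := rfl
        cases a
        · rw [e2] at h1 ⊢
          linarith [h1.1]
        · rw [e1] at h1 ⊢
          linarith [h1.1]
      have h5 : (0 : ℤ) < si a * (cz d (pos w) - cz d (pos y)) := by
        rw [← hsi] at h4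
        exact_mod_cast h4
      cases a
      · simp only [si] at h5 ⊢
        norm_num at h5 ⊢
        omega
      · simp only [si] at h5 ⊢
        norm_num at h5 ⊢
        omega
    have h9 := hno (d, a) C'' hsubT hC''p ⟨x₃, hx₃, by rw [hx₃g]; linarith [hηε (d, a)]⟩ x₄ hx₄
    rw [hx₄g] at h9
    linarith [hηε (d, a)]
  obtain ⟨bb, hbb⟩ := hdir
  obtain ⟨C, hCT, hCc, hCp, ⟨x₁, hx₁, hx₁g⟩, x₂, hx₂, hx₂g⟩ :=
    exists_limit (hTc bb) (hg₁ bb) (α := 1) (β := 3) hbb
  -- the maximum over the neighbourhood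
  obtain ⟨L, hL18, hLn, hLL, hLall⟩ := exists_linked hy
  have hLw : ∀ w ∈ L, w ∈ words y.length := fun w hw => (mem_nbh.1 (hLn w hw)).1
  obtain ⟨m1, m2, m3⟩ := hbc y.length f hf y L (enb hK E f y) hL18 hy hLw hLL (by
    intro w hw
    refine h.le_enb hf hy ?_
    rcases List.mem_cons.1 hw with rfl | hw
    · exact mem_nbh.2 ⟨hy, Nb.refl zero_le_one _⟩
    · exact hLn w hw)
  set G := mx (fw hK f y) (L.map (fw hK f)) with hG
  have he := h.enb_nonneg hf y
  have hke := h.kpe_nonneg he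
  -- the folded continuum
  set Φ := (fold1 hK)^[y.length] with hΦ
  have hΦc : Continuous Φ := continuous_fold1.iterate _
  have hGs : ∀ x ∈ C, s ≤ G (Φ x) := by
    intro x hx
    obtain ⟨hsx, w, hw, -, z, rfl⟩ := hCT hx
    have hl : w.length = y.length := mem_words.1 (mem_nbh.1 hw).1
    have e1 : Φ (cell hK w z) = rv hK w z := by rw [hΦ, ← hl, fold_cell]
    rw [e1]
    have e2 : fw hK f w (rv hK w z) = f (cell hK w z) := fw_apply f w z
    refine (hsx.trans e2.ge).trans (le_mx _ _ _ _ ?_)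
    rcases List.mem_cons.1 (hLall w hw) with rfl | hw'
    · exact List.mem_cons_self
    · exact List.mem_cons_of_mem _ (List.mem_map_of_mem hw')
  -- the coordinates of the folded points
  set par : ℝ := if Even (cz bb.1 (pos y) + si bb.2) then 1 else -1 with hpar
  have hpar' : par = 1 ∨ par = -1 := by rw [hpar]; split_ifs <;> simp
  have hco : ∀ x ∈ C, ∃ z : K, co bb.1 (Φ x).1 = par * co bb.1 z.1 ∧
      g₁ bb x = sgn bb.2 * co bb.1 z.1 + 2 := by
    intro x hx
    obtain ⟨hsx, w, hw, hwp, z, rfl⟩ := hCT hx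
    have hl : w.length = y.length := mem_words.1 (mem_nbh.1 hw).1
    refine ⟨z, ?_, ?_⟩
    · have e1 : Φ (cell hK w z) = rv hK w z := by rw [hΦ, ← hl, fold_cell]
      rw [e1, rv_co, sg_eq, hwp]
    · simp only [g₁]
      rw [← hl, cell_co', hwp]
      push_cast
      rw [hsi]
      have : sgn bb.2 * sgn bb.2 = 1 := by cases bb.2 <;> simp [sgn]
      linear_combination 2 * this
  obtain ⟨z₁, hz₁, hz₁'⟩ := hco x₁ hx₁
  obtain ⟨z₂, hz₂, hz₂'⟩ := hco x₂ hx₂
  have b1 := abs_le.1 (abs_co_le hK bb.1 z₁)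
  have b2 := abs_le.1 (abs_co_le hK bb.1 z₂)
  rw [hz₁'] at hx₁g
  rw [hz₂'] at hx₂g
  have hsg : sgn bb.2 = 1 ∨ sgn bb.2 = -1 := by cases bb.2 <;> simp [sgn]
  have hprod : co bb.1 (Φ x₁).1 = -(par * sgn bb.2) ∧ co bb.1 (Φ x₂).1 = par * sgn bb.2 := by
    rw [hz₁, hz₂]
    rcases hsg with e | e <;> rw [e] at hx₁g hx₂g ⊢
    · have k1 : co bb.1 z₁.1 = -1 := by linarith
      have k2 : co bb.1 z₂.1 = 1 := by linarith
      rw [k1, k2]
      constructor <;> ring
    · have k1 : co bb.1 z₁.1 = 1 := by linarith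
      have k2 : co bb.1 z₂.1 = -1 := by linarith
      rw [k1, k2]
      constructor <;> ring
  have hends : (∃ x ∈ Φ '' C, co bb.1 x.1 = -1) ∧ ∃ x ∈ Φ '' C, co bb.1 x.1 = 1 := by
    have hps : par * sgn bb.2 = 1 ∨ par * sgn bb.2 = -1 := by
      rcases hpar' with e | e <;> rcases hsg with e' | e' <;> rw [e, e'] <;> norm_num
    rcases hps with e | e
    · rw [e] at hprod
      exact ⟨⟨_, ⟨x₁, hx₁, rfl⟩, hprod.1⟩, _, ⟨x₂, hx₂, rfl⟩, hprod.2⟩
    · rw [e] at hprod
      refine ⟨⟨_, ⟨x₂, hx₂, rfl⟩, hprod.2⟩, _, ⟨x₁, hx₁, rfl⟩, ?_⟩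
      rw [hprod.1]
      norm_num
  have hcl : IsClosed (Φ '' C) := (hCc.isCompact.image hΦc).isClosed
  have hpc : IsPreconnected (Φ '' C) := hCp.image _ hΦc.continuousOn
  have hsub : Φ '' C ⊆ {x | s ≤ G x} := by
    rintro _ ⟨x, hx, rfl⟩
    exact hGs x hx
  have hkG : kap A E p G ≤ b ^ (1 / p) * kpe A E p (enb hK E f y) := by
    rw [← h.kpe_mul he hb.le]
    exact h.kpe_mono (h.nonneg G m1) m2
  have hfin : s ≤ val G + kap A E p G := by
    obtain ⟨d, a⟩ := bb
    cases d
    · exact h.le_of_crossV m1 ⟨Φ '' C, hsub, hcl, hpc, hends.1, hends.2⟩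
    · have h1 : s ≤ val G := le_val hK (h.lat.cont _ m1) ⟨Φ '' C, hsub, hcl, hpc, hends.1, hends.2⟩
      have := h.kap_nonneg m1
      linarith
  rw [add_mul]
  linarith

end Reg

end Pool.Agent.SierpinskiCarpet
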