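import Pool.Agent.helper33.SRDrain

/-!
# Counting the strips of values which contain a large continuum
-/

open MeasureTheory Filter Topology

namespace Pool.Agent.SierpinskiCarpet

variable {K : Set (ℝ × ℝ)} {hK : IsCarpet K} {A : Set (K → ℝ)} {p ρ : ℝ} {E : (K → ℝ) → ℝ}

/-- The strip of values contains a continuum joining the cell with the complement of its
neighbourhood. -/
def BadI (y : List (Fin 8)) (U : K → ℝ) (s w : ℝ) : Prop :=
  ∃ C : Set K, IsClosed C ∧ IsPreconnected C ∧ (∃ x ∈ C, gd y x ≤ 1) ∧ (∃ x ∈ C, 3 ≤ gd y x) ∧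
    ∀ x ∈ C, s ≤ U x ∧ U x ≤ s + w

/-- `gd` is Lipschitz. -/
theorem gd_sub_le {y v : List (Fin 8)} {m : ℕ} (hv : v.length = y.length + m) (x x' : K) :
    3 ^ m * (gd y x - gd y x') ≤ gd v x + gd v x' := by
  obtain ⟨d, hd⟩ := exists_gd y x
  have h1 := le_gd d y x'
  have h2 := le_gd d v x
  have h3 := le_gd d v x'
  rw [hd]
  have e : ∀ t : ℝ, (3 : ℝ) ^ v.length * t = 3 ^ m * (3 ^ y.length * t) := fun t => by
    rw [hv, pow_add]
    ring
  rw [e] at h2 h3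
  set a := (3 : ℝ) ^ y.length * co d x.1
  set b := (3 : ℝ) ^ y.length * co d x'.1
  set c := 2 * (cz d (pos y) : ℝ)
  set c' := 2 * (cz d (pos v) : ℝ)
  have h4 : |a - c| - |b - c| ≤ |a - b| := by
    have := abs_sub_abs_le_abs_sub (a - c) (b - c)
    have e2 : a - c - (b - c) = a - b := by ring
    rwa [e2] at this
  have h5 : (3 : ℝ) ^ m * |a - b| ≤ |3 ^ m * a - c'| + |3 ^ m * b - c'| := by
    have e3 : (3 : ℝ) ^ m * |a - b| = |(3 ^ m * a - c') - (3 ^ m * b - c')| := by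
      rw [← abs_of_pos (show (0 : ℝ) < 3 ^ m by positivity), ← abs_mul,
        abs_of_pos (show (0 : ℝ) < 3 ^ m by positivity)]
      congr 1
      ring
    rw [e3]
    exact abs_sub _ _
  have h6 : (3 : ℝ) ^ m * (|a - c| - gd y x') ≤ 3 ^ m * |a - b| := by
    gcongr
    linarith
  linarith

/-- Neighbouring cells have neighbouring ancestors. -/
theorem nb_parent {w w' x x' : List (Fin 8)} (hx : x.length = x'.length)
    (hnb : Nb 1 (w ++ x) (w' ++ x')) : Nb 1 w w' := by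
  intro d
  have h1 := hnb d
  rw [cz_pos_append, cz_pos_append, ← hx] at h1
  have h2 := pos_le d x'
  have h3 := pos_le d x
  rw [← hx] at h2
  rw [abs_le] at h1
  have hN : (1 : ℤ) ≤ 3 ^ x.length := one_le_pow₀ (by norm_num)
  set N := (3 : ℤ) ^ x.length with hNdef
  set Δ := cz d (pos w) - cz d (pos w') with hΔ
  have h4 : N * cz d (pos w) - N * cz d (pos w') = N * Δ := by rw [hΔ]; ring
  have h5 : |N * Δ| ≤ N := by
    rw [abs_le]
    constructor <;> omega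
  rw [abs_mul, abs_of_pos (by omega : (0 : ℤ) < N)] at h5
  by_contra hcon
  have h6 : 2 ≤ |Δ| := by omega
  have h7 : N * 2 ≤ N * |Δ| := Int.mul_le_mul_of_nonneg_left h6 (by omega)
  omega

/-- The number of equidistant points in an interval. -/
theorem card_strip_le {J : Finset ℕ} {b w T : ℝ} (hw : 0 < w) (hT : 0 ≤ T)
    (hJ : ∀ j ∈ J, |b - j * w| ≤ T) : (J.card : ℝ) ≤ 2 * T / w + 1 := by
  have h1 : J.card ≤ (Finset.Icc ⌈(b - T) / w⌉ ⌊(b + T) / w⌋).card := by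
    refine Finset.card_le_card_of_injOn (fun j : ℕ => (j : ℤ)) ?_ ?_
    · intro j hj
      have := hJ j hj
      rw [abs_le] at this
      simp only [Finset.coe_Icc, Set.mem_Icc]
      constructor
      · rw [Int.ceil_le, div_le_iff₀ hw]
        push_cast
        linarith
      · rw [Int.le_floor, le_div_iff₀ hw]
        push_cast
        linarith
    · intro a _ b _ hab
      have hab : (a : ℤ) = (b : ℤ) := hab
      exact_mod_cast hab
  have h2 := Int.floor_le ((b + T) / w)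
  have h3 := Int.le_ceil ((b - T) / w)
  have e : 2 * T / w = (b + T) / w - (b - T) / w := by ring
  rw [Int.card_Icc] at h1
  have h4 : (J.card : ℝ) ≤ (⌊(b + T) / w⌋ + 1 - ⌈(b - T) / w⌉).toNat := by exact_mod_cast h1
  have h5 : 0 ≤ 2 * T / w := by positivity
  rcases le_total 0 (⌊(b + T) / w⌋ + 1 - ⌈(b - T) / w⌉) with h6 | h6
  · have h7 : ((⌊(b + T) / w⌋ + 1 - ⌈(b - T) / w⌉).toNat : ℝ) =
        (⌊(b + T) / w⌋ : ℝ) + 1 - ⌈(b - T) / w⌉ := by
      have : ((⌊(b + T) / w⌋ + 1 - ⌈(b - T) / w⌉).toNat : ℤ) =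
        ⌊(b + T) / w⌋ + 1 - ⌈(b - T) / w⌉ := Int.toNat_of_nonneg h6
      exact_mod_cast this
    rw [h7] at h4
    linarith
  · have h7 : (⌊(b + T) / w⌋ + 1 - ⌈(b - T) / w⌉).toNat = 0 := Int.toNat_of_nonpos h6
    rw [h7] at h4
    push_cast at h4
    linarith

theorem card_under_le (n k : ℕ) (y : List (Fin 8)) : ((under n k y).card : ℝ) ≤ 9 * 8 ^ k := by
  have h1 := sum_under n k y (fun _ => (1 : ℝ))
  simp only [Finset.sum_const, nsmul_eq_mul, mul_one] at h1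
  rw [h1, card_words]
  have h2 : ((nbh 1 n y).card : ℝ) ≤ 9 := by
    have := card_nbh_le 1 n y
    exact_mod_cast this
  push_cast
  gcongr

/-- The cells of level `n + k` below the large neighbourhood of `y`. -/
def under2 (n k : ℕ) (y : List (Fin 8)) : Finset (List (Fin 8)) :=
  (words (n + k)).filter fun v => Nb 2 y (v.take n)

theorem sum_under2 (n k : ℕ) (y : List (Fin 8)) (g : List (Fin 8) → ℝ) :
    ∑ v ∈ under2 n k y, g v = ∑ w ∈ nbh 2 n y, ∑ x ∈ words k, g (w ++ x) := by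
  rw [under2, Finset.sum_filter, sum_words_add, nbh, Finset.sum_filter]
  refine Finset.sum_congr rfl fun w hw => ?_
  split_ifs with h
  · refine Finset.sum_congr rfl fun x _ => ?_
    rw [take_append_eq hw, if_pos h]
  · refine Finset.sum_eq_zero fun x _ => ?_
    rw [take_append_eq hw, if_neg h]

theorem card_under2_le (n k : ℕ) (y : List (Fin 8)) : ((under2 n k y).card : ℝ) ≤ 25 * 8 ^ k := by
  have h1 := sum_under2 n k y (fun _ => (1 : ℝ))
  simp only [Finset.sum_const, nsmul_eq_mul, mul_one] at h1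
  rw [h1, card_words]
  have h2 : ((nbh 2 n y).card : ℝ) ≤ 25 := by
    have := card_nbh_le 2 n y
    exact_mod_cast this
  push_cast
  gcongr

/-- Double counting. -/
theorem sum_under_nbh_le (n k : ℕ) (y : List (Fin 8)) (g : List (Fin 8) → ℝ) (hg : ∀ w, 0 ≤ g w) :
    ∑ v ∈ under n k y, ∑ w ∈ nbh 1 (n + k) v, g w ≤ 9 * ∑ w ∈ under2 n k y, g w := by
  classical
  set g' : List (Fin 8) → ℝ := fun w => if Nb 2 y (w.take n) then g w else 0 with hg'
  have hg'0 : ∀ w, 0 ≤ g' w := fun w => by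
    simp only [hg']
    split_ifs
    exacts [hg w, le_rfl]
  have h1 := sum_nbh_le 1 (n + k) g' hg'0 (under n k y) (under_subset n k y)
  have h2 : ∑ w ∈ words (n + k), g' w = ∑ w ∈ under2 n k y, g w := by
    rw [under2, Finset.sum_filter]
  have h3 : ∀ v ∈ under n k y, ∀ w ∈ nbh 1 (n + k) v, g w = g' w := by
    intro v hv w hw
    rw [under, Finset.mem_filter] at hv
    obtain ⟨hw1, hw2⟩ := mem_nbh.1 hw
    obtain ⟨a, ha, a', ha', rfl, t1⟩ := exists_take hv.1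
    obtain ⟨b, hb, b', hb', rfl, t2⟩ := exists_take hw1
    have h4 := nb_parent (by rw [mem_words.1 ha', mem_words.1 hb']) hw2
    rw [t1] at hv
    have h5 : Nb 2 y ((b ++ b').take n) := by
      rw [t2]
      exact hv.2.trans h4
    simp only [hg']
    rw [if_pos h5]
  rw [h2] at h1
  refine le_trans (le_of_eq ?_) (h1.trans (by norm_num))
  exact Finset.sum_congr rfl fun v hv => Finset.sum_congr rfl fun w hw => h3 v hv w hw

namespace Reg

variable (h : Reg hK p ρ A E)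

include h

theorem enb_neg {f : K → ℝ} (hf : f ∈ A) (y : List (Fin 8)) :
    enb hK E (-f) y = enb hK E f y := by
  unfold enb
  refine Finset.sum_congr rfl fun w _ => ?_
  exact h.energy_neg (h.lat.cell_mem hf w)

theorem acl2 : ∃ C : ℝ, 0 < C ∧ ∀ (y : List (Fin 8)) (f : K → ℝ), f ∈ A → ∀ (s : ℝ)
    (S : Set K), IsClosed S → IsPreconnected S → (∃ x ∈ S, gd y x ≤ 1) → (∃ x ∈ S, 3 ≤ gd y x) →
    ((∀ x ∈ S, s ≤ f x) → s ≤ vv hK f y + C * kpe A E p (enb hK E f y)) ∧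
    ((∀ x ∈ S, f x ≤ s) → vv hK f y - C * kpe A E p (enb hK E f y) ≤ s) := by
  obtain ⟨C, hC, hacl⟩ := h.acl
  refine ⟨C + 2, by linarith, fun y f hf s S hS hSp h1 h3 => ⟨fun hs => ?_, fun hs => ?_⟩⟩
  · have := hacl y f hf s S hS hSp h1 h3 hs
    have hk := h.kpe_nonneg (h.enb_nonneg hf y)
    linarith
  · have := hacl y (-f) (h.neg_mem hf) (-s) S hS hSp h1 h3 fun x hx => by
      rw [Pi.neg_apply]
      have := hs x hx
      linarith
    rw [h.enb_neg hf] at this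
    have h4 : vv hK (-f) y ≤ -vv hK f y + 2 * kap A E p (f ∘ cell hK y) :=
      h.val_neg_le (h.lat.cell_mem hf y)
    have h5 : kap A E p (f ∘ cell hK y) ≤ kpe A E p (enb hK E f y) := by
      rw [kap_eq]
      refine h.kpe_mono (h.nonneg _ (h.lat.cell_mem hf y)) ?_
      exact h.le_enb hf (mem_words.2 rfl) (mem_nbh.2 ⟨mem_words.2 rfl, Nb.refl zero_le_one y⟩)
    linarith

/-- A strip with a continuum visits many cells. -/
theorem cells_of_bad {C : ℝ} (hacl : ∀ (y : List (Fin 8)) (f : K → ℝ), f ∈ A → ∀ (s : ℝ)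
    (S : Set K), IsClosed S → IsPreconnected S → (∃ x ∈ S, gd y x ≤ 1) → (∃ x ∈ S, 3 ≤ gd y x) →
    ((∀ x ∈ S, s ≤ f x) → s ≤ vv hK f y + C * kpe A E p (enb hK E f y)) ∧
    ((∀ x ∈ S, f x ≤ s) → vv hK f y - C * kpe A E p (enb hK E f y) ≤ s))
    {n n₀ : ℕ} (hn₀ : 1 ≤ n₀) {y : List (Fin 8)} (hy : y ∈ words n) {U : K → ℝ} (hU : U ∈ A)
    {s w : ℝ} (hw : 0 ≤ w) (hbad : BadI y U s w) :
    ∃ Z ⊆ under n n₀ y, (3 ^ n₀ / 2 : ℝ) ≤ Z.card ∧
      ∀ v ∈ Z, |vv hK U v - s| ≤ w + C * kpe A E p (enb hK E U v) := by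
  classical
  haveI := hK.instNonempty
  obtain ⟨S, hS, hSp, hS1, hS3, hSU⟩ := hbad
  have hN : (3 : ℝ) ≤ 3 ^ n₀ := by
    calc (3 : ℝ) = 3 ^ 1 := by norm_num
      _ ≤ 3 ^ n₀ := by gcongr; norm_num
  have hNn : Odd (3 ^ n₀) := (by decide : Odd 3).pow
  set m : ℕ := (3 ^ n₀ + 1) / 2 with hm
  have hm2 : 2 * m = 3 ^ n₀ + 1 := by
    obtain ⟨k, hk⟩ := hNn
    omega
  have hm2' : 2 * (m : ℝ) = 3 ^ n₀ + 1 := by exact_mod_cast hm2
  -- the points
  have hpt : ∀ k : ℕ, k < m → ∃ x ∈ S, gd y x = 1 + 4 * k / 3 ^ n₀ ∧ gd y x < 3 := by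
    intro k hk
    have hk' : (k : ℝ) + 1 ≤ m := by exact_mod_cast hk
    have hlt : (4 : ℝ) * k / 3 ^ n₀ < 2 := by
      rw [div_lt_iff₀ (by positivity)]
      linarith
    have h0 : (0 : ℝ) ≤ 4 * k / 3 ^ n₀ := by positivity
    obtain ⟨x₁, hx₁, hx₁'⟩ := hS1
    obtain ⟨x₃, hx₃, hx₃'⟩ := hS3
    obtain ⟨x, hx, hxe⟩ := hSp.intermediate_value hx₁ hx₃ (continuous_gd y).continuousOn
      (show (1 + 4 * k / 3 ^ n₀ : ℝ) ∈ Set.Icc (gd y x₁) (gd y x₃) from
        ⟨by linarith, by linarith⟩)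
    exact ⟨x, hx, hxe, by rw [hxe]; linarith⟩
  choose! x hxS hxg hxlt using hpt
  choose! v hv z hvz using fun k : ℕ => exists_cell hK (n + n₀) (x k)
  refine ⟨(Finset.range m).image v, ?_, ?_, ?_⟩
  · intro v' hv'
    obtain ⟨k, hk, rfl⟩ := Finset.mem_image.1 hv'
    rw [Finset.mem_range] at hk
    refine Finset.mem_filter.2 ⟨hv k, ?_⟩
    obtain ⟨a, ha, b, hb, hab, hta⟩ := exists_take (hv k)
    rw [hta]
    refine nb_of_gd_lt (hK := hK) (z := cell hK b (z k)) ?_ ?_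
    · rw [mem_words.1 ha, mem_words.1 hy]
    · have : cell hK a (cell hK b (z k)) = x k := by
        rw [← hvz k, hab, cell_append]
        rfl
      rw [this]
      exact hxlt k hk
  · have hinj : Set.InjOn v (Finset.range m : Finset ℕ) := by
      intro k hk k' hk' he
      rw [Finset.coe_range, Set.mem_Iio] at hk hk'
      have hl : (v k).length = y.length + n₀ := by rw [mem_words.1 (hv k), mem_words.1 hy]
      have g1 : gd (v k) (x k) ≤ 1 := by rw [← hvz k]; exact gd_cell_le hK _ _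
      have g2 : gd (v k) (x k') ≤ 1 := by rw [he, ← hvz k']; exact gd_cell_le hK _ _
      have a1 := gd_sub_le hl (x k) (x k')
      have a2 := gd_sub_le hl (x k') (x k)
      rw [hxg k hk, hxg k' hk'] at a1 a2
      have e1 : (3 : ℝ) ^ n₀ * (1 + 4 * k / 3 ^ n₀ - (1 + 4 * k' / 3 ^ n₀)) = 4 * k - 4 * k' := by
        field_simp
        ring
      have e2 : (3 : ℝ) ^ n₀ * (1 + 4 * k' / 3 ^ n₀ - (1 + 4 * k / 3 ^ n₀)) = 4 * k' - 4 * k := by
        field_simp
        ring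
      rw [e1] at a1
      rw [e2] at a2
      have b1 : (4 : ℝ) * k ≤ 4 * k' + 2 := by linarith
      have b2 : (4 : ℝ) * k' ≤ 4 * k + 2 := by linarith
      have b1' : 4 * k ≤ 4 * k' + 2 := by exact_mod_cast b1
      have b2' : 4 * k' ≤ 4 * k + 2 := by exact_mod_cast b2
      omega
    rw [Finset.card_image_of_injOn hinj, Finset.card_range]
    linarith
  · intro v' hv'
    obtain ⟨k, hk, rfl⟩ := Finset.mem_image.1 hv'
    rw [Finset.mem_range] at hk
    have hl : (v k).length = y.length + n₀ := by rw [mem_words.1 (hv k), mem_words.1 hy]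
    have g1 : ∃ x ∈ S, gd (v k) x ≤ 1 :=
      ⟨x k, hxS k hk, by rw [← hvz k]; exact gd_cell_le hK _ _⟩
    have g3 : ∃ x ∈ S, 3 ≤ gd (v k) x := by
      by_contra hcon
      push Not at hcon
      obtain ⟨x₁, hx₁, hx₁'⟩ := hS1
      obtain ⟨x₃, hx₃, hx₃'⟩ := hS3
      have a1 := gd_sub_le hl x₃ x₁
      have a2 := hcon x₃ hx₃
      have a3 := hcon x₁ hx₁
      have a4 : (3 : ℝ) * 2 ≤ 3 ^ n₀ * (gd y x₃ - gd y x₁) := by
        gcongr
        linarith
      linarith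
    have h1 := (hacl (v k) U hU s S hS hSp g1 g3).1 fun x hx => (hSU x hx).1
    have h2 := (hacl (v k) U hU (s + w) S hS hSp g1 g3).2 fun x hx => (hSU x hx).2
    rw [abs_le]
    constructor <;> linarith

/-- The sum of the typical oscillations. -/
theorem sum_kpe_le {n n₀ : ℕ} {y : List (Fin 8)} {U : K → ℝ} (hU : U ∈ A)
    {r : ℝ} (hr : 0 ≤ r) (hrU : ∑ w ∈ nbh 2 n y, E (U ∘ cell hK w) ≤ r ^ p * crc A E) :
    ∑ v ∈ under2 n n₀ y, kpe A E p (E (U ∘ cell hK v)) ≤ 25 * (8 / 3) ^ n₀ * r := by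
  have hp1 := h.one_lt
  have hp := h.p_pos
  have hρ := h.rho_pos
  have hc := h.crc_pos
  have hnn : ∀ v, 0 ≤ E (U ∘ cell hK v) := fun _ => h.words_mem hU
  have hk : ∀ v, 0 ≤ kpe A E p (E (U ∘ cell hK v)) := fun v => h.kpe_nonneg (hnn v)
  have h1 := Real.rpow_sum_le_const_mul_sum_rpow_of_nonneg (s := under2 n n₀ y)
    (f := fun v => kpe A E p (E (U ∘ cell hK v))) hp1.le fun v _ => hk v
  have h2 : (∑ v ∈ under2 n n₀ y, kpe A E p (E (U ∘ cell hK v)) ^ p) * crc A E =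
      ∑ v ∈ under2 n n₀ y, E (U ∘ cell hK v) := by
    rw [Finset.sum_mul]
    exact Finset.sum_congr rfl fun v _ => h.kpe_rpow (hnn v)
  have h3 : ρ ^ n₀ * ∑ v ∈ under2 n n₀ y, E (U ∘ cell hK v) =
      ∑ w ∈ nbh 2 n y, E (U ∘ cell hK w) := by
    rw [sum_under2, Finset.mul_sum]
    refine Finset.sum_congr rfl fun w _ => ?_
    rw [← h.sum_words n₀ _ (h.lat.cell_mem hU w)]
    simp only [cell_append, Function.comp_assoc]
  have h4 : ρ ^ n₀ * ∑ v ∈ under2 n n₀ y, kpe A E p (E (U ∘ cell hK v)) ^ p ≤ r ^ p := by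
    have : ρ ^ n₀ * (∑ v ∈ under2 n n₀ y, kpe A E p (E (U ∘ cell hK v)) ^ p) * crc A E ≤
        r ^ p * crc A E := by
      rw [mul_assoc, h2, h3]
      exact hrU
    exact le_of_mul_le_mul_right this hc
  have h5 : (3 ^ p / 8 : ℝ) ^ n₀ ≤ ρ ^ n₀ := by
    have := h.three_le
    gcongr
    linarith
  have hS0 : 0 ≤ ∑ v ∈ under2 n n₀ y, kpe A E p (E (U ∘ cell hK v)) ^ p :=
    Finset.sum_nonneg fun v _ => Real.rpow_nonneg (hk v) _
  have h6 : ∑ v ∈ under2 n n₀ y, kpe A E p (E (U ∘ cell hK v)) ^ p ≤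
      (8 / 3 ^ p) ^ n₀ * r ^ p := by
    have h7 : (3 ^ p / 8 : ℝ) ^ n₀ * ∑ v ∈ under2 n n₀ y, kpe A E p (E (U ∘ cell hK v)) ^ p ≤
        r ^ p := le_trans (by gcongr) h4
    have e : (8 / 3 ^ p : ℝ) ^ n₀ * (3 ^ p / 8 : ℝ) ^ n₀ = 1 := by
      rw [← mul_pow]
      have : (8 / 3 ^ p * (3 ^ p / 8) : ℝ) = 1 := by field_simp
      rw [this, one_pow]
    calc ∑ v ∈ under2 n n₀ y, kpe A E p (E (U ∘ cell hK v)) ^ p =
        (8 / 3 ^ p : ℝ) ^ n₀ * ((3 ^ p / 8 : ℝ) ^ n₀ *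
          ∑ v ∈ under2 n n₀ y, kpe A E p (E (U ∘ cell hK v)) ^ p) := by
          rw [← mul_assoc, e, one_mul]
      _ ≤ _ := by gcongr
  have hcard := card_under2_le n n₀ y
  have h8 : (((under2 n n₀ y).card : ℝ)) ^ (p - 1) ≤ (25 * 8 ^ n₀) ^ (p - 1) :=
    Real.rpow_le_rpow (by positivity) hcard (by linarith)
  have h9 : (∑ v ∈ under2 n n₀ y, kpe A E p (E (U ∘ cell hK v))) ^ p ≤
      (25 * (8 / 3) ^ n₀ * r) ^ p := by
    calc (∑ v ∈ under2 n n₀ y, kpe A E p (E (U ∘ cell hK v))) ^ p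
        ≤ (25 * 8 ^ n₀) ^ (p - 1) * ((8 / 3 ^ p) ^ n₀ * r ^ p) := by
          refine h1.trans ?_
          gcongr
      _ ≤ (25 * (8 / 3) ^ n₀ * r) ^ p := by
          rw [Real.mul_rpow (by positivity) hr, Real.mul_rpow (by norm_num) (by positivity),
            Real.mul_rpow (by norm_num) (by positivity)]
          have e1 : ((8 : ℝ) ^ n₀) ^ (p - 1) * (8 / 3 ^ p) ^ n₀ = ((8 / 3) ^ n₀) ^ p := by
            rw [← Real.rpow_natCast 8, ← Real.rpow_natCast (8 / 3 ^ p), ← Real.rpow_natCast (8 / 3),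
              ← Real.rpow_mul (by norm_num), ← Real.rpow_mul (by norm_num),
              Real.div_rpow (by norm_num) (by positivity), Real.div_rpow (by norm_num)
              (by norm_num), ← Real.rpow_mul (by norm_num)]
            rw [mul_div_assoc', ← Real.rpow_add (by norm_num)]
            congr 2 <;> ring
          have e2 : (25 : ℝ) ^ (p - 1) ≤ 25 ^ p :=
            Real.rpow_le_rpow_of_exponent_le (by norm_num) (by linarith)
          calc (25 : ℝ) ^ (p - 1) * (8 ^ n₀) ^ (p - 1) * ((8 / 3 ^ p) ^ n₀ * r ^ p)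
              = 25 ^ (p - 1) * (((8 : ℝ) ^ n₀) ^ (p - 1) * (8 / 3 ^ p) ^ n₀) * r ^ p := by ring
            _ ≤ 25 ^ p * (((8 : ℝ) ^ n₀) ^ (p - 1) * (8 / 3 ^ p) ^ n₀) * r ^ p := by gcongr
            _ = _ := by rw [e1]
  exact (Real.rpow_le_rpow_iff (Finset.sum_nonneg fun v _ => hk v) (by positivity) hp).1 h9

/-- The number of strips with a continuum is small. -/
theorem bad_count : ∃ Cb : ℝ, 0 < Cb ∧ ∀ n₀ ≥ 1, ∀ n : ℕ, ∀ y ∈ words n, ∀ U ∈ A,
    ∀ r w s₀ : ℝ, 0 < w → 0 ≤ r → ∑ w ∈ nbh 2 n y, E (U ∘ cell hK w) ≤ r ^ p * crc A E →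
    ∀ J : Finset ℕ, (∀ j ∈ J, BadI y U (s₀ + j * w) w) →
    (J.card : ℝ) ≤ Cb * (8 / 3) ^ n₀ * (1 + r / (3 ^ n₀ * w)) := by
  classical
  obtain ⟨C, hC, hacl⟩ := h.acl2
  refine ⟨54 + 900 * C, by positivity, fun n₀ hn₀ n y hy U hU r w s₀ hw hr hrU J hJ => ?_⟩
  have hk : ∀ v, 0 ≤ kpe A E p (E (U ∘ cell hK v)) := fun v => h.kpe_nonneg (h.words_mem hU)
  have hz : ∀ j ∈ J, ∃ Z ⊆ under n n₀ y, (3 ^ n₀ / 2 : ℝ) ≤ Z.card ∧
      ∀ v ∈ Z, |vv hK U v - (s₀ + j * w)| ≤ w + C * kpe A E p (enb hK E U v) :=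
    fun j hj => h.cells_of_bad hacl hn₀ hy hU hw.le (hJ j hj)
  choose! Z hZ hZc hZv using hz
  have h1 : (J.card : ℝ) * (3 ^ n₀ / 2) ≤ ∑ j ∈ J, ((Z j).card : ℝ) := by
    have := Finset.sum_le_sum hZc
    rwa [Finset.sum_const, nsmul_eq_mul] at this
  have h2 : ∑ j ∈ J, ((Z j).card : ℝ) =
      ∑ v ∈ under n n₀ y, (((J.filter fun j => v ∈ Z j).card : ℕ) : ℝ) := by
    have : ∀ j ∈ J, ((Z j).card : ℝ) = ∑ v ∈ under n n₀ y, if v ∈ Z j then (1 : ℝ) else 0 := by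
      intro j hj
      rw [Finset.sum_ite_mem, Finset.inter_eq_right.2 (hZ j hj), Finset.sum_const, nsmul_eq_mul,
        mul_one]
    rw [Finset.sum_congr rfl this, Finset.sum_comm]
    refine Finset.sum_congr rfl fun v _ => ?_
    rw [Finset.sum_ite, Finset.sum_const, Finset.sum_const_zero, nsmul_eq_mul, mul_one, add_zero]
  have h3 : ∀ v ∈ under n n₀ y, (((J.filter fun j => v ∈ Z j).card : ℕ) : ℝ) ≤
      3 + 2 * C / w * kpe A E p (enb hK E U v) := by
    intro v _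
    have hkn := h.kpe_nonneg (h.enb_nonneg hU v)
    have := card_strip_le (J := J.filter fun j => v ∈ Z j) (b := vv hK U v - s₀)
      (T := w + C * kpe A E p (enb hK E U v)) hw (by positivity) (fun j hj => by
        rw [Finset.mem_filter] at hj
        have h4 := hZv j hj.1 v hj.2
        have e : vv hK U v - s₀ - j * w = vv hK U v - (s₀ + j * w) := by ring
        rwa [e])
    refine this.trans (le_of_eq ?_)
    field_simp
    ring
  have h4 : ∑ v ∈ under n n₀ y, kpe A E p (enb hK E U v) ≤ 9 * (25 * (8 / 3) ^ n₀ * r) := by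
    have h5 : ∀ v ∈ under n n₀ y, kpe A E p (enb hK E U v) ≤
        ∑ w ∈ nbh 1 (n + n₀) v, kpe A E p (E (U ∘ cell hK w)) := by
      intro v hv
      have hl : v.length = n + n₀ := mem_words.1 (under_subset n n₀ y hv)
      rw [enb, hl]
      have hgen : ∀ T : Finset (List (Fin 8)), kpe A E p (∑ w ∈ T, E (U ∘ cell hK w)) ≤
          ∑ w ∈ T, kpe A E p (E (U ∘ cell hK w)) := by
        intro T
        induction T using Finset.induction_on with
        | empty =>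
          simp only [Finset.sum_empty]
          unfold kpe
          rw [zero_div, Real.zero_rpow (by have := h.p_pos; positivity)]
        | insert a T ha ih =>
          rw [Finset.sum_insert ha, Finset.sum_insert ha]
          have := h.kpe_add_le (e := E (U ∘ cell hK a)) (e' := ∑ w ∈ T, E (U ∘ cell hK w))
            (h.words_mem hU) (Finset.sum_nonneg fun _ _ => h.words_mem hU)
          linarith
      exact hgen _
    refine (Finset.sum_le_sum h5).trans ?_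
    refine (sum_under_nbh_le n n₀ y _ hk).trans ?_
    have := h.sum_kpe_le (n₀ := n₀) hU hr hrU
    linarith
  have h5 : ∑ v ∈ under n n₀ y, (((J.filter fun j => v ∈ Z j).card : ℕ) : ℝ) ≤
      3 * (9 * 8 ^ n₀) + 2 * C / w * (9 * (25 * (8 / 3) ^ n₀ * r)) := by
    refine (Finset.sum_le_sum h3).trans ?_
    rw [Finset.sum_add_distrib, Finset.sum_const, nsmul_eq_mul, ← Finset.mul_sum]
    have h6 := card_under_le n n₀ y
    have h7 : 2 * C / w * ∑ v ∈ under n n₀ y, kpe A E p (enb hK E U v) ≤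
        2 * C / w * (9 * (25 * (8 / 3) ^ n₀ * r)) := by gcongr
    linarith
  have h6 : (J.card : ℝ) * (3 ^ n₀ / 2) ≤
      3 * (9 * 8 ^ n₀) + 2 * C / w * (9 * (25 * (8 / 3) ^ n₀ * r)) := by
    rw [h2] at h1
    exact h1.trans h5
  have h7 : (J.card : ℝ) ≤ (3 * (9 * 8 ^ n₀) + 2 * C / w * (9 * (25 * (8 / 3) ^ n₀ * r))) /
      (3 ^ n₀ / 2) := by
    rw [le_div_iff₀ (by positivity)]
    exact h6
  refine h7.trans ?_
  have e : (3 * (9 * 8 ^ n₀) + 2 * C / w * (9 * (25 * (8 / 3) ^ n₀ * r))) / (3 ^ n₀ / 2) =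
      54 * (8 / 3 : ℝ) ^ n₀ + 900 * C * (8 / 3) ^ n₀ * (r / (3 ^ n₀ * w)) := by
    rw [div_pow]
    field_simp
    ring
  rw [e]
  have f1 : 0 ≤ 54 * (8 / 3 : ℝ) ^ n₀ * (r / (3 ^ n₀ * w)) := by positivity
  have f2 : 0 ≤ 900 * C * (8 / 3 : ℝ) ^ n₀ := by positivity
  nlinarith

end Reg

end Pool.Agent.SierpinskiCarpet
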