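import Pool.Agent.helper33.SRMod

/-!
# Collapsing an interval of values near a cell
-/

open MeasureTheory Filter Topology

namespace Pool.Agent.SierpinskiCarpet

variable {K : Set (ℝ × ℝ)} {hK : IsCarpet K} {A : Set (K → ℝ)} {p ρ : ℝ} {E : (K → ℝ) → ℝ}

namespace Reg

variable (h : Reg hK p ρ A E)

include h

omit h in
/-- Crossing sums over subsets of the cells below a neighbourhood. -/
theorem cross_under {u : K → ℝ} {n k k₁ : ℕ} {y : List (Fin 8)} {s κ : ℝ}
    (hu : ∀ k ≥ k₁, ∀ B ⊆ words k, (∀ x ∈ B, Cross hK u s x) →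
      ρ ^ k * ∑ x ∈ B, E (u ∘ cell hK x) ≤ κ) (hk : k₁ ≤ n + k) (P : List (Fin 8) → Prop)
    [DecidablePred P] (hP : ∀ x, P x → Cross hK u s x) :
    ρ ^ (n + k) * ∑ x ∈ under n k y, (if P x then E (u ∘ cell hK x) else 0) ≤ κ := by
  rw [← Finset.sum_filter]
  exact hu _ hk _ ((Finset.filter_subset _ _).trans (under_subset n k y)) fun x hx =>
    hP x (Finset.mem_filter.1 hx).2

theorem clamp_sub_le {U : K → ℝ} (hU : U ∈ A) {s₁ s₂ : ℝ} (hs : s₁ ≤ s₂) {x : List (Fin 8)}
    [Decidable (Cross hK U s₁ x ∨ Cross hK U s₂ x)] :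
    E ((U - fun z => max (min (U z) s₂) s₁ + (-s₁)) ∘ cell hK x) ^ (1 / p) ≤
      E (U ∘ cell hK x) ^ (1 / p) +
      if Cross hK U s₁ x ∨ Cross hK U s₂ x then E (U ∘ cell hK x) ^ (1 / p) else 0 := by
  have hp := h.p_pos
  have hUx := h.lat.cell_mem hU x
  have hE := h.nonneg _ hUx
  have hr : 0 ≤ E (U ∘ cell hK x) ^ (1 / p) := Real.rpow_nonneg hE _
  have hc := h.clamp_mem hUx s₁ s₂
  split_ifs with hcr
  · have e : (U - fun z => max (min (U z) s₂) s₁ + (-s₁)) ∘ cell hK x =
        U ∘ cell hK x - fun z => max (min ((U ∘ cell hK x) z) s₂) s₁ + (-s₁) := rfl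
    rw [e]
    refine (h.sub_rpow_le hUx (h.lat.add_const_mem hc _)).trans ?_
    rw [h.add_const _ hc]
    have h1 : E (fun z => max (min ((U ∘ cell hK x) z) s₂) s₁) ^ (1 / p) ≤
        E (U ∘ cell hK x) ^ (1 / p) :=
      Real.rpow_le_rpow (h.nonneg _ hc) (h.clamp_le hUx _ _) (by positivity)
    linarith
  · rw [add_zero]
    push Not at hcr
    refine Real.rpow_le_rpow ?_ ?_ (by positivity)
    · exact h.nonneg _ (h.lat.cell_mem (h.lat.sub_mem hU (h.lat.add_const_mem
        (h.clamp_mem hU s₁ s₂) _)) x)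
    rcases not_cross hcr.1 with a | a
    · rcases not_cross hcr.2 with b | b
      · have e : (U - fun z => max (min (U z) s₂) s₁ + (-s₁)) ∘ cell hK x =
            fun z => (U ∘ cell hK x) z + (s₁ - s₂) := by
          funext z
          simp only [Pi.sub_apply, Function.comp_apply]
          rw [min_eq_right (b z).le, max_eq_left hs]
          ring
        rw [e, h.add_const _ hUx]
      · have e : (U - fun z => max (min (U z) s₂) s₁ + (-s₁)) ∘ cell hK x = fun _ => s₁ := by
          funext z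
          simp only [Pi.sub_apply, Function.comp_apply]
          rw [min_eq_left (b z).le, max_eq_left (a z).le]
          ring
        rw [e, h.energy_const]
        exact hE
    · have e : (U - fun z => max (min (U z) s₂) s₁ + (-s₁)) ∘ cell hK x = U ∘ cell hK x := by
        funext z
        simp only [Pi.sub_apply, Function.comp_apply]
        rw [min_eq_left ((a z).le.trans hs), max_eq_right (a z).le]
        ring
      rw [e]

/-- Collapsing an interval of values. -/
theorem collapse_gain : ∃ Cb : ℝ, 0 < Cb ∧ ∀ (n : ℕ), ∀ y ∈ words n, ∀ U ∈ A,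
    ∀ s l f0 M δ lo : ℝ, 0 ≤ l → 0 < M → 0 ≤ f0 → l ^ p * ρ ^ n * crc A E ≤ f0 ^ p * M →
    Cb * f0 ≤ 1 / 2 → ρ ^ n * enb hK E U y ≤ M →
    (∀ x, gd y x ≤ 3 → lo ≤ U x ∧ U x ≤ lo + δ) → 0 ≤ δ → ∀ η > 0,
    ∃ k₀, ∀ k ≥ k₀, ∀ X ⊆ words (n + k), (∀ x ∈ X, x.take n = y ∧ ∀ z,
      s ≤ U (cell hK x z) ∧ U (cell hK x z) ≤ s + l) →
      Gain hK A E U δ n y (ρ ^ (n + k) * ∑ x ∈ X, E (U ∘ cell hK x) -
        p * 2 ^ (p - 1) * (Cb * f0) * M - η) := by
  classical
  have hp1 := h.one_lt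
  have hp := h.p_pos
  have hρ := h.rho_pos
  have hcc := h.crc_pos
  obtain ⟨Cχ, hCχ, hcut⟩ := h.exists_cutoff
  refine ⟨3 * (9 * Cχ / crc A E) ^ (1 / p), by positivity, ?_⟩
  intro n y hy U hU s l f0 M δ lo hl hM hf0 hlM hCb hUM hlo hδ η hη
  set Cb : ℝ := 3 * (9 * Cχ / crc A E) ^ (1 / p) with hCbdef
  have hCb0 : 0 < Cb := by positivity
  obtain ⟨χ, hχA, hχ1, hχ0, hχn, hχE⟩ := hcut n y hy
  set c₀ : ℝ := p * 2 ^ (p - 1) with hc₀
  have hc₀0 : 0 < c₀ := by positivity
  set ε₁ : ℝ := min (1 / 2) (η / (c₀ * M)) with hε₁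
  have hε₁0 : 0 < ε₁ := lt_min (by norm_num) (by positivity)
  have hε₁h : ε₁ ≤ 1 / 2 := min_le_left _ _
  have hε₁η : c₀ * ε₁ * M ≤ η := by
    have : ε₁ ≤ η / (c₀ * M) := min_le_right _ _
    rw [le_div_iff₀ (by positivity)] at this
    linarith
  set κ : ℝ := ε₁ ^ p * M / (3 ^ p * 3) with hκ
  have hκ0 : 0 < κ := by positivity
  set s₁ : ℝ := max s lo with hs₁
  set s₂ : ℝ := max (s + l) s₁ with hs₂
  set M₀ : ℝ := s₂ - s₁ with hM₀
  have hs12 : s₁ ≤ s₂ := le_max_right _ _
  have hM₀0 : 0 ≤ M₀ := by rw [hM₀]; linarith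
  have hM₀l : M₀ ≤ l := by
    rw [hM₀, hs₂]
    rcases max_choice (s + l) s₁ with e | e
    · rw [e]
      have : s ≤ s₁ := le_max_left _ _
      linarith
    · rw [e]
      linarith
  set β : K → ℝ := fun z => max (min (U z) s₂) s₁ + (-s₁) with hβ
  have hβA : β ∈ A := h.lat.add_const_mem (h.clamp_mem hU s₁ s₂) _
  have hβ0 : ∀ x, 0 ≤ β x := fun x => by
    have : s₁ ≤ max (min (U x) s₂) s₁ := le_max_right _ _
    simp only [hβ]
    linarith
  have hβM : ∀ x, β x ≤ M₀ := fun x => by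
    have : max (min (U x) s₂) s₁ ≤ s₂ := max_le (min_le_right _ _) hs12
    simp only [hβ]
    linarith
  have hβδ : ∀ x, gd y x ≤ 3 → β x ≤ δ := fun x hx => by
    obtain ⟨e1, e2⟩ := hlo x hx
    have e3 : lo ≤ s₁ := le_max_right _ _
    simp only [hβ]
    rcases le_total (U x) s₁ with e | e
    · rw [min_eq_left (e.trans hs12), max_eq_right e]
      linarith
    · have : max (min (U x) s₂) s₁ ≤ U x := max_le (min_le_left _ _) e
      linarith
  set hh : K → ℝ := β - M₀ • χ with hhh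
  have hhA : hh ∈ A := h.lat.sub_mem hβA (h.lat.smul_mem _ _ hχA)
  set hp' : K → ℝ := fun x => max (hh x) 0 with hhp
  have hhpA : hp' ∈ A := h.lat.max_mem hhA (h.lat.const_mem 0)
  set φ : K → ℝ := hp' - β with hφ
  have hφA : U + φ ∈ A := h.lat.add_mem U hU _ (h.lat.sub_mem hhpA hβA)
  have hsupp : ∀ w ∈ words n, ¬Nb 1 y w → ∀ z, φ (cell hK w z) = 0 := fun w hw hnb z => by
    have e1 := hχ0 w hw hnb z
    simp only [hφ, hhp, hhh, Pi.sub_apply, Pi.smul_apply, smul_eq_mul]
    rw [e1, mul_zero, sub_zero, max_eq_left (hβ0 _), sub_self]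
  have hsize : ∀ x, |φ x| ≤ δ := by
    intro x
    obtain ⟨w, hw, z, rfl⟩ := exists_cell hK n x
    by_cases hnb : Nb 1 y w
    · have e1 := hβδ _ (gd_le_three hK hy (mem_nbh.2 ⟨hw, hnb⟩) z)
      have e2 := hβ0 (cell hK w z)
      have e3 := hχn (cell hK w z)
      have e4 : 0 ≤ M₀ * χ (cell hK w z) := mul_nonneg hM₀0 e3
      simp only [hφ, hhp, hhh, Pi.sub_apply, Pi.smul_apply, smul_eq_mul]
      rcases le_total (β (cell hK w z) - M₀ * χ (cell hK w z)) 0 with e | e
      · rw [max_eq_right e, zero_sub, abs_neg, abs_of_nonneg e2]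
        exact e1
      · rw [max_eq_left e, abs_le]
        constructor <;> linarith
    · rw [hsupp w hw hnb z, abs_zero]
      exact hδ
  -- crossings
  obtain ⟨k₁, hk₁⟩ := h.sum_cross hhA 0 hκ0
  obtain ⟨k₂, hk₂⟩ := h.sum_cross hU s₁ hκ0
  obtain ⟨k₃, hk₃⟩ := h.sum_cross hU s₂ hκ0
  refine ⟨max k₁ (max k₂ k₃), fun k hk X hX hXc => ?_⟩
  have hkk₁ : k₁ ≤ n + k := by have := le_max_left k₁ (max k₂ k₃); omega
  have hkk₂ : k₂ ≤ n + k := by
    have := le_max_left k₂ k₃; have := le_max_right k₁ (max k₂ k₃); omega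
  have hkk₃ : k₃ ≤ n + k := by
    have := le_max_right k₂ k₃; have := le_max_right k₁ (max k₂ k₃); omega
  have hXu : X ⊆ under n k y := fun x hx => Finset.mem_filter.2 ⟨hX hx, by
    rw [(hXc x hx).1]
    exact Nb.refl zero_le_one y⟩
  set α : List (Fin 8) → ℝ := fun x => if x ∈ X then 0 else E (U ∘ cell hK x) with hα
  set b : List (Fin 8) → ℝ := fun x => M₀ * E (χ ∘ cell hK x) ^ (1 / p) +
    (if Cross hK hh 0 x then E (hh ∘ cell hK x) ^ (1 / p) else 0) +
    (if Cross hK U s₁ x ∨ Cross hK U s₂ x then E (U ∘ cell hK x) ^ (1 / p) else 0) with hb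
  have hnnU : ∀ x, 0 ≤ E (U ∘ cell hK x) := fun _ => h.words_mem hU
  have hnnχ : ∀ x, 0 ≤ E (χ ∘ cell hK x) := fun _ => h.words_mem hχA
  have hnnh : ∀ x, 0 ≤ E (hh ∘ cell hK x) := fun _ => h.words_mem hhA
  have hb1 : ∀ x, 0 ≤ M₀ * E (χ ∘ cell hK x) ^ (1 / p) := fun x =>
    mul_nonneg hM₀0 (Real.rpow_nonneg (hnnχ x) _)
  have hb2 : ∀ x, 0 ≤ if Cross hK hh 0 x then E (hh ∘ cell hK x) ^ (1 / p) else 0 := fun x => by
    split_ifs
    exacts [Real.rpow_nonneg (hnnh x) _, le_rfl]
  have hb3 : ∀ x, 0 ≤ if Cross hK U s₁ x ∨ Cross hK U s₂ x then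
      E (U ∘ cell hK x) ^ (1 / p) else 0 := fun x => by
    split_ifs
    exacts [Real.rpow_nonneg (hnnU x) _, le_rfl]
  have hα0 : ∀ x ∈ under n k y, 0 ≤ α x := fun x _ => by
    simp only [hα]
    split_ifs
    exacts [le_rfl, hnnU x]
  have hb0 : ∀ x ∈ under n k y, 0 ≤ b x := fun x _ => by
    have := hb1 x
    have := hb2 x
    have := hb3 x
    simp only [hb]
    linarith
  have hle : ∀ x ∈ under n k y, E ((U + φ) ∘ cell hK x) ^ (1 / p) ≤ α x ^ (1 / p) + b x := by
    intro x hx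
    by_cases hxX : x ∈ X
    · obtain ⟨hty, hz⟩ := hXc x hxX
      obtain ⟨w, hw, x', hx', rfl, ht⟩ := exists_take (hX hxX)
      rw [ht] at hty
      subst hty
      have e : (U + φ) ∘ cell hK (w ++ x') = fun _ => s₁ := by
        funext z
        have e1 := hz z
        have e2 : lo ≤ U (cell hK (w ++ x') z) := (hlo _ (gd_under hK hy hx z)).1
        have e3 : χ (cell hK (w ++ x') z) = 1 := by
          rw [cell_append]
          exact hχ1 _
        have e4 : s₁ ≤ U (cell hK (w ++ x') z) := max_le e1.1 e2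
        have e5 : U (cell hK (w ++ x') z) ≤ s₂ := e1.2.trans (le_max_left _ _)
        have e6 : β (cell hK (w ++ x') z) = U (cell hK (w ++ x') z) - s₁ := by
          simp only [hβ]
          rw [min_eq_left e5, max_eq_left e4]
          ring
        have e7 := hβM (cell hK (w ++ x') z)
        simp only [Function.comp_apply, Pi.add_apply, hφ, hhp, hhh, Pi.sub_apply, Pi.smul_apply,
          smul_eq_mul]
        rw [e3, max_eq_right (by linarith), e6]
        ring
      rw [e, h.energy_const, Real.zero_rpow (by positivity)]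
      have := Real.rpow_nonneg (hα0 _ hx) (1 / p)
      have := hb0 _ hx
      linarith
    · have hαx : α x = E (U ∘ cell hK x) := if_neg hxX
      rw [hαx]
      have hsub := h.clamp_sub_le hU hs12 (x := x)
      have hUβ : (U - β) ∈ A := h.lat.sub_mem hU hβA
      simp only [hb]
      have c1 := hb1 x
      have c2 := hb2 x
      have c3 := hb3 x
      by_cases hcr : Cross hK hh 0 x
      · have e : (U + φ) ∘ cell hK x = (U - β) ∘ cell hK x + hp' ∘ cell hK x := by
          funext z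
          simp only [Function.comp_apply, Pi.add_apply, Pi.sub_apply, hφ]
          ring
        rw [e]
        have e1 := h.subadd _ (h.lat.cell_mem hUβ x) _ (h.lat.cell_mem hhpA x)
        have e2 : E (hp' ∘ cell hK x) ^ (1 / p) ≤ E (hh ∘ cell hK x) ^ (1 / p) :=
          Real.rpow_le_rpow (h.words_mem hhpA) (h.cut' (h.lat.cell_mem hhA x) 0) (by positivity)
        rw [if_pos hcr]
        linarith
      · rcases not_cross hcr with a | a
        · have e : (U + φ) ∘ cell hK x = U ∘ cell hK x - M₀ • (χ ∘ cell hK x) := by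
            funext z
            have := a z
            simp only [Function.comp_apply, Pi.add_apply, Pi.sub_apply, hφ, hhp, Pi.smul_apply,
              smul_eq_mul]
            rw [max_eq_left this.le]
            simp only [hhh, Pi.sub_apply, Pi.smul_apply, smul_eq_mul]
            ring
          rw [e]
          have m := h.lat.smul_mem M₀ _ (h.lat.cell_mem hχA x)
          refine (h.sub_rpow_le (h.lat.cell_mem hU x) m).trans ?_
          rw [h.smul _ (h.lat.cell_mem hχA x), Real.mul_rpow (by positivity) (hnnχ x),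
            rpow_rpow_one_div hp (abs_nonneg _), abs_of_nonneg hM₀0]
          linarith
        · have e : (U + φ) ∘ cell hK x = (U - β) ∘ cell hK x := by
            funext z
            have := a z
            simp only [Function.comp_apply, Pi.add_apply, Pi.sub_apply, hφ, hhp]
            rw [max_eq_right this.le]
            ring
          rw [e]
          linarith
  have hYX : ∑ x ∈ under n k y, α x + ∑ x ∈ X, E (U ∘ cell hK x) =
      ∑ x ∈ under n k y, E (U ∘ cell hK x) := by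
    have e : ∑ x ∈ X, E (U ∘ cell hK x) =
        ∑ w ∈ under n k y, if w ∈ X then E (U ∘ cell hK w) else 0 := by
      rw [Finset.sum_ite_mem, Finset.inter_eq_right.2 hXu]
    rw [e, ← Finset.sum_add_distrib]
    refine Finset.sum_congr rfl fun w _ => ?_
    simp only [hα]
    split_ifs <;> ring
  have hYM : ρ ^ (n + k) * ∑ x ∈ under n k y, α x ≤ M := by
    refine le_trans ?_ ((h.energy_under hU hy k).le.trans hUM)
    gcongr with x _
    simp only [hα]
    split_ifs
    exacts [hnnU x, le_rfl]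
  have hζ1 : Cb * f0 + ε₁ ≤ 1 := by linarith
  have hZ : ρ ^ (n + k) * ∑ x ∈ under n k y, b x ^ p ≤ (Cb * f0 + ε₁) ^ p * M := by
    have t1 : ∀ x, b x ^ p ≤ 3 ^ p * (M₀ ^ p * E (χ ∘ cell hK x) +
        (if Cross hK hh 0 x then E (hh ∘ cell hK x) else 0) +
        ((if Cross hK U s₁ x then E (U ∘ cell hK x) else 0) +
          if Cross hK U s₂ x then E (U ∘ cell hK x) else 0)) := by
      intro x
      refine (add3_rpow_le hp1.le (hb1 x) (hb2 x) (hb3 x)).trans ?_
      have q1 : (M₀ * E (χ ∘ cell hK x) ^ (1 / p)) ^ p = M₀ ^ p * E (χ ∘ cell hK x) := by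
        rw [Real.mul_rpow hM₀0 (Real.rpow_nonneg (hnnχ x) _), rpow_one_div_rpow hp (hnnχ x)]
      have q2 : (if Cross hK hh 0 x then E (hh ∘ cell hK x) ^ (1 / p) else 0) ^ p =
          if Cross hK hh 0 x then E (hh ∘ cell hK x) else 0 := by
        split_ifs
        · exact rpow_one_div_rpow hp (hnnh x)
        · exact Real.zero_rpow hp.ne'
      have q3 : (if Cross hK U s₁ x ∨ Cross hK U s₂ x then
          E (U ∘ cell hK x) ^ (1 / p) else 0) ^ p ≤
          (if Cross hK U s₁ x then E (U ∘ cell hK x) else 0) +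
          if Cross hK U s₂ x then E (U ∘ cell hK x) else 0 := by
        have := hnnU x
        by_cases c1 : Cross hK U s₁ x <;> by_cases c2 : Cross hK U s₂ x <;>
          simp only [c1, c2, or_self, or_true, or_false, if_true, if_false,
            rpow_one_div_rpow hp (hnnU x), Real.zero_rpow hp.ne'] <;> linarith only [this]
      rw [q1, q2]
      exact mul_le_mul_of_nonneg_left (add_le_add le_rfl q3) (Real.rpow_nonneg zero_le_three p)
    have s1 : ρ ^ (n + k) * ∑ x ∈ under n k y, E (χ ∘ cell hK x) ≤ ρ ^ n * (9 * Cχ) := by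
      rw [h.energy_under hχA hy k, enb, mem_words.1 hy]
      gcongr
      have c1 : ∑ w ∈ nbh 1 n y, E (χ ∘ cell hK w) ≤ ∑ _w ∈ nbh 1 n y, Cχ :=
        Finset.sum_le_sum fun w hw => hχE w (mem_nbh.1 hw).1
      rw [Finset.sum_const, nsmul_eq_mul] at c1
      have c2 : ((nbh 1 n y).card : ℝ) ≤ 9 := by
        have := card_nbh_le 1 n y
        exact_mod_cast this
      exact c1.trans (mul_le_mul_of_nonneg_right c2 hCχ.le)
    have s2 := cross_under (y := y) hk₁ hkk₁ (fun x => Cross hK hh 0 x) fun _ hx => hx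
    have s3 := cross_under (y := y) hk₂ hkk₂ (fun x => Cross hK U s₁ x) fun _ hx => hx
    have s4 := cross_under (y := y) hk₃ hkk₃ (fun x => Cross hK U s₂ x) fun _ hx => hx
    have hM₀p : M₀ ^ p * ρ ^ n ≤ f0 ^ p * M / crc A E := by
      rw [le_div_iff₀ hcc]
      have : M₀ ^ p ≤ l ^ p := Real.rpow_le_rpow hM₀0 hM₀l hp.le
      calc M₀ ^ p * ρ ^ n * crc A E ≤ l ^ p * ρ ^ n * crc A E := by gcongr
        _ ≤ _ := hlM
    calc ρ ^ (n + k) * ∑ x ∈ under n k y, b x ^ p
        ≤ ρ ^ (n + k) * ∑ x ∈ under n k y, 3 ^ p * (M₀ ^ p * E (χ ∘ cell hK x) +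
        (if Cross hK hh 0 x then E (hh ∘ cell hK x) else 0) +
        ((if Cross hK U s₁ x then E (U ∘ cell hK x) else 0) +
          if Cross hK U s₂ x then E (U ∘ cell hK x) else 0)) := by
          gcongr with x _
          exact t1 x
      _ = 3 ^ p * (M₀ ^ p * (ρ ^ (n + k) * ∑ x ∈ under n k y, E (χ ∘ cell hK x)) +
          ρ ^ (n + k) * ∑ x ∈ under n k y, (if Cross hK hh 0 x then E (hh ∘ cell hK x) else 0) +
          (ρ ^ (n + k) * ∑ x ∈ under n k y, (if Cross hK U s₁ x then E (U ∘ cell hK x) else 0) +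
          ρ ^ (n + k) * ∑ x ∈ under n k y,
            (if Cross hK U s₂ x then E (U ∘ cell hK x) else 0))) := by
          rw [← Finset.mul_sum, Finset.sum_add_distrib, Finset.sum_add_distrib,
            Finset.sum_add_distrib, ← Finset.mul_sum]
          ring
      _ ≤ 3 ^ p * (M₀ ^ p * (ρ ^ n * (9 * Cχ)) + κ + (κ + κ)) :=
          mul_le_mul_of_nonneg_left (add_le_add (add_le_add
            (mul_le_mul_of_nonneg_left s1 (Real.rpow_nonneg hM₀0 p)) s2) (add_le_add s3 s4))
            (Real.rpow_nonneg zero_le_three p)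
      _ = 3 ^ p * ((M₀ ^ p * ρ ^ n) * (9 * Cχ)) + 3 ^ p * 3 * κ := by ring
      _ ≤ 3 ^ p * ((f0 ^ p * M / crc A E) * (9 * Cχ)) + 3 ^ p * 3 * κ := by gcongr
      _ = ((Cb * f0) ^ p + ε₁ ^ p) * M := by
          have e1 : (Cb * f0) ^ p = 3 ^ p * (9 * Cχ / crc A E) * f0 ^ p := by
            rw [hCbdef, Real.mul_rpow (by positivity) hf0, Real.mul_rpow (by norm_num)
              (by positivity), rpow_one_div_rpow hp (by positivity)]
          have e2 : 3 ^ p * 3 * κ = ε₁ ^ p * M := by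
            rw [hκ]
            field_simp
          rw [e1, e2]
          ring
      _ ≤ (Cb * f0 + ε₁) ^ p * M := by
          gcongr
          exact rpow_add_rpow_le hp1.le (by positivity) hε₁0.le
  have hG := h.gain_of_le hU hφA hsupp hsize α b hα0 hb0 hle hYM
    (by positivity) hζ1 hZ
  refine hG.mono ?_
  rw [← hYX, mul_add]
  have e1 : p * 2 ^ (p - 1) * (Cb * f0 + ε₁) * M =
      p * 2 ^ (p - 1) * (Cb * f0) * M + c₀ * ε₁ * M := by
    rw [hc₀]
    ring
  rw [e1]
  linarith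

end Reg

end Pool.Agent.SierpinskiCarpet
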