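import Pool.Agent.helper33.SRInterp

/-!
# Comparison of two regular energies
-/

open MeasureTheory Filter Topology

namespace Pool.Agent.SierpinskiCarpet

variable {K : Set (ℝ × ℝ)} {hK : IsCarpet K} {A A' : Set (K → ℝ)} {p ρ ρ' κ : ℝ}
  {E E' Q : (K → ℝ) → ℝ}

/-- Interpolants of functions which are close to `f`. -/
theorem IsInterp.dist_le' {τ : Bool × Bool → K → ℝ} (hτ : IsTemplate A τ) {n : ℕ}
    {φ f g : K → ℝ} (hg : IsInterp hK τ n φ g) {ε : ℝ}
    (hf : ∀ w ∈ words n, ∀ c z, |φ (cell hK w (corner hK c)) - f (cell hK w z)| ≤ ε) (x : K) :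
    |g x - f x| ≤ 8 * ε := by
  obtain ⟨w, hw, z, rfl⟩ := exists_cell hK n x
  have e1 : g (cell hK w z) - f (cell hK w z) =
      ∑ c, (φ (cell hK w (corner hK c)) - f (cell hK w z)) * τ c z := by
    rw [hg w hw z]
    simp only [sub_mul, Finset.sum_sub_distrib, ← Finset.mul_sum, hτ.sum]
    ring
  have hε : 0 ≤ ε := (abs_nonneg _).trans (hf w hw (true, true) z)
  rw [e1]
  refine (Finset.abs_sum_le_sum_abs _ _).trans ?_
  have e2 : ∀ c ∈ (Finset.univ : Finset (Bool × Bool)),
      |(φ (cell hK w (corner hK c)) - f (cell hK w z)) * τ c z| ≤ ε * 2 := by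
    intro c _
    rw [abs_mul]
    have := hτ.bound c z
    have := hf w hw c z
    gcongr
  refine (Finset.sum_le_sum e2).trans (le_of_eq ?_)
  rw [Finset.sum_const, Finset.card_univ]
  simp only [Fintype.card_prod, Fintype.card_bool, nsmul_eq_mul]
  push_cast
  ring

/-- The constant of the comparison theorem. -/
noncomputable def ccmp (p ρ : ℝ) : ℝ := 432 ^ p * 2 * (36 * (8 * cadj p ρ) ^ p)

namespace Reg

variable (h : Reg hK p ρ A E)

include h

theorem sem : Sem hK p 3 A E where
  one_le := by norm_num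
  p_pos := h.p_pos
  nonneg := h.nonneg
  add_const := h.add_const
  smul := h.smul
  subadd := h.subadd
  reflY := h.reflY
  swap := h.swap
  abs_le := by
    intro u hu
    have hp := h.p_pos
    have m := h.lat.max_mem hu (h.lat.const_mem 0)
    have e : (fun x => |u x|) = (2 : ℝ) • (fun x => max (u x) 0) - u := by
      funext x
      simp only [Pi.sub_apply, Pi.smul_apply, smul_eq_mul]
      rcases le_total (u x) 0 with hh | hh
      · rw [max_eq_right hh, abs_of_nonpos hh]
        ring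
      · rw [max_eq_left hh, abs_of_nonneg hh]
        ring
    rw [e]
    refine (h.sub_rpow_le (h.lat.smul_mem 2 _ m) hu).trans ?_
    rw [h.smul _ m, Real.mul_rpow (by positivity) (h.nonneg _ m),
      rpow_rpow_one_div hp (abs_nonneg _), abs_of_pos (by norm_num)]
    have h1 : E (fun x => max (u x) 0) ^ (1 / p) ≤ E u ^ (1 / p) :=
      Real.rpow_le_rpow (h.nonneg _ m) (h.cut' hu 0) (by positivity)
    linarith

/-- Discretisation by the crossing values. -/
theorem exists_vertex {f : K → ℝ} (hf : f ∈ A) : ∃ φ : ℕ → K → ℝ,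
    (∀ n, ρ ^ n * ∑ w ∈ words n, cvar hK p (φ n ∘ cell hK w) ≤
      36 * (8 * cadj p ρ) ^ p * (E f / crc A E)) ∧
    ∀ ε > 0, ∃ N, ∀ n ≥ N, ∀ w ∈ words n, ∀ c z,
      |φ n (cell hK w (corner hK c)) - f (cell hK w z)| ≤ ε := by
  have hp := h.p_pos
  have hρ := h.rho_pos
  have hc := h.cadj_pos
  have hcc := h.crc_pos
  have hfc := h.lat.cont f hf
  choose v hv z hz using fun (n : ℕ) (x : K) => exists_cell hK n x
  refine ⟨fun n x => vv hK f (v n x), fun n => ?_, fun ε hε => ?_⟩
  · have key : ∀ w ∈ words n, cvar hK p ((fun x => vv hK f (v n x)) ∘ cell hK w) ≤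
        4 * (8 * cadj p ρ) ^ p * (enb hK E f w / crc A E) := by
      intro w hw
      have he := h.enb_nonneg hf w
      have hk := h.kpe_nonneg he
      have h1 : ∀ c, |vv hK f (v n (cell hK w (corner hK c))) - vv hK f w| ≤
          4 * cadj p ρ * kpe A E p (enb hK E f w) := by
        intro c
        refine h.vv_nb hf hw (mem_nbh.2 ⟨hv n _, ?_⟩)
        have := hz n (cell hK w (corner hK c))
        exact nb_of_cell (by rw [mem_words.1 hw, mem_words.1 (hv n _)]) this.symm
      have h2 : ∀ c ∈ (Finset.univ : Finset (Bool × Bool)),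
          |((fun x => vv hK f (v n x)) ∘ cell hK w) (corner hK c) -
            ((fun x => vv hK f (v n x)) ∘ cell hK w) (corner hK (false, false))| ^ p ≤
          (8 * cadj p ρ * kpe A E p (enb hK E f w)) ^ p := by
        intro c _
        refine Real.rpow_le_rpow (abs_nonneg _) ?_ hp.le
        simp only [Function.comp_apply]
        have a1 := abs_le.1 (h1 c)
        have a2 := abs_le.1 (h1 (false, false))
        rw [abs_le]
        constructor <;> linarith
      refine (Finset.sum_le_sum h2).trans (le_of_eq ?_)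
      rw [Finset.sum_const, Finset.card_univ, Real.mul_rpow (by positivity) hk]
      have h3 := h.kpe_rpow he
      have h4 : kpe A E p (enb hK E f w) ^ p = enb hK E f w / crc A E := by
        rw [eq_div_iff hcc.ne', h3]
      rw [h4]
      simp only [Fintype.card_prod, Fintype.card_bool, nsmul_eq_mul]
      push_cast
      ring
    have h5 : ∑ w ∈ words n, enb hK E f w ≤ 9 * ∑ w ∈ words n, E (f ∘ cell hK w) := by
      have := sum_nbh_le 1 n (fun w => E (f ∘ cell hK w)) (fun w => h.words_mem hf) (words n)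
        (Finset.Subset.refl _)
      refine le_trans (le_of_eq ?_) (this.trans (le_of_eq (by norm_num)))
      refine Finset.sum_congr rfl fun w hw => ?_
      rw [enb, mem_words.1 hw]
      rfl
    calc ρ ^ n * ∑ w ∈ words n, cvar hK p ((fun x => vv hK f (v n x)) ∘ cell hK w)
        ≤ ρ ^ n * ∑ w ∈ words n, 4 * (8 * cadj p ρ) ^ p * (enb hK E f w / crc A E) := by
          gcongr with w hw
          exact key w hw
      _ = 4 * (8 * cadj p ρ) ^ p / crc A E * (ρ ^ n * ∑ w ∈ words n, enb hK E f w) := by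
          rw [← Finset.mul_sum, ← Finset.sum_div]
          ring
      _ ≤ 4 * (8 * cadj p ρ) ^ p / crc A E *
          (ρ ^ n * (9 * ∑ w ∈ words n, E (f ∘ cell hK w))) := by gcongr
      _ = 36 * (8 * cadj p ρ) ^ p * (E f / crc A E) := by
          rw [← h.sum_words n f hf]
          ring
  · obtain ⟨N, hN⟩ := exists_mesh hK hfc (half_pos hε)
    refine ⟨N, fun n hn w hw c t => ?_⟩
    set x₀ := cell hK w (corner hK c) with hx₀
    have e1 : |vv hK f (v n x₀) - f x₀| ≤ ε / 2 := by
      have hc1 : Continuous (f ∘ cell hK (v n x₀)) := hfc.comp (continuous_cell hK _)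
      have hz0 := hz n x₀
      have h1 : ∀ t, |(f ∘ cell hK (v n x₀)) t - f x₀| < ε / 2 := fun t => by
        have := hN n hn _ (hv n x₀) t (z n x₀)
        rwa [hz0] at this
      rw [abs_le]
      constructor
      · have : f x₀ - ε / 2 ≤ val (f ∘ cell hK (v n x₀)) :=
          le_val_of_forall hK hc1 fun t => by
            have := (abs_lt.1 (h1 t)).1
            linarith
        change -(ε / 2) ≤ val (f ∘ cell hK (v n x₀)) - f x₀
        linarith
      · have : val (f ∘ cell hK (v n x₀)) ≤ f x₀ + ε / 2 :=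
          val_le_of_forall hK hc1 fun t => by
            have := (abs_lt.1 (h1 t)).2
            linarith
        change val (f ∘ cell hK (v n x₀)) - f x₀ ≤ ε / 2
        linarith
    have e2 := abs_lt.1 (hN n hn w hw (corner hK c) t)
    rw [← hx₀] at e2
    rw [abs_le] at e1 ⊢
    constructor <;> linarith

end Reg

/-- The energy of an interpolant. -/
theorem Reg.energy_interp' (h' : Reg hK p ρ' A' E') {τ : Bool × Bool → K → ℝ}
    (hτ : IsTemplate A' τ) {T : ℝ} (hT : 0 ≤ T) (hTτ : ∀ c, E' (τ c) ^ (1 / p) ≤ T) {n : ℕ}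
    {φ g : K → ℝ} (hg : g ∈ A') (hφ : IsInterp hK τ n φ g) :
    E' g ≤ (4 * T) ^ p * (ρ' ^ n * ∑ w ∈ words n, cvar hK p (φ ∘ cell hK w)) := by
  have hρ := h'.rho_pos
  rw [← h'.sum_words n g hg]
  calc ρ' ^ n * ∑ w ∈ words n, E' (g ∘ cell hK w)
      ≤ ρ' ^ n * ∑ w ∈ words n, (4 * T) ^ p * cvar hK p (φ ∘ cell hK w) := by
        gcongr with w hw
        have e : g ∘ cell hK w = fun y => ∑ c, (φ ∘ cell hK w) (corner hK c) * τ c y := by
          funext y
          exact hφ w hw y
        rw [e]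
        exact h'.sem.template_le h'.lat hτ hT hTτ _
    _ = (4 * T) ^ p * (ρ' ^ n * ∑ w ∈ words n, cvar hK p (φ ∘ cell hK w)) := by
        rw [← Finset.mul_sum]
        ring

/-- Approximation of functions of finite energy by functions of another energy. -/
theorem Reg.exists_approx (h : Reg hK p ρ A E) (h' : Reg hK p ρ' A' E') {f : K → ℝ} (hf : f ∈ A) :
    ∃ g : ℕ → K → ℝ, (∀ n, g n ∈ A') ∧ (∀ ε > 0, ∃ N, ∀ n ≥ N, ∀ x, |g n x - f x| ≤ ε) ∧
      ∀ n, E' (g n) ≤ ccmp p ρ * (ρ' / ρ) ^ n * (crc A' E' / crc A E) * E f := by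
  have hp := h.p_pos
  have hρ := h.rho_pos
  have hρ' := h'.rho_pos
  have hcc := h.crc_pos
  have hcc' := h'.crc_pos
  obtain ⟨u, hu, hcr, huE⟩ := h'.exists_crc
  obtain ⟨τ, hτ, hτE⟩ := exists_template_le h'.lat hu hcr
  obtain ⟨φ, hφ1, hφ2⟩ := h.exists_vertex hf
  choose g hgA hg using fun n => exists_interp h'.lat hτ n (φ n)
  have hEu := h'.nonneg u hu
  refine ⟨g, hgA, fun ε hε => ?_, fun n => ?_⟩
  · obtain ⟨N, hN⟩ := hφ2 (ε / 8) (by positivity)
    refine ⟨N, fun n hn x => ?_⟩
    refine ((hg n).dist_le' hτ (hN n hn) x).trans (le_of_eq ?_)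
    ring
  · have hT : ∀ c, E' (τ c) ^ (1 / p) ≤ 108 * (2 * crc A' E') ^ (1 / p) := by
      intro c
      have h1 := hτE p 3 E' h'.sem c
      refine h1.trans ?_
      have h2 : E' u ^ (1 / p) ≤ (2 * crc A' E') ^ (1 / p) :=
        Real.rpow_le_rpow hEu huE (by positivity)
      have h3 : (4 : ℝ) * 3 ^ 3 = 108 := by norm_num
      rw [h3]
      gcongr
    refine (h'.energy_interp' hτ (by positivity) hT (hgA n) (hg n)).trans ?_
    have h4 : (4 * (108 * (2 * crc A' E') ^ (1 / p))) ^ p = 432 ^ p * (2 * crc A' E') := by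
      rw [← mul_assoc, Real.mul_rpow (by norm_num) (by positivity), rpow_one_div_rpow hp
        (by positivity)]
      norm_num
    rw [h4]
    have h5 : ρ' ^ n * ∑ w ∈ words n, cvar hK p (φ n ∘ cell hK w) ≤
        (ρ' / ρ) ^ n * (36 * (8 * cadj p ρ) ^ p * (E f / crc A E)) := by
      have : ρ' ^ n * ∑ w ∈ words n, cvar hK p (φ n ∘ cell hK w) =
          (ρ' / ρ) ^ n * (ρ ^ n * ∑ w ∈ words n, cvar hK p (φ n ∘ cell hK w)) := by
        rw [div_pow]
        field_simp
      rw [this]
      exact mul_le_mul_of_nonneg_left (hφ1 n) (by positivity)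
    calc 432 ^ p * (2 * crc A' E') * (ρ' ^ n * ∑ w ∈ words n, cvar hK p (φ n ∘ cell hK w))
        ≤ 432 ^ p * (2 * crc A' E') *
          ((ρ' / ρ) ^ n * (36 * (8 * cadj p ρ) ^ p * (E f / crc A E))) := by gcongr
      _ = _ := by
        unfold ccmp
        ring

/-- Two regular energies have the same scaling factor. -/
theorem Reg.rho_le (h : Reg hK p ρ A E) (h' : Reg hK p ρ' A' E') : ρ ≤ ρ' := by
  by_contra hlt
  push Not at hlt
  have hp := h.p_pos
  have hρ := h.rho_pos
  have hρ' := h'.rho_pos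
  have hcc := h.crc_pos
  have hcc' := h'.crc_pos
  obtain ⟨f, hf, hcr⟩ := h.crossing
  obtain ⟨g, hgA, hgf, hgE⟩ := h.exists_approx h' hf
  obtain ⟨N, hN⟩ := hgf (1 / 4) (by norm_num)
  -- the energies tend to zero
  have hlim : Tendsto (fun n => 2 ^ p * (ccmp p ρ * (ρ' / ρ) ^ n * (crc A' E' / crc A E) * E f))
      atTop (𝓝 (2 ^ p * (ccmp p ρ * 0 * (crc A' E' / crc A E) * E f))) := by
    refine Tendsto.const_mul _ (Tendsto.mul_const _ (Tendsto.mul_const _ (Tendsto.const_mul _ ?_)))
    exact tendsto_pow_atTop_nhds_zero_of_lt_one (by positivity) (by rwa [div_lt_one hρ])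
  have hlim2 : Tendsto (fun n => 2 ^ p * (ccmp p ρ * (ρ' / ρ) ^ n * (crc A' E' / crc A E) * E f))
      atTop (𝓝 0) := by
    convert hlim using 2
    ring
  obtain ⟨M, hM⟩ := eventually_atTop.1 (hlim2.eventually (gt_mem_nhds hcc'))
  set n := max N M with hn
  have h1 := hN n (le_max_left _ _)
  have h2 := hM n (le_max_right _ _)
  set G : K → ℝ := fun x => ((2 : ℝ) • fun x => max (min (g n x) (3 / 4)) (1 / 4)) x + (-(1 / 2))
    with hG
  have m1 := h'.clamp_mem (hgA n) (1 / 4) (3 / 4)
  have m2 := h'.lat.smul_mem 2 _ m1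
  have hGA : G ∈ A' := h'.lat.add_const_mem m2 _
  have hGc : IsCrossing G := by
    refine ⟨h'.lat.cont _ hGA, fun x hx => ?_, fun x hx => ?_⟩
    · have e1 := (abs_le.1 (h1 x)).2
      rw [hcr.left x hx] at e1
      simp only [hG, Pi.smul_apply, smul_eq_mul]
      rw [max_eq_right ((min_le_left _ _).trans (by linarith))]
      norm_num
    · have e1 := (abs_le.1 (h1 x)).1
      rw [hcr.right x hx] at e1
      simp only [hG, Pi.smul_apply, smul_eq_mul]
      rw [min_eq_right (by linarith), max_eq_left (by norm_num)]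
      norm_num
  have hGE : E' G ≤ 2 ^ p * E' (g n) := by
    rw [hG, h'.add_const _ m2, h'.smul _ m1, abs_of_pos (by norm_num)]
    have := h'.clamp_le (hgA n) (1 / 4) (3 / 4)
    gcongr
  have h3 := h'.crc_le hGA hGc
  have h4 : 2 ^ p * E' (g n) ≤ 2 ^ p * (ccmp p ρ * (ρ' / ρ) ^ n * (crc A' E' / crc A E) * E f) := by
    have := hgE n
    gcongr
  linarith

/-- Comparison of two regular energies with the same scaling factor. -/
theorem Reg.mem_and_le (h : Reg hK p ρ A E) (h' : Reg hK p ρ A' E') {f : K → ℝ} (hf : f ∈ A) :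
    f ∈ A' ∧ E' f ≤ ccmp p ρ * (crc A' E' / crc A E) * E f := by
  have hρ := h.rho_pos
  obtain ⟨g, hgA, hgf, hgE⟩ := h.exists_approx h' hf
  refine h'.lsc hgA (fun n => ?_) hgf
  have := hgE n
  rwa [div_self hρ.ne', one_pow, mul_one] at this

end Pool.Agent.SierpinskiCarpet
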