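import Pool.Agent.helper33.SRBad

/-!
# The local estimate
-/

open MeasureTheory Filter Topology

namespace Pool.Agent.SierpinskiCarpet

variable {K : Set (ℝ × ℝ)} {hK : IsCarpet K} {A : Set (K → ℝ)} {p ρ : ℝ} {E : (K → ℝ) → ℝ}

/-- The largest gain by a small modification near the cell. -/
noncomputable def bg (hK : IsCarpet K) (A : Set (K → ℝ)) (E : (K → ℝ) → ℝ) (v : K → ℝ) (δ : ℝ)
    (n : ℕ) (y : List (Fin 8)) : ℝ :=
  sSup {γ | Gain hK A E v δ n y γ}

section Sums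

open Classical in
/-- The sum over the elements with a property. -/
noncomputable def sm (X : Finset (List (Fin 8))) (g : List (Fin 8) → ℝ)
    (P : List (Fin 8) → Prop) : ℝ :=
  ∑ x ∈ X.filter P, g x

theorem sm_or_le (X : Finset (List (Fin 8))) (g : List (Fin 8) → ℝ) (hg : ∀ x, 0 ≤ g x)
    (P Q : List (Fin 8) → Prop) : sm X g (fun x => P x ∨ Q x) ≤ sm X g P + sm X g Q := by
  classical
  unfold sm
  rw [Finset.sum_filter, Finset.sum_filter, Finset.sum_filter, ← Finset.sum_add_distrib]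
  refine Finset.sum_le_sum fun x _ => ?_
  have := hg x
  by_cases h1 : P x <;> by_cases h2 : Q x <;> simp [h1, h2] <;> linarith

theorem sm_exists_le {ι : Type*} (X : Finset (List (Fin 8))) (g : List (Fin 8) → ℝ)
    (hg : ∀ x, 0 ≤ g x) (J : Finset ι) (P : ι → List (Fin 8) → Prop) :
    sm X g (fun x => ∃ j ∈ J, P j x) ≤ ∑ j ∈ J, sm X g (P j) := by
  classical
  have e : ∀ j ∈ J, sm X g (P j) = ∑ x ∈ X, if P j x then g x else 0 := fun j _ => by
    rw [sm, Finset.sum_filter]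
  rw [Finset.sum_congr rfl e, Finset.sum_comm, sm, Finset.sum_filter]
  refine Finset.sum_le_sum fun x _ => ?_
  have h0 : ∀ j ∈ J, 0 ≤ if P j x then g x else 0 := fun j _ => by
    split_ifs
    exacts [hg x, le_rfl]
  split_ifs with h
  · obtain ⟨j, hj, hjx⟩ := h
    have := Finset.single_le_sum h0 hj
    rwa [if_pos hjx] at this
  · exact Finset.sum_nonneg h0

end Sums

namespace Reg

variable (h : Reg hK p ρ A E)

include h

theorem gain_bdd {v : K → ℝ} (δ : ℝ) (n : ℕ) (y : List (Fin 8)) :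
    BddAbove {γ | Gain hK A E v δ n y γ} := by
  refine ⟨E v, ?_⟩
  rintro γ ⟨φ, h1, -, -, h4⟩
  have := h.nonneg _ h1
  linarith

theorem le_bg {v : K → ℝ} {δ : ℝ} {n : ℕ} {y : List (Fin 8)} {γ : ℝ}
    (hg : Gain hK A E v δ n y γ) : γ ≤ bg hK A E v δ n y :=
  le_csSup (h.gain_bdd δ n y) hg

theorem bg_nonneg {v : K → ℝ} (hv : v ∈ A) {δ : ℝ} (hδ : 0 ≤ δ) (n : ℕ) (y : List (Fin 8)) :
    0 ≤ bg hK A E v δ n y :=
  h.le_bg (gain_zero hv hδ n y)

omit h in
theorem gain_of_lt_bg {v : K → ℝ} (hv : v ∈ A) {δ : ℝ} (hδ : 0 ≤ δ) (n : ℕ) (y : List (Fin 8))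
    {γ : ℝ} (hγ : γ < bg hK A E v δ n y) : Gain hK A E v δ n y γ := by
  obtain ⟨γ', h1, h2⟩ := exists_lt_of_lt_csSup ⟨0, gain_zero hv hδ n y⟩ hγ
  exact h1.mono h2.le

theorem patch_bg {v : K → ℝ} (hv : v ∈ A) {ε : ℝ} (hε : 0 < ε) :
    ∃ δ > 0, ∀ (n : ℕ) (Y : Finset (List (Fin 8))), Y ⊆ words n →
      ∑ y ∈ Y, bg hK A E v δ n y ≤ ε := by
  obtain ⟨δ, hδ, hp⟩ := h.patch hv (show 0 < ε / 2 by positivity)
  refine ⟨δ, hδ, fun n Y hY => ?_⟩
  have hc : (0 : ℝ) < Y.card + 1 := by positivity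
  set e : ℝ := ε / (2 * (Y.card + 1)) with he
  have he0 : 0 < e := by positivity
  have h1 := hp n Y (fun y => bg hK A E v δ n y - e) hY fun y _ =>
    gain_of_lt_bg hv hδ.le n y (by linarith)
  rw [Finset.sum_sub_distrib, Finset.sum_const, nsmul_eq_mul] at h1
  have h2 : (Y.card : ℝ) * e ≤ ε / 2 := by
    rw [he, mul_div_assoc', div_le_iff₀ (by positivity)]
    have : (0 : ℝ) ≤ Y.card := by positivity
    nlinarith
  linarith

/-- The values on the neighbourhood of a cell are close to the value of the cell. -/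
theorem abs_sub_vv_le {f : K → ℝ} (hf : f ∈ A) {y : List (Fin 8)} {δ : ℝ}
    (hosc : ∀ x x', gd y x ≤ 3 → gd y x' ≤ 3 → |f x - f x'| ≤ δ) {x : K} (hx : gd y x ≤ 3) :
    |f x - vv hK f y| ≤ δ := by
  have hc := h.lat.cont _ (h.lat.cell_mem hf y)
  have h1 : ∀ z, |f x - f (cell hK y z)| ≤ δ := fun z =>
    hosc x _ hx (by linarith [gd_cell_le hK y z])
  have h2 : f x - δ ≤ val (f ∘ cell hK y) := le_val_of_forall hK hc fun z => by
    have := abs_le.1 (h1 z)
    simp only [Function.comp_apply]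
    linarith
  have h3 : val (f ∘ cell hK y) ≤ f x + δ := val_le_of_forall hK hc fun z => by
    have := abs_le.1 (h1 z)
    simp only [Function.comp_apply]
    linarith
  unfold vv
  rw [abs_le]
  constructor <;> linarith

/-- Truncation at a level which is far from the value of the cell. -/
theorem trunc_bg {C : ℝ} (hacl : ∀ (y : List (Fin 8)) (f : K → ℝ), f ∈ A → ∀ (s : ℝ)
    (S : Set K), IsClosed S → IsPreconnected S → (∃ x ∈ S, gd y x ≤ 1) → (∃ x ∈ S, 3 ≤ gd y x) →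
    ((∀ x ∈ S, s ≤ f x) → s ≤ vv hK f y + C * kpe A E p (enb hK E f y)) ∧
    ((∀ x ∈ S, f x ≤ s) → vv hK f y - C * kpe A E p (enb hK E f y) ≤ s))
    {f : K → ℝ} (hf : f ∈ A) {n : ℕ} {y : List (Fin 8)} (hy : y ∈ words n) {R δ : ℝ}
    (hR : 0 ≤ R) (hCR : C * kpe A E p (enb hK E f y) < R) (hδ0 : 0 ≤ δ)
    (hδ : ∀ x, gd y x ≤ 3 → |f x - vv hK f y| ≤ δ) :
    ∃ k₀, ∀ k ≥ k₀, ∀ X ⊆ words (n + k), (∀ x ∈ X, x.take n = y) →
      ((∀ x ∈ X, ∀ z, vv hK f y + R ≤ f (cell hK x z)) →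
        ρ ^ (n + k) * ∑ x ∈ X, E (f ∘ cell hK x) ≤ bg hK A E f δ n y) ∧
      ((∀ x ∈ X, ∀ z, f (cell hK x z) ≤ vv hK f y - R) →
        ρ ^ (n + k) * ∑ x ∈ X, E (f ∘ cell hK x) ≤ bg hK A E f δ n y) := by
  have hgd : ∀ {k : ℕ} {x : List (Fin 8)}, x ∈ words (n + k) → x.take n = y → ∀ z : K,
      gd y (cell hK x z) ≤ 1 := by
    intro k x hx ht z
    obtain ⟨w, hw, x', hx', rfl, ht'⟩ := exists_take hx
    rw [ht'] at ht
    subst ht
    rw [cell_append]
    exact gd_cell_le hK w _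
  obtain ⟨m₁, h₁⟩ := h.trunc_gain hf hy (s := vv hK f y + R) hδ0
    (fun S hS hSp hS1 hS3 hall => by
      have := (hacl y f hf _ S hS hSp hS1 hS3).1 hall
      linarith) (fun x hx => by
      have := abs_le.1 (hδ x hx)
      linarith)
  obtain ⟨m₂, h₂⟩ := h.trunc_gain (h.neg_mem hf) hy (s := -(vv hK f y - R)) hδ0
    (fun S hS hSp hS1 hS3 hall => by
      have := (hacl y f hf (vv hK f y - R) S hS hSp hS1 hS3).2 fun x hx => by
        have := hall x hx
        rw [Pi.neg_apply] at this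
        linarith
      linarith) (fun x hx => by
      have := abs_le.1 (hδ x hx)
      rw [Pi.neg_apply]
      linarith)
  refine ⟨m₁ + m₂, fun k hk X hX hXt => ⟨fun hXa => ?_, fun hXa => ?_⟩⟩
  · exact h.le_bg (h₁ (n + k) (by omega) X hX fun x hx z =>
      ⟨hgd (hX hx) (hXt x hx) z, hXa x hx z⟩)
  · have h3 := h.gain_neg hf (h₂ (n + k) (by omega) X hX fun x hx z =>
      ⟨hgd (hX hx) (hXt x hx) z, by
        have := hXa x hx z
        rw [Pi.neg_apply]
        linarith⟩)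
    have e : ∑ x ∈ X, E ((-f) ∘ cell hK x) = ∑ x ∈ X, E (f ∘ cell hK x) :=
      Finset.sum_congr rfl fun x _ => h.energy_neg (h.lat.cell_mem hf x)
    rw [e] at h3
    exact h.le_bg h3

/-- Finitely many levels are crossed by little energy. -/
theorem sum_cross_finset {u : K → ℝ} (hu : u ∈ A) {ι : Type*} (J : Finset ι) (ℓ : ι → ℝ) {κ : ℝ}
    (hκ : 0 < κ) : ∃ k₀, ∀ k ≥ k₀, ∀ j ∈ J, ∀ B ⊆ words k, (∀ x ∈ B, Cross hK u (ℓ j) x) →
      ρ ^ k * ∑ x ∈ B, E (u ∘ cell hK x) ≤ κ := by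
  choose k₀ hk₀ using fun j : ι => h.sum_cross hu (ℓ j) hκ
  exact ⟨J.sup k₀, fun k hk j hj B hB hBc => hk₀ j k ((Finset.le_sup hj).trans hk) B hB hBc⟩

end Reg

/-- The location of a cell with respect to a grid of levels. -/
theorem exists_strip (hK : IsCarpet K) {U : K → ℝ} {x : List (Fin 8)} (s : ℕ → ℝ) :
    ∀ N : ℕ, (∀ z, U (cell hK x z) < s N) → (¬∀ z, U (cell hK x z) < s 0) →
      (∀ j ≤ N, ¬Cross hK U (s j) x) →
      ∃ j < N, ∀ z, s j < U (cell hK x z) ∧ U (cell hK x z) < s (j + 1) := by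
  intro N
  induction N with
  | zero => intro h1 h2 _; exact absurd h1 h2
  | succ N ih =>
    intro h1 h2 h3
    by_cases h4 : ∀ z, U (cell hK x z) < s N
    · obtain ⟨j, hj, hj2⟩ := ih h4 h2 fun j hj => h3 j (by omega)
      exact ⟨j, by omega, hj2⟩
    · rcases not_cross (h3 N (by omega)) with h5 | h5
      · exact ⟨N, by omega, fun z => ⟨h5 z, h1 z⟩⟩
      · exact absurd h5 h4

namespace Reg

variable (h : Reg hK p ρ A E)

include h

open Classical in
/-- The cells below `y` are divided into two parts, on which the energies are controlled by the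
gains. -/
theorem core_split {C Cb : ℝ} (hacl : ∀ (y : List (Fin 8)) (f : K → ℝ), f ∈ A → ∀ (s : ℝ)
    (S : Set K), IsClosed S → IsPreconnected S → (∃ x ∈ S, gd y x ≤ 1) → (∃ x ∈ S, 3 ≤ gd y x) →
    ((∀ x ∈ S, s ≤ f x) → s ≤ vv hK f y + C * kpe A E p (enb hK E f y)) ∧
    ((∀ x ∈ S, f x ≤ s) → vv hK f y - C * kpe A E p (enb hK E f y) ≤ s))
    (hCb0 : 0 < Cb) (hcol : ∀ (n : ℕ), ∀ y ∈ words n, ∀ U ∈ A,
    ∀ s l f0 M δ lo : ℝ, 0 ≤ l → 0 < M → 0 ≤ f0 → l ^ p * ρ ^ n * crc A E ≤ f0 ^ p * M →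
    Cb * f0 ≤ 1 / 2 → ρ ^ n * enb hK E U y ≤ M →
    (∀ x, gd y x ≤ 3 → lo ≤ U x ∧ U x ≤ lo + δ) → 0 ≤ δ → ∀ η > 0,
    ∃ k₀, ∀ k ≥ k₀, ∀ X ⊆ words (n + k), (∀ x ∈ X, x.take n = y ∧ ∀ z,
      s ≤ U (cell hK x z) ∧ U (cell hK x z) ≤ s + l) →
      Gain hK A E U δ n y (ρ ^ (n + k) * ∑ x ∈ X, E (U ∘ cell hK x) -
        p * 2 ^ (p - 1) * (Cb * f0) * M - η))
    {n : ℕ} {y : List (Fin 8)} (hy : y ∈ words n) {U V : K → ℝ} (hU : U ∈ A) (hV : V ∈ A)
    {r R τ w c t M D₁ δ : ℝ} {N : ℕ} (hr : 0 < r) (hrM : r ^ p * ρ ^ n * crc A E ≤ M)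
    (hM : 0 < M) (hUM : ρ ^ n * enb hK E U y ≤ M) (hR : 0 < R)
    (hUR : C * kpe A E p (enb hK E U y) < R) (hVR : C * kpe A E p (enb hK E V y) < R)
    (hN : 0 < N) (hw : w = 2 * R / N) (hτ : 0 < τ) (hτ2 : τ ≤ 1 / 2) (hc : 0 ≤ c)
    (ht : t = 2 * τ * c / N) (ht0 : 0 < t) (ht1 : t ≤ 1) (hwr : Cb * (w / r) ≤ 1 / 2)
    (hδ : 0 < δ)
    (hUδ : ∀ x x', gd y x ≤ 3 → gd y x' ≤ 3 → |U x - U x'| ≤ δ / 2)
    (hVδ : ∀ x x', gd y x ≤ 3 → gd y x' ≤ 3 → |V x - V x'| ≤ δ / 2) (Jb : Finset ℕ)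
    (hJb : ∀ j ∈ Finset.range N \ Jb, ¬BadI y U (vv hK U y - R + j * w) w) {η : ℝ} (hη : 0 < η) :
    ∃ k₀, ∀ k ≥ k₀, ∀ D₀ ≤ D₁, 0 ≤ D₀ → ∀ D : List (Fin 8) → ℝ, (∀ x ∈ under n k y, 0 ≤ D x ∧
      E ((V + c • U) ∘ cell hK x) ≤ E (V ∘ cell hK x) + D x ∧
      E ((V - c • U) ∘ cell hK x) ≤ E (V ∘ cell hK x) + D x) →
      ρ ^ (n + k) * ∑ x ∈ under n k y, D x ≤ D₀ →
      ∃ XU ⊆ (words (n + k)).filter (fun x => x.take n = y),
      ∃ XV ⊆ (words (n + k)).filter (fun x => x.take n = y),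
      (words (n + k)).filter (fun x => x.take n = y) ⊆ XU ∪ XV ∧
      ρ ^ (n + k) * ∑ x ∈ XU, E (U ∘ cell hK x) ≤
        (2 + 2 * N + Jb.card) * bg hK A E U δ n y +
        (2 * N * (p * 2 ^ (p - 1) * (Cb * (τ * w / r)) * M) +
          Jb.card * (p * 2 ^ (p - 1) * (Cb * (w / r)) * M)) + (5 * N + 1 + Jb.card) * η ∧
      ρ ^ (n + k) * ∑ x ∈ XV, E (V ∘ cell hK x) ≤
        (2 + N / t) * bg hK A E V δ n y + N / t * D₀ + (2 + N / t) * η := by
  have hp1 := h.one_lt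
  have hp := h.p_pos
  have hρ := h.rho_pos
  have hcc := h.crc_pos
  have hNr : (0 : ℝ) < N := by exact_mod_cast hN
  have hw0 : 0 < w := by rw [hw]; positivity
  set a := vv hK V y with ha
  set b := vv hK U y with hb
  set s : ℕ → ℝ := fun j => b - R + j * w with hs
  have hs0 : s 0 = b - R := by simp [hs]
  have hsN : s N = b + R := by
    simp only [hs, hw]
    field_simp
    ring
  have hss : ∀ j, s (j + 1) = s j + w := fun j => by
    simp only [hs]
    push_cast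
    ring
  set μ := τ * w with hμ
  have hμ0 : 0 < μ := by positivity
  have hμw : 2 * μ ≤ w := by
    have e1 := mul_le_mul_of_nonneg_right hτ2 hw0.le
    rw [hμ]
    linarith only [e1]
  have hct : c = t * R / μ := by
    rw [ht, hμ, hw]
    field_simp
  have hUa : ∀ x, gd y x ≤ 3 → |U x - b| ≤ δ / 2 := fun x hx => h.abs_sub_vv_le hU hUδ hx
  have hVa : ∀ x, gd y x ≤ 3 → |V x - a| ≤ δ / 2 := fun x hx => h.abs_sub_vv_le hV hVδ hx
  -- thresholds
  obtain ⟨k₁, hk₁⟩ := h.trunc_bg hacl hU hy hR.le hUR hδ.le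
    (fun x hx => (hUa x hx).trans (by linarith))
  obtain ⟨k₂, hk₂⟩ := h.trunc_bg hacl hV hy hR.le hVR hδ.le
    (fun x hx => (hVa x hx).trans (by linarith))
  obtain ⟨k₃, hk₃⟩ := h.sum_cross_finset hU (Finset.range (N + 1)) s hη
  obtain ⟨k₄, hk₄⟩ := h.sum_cross_finset hU (Finset.range N) (fun j => s j + μ) hη
  obtain ⟨k₅, hk₅⟩ := h.sum_cross_finset hU (Finset.range N) (fun j => s j + w - μ) hη
  obtain ⟨k₆, hk₆⟩ := h.sum_cross hV (a + R) hη
  obtain ⟨k₇, hk₇⟩ := h.sum_cross hV (a - R) hη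
  have hcolU : ∀ s' l : ℝ, 0 ≤ l → l ≤ w → ∃ k₀, ∀ k ≥ k₀, ∀ X ⊆ words (n + k),
      (∀ x ∈ X, x.take n = y ∧ ∀ z, s' ≤ U (cell hK x z) ∧ U (cell hK x z) ≤ s' + l) →
      ρ ^ (n + k) * ∑ x ∈ X, E (U ∘ cell hK x) ≤ bg hK A E U δ n y +
        p * 2 ^ (p - 1) * (Cb * (l / r)) * M + η := by
    intro s' l hl hlw
    obtain ⟨k₀, hk₀⟩ := hcol n y hy U hU s' l (l / r) M δ (b - δ / 2) hl hM (by positivity) (by
      rw [Real.div_rpow hl hr.le]
      have e : l ^ p * ρ ^ n * crc A E = l ^ p / r ^ p * (r ^ p * ρ ^ n * crc A E) := by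
        have : r ^ p ≠ 0 := by positivity
        field_simp
      rw [e]
      gcongr) (le_trans (by gcongr) hwr) hUM (fun x hx => by
      have := abs_le.1 (hUa x hx)
      constructor <;> linarith) hδ.le η hη
    refine ⟨k₀, fun k hk X hX hXc => ?_⟩
    have := h.le_bg (hk₀ k hk X hX hXc)
    linarith
  choose! kc hkc using fun (q : ℝ × ℝ) => hcolU q.1 q.2
  have hstr : ∀ j ∈ Finset.range N \ Jb, ∃ k₀, ∀ k ≥ k₀, ∀ D₀ : ℝ, D₀ ≤ D₁ →
      ∀ D : List (Fin 8) → ℝ, (∀ x ∈ under n k y, 0 ≤ D x ∧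
      E ((V + c • U) ∘ cell hK x) ≤ E (V ∘ cell hK x) + D x ∧
      E ((V - c • U) ∘ cell hK x) ≤ E (V ∘ cell hK x) + D x) →
      ρ ^ (n + k) * ∑ x ∈ under n k y, D x ≤ D₀ → ∀ X ⊆ words (n + k),
      (∀ x ∈ X, x.take n = y ∧ ∀ z, s j + μ ≤ U (cell hK x z) ∧ U (cell hK x z) ≤ s j + w - μ ∧
        |V (cell hK x z) - a| ≤ R) →
      ρ ^ (n + k) * ∑ x ∈ X, E (V ∘ cell hK x) ≤ (bg hK A E V δ n y + D₀ + η) / t := by
    intro j hj
    obtain ⟨k₀, hk₀⟩ := h.strip_gain hy hU hV (s := s j) (w := w) (m := μ) (a := a) (R := R)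
      (t := t) (M := ρ ^ n * enb hK E V y + |D₁| + 1) (δ := δ) (c := c) hμ0 hμw hR ht0.le ht1
      (by
        have := h.enb_nonneg hV y
        positivity) hδ.le hct
      (fun S hS hSp h1 h3 hall => hJb j hj ⟨S, hS, hSp, h1, h3, hall⟩)
      (fun x hx => (hVa x hx).trans (by linarith)) hη
    refine ⟨k₀, fun k hk D₀ hD₀ D hD hDD X hX hXc => ?_⟩
    have h1 := h.le_bg (hk₀ k hk D₀ (by
      have := le_abs_self D₁
      linarith) D hD hDD X hX hXc)
    rw [le_div_iff₀ ht0]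
    have h2 : 0 ≤ ρ ^ (n + k) * ∑ x ∈ X, E (V ∘ cell hK x) :=
      mul_nonneg (by positivity) (Finset.sum_nonneg fun x _ => h.words_mem hV)
    have h3 : t ≤ 1 - (1 - t) ^ p := by
      have : (1 - t) ^ p ≤ (1 - t) ^ (1 : ℝ) :=
        Real.rpow_le_rpow_of_exponent_ge' (sub_nonneg.2 ht1) (sub_le_self 1 ht0.le)
          zero_le_one hp1.le
      rw [Real.rpow_one] at this
      linarith only [this]
    have h4 := mul_le_mul_of_nonneg_right h3 h2
    rw [mul_comm]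
    linarith only [h1, h4]
  choose! ks hks using hstr
  set k₈ := (Finset.range N).sup (fun j => kc (s j, μ)) with hk₈
  set k₉ := (Finset.range N).sup (fun j => kc (s j + w - μ, μ)) with hk₉
  set k₁₀ := Jb.sup (fun j => kc (s j, w)) with hk₁₀
  set k₁₁ := (Finset.range N \ Jb).sup ks with hk₁₁
  refine ⟨k₁ + k₂ + k₃ + k₄ + k₅ + k₆ + k₇ + k₈ + k₉ + k₁₀ + k₁₁, fun k hk D₀ hD₁ hD₀ D hD hDD => ?_⟩
  set X := (words (n + k)).filter (fun x => x.take n = y) with hX
  have hXw : X ⊆ words (n + k) := Finset.filter_subset _ _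
  have hXt : ∀ x ∈ X, x.take n = y := fun x hx => (Finset.mem_filter.1 hx).2
  set gU : List (Fin 8) → ℝ := fun x => E (U ∘ cell hK x) with hgU
  set gV : List (Fin 8) → ℝ := fun x => E (V ∘ cell hK x) with hgV
  have hgU0 : ∀ x, 0 ≤ gU x := fun x => h.words_mem hU
  have hgV0 : ∀ x, 0 ≤ gV x := fun x => h.words_mem hV
  have hρk : 0 < ρ ^ (n + k) := by positivity
  have hbU := h.bg_nonneg hU hδ.le n y
  have hbV := h.bg_nonneg hV hδ.le n y
  -- the predicates
  set U₁ : List (Fin 8) → Prop := fun x => ∀ z, b + R ≤ U (cell hK x z) with hU₁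
  set U₂ : List (Fin 8) → Prop := fun x => ∀ z, U (cell hK x z) ≤ b - R with hU₂
  set U₃ : ℕ → List (Fin 8) → Prop := fun j x => Cross hK U (s j) x with hU₃
  set U₄ : ℕ → List (Fin 8) → Prop := fun j x => Cross hK U (s j + μ) x with hU₄
  set U₅ : ℕ → List (Fin 8) → Prop := fun j x => Cross hK U (s j + w - μ) x with hU₅
  set U₆ : ℕ → List (Fin 8) → Prop := fun j x => ∀ z, s j ≤ U (cell hK x z) ∧
    U (cell hK x z) ≤ s j + μ with hU₆
  set U₇ : ℕ → List (Fin 8) → Prop := fun j x => ∀ z, s j + w - μ ≤ U (cell hK x z) ∧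
    U (cell hK x z) ≤ s j + w - μ + μ with hU₇
  set U₈ : ℕ → List (Fin 8) → Prop := fun j x => ∀ z, s j ≤ U (cell hK x z) ∧
    U (cell hK x z) ≤ s j + w with hU₈
  set V₁ : List (Fin 8) → Prop := fun x => ∀ z, a + R ≤ V (cell hK x z) with hV₁
  set V₂ : List (Fin 8) → Prop := fun x => ∀ z, V (cell hK x z) ≤ a - R with hV₂
  set V₅ : ℕ → List (Fin 8) → Prop := fun j x => ∀ z, s j + μ ≤ U (cell hK x z) ∧
    U (cell hK x z) ≤ s j + w - μ ∧ |V (cell hK x z) - a| ≤ R with hV₅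
  set PU : List (Fin 8) → Prop := fun x => (U₁ x ∨ U₂ x) ∨ ((∃ j ∈ Finset.range (N + 1), U₃ j x) ∨
    ((∃ j ∈ Finset.range N, U₄ j x) ∨ (∃ j ∈ Finset.range N, U₅ j x))) ∨
    (((∃ j ∈ Finset.range N, U₆ j x) ∨ (∃ j ∈ Finset.range N, U₇ j x)) ∨
      (∃ j ∈ Jb, U₈ j x)) with hPU
  set PV : List (Fin 8) → Prop := fun x => (V₁ x ∨ V₂ x) ∨
    ((Cross hK V (a + R) x ∨ Cross hK V (a - R) x) ∨
      (∃ j ∈ Finset.range N \ Jb, V₅ j x)) with hPV
  refine ⟨X.filter PU, Finset.filter_subset _ _, X.filter PV, Finset.filter_subset _ _, ?_, ?_, ?_⟩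
  · -- covering
    intro x hx
    by_contra hcon
    have nU : ¬PU x := fun q => hcon (Finset.mem_union_left _ (Finset.mem_filter.2 ⟨hx, q⟩))
    have nV : ¬PV x := fun q => hcon (Finset.mem_union_right _ (Finset.mem_filter.2 ⟨hx, q⟩))
    simp only [hPU, hPV, not_or, not_exists, not_and] at nU nV
    obtain ⟨⟨u1, u2⟩, ⟨u3, u4, u5⟩, ⟨u6, u7⟩, u8⟩ := nU
    obtain ⟨⟨v1, v2⟩, ⟨v3, v4⟩, v5⟩ := nV
    have hVR' : ∀ z, |V (cell hK x z) - a| ≤ R := by
      intro z
      rw [abs_le]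
      constructor
      · rcases not_cross v4 with q | q
        · linarith [q z]
        · exact absurd (fun z => (q z).le) v2
      · rcases not_cross v3 with q | q
        · exact absurd (fun z => (q z).le) v1
        · linarith [q z]
    have c3 : ∀ j ≤ N, ¬Cross hK U (s j) x := fun j hj => u3 j (Finset.mem_range.2 (by omega))
    obtain ⟨j, hj, hjz⟩ := exists_strip hK s N (by
        rcases not_cross (c3 N le_rfl) with q | q
        · rw [hsN] at q
          exact absurd (fun z => (q z).le) u1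
        · exact q) (fun q => u2 fun z => by
          have := q z
          rw [hs0] at this
          exact this.le) c3
    have hjN := Finset.mem_range.2 hj
    rw [hss] at hjz
    rcases not_cross (u4 j hjN) with q | q
    · rcases not_cross (u5 j hjN) with q' | q'
      · refine u7 j hjN fun z => ⟨(q' z).le, ?_⟩
        linarith [(hjz z).2]
      · by_cases hjb : j ∈ Jb
        · exact u8 j hjb fun z => ⟨(hjz z).1.le, (hjz z).2.le⟩
        · exact v5 j (Finset.mem_sdiff.2 ⟨hjN, hjb⟩) fun z => ⟨(q z).le, (q' z).le, hVR' z⟩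
    · exact u6 j hjN fun z => ⟨(hjz z).1.le, (q z).le⟩
  · -- the part controlled by `U`
    have a1 : ρ ^ (n + k) * ∑ x ∈ X.filter U₁, gU x ≤ bg hK A E U δ n y :=
      (hk₁ k (by omega) _ ((Finset.filter_subset _ _).trans hXw) fun x hx =>
        hXt x (Finset.mem_filter.1 hx).1).1 fun x hx => (Finset.mem_filter.1 hx).2
    have a2 : ρ ^ (n + k) * ∑ x ∈ X.filter U₂, gU x ≤ bg hK A E U δ n y :=
      (hk₁ k (by omega) _ ((Finset.filter_subset _ _).trans hXw) fun x hx =>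
        hXt x (Finset.mem_filter.1 hx).1).2 fun x hx => (Finset.mem_filter.1 hx).2
    have a3 : ρ ^ (n + k) * ∑ j ∈ Finset.range (N + 1), ∑ x ∈ X.filter (U₃ j), gU x ≤
        (N + 1) * η := by
      rw [Finset.mul_sum]
      refine (Finset.sum_le_sum fun j hj => hk₃ (n + k) (by omega) j hj _
        ((Finset.filter_subset _ _).trans hXw) fun x hx => (Finset.mem_filter.1 hx).2).trans ?_
      rw [Finset.sum_const, Finset.card_range, nsmul_eq_mul]
      push_cast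
      exact le_rfl
    have a4 : ρ ^ (n + k) * ∑ j ∈ Finset.range N, ∑ x ∈ X.filter (U₄ j), gU x ≤ N * η := by
      rw [Finset.mul_sum]
      refine (Finset.sum_le_sum fun j hj => hk₄ (n + k) (by omega) j hj _
        ((Finset.filter_subset _ _).trans hXw) fun x hx => (Finset.mem_filter.1 hx).2).trans ?_
      rw [Finset.sum_const, Finset.card_range, nsmul_eq_mul]
    have a5 : ρ ^ (n + k) * ∑ j ∈ Finset.range N, ∑ x ∈ X.filter (U₅ j), gU x ≤ N * η := by
      rw [Finset.mul_sum]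
      refine (Finset.sum_le_sum fun j hj => hk₅ (n + k) (by omega) j hj _
        ((Finset.filter_subset _ _).trans hXw) fun x hx => (Finset.mem_filter.1 hx).2).trans ?_
      rw [Finset.sum_const, Finset.card_range, nsmul_eq_mul]
    have a6 : ρ ^ (n + k) * ∑ j ∈ Finset.range N, ∑ x ∈ X.filter (U₆ j), gU x ≤
        N * (bg hK A E U δ n y + p * 2 ^ (p - 1) * (Cb * (μ / r)) * M + η) := by
      rw [Finset.mul_sum]
      have e6 : ∀ j ∈ Finset.range N, ρ ^ (n + k) * ∑ x ∈ X.filter (U₆ j), gU x ≤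
          bg hK A E U δ n y + p * 2 ^ (p - 1) * (Cb * (μ / r)) * M + η := fun j hj =>
        hkc (s j, μ) hμ0.le (by
        change μ ≤ w
        linarith) k (by
        have : kc (s j, μ) ≤ k₈ := Finset.le_sup (f := fun j => kc (s j, μ)) hj
        omega) _ ((Finset.filter_subset _ _).trans hXw) fun x hx =>
          ⟨hXt x (Finset.mem_filter.1 hx).1, (Finset.mem_filter.1 hx).2⟩
      refine (Finset.sum_le_sum e6).trans ?_
      rw [Finset.sum_const, Finset.card_range, nsmul_eq_mul]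
    have a7 : ρ ^ (n + k) * ∑ j ∈ Finset.range N, ∑ x ∈ X.filter (U₇ j), gU x ≤
        N * (bg hK A E U δ n y + p * 2 ^ (p - 1) * (Cb * (μ / r)) * M + η) := by
      rw [Finset.mul_sum]
      have e7 : ∀ j ∈ Finset.range N, ρ ^ (n + k) * ∑ x ∈ X.filter (U₇ j), gU x ≤
          bg hK A E U δ n y + p * 2 ^ (p - 1) * (Cb * (μ / r)) * M + η := fun j hj =>
        hkc (s j + w - μ, μ) hμ0.le (by
        change μ ≤ w
        linarith) k (by
        have : kc (s j + w - μ, μ) ≤ k₉ := Finset.le_sup (f := fun j => kc (s j + w - μ, μ)) hj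
        omega) _ ((Finset.filter_subset _ _).trans hXw) fun x hx =>
          ⟨hXt x (Finset.mem_filter.1 hx).1, (Finset.mem_filter.1 hx).2⟩
      refine (Finset.sum_le_sum e7).trans ?_
      rw [Finset.sum_const, Finset.card_range, nsmul_eq_mul]
    have a8 : ρ ^ (n + k) * ∑ j ∈ Jb, ∑ x ∈ X.filter (U₈ j), gU x ≤
        Jb.card * (bg hK A E U δ n y + p * 2 ^ (p - 1) * (Cb * (w / r)) * M + η) := by
      rw [Finset.mul_sum]
      have e8 : ∀ j ∈ Jb, ρ ^ (n + k) * ∑ x ∈ X.filter (U₈ j), gU x ≤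
          bg hK A E U δ n y + p * 2 ^ (p - 1) * (Cb * (w / r)) * M + η := fun j hj =>
        hkc (s j, w) hw0.le le_rfl k (by
        have : kc (s j, w) ≤ k₁₀ := Finset.le_sup (f := fun j => kc (s j, w)) hj
        omega) _ ((Finset.filter_subset _ _).trans hXw) fun x hx =>
          ⟨hXt x (Finset.mem_filter.1 hx).1, (Finset.mem_filter.1 hx).2⟩
      refine (Finset.sum_le_sum e8).trans ?_
      rw [Finset.sum_const, nsmul_eq_mul]
    have hsum : sm X gU PU ≤ (sm X gU U₁ + sm X gU U₂) +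
        ((∑ j ∈ Finset.range (N + 1), sm X gU (U₃ j) +
          (∑ j ∈ Finset.range N, sm X gU (U₄ j) + ∑ j ∈ Finset.range N, sm X gU (U₅ j))) +
        ((∑ j ∈ Finset.range N, sm X gU (U₆ j) + ∑ j ∈ Finset.range N, sm X gU (U₇ j)) +
          ∑ j ∈ Jb, sm X gU (U₈ j))) := by
      refine (sm_or_le X gU hgU0 _ _).trans (add_le_add
        (sm_or_le X gU hgU0 _ _) ((sm_or_le X gU hgU0 _ _).trans (add_le_add
        ((sm_or_le X gU hgU0 _ _).trans (add_le_add
          (sm_exists_le X gU hgU0 _ _) ((sm_or_le X gU hgU0 _ _).trans (add_le_add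
            (sm_exists_le X gU hgU0 _ _) (sm_exists_le X gU hgU0 _ _)))))
        ((sm_or_le X gU hgU0 _ _).trans (add_le_add
          ((sm_or_le X gU hgU0 _ _).trans (add_le_add
            (sm_exists_le X gU hgU0 _ _) (sm_exists_le X gU hgU0 _ _)))
          (sm_exists_le X gU hgU0 _ _))))))
    have hsm : ∑ x ∈ X.filter PU, gU x = sm X gU PU :=
      Finset.sum_congr (by ext; simp [Finset.mem_filter]) fun _ _ => rfl
    have := mul_le_mul_of_nonneg_left hsum hρk.le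
    rw [← hsm] at this
    refine this.trans ?_
    rw [mul_add, mul_add, mul_add, mul_add, mul_add, mul_add, mul_add]
    refine (add_le_add (add_le_add a1 a2) (add_le_add (add_le_add a3 (add_le_add a4 a5))
      (add_le_add (add_le_add a6 a7) a8))).trans (le_of_eq ?_)
    ring
  · -- the part controlled by `V`
    have a1 : ρ ^ (n + k) * ∑ x ∈ X.filter V₁, gV x ≤ bg hK A E V δ n y :=
      (hk₂ k (by omega) _ ((Finset.filter_subset _ _).trans hXw) fun x hx =>
        hXt x (Finset.mem_filter.1 hx).1).1 fun x hx => (Finset.mem_filter.1 hx).2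
    have a2 : ρ ^ (n + k) * ∑ x ∈ X.filter V₂, gV x ≤ bg hK A E V δ n y :=
      (hk₂ k (by omega) _ ((Finset.filter_subset _ _).trans hXw) fun x hx =>
        hXt x (Finset.mem_filter.1 hx).1).2 fun x hx => (Finset.mem_filter.1 hx).2
    have a3 : ρ ^ (n + k) * ∑ x ∈ X.filter (fun x => Cross hK V (a + R) x), gV x ≤ η :=
      hk₆ (n + k) (by omega) _ ((Finset.filter_subset _ _).trans hXw) fun x hx =>
        (Finset.mem_filter.1 hx).2
    have a4 : ρ ^ (n + k) * ∑ x ∈ X.filter (fun x => Cross hK V (a - R) x), gV x ≤ η :=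
      hk₇ (n + k) (by omega) _ ((Finset.filter_subset _ _).trans hXw) fun x hx =>
        (Finset.mem_filter.1 hx).2
    have a5 : ρ ^ (n + k) * ∑ j ∈ Finset.range N \ Jb, ∑ x ∈ X.filter (V₅ j), gV x ≤
        N * ((bg hK A E V δ n y + D₀ + η) / t) := by
      rw [Finset.mul_sum]
      refine (Finset.sum_le_sum fun j hj => hks j hj k (by
        have := Finset.le_sup (f := ks) hj
        omega) D₀ hD₁ D hD hDD _ ((Finset.filter_subset _ _).trans hXw) fun x hx =>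
          ⟨hXt x (Finset.mem_filter.1 hx).1, (Finset.mem_filter.1 hx).2⟩).trans ?_
      rw [Finset.sum_const, nsmul_eq_mul]
      have h1 : ((Finset.range N \ Jb).card : ℝ) ≤ N := by
        have := Finset.card_le_card (Finset.sdiff_subset (s := Finset.range N) (t := Jb))
        rw [Finset.card_range] at this
        exact_mod_cast this
      gcongr
    have hsum : sm X gV PV ≤ (sm X gV V₁ + sm X gV V₂) +
        ((sm X gV (fun x => Cross hK V (a + R) x) + sm X gV (fun x => Cross hK V (a - R) x)) +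
        ∑ j ∈ Finset.range N \ Jb, sm X gV (V₅ j)) := by
      refine (sm_or_le X gV hgV0 _ _).trans (add_le_add
        (sm_or_le X gV hgV0 _ _) ((sm_or_le X gV hgV0 _ _).trans (add_le_add
        (sm_or_le X gV hgV0 _ _) (sm_exists_le X gV hgV0 _ _))))
    have hsm : ∑ x ∈ X.filter PV, gV x = sm X gV PV :=
      Finset.sum_congr (by ext; simp [Finset.mem_filter]) fun _ _ => rfl
    have := mul_le_mul_of_nonneg_left hsum hρk.le
    rw [← hsm] at this
    refine this.trans ?_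
    rw [mul_add, mul_add, mul_add, mul_add]
    refine (add_le_add (add_le_add a1 a2) (add_le_add (add_le_add a3 a4) a5)).trans (le_of_eq ?_)
    ring

end Reg

end Pool.Agent.SierpinskiCarpet
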