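import Pool.Agent.helper33.SRCore
import Pool.Agent.helper33.SCTree

/-!
# The local estimate with all constants
-/

open MeasureTheory Filter Topology

namespace Pool.Agent.SierpinskiCarpet

variable {K : Set (ℝ × ℝ)} {hK : IsCarpet K} {A : Set (K → ℝ)} {p ρ : ℝ} {E : (K → ℝ) → ℝ}

/-- The deviation of the energy from a multiple of `m`. -/
noncomputable def dv (hK : IsCarpet K) (ρ : ℝ) (E : (K → ℝ) → ℝ) (m : List (Fin 8) → ℝ)
    (f : K → ℝ) (θ : ℝ) (x : List (Fin 8)) : ℝ :=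
  |ρ ^ x.length * E (f ∘ cell hK x) - θ * m x|

theorem dv_nonneg (m : List (Fin 8) → ℝ) (f : K → ℝ) (θ : ℝ) (x : List (Fin 8)) :
    0 ≤ dv hK ρ E m f θ x := abs_nonneg _

/-- The tree measure of the cells below a neighbourhood. -/
theorem sum_under_tree {m : List (Fin 8) → ℝ} (hm : TreeMeasure m) (n k : ℕ) (y : List (Fin 8)) :
    ∑ x ∈ under n k y, m x = ∑ w ∈ nbh 1 n y, m w := by
  rw [sum_under]
  exact Finset.sum_congr rfl fun w _ => hm.sum w k

theorem nbh_mono {n : ℕ} {y : List (Fin 8)} : nbh 1 n y ⊆ nbh 2 n y := fun w hw =>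
  mem_nbh.2 ⟨(mem_nbh.1 hw).1, (mem_nbh.1 hw).2.mono (by norm_num)⟩

/-- The sum over the cells below `y`. -/
theorem sum_filter_take {M : Type*} [AddCommMonoid M] {n : ℕ} (k : ℕ) {y : List (Fin 8)}
    (hy : y ∈ words n) (g : List (Fin 8) → M) :
    ∑ x ∈ (words (n + k)).filter (fun x => x.take n = y), g x = ∑ x ∈ words k, g (y ++ x) := by
  rw [Finset.sum_filter, sum_words_add, Finset.sum_eq_single y]
  · exact Finset.sum_congr rfl fun x _ => by rw [take_append_eq hy, if_pos rfl]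
  · intro w hw hne
    refine Finset.sum_eq_zero fun x _ => ?_
    rw [take_append_eq hw, if_neg hne]
  · exact fun hcon => absurd hy hcon

theorem filter_take_subset {n k : ℕ} {y : List (Fin 8)} :
    (words (n + k)).filter (fun x => x.take n = y) ⊆ under n k y := fun x hx => by
  rw [Finset.mem_filter] at hx
  exact Finset.mem_filter.2 ⟨hx.1, by rw [hx.2]; exact Nb.refl zero_le_one y⟩

namespace Reg

variable (h : Reg hK p ρ A E)

include h

theorem tree {g : K → ℝ} (hg : g ∈ A) :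
    TreeMeasure fun w => ρ ^ w.length * E (g ∘ cell hK w) := by
  refine ⟨fun w => ?_, fun w k => ?_⟩
  · have := h.rho_pos
    have := h.nonneg _ (h.lat.cell_mem hg w)
    positivity
  · rw [← h.sum_words k _ (h.lat.cell_mem hg w), ← mul_assoc, Finset.mul_sum]
    refine Finset.sum_congr rfl fun x hx => ?_
    rw [List.length_append, mem_words.1 hx, pow_add, cell_append]
    rfl

theorem dv_le {m : List (Fin 8) → ℝ} (hm : TreeMeasure m) {f : K → ℝ} (hf : f ∈ A) (θ : ℝ)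
    {n : ℕ} {y : List (Fin 8)} (hy : y ∈ words n) (k : ℕ) :
    dv hK ρ E m f θ y ≤ ∑ x ∈ under n k y, dv hK ρ E m f θ x := by
  have h1 : dv hK ρ E m f θ y ≤ ∑ x ∈ words k, dv hK ρ E m f θ (y ++ x) := by
    have e1 := (h.tree hf).sum y k
    have e2 := hm.sum y k
    have e3 : ρ ^ y.length * E (f ∘ cell hK y) - θ * m y =
        ∑ x ∈ words k, (ρ ^ (y ++ x).length * E (f ∘ cell hK (y ++ x)) - θ * m (y ++ x)) := by
      rw [Finset.sum_sub_distrib, ← Finset.mul_sum, e1, e2]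
    unfold dv
    rw [e3]
    exact Finset.abs_sum_le_sum_abs _ _
  rw [← sum_filter_take k hy] at h1
  exact h1.trans (Finset.sum_le_sum_of_subset_of_nonneg filter_take_subset
    fun x _ _ => dv_nonneg m f θ x)

open Classical in
/-- The local estimate. -/
theorem core {c₂ CM Cg C₁ : ℝ} (hc₂ : 0 < c₂) (hCM : 0 < CM) (hCg : 0 < Cg) (hC₁ : 0 < C₁) :
    ∃ J₀ : ℕ, 2 ≤ J₀ ∧ ∃ Cs : ℝ, 0 < Cs ∧ ∀ (n : ℕ), ∀ y ∈ words n, ∀ U ∈ A, ∀ V ∈ A,
    ∀ m : List (Fin 8) → ℝ, TreeMeasure m → 0 < m y →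
    ∑ w ∈ nbh 2 n y, m w ≤ CM * m y →
    (∀ w, ρ ^ w.length * E (U ∘ cell hK w) ≤ C₁ * m w) →
    (∀ w, ρ ^ w.length * E (V ∘ cell hK w) ≤ C₁ * m w) →
    c₂ * m y ≤ ρ ^ n * E (U ∘ cell hK y) → c₂ * m y ≤ ρ ^ n * E (V ∘ cell hK y) →
    ρ ^ n * E ((V + (1 / J₀ : ℝ) • U) ∘ cell hK y) ≤
      ρ ^ n * E (V ∘ cell hK y) + Cg * (1 / J₀ : ℝ) ^ 2 * m y →
    ρ ^ n * E ((V - (1 / J₀ : ℝ) • U) ∘ cell hK y) ≤
      ρ ^ n * E (V ∘ cell hK y) + Cg * (1 / J₀ : ℝ) ^ 2 * m y →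
    ∀ θU θV θp θm : ℝ, ∀ δ > 0,
    (∀ x x', gd y x ≤ 3 → gd y x' ≤ 3 → |U x - U x'| ≤ δ / 2) →
    (∀ x x', gd y x ≤ 3 → gd y x' ≤ 3 → |V x - V x'| ≤ δ / 2) → ∀ ε > 0, ∃ k₀, ∀ k ≥ k₀,
    m y ≤ Cs * (bg hK A E U δ n y + bg hK A E V δ n y + ∑ x ∈ under n k y,
      (dv hK ρ E m U θU x + dv hK ρ E m V θV x + dv hK ρ E m (V + (1 / J₀ : ℝ) • U) θp x +
        dv hK ρ E m (V - (1 / J₀ : ℝ) • U) θm x)) + ε := by
  have hp1 := h.one_lt
  have hp := h.p_pos
  have hρ := h.rho_pos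
  have hcc := h.crc_pos
  obtain ⟨C, hC, hacl⟩ := h.acl2
  obtain ⟨Cb, hCb0, hcol⟩ := h.collapse_gain
  obtain ⟨Cd, hCd0, hbad⟩ := h.bad_count
  set P : ℝ := p * 2 ^ (p - 1) with hP
  have hP0 : 0 < P := by positivity
  set R₀ : ℝ := C + 1 with hR₀
  have hR₀1 : 1 ≤ R₀ := by linarith
  have hR₀0 : 0 < R₀ := by linarith
  set MM : ℝ := C₁ * CM with hMM
  have hMM0 : 0 < MM := by positivity
  set τ : ℝ := min (1 / 2) (c₂ / (64 * (P * Cb * R₀ * MM))) with hτdef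
  have hτ0 : 0 < τ := lt_min (by norm_num) (by positivity)
  have hτ2 : τ ≤ 1 / 2 := min_le_left _ _
  have hτ3 : 4 * (P * Cb * R₀ * MM) * τ ≤ c₂ / 16 := by
    have : τ ≤ c₂ / (64 * (P * Cb * R₀ * MM)) := min_le_right _ _
    calc 4 * (P * Cb * R₀ * MM) * τ ≤ 4 * (P * Cb * R₀ * MM) * (c₂ / (64 * (P * Cb * R₀ * MM))) := by
          gcongr
      _ = c₂ / 16 := by field_simp; norm_num
  obtain ⟨n₀, hn₀1, hn₀2, hn₀3⟩ : ∃ n₀ : ℕ, 1 ≤ n₀ ∧
      4 * (Cd * P * Cb * R₀ * MM) * (8 / 9) ^ n₀ ≤ c₂ / 16 ∧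
      Cb * (2 * R₀) * (1 / 3) ^ n₀ ≤ 1 / 2 := by
    have t1 : Tendsto (fun n : ℕ => 4 * (Cd * P * Cb * R₀ * MM) * (8 / 9 : ℝ) ^ n) atTop
        (𝓝 (4 * (Cd * P * Cb * R₀ * MM) * 0)) :=
      (tendsto_pow_atTop_nhds_zero_of_lt_one (by norm_num) (by norm_num)).const_mul _
    have t2 : Tendsto (fun n : ℕ => Cb * (2 * R₀) * (1 / 3 : ℝ) ^ n) atTop
        (𝓝 (Cb * (2 * R₀) * 0)) :=
      (tendsto_pow_atTop_nhds_zero_of_lt_one (by norm_num) (by norm_num)).const_mul _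
    rw [mul_zero] at t1 t2
    have e1 := t1.eventually (gt_mem_nhds (show 0 < c₂ / 16 by positivity))
    have e2 := t2.eventually (gt_mem_nhds (show (0 : ℝ) < 1 / 2 by norm_num))
    obtain ⟨n₀, h1, h2, h3⟩ := (e1.and (e2.and (eventually_ge_atTop 1))).exists
    exact ⟨n₀, h3, h1.le, h2.le⟩
  set N : ℕ := 3 ^ n₀ with hN
  have hN0 : 0 < N := by positivity
  have hNr : (0 : ℝ) < N := by exact_mod_cast hN0
  have hN3 : (N : ℝ) = 3 ^ n₀ := by rw [hN]; push_cast; rfl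
  have hN1 : (1 : ℝ) ≤ N := by exact_mod_cast hN0
  obtain ⟨J₀, hJ₀, hJ₀κ⟩ : ∃ J₀ : ℕ, 2 ≤ J₀ ∧ (1 / J₀ : ℝ) ≤ c₂ * τ / (16 * (N ^ 2 * CM * Cg)) := by
    have h0 : 0 < c₂ * τ / (16 * (N ^ 2 * CM * Cg)) := by positivity
    obtain ⟨j, hj⟩ := exists_nat_gt (1 / (c₂ * τ / (16 * (N ^ 2 * CM * Cg))))
    refine ⟨j + 2, by omega, ?_⟩
    rw [div_le_iff₀ (by positivity)]
    rw [div_lt_iff₀ h0] at hj
    push_cast
    rw [mul_add]
    linarith only [hj, h0]
  refine ⟨J₀, hJ₀, ?_⟩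
  set κ : ℝ := 1 / J₀ with hκ
  have hJr : (2 : ℝ) ≤ J₀ := by exact_mod_cast hJ₀
  have hκ0 : 0 < κ := by positivity
  have hκ1 : κ ≤ 1 := by
    rw [hκ, div_le_one (by positivity)]
    linarith
  set t : ℝ := 2 * τ * κ / N with ht
  have ht0 : 0 < t := by positivity
  have ht1 : t ≤ 1 := by
    rw [ht, div_le_one hNr]
    have e1 : 2 * τ * κ ≤ 1 * 1 :=
      mul_le_mul (by linarith only [hτ2]) hκ1 hκ0.le zero_le_one
    linarith only [e1, hN1]
  have hNt : N / t * (2 * CM * Cg * κ ^ 2) ≤ c₂ / 16 := by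
    have e : N / t * (2 * CM * Cg * κ ^ 2) = N ^ 2 * CM * Cg / τ * κ := by
      rw [ht]
      field_simp
    rw [e]
    calc N ^ 2 * CM * Cg / τ * κ ≤ N ^ 2 * CM * Cg / τ * (c₂ * τ / (16 * (N ^ 2 * CM * Cg))) := by
          gcongr
      _ = c₂ / 16 := by field_simp
  set G1 : ℝ := 4 + 3 * N + N / t * (2 * CM + 2) with hG1
  set G2 : ℝ := 3 + 6 * N + N / t with hG2
  have hNt0 : 0 < N / t := by positivity
  have hG10 : 0 < G1 := by positivity
  have hG20 : 0 < G2 := by positivity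
  refine ⟨4 / c₂ * G1 + 2 / c₂, by positivity, ?_⟩
  intro n y hy U hU V hV m hm hmy hdbl hUm hVm hUy hVy hp' hm' θU θV θp θm δ hδ hUδ hVδ ε hε
  have hmn := hm.nonneg
  set M : ℝ := MM * m y with hM
  have hM0 : 0 < M := by positivity
  have hnb : ∀ f ∈ A, (∀ w, ρ ^ w.length * E (f ∘ cell hK w) ≤ C₁ * m w) →
      ρ ^ n * ∑ w ∈ nbh 2 n y, E (f ∘ cell hK w) ≤ M := by
    intro f _ hfm
    rw [Finset.mul_sum]
    calc ∑ w ∈ nbh 2 n y, ρ ^ n * E (f ∘ cell hK w) ≤ ∑ w ∈ nbh 2 n y, C₁ * m w := by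
          refine Finset.sum_le_sum fun w hw => ?_
          have := hfm w
          rwa [mem_words.1 (mem_nbh.1 hw).1] at this
      _ = C₁ * ∑ w ∈ nbh 2 n y, m w := by rw [Finset.mul_sum]
      _ ≤ C₁ * (CM * m y) := by gcongr
      _ = M := by rw [hM, hMM]; ring
  have henb : ∀ f ∈ A, (∀ w, ρ ^ w.length * E (f ∘ cell hK w) ≤ C₁ * m w) →
      ρ ^ n * enb hK E f y ≤ M := by
    intro f hf hfm
    refine le_trans ?_ (hnb f hf hfm)
    rw [enb, mem_words.1 hy]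
    exact mul_le_mul_of_nonneg_left (Finset.sum_le_sum_of_subset_of_nonneg nbh_mono
      fun w _ _ => h.words_mem hf) (by positivity)
  set r : ℝ := kpe A E p (M / ρ ^ n) with hr
  have hMρ : 0 < M / ρ ^ n := by positivity
  have hr0 : 0 < r := by
    rw [hr]
    unfold kpe
    positivity
  have hrp : r ^ p * crc A E = M / ρ ^ n := h.kpe_rpow hMρ.le
  have hrM : r ^ p * ρ ^ n * crc A E = M := by
    have : r ^ p * ρ ^ n * crc A E = (r ^ p * crc A E) * ρ ^ n := by ring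
    rw [this, hrp]
    field_simp
  set R : ℝ := R₀ * r with hR
  have hR0 : 0 < R := by positivity
  have hkR : ∀ f ∈ A, ρ ^ n * enb hK E f y ≤ M → C * kpe A E p (enb hK E f y) < R := by
    intro f hf hfM
    have h1 : kpe A E p (enb hK E f y) ≤ r := h.kpe_mono (h.enb_nonneg hf y) (by
      rw [le_div_iff₀ (by positivity)]
      linarith)
    calc C * kpe A E p (enb hK E f y) ≤ C * r := by gcongr
      _ < R := by
          have e : (C + 1) * r = C * r + r := by ring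
          rw [hR, hR₀, e]
          exact lt_add_of_pos_right _ hr0
  set w : ℝ := 2 * R / N with hw
  have hw0 : 0 < w := by positivity
  have hwr : w / r = 2 * R₀ / N := by
    rw [hw, hR]
    field_simp
  have hwr2 : Cb * (w / r) ≤ 1 / 2 := by
    rw [hwr, hN3]
    calc Cb * (2 * R₀ / 3 ^ n₀) = Cb * (2 * R₀) * (1 / 3) ^ n₀ := by
          rw [div_pow, one_pow]
          ring
      _ ≤ 1 / 2 := hn₀3
  set Jb : Finset ℕ := (Finset.range N).filter fun j => BadI y U (vv hK U y - R + j * w) w with hJb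
  have hJbc : (Jb.card : ℝ) ≤ 2 * Cd * (8 / 3) ^ n₀ := by
    have h1 := hbad n₀ hn₀1 n y hy U hU r w (vv hK U y - R) hw0 hr0.le (by
      rw [hrp, le_div_iff₀ (by positivity)]
      have := hnb U hU hUm
      linarith) Jb fun j hj => (Finset.mem_filter.1 hj).2
    have h2 : r / (3 ^ n₀ * w) ≤ 1 := by
      rw [← hN3, hw, hR]
      have : r / (N * (2 * (R₀ * r) / N)) = 1 / (2 * R₀) := by field_simp
      rw [this, div_le_one (by positivity)]
      linarith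
    calc (Jb.card : ℝ) ≤ Cd * (8 / 3) ^ n₀ * (1 + r / (3 ^ n₀ * w)) := h1
      _ ≤ Cd * (8 / 3) ^ n₀ * (1 + 1) := by gcongr
      _ = _ := by ring
  have hJbN : (Jb.card : ℝ) ≤ N := by
    have := Finset.card_filter_le (Finset.range N)
      fun j => BadI y U (vv hK U y - R + j * w) w
    rw [Finset.card_range] at this
    exact_mod_cast this
  set D₁ : ℝ := CM * (2 * Cg * κ ^ 2 + c₂) * m y + c₂ * m y with hD₁
  set η : ℝ := ε * c₂ / (4 * G2) with hη
  have hη0 : 0 < η := by positivity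
  obtain ⟨k₀, hk₀⟩ := h.core_split hacl hCb0 hcol hy hU hV (D₁ := D₁) hr0 hrM.le hM0
    (henb U hU hUm) hR0 (hkR U hU (henb U hU hUm)) (hkR V hV (henb V hV hVm)) hN0 hw hτ0 hτ2 hκ0.le
    ht ht0 ht1 hwr2 hδ hUδ hVδ Jb (fun j hj hb => by
      rw [Finset.mem_sdiff] at hj
      exact hj.2 (Finset.mem_filter.2 ⟨hj.1, hb⟩)) hη0
  refine ⟨k₀, fun k hk => ?_⟩
  set dU := dv hK ρ E m U θU with hdU
  set dV := dv hK ρ E m V θV with hdV
  set dp := dv hK ρ E m (V + κ • U) θp with hdp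
  set dm := dv hK ρ E m (V - κ • U) θm with hdm
  have nU : ∀ x, 0 ≤ dU x := fun x => dv_nonneg m U θU x
  have nV : ∀ x, 0 ≤ dV x := fun x => dv_nonneg m V θV x
  have np : ∀ x, 0 ≤ dp x := fun x => dv_nonneg m _ θp x
  have nm : ∀ x, 0 ≤ dm x := fun x => dv_nonneg m _ θm x
  set Dev : ℝ := ∑ x ∈ under n k y, (dU x + dV x + dp x + dm x) with hDev
  have hDev' : Dev = ∑ x ∈ under n k y, dU x + ∑ x ∈ under n k y, dV x +
      ∑ x ∈ under n k y, dp x + ∑ x ∈ under n k y, dm x := by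
    rw [hDev, Finset.sum_add_distrib, Finset.sum_add_distrib, Finset.sum_add_distrib]
  have sU : 0 ≤ ∑ x ∈ under n k y, dU x := Finset.sum_nonneg fun x _ => nU x
  have sV : 0 ≤ ∑ x ∈ under n k y, dV x := Finset.sum_nonneg fun x _ => nV x
  have sp : 0 ≤ ∑ x ∈ under n k y, dp x := Finset.sum_nonneg fun x _ => np x
  have sm' : 0 ≤ ∑ x ∈ under n k y, dm x := Finset.sum_nonneg fun x _ => nm x
  have hDev0 : 0 ≤ Dev := by rw [hDev']; linarith
  have hbU := h.bg_nonneg hU hδ.le n y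
  have hbV := h.bg_nonneg hV hδ.le n y
  have hUκ := h.lat.add_mem V hV _ (h.lat.smul_mem κ U hU)
  have hUκ' := h.lat.sub_mem hV (h.lat.smul_mem κ U hU)
  have yU : dU y ≤ ∑ x ∈ under n k y, dU x := h.dv_le hm hU θU hy k
  have yV : dV y ≤ ∑ x ∈ under n k y, dV x := h.dv_le hm hV θV hy k
  have yp : dp y ≤ ∑ x ∈ under n k y, dp x := h.dv_le hm hUκ θp hy k
  have ym : dm y ≤ ∑ x ∈ under n k y, dm x := h.dv_le hm hUκ' θm hy k
  by_cases hcase : c₂ / 2 * m y ≤ Dev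
  · -- the trivial case
    have e1 : m y ≤ 2 / c₂ * Dev := by
      rw [div_mul_eq_mul_div, le_div_iff₀ hc₂]
      linarith only [hcase]
    have e2 : 2 / c₂ * Dev ≤
        (4 / c₂ * G1 + 2 / c₂) * (bg hK A E U δ n y + bg hK A E V δ n y + Dev) := by
      have a0 : 0 < 4 / c₂ * G1 := by positivity
      have a1 : 2 / c₂ * Dev ≤ (4 / c₂ * G1 + 2 / c₂) * Dev :=
        mul_le_mul_of_nonneg_right (by linarith only [a0]) hDev0
      refine a1.trans (mul_le_mul_of_nonneg_left (by linarith only [hbU, hbV]) (by positivity))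
    linarith only [e1, e2, hε]
  push Not at hcase
  -- lower bounds for the densities
  have hlen : y.length = n := mem_words.1 hy
  have bU : c₂ / 2 ≤ θU := by
    have e1 : dU y = |ρ ^ n * E (U ∘ cell hK y) - θU * m y| := by rw [hdU, dv, hlen]
    have e2 := le_abs_self (ρ ^ n * E (U ∘ cell hK y) - θU * m y)
    rw [← e1] at e2
    have e3 : c₂ / 2 * m y ≤ θU * m y := by linarith only [e2, hUy, hcase, yU, hDev', sV, sp, sm']
    exact le_of_mul_le_mul_right e3 hmy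
  have bV : c₂ / 2 ≤ θV := by
    have e1 : dV y = |ρ ^ n * E (V ∘ cell hK y) - θV * m y| := by rw [hdV, dv, hlen]
    have e2 := le_abs_self (ρ ^ n * E (V ∘ cell hK y) - θV * m y)
    rw [← e1] at e2
    have e3 : c₂ / 2 * m y ≤ θV * m y := by linarith only [e2, hVy, hcase, yV, hDev', sU, sp, sm']
    exact le_of_mul_le_mul_right e3 hmy
  have eV := abs_le.1 (show |ρ ^ n * E (V ∘ cell hK y) - θV * m y| ≤ dV y by rw [hdV, dv, hlen])
  have ep := abs_le.1 (show |ρ ^ n * E ((V + κ • U) ∘ cell hK y) - θp * m y| ≤ dp y by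
    rw [hdp, dv, hlen])
  have em := abs_le.1 (show |ρ ^ n * E ((V - κ • U) ∘ cell hK y) - θm * m y| ≤ dm y by
    rw [hdm, dv, hlen])
  set θ₁ : ℝ := max (θp - θV) 0 with hθ₁
  set θ₂ : ℝ := max (θm - θV) 0 with hθ₂
  have hθ₁0 : 0 ≤ θ₁ := le_max_right _ _
  have hθ₂0 : 0 ≤ θ₂ := le_max_right _ _
  have hgg : 0 ≤ Cg * κ ^ 2 * m y := mul_nonneg (mul_nonneg hCg.le (sq_nonneg κ)) hmy.le
  have q1 : θ₁ * m y ≤ Cg * κ ^ 2 * m y + Dev := by
    rw [hθ₁, max_mul_of_nonneg _ _ hmy.le, zero_mul]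
    refine max_le ?_ (add_nonneg hgg hDev0)
    rw [sub_mul]
    have f1 := eV.2
    have f2 := ep.1
    linarith only [f1, f2, hp', hDev', yV, yp, sU, sm']
  have q2 : θ₂ * m y ≤ Cg * κ ^ 2 * m y + Dev := by
    rw [hθ₂, max_mul_of_nonneg _ _ hmy.le, zero_mul]
    refine max_le ?_ (add_nonneg hgg hDev0)
    rw [sub_mul]
    have f1 := eV.2
    have f2 := em.1
    linarith only [f1, f2, hm', hDev', yV, ym, sU, sp]
  set D₀ : ℝ := CM * (2 * Cg * κ ^ 2 * m y + 2 * Dev) + Dev with hD₀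
  have hD₀0 : 0 ≤ D₀ := by
    have e1 : 2 * Cg * κ ^ 2 * m y = 2 * (Cg * κ ^ 2 * m y) := by ring
    have e2 : 0 ≤ 2 * Cg * κ ^ 2 * m y + 2 * Dev := by
      rw [e1]
      linarith only [hgg, hDev0]
    exact add_nonneg (mul_nonneg hCM.le e2) hDev0
  have hD₀₁ : D₀ ≤ D₁ := by
    rw [hD₀, hD₁]
    have e1 : CM * (2 * Cg * κ ^ 2 * m y + 2 * Dev) ≤ CM * (2 * Cg * κ ^ 2 * m y + c₂ * m y) :=
      mul_le_mul_of_nonneg_left (by linarith only [hcase]) hCM.le
    have e2 : CM * (2 * Cg * κ ^ 2 + c₂) * m y = CM * (2 * Cg * κ ^ 2 * m y + c₂ * m y) := by ring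
    have e3 : c₂ / 2 * m y ≤ c₂ * m y := by
      have : 0 < c₂ * m y := by positivity
      linarith only [this]
    rw [e2]
    linarith only [e1, e3, hcase]
  have hρk : 0 < ρ ^ (n + k) := by positivity
  set D : List (Fin 8) → ℝ := fun x => ((θ₁ + θ₂) * m x + (dV x + dp x + dm x)) / ρ ^ (n + k) with hD
  have hDx : ∀ x ∈ under n k y, 0 ≤ D x ∧
      E ((V + κ • U) ∘ cell hK x) ≤ E (V ∘ cell hK x) + D x ∧
      E ((V - κ • U) ∘ cell hK x) ≤ E (V ∘ cell hK x) + D x := by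
    intro x hx
    have hlx : x.length = n + k := mem_words.1 (under_subset n k y hx)
    have mx := hmn x
    have n1 := nV x
    have n2 := np x
    have n3 := nm x
    have e1 := abs_le.1 (show |ρ ^ (n + k) * E (V ∘ cell hK x) - θV * m x| ≤ dV x by
      rw [hdV, dv, hlx])
    have e2 := abs_le.1 (show |ρ ^ (n + k) * E ((V + κ • U) ∘ cell hK x) - θp * m x| ≤ dp x by
      rw [hdp, dv, hlx])
    have e3 := abs_le.1 (show |ρ ^ (n + k) * E ((V - κ • U) ∘ cell hK x) - θm * m x| ≤ dm x by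
      rw [hdm, dv, hlx])
    have e4 : (θp - θV) * m x ≤ θ₁ * m x := mul_le_mul_of_nonneg_right (le_max_left _ _) mx
    have e5 : (θm - θV) * m x ≤ θ₂ * m x := mul_le_mul_of_nonneg_right (le_max_left _ _) mx
    have e6 : 0 ≤ θ₁ * m x := mul_nonneg hθ₁0 mx
    have e7 : 0 ≤ θ₂ * m x := mul_nonneg hθ₂0 mx
    have e8 : (θ₁ + θ₂) * m x = θ₁ * m x + θ₂ * m x := add_mul _ _ _
    rw [sub_mul] at e4 e5
    have key : ∀ e : ℝ, ρ ^ (n + k) * e ≤ ρ ^ (n + k) * E (V ∘ cell hK x) +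
        ((θ₁ + θ₂) * m x + (dV x + dp x + dm x)) → e ≤ E (V ∘ cell hK x) + D x := by
      intro e he
      rw [hD]
      simp only
      refine le_of_mul_le_mul_left ?_ hρk
      rw [mul_add, mul_div_cancel₀ _ hρk.ne']
      exact he
    refine ⟨?_, key _ ?_, key _ ?_⟩
    · rw [hD]
      simp only
      rw [e8]
      exact div_nonneg (add_nonneg (add_nonneg e6 e7) (add_nonneg (add_nonneg n1 n2) n3)) hρk.le
    · have f1 := e1.1
      have f2 := e2.2
      rw [e8]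
      linarith only [f1, f2, e4, e7, n3]
    · have f1 := e1.1
      have f2 := e3.2
      rw [e8]
      linarith only [f1, f2, e5, e6, n2]
  have hmnb : ∑ x ∈ under n k y, m x ≤ CM * m y := by
    rw [sum_under_tree hm]
    exact (Finset.sum_le_sum_of_subset_of_nonneg nbh_mono fun w _ _ => hmn w).trans hdbl
  have hDsum : ρ ^ (n + k) * ∑ x ∈ under n k y, D x ≤ D₀ := by
    rw [hD, ← Finset.sum_div, mul_div_cancel₀ _ hρk.ne', Finset.sum_add_distrib, ← Finset.mul_sum,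
      Finset.sum_add_distrib, Finset.sum_add_distrib]
    have e1 : (θ₁ + θ₂) * ∑ x ∈ under n k y, m x ≤ (θ₁ + θ₂) * (CM * m y) :=
      mul_le_mul_of_nonneg_left hmnb (add_nonneg hθ₁0 hθ₂0)
    have e2 : (θ₁ + θ₂) * (CM * m y) ≤ CM * (2 * Cg * κ ^ 2 * m y + 2 * Dev) := by
      have : (θ₁ + θ₂) * (CM * m y) = CM * (θ₁ * m y + θ₂ * m y) := by ring
      rw [this]
      exact mul_le_mul_of_nonneg_left (by linarith only [q1, q2]) hCM.le
    rw [hD₀]
    linarith only [e1, e2, hDev', sU]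
  obtain ⟨XU, hXU, XV, hXV, hcov, hEU, hEV⟩ := hk₀ k hk D₀ hD₀₁ hD₀0 D hDx hDsum
  -- the masses of the two parts
  have part : ∀ (f : K → ℝ) (θ : ℝ) (X : Finset (List (Fin 8))), c₂ / 2 ≤ θ →
      X ⊆ (words (n + k)).filter (fun x => x.take n = y) →
      c₂ / 2 * ∑ x ∈ X, m x ≤ ρ ^ (n + k) * ∑ x ∈ X, E (f ∘ cell hK x) +
        ∑ x ∈ under n k y, dv hK ρ E m f θ x := by
    intro f θ X hθ hX
    have e1 : ∀ x ∈ X, c₂ / 2 * m x ≤ ρ ^ (n + k) * E (f ∘ cell hK x) + dv hK ρ E m f θ x := by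
      intro x hx
      have hlx : x.length = n + k := mem_words.1 (Finset.mem_filter.1 (hX hx)).1
      have e1 := abs_le.1 (show |ρ ^ (n + k) * E (f ∘ cell hK x) - θ * m x| ≤
        dv hK ρ E m f θ x by rw [dv, hlx])
      have e2 : c₂ / 2 * m x ≤ θ * m x := mul_le_mul_of_nonneg_right hθ (hmn x)
      have e3 := e1.1
      linarith only [e2, e3]
    have e2 := Finset.sum_le_sum e1
    rw [Finset.sum_add_distrib, ← Finset.mul_sum, ← Finset.mul_sum] at e2
    have e3 : ∑ x ∈ X, dv hK ρ E m f θ x ≤ ∑ x ∈ under n k y, dv hK ρ E m f θ x :=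
      Finset.sum_le_sum_of_subset_of_nonneg (hX.trans filter_take_subset)
        fun x _ _ => dv_nonneg m f θ x
    linarith only [e2, e3]
  have pU := part U θU XU bU hXU
  have pV := part V θV XV bV hXV
  have hmy2 : m y ≤ ∑ x ∈ XU, m x + ∑ x ∈ XV, m x := by
    have e1 : m y = ∑ x ∈ (words (n + k)).filter (fun x => x.take n = y), m x := by
      rw [sum_filter_take k hy, hm.sum]
    rw [e1]
    have e2 := Finset.sum_union_inter (s₁ := XU) (s₂ := XV) (f := m)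
    have e3 : 0 ≤ ∑ x ∈ XU ∩ XV, m x := Finset.sum_nonneg fun x _ => hmn x
    have e4 : ∑ x ∈ (words (n + k)).filter (fun x => x.take n = y), m x ≤ ∑ x ∈ XU ∪ XV, m x :=
      Finset.sum_le_sum_of_subset_of_nonneg hcov fun x _ _ => hmn x
    linarith only [e2, e3, e4]
  -- the losses
  have l1 : 2 * N * (P * (Cb * (τ * w / r)) * M) ≤ c₂ / 16 * m y := by
    have e : 2 * N * (P * (Cb * (τ * w / r)) * M) = 4 * (P * Cb * R₀ * MM) * τ * m y := by
      have : τ * w / r = τ * (w / r) := by ring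
      rw [this, hwr, hM]
      field_simp
      ring
    rw [e]
    exact mul_le_mul_of_nonneg_right hτ3 hmy.le
  have l2 : Jb.card * (P * (Cb * (w / r)) * M) ≤ c₂ / 16 * m y := by
    calc Jb.card * (P * (Cb * (w / r)) * M) ≤
        2 * Cd * (8 / 3) ^ n₀ * (P * (Cb * (w / r)) * M) :=
          mul_le_mul_of_nonneg_right hJbc (mul_nonneg (mul_nonneg hP0.le
            (mul_nonneg hCb0.le (div_nonneg hw0.le hr0.le))) hM0.le)
      _ = 4 * (Cd * P * Cb * R₀ * MM) * (8 / 9) ^ n₀ * m y := by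
          rw [hwr, hM, hN3]
          have : (8 / 9 : ℝ) ^ n₀ = (8 / 3) ^ n₀ / 3 ^ n₀ := by
            rw [← div_pow]
            norm_num
          rw [this]
          field_simp
          ring
      _ ≤ c₂ / 16 * m y := mul_le_mul_of_nonneg_right hn₀2 hmy.le
  have l3 : N / t * D₀ ≤ c₂ / 16 * m y + N / t * (2 * CM + 1) * Dev := by
    have e : N / t * D₀ = N / t * (2 * CM * Cg * κ ^ 2) * m y + N / t * (2 * CM + 1) * Dev := by
      rw [hD₀]
      ring
    rw [e]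
    exact add_le_add (mul_le_mul_of_nonneg_right hNt hmy.le) le_rfl
  have l4 : (2 + 2 * N + Jb.card) * bg hK A E U δ n y ≤ (2 + 3 * N) * bg hK A E U δ n y :=
    mul_le_mul_of_nonneg_right (by linarith only [hJbN]) hbU
  have l5 : (5 * N + 1 + Jb.card) * η ≤ (5 * N + 1 + N) * η :=
    mul_le_mul_of_nonneg_right (by linarith only [hJbN]) hη0.le
  have hG2η : G2 * η = c₂ / 4 * ε := by
    rw [hη]
    field_simp
  have hDl : ∑ x ∈ under n k y, dU x + ∑ x ∈ under n k y, dV x ≤ Dev := by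
    linarith only [hDev', sp, sm']
  have s1 := hEU.trans (add_le_add (add_le_add l4 (add_le_add l1 l2)) l5)
  have s2 := hEV.trans (add_le_add (add_le_add le_rfl l3) le_rfl)
  have e1 : c₂ / 2 * m y ≤ c₂ / 2 * (∑ x ∈ XU, m x) + c₂ / 2 * ∑ x ∈ XV, m x := by
    rw [← mul_add]
    exact mul_le_mul_of_nonneg_left hmy2 (by positivity)
  have e2 : (2 + 3 * N) * bg hK A E U δ n y ≤ G1 * bg hK A E U δ n y := by
    refine mul_le_mul_of_nonneg_right ?_ hbU
    rw [hG1]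
    have : 0 < N / t * (2 * CM + 2) := by positivity
    linarith only [this]
  have e3 : (2 + N / t) * bg hK A E V δ n y ≤ G1 * bg hK A E V δ n y := by
    refine mul_le_mul_of_nonneg_right ?_ hbV
    rw [hG1]
    have : 0 < N / t * (2 * CM + 1) := by positivity
    linarith only [this, hNr]
  have e4 : (N / t * (2 * CM + 1) + 1) * Dev ≤ G1 * Dev := by
    refine mul_le_mul_of_nonneg_right ?_ hDev0
    rw [hG1]
    linarith only [hNt0, hNr]
  have e5 : (5 * N + 1 + N) * η + (2 + N / t) * η = G2 * η := by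
    rw [hG2]
    ring
  have e6 : 0 ≤ c₂ * m y := by positivity
  have main : c₂ / 4 * m y ≤ G1 * (bg hK A E U δ n y + bg hK A E V δ n y + Dev) + c₂ / 4 * ε := by
    rw [← hG2η]
    linarith only [s1, s2, e1, e2, e3, e4, e5, e6, pU, pV, hDl]
  have hCs : 4 / c₂ * (G1 * (bg hK A E U δ n y + bg hK A E V δ n y + Dev)) ≤
      (4 / c₂ * G1 + 2 / c₂) * (bg hK A E U δ n y + bg hK A E V δ n y + Dev) := by
    have : 0 ≤ 2 / c₂ * (bg hK A E U δ n y + bg hK A E V δ n y + Dev) :=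
      mul_nonneg (div_nonneg zero_le_two hc₂.le) (add_nonneg (add_nonneg hbU hbV) hDev0)
    linarith only [this]
  have e7 : m y = 4 / c₂ * (c₂ / 4 * m y) := by field_simp
  have e8 : 4 / c₂ * (c₂ / 4 * m y) ≤
      4 / c₂ * (G1 * (bg hK A E U δ n y + bg hK A E V δ n y + Dev) + c₂ / 4 * ε) :=
    mul_le_mul_of_nonneg_left main (div_nonneg zero_le_four hc₂.le)
  have e9 : 4 / c₂ * (c₂ / 4 * ε) = ε := by field_simp
  rw [mul_add, e9] at e8
  linarith only [e7, e8, hCs]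

end Reg

end Pool.Agent.SierpinskiCarpet
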