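import Pool.Agent.helper33.SRStrip

/-!
# The gain obtained by draining a strip of values
-/

open MeasureTheory Filter Topology

namespace Pool.Agent.SierpinskiCarpet

variable {K : Set (ℝ × ℝ)} {hK : IsCarpet K} {A : Set (K → ℝ)} {p ρ : ℝ} {E : (K → ℝ) → ℝ}

namespace Reg

variable (h : Reg hK p ρ A E)

include h

/-- Draining a strip of values. -/
theorem strip_gain {n : ℕ} {y : List (Fin 8)} (hy : y ∈ words n) {U V : K → ℝ} (hU : U ∈ A)
    (hV : V ∈ A) {s w m a R t M δ c : ℝ} (hm : 0 < m) (hw : 2 * m ≤ w) (hR : 0 < R)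
    (ht : 0 ≤ t) (ht1 : t ≤ 1) (hM : 0 < M) (hδ : 0 ≤ δ) (hc : c = t * R / m)
    (hcont : ∀ C : Set K, IsClosed C → IsPreconnected C → (∃ x ∈ C, gd y x ≤ 1) →
      (∃ x ∈ C, 3 ≤ gd y x) → ¬∀ x ∈ C, s ≤ U x ∧ U x ≤ s + w)
    (hVδ : ∀ x, gd y x ≤ 3 → |V x - a| ≤ δ) {η : ℝ} (hη : 0 < η) :
    ∃ k₀, ∀ k ≥ k₀, ∀ D₀ : ℝ, ρ ^ n * enb hK E V y + D₀ ≤ M →
      ∀ D : List (Fin 8) → ℝ, (∀ x ∈ under n k y, 0 ≤ D x ∧
      E ((V + c • U) ∘ cell hK x) ≤ E (V ∘ cell hK x) + D x ∧
      E ((V - c • U) ∘ cell hK x) ≤ E (V ∘ cell hK x) + D x) →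
      ρ ^ (n + k) * ∑ x ∈ under n k y, D x ≤ D₀ → ∀ X ⊆ words (n + k),
      (∀ x ∈ X, x.take n = y ∧ ∀ z, s + m ≤ U (cell hK x z) ∧ U (cell hK x z) ≤ s + w - m ∧
        |V (cell hK x z) - a| ≤ R) →
      Gain hK A E V δ n y ((1 - (1 - t) ^ p) * (ρ ^ (n + k) * ∑ x ∈ X, E (V ∘ cell hK x)) -
        D₀ - η) := by
  classical
  have := hK.instCompact
  have hp1 := h.one_lt
  have hp := h.p_pos
  have hρ := h.rho_pos
  have hUc := h.lat.cont U hU
  have hc0 : 0 ≤ c := by rw [hc]; positivity
  have hcm : c * m = t * R := by rw [hc]; field_simp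
  obtain ⟨S₁, S₂, c1, c2, hd, hS, hP, hQ⟩ := exists_sep (S := {x | s ≤ U x ∧ U x ≤ s + w})
    (P := {x | gd y x ≤ 1}) (Q := {x | 3 ≤ gd y x})
    ((isClosed_le continuous_const hUc).inter (isClosed_le hUc continuous_const))
    (isClosed_le (continuous_gd y) continuous_const)
    (isClosed_le continuous_const (continuous_gd y)) (by
      rintro C hC hCc hCp ⟨x, hx, hx1⟩ ⟨x', hx', hx3⟩
      exact hcont C hCc hCp ⟨x, hx, hx1⟩ ⟨x', hx', hx3⟩ fun x hx => hC hx)
  -- the functions
  set W : K → ℝ := c • ((fun z => nc s (s + m) (U z)) - fun z => nc (s + w - m) (s + w) (U z))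
    with hW
  have hWA : W ∈ A := h.lat.smul_mem c _ (h.lat.sub_mem (h.nc_mem hU _ _) (h.nc_mem hU _ _))
  have hWt : ∀ z, W z = c * trap s w m (U z) := fun z => rfl
  have hW0 : ∀ z, 0 ≤ W z := fun z => by
    rw [hWt]
    exact mul_nonneg hc0 (trap_bounds hm.le hw).1
  set D' : K → ℝ := fun z => ((-t) • fun z => max (min (V z) (a + R)) (a - R)) z + t * a with hD'
  have hD'A : D' ∈ A := h.lat.add_const_mem (h.lat.smul_mem _ _ (h.clamp_mem hV _ _)) _
  have hD't : ∀ z, D' z = t * (a - max (min (V z) (a + R)) (a - R)) := fun z => by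
    simp only [hD', Pi.smul_apply, smul_eq_mul]
    ring
  set q₁ : K → ℝ := D' - W with hq₁
  set q₂ : K → ℝ := D' + W with hq₂
  have hq₁A : q₁ ∈ A := h.lat.sub_mem hD'A hWA
  have hq₂A : q₂ ∈ A := h.lat.add_mem _ hD'A _ hWA
  set P₁ : K → ℝ := fun z => max (q₁ z) 0 with hP₁
  set P₂ : K → ℝ := fun z => max ((-q₂) z) 0 with hP₂
  have hP₁A : P₁ ∈ A := h.lat.max_mem hq₁A (h.lat.const_mem 0)
  have hP₂A : P₂ ∈ A := h.lat.max_mem (h.neg_mem hq₂A) (h.lat.const_mem 0)
  set φ₀ : K → ℝ := D' - P₁ + P₂ with hφ₀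
  have hφ₀A : φ₀ ∈ A := h.lat.add_mem _ (h.lat.sub_mem hD'A hP₁A) _ hP₂A
  have hφ₀z : ∀ z, φ₀ z = D' z - max (D' z - W z) 0 + max (-(D' z + W z)) 0 := fun z => rfl
  have hφ₀D : ∀ z, |φ₀ z| ≤ |D' z| := by
    intro z
    rw [hφ₀z]
    have := hW0 z
    rcases le_total (D' z - W z) 0 with e1 | e1
    · rw [max_eq_right e1]
      rcases le_total (-(D' z + W z)) 0 with e2 | e2
      · rw [max_eq_right e2]
        simp
      · rw [max_eq_left e2]
        have e3 : D' z - 0 + -(D' z + W z) = -W z := by ring
        rw [e3, abs_neg, abs_of_nonneg (hW0 z), le_abs]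
        right
        linarith
    · rw [max_eq_left e1, max_eq_right (by linarith)]
      have e3 : D' z - (D' z - W z) + 0 = W z := by ring
      rw [e3, abs_of_nonneg (hW0 z), le_abs]
      left
      linarith
  have hφ₀0 : ∀ z, z ∉ S₁ → z ∉ S₂ → φ₀ z = 0 := by
    intro z h1 h2
    have hout : U z < s ∨ s + w < U z := by
      by_contra hcon
      push Not at hcon
      have : z ∈ S₁ ∪ S₂ := by rw [hS]; exact ⟨hcon.1, hcon.2⟩
      rcases this with h | h
      exacts [h1 h, h2 h]
    have hWz : W z = 0 := by rw [hWt, trap_outside hm.le hw hout, mul_zero]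
    rw [hφ₀z, hWz, sub_zero, add_zero]
    rcases le_total (D' z) 0 with e | e
    · rw [max_eq_right e, max_eq_left (by linarith)]
      ring
    · rw [max_eq_left e, max_eq_right (by linarith)]
      ring
  set φ : K → ℝ := part S₁ φ₀ with hφ
  have hφA : φ ∈ A := h.lat.part_mem c1 c2 hd hφ₀A hφ₀0
  have hVφ : V + φ ∈ A := h.lat.add_mem V hV _ hφA
  have hS₁3 : ∀ x ∈ S₁, gd y x ≤ 3 := by
    intro x hx
    by_contra hlt
    have : x ∈ {x | s ≤ U x ∧ U x ≤ s + w} := by rw [← hS]; exact Or.inl hx
    exact Set.disjoint_left.1 hd hx (hQ ⟨this, (not_le.1 hlt).le⟩)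
  have hsupp : ∀ w' ∈ words n, ¬Nb 1 y w' → ∀ z, φ (cell hK w' z) = 0 := fun w' hw' hnb z => by
    have h3 : 3 ≤ gd y (cell hK w' z) :=
      three_le_gd (by rw [mem_words.1 hw', mem_words.1 hy]) hnb z
    by_cases hx : cell hK w' z ∈ S₁
    · exfalso
      have : cell hK w' z ∈ {x | s ≤ U x ∧ U x ≤ s + w} := by rw [← hS]; exact Or.inl hx
      exact Set.disjoint_left.1 hd hx (hQ ⟨this, h3⟩)
    · exact part_of_notMem hx
  have hsize : ∀ x, |φ x| ≤ δ := by
    intro x
    by_cases hx : x ∈ S₁
    · rw [hφ, part_of_mem hx]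
      refine (hφ₀D x).trans (le_trans ?_ (hVδ x (hS₁3 x hx)))
      rw [hD't, abs_mul, abs_of_nonneg ht]
      have e1 : |a - max (min (V x) (a + R)) (a - R)| ≤ |V x - a| := by
        rcases le_total (V x) (a + R) with e | e
        · rw [min_eq_left e]
          rcases le_total (V x) (a - R) with e' | e'
          · rw [max_eq_right e', abs_of_nonneg (by linarith), abs_of_nonpos (by linarith)]
            linarith
          · rw [max_eq_left e', abs_sub_comm]
        · rw [min_eq_right e, max_eq_left (by linarith), abs_of_nonpos (by linarith),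
            abs_of_nonneg (by linarith)]
          linarith
      have e2 := abs_nonneg (a - max (min (V x) (a + R)) (a - R))
      exact (mul_le_of_le_one_left e2 ht1).trans e1
    · rw [hφ, part_of_notMem hx, abs_zero]
      exact hδ
  -- small parameters
  set c₀ : ℝ := p * 2 ^ (p - 1) with hc₀
  have hc₀0 : 0 < c₀ := by positivity
  set ε₁ : ℝ := min 1 (η / (c₀ * M)) with hε₁
  have hε₁0 : 0 < ε₁ := lt_min (by norm_num) (by positivity)
  have hε₁h : ε₁ ≤ 1 := min_le_left _ _
  have hε₁η : c₀ * ε₁ * M ≤ η := by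
    have : ε₁ ≤ η / (c₀ * M) := min_le_right _ _
    rw [le_div_iff₀ (by positivity)] at this
    linarith
  set κ : ℝ := ε₁ ^ p * M / (4 ^ p * (4 + 4 * (2 * c) ^ p)) with hκ
  have hκ0 : 0 < κ := by positivity
  obtain ⟨k₁, hk₁⟩ := h.sum_cross hq₁A 0 hκ0
  obtain ⟨k₂, hk₂⟩ := h.sum_cross hq₂A 0 hκ0
  obtain ⟨k₃, hk₃⟩ := h.sum_cross hV (a - R) hκ0
  obtain ⟨k₄, hk₄⟩ := h.sum_cross hV (a + R) hκ0
  obtain ⟨k₅, hk₅⟩ := h.sum_cross hU s hκ0
  obtain ⟨k₆, hk₆⟩ := h.sum_cross hU (s + m) hκ0
  obtain ⟨k₇, hk₇⟩ := h.sum_cross hU (s + w - m) hκ0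
  obtain ⟨k₈, hk₈⟩ := h.sum_cross hU (s + w) hκ0
  obtain ⟨k₉, hk₉⟩ := exists_mesh_sep hK c1 c2 hd
  refine ⟨k₁ + k₂ + k₃ + k₄ + k₅ + k₆ + k₇ + k₈ + k₉, fun k hk D₀ hVM D hD hD₀ X hX hXc => ?_⟩
  have hXu : X ⊆ under n k y := fun x hx => Finset.mem_filter.2 ⟨hX hx, by
    rw [(hXc x hx).1]
    exact Nb.refl zero_le_one y⟩
  have hnn : ∀ {f : K → ℝ}, f ∈ A → ∀ x, 0 ≤ E (f ∘ cell hK x) := fun hf _ => h.words_mem hf
  set α : List (Fin 8) → ℝ := fun x =>
    if x ∈ X then (1 - t) ^ p * E (V ∘ cell hK x) else E (V ∘ cell hK x) + D x with hα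
  set b₁ : List (Fin 8) → ℝ := fun x =>
    if Cross hK q₁ 0 x then E (q₁ ∘ cell hK x) ^ (1 / p) else 0 with hb₁
  set b₂ : List (Fin 8) → ℝ := fun x =>
    if Cross hK q₂ 0 x then E (q₂ ∘ cell hK x) ^ (1 / p) else 0 with hb₂
  set b₃ : List (Fin 8) → ℝ := fun x =>
    if Cross hK V (a - R) x ∨ Cross hK V (a + R) x then E (V ∘ cell hK x) ^ (1 / p) else 0 with hb₃
  set b₄ : List (Fin 8) → ℝ := fun x =>
    if (Cross hK U s x ∨ Cross hK U (s + m) x) ∨ (Cross hK U (s + w - m) x ∨ Cross hK U (s + w) x)
      then 2 * |c| * E (U ∘ cell hK x) ^ (1 / p) else 0 with hb₄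
  set b : List (Fin 8) → ℝ := fun x => b₁ x + b₂ x + b₃ x + b₄ x with hb
  have hb₁0 : ∀ x, 0 ≤ b₁ x := fun x => by
    simp only [hb₁]
    split_ifs
    exacts [Real.rpow_nonneg (hnn hq₁A x) _, le_rfl]
  have hb₂0 : ∀ x, 0 ≤ b₂ x := fun x => by
    simp only [hb₂]
    split_ifs
    exacts [Real.rpow_nonneg (hnn hq₂A x) _, le_rfl]
  have hb₃0 : ∀ x, 0 ≤ b₃ x := fun x => by
    simp only [hb₃]
    split_ifs
    exacts [Real.rpow_nonneg (hnn hV x) _, le_rfl]
  have hb₄0 : ∀ x, 0 ≤ b₄ x := fun x => by
    simp only [hb₄]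
    split_ifs
    exacts [mul_nonneg (by positivity) (Real.rpow_nonneg (hnn hU x) _), le_rfl]
  have ht1' : (1 - t) ^ p ≤ 1 :=
    Real.rpow_le_one (sub_nonneg.2 ht1) (sub_le_self 1 ht) hp.le
  have ht0' : 0 ≤ (1 - t) ^ p := Real.rpow_nonneg (sub_nonneg.2 ht1) _
  have hα0 : ∀ x ∈ under n k y, 0 ≤ α x := fun x hx => by
    have f1 := hnn hV x
    have f2 := (hD x hx).1
    simp only [hα]
    split_ifs
    exacts [mul_nonneg ht0' f1, add_nonneg f1 f2]
  have hb0 : ∀ x ∈ under n k y, 0 ≤ b x := fun x _ => by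
    exact add_nonneg (add_nonneg (add_nonneg (hb₁0 x) (hb₂0 x)) (hb₃0 x)) (hb₄0 x)
  have hle : ∀ x ∈ under n k y, E ((V + φ) ∘ cell hK x) ^ (1 / p) ≤ α x ^ (1 / p) + b x := by
    intro x hx
    have hVx := h.lat.cell_mem hV x
    by_cases hxX : x ∈ X
    · obtain ⟨hty, hz⟩ := hXc x hxX
      obtain ⟨w', hw', x', hx', rfl, ht'⟩ := exists_take (hX hxX)
      rw [ht'] at hty
      subst hty
      have e : (V + φ) ∘ cell hK (w' ++ x') =
          fun z => ((1 - t) • (V ∘ cell hK (w' ++ x'))) z + t * a := by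
        funext z
        obtain ⟨z1, z2, z3⟩ := hz z
        set X' := cell hK (w' ++ x') z with hX'
        have hgd : gd w' X' ≤ 1 := by
          rw [hX', cell_append]
          exact gd_cell_le hK w' _
        have hS1 : X' ∈ S₁ := hP ⟨⟨by linarith only [z1, hm], by linarith only [z2, hm]⟩, hgd⟩
        rw [abs_le] at z3
        have hDz : D' X' = t * (a - V X') := by
          rw [hD't, min_eq_left (by linarith only [z3.2]), max_eq_left (by linarith only [z3.1])]
        have hWz : W X' = t * R := by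
          rw [hWt, trap_plateau hm.le z1 z2, hcm]
        have hle1 : D' X' - W X' ≤ 0 := by
          rw [hDz, hWz, ← mul_sub]
          exact mul_nonpos_of_nonneg_of_nonpos ht (by linarith only [z3.1])
        have hle2 : -(D' X' + W X') ≤ 0 := by
          rw [hDz, hWz, ← mul_add, neg_nonpos]
          exact mul_nonneg ht (by linarith only [z3.2])
        simp only [Function.comp_apply, Pi.add_apply, hφ, Pi.smul_apply, smul_eq_mul]
        rw [← hX', part_of_mem hS1, hφ₀z, max_eq_right hle1, max_eq_right hle2, hDz]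
        ring
      have hαx : α (w' ++ x') = (1 - t) ^ p * E (V ∘ cell hK (w' ++ x')) := if_pos hxX
      rw [e, h.add_const _ (h.lat.smul_mem _ _ hVx), h.smul _ hVx, abs_of_nonneg (by linarith), hαx]
      have := hb0 _ hx
      linarith
    · have hαx : α x = E (V ∘ cell hK x) + D x := if_neg hxX
      obtain ⟨d1, d2, d3⟩ := hD x hx
      rw [hαx]
      have hroot : E (V ∘ cell hK x) ^ (1 / p) ≤ (E (V ∘ cell hK x) + D x) ^ (1 / p) :=
        Real.rpow_le_rpow (hnn hV x) (by linarith) (by positivity)
      have g1 := hb₁0 x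
      have g2 := hb₂0 x
      have g3 := hb₃0 x
      have g4 := hb₄0 x
      simp only [hb]
      rcases hk₉ (n + k) (by omega) x (under_subset n k y hx) with av | av
      · have e : (V + φ) ∘ cell hK x = V ∘ cell hK x := by
          funext z
          simp only [Function.comp_apply, Pi.add_apply, hφ]
          rw [part_of_notMem (av z), add_zero]
        rw [e]
        linarith
      · have e : (V + φ) ∘ cell hK x = fun z => V (cell hK x z) + φ₀ (cell hK x z) := by
          have e1 : φ ∘ cell hK x = φ₀ ∘ cell hK x := part_cell_left hφ₀0 av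
          funext z
          have := congrFun e1 z
          simp only [Function.comp_apply] at this
          simp only [Function.comp_apply, Pi.add_apply]
          rw [this]
        rw [e]
        by_cases p1 : ∀ z, 0 < q₁ (cell hK x z)
        · -- the function is `V + W`
          have e2 : (fun z => V (cell hK x z) + φ₀ (cell hK x z)) =
              fun z => V (cell hK x z) + c * trap s w m (U (cell hK x z)) := by
            funext z
            have a1 := p1 z
            have a2 := hW0 (cell hK x z)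
            simp only [hq₁, Pi.sub_apply] at a1
            rw [hφ₀z, max_eq_left a1.le, max_eq_right (by linarith only [a1, a2]), ← hWt]
            ring
          rw [e2]
          have := h.trap_cell (s := s) (w := w) (m := m) (c := c) (x := x) hU hV hm.le hw d1 d2 d3
          simp only [hb₄] at g4 ⊢
          linarith
        by_cases p2 : ∀ z, q₂ (cell hK x z) < 0
        · have e2 : (fun z => V (cell hK x z) + φ₀ (cell hK x z)) =
              fun z => V (cell hK x z) + (-c) * trap s w m (U (cell hK x z)) := by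
            funext z
            have a1 := p2 z
            have a2 := hW0 (cell hK x z)
            simp only [hq₂, Pi.add_apply] at a1
            have a3 : W (cell hK x z) = c * trap s w m (U (cell hK x z)) := hWt _
            rw [hφ₀z, max_eq_right (by linarith only [a1, a2]), max_eq_left (by linarith only [a1]),
              neg_mul, ← a3]
            ring
          rw [e2]
          have e3 : V + (-c) • U = V - c • U := by rw [neg_smul, sub_eq_add_neg]
          have e4 : V - (-c) • U = V + c • U := by rw [neg_smul, sub_neg_eq_add]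
          have := h.trap_cell (s := s) (w := w) (m := m) (c := -c) (x := x) hU hV hm.le hw d1
            (by rw [e3]; exact d3) (by rw [e4]; exact d2)
          rw [abs_neg] at this
          simp only [hb₄] at g4 ⊢
          linarith
        -- the general case
        have hVD : (fun z => V z + t * (a - max (min (V z) (a + R)) (a - R))) ∈ A := by
          have := h.lat.add_mem _ hV _ hD'A
          refine (congrArg (· ∈ A) ?_).mp this
          funext z
          rw [Pi.add_apply, hD't]
        have e2 : (fun z => V (cell hK x z) + φ₀ (cell hK x z)) =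
            (fun z => V (cell hK x z) +
              t * (a - max (min (V (cell hK x z)) (a + R)) (a - R))) -
              P₁ ∘ cell hK x + P₂ ∘ cell hK x := by
          funext z
          simp only [Pi.add_apply, Pi.sub_apply, Function.comp_apply, hφ₀]
          rw [hD't]
          ring
        have m1 := h.lat.cell_mem hVD x
        have m2 := h.lat.cell_mem hP₁A x
        have m3 := h.lat.cell_mem hP₂A x
        have s1 := h.subadd _ (h.lat.sub_mem m1 m2) _ m3
        have s2 := h.sub_rpow_le m1 m2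
        have s3 := h.drain_cell hV hR.le ht ht1 (x := x) (a := a)
        have s4 : E (P₁ ∘ cell hK x) ^ (1 / p) ≤ b₁ x := by
          simp only [hb₁]
          split_ifs with hcr
          · exact Real.rpow_le_rpow (h.nonneg _ m2) (h.cut' (h.lat.cell_mem hq₁A x) 0)
              (by positivity)
          · have hneg : ∀ z, q₁ (cell hK x z) < 0 := by
              rcases not_cross hcr with b | b
              · exact absurd b p1
              · exact b
            have : P₁ ∘ cell hK x = fun _ => 0 := by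
              funext z
              exact max_eq_right (hneg z).le
            rw [this, h.energy_const, Real.zero_rpow (by positivity)]
        have s5 : E (P₂ ∘ cell hK x) ^ (1 / p) ≤ b₂ x := by
          simp only [hb₂]
          split_ifs with hcr
          · have e5 : E ((-q₂) ∘ cell hK x) = E (q₂ ∘ cell hK x) :=
              h.energy_neg (h.lat.cell_mem hq₂A x)
            rw [← e5]
            exact Real.rpow_le_rpow (h.nonneg _ m3)
              (h.cut' (h.lat.cell_mem (h.neg_mem hq₂A) x) 0) (by positivity)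
          · have hpos : ∀ z, 0 < q₂ (cell hK x z) := by
              rcases not_cross hcr with b | b
              · exact b
              · exact absurd b p2
            have : P₂ ∘ cell hK x = fun _ => 0 := by
              funext z
              have := hpos z
              exact max_eq_right (by simp only [Pi.neg_apply]; linarith only [this])
            rw [this, h.energy_const, Real.zero_rpow (by positivity)]
        rw [e2]
        simp only [hb₃] at g3 ⊢
        have s1' : E ((fun z => V (cell hK x z) +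
            t * (a - max (min (V (cell hK x z)) (a + R)) (a - R))) - P₁ ∘ cell hK x +
            P₂ ∘ cell hK x) ^ (1 / p) ≤ _ := s1
        have s2' : E ((fun z => V z + t * (a - max (min (V z) (a + R)) (a - R))) ∘ cell hK x -
            P₁ ∘ cell hK x) ^ (1 / p) ≤ E (fun z => V (cell hK x z) +
            t * (a - max (min (V (cell hK x z)) (a + R)) (a - R))) ^ (1 / p) +
              E (P₁ ∘ cell hK x) ^ (1 / p) := s2
        linarith
  have hcard : ∀ {f : K → ℝ} (_ : f ∈ A), ρ ^ (n + k) * ∑ x ∈ under n k y, E (f ∘ cell hK x) =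
      ρ ^ n * enb hK E f y := fun hf => h.energy_under hf hy k
  have hYX : ρ ^ (n + k) * ∑ x ∈ under n k y, α x +
      (1 - (1 - t) ^ p) * (ρ ^ (n + k) * ∑ x ∈ X, E (V ∘ cell hK x)) ≤
      ρ ^ (n + k) * ∑ x ∈ under n k y, E (V ∘ cell hK x) + D₀ := by
    have e : ∑ x ∈ X, E (V ∘ cell hK x) =
        ∑ w ∈ under n k y, if w ∈ X then E (V ∘ cell hK w) else 0 := by
      rw [Finset.sum_ite_mem, Finset.inter_eq_right.2 hXu]
    have e2 : ∑ x ∈ under n k y, α x + (1 - (1 - t) ^ p) * ∑ x ∈ X, E (V ∘ cell hK x) ≤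
        ∑ x ∈ under n k y, E (V ∘ cell hK x) + ∑ x ∈ under n k y, D x := by
      rw [e, Finset.mul_sum, ← Finset.sum_add_distrib, ← Finset.sum_add_distrib]
      refine Finset.sum_le_sum fun x hx => ?_
      have := (hD x hx).1
      simp only [hα]
      split_ifs
      · linarith
      · linarith
    have e3 := mul_le_mul_of_nonneg_left e2 (show 0 ≤ ρ ^ (n + k) by positivity)
    rw [mul_add, mul_add] at e3
    linarith only [e3, hD₀]
  have hYM : ρ ^ (n + k) * ∑ x ∈ under n k y, α x ≤ M := by
    have e1 : 0 ≤ (1 - (1 - t) ^ p) * (ρ ^ (n + k) * ∑ x ∈ X, E (V ∘ cell hK x)) :=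
      mul_nonneg (sub_nonneg.2 ht1') (mul_nonneg (by positivity)
        (Finset.sum_nonneg fun x _ => hnn hV x))
    rw [hcard hV] at hYX
    linarith only [e1, hYX, hVM]
  have hZ : ρ ^ (n + k) * ∑ x ∈ under n k y, b x ^ p ≤ ε₁ ^ p * M := by
    have t1 : ∀ x, b x ^ p ≤ 4 ^ p * ((if Cross hK q₁ 0 x then E (q₁ ∘ cell hK x) else 0) +
        (if Cross hK q₂ 0 x then E (q₂ ∘ cell hK x) else 0) +
        ((if Cross hK V (a - R) x then E (V ∘ cell hK x) else 0) +
          if Cross hK V (a + R) x then E (V ∘ cell hK x) else 0) +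
        (2 * c) ^ p * (((if Cross hK U s x then E (U ∘ cell hK x) else 0) +
          if Cross hK U (s + m) x then E (U ∘ cell hK x) else 0) +
          ((if Cross hK U (s + w - m) x then E (U ∘ cell hK x) else 0) +
          if Cross hK U (s + w) x then E (U ∘ cell hK x) else 0))) := by
      intro x
      refine (add4_rpow_le hp (hb₁0 x) (hb₂0 x) (hb₃0 x) (hb₄0 x)).trans ?_
      have q1 : b₁ x ^ p = if Cross hK q₁ 0 x then E (q₁ ∘ cell hK x) else 0 := by
        simp only [hb₁]
        split_ifs
        · exact rpow_one_div_rpow hp (hnn hq₁A x)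
        · exact Real.zero_rpow hp.ne'
      have q2 : b₂ x ^ p = if Cross hK q₂ 0 x then E (q₂ ∘ cell hK x) else 0 := by
        simp only [hb₂]
        split_ifs
        · exact rpow_one_div_rpow hp (hnn hq₂A x)
        · exact Real.zero_rpow hp.ne'
      have q3 : b₃ x ^ p ≤ (if Cross hK V (a - R) x then E (V ∘ cell hK x) else 0) +
          if Cross hK V (a + R) x then E (V ∘ cell hK x) else 0 := by
        have := hnn hV x
        simp only [hb₃]
        by_cases c1 : Cross hK V (a - R) x <;> by_cases c2 : Cross hK V (a + R) x <;>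
          simp only [c1, c2, or_self, or_true, or_false, if_true, if_false,
            rpow_one_div_rpow hp (hnn hV x), Real.zero_rpow hp.ne'] <;> linarith only [this]
      have q4 : b₄ x ^ p ≤ (2 * c) ^ p * (((if Cross hK U s x then E (U ∘ cell hK x) else 0) +
          if Cross hK U (s + m) x then E (U ∘ cell hK x) else 0) +
          ((if Cross hK U (s + w - m) x then E (U ∘ cell hK x) else 0) +
          if Cross hK U (s + w) x then E (U ∘ cell hK x) else 0)) := by
        have hu := hnn hU x
        have hcp : 0 ≤ (2 * c) ^ p := Real.rpow_nonneg (mul_nonneg zero_le_two hc0) p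
        have hpw : (2 * |c| * E (U ∘ cell hK x) ^ (1 / p)) ^ p =
            (2 * c) ^ p * E (U ∘ cell hK x) := by
          rw [abs_of_nonneg hc0, Real.mul_rpow (mul_nonneg zero_le_two hc0) (Real.rpow_nonneg hu _),
            rpow_one_div_rpow hp hu]
        have hite : ∀ (Pp : Prop) [Decidable Pp], 0 ≤ if Pp then E (U ∘ cell hK x) else 0 :=
          fun Pp _ => by split_ifs; exacts [hu, le_rfl]
        simp only [hb₄]
        by_cases hcr : (Cross hK U s x ∨ Cross hK U (s + m) x) ∨
            (Cross hK U (s + w - m) x ∨ Cross hK U (s + w) x)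
        · rw [if_pos hcr, hpw]
          refine mul_le_mul_of_nonneg_left ?_ hcp
          have i1 := hite (Cross hK U s x)
          have i2 := hite (Cross hK U (s + m) x)
          have i3 := hite (Cross hK U (s + w - m) x)
          have i4 := hite (Cross hK U (s + w) x)
          rcases hcr with (hcr | hcr) | (hcr | hcr)
          · rw [if_pos hcr]; linarith only [i2, i3, i4]
          · rw [if_pos hcr]; linarith only [i1, i3, i4]
          · rw [if_pos hcr]; linarith only [i1, i2, i4]
          · rw [if_pos hcr]; linarith only [i1, i2, i3]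
        · rw [if_neg hcr, Real.zero_rpow hp.ne']
          refine mul_nonneg hcp ?_
          have i1 := hite (Cross hK U s x)
          have i2 := hite (Cross hK U (s + m) x)
          have i3 := hite (Cross hK U (s + w - m) x)
          have i4 := hite (Cross hK U (s + w) x)
          exact add_nonneg (add_nonneg i1 i2) (add_nonneg i3 i4)
      rw [q1, q2]
      exact mul_le_mul_of_nonneg_left (add_le_add (add_le_add le_rfl q3) q4)
        (Real.rpow_nonneg zero_le_four p)
    have s1 := cross_under (y := y) hk₁ (n := n) (k := k) (by omega) (fun x => Cross hK q₁ 0 x)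
      fun _ hx => hx
    have s2 := cross_under (y := y) hk₂ (n := n) (k := k) (by omega) (fun x => Cross hK q₂ 0 x)
      fun _ hx => hx
    have s3 := cross_under (y := y) hk₃ (n := n) (k := k) (by omega)
      (fun x => Cross hK V (a - R) x) fun _ hx => hx
    have s4 := cross_under (y := y) hk₄ (n := n) (k := k) (by omega)
      (fun x => Cross hK V (a + R) x) fun _ hx => hx
    have s5 := cross_under (y := y) hk₅ (n := n) (k := k) (by omega) (fun x => Cross hK U s x)
      fun _ hx => hx
    have s6 := cross_under (y := y) hk₆ (n := n) (k := k) (by omega)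
      (fun x => Cross hK U (s + m) x) fun _ hx => hx
    have s7 := cross_under (y := y) hk₇ (n := n) (k := k) (by omega)
      (fun x => Cross hK U (s + w - m) x) fun _ hx => hx
    have s8 := cross_under (y := y) hk₈ (n := n) (k := k) (by omega)
      (fun x => Cross hK U (s + w) x) fun _ hx => hx
    calc ρ ^ (n + k) * ∑ x ∈ under n k y, b x ^ p
        ≤ ρ ^ (n + k) * ∑ x ∈ under n k y, 4 ^ p *
        ((if Cross hK q₁ 0 x then E (q₁ ∘ cell hK x) else 0) +
        (if Cross hK q₂ 0 x then E (q₂ ∘ cell hK x) else 0) +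
        ((if Cross hK V (a - R) x then E (V ∘ cell hK x) else 0) +
          if Cross hK V (a + R) x then E (V ∘ cell hK x) else 0) +
        (2 * c) ^ p * (((if Cross hK U s x then E (U ∘ cell hK x) else 0) +
          if Cross hK U (s + m) x then E (U ∘ cell hK x) else 0) +
          ((if Cross hK U (s + w - m) x then E (U ∘ cell hK x) else 0) +
          if Cross hK U (s + w) x then E (U ∘ cell hK x) else 0))) := by
          gcongr with x _
          exact t1 x
      _ = 4 ^ p * (ρ ^ (n + k) * ∑ x ∈ under n k y,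
            (if Cross hK q₁ 0 x then E (q₁ ∘ cell hK x) else 0) +
          ρ ^ (n + k) * ∑ x ∈ under n k y, (if Cross hK q₂ 0 x then E (q₂ ∘ cell hK x) else 0) +
          (ρ ^ (n + k) * ∑ x ∈ under n k y,
            (if Cross hK V (a - R) x then E (V ∘ cell hK x) else 0) +
          ρ ^ (n + k) * ∑ x ∈ under n k y,
            (if Cross hK V (a + R) x then E (V ∘ cell hK x) else 0)) +
          (2 * c) ^ p * ((ρ ^ (n + k) * ∑ x ∈ under n k y,
            (if Cross hK U s x then E (U ∘ cell hK x) else 0) +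
          ρ ^ (n + k) * ∑ x ∈ under n k y,
            (if Cross hK U (s + m) x then E (U ∘ cell hK x) else 0)) +
          (ρ ^ (n + k) * ∑ x ∈ under n k y,
            (if Cross hK U (s + w - m) x then E (U ∘ cell hK x) else 0) +
          ρ ^ (n + k) * ∑ x ∈ under n k y,
            (if Cross hK U (s + w) x then E (U ∘ cell hK x) else 0)))) := by
          rw [← Finset.mul_sum]
          simp only [Finset.sum_add_distrib, ← Finset.mul_sum]
          ring
      _ ≤ 4 ^ p * (κ + κ + (κ + κ) + (2 * c) ^ p * ((κ + κ) + (κ + κ))) :=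
          mul_le_mul_of_nonneg_left (add_le_add (add_le_add (add_le_add s1 s2) (add_le_add s3 s4))
            (mul_le_mul_of_nonneg_left (add_le_add (add_le_add s5 s6) (add_le_add s7 s8))
              (Real.rpow_nonneg (mul_nonneg zero_le_two hc0) p)))
            (Real.rpow_nonneg zero_le_four p)
      _ = 4 ^ p * (4 + 4 * (2 * c) ^ p) * κ := by ring
      _ = ε₁ ^ p * M := by
          rw [hκ]
          field_simp
  have hG := h.gain_of_le hV hVφ hsupp hsize α b hα0 hb0 hle hYM hε₁0.le hε₁h hZ
  refine hG.mono ?_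
  have e1 : p * 2 ^ (p - 1) * ε₁ * M = c₀ * ε₁ * M := by rw [hc₀]
  rw [e1]
  linarith

end Reg

end Pool.Agent.SierpinskiCarpet
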