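import Pool.Agent.helper33.SRPos

/-!
# The folding map and adjacent cells
-/

open MeasureTheory Filter Topology

namespace Pool.Agent.SierpinskiCarpet

variable {K : Set (ℝ × ℝ)} {hK : IsCarpet K} {A : Set (K → ℝ)} {p ρ : ℝ} {E : (K → ℝ) → ℝ}

section Fold

/-- The orientation of a cell with respect to the folding map. -/
noncomputable def sg (d : Bool) : List (Fin 8) → ℝ
  | [] => 1
  | i :: w => (if cz d (qz i) = 0 then 1 else -1) * sg d w

theorem sg_cases (d : Bool) (w : List (Fin 8)) : sg d w = 1 ∨ sg d w = -1 := by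
  induction w with
  | nil => exact Or.inl rfl
  | cons i w ih =>
    rw [sg]
    split_ifs
    · rwa [one_mul]
    · rcases ih with h | h <;> rw [h] <;> norm_num

theorem abs_sg (d : Bool) (w : List (Fin 8)) : |sg d w| = 1 := by
  rcases sg_cases d w with h | h <;> rw [h] <;> norm_num

theorem sg_mul_self (d : Bool) (w : List (Fin 8)) : sg d w * sg d w = 1 := by
  rcases sg_cases d w with h | h <;> rw [h] <;> norm_num

/-- The orientation depends on the parity of the position only. -/
theorem sg_eq (d : Bool) (w : List (Fin 8)) : sg d w = if Even (cz d (pos w)) then 1 else -1 := by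
  induction w with
  | nil => simp [sg, cz_pos_nil]
  | cons i w ih =>
    rw [sg, ih, cz_pos_cons]
    have hodd : Odd ((3 : ℤ) ^ w.length) := (by decide : Odd (3 : ℤ)).pow
    have hodd' : ¬Even ((3 : ℤ) ^ w.length) := Int.not_even_iff_odd.2 hodd
    rcases qz_cases i d with h | h | h
    · rw [h, if_neg (show ¬(-1 : ℤ) = 0 by norm_num)]
      have e : Even (3 ^ w.length * (-1) + cz d (pos w)) ↔ ¬Even (cz d (pos w)) := by
        rw [Int.even_add, mul_neg_one, even_neg]
        tauto
      by_cases h2 : Even (cz d (pos w))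
      · rw [if_pos h2, if_neg (fun h3 => e.1 h3 h2)]
        norm_num
      · rw [if_neg h2, if_pos (e.2 h2)]
        norm_num
    · rw [h]
      simp
    · rw [h, if_neg (show ¬(1 : ℤ) = 0 by norm_num)]
      have e : Even (3 ^ w.length * 1 + cz d (pos w)) ↔ ¬Even (cz d (pos w)) := by
        rw [Int.even_add, mul_one]
        tauto
      by_cases h2 : Even (cz d (pos w))
      · rw [if_pos h2, if_neg (fun h3 => e.1 h3 h2)]
        norm_num
      · rw [if_neg h2, if_pos (e.2 h2)]
        norm_num

/-- The reflection of the cell `w`. -/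
noncomputable def rv (hK : IsCarpet K) (w : List (Fin 8)) (z : K) : K :=
  ⟨(sg true w * z.1.1, sg false w * z.1.2),
    symmetry_mem (Φ := fun z => (sg true w * z.1, sg false w * z.2)) hK
      ⟨_, _, abs_sg true w, abs_sg false w, Or.inl fun _ => rfl⟩ z.2⟩

theorem rv_co (d : Bool) (w : List (Fin 8)) (z : K) :
    co d (rv hK w z).1 = sg d w * co d z.1 := by cases d <;> rfl

theorem continuous_rv (w : List (Fin 8)) : Continuous (rv hK w) :=
  Continuous.subtype_mk (by fun_prop) _

theorem ext_co {x y : K} (h : ∀ d, co d x.1 = co d y.1) : x = y := Subtype.ext (co_ext h)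

theorem rv_rv (w : List (Fin 8)) (z : K) : rv hK w (rv hK w z) = z :=
  ext_co fun d => by rw [rv_co, rv_co, ← mul_assoc, sg_mul_self, one_mul]

/-- The folding function of the line. -/
noncomputable def mfold (t : ℝ) : ℝ := max (min (3 * t) (2 - 3 * t)) (-2 - 3 * t)

theorem mfold_neg (t : ℝ) : mfold (-t) = -mfold t := by
  unfold mfold
  rcases le_total (3 * t) (2 - 3 * t) with h1 | h1 <;>
    rcases le_total (3 * (-t)) (2 - 3 * (-t)) with h2 | h2
  · rw [min_eq_left h1, min_eq_left h2]
    rw [max_eq_left (by linarith), max_eq_left (by linarith)]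
    ring
  · rw [min_eq_left h1, min_eq_right h2, max_eq_right (a := 3 * t) (by linarith),
      max_eq_left (by linarith)]
    ring
  · rw [min_eq_right h1, min_eq_left h2, max_eq_right (a := 3 * (-t)) (by linarith),
      max_eq_left (by linarith)]
    ring
  · linarith

theorem mfold_cell {t : ℝ} (ht : |t| ≤ 1) {c : ℝ} (hc : c = -1 ∨ c = 0 ∨ c = 1) :
    mfold ((t + 2 * c) / 3) = (if c = 0 then 1 else -1) * t := by
  rw [abs_le] at ht
  unfold mfold
  rcases hc with rfl | rfl | rfl
  · rw [if_neg (by norm_num), min_eq_left (by linarith), max_eq_right (by linarith)]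
    ring
  · rw [if_pos rfl, min_eq_left (by linarith), max_eq_left (by linarith)]
    ring
  · rw [if_neg (by norm_num), min_eq_right (by linarith), max_eq_left (by linarith)]
    ring

theorem mfold_co (i : Fin 8) (z : K) (d : Bool) :
    mfold (co d (cellMap hK i z).1) = sg d [i] * co d z.1 := by
  change mfold (co d (contraction i z)) = _
  rw [contraction_co, mfold_cell (abs_co_le hK d z) (by
    rcases qz_cases i d with h | h | h <;> rw [h] <;> simp)]
  rw [sg, sg, mul_one]
  by_cases h0 : cz d (qz i) = 0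
  · rw [if_pos h0, if_pos (by exact_mod_cast h0)]
  · rw [if_neg h0, if_neg (by exact_mod_cast h0)]

theorem mfold_mem (hK : IsCarpet K) (z : K) : (mfold z.1.1, mfold z.1.2) ∈ K := by
  obtain ⟨i, y, rfl⟩ := exists_cellMap hK z
  have h1 := mfold_co (hK := hK) i y true
  have h2 := mfold_co (hK := hK) i y false
  simp only [co_true, co_false] at h1 h2
  rw [h1, h2]
  exact (rv hK [i] y).2

/-- The folding map. -/
noncomputable def fold1 (hK : IsCarpet K) (z : K) : K := ⟨(mfold z.1.1, mfold z.1.2), mfold_mem hK z⟩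

theorem fold1_co (d : Bool) (z : K) : co d (fold1 hK z).1 = mfold (co d z.1) := by
  cases d <;> rfl

theorem continuous_fold1 : Continuous (fold1 hK) := by
  unfold fold1 mfold
  exact Continuous.subtype_mk (by fun_prop) _

theorem fold1_cellMap (i : Fin 8) (z : K) : fold1 hK (cellMap hK i z) = rv hK [i] z :=
  ext_co fun d => by rw [fold1_co, mfold_co, rv_co]

theorem fold1_rv (w : List (Fin 8)) (z : K) : fold1 hK (rv hK w z) = rv hK w (fold1 hK z) :=
  ext_co fun d => by
    rw [fold1_co, rv_co, rv_co, fold1_co]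
    rcases sg_cases d w with h | h <;> rw [h]
    · rw [one_mul, one_mul]
    · rw [neg_one_mul, neg_one_mul, mfold_neg]

/-- The iterated folding map maps every cell onto the carpet. -/
theorem fold_cell (w : List (Fin 8)) (z : K) : (fold1 hK)^[w.length] (cell hK w z) = rv hK w z := by
  induction w with
  | nil =>
    refine ext_co fun d => ?_
    rw [rv_co]
    simp [sg, cell_nil]
  | cons i w ih =>
    rw [List.length_cons, Function.iterate_succ_apply, cell_cons, Function.comp_apply,
      fold1_cellMap]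
    have hcomm : ∀ n, (fold1 hK)^[n] (rv hK [i] (cell hK w z)) =
        rv hK [i] ((fold1 hK)^[n] (cell hK w z)) := by
      intro n
      induction n with
      | zero => rfl
      | succ n ihn => rw [Function.iterate_succ_apply', ihn, fold1_rv, Function.iterate_succ_apply']
    rw [hcomm, ih]
    refine ext_co fun d => ?_
    rw [rv_co, rv_co, rv_co]
    simp only [sg]
    ring

theorem rv_eq_of_cell {w w' : List (Fin 8)} (hl : w.length = w'.length) {z z' : K}
    (h : cell hK w z = cell hK w' z') : rv hK w z = rv hK w' z' := by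
  rw [← fold_cell, ← fold_cell, h, hl]

/-- The function `f` on the cell `w`, folded. -/
noncomputable def fw (hK : IsCarpet K) (f : K → ℝ) (w : List (Fin 8)) : K → ℝ :=
  f ∘ cell hK w ∘ rv hK w

theorem fw_apply (f : K → ℝ) (w : List (Fin 8)) (z : K) :
    fw hK f w (rv hK w z) = f (cell hK w z) := by
  unfold fw
  rw [Function.comp_apply, Function.comp_apply, rv_rv]

end Fold

section Adj

/-- The distance of the positions is at most `r`. -/
def Nb (r : ℤ) (w w' : List (Fin 8)) : Prop := ∀ d, |cz d (pos w) - cz d (pos w')| ≤ r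

instance (r : ℤ) (w w' : List (Fin 8)) : Decidable (Nb r w w') := by unfold Nb; infer_instance

theorem Nb.symm {r : ℤ} {w w' : List (Fin 8)} (h : Nb r w w') : Nb r w' w := fun d => by
  rw [abs_sub_comm]
  exact h d

theorem Nb.refl {r : ℤ} (hr : 0 ≤ r) (w : List (Fin 8)) : Nb r w w := fun d => by simpa using hr

theorem Nb.trans {r s : ℤ} {w w' w'' : List (Fin 8)} (h : Nb r w w') (h' : Nb s w' w'') :
    Nb (r + s) w w'' := fun d => by
  have := h d
  have := h' d
  rw [abs_le] at *
  omega

theorem Nb.mono {r s : ℤ} (hrs : r ≤ s) {w w' : List (Fin 8)} (h : Nb r w w') : Nb s w w' :=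
  fun d => (h d).trans hrs

theorem nb_of_cell {w w' : List (Fin 8)} (hl : w.length = w'.length) {z z' : K}
    (h : cell hK w z = cell hK w' z') : Nb 1 w w' := fun d => by
  have h1 := cell_co hK d w z
  have h2 := cell_co hK d w' z'
  rw [h, h2, ← hl] at h1
  have hN : (0 : ℝ) < 3 ^ w.length := by positivity
  have h3 : co d z'.1 + 2 * cz d (pos w') = co d z.1 + 2 * cz d (pos w) := by
    field_simp at h1
    linarith
  have b1 := abs_le.1 (abs_co_le hK d z)
  have b2 := abs_le.1 (abs_co_le hK d z')
  have h4 : |(cz d (pos w) : ℝ) - cz d (pos w')| ≤ 1 := by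
    rw [abs_le]
    constructor <;> linarith
  exact_mod_cast h4

/-- Cells with a common side. -/
def SAdj (w w' : List (Fin 8)) : Prop := ∃ d,
  (cz d (pos w') = cz d (pos w) + 1 ∨ cz d (pos w) = cz d (pos w') + 1) ∧
    cz (!d) (pos w') = cz (!d) (pos w)

theorem SAdj.symm {w w' : List (Fin 8)} (h : SAdj w w') : SAdj w' w := by
  obtain ⟨d, h1, h2⟩ := h
  exact ⟨d, h1.symm, h2.symm⟩

theorem SAdj.nb {w w' : List (Fin 8)} (h : SAdj w w') : Nb 1 w w' := by
  obtain ⟨d, h1, h2⟩ := h
  intro e
  by_cases hed : e = d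
  · subst hed
    rw [abs_le]
    omega
  · have : e = !d := by cases e <;> cases d <;> simp_all
    subst this
    rw [h2]
    simp

theorem agree_aux {w w' : List (Fin 8)} (hl : w.length = w'.length) {d : Bool}
    (h1 : cz d (pos w') = cz d (pos w) + 1) (h2 : cz (!d) (pos w') = cz (!d) (pos w)) (f : K → ℝ)
    {x : K} (hx : co d x.1 = sg d w) : fw hK f w x = fw hK f w' x := by
  -- the point of the cell
  set z := rv hK w x with hz
  have hz1 : co d z.1 = 1 := by rw [hz, rv_co, hx, sg_mul_self]
  obtain ⟨z', hz'1, hz'2⟩ : ∃ z' : K, co d z'.1 = -1 ∧ co (!d) z'.1 = co (!d) z.1 := by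
    cases d
    · exact ⟨reflY hK z, by simp only [co_false] at hz1 ⊢; simp [reflY, hz1], rfl⟩
    · exact ⟨reflX hK z, by simp only [co_true] at hz1 ⊢; simp [reflX, hz1], rfl⟩
  have hc : cell hK w z = cell hK w' z' := ext_co fun e => by
    rw [cell_co, cell_co, ← hl]
    congr 1
    by_cases hed : e = d
    · subst hed
      rw [hz1, hz'1, h1]
      push_cast
      ring
    · have : e = !d := by cases e <;> cases d <;> simp_all
      subst this
      rw [hz'2, h2]
  have hr := rv_eq_of_cell hl hc
  have hxz : x = rv hK w z := by rw [hz, rv_rv]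
  rw [hxz, fw_apply, hr, fw_apply, hc]

theorem SAdj.agree {w w' : List (Fin 8)} (hl : w.length = w'.length) (h : SAdj w w') :
    ∃ d a, ∀ (f : K → ℝ), ∀ x ∈ side K d a, fw hK f w x = fw hK f w' x := by
  have hs : ∀ (d : Bool) (w : List (Fin 8)), ∃ a, sgn a = sg d w := fun d w => by
    rcases sg_cases d w with h | h
    · exact ⟨true, by rw [h]; rfl⟩
    · exact ⟨false, by rw [h]; rfl⟩
  obtain ⟨d, h1, h2⟩ := h
  rcases h1 with h1 | h1
  · obtain ⟨a, ha⟩ := hs d w
    refine ⟨d, a, fun f x hx => agree_aux hl h1 h2 f ?_⟩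
    rw [mem_side] at hx
    rw [hx, ha]
  · obtain ⟨a, ha⟩ := hs d w'
    refine ⟨d, a, fun f x hx => (agree_aux hl.symm h1 h2.symm f ?_).symm⟩
    rw [mem_side] at hx
    rw [hx, ha]

/-- Neighbouring cells are connected by side neighbours. -/
theorem nb_connected {n : ℕ} {y w : List (Fin 8)} (hy : y ∈ words n) (hw : w ∈ words n)
    (h : Nb 1 y w) : w = y ∨ SAdj y w ∨ ∃ w' ∈ words n, Nb 1 y w' ∧ SAdj y w' ∧ SAdj w' w := by
  have hl : y.length = w.length := by rw [mem_words.1 hy, mem_words.1 hw]
  have h1 := h true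
  have h2 := h false
  simp only [cz_true, cz_false] at h1 h2
  rw [abs_le] at h1 h2
  by_cases e1 : (pos y).1 = (pos w).1
  · by_cases e2 : (pos y).2 = (pos w).2
    · left
      exact pos_injective _ _ hl.symm (Prod.ext e1.symm e2.symm)
    · right; left
      exact ⟨false, by simp only [cz_false]; omega, e1.symm⟩
  · by_cases e2 : (pos y).2 = (pos w).2
    · right; left
      exact ⟨true, by simp only [cz_true]; omega, e2.symm⟩
    · right; right
      obtain ⟨s, hs, hs'⟩ : ∃ s : ℤ, (s = 1 ∨ s = -1) ∧ (pos w).1 = (pos y).1 + s :=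
        ⟨(pos w).1 - (pos y).1, by omega, by ring⟩
      obtain ⟨t, ht, ht'⟩ : ∃ t : ℤ, (t = 1 ∨ t = -1) ∧ (pos w).2 = (pos y).2 + t :=
        ⟨(pos w).2 - (pos y).2, by omega, by ring⟩
      have p1 : IsPos n ((pos y).1, (pos y).2) := ⟨y, hy, rfl⟩
      have p2 : IsPos n ((pos y).1 + s, (pos y).2 + t) := ⟨w, hw, Prod.ext hs' ht'⟩
      rcases isPos_diag n _ _ s t hs ht p1 p2 with ⟨v, hv, hpv⟩ | ⟨v, hv, hpv⟩
      · have f1 : (pos v).1 = (pos y).1 + s := by rw [hpv]
        have f2 : (pos v).2 = (pos y).2 := by rw [hpv]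
        have a1 : SAdj y v := ⟨true, by simp only [cz_true]; omega, f2⟩
        exact ⟨v, hv, a1.nb, a1, false, by simp only [cz_false]; omega, by
          simp only [Bool.not_false, cz_true]; omega⟩
      · have f1 : (pos v).1 = (pos y).1 := by rw [hpv]
        have f2 : (pos v).2 = (pos y).2 + t := by rw [hpv]
        have a1 : SAdj y v := ⟨false, by simp only [cz_false]; omega, f1⟩
        exact ⟨v, hv, a1.nb, a1, true, by simp only [cz_true]; omega, by
          simp only [Bool.not_true, cz_false]; omega⟩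

/-- The neighbourhood of a cell. -/
def nbh (r : ℤ) (n : ℕ) (y : List (Fin 8)) : Finset (List (Fin 8)) := (words n).filter (Nb r y)

theorem mem_nbh {r : ℤ} {n : ℕ} {y w : List (Fin 8)} : w ∈ nbh r n y ↔ w ∈ words n ∧ Nb r y w := by
  simp [nbh]

theorem card_nbh_le (r : ℕ) (n : ℕ) (y : List (Fin 8)) : (nbh r n y).card ≤ (2 * r + 1) ^ 2 := by
  have h1 : (nbh r n y).card ≤ ((Finset.Icc ((pos y).1 - r) ((pos y).1 + r)) ×ˢ
      (Finset.Icc ((pos y).2 - r) ((pos y).2 + r))).card := by
    refine Finset.card_le_card_of_injOn pos ?_ ?_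
    · intro w hw
      have hw' := (mem_nbh.1 hw).2
      have h1 := hw' true
      have h2 := hw' false
      simp only [cz_true, cz_false] at h1 h2
      rw [abs_le] at h1 h2
      simp only [Finset.coe_product, Finset.coe_Icc, Set.mem_prod, Set.mem_Icc]
      omega
    · intro w hw w' hw' hp
      refine pos_injective _ _ ?_ hp
      rw [mem_words.1 (mem_nbh.1 hw).1, mem_words.1 (mem_nbh.1 hw').1]
  refine h1.trans (le_of_eq ?_)
  rw [Finset.card_product, Int.card_Icc, Int.card_Icc, sq]
  have e1 : ((pos y).1 + (r : ℤ) + 1 - ((pos y).1 - r)).toNat = 2 * r + 1 := by omega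
  have e2 : ((pos y).2 + (r : ℤ) + 1 - ((pos y).2 - r)).toNat = 2 * r + 1 := by omega
  rw [e1, e2]

/-- Double counting over neighbourhoods. -/
theorem sum_nbh_le (r : ℕ) (n : ℕ) (g : List (Fin 8) → ℝ) (hg : ∀ w, 0 ≤ g w)
    (S : Finset (List (Fin 8))) (hS : S ⊆ words n) :
    ∑ y ∈ S, ∑ w ∈ nbh r n y, g w ≤ (2 * r + 1) ^ 2 * ∑ w ∈ words n, g w := by
  have e1 : ∀ y ∈ S, ∑ w ∈ nbh r n y, g w = ∑ w ∈ words n, if Nb r y w then g w else 0 :=
    fun y _ => by rw [nbh, Finset.sum_filter]
  rw [Finset.sum_congr rfl e1, Finset.sum_comm, Finset.mul_sum]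
  refine Finset.sum_le_sum fun w hw => ?_
  rw [← Finset.sum_filter, Finset.sum_const, nsmul_eq_mul]
  have h1 : ((S.filter fun y => Nb r y w).card : ℝ) ≤ (2 * r + 1) ^ 2 := by
    have h2 : (S.filter fun y => Nb r y w).card ≤ (nbh r n w).card := by
      refine Finset.card_le_card fun y hy => ?_
      rw [Finset.mem_filter] at hy
      exact mem_nbh.2 ⟨hS hy.1, hy.2.symm⟩
    have h3 := h2.trans (card_nbh_le r n w)
    exact_mod_cast h3
  have := hg w
  gcongr

end Adj

end Pool.Agent.SierpinskiCarpet
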