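import Mathlib

/-!
# A direction in which a norm is nearly flat to second order
-/

namespace Pool.Agent.SierpinskiCarpet

theorem rpow_add_le_add {p a t : ℝ} (hp : 1 ≤ p) (ha : 0 ≤ a) (ht : 0 ≤ t) :
    (a + t) ^ p ≤ a ^ p + p * (a + t) ^ (p - 1) * t := by
  rcases (add_nonneg ha ht).eq_or_lt with h0 | h0
  · have ha0 : a = 0 := by linarith
    have ht0 : t = 0 := by linarith
    subst ha0 ht0
    simp
  · have h1 := one_add_mul_self_le_rpow_one_add (s := -(t / (a + t))) (by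
      rw [neg_le_neg_iff, div_le_one h0]
      linarith) hp
    have e1 : 1 + -(t / (a + t)) = a / (a + t) := by
      field_simp
      ring
    rw [e1, Real.div_rpow ha h0.le] at h1
    have h2 : 0 < (a + t) ^ p := by positivity
    rw [le_div_iff₀ h2] at h1
    have e2 : (a + t) ^ p = (a + t) ^ (p - 1) * (a + t) := by
      rw [← Real.rpow_add_one h0.ne']
      congr 1
      ring
    have e3 : (1 + p * -(t / (a + t))) * (a + t) ^ p =
        (a + t) ^ p - p * (a + t) ^ (p - 1) * t := by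
      rw [add_mul, one_mul]
      have : p * -(t / (a + t)) * (a + t) ^ p = -(p * (a + t) ^ (p - 1) * t) := by
        rw [e2]
        field_simp
      rw [this]
      ring
    rw [e3] at h1
    linarith

theorem exists_small_second_difference {J : ℕ} (hJ : 2 ≤ J) {φ : ℕ → ℝ}
    (hL : ∀ j, |φ (j + 1) - φ j| ≤ 1 / J) :
    ∃ j, j + 2 ≤ J ∧ φ (j + 2) - 2 * φ (j + 1) + φ j ≤ 4 * (1 / J) ^ 2 := by
  by_contra hcon
  push Not at hcon
  have hJr : (2 : ℝ) ≤ J := by exact_mod_cast hJ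
  have key : ∀ m : ℕ, m + 1 ≤ J → (m : ℝ) * (4 * (1 / J) ^ 2) ≤
      (φ (m + 1) - φ m) - (φ 1 - φ 0) := by
    intro m
    induction m with
    | zero => intro _; simp
    | succ m ih =>
      intro hm
      have h1 := ih (by omega)
      have h2 := hcon m (by omega)
      push_cast
      linarith
  obtain ⟨m, rfl⟩ : ∃ m, J = m + 1 := ⟨J - 1, by omega⟩
  have h1 := key m le_rfl
  have h2 := abs_le.1 (hL m)
  have h3 := abs_le.1 (hL 0)
  rw [zero_add] at h3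
  have h4 := hcon
  -- strictness
  have hm0 : 0 < m := by omega
  obtain ⟨l, rfl⟩ : ∃ l, m = l + 1 := ⟨m - 1, by omega⟩
  have h5 := key l (by omega)
  have h6 := hcon l (by omega)
  push_cast at h1 h2 h3 h5 h6 hJr ⊢
  set κ : ℝ := 1 / ((l : ℝ) + 1 + 1) with hκ
  have hκ0 : 0 < κ := by positivity
  have hκl : κ * ((l : ℝ) + 1 + 1) = 1 := by
    rw [hκ]
    field_simp
  have hκ2 : κ ≤ 1 / 2 := by
    rw [hκ]
    apply one_div_le_one_div_of_le (by norm_num)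
    linarith
  have e1 : ((l : ℝ) + 1) * (4 * κ ^ 2) = 4 * κ * (1 - κ) := by
    have : (l : ℝ) + 1 = ((l : ℝ) + 1 + 1) - 1 := by ring
    rw [this]
    have e : (((l : ℝ) + 1 + 1) - 1) * (4 * κ ^ 2) =
        4 * κ * (κ * ((l : ℝ) + 1 + 1)) - 4 * κ ^ 2 := by ring
    rw [e, hκl]
    ring
  have e2 : 2 * κ ≤ 4 * κ * (1 - κ) := by nlinarith
  have e3 : (l : ℝ) * (4 * κ ^ 2) + 4 * κ ^ 2 = 4 * κ * (1 - κ) := by rw [← e1]; ring
  linarith

/-- The bound for the perturbed norm. -/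
theorem perturb_aux {κ β a b d b₀ : ℝ} (hκ : 0 ≤ κ) (ha : 0 ≤ a) (ha2 : a ≤ 2) (hβ : |β| ≤ b₀)
    (hd : b = a + κ * d) (hb : b ≤ 2) (hb0 : 0 ≤ b) (hd1 : |d| ≤ 1) (hda : d - β * a ≤ 4 * κ) :
    |1 - κ * β| * b + κ ^ 2 * |β| ≤ a + κ ^ 2 * (4 + 2 * b₀ + 4 * b₀ ^ 2) := by
  have hb₀ : 0 ≤ b₀ := (abs_nonneg β).trans hβ
  have h1 : |1 - κ * β| ≤ 1 - κ * β + 2 * (κ * β) ^ 2 := by
    rw [abs_le]
    constructor
    · nlinarith [sq_nonneg (κ * β), sq_nonneg (κ * β - 1)]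
    · nlinarith [sq_nonneg (κ * β)]
  have h2 : |1 - κ * β| * b ≤ (1 - κ * β + 2 * (κ * β) ^ 2) * b := by gcongr
  have h3 : (κ * β) ^ 2 * b ≤ κ ^ 2 * b₀ ^ 2 * 2 := by
    rw [mul_pow]
    have : β ^ 2 ≤ b₀ ^ 2 := by
      rw [← sq_abs β]
      gcongr
    gcongr
  have h4 : -(κ ^ 2 * (β * d)) ≤ κ ^ 2 * b₀ := by
    have : |β * d| ≤ b₀ := by
      rw [abs_mul]
      calc |β| * |d| ≤ b₀ * 1 := by gcongr
        _ = b₀ := mul_one _
    have := abs_le.1 this
    nlinarith [sq_nonneg κ]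
  have h5 : κ ^ 2 * |β| ≤ κ ^ 2 * b₀ := by gcongr
  have h6 : κ * (d - β * a) ≤ κ * (4 * κ) := by gcongr
  have e : (1 - κ * β + 2 * (κ * β) ^ 2) * b =
      a + κ * (d - β * a) - κ ^ 2 * (β * d) + 2 * ((κ * β) ^ 2 * b) := by
    rw [add_mul (1 - κ * β)]
    have : (1 - κ * β) * b = a + κ * (d - β * a) - κ ^ 2 * (β * d) := by
      rw [hd]
      ring
    rw [this]
    ring
  rw [e] at h2
  nlinarith

/-- In a normed plane there are two vectors such that the norm of the first is nearly constant in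
the direction of the second. -/
theorem flat_geometry {p : ℝ} (hp : 1 ≤ p) {c : ℝ} (hc : 0 < c) :
    ∃ Cg B₁ : ℝ, 0 < Cg ∧ 0 < B₁ ∧ ∀ J : ℕ, 2 ≤ J → ∃ S : Finset ((ℝ × ℝ) × (ℝ × ℝ)),
    (∀ ab ∈ S, |ab.1.1| ≤ B₁ ∧ |ab.1.2| ≤ B₁ ∧ |ab.2.1| ≤ B₁ ∧ |ab.2.2| ≤ B₁) ∧
    ∀ N : ℝ × ℝ → ℝ, (∀ x, 0 ≤ N x) → (∀ x y, N (x + y) ≤ N x + N y) →
      (∀ (t : ℝ) x, N (t • x) = |t| * N x) → (∀ x, N x ≤ |x.1| + |x.2|) →
      (∀ x, c * max |x.1| |x.2| ≤ N x) →
      ∃ ab ∈ S, c / 2 ≤ N ab.1 ∧ c / 2 ≤ N ab.2 ∧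
        N (ab.1 + (1 / J : ℝ) • ab.2) ^ p ≤ N ab.1 ^ p + Cg * (1 / J : ℝ) ^ 2 ∧
        N (ab.1 - (1 / J : ℝ) • ab.2) ^ p ≤ N ab.1 ^ p + Cg * (1 / J : ℝ) ^ 2 := by
  classical
  set b : ℝ := 1 / c + 1 with hb
  have hb0 : 0 < b := by positivity
  set C' : ℝ := 4 + 2 * b + 4 * b ^ 2 with hC'
  have hC'0 : 0 < C' := by positivity
  refine ⟨p * (2 + C') ^ (p - 1) * C', b + 2, by positivity, by positivity, fun J hJ => ?_⟩
  have hJr : (2 : ℝ) ≤ J := by exact_mod_cast hJ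
  have hJ0 : (0 : ℝ) < J := by linarith
  set κ : ℝ := 1 / J with hκ
  have hκ0 : 0 < κ := by positivity
  have hκJ : κ * J = 1 := by rw [hκ]; field_simp
  have hκ1 : κ ≤ 1 / 2 := by
    rw [hκ]
    exact one_div_le_one_div_of_le (by norm_num) hJr
  set F : ℕ × ℤ → (ℝ × ℝ) × (ℝ × ℝ) := fun q =>
    (((1 : ℝ), q.1 * κ), (-(q.2 * κ), 1 - q.2 * κ * (q.1 * κ))) with hF
  set S : Finset ((ℝ × ℝ) × (ℝ × ℝ)) :=
    (Finset.range (J + 1) ×ˢ Finset.Icc (-⌊b * J⌋) ⌊b * J⌋).image F with hS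
  refine ⟨S, ?_, fun N hN hadd hsmul hub hlb => ?_⟩
  · intro ab hab
    obtain ⟨⟨j, i⟩, hji, rfl⟩ := Finset.mem_image.1 hab
    rw [Finset.mem_product, Finset.mem_range, Finset.mem_Icc] at hji
    obtain ⟨hj, hi1, hi2⟩ := hji
    simp only at hj hi1 hi2
    have hj' : (j : ℝ) ≤ J := by exact_mod_cast (by omega : j ≤ J)
    have hjκ : (j : ℝ) * κ ≤ 1 := by
      calc (j : ℝ) * κ ≤ J * κ := by gcongr
        _ = 1 := by rw [mul_comm]; exact hκJ
    have hjκ0 : 0 ≤ (j : ℝ) * κ := by positivity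
    have hfl := Int.floor_le (b * J)
    have hi : |(i : ℝ) * κ| ≤ b := by
      have h1 : |(i : ℝ)| ≤ b * J := by
        rw [abs_le]
        have a1 : -(⌊b * J⌋ : ℝ) ≤ i := by exact_mod_cast hi1
        have a2 : (i : ℝ) ≤ ⌊b * J⌋ := by exact_mod_cast hi2
        constructor <;> linarith
      rw [abs_mul, abs_of_pos hκ0]
      calc |(i : ℝ)| * κ ≤ b * J * κ := by gcongr
        _ = b * (κ * J) := by ring
        _ = b := by rw [hκJ, mul_one]
    have hi' := abs_le.1 hi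
    have hprod : |(i : ℝ) * κ * (j * κ)| ≤ b := by
      rw [abs_mul, abs_of_nonneg hjκ0]
      calc |(i : ℝ) * κ| * (j * κ) ≤ b * 1 := by gcongr
        _ = b := mul_one _
    have hp' := abs_le.1 hprod
    simp only [hF]
    refine ⟨?_, ?_, ?_, ?_⟩
    · rw [abs_one]
      linarith
    · rw [abs_of_nonneg hjκ0]
      linarith
    · rw [abs_neg]
      linarith
    · rw [abs_le]
      constructor <;> linarith
  -- the vector
  have hneg : ∀ x, N (-x) = N x := fun x => by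
    have := hsmul (-1) x
    simpa using this
  set φ : ℕ → ℝ := fun j => N (1, j * κ) with hφ
  have hφL : ∀ j, |φ (j + 1) - φ j| ≤ 1 / J := by
    intro j
    have e1 : ((1, ((j + 1 : ℕ) : ℝ) * κ) : ℝ × ℝ) = (1, j * κ) + (0, κ) :=
      Prod.ext (by simp) (by simp only [Prod.snd_add]; push_cast; ring)
    have e2 : ((1, (j : ℝ) * κ) : ℝ × ℝ) = (1, ((j + 1 : ℕ) : ℝ) * κ) + -(0, κ) :=
      Prod.ext (by simp) (by simp only [Prod.snd_add, Prod.snd_neg]; push_cast; ring)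
    have h0 : N (0, κ) ≤ κ := by
      have := hub (0, κ)
      simp only [abs_zero, zero_add, abs_of_pos hκ0] at this
      exact this
    have h1 := hadd (1, j * κ) (0, κ)
    rw [← e1] at h1
    have h2 := hadd (1, ((j + 1 : ℕ) : ℝ) * κ) (-(0, κ))
    rw [← e2, hneg] at h2
    rw [abs_le, ← hκ]
    simp only [hφ]
    constructor <;> linarith
  obtain ⟨j, hj, hjd⟩ := exists_small_second_difference hJ hφL
  have hφ0 : ∀ i, 0 ≤ φ i := fun i => hN _
  have hφ2 : ∀ i ≤ J, φ i ≤ 2 := by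
    intro i hi
    have h1 := hub (1, i * κ)
    have h2 : (i : ℝ) * κ ≤ 1 := by
      calc (i : ℝ) * κ ≤ J * κ := by gcongr
        _ = 1 := by rw [mul_comm]; exact hκJ
    simp only [abs_one, abs_of_nonneg (show 0 ≤ (i : ℝ) * κ by positivity)] at h1
    simp only [hφ]
    linarith
  have hφc : ∀ i, c ≤ φ i := by
    intro i
    have h1 := hlb (1, i * κ)
    simp only [abs_one] at h1
    have h2 : (1 : ℝ) ≤ max 1 |(i : ℝ) * κ| := le_max_left _ _
    simp only [hφ]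
    have h3 := mul_le_mul_of_nonneg_left h2 hc.le
    linarith only [h1, h3]
  set a := φ (j + 1) with ha
  have hac : c ≤ a := hφc _
  have ha0 : 0 < a := lt_of_lt_of_le hc hac
  set dp : ℝ := (φ (j + 2) - a) / κ with hdp
  set dm : ℝ := (a - φ j) / κ with hdm
  have hdp1 : |dp| ≤ 1 := by
    rw [hdp, abs_div, abs_of_pos hκ0, div_le_one hκ0, hκ]
    exact hφL (j + 1)
  have hdm1 : |dm| ≤ 1 := by
    rw [hdm, abs_div, abs_of_pos hκ0, div_le_one hκ0, hκ]
    exact hφL j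
  have hdd : dp - dm ≤ 4 * κ := by
    rw [hdp, hdm, ← sub_div, div_le_iff₀ hκ0]
    nlinarith
  set i : ℤ := ⌊dp / a / κ⌋ with hi
  set β : ℝ := i * κ with hβ
  have hi1 := Int.floor_le (dp / a / κ)
  have hi2 := Int.lt_floor_add_one (dp / a / κ)
  rw [← hi] at hi1 hi2
  have hβ1 : β ≤ dp / a := by
    rw [le_div_iff₀ hκ0] at hi1
    exact hi1
  have hβ2 : dp / a ≤ β + κ := by
    rw [div_lt_iff₀ hκ0] at hi2
    rw [hβ]
    linarith
  have hβa1 : β * a ≤ dp := by rwa [le_div_iff₀ ha0] at hβ1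
  have hβa2 : dp ≤ (β + κ) * a := by rwa [div_le_iff₀ ha0] at hβ2
  have hda : |dp / a| ≤ 1 / c := by
    rw [abs_div, abs_of_pos ha0]
    gcongr
  have hda' := abs_le.1 hda
  have hβb : |β| ≤ b := by
    rw [abs_le, hb]
    constructor <;> linarith
  have ha2 : a ≤ 2 := hφ2 _ (by omega)
  have hjκ : ((j + 1 : ℕ) : ℝ) * κ ≤ 1 := by
    have : ((j + 1 : ℕ) : ℝ) ≤ J := by exact_mod_cast (by omega : j + 1 ≤ J)
    calc ((j + 1 : ℕ) : ℝ) * κ ≤ J * κ := by gcongr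
      _ = 1 := by rw [mul_comm]; exact hκJ
  have hjκ0 : 0 ≤ ((j + 1 : ℕ) : ℝ) * κ := by positivity
  have hκ2 : κ ^ 2 ≤ 1 := pow_le_one₀ hκ0.le (by linarith only [hκ1])
  have hκC : κ ^ 2 * C' ≤ C' := mul_le_of_le_one_left hC'0.le hκ2
  refine ⟨F (j + 1, i), Finset.mem_image.2 ⟨(j + 1, i), ?_, rfl⟩, ?_, ?_, ?_, ?_⟩
  · rw [Finset.mem_product, Finset.mem_range, Finset.mem_Icc]
    have hβb' := abs_le.1 hβb
    have h1 : (i : ℝ) ≤ b * J := by
      have : (i : ℝ) = β * J := by rw [hβ, mul_assoc, hκJ, mul_one]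
      rw [this]
      gcongr
      exact hβb'.2
    have h2 : -(b * J) ≤ (i : ℝ) := by
      have : (i : ℝ) = β * J := by rw [hβ, mul_assoc, hκJ, mul_one]
      rw [this, ← neg_mul]
      exact mul_le_mul_of_nonneg_right hβb'.1 hJ0.le
    refine ⟨by simp only; omega, ?_, Int.le_floor.2 h1⟩
    have h3 : -i ≤ ⌊b * J⌋ := Int.le_floor.2 (by push_cast; linarith)
    simp only
    omega
  · have : N (F (j + 1, i)).1 = a := rfl
    rw [this]
    linarith
  · have h1 := hlb (F (j + 1, i)).2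
    have h2 : (1 : ℝ) / 2 ≤ max |(F (j + 1, i)).2.1| |(F (j + 1, i)).2.2| := by
      simp only [hF, abs_neg]
      rw [← hβ, le_max_iff]
      by_cases hcase : 1 / 2 ≤ |β|
      · exact Or.inl hcase
      · right
        push Not at hcase
        have h3 : |β * (((j + 1 : ℕ) : ℝ) * κ)| ≤ 1 / 2 := by
          rw [abs_mul, abs_of_nonneg hjκ0]
          calc |β| * (((j + 1 : ℕ) : ℝ) * κ) ≤ 1 / 2 * 1 := by gcongr
            _ = 1 / 2 := by norm_num
        have h4 := abs_le.1 h3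
        rw [le_abs]
        left
        linarith
    have h5 := mul_le_mul_of_nonneg_left h2 hc.le
    linarith only [h1, h5]
  · have e1 : (F (j + 1, i)).1 + κ • (F (j + 1, i)).2 =
        (1 - κ * β) • ((1, ((j + 2 : ℕ) : ℝ) * κ) : ℝ × ℝ) + (κ ^ 2 * β) • ((0, 1) : ℝ × ℝ) := by
      refine Prod.ext ?_ ?_
      · simp only [hF, Prod.fst_add, Prod.smul_fst, smul_eq_mul]
        rw [hβ]
        ring
      · simp only [hF, Prod.snd_add, Prod.smul_snd, smul_eq_mul]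
        rw [hβ]
        push_cast
        ring
    have h1 : N ((F (j + 1, i)).1 + κ • (F (j + 1, i)).2) ≤ |1 - κ * β| * φ (j + 2) + κ ^ 2 * |β| := by
      rw [e1]
      refine (hadd _ _).trans ?_
      rw [hsmul, hsmul, abs_mul, abs_of_nonneg (sq_nonneg κ)]
      have : N (0, 1) ≤ 1 := by
        have := hub (0, 1)
        simpa using this
      have h2 : κ ^ 2 * |β| * N (0, 1) ≤ κ ^ 2 * |β| * 1 := by gcongr
      simp only [hφ]
      linarith
    have h2 := perturb_aux (κ := κ) (β := β) (a := a) (b := φ (j + 2)) (d := dp) (b₀ := b) hκ0.le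
      ha0.le ha2 hβb (by rw [hdp]; field_simp; ring) (hφ2 _ hj) (hφ0 _) hdp1 (by
        have f1 := mul_le_mul_of_nonneg_left ha2 hκ0.le
        linarith only [hβa2, f1, hκ0])
    have h3 : N (F (j + 1, i)).1 = a := rfl
    rw [h3]
    have h4 := h1.trans h2
    have h5 : N ((F (j + 1, i)).1 + κ • (F (j + 1, i)).2) ^ p ≤ (a + κ ^ 2 * C') ^ p :=
      Real.rpow_le_rpow (hN _) h4 (by linarith)
    have h6 := rpow_add_le_add hp ha0.le (show 0 ≤ κ ^ 2 * C' by positivity)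
    have h7 : (a + κ ^ 2 * C') ^ (p - 1) ≤ (2 + C') ^ (p - 1) :=
      Real.rpow_le_rpow (by positivity) (add_le_add ha2 hκC) (sub_nonneg.2 hp)
    have h8 : p * (a + κ ^ 2 * C') ^ (p - 1) * (κ ^ 2 * C') ≤
        p * (2 + C') ^ (p - 1) * (κ ^ 2 * C') := by gcongr
    have h9 : p * (2 + C') ^ (p - 1) * (κ ^ 2 * C') = p * (2 + C') ^ (p - 1) * C' * κ ^ 2 := by ring
    linarith
  · have e1 : (F (j + 1, i)).1 - κ • (F (j + 1, i)).2 =
        (1 + κ * β) • ((1, ((j : ℕ) : ℝ) * κ) : ℝ × ℝ) + (κ ^ 2 * β) • ((0, 1) : ℝ × ℝ) := by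
      refine Prod.ext ?_ ?_
      · simp only [hF, Prod.fst_add, Prod.fst_sub, Prod.smul_fst, smul_eq_mul]
        rw [hβ]
        ring
      · simp only [hF, Prod.snd_add, Prod.snd_sub, Prod.smul_snd, smul_eq_mul]
        rw [hβ]
        push_cast
        ring
    have h1 : N ((F (j + 1, i)).1 - κ • (F (j + 1, i)).2) ≤
        |1 - κ * (-β)| * φ j + κ ^ 2 * |(-β)| := by
      rw [e1]
      refine (hadd _ _).trans ?_
      rw [hsmul, hsmul, abs_mul, abs_of_nonneg (sq_nonneg κ), abs_neg]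
      have : N (0, 1) ≤ 1 := by
        have := hub (0, 1)
        simpa using this
      have h2 : κ ^ 2 * |β| * N (0, 1) ≤ κ ^ 2 * |β| * 1 := by gcongr
      have e3 : 1 - κ * (-β) = 1 + κ * β := by ring
      rw [e3]
      simp only [hφ]
      linarith
    have h2 := perturb_aux (κ := κ) (β := -β) (a := a) (b := φ j) (d := -dm) (b₀ := b) hκ0.le
      ha0.le ha2 (by rwa [abs_neg]) (by rw [hdm]; field_simp; ring) (hφ2 _ (by omega)) (hφ0 _)
      (by rwa [abs_neg]) (by linarith only [hβa1, hdd])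
    have h3 : N (F (j + 1, i)).1 = a := rfl
    rw [h3]
    have h4 := h1.trans h2
    have h5 : N ((F (j + 1, i)).1 - κ • (F (j + 1, i)).2) ^ p ≤ (a + κ ^ 2 * C') ^ p :=
      Real.rpow_le_rpow (hN _) h4 (by linarith)
    have h6 := rpow_add_le_add hp ha0.le (show 0 ≤ κ ^ 2 * C' by positivity)
    have h7 : (a + κ ^ 2 * C') ^ (p - 1) ≤ (2 + C') ^ (p - 1) :=
      Real.rpow_le_rpow (by positivity) (add_le_add ha2 hκC) (sub_nonneg.2 hp)
    have h8 : p * (a + κ ^ 2 * C') ^ (p - 1) * (κ ^ 2 * C') ≤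
        p * (2 + C') ^ (p - 1) * (κ ^ 2 * C') := by gcongr
    have h9 : p * (2 + C') ^ (p - 1) * (κ ^ 2 * C') = p * (2 + C') ^ (p - 1) * C' * κ ^ 2 := by ring
    linarith

end Pool.Agent.SierpinskiCarpet
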