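import Pool.Agent.helper33.SRCore2
import Pool.Agent.helper33.SRGeom
import Pool.Agent.helper33.SCIndex

/-!
# The energy has index one
-/

open MeasureTheory Filter Topology

namespace Pool.Agent.SierpinskiCarpet

/-- the arithmetic at the end of the sum over the good cells -/
theorem gsum_arith {ε Cs tc sc gc Sc a b s : ℝ} (hε : 0 < ε) (hCs : 0 < Cs) (htc : 0 ≤ tc)
    (hsc : 0 ≤ sc) (hgS : gc ≤ Sc) (hgc : 0 ≤ gc)
    (h2 : s ≤ Cs * (2 * a + 4 * b) + gc * (ε / (16 * (Sc + 1))))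
    (h3 : a ≤ sc * (2 * (ε / (16 * (Cs * (sc + 1))))))
    (h4 : b ≤ tc * (9 * (ε / (16 * (36 * Cs * (tc + 1)))))) : s ≤ ε / 2 := by
  have hS : 0 ≤ Sc := hgc.trans hgS
  have h5 : gc * (ε / (16 * (Sc + 1))) ≤ ε / 16 := by
    have e : gc * (ε / (16 * (Sc + 1))) = ε / 16 * (gc / (Sc + 1)) := by field_simp
    rw [e]
    exact mul_le_of_le_one_right (by positivity) ((div_le_one (by positivity)).2 (by linarith))
  have h6 : Cs * (2 * (sc * (2 * (ε / (16 * (Cs * (sc + 1))))))) ≤ ε / 4 := by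
    have e : Cs * (2 * (sc * (2 * (ε / (16 * (Cs * (sc + 1))))))) = ε / 4 * (sc / (sc + 1)) := by
      field_simp
      ring
    rw [e]
    exact mul_le_of_le_one_right (by positivity) ((div_le_one (by positivity)).2 (by linarith))
  have h7 : Cs * (4 * (tc * (9 * (ε / (16 * (36 * Cs * (tc + 1))))))) ≤ ε / 16 := by
    have e : Cs * (4 * (tc * (9 * (ε / (16 * (36 * Cs * (tc + 1))))))) =
        ε / 16 * (tc / (tc + 1)) := by
      field_simp
      ring
    rw [e]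
    exact mul_le_of_le_one_right (by positivity) ((div_le_one (by positivity)).2 (by linarith))
  have h8 : Cs * (2 * a + 4 * b) ≤ Cs * (2 * (sc * (2 * (ε / (16 * (Cs * (sc + 1)))))) +
      4 * (tc * (9 * (ε / (16 * (36 * Cs * (tc + 1))))))) :=
    mul_le_mul_of_nonneg_left (by linarith) hCs.le
  rw [mul_add Cs (2 * (sc * _))] at h8
  linarith only [h2, h5, h6, h7, h8, hε]

variable {K : Set (ℝ × ℝ)} {hK : IsCarpet K} {A : Set (K → ℝ)} {p ρ : ℝ} {E : (K → ℝ) → ℝ}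

/-- The densities are nearly constant on most cells. -/
theorem near_const {q m : List (Fin 8) → ℝ} {C : ℝ} (hq : TreeMeasure q) (hm : TreeMeasure m)
    (hC : ∀ w, q w ≤ C * m w) (hC0 : 0 ≤ C) {η : ℝ} (hη : 0 < η) :
    ∃ N, ∀ n ≥ N, ∀ k, ∑ w ∈ words n, ∑ x ∈ words k, |q (w ++ x) - q w / m w * m (w ++ x)| ≤ η := by
  set T : ℕ → ℝ := fun n => sqSum q m [] n with hT
  have hTmono : Monotone T := fun a b hab => sqSum_mono hq hm hC [] hab
  have hTbdd : BddAbove (Set.range T) := by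
    refine ⟨C ^ 2 * m [], ?_⟩
    rintro _ ⟨n, rfl⟩
    exact sqSum_le hq hm hC hC0 [] n
  have hm0 := hm.nonneg []
  have hlim := tendsto_atTop_ciSup hTmono hTbdd
  have hpos : 0 < η ^ 2 / (m [] + 1) := by positivity
  obtain ⟨N, hN⟩ := (hlim.eventually (lt_mem_nhds
    (show (⨆ n, T n) - η ^ 2 / (m [] + 1) < ⨆ n, T n by linarith))).exists
  refine ⟨N, fun n hn k => ?_⟩
  have h1 : T (n + k) - T n ≤ η ^ 2 / (m [] + 1) := by
    have a1 : T (n + k) ≤ ⨆ n, T n := le_ciSup hTbdd _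
    have a2 := hTmono hn
    linarith
  have h2 : ∑ w ∈ words n, (sqSum q m w k - sqSum q m w 0) = T (n + k) - T n := by
    have e1 := sqSum_add q m [] n k
    have e2 := sqSum_add q m [] n 0
    simp only [List.nil_append, add_zero] at e1 e2
    rw [Finset.sum_sub_distrib, ← e1, ← e2]
  have h3 := Finset.sum_sq_le_sum_mul_sum_of_sq_le_mul (words n)
    (r := fun w => ∑ x ∈ words k, |q (w ++ x) - q w / m w * m (w ++ x)|)
    (f := m) (g := fun w => sqSum q m w k - sqSum q m w 0) (fun w _ => hm.nonneg w)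
    (fun w _ => by
      have := sqSum_zero_le hq hm hC w k
      linarith) (fun w _ => sq_sum_abs_le hq hm hC w k)
  have h4 : ∑ w ∈ words n, m w = m [] := by
    have := hm.sum [] n
    simpa using this
  rw [h2, h4] at h3
  have h5 : (∑ w ∈ words n, ∑ x ∈ words k, |q (w ++ x) - q w / m w * m (w ++ x)|) ^ 2 ≤ η ^ 2 := by
    calc _ ≤ m [] * (T (n + k) - T n) := h3
      _ ≤ m [] * (η ^ 2 / (m [] + 1)) := by gcongr
      _ ≤ η ^ 2 := by
        rw [mul_div_assoc', div_le_iff₀ (by positivity)]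
        nlinarith [sq_nonneg η]
  exact (abs_le_of_sq_le_sq' h5 hη.le).2

/-- The cells on which the measure is not doubling carry little mass. -/
theorem nondoubling_le {m : List (Fin 8) → ℝ} (hm : TreeMeasure m) {CM : ℝ} (hCM : 0 < CM) (n : ℕ)
    {S : Finset (List (Fin 8))} (hS : S ⊆ words n)
    (hSm : ∀ y ∈ S, CM * m y ≤ ∑ w ∈ nbh 2 n y, m w) : ∑ y ∈ S, m y ≤ 25 * m [] / CM := by
  have h1 := sum_nbh_le 2 n m hm.nonneg S hS
  have h2 := Finset.sum_le_sum hSm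
  rw [← Finset.mul_sum] at h2
  have h4 : ∑ w ∈ words n, m w = m [] := by
    have := hm.sum [] n
    simpa using this
  rw [h4] at h1
  rw [le_div_iff₀ hCM]
  push_cast at h1
  linarith

namespace Reg

variable (h : Reg hK p ρ A E)

include h

theorem lin_mem (a : ℝ × ℝ) {u v : K → ℝ} (hu : u ∈ A) (hv : v ∈ A) : lin a u v ∈ A :=
  h.lat.add_mem _ (h.lat.smul_mem _ u hu) _ (h.lat.smul_mem _ v hv)

/-- The oscillation on neighbourhoods of cells tends to zero. -/
theorem exists_osc {f : K → ℝ} (hf : f ∈ A) {δ : ℝ} (hδ : 0 < δ) :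
    ∃ N, ∀ n ≥ N, ∀ y ∈ words n, ∀ x x' : K, gd y x ≤ 3 → gd y x' ≤ 3 → |f x - f x'| ≤ δ := by
  have := hK.instCompact
  have hfc := h.lat.cont f hf
  have hu := CompactSpace.uniformContinuous_of_continuous hfc
  obtain ⟨δ', hδ', hd⟩ := Metric.uniformContinuous_iff.1 hu δ hδ
  have ht : Tendsto (fun n : ℕ => 6 * (1 / 3 : ℝ) ^ n) atTop (𝓝 (6 * 0)) :=
    (tendsto_pow_atTop_nhds_zero_of_lt_one (by norm_num) (by norm_num)).const_mul _
  rw [mul_zero] at ht
  obtain ⟨N, hN⟩ := eventually_atTop.1 (ht.eventually (gt_mem_nhds hδ'))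
  refine ⟨N, fun n hn y hy x x' hx hx' => ?_⟩
  have h3 : (0 : ℝ) < 3 ^ n := by positivity
  have hlen := mem_words.1 hy
  have hco : ∀ d, |co d x.1 - co d x'.1| ≤ 6 * (1 / 3) ^ n := by
    intro d
    have a1 := (le_gd d y x).trans hx
    have a2 := (le_gd d y x').trans hx'
    rw [hlen, abs_le] at a1 a2
    rw [one_div, inv_pow, ← div_eq_mul_inv, le_div_iff₀ h3, ← abs_of_pos h3, ← abs_mul, abs_le]
    constructor <;> nlinarith
  have hdist : dist x x' < δ' := by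
    refine lt_of_le_of_lt ?_ (hN n hn)
    rw [Subtype.dist_eq, Prod.dist_eq]
    refine max_le ?_ ?_
    · rw [Real.dist_eq]
      exact hco true
    · rw [Real.dist_eq]
      exact hco false
  have := hd hdist
  rw [Real.dist_eq] at this
  exact this.le

theorem bg_mono {v : K → ℝ} (hv : v ∈ A) {δ δ' : ℝ} (hδ : 0 ≤ δ) (hδδ : δ ≤ δ') (n : ℕ)
    (y : List (Fin 8)) : bg hK A E v δ n y ≤ bg hK A E v δ' n y := by
  refine csSup_le_csSup (h.gain_bdd δ' n y) ⟨0, gain_zero hv hδ n y⟩ ?_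
  rintro γ ⟨φ, h1, h2, h3, h4⟩
  exact ⟨φ, h1, h2, fun x => (h3 x).trans hδδ, h4⟩

open Classical in
/-- The cells near the boundary of cells of a given level. -/
theorem nearB_total {f : K → ℝ} (hf : f ∈ A) (n₁ : ℕ) {ε : ℝ} (hε : 0 < ε) :
    ∃ k₀, ∀ k ≥ k₀, ∑ w ∈ words n₁, ∑ x ∈ (words k).filter NearB,
      ρ ^ (w ++ x).length * E (f ∘ cell hK (w ++ x)) ≤ ε := by
  have hρ := h.rho_pos
  set ε' : ℝ := ε / (8 ^ n₁ * ρ ^ n₁) with hε'
  have hε'0 : 0 < ε' := by positivity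
  choose k₀ hk₀ using fun w : List (Fin 8) => h.nearB_tendsto (h.lat.cell_mem hf w) hε'0
  refine ⟨(words n₁).sup k₀, fun k hk => ?_⟩
  have h1 : ∀ w ∈ words n₁, ∑ x ∈ (words k).filter NearB,
      ρ ^ (w ++ x).length * E (f ∘ cell hK (w ++ x)) ≤ ρ ^ n₁ * ε' := by
    intro w hw
    have h2 := hk₀ w k ((Finset.le_sup hw).trans hk)
    have e : ∑ x ∈ (words k).filter NearB, ρ ^ (w ++ x).length * E (f ∘ cell hK (w ++ x)) =
        ρ ^ n₁ * (ρ ^ k * ∑ x ∈ (words k).filter NearB, E ((f ∘ cell hK w) ∘ cell hK x)) := by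
      rw [Finset.mul_sum, Finset.mul_sum]
      refine Finset.sum_congr rfl fun x hx => ?_
      rw [List.length_append, mem_words.1 hw, mem_words.1 (Finset.mem_filter.1 hx).1, pow_add,
        cell_append, mul_assoc]
      rfl
    rw [e]
    gcongr
  refine (Finset.sum_le_sum h1).trans (le_of_eq ?_)
  rw [Finset.sum_const, card_words, nsmul_eq_mul, hε']
  push_cast
  field_simp

theorem lin_le {a : ℝ × ℝ} {B : ℝ} (ha1 : |a.1| ≤ B) (ha2 : |a.2| ≤ B) {u v : K → ℝ} (hu : u ∈ A)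
    (hv : v ∈ A) : E (lin a u v) ≤ 2 ^ p * B ^ p * (E u + E v) := by
  have hp := h.p_pos
  have hEu := h.nonneg u hu
  have hEv := h.nonneg v hv
  have h1 := h.sem
  have h2 : E (lin a u v) ≤ 2 ^ p * (E (a.1 • u) + E (a.2 • v)) := by
    have hs := h.subadd _ (h.lat.smul_mem a.1 u hu) _ (h.lat.smul_mem a.2 v hv)
    have h3 := h.nonneg _ (h.lin_mem a hu hv)
    have h4 := h.nonneg _ (h.lat.smul_mem a.1 u hu)
    have h5 := h.nonneg _ (h.lat.smul_mem a.2 v hv)
    rw [← rpow_one_div_rpow hp h3]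
    calc (E (lin a u v) ^ (1 / p)) ^ p ≤ (E (a.1 • u) ^ (1 / p) + E (a.2 • v) ^ (1 / p)) ^ p :=
          Real.rpow_le_rpow (by positivity) hs hp.le
      _ ≤ 2 ^ p * ((E (a.1 • u) ^ (1 / p)) ^ p + (E (a.2 • v) ^ (1 / p)) ^ p) :=
          add_rpow_le hp (by positivity) (by positivity)
      _ = _ := by rw [rpow_one_div_rpow hp h4, rpow_one_div_rpow hp h5]
  rw [h.smul u hu, h.smul v hv] at h2
  have h6 : |a.1| ^ p ≤ B ^ p := Real.rpow_le_rpow (abs_nonneg _) ha1 hp.le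
  have h7 : |a.2| ^ p ≤ B ^ p := Real.rpow_le_rpow (abs_nonneg _) ha2 hp.le
  calc E (lin a u v) ≤ 2 ^ p * (|a.1| ^ p * E u + |a.2| ^ p * E v) := h2
    _ ≤ 2 ^ p * (B ^ p * E u + B ^ p * E v) := by gcongr
    _ = _ := by ring

omit h in
theorem lin_comb (a b : ℝ × ℝ) (κ : ℝ) (u v : K → ℝ) :
    lin a u v + κ • lin b u v = lin (a + κ • b) u v := by
  funext x
  simp only [lin, Pi.add_apply, Pi.smul_apply, smul_eq_mul, Prod.fst_add, Prod.snd_add,
    Prod.smul_fst, Prod.smul_snd]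
  ring

omit h in
theorem lin_comb' (a b : ℝ × ℝ) (κ : ℝ) (u v : K → ℝ) :
    lin a u v - κ • lin b u v = lin (a - κ • b) u v := by
  funext x
  simp only [lin, Pi.add_apply, Pi.sub_apply, Pi.smul_apply, smul_eq_mul, Prod.fst_sub,
    Prod.snd_sub, Prod.smul_fst, Prod.smul_snd]
  ring

/-- On a nondegenerate cell there is a pair of combinations with good properties. -/
theorem flat_pair {c₀ : ℝ} (hc₀ : 0 < c₀) : ∃ Cg B₁ : ℝ, 0 < Cg ∧ 0 < B₁ ∧ ∀ J : ℕ, 2 ≤ J →
    ∃ S : Finset ((ℝ × ℝ) × (ℝ × ℝ)),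
    (∀ ab ∈ S, |ab.1.1| ≤ B₁ ∧ |ab.1.2| ≤ B₁ ∧ |ab.2.1| ≤ B₁ ∧ |ab.2.2| ≤ B₁) ∧
    ∀ f ∈ A, ∀ g ∈ A, 0 < E f + E g → (∀ a : ℝ × ℝ, max |a.1| |a.2| = 1 →
      c₀ * (E f + E g) ≤ E (lin a f g)) → ∃ ab ∈ S,
      c₀ / 2 ^ p * (E f + E g) ≤ E (lin ab.1 f g) ∧ c₀ / 2 ^ p * (E f + E g) ≤ E (lin ab.2 f g) ∧
      E (lin (ab.1 + (1 / J : ℝ) • ab.2) f g) ≤
        E (lin ab.1 f g) + Cg * (1 / J : ℝ) ^ 2 * (E f + E g) ∧
      E (lin (ab.1 - (1 / J : ℝ) • ab.2) f g) ≤
        E (lin ab.1 f g) + Cg * (1 / J : ℝ) ^ 2 * (E f + E g) := by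
  have hp := h.p_pos
  have hc : 0 < c₀ ^ (1 / p) := by positivity
  obtain ⟨Cg, B₁, hCg, hB₁, hJ⟩ := flat_geometry h.one_lt.le hc
  refine ⟨Cg, B₁, hCg, hB₁, fun J hJ2 => ?_⟩
  obtain ⟨S, hSb, hS⟩ := hJ J hJ2
  refine ⟨S, hSb, fun f hfA g hgA h0 hnd => ?_⟩
  set ν := E f + E g with hν
  set N' : ℝ × ℝ → ℝ := fun a => (E (lin a f g) / ν) ^ (1 / p) with hN'
  have hE0 : ∀ a, 0 ≤ E (lin a f g) := fun a => h.nonneg _ (h.lin_mem a hfA hgA)
  have hEf := h.nonneg f hfA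
  have hEg := h.nonneg g hgA
  have hN'p : ∀ a, N' a ^ p = E (lin a f g) / ν := fun a =>
    rpow_one_div_rpow hp (div_nonneg (hE0 a) h0.le)
  have hN'eq : ∀ a, N' a = E (lin a f g) ^ (1 / p) / ν ^ (1 / p) := fun a =>
    Real.div_rpow (hE0 a) h0.le _
  have hνp : 0 < ν ^ (1 / p) := by positivity
  have hsmul : ∀ (t : ℝ) a, N' (t • a) = |t| * N' a := by
    intro t a
    have e : lin (t • a) f g = t • lin a f g := by
      funext x
      simp only [lin, Prod.smul_fst, Prod.smul_snd, smul_eq_mul, Pi.add_apply, Pi.smul_apply]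
      ring
    rw [hN'eq, hN'eq, e, h.smul _ (h.lin_mem a hfA hgA), Real.mul_rpow (by positivity) (hE0 a),
      rpow_rpow_one_div hp (abs_nonneg t)]
    ring
  have hadd : ∀ a b, N' (a + b) ≤ N' a + N' b := by
    intro a b
    have e : lin (a + b) f g = lin a f g + lin b f g := by
      funext x
      simp only [lin, Prod.fst_add, Prod.snd_add, smul_eq_mul, Pi.add_apply, Pi.smul_apply]
      ring
    rw [hN'eq, hN'eq, hN'eq, e, ← add_div]
    gcongr
    exact h.subadd _ (h.lin_mem a hfA hgA) _ (h.lin_mem b hfA hgA)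
  have hub : ∀ a, N' a ≤ |a.1| + |a.2| := by
    intro a
    have h1 : N' a ≤ N' (a.1, 0) + N' (0, a.2) := by
      have := hadd (a.1, 0) (0, a.2)
      simpa using this
    have h2 : N' (a.1, 0) ≤ |a.1| := by
      have e1 : ((a.1, 0) : ℝ × ℝ) = a.1 • ((1, 0) : ℝ × ℝ) := by simp
      rw [e1, hsmul]
      have e2 : N' (1, 0) ≤ 1 := by
        refine Real.rpow_le_one (div_nonneg (hE0 _) h0.le) ?_ (by positivity)
        rw [div_le_one h0]
        have : lin (1, 0) f g = f := by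
          funext x
          simp [lin]
        rw [this]
        linarith
      calc |a.1| * N' (1, 0) ≤ |a.1| * 1 := by gcongr
        _ = |a.1| := mul_one _
    have h3 : N' (0, a.2) ≤ |a.2| := by
      have e1 : ((0, a.2) : ℝ × ℝ) = a.2 • ((0, 1) : ℝ × ℝ) := by simp
      rw [e1, hsmul]
      have e2 : N' (0, 1) ≤ 1 := by
        refine Real.rpow_le_one (div_nonneg (hE0 _) h0.le) ?_ (by positivity)
        rw [div_le_one h0]
        have : lin (0, 1) f g = g := by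
          funext x
          simp [lin]
        rw [this]
        linarith
      calc |a.2| * N' (0, 1) ≤ |a.2| * 1 := by gcongr
        _ = |a.2| := mul_one _
    linarith
  have hlb : ∀ a, c₀ ^ (1 / p) * max |a.1| |a.2| ≤ N' a := by
    intro a
    rcases (show 0 ≤ max |a.1| |a.2| from (abs_nonneg _).trans (le_max_left _ _)).eq_or_lt
      with h1 | h1
    · rw [← h1, mul_zero]
      exact Real.rpow_nonneg (div_nonneg (hE0 _) h0.le) _
    · set t := max |a.1| |a.2| with ht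
      have e1 : a = t • (t⁻¹ • a) := by rw [smul_smul, mul_inv_cancel₀ h1.ne', one_smul]
      have e2 : max |(t⁻¹ • a).1| |(t⁻¹ • a).2| = 1 := by
        simp only [Prod.smul_fst, Prod.smul_snd, smul_eq_mul, abs_mul, abs_inv, abs_of_pos h1]
        rw [← mul_max_of_nonneg _ _ (inv_nonneg.2 h1.le), ← ht, inv_mul_cancel₀ h1.ne']
      have e3 := hnd (t⁻¹ • a) e2
      have e4 : c₀ ^ (1 / p) ≤ N' (t⁻¹ • a) := by
        refine Real.rpow_le_rpow hc₀.le ?_ (by positivity)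
        rw [le_div_iff₀ h0]
        exact e3
      calc c₀ ^ (1 / p) * t ≤ N' (t⁻¹ • a) * t := by gcongr
        _ = N' (t • (t⁻¹ • a)) := by rw [hsmul t, abs_of_pos h1, mul_comm]
        _ = N' a := by rw [← e1]
  obtain ⟨ab, hab, h1, h2, h3, h4⟩ := hS N'
    (fun a => Real.rpow_nonneg (div_nonneg (hE0 _) h0.le) _) hadd hsmul hub hlb
  have hlow : ∀ a, c₀ ^ (1 / p) / 2 ≤ N' a → c₀ / 2 ^ p * ν ≤ E (lin a f g) := by
    intro a ha
    have h5 : (c₀ ^ (1 / p) / 2) ^ p ≤ N' a ^ p := Real.rpow_le_rpow (by positivity) ha hp.le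
    rw [Real.div_rpow hc.le (by norm_num), rpow_one_div_rpow hp hc₀.le, hN'p,
      le_div_iff₀ h0] at h5
    exact h5
  refine ⟨ab, hab, hlow _ h1, hlow _ h2, ?_, ?_⟩
  · rw [hN'p, hN'p, div_le_iff₀ h0, add_mul, div_mul_cancel₀ _ h0.ne'] at h3
    exact h3
  · rw [hN'p, hN'p, div_le_iff₀ h0, add_mul, div_mul_cancel₀ _ h0.ne'] at h4
    exact h4

omit h in
theorem exists_pos_le {ι : Type*} (T : Finset ι) (f : ι → ℝ) (hf : ∀ i, 0 < f i) :
    ∃ δ > 0, ∀ i ∈ T, δ ≤ f i := by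
  classical
  induction T using Finset.induction_on with
  | empty => exact ⟨1, one_pos, fun i hi => absurd hi (Finset.notMem_empty i)⟩
  | insert a T _ ih =>
    obtain ⟨δ, hδ, hδT⟩ := ih
    refine ⟨min (f a) δ, lt_min (hf a) hδ, fun i hi => ?_⟩
    rcases Finset.mem_insert.1 hi with rfl | hi
    · exact min_le_left _ _
    · exact (min_le_right _ _).trans (hδT i hi)

open Classical in
/-- The cells on which the pair is nondegenerate carry little mass. -/
theorem index_one {u v : K → ℝ} (hu : u ∈ A) (hv : v ∈ A) {c₀ : ℝ} (hc₀ : 0 < c₀) {ε : ℝ}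
    (hε : 0 < ε) :
    ∃ n, ∀ S ⊆ words n, (∀ w ∈ S, ∀ a : ℝ × ℝ, max |a.1| |a.2| = 1 →
      c₀ * (E (u ∘ cell hK w) + E (v ∘ cell hK w)) ≤ E (lin a (u ∘ cell hK w) (v ∘ cell hK w))) →
      mass hK ρ E u v n S ≤ ε := by
  have hp := h.p_pos
  have hρ := h.rho_pos
  set m : List (Fin 8) → ℝ := fun w =>
    ρ ^ w.length * E (u ∘ cell hK w) + ρ ^ w.length * E (v ∘ cell hK w) with hm
  have hmT : TreeMeasure m := by
    have h1 := h.tree hu
    have h2 := h.tree hv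
    refine ⟨fun w => add_nonneg (h1.nonneg w) (h2.nonneg w), fun w k => ?_⟩
    simp only [hm]
    rw [Finset.sum_add_distrib]
    exact congrArg₂ (· + ·) (h1.sum w k) (h2.sum w k)
  have hmn := hmT.nonneg
  have hmass : ∀ n, ∀ S ⊆ words n, mass hK ρ E u v n S = ∑ x ∈ S, m x := by
    intro n S hS
    refine Finset.sum_congr rfl fun x hx => ?_
    simp only [hm]
    rw [mem_words.1 (hS hx), mul_add]
  clear_value m
  set ν := m [] with hν
  have hν0 : 0 ≤ ν := hmn []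
  -- constants
  obtain ⟨Cg, B₁, hCg, hB₁, hflat⟩ := h.flat_pair hc₀
  set CM : ℝ := 100 * (ν + 1) / ε with hCM
  have hCM0 : 0 < CM := by positivity
  obtain ⟨J₀, hJ₀, Cs, hCs, hcore⟩ := h.core (c₂ := c₀ / 2 ^ p) (CM := CM) (Cg := Cg)
    (C₁ := 2 ^ p * B₁ ^ p) (by positivity) hCM0 hCg (by positivity)
  obtain ⟨S₀, hS₀b, hS₀⟩ := hflat J₀ hJ₀
  set κ : ℝ := 1 / J₀ with hκ
  set T : Finset (ℝ × ℝ) := (S₀.image (fun ab => ab.1) ∪ S₀.image (fun ab => ab.2)) ∪
    ((S₀.image fun ab => ab.1 + κ • ab.2) ∪ (S₀.image fun ab => ab.1 - κ • ab.2)) with hT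
  have hT1 : ∀ ab ∈ S₀, ab.1 ∈ T := fun ab hab => Finset.mem_union_left _
    (Finset.mem_union_left _ (Finset.mem_image_of_mem (fun ab : (ℝ × ℝ) × (ℝ × ℝ) => ab.1) hab))
  have hT2 : ∀ ab ∈ S₀, ab.2 ∈ T := fun ab hab => Finset.mem_union_left _
    (Finset.mem_union_right _ (Finset.mem_image_of_mem (fun ab : (ℝ × ℝ) × (ℝ × ℝ) => ab.2) hab))
  have hT3 : ∀ ab ∈ S₀, ab.1 + κ • ab.2 ∈ T := fun ab hab => Finset.mem_union_right _
    (Finset.mem_union_left _ (Finset.mem_image_of_mem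
      (fun ab : (ℝ × ℝ) × (ℝ × ℝ) => ab.1 + κ • ab.2) hab))
  have hT4 : ∀ ab ∈ S₀, ab.1 - κ • ab.2 ∈ T := fun ab hab => Finset.mem_union_right _
    (Finset.mem_union_right _ (Finset.mem_image_of_mem
      (fun ab : (ℝ × ℝ) × (ℝ × ℝ) => ab.1 - κ • ab.2) hab))
  set q : ℝ × ℝ → List (Fin 8) → ℝ := fun a w =>
    ρ ^ w.length * E (lin a u v ∘ cell hK w) with hq
  have hlin : ∀ a, lin a u v ∈ A := fun a => h.lin_mem a hu hv
  have hqT : ∀ a, TreeMeasure (q a) := fun a => h.tree (hlin a)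
  have hqC : ∀ (a : ℝ × ℝ) (B : ℝ), |a.1| ≤ B → |a.2| ≤ B → ∀ w, q a w ≤ 2 ^ p * B ^ p * m w := by
    intro a B h1 h2 w
    have h3 := h.lin_le h1 h2 (h.lat.cell_mem hu w) (h.lat.cell_mem hv w)
    have h4 : 0 < ρ ^ w.length := by positivity
    calc q a w ≤ ρ ^ w.length * (2 ^ p * B ^ p * (E (u ∘ cell hK w) + E (v ∘ cell hK w))) :=
          mul_le_mul_of_nonneg_left h3 h4.le
      _ = _ := by simp only [hm]; ring
  set η : ℝ := ε / (16 * (36 * Cs * (T.card + 1))) with hη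
  have hTc : (0 : ℝ) < T.card + 1 := Nat.cast_add_one_pos _
  have hη0 : 0 < η := div_pos hε (mul_pos (by norm_num) (mul_pos (mul_pos (by norm_num) hCs) hTc))
  set ε₂ : ℝ := ε / (16 * (Cs * (S₀.card + 1))) with hε₂
  have hε₂0 : 0 < ε₂ := div_pos hε (mul_pos (by norm_num) (mul_pos hCs (Nat.cast_add_one_pos _)))
  choose N₁ hN₁ using fun a : ℝ × ℝ => near_const (hqT a) hmT
    (hqC a (max |a.1| |a.2|) (le_max_left _ _) (le_max_right _ _))
    (by have := (abs_nonneg a.1).trans (le_max_left |a.1| |a.2|); positivity) hη0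
  set n₁ := T.sup N₁ with hn₁
  obtain ⟨k₁, hk₁⟩ := h.nearB_total hu n₁ (show 0 < ε / 16 by positivity)
  obtain ⟨k₂, hk₂⟩ := h.nearB_total hv n₁ (show 0 < ε / 16 by positivity)
  choose δf hδf0 hδf using fun a : ℝ × ℝ => h.patch_bg (hlin a) hε₂0
  obtain ⟨δ, hδ, hδT⟩ := exists_pos_le T δf hδf0
  choose N₂ hN₂ using fun a : ℝ × ℝ => h.exists_osc (hlin a) (show 0 < δ / 2 by positivity)
  set n₂ := k₁ + k₂ + T.sup N₂ with hn₂
  set n := n₁ + n₂ with hn
  refine ⟨n, fun S hS hnd => ?_⟩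
  rw [hmass n S hS]
  set ε₃ : ℝ := ε / (16 * (S.card + 1)) with hε₃
  have hε₃0 : 0 < ε₃ := div_pos hε (mul_pos (by norm_num) (Nat.cast_add_one_pos _))
  -- the good cells
  set G : Finset (List (Fin 8)) := S.filter fun y =>
    ¬CM * m y ≤ ∑ w ∈ nbh 2 n y, m w ∧ ¬NearB (y.drop n₁) ∧ 0 < m y with hG
  have hGS : G ⊆ S := Finset.filter_subset _ _
  set F : ℝ × ℝ → List (Fin 8) → ℝ := fun a x =>
    |q a x - q a (x.take n₁) / m (x.take n₁) * m x| with hF
  have hF0 : ∀ a x, 0 ≤ F a x := fun a x => abs_nonneg _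
  have hgood : ∀ y ∈ G, ∃ k₀, ∀ k ≥ k₀, m y ≤ Cs * (2 * ∑ ab ∈ S₀,
      (bg hK A E (lin ab.2 u v) δ n y + bg hK A E (lin ab.1 u v) δ n y) +
      4 * ∑ x ∈ under n k y, ∑ a ∈ T, F a x) + ε₃ := by
    intro y hy
    obtain ⟨hyS, hdbl, hnB, hmy⟩ := Finset.mem_filter.1 hy
    have hyn := hS hyS
    have hlen := mem_words.1 hyn
    have hρn : 0 < ρ ^ n := by positivity
    have hmyE : m y = ρ ^ n * (E (u ∘ cell hK y) + E (v ∘ cell hK y)) := by
      simp only [hm]
      rw [hlen]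
      ring
    have hpos : 0 < E (u ∘ cell hK y) + E (v ∘ cell hK y) := by
      rw [hmyE] at hmy
      exact (mul_pos_iff_of_pos_left hρn).1 hmy
    obtain ⟨ab, hab, p1, p2, p3, p4⟩ := hS₀ _ (h.lat.cell_mem hu y) _ (h.lat.cell_mem hv y) hpos
      (hnd y hyS)
    obtain ⟨b1, b2, b3, b4⟩ := hS₀b ab hab
    have hosc : ∀ a ∈ T, ∀ x x' : K, gd y x ≤ 3 → gd y x' ≤ 3 →
        |lin a u v x - lin a u v x'| ≤ δ / 2 := by
      intro a ha x x' hx hx'
      refine hN₂ a n ?_ y hyn x x' hx hx'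
      have := Finset.le_sup (f := N₂) ha
      omega
    set w₀ := y.take n₁ with hw₀
    obtain ⟨k₀, hk₀⟩ := hcore n y hyn (lin ab.2 u v) (hlin _) (lin ab.1 u v) (hlin _) m hmT hmy
      (not_le.1 hdbl).le (hqC ab.2 B₁ b3 b4) (hqC ab.1 B₁ b1 b2) (by
        rw [hmyE]
        have := mul_le_mul_of_nonneg_left p2 hρn.le
        calc c₀ / 2 ^ p * (ρ ^ n * (E (u ∘ cell hK y) + E (v ∘ cell hK y))) =
            ρ ^ n * (c₀ / 2 ^ p * (E (u ∘ cell hK y) + E (v ∘ cell hK y))) := by ring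
          _ ≤ _ := this) (by
        rw [hmyE]
        have := mul_le_mul_of_nonneg_left p1 hρn.le
        calc c₀ / 2 ^ p * (ρ ^ n * (E (u ∘ cell hK y) + E (v ∘ cell hK y))) =
            ρ ^ n * (c₀ / 2 ^ p * (E (u ∘ cell hK y) + E (v ∘ cell hK y))) := by ring
          _ ≤ _ := this) (by
        rw [hmyE, lin_comb]
        have := mul_le_mul_of_nonneg_left p3 hρn.le
        refine this.trans (le_of_eq ?_)
        have e : lin ab.1 (u ∘ cell hK y) (v ∘ cell hK y) = lin ab.1 u v ∘ cell hK y := rfl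
        rw [e]
        ring) (by
        rw [hmyE, lin_comb']
        have := mul_le_mul_of_nonneg_left p4 hρn.le
        refine this.trans (le_of_eq ?_)
        have e : lin ab.1 (u ∘ cell hK y) (v ∘ cell hK y) = lin ab.1 u v ∘ cell hK y := rfl
        rw [e]
        ring) (q ab.2 w₀ / m w₀) (q ab.1 w₀ / m w₀) (q (ab.1 + κ • ab.2) w₀ / m w₀)
      (q (ab.1 - κ • ab.2) w₀ / m w₀) δ hδ (hosc _ (hT2 ab hab)) (hosc _ (hT1 ab hab)) ε₃ hε₃0
    refine ⟨k₀, fun k hk => (hk₀ k hk).trans ?_⟩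
    have hanc : ∀ x ∈ under n k y, x.take n₁ = w₀ := by
      intro x hx
      rw [under, Finset.mem_filter] at hx
      obtain ⟨w, hw, x', hx', rfl, ht⟩ := exists_take hx.1
      rw [ht] at hx
      have hwl := mem_words.1 hw
      have e1 : (w ++ x').take n₁ = w.take n₁ := by
        rw [List.take_append_of_le_length (by omega)]
      rw [e1]
      refine ancestor_eq (w := w₀) (w' := w.take n₁) (x := y.drop n₁) (x' := w.drop n₁) ?_ ?_ hnB ?_
      · rw [hw₀, List.length_take, List.length_take, hlen, hwl]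
      · rw [List.length_drop, List.length_drop, hlen, hwl]
      · rw [hw₀, List.take_append_drop, List.take_append_drop]
        exact hx.2.mono (by norm_num)
    have hdvF : ∀ a ∈ T, ∀ x ∈ under n k y,
        dv hK ρ E m (lin a u v) (q a w₀ / m w₀) x ≤ ∑ a ∈ T, F a x := by
      intro a ha x hx
      have e : dv hK ρ E m (lin a u v) (q a w₀ / m w₀) x = F a x := by
        simp only [hF]
        rw [hanc x hx]
        rfl
      rw [e]
      exact Finset.single_le_sum (f := fun a => F a x) (fun a _ => hF0 a x) ha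
    have hbgn : ∀ a : ℝ × ℝ, 0 ≤ bg hK A E (lin a u v) δ n y := fun a =>
      h.bg_nonneg (hlin a) hδ.le n y
    have hsum1 : bg hK A E (lin ab.2 u v) δ n y + bg hK A E (lin ab.1 u v) δ n y ≤ ∑ ab ∈ S₀,
        (bg hK A E (lin ab.2 u v) δ n y + bg hK A E (lin ab.1 u v) δ n y) :=
      Finset.single_le_sum (f := fun ab : (ℝ × ℝ) × (ℝ × ℝ) =>
        bg hK A E (lin ab.2 u v) δ n y + bg hK A E (lin ab.1 u v) δ n y)
        (fun ab _ => add_nonneg (hbgn _) (hbgn _)) hab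
    have hsum2 : ∑ x ∈ under n k y, (dv hK ρ E m (lin ab.2 u v) (q ab.2 w₀ / m w₀) x +
        dv hK ρ E m (lin ab.1 u v) (q ab.1 w₀ / m w₀) x +
        dv hK ρ E m (lin ab.1 u v + (1 / J₀ : ℝ) • lin ab.2 u v)
          (q (ab.1 + κ • ab.2) w₀ / m w₀) x +
        dv hK ρ E m (lin ab.1 u v - (1 / J₀ : ℝ) • lin ab.2 u v)
          (q (ab.1 - κ • ab.2) w₀ / m w₀) x) ≤ 4 * ∑ x ∈ under n k y, ∑ a ∈ T, F a x := by
      rw [Finset.mul_sum]
      refine Finset.sum_le_sum fun x hx => ?_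
      rw [lin_comb, lin_comb']
      have a1 := hdvF _ (hT1 ab hab) x hx
      have a2 := hdvF _ (hT2 ab hab) x hx
      have a3 := hdvF _ (hT3 ab hab) x hx
      have a4 := hdvF _ (hT4 ab hab) x hx
      linarith
    have hsum0 : 0 ≤ ∑ ab ∈ S₀,
        (bg hK A E (lin ab.2 u v) δ n y + bg hK A E (lin ab.1 u v) δ n y) :=
      Finset.sum_nonneg fun ab _ => add_nonneg (hbgn _) (hbgn _)
    refine add_le_add (mul_le_mul_of_nonneg_left ?_ hCs.le) le_rfl
    linarith only [hsum1, hsum2, hsum0]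
  choose! k₀ hk₀ using hgood
  set k := G.sup k₀ with hk
  -- the sum over the good cells
  have hGsum : ∑ y ∈ G, m y ≤ ε / 2 := by
    have h1 : ∀ y ∈ G, m y ≤ Cs * (2 * ∑ ab ∈ S₀,
        (bg hK A E (lin ab.2 u v) δ n y + bg hK A E (lin ab.1 u v) δ n y) +
        4 * ∑ x ∈ under n k y, ∑ a ∈ T, F a x) + ε₃ := fun y hy =>
      hk₀ y hy k (Finset.le_sup hy)
    have h2 := Finset.sum_le_sum h1
    rw [Finset.sum_add_distrib, ← Finset.mul_sum, Finset.sum_add_distrib, ← Finset.mul_sum,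
      ← Finset.mul_sum, Finset.sum_const, nsmul_eq_mul] at h2
    have hGn : G ⊆ words n := hGS.trans hS
    have h3 : ∑ y ∈ G, ∑ ab ∈ S₀,
        (bg hK A E (lin ab.2 u v) δ n y + bg hK A E (lin ab.1 u v) δ n y) ≤ S₀.card * (2 * ε₂) := by
      rw [Finset.sum_comm]
      have h4 : ∀ ab ∈ S₀, ∑ y ∈ G,
          (bg hK A E (lin ab.2 u v) δ n y + bg hK A E (lin ab.1 u v) δ n y) ≤ 2 * ε₂ := by
        intro ab hab
        rw [Finset.sum_add_distrib]
        have h5 : ∀ a ∈ T, ∑ y ∈ G, bg hK A E (lin a u v) δ n y ≤ ε₂ := by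
          intro a ha
          refine le_trans (Finset.sum_le_sum fun y _ => ?_) (hδf a n G hGn)
          exact h.bg_mono (hlin a) hδ.le (hδT a ha) n y
        have h6 := h5 _ (hT1 ab hab)
        have h7 := h5 _ (hT2 ab hab)
        linarith
      refine (Finset.sum_le_sum h4).trans (le_of_eq ?_)
      rw [Finset.sum_const, nsmul_eq_mul]
    have h4 : ∑ y ∈ G, ∑ x ∈ under n k y, ∑ a ∈ T, F a x ≤ T.card * (9 * η) := by
      have e1 : ∀ y ∈ G, ∑ x ∈ under n k y, ∑ a ∈ T, F a x =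
          ∑ a ∈ T, ∑ w ∈ nbh 1 n y, ∑ x ∈ words k, F a (w ++ x) := by
        intro y _
        rw [Finset.sum_comm]
        exact Finset.sum_congr rfl fun a _ => sum_under n k y _
      rw [Finset.sum_congr rfl e1, Finset.sum_comm]
      have h5 : ∀ a ∈ T, ∑ y ∈ G, ∑ w ∈ nbh 1 n y, ∑ x ∈ words k, F a (w ++ x) ≤ 9 * η := by
        intro a ha
        have h6 := sum_nbh_le 1 n (fun w => ∑ x ∈ words k, F a (w ++ x))
          (fun w => Finset.sum_nonneg fun x _ => hF0 a _) G hGn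
        have e2 : ∑ w ∈ words n, ∑ x ∈ words k, F a (w ++ x) =
            ∑ w ∈ words n₁, ∑ x ∈ words (n₂ + k),
              |q a (w ++ x) - q a w / m w * m (w ++ x)| := by
          rw [← sum_words_add, hn, add_assoc, sum_words_add]
          refine Finset.sum_congr rfl fun w hw => Finset.sum_congr rfl fun x _ => ?_
          simp only [hF]
          rw [take_append_eq hw]
        rw [e2] at h6
        have h7 := hN₁ a n₁ (Finset.le_sup ha) (n₂ + k)
        refine h6.trans ?_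
        push_cast
        linarith
      refine (Finset.sum_le_sum h5).trans (le_of_eq ?_)
      rw [Finset.sum_const, nsmul_eq_mul]
    exact gsum_arith hε hCs (Nat.cast_nonneg _) (Nat.cast_nonneg _)
      (by exact_mod_cast Finset.card_le_card hGS) (Nat.cast_nonneg _) h2 h3 h4
  -- the other cells
  have hS1 : ∑ y ∈ S.filter (fun y => CM * m y ≤ ∑ w ∈ nbh 2 n y, m w), m y ≤ ε / 4 := by
    have h1 := nondoubling_le hmT hCM0 n ((Finset.filter_subset _ _).trans hS)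
      (S := S.filter (fun y => CM * m y ≤ ∑ w ∈ nbh 2 n y, m w))
      fun y hy => (Finset.mem_filter.1 hy).2
    refine h1.trans ?_
    rw [hCM, ← hν]
    rw [div_le_iff₀ (by positivity)]
    have : ε / 4 * (100 * (ν + 1) / ε) = 25 * (ν + 1) := by field_simp; norm_num
    rw [this]
    linarith
  have hS2 : ∑ y ∈ S.filter (fun y => NearB (y.drop n₁)), m y ≤ ε / 8 := by
    have h1 : ∑ y ∈ S.filter (fun y => NearB (y.drop n₁)), m y ≤
        ∑ y ∈ (words n).filter (fun y => NearB (y.drop n₁)), m y :=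
      Finset.sum_le_sum_of_subset_of_nonneg (Finset.filter_subset_filter _ hS)
        fun y _ _ => hmn y
    have h2 : ∑ y ∈ (words n).filter (fun y => NearB (y.drop n₁)), m y =
        ∑ w ∈ words n₁, ∑ x ∈ (words n₂).filter NearB, m (w ++ x) := by
      rw [Finset.sum_filter, hn, sum_words_add]
      refine Finset.sum_congr rfl fun w hw => ?_
      rw [Finset.sum_filter]
      refine Finset.sum_congr rfl fun x _ => ?_
      have e : (w ++ x).drop n₁ = x := by
        rw [← mem_words.1 hw]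
        exact List.drop_left
      rw [e]
    have h3 := hk₁ n₂ (by omega)
    have h4 := hk₂ n₂ (by omega)
    rw [h2] at h1
    refine h1.trans ?_
    simp only [hm]
    simp only [Finset.sum_add_distrib]
    linarith
  have hfin : ∑ y ∈ S, m y ≤ ∑ y ∈ S.filter (fun y => CM * m y ≤ ∑ w ∈ nbh 2 n y, m w), m y +
      ∑ y ∈ S.filter (fun y => NearB (y.drop n₁)), m y + ∑ y ∈ G, m y := by
    rw [hG, Finset.sum_filter, Finset.sum_filter, Finset.sum_filter, ← Finset.sum_add_distrib,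
      ← Finset.sum_add_distrib]
    refine Finset.sum_le_sum fun y _ => ?_
    have h1 := hmn y
    have i1 : 0 ≤ if CM * m y ≤ ∑ w ∈ nbh 2 n y, m w then m y else 0 := by split_ifs <;> linarith
    have i2 : 0 ≤ if NearB (y.drop n₁) then m y else 0 := by split_ifs <;> linarith
    have i3 : 0 ≤ if ¬CM * m y ≤ ∑ w ∈ nbh 2 n y, m w ∧ ¬NearB (y.drop n₁) ∧ 0 < m y
        then m y else 0 := by split_ifs <;> linarith
    by_cases c1 : CM * m y ≤ ∑ w ∈ nbh 2 n y, m w
    · rw [if_pos c1]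
      linarith
    · by_cases c2 : NearB (y.drop n₁)
      · rw [if_pos c2]
        linarith
      · by_cases c3 : 0 < m y
        · have : (if ¬CM * m y ≤ ∑ w ∈ nbh 2 n y, m w ∧ ¬NearB (y.drop n₁) ∧ 0 < m y
              then m y else 0) = m y := if_pos ⟨c1, c2, c3⟩
          linarith
        · linarith
  linarith

end Reg

end Pool.Agent.SierpinskiCarpet
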