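import Pool.Agent.helper33.SRAcl

/-!
# Generic seminorms, templates with bounds, and interpolation of the crossing values
-/

open MeasureTheory Filter Topology

namespace Pool.Agent.SierpinskiCarpet

variable {K : Set (ℝ × ℝ)} {hK : IsCarpet K} {A A' : Set (K → ℝ)} {p ρ ρ' κ : ℝ}
  {E E' Q : (K → ℝ) → ℝ}

/-- The `p`-th powers of seminorms with a weak lattice property. -/
structure Sem (hK : IsCarpet K) (p κ : ℝ) (A : Set (K → ℝ)) (Q : (K → ℝ) → ℝ) : Prop where
  one_le : 1 ≤ κ
  p_pos : 0 < p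
  nonneg : ∀ u ∈ A, 0 ≤ Q u
  add_const : ∀ u ∈ A, ∀ c : ℝ, Q (fun x => u x + c) = Q u
  smul : ∀ u ∈ A, ∀ a : ℝ, Q (a • u) = |a| ^ p * Q u
  subadd : ∀ u ∈ A, ∀ v ∈ A, Q (u + v) ^ (1 / p) ≤ Q u ^ (1 / p) + Q v ^ (1 / p)
  abs_le : ∀ u ∈ A, Q (fun x => |u x|) ^ (1 / p) ≤ κ * Q u ^ (1 / p)
  reflY : ∀ u ∈ A, Q (u ∘ reflY hK) = Q u
  swap : ∀ u ∈ A, Q (u ∘ swapXY hK) = Q u

namespace Sem

variable (hQ : Sem hK p κ A Q) (hA : LatClass hK A)

include hQ hA

theorem smul' {u : K → ℝ} (hu : u ∈ A) (a : ℝ) :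
    Q (a • u) ^ (1 / p) = |a| * Q u ^ (1 / p) := by
  have hp := hQ.p_pos
  rw [hQ.smul u hu, Real.mul_rpow (by positivity) (hQ.nonneg u hu),
    rpow_rpow_one_div hp (abs_nonneg a)]

theorem sub_le {u v : K → ℝ} (hu : u ∈ A) (hv : v ∈ A) :
    Q (u - v) ^ (1 / p) ≤ Q u ^ (1 / p) + Q v ^ (1 / p) := by
  have h1 := hQ.subadd u hu _ (hA.smul_mem (-1) v hv)
  rw [hQ.smul' hA hv, abs_neg, abs_one, one_mul] at h1
  have e : u + (-1 : ℝ) • v = u - v := by
    funext x
    simp [sub_eq_add_neg]
  rwa [e] at h1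

theorem root_nonneg {u : K → ℝ} (hu : u ∈ A) : 0 ≤ Q u ^ (1 / p) :=
  Real.rpow_nonneg (hQ.nonneg u hu) _

theorem max_le {u v : K → ℝ} (hu : u ∈ A) (hv : v ∈ A) :
    Q (fun x => max (u x) (v x)) ^ (1 / p) ≤ κ * (Q u ^ (1 / p) + Q v ^ (1 / p)) := by
  have e : (fun x => max (u x) (v x)) = (1 / 2 : ℝ) • (u + v + fun x => |(u - v) x|) := by
    funext x
    simp only [Pi.smul_apply, Pi.add_apply, Pi.sub_apply, smul_eq_mul]
    rcases le_total (u x) (v x) with hh | hh
    · rw [max_eq_right hh, abs_of_nonpos (by linarith)]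
      ring
    · rw [max_eq_left hh, abs_of_nonneg (by linarith)]
      ring
  have m1 := hA.add_mem u hu v hv
  have m2 := hA.abs_mem _ (hA.sub_mem hu hv)
  rw [e, hQ.smul' hA (hA.add_mem _ m1 _ m2)]
  have h1 := hQ.subadd _ m1 _ m2
  have h2 := hQ.subadd u hu v hv
  have h3 := hQ.abs_le _ (hA.sub_mem hu hv)
  have h4 := hQ.sub_le hA hu hv
  have h5 := hQ.one_le
  have h6 := hQ.root_nonneg hA hu
  have h7 := hQ.root_nonneg hA hv
  rw [abs_of_pos (by norm_num)]
  nlinarith

theorem min_le {u v : K → ℝ} (hu : u ∈ A) (hv : v ∈ A) :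
    Q (fun x => min (u x) (v x)) ^ (1 / p) ≤ κ * (Q u ^ (1 / p) + Q v ^ (1 / p)) := by
  have m1 := hA.smul_mem (-1) u hu
  have m2 := hA.smul_mem (-1) v hv
  have e : (fun x => min (u x) (v x)) =
      (-1 : ℝ) • fun x => max (((-1 : ℝ) • u) x) (((-1 : ℝ) • v) x) := by
    funext x
    simp only [Pi.smul_apply, smul_eq_mul, neg_mul, one_mul]
    rw [max_neg_neg, neg_neg]
  rw [e, hQ.smul' hA (hA.max_mem m1 m2)]
  have h1 := hQ.max_le hA m1 m2
  rw [hQ.smul' hA hu, hQ.smul' hA hv] at h1
  simpa using h1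

theorem const {c : ℝ} : Q (fun _ => c) ^ (1 / p) = 0 := by
  have hp := hQ.p_pos
  have h1 := hQ.smul _ (hA.const_mem 0) 0
  rw [abs_zero, Real.zero_rpow hp.ne', zero_mul, zero_smul] at h1
  have h2 := hQ.add_const _ (hA.const_mem 0) c
  have e : (fun _ : K => (0 : ℝ)) = 0 := rfl
  simp only [zero_add] at h2
  rw [h2, e, h1, Real.zero_rpow (by positivity)]

theorem clamp_le {u : K → ℝ} (hu : u ∈ A) (s t : ℝ) :
    Q (fun x => min (max (u x) s) t) ^ (1 / p) ≤ κ ^ 2 * Q u ^ (1 / p) := by
  have h1 := hQ.max_le hA hu (hA.const_mem s)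
  have h2 := hQ.min_le hA (hA.max_mem hu (hA.const_mem s)) (hA.const_mem t)
  rw [hQ.const hA, add_zero] at h1 h2
  have h3 := hQ.one_le
  calc _ ≤ _ := h2
    _ ≤ κ * (κ * Q u ^ (1 / p)) := by gcongr
    _ = _ := by ring

theorem sum_le {ι : Type*} (s : Finset ι) (f : ι → K → ℝ) (hf : ∀ i ∈ s, f i ∈ A) :
    Q (fun x => ∑ i ∈ s, f i x) ^ (1 / p) ≤ ∑ i ∈ s, Q (f i) ^ (1 / p) := by
  classical
  induction s using Finset.induction_on with
  | empty =>
    simp only [Finset.sum_empty]
    rw [hQ.const hA]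
  | insert i s hi ih =>
    have h1 := hQ.subadd _ (hf i (Finset.mem_insert_self i s)) _
      (hA.sum_mem s f fun j hj => hf j (Finset.mem_insert_of_mem hj))
    have h2 := ih fun j hj => hf j (Finset.mem_insert_of_mem hj)
    have e : (fun x => ∑ j ∈ insert i s, f j x) = f i + fun x => ∑ j ∈ s, f j x := by
      funext x
      rw [Finset.sum_insert hi]
      rfl
    rw [e, Finset.sum_insert hi]
    linarith

/-- Combinations of templates. -/
theorem template_le {τ : Bool × Bool → K → ℝ} (hτ : IsTemplate A τ) {T : ℝ} (hT : 0 ≤ T)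
    (hTτ : ∀ c, Q (τ c) ^ (1 / p) ≤ T) (f : K → ℝ) :
    Q (fun y => ∑ c, f (corner hK c) * τ c y) ≤ (4 * T) ^ p * cvar hK p f := by
  have hp := hQ.p_pos
  set c₀ : Bool × Bool := (false, false) with hc₀
  have e1 : (fun y => ∑ c, f (corner hK c) * τ c y) =
      fun y => (∑ c, ((f (corner hK c) - f (corner hK c₀)) • τ c) y) + f (corner hK c₀) := by
    funext y
    simp only [Pi.smul_apply, smul_eq_mul, sub_mul, Finset.sum_sub_distrib, ← Finset.mul_sum,
      hτ.sum]
    ring
  have hmem : ∀ c ∈ (Finset.univ : Finset (Bool × Bool)),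
      (f (corner hK c) - f (corner hK c₀)) • τ c ∈ A := fun c _ => hA.smul_mem _ _ (hτ.mem c)
  rw [e1, hQ.add_const _ (hA.sum_mem _ _ hmem)]
  have h2 := hQ.sum_le hA Finset.univ (fun c => (f (corner hK c) - f (corner hK c₀)) • τ c) hmem
  have hv0 : 0 ≤ cvar hK p f := cvar_nonneg f
  have e3 : ∀ c, Q ((f (corner hK c) - f (corner hK c₀)) • τ c) ^ (1 / p) ≤
      cvar hK p f ^ (1 / p) * T := by
    intro c
    rw [hQ.smul' hA (hτ.mem c)]
    have e4 : |f (corner hK c) - f (corner hK c₀)| ≤ cvar hK p f ^ (1 / p) := by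
      rw [← rpow_rpow_one_div hp (abs_nonneg (f (corner hK c) - f (corner hK c₀)))]
      gcongr
      exact Finset.single_le_sum (f := fun c => |f (corner hK c) - f (corner hK c₀)| ^ p)
        (fun c _ => by positivity) (Finset.mem_univ c)
    exact mul_le_mul e4 (hTτ c) (hQ.root_nonneg hA (hτ.mem c)) (by positivity)
  have h3 := h2.trans (Finset.sum_le_sum fun c _ => e3 c)
  rw [Finset.sum_const, Finset.card_univ] at h3
  simp only [Fintype.card_prod, Fintype.card_bool, nsmul_eq_mul] at h3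
  have hnn := hQ.nonneg _ (hA.sum_mem _ _ hmem)
  calc Q (fun y => ∑ c, ((f (corner hK c) - f (corner hK c₀)) • τ c) y)
      = (Q (fun y => ∑ c, ((f (corner hK c) - f (corner hK c₀)) • τ c) y) ^ (1 / p)) ^ p :=
        (rpow_one_div_rpow hp hnn).symm
    _ ≤ (cvar hK p f ^ (1 / p) * (4 * T)) ^ p := by
        refine Real.rpow_le_rpow (by positivity) (h3.trans (le_of_eq ?_)) hp.le
        push_cast
        ring
    _ = (4 * T) ^ p * cvar hK p f := by
      rw [Real.mul_rpow (by positivity) (by positivity), rpow_one_div_rpow hp hv0]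
      ring

end Sem

theorem exists_template_le (h : LatClass hK A) {u : K → ℝ} (hu : u ∈ A) (hcr : IsCrossing u) :
    ∃ τ, IsTemplate A τ ∧ ∀ (p κ : ℝ) (Q : (K → ℝ) → ℝ), Sem hK p κ A Q →
      ∀ c, Q (τ c) ^ (1 / p) ≤ 4 * κ ^ 3 * Q u ^ (1 / p) := by
  -- symmetrise and clamp
  set g₁ : K → ℝ := (1 / 2 : ℝ) • (u + u ∘ reflY hK) with hg₁
  have hg₁A : g₁ ∈ A := h.smul_mem _ _ (h.add_mem u hu _ (h.reflY_mem u hu))
  set g : K → ℝ := fun x => min (max (g₁ x) 0) 1 with hg
  have hgA : g ∈ A := h.min_mem (h.max_mem hg₁A (h.const_mem 0)) (h.const_mem 1)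
  have g_left : ∀ x, x.1.1 = -1 → g x = 0 := fun x hx => by
    have : g₁ x = 0 := by
      simp only [hg₁, Pi.smul_apply, Pi.add_apply, Function.comp_apply, smul_eq_mul]
      rw [hcr.left x hx, hcr.left (reflY hK x) hx]
      norm_num
    simp only [hg, this]
    norm_num
  have g_right : ∀ x, x.1.1 = 1 → g x = 1 := fun x hx => by
    have : g₁ x = 1 := by
      simp only [hg₁, Pi.smul_apply, Pi.add_apply, Function.comp_apply, smul_eq_mul]
      rw [hcr.right x hx, hcr.right (reflY hK x) hx]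
      norm_num
    simp only [hg, this]
    norm_num
  have g_symm : ∀ x, g (reflY hK x) = g x := fun x => by
    have : g₁ (reflY hK x) = g₁ x := by
      simp only [hg₁, Pi.smul_apply, Pi.add_apply, Function.comp_apply, smul_eq_mul]
      rw [reflY_reflY]
      ring
    simp only [hg, this]
  have g0 : ∀ x, 0 ≤ g x := fun x => le_min (le_max_right _ _) zero_le_one
  have g1 : ∀ x, g x ≤ 1 := fun x => min_le_right _ _
  -- the functions in the two coordinates
  set e : Bool → K → ℝ := fun a x => if a then g x else 1 - g x with he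
  set e' : Bool → K → ℝ := fun b x => e b (swapXY hK x) with he'
  have heA : ∀ a, e a ∈ A := fun a => by
    cases a
    · have := h.sub_mem (h.const_mem 1) hgA
      exact this
    · exact hgA
  have he'A : ∀ a, e' a ∈ A := fun a => h.swap_mem _ (heA a)
  have e0 : ∀ a x, 0 ≤ e a x := fun a x => by
    cases a
    · have := g1 x
      simp [he, this]
    · have := g0 x
      simp [he, this]
  have e1 : ∀ a x, e a x ≤ 1 := fun a x => by
    cases a
    · have := g0 x
      simp [he, this]
    · have := g1 x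
      simp [he, this]
  have e_side : ∀ a z, z.1.1 = sgn a → e a z = 1 ∧ e (!a) z = 0 := fun a z hz => by
    cases a
    · have := g_left z hz
      simp [he, this]
    · have := g_right z hz
      simp [he, this]
  have esum : ∀ x, e true x + e false x = 1 := fun x => by simp [he]
  have e_trace : ∀ (b b' : Bool) a (z z' : K), z.1.2 = sgn b → z'.1.2 = sgn b' → z.1.1 = z'.1.1 →
      e a z = e a z' := by
    intro b b' a z z' hz hz' hzz'
    have : z = z' ∨ z = reflY hK z' := by
      cases b <;> cases b'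
      · left
        exact Subtype.ext (Prod.ext hzz' (by rw [hz, hz']))
      · right
        refine Subtype.ext (Prod.ext hzz' ?_)
        simp [reflY, hz, hz', sgn]
      · right
        refine Subtype.ext (Prod.ext hzz' ?_)
        simp [reflY, hz, hz', sgn]
      · left
        exact Subtype.ext (Prod.ext hzz' (by rw [hz, hz']))
    rcases this with rfl | rfl
    · rfl
    · simp only [he, g_symm]
  set t : Bool × Bool → K → ℝ := fun c x => min (e c.1 x) (e' c.2 x) with ht
  have htA : ∀ c, t c ∈ A := fun c => h.min_mem (heA _) (he'A _)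
  have t0 : ∀ c x, 0 ≤ t c x := fun c x => le_min (e0 _ _) (e0 _ _)
  have t1 : ∀ c x, t c x ≤ 1 := fun c x => (min_le_left _ _).trans (e1 _ _)
  have hsumA : (fun x => ∑ c, t c x) ∈ A := h.sum_mem _ _ fun c _ => htA c
  set τ : Bool × Bool → K → ℝ := fun c x => t c x + (1 / 4) * (1 - ∑ c, t c x) with hτ
  have sum4 : ∀ f : Bool × Bool → ℝ,
      ∑ c, f c = f (true, true) + f (true, false) + (f (false, true) + f (false, false)) :=
    fun f => by rw [Fintype.sum_prod_type]; simp
  have sum_h : ∀ a (z : K), z.1.1 = sgn a → ∑ c, t c z = 1 := by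
    intro a z hz
    have h1 := e_side a z hz
    have h2 := esum (swapXY hK z)
    have ht1 : ∀ b, t (a, b) z = e' b z := fun b => by
      simp only [ht]
      rw [h1.1, min_eq_right (e1 _ _)]
    have ht2 : ∀ b, t (!a, b) z = 0 := fun b => by
      simp only [ht]
      rw [h1.2, min_eq_left (e0 _ _)]
    rw [sum4]
    cases a
    · have b1 := ht1 true
      have b2 := ht1 false
      have b3 := ht2 true
      have b4 := ht2 false
      simp only [Bool.not_false] at b3 b4
      rw [b1, b2, b3, b4]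
      simp only [he']
      linarith
    · have b1 := ht1 true
      have b2 := ht1 false
      have b3 := ht2 true
      have b4 := ht2 false
      simp only [Bool.not_true] at b3 b4
      rw [b1, b2, b3, b4]
      simp only [he']
      linarith
  have sum_v : ∀ b (z : K), z.1.2 = sgn b → ∑ c, t c z = 1 := by
    intro b z hz
    have h1 := e_side b (swapXY hK z) hz
    have h2 := esum z
    have ht1 : ∀ a, t (a, b) z = e a z := fun a => by
      simp only [ht, he']
      rw [h1.1, min_eq_left (e1 _ _)]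
    have ht2 : ∀ a, t (a, !b) z = 0 := fun a => by
      simp only [ht, he']
      rw [h1.2, min_eq_right (e0 _ _)]
    rw [sum4]
    cases b
    · have b1 := ht1 true
      have b2 := ht1 false
      have b3 := ht2 true
      have b4 := ht2 false
      simp only [Bool.not_false] at b3 b4
      rw [b1, b2, b3, b4]
      linarith
    · have b1 := ht1 true
      have b2 := ht1 false
      have b3 := ht2 true
      have b4 := ht2 false
      simp only [Bool.not_true] at b3 b4
      rw [b1, b2, b3, b4]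
      linarith
  refine ⟨τ, ⟨fun c => ?_, fun x => ?_, fun c x => ?_, ?_, ?_, ?_, ?_⟩, ?_⟩
  · exact h.add_mem _ (htA c) _ (h.smul_mem (1 / 4) _ (h.sub_mem (h.const_mem 1) hsumA))
  · simp only [hτ]
    rw [Finset.sum_add_distrib, Finset.sum_const, Finset.card_univ]
    simp only [Fintype.card_prod, Fintype.card_bool, nsmul_eq_mul]
    push_cast
    ring
  · have s0 : 0 ≤ ∑ c, t c x := Finset.sum_nonneg fun c _ => t0 c x
    have s1 : ∑ c, t c x ≤ 4 := by
      rw [sum4]
      have a1 := t1 (true, true) x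
      have a2 := t1 (true, false) x
      have a3 := t1 (false, true) x
      have a4 := t1 (false, false) x
      linarith
    have a1 := t0 c x
    have a2 := t1 c x
    simp only [hτ]
    rw [abs_le]
    constructor <;> linarith
  · intro a b z hz
    simp only [hτ]
    rw [sum_h a z hz]
    simp only [ht, (e_side a z hz).2, sub_self, mul_zero, add_zero]
    exact min_eq_left (e0 _ _)
  · intro a a' b z z' hz hz' hzz'
    simp only [hτ]
    rw [sum_h a z hz, sum_h a' z' hz']
    simp only [ht, (e_side a z hz).1, (e_side a' z' hz').1, sub_self, mul_zero, add_zero]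
    congr 1
    exact e_trace a a' b _ _ hz hz' hzz'
  · intro a b z hz
    simp only [hτ]
    rw [sum_v b z hz]
    have := (e_side b (swapXY hK z) hz).2
    simp only [ht, he', this, sub_self, mul_zero, add_zero]
    exact min_eq_right (e0 _ _)
  · intro a b b' z z' hz hz' hzz'
    simp only [hτ]
    rw [sum_v b z hz, sum_v b' z' hz']
    have h1 := (e_side b (swapXY hK z) hz).1
    have h2 := (e_side b' (swapXY hK z') hz').1
    simp only [ht, he', h1, h2, sub_self, mul_zero, add_zero]
    congr 1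
    exact e_trace b b' a _ _ hz hz' hzz'
  · intro p κ Q hQ c
    have hκ := hQ.one_le
    have n0 := hQ.root_nonneg h hu
    have n1 : Q g₁ ^ (1 / p) ≤ Q u ^ (1 / p) := by
      rw [hg₁, hQ.smul' h (h.add_mem u hu _ (h.reflY_mem u hu))]
      have := hQ.subadd u hu _ (h.reflY_mem u hu)
      rw [hQ.reflY u hu] at this
      rw [abs_of_pos (by norm_num)]
      linarith
    have n2 : Q g ^ (1 / p) ≤ κ ^ 2 * Q u ^ (1 / p) := by
      refine (hQ.clamp_le h hg₁A 0 1).trans ?_
      gcongr
    have n3 : ∀ a, Q (e a) ^ (1 / p) ≤ κ ^ 2 * Q u ^ (1 / p) := by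
      intro a
      cases a
      · have h1 := hQ.sub_le h (h.const_mem 1) hgA
        rw [hQ.const h, zero_add] at h1
        exact h1.trans n2
      · exact n2
    have n4 : ∀ a, Q (e' a) ^ (1 / p) ≤ κ ^ 2 * Q u ^ (1 / p) := by
      intro a
      have : Q (e' a) = Q (e a) := hQ.swap _ (heA a)
      rw [this]
      exact n3 a
    have n5 : ∀ c, Q (t c) ^ (1 / p) ≤ 2 * κ ^ 3 * Q u ^ (1 / p) := by
      intro c
      refine (hQ.min_le h (heA c.1) (he'A c.2)).trans ?_
      have := n3 c.1
      have := n4 c.2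
      calc κ * (Q (e c.1) ^ (1 / p) + Q (e' c.2) ^ (1 / p)) ≤
          κ * (κ ^ 2 * Q u ^ (1 / p) + κ ^ 2 * Q u ^ (1 / p)) := by gcongr
        _ = _ := by ring
    have n6 : Q (fun x => ∑ c, t c x) ^ (1 / p) ≤ 4 * (2 * κ ^ 3 * Q u ^ (1 / p)) := by
      refine (hQ.sum_le h Finset.univ t fun c _ => htA c).trans ?_
      refine (Finset.sum_le_sum fun c _ => n5 c).trans (le_of_eq ?_)
      rw [Finset.sum_const, Finset.card_univ]
      simp only [Fintype.card_prod, Fintype.card_bool, nsmul_eq_mul]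
      push_cast
      ring
    have n7 := hQ.sub_le h (h.const_mem 1) hsumA
    rw [hQ.const h, zero_add] at n7
    have n8 := hQ.subadd _ (htA c) _ (h.smul_mem (1 / 4) _ (h.sub_mem (h.const_mem 1) hsumA))
    rw [hQ.smul' h (h.sub_mem (h.const_mem 1) hsumA), abs_of_pos (by norm_num)] at n8
    have n9 : τ c = t c + (1 / 4 : ℝ) • ((fun _ => 1) - fun x => ∑ c, t c x) := rfl
    rw [n9]
    have := n5 c
    linarith


end Pool.Agent.SierpinskiCarpet
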