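import Pool.Agent.helper33.SRSub

/-!
# Uniqueness of the self-similar `p`-energy on the Sierpinski carpet
-/

open MeasureTheory Filter Topology
open scoped ENNReal

namespace Pool.Agent.SierpinskiCarpet

variable {K : Set (ℝ × ℝ)} {hK : IsCarpet K} {m : Measure K} {p ρ ρ' : ℝ}
  {F F' : Set (K → ℝ)} {E E' : (K → ℝ) → ℝ}

namespace IsSelfSimilarEnergy

/-- Truncation does not increase the energy. -/
theorem cut_contPart (h : IsSelfSimilarEnergy hK m p ρ F E) {u : K → ℝ} (hu : u ∈ contPart F)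
    (s : ℝ) : E (fun x => min (u x) s) ≤ E u := by
  obtain ⟨B, hB, hb⟩ := exists_bound hK hu.2
  have hmin := h.lat.min_mem hu (h.lat.const_mem s)
  set t : ℝ := s + (B + |s|) with ht
  have ht0 : 0 < t := by
    have := neg_abs_le s
    linarith
  set d : ℝ := (B + |s|) / t with hd
  have hv := h.add_const _ (h.smul_mem t⁻¹ u hu.1) d
  have hw := h.add_const _ (h.smul_mem t⁻¹ _ hmin.1) d
  have hmk := (h.markov _ hv.1).2
  have e : (fun x => min (max ((t⁻¹ • u) x + d) 0) 1) =
      fun x => (t⁻¹ • fun x => min (u x) s) x + d := by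
    funext x
    have h1 := (abs_le.1 (hb x)).1
    have h2 := abs_nonneg s
    have h3 : 0 ≤ t⁻¹ * u x + d := by
      have : t⁻¹ * u x + d = (u x + (B + |s|)) / t := by rw [hd]; ring
      rw [this]
      exact div_nonneg (by linarith) ht0.le
    simp only [Pi.smul_apply, smul_eq_mul]
    rw [max_eq_left h3, mul_min_of_nonneg _ _ (inv_nonneg.2 ht0.le), min_add]
    have : t⁻¹ * s + d = 1 := by
      have : t⁻¹ * s + d = t / t := by rw [hd, ht]; ring
      rw [this, div_self ht0.ne']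
    rw [this]
  rw [e, hw.2, hv.2, h.smul _ hmin.1, h.smul _ hu.1] at hmk
  exact le_of_mul_le_mul_left hmk (Real.rpow_pos_of_pos (abs_pos.2 (inv_ne_zero ht0.ne')) _)

/-- The restriction of a self-similar energy to the continuous functions is regular. -/
theorem reg (h : IsSelfSimilarEnergy hK m p ρ F E) (hp : 1 < p) (hm : IsSelfSimilarMeasure hK m) :
    Reg hK p ρ (contPart F) E := by
  refine ⟨h.pre hp, h.three_rpow_le hp hm, fun u hu => (h.comp_reflX hu.1).2,
    fun u hu => (h.comp_reflY hu.1).2, fun u hu => (h.comp_swapXY hu.1).2,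
    fun u hu s => h.cut_contPart hu s, fun u hu L hL v hv => ?_, h.crossing, ?_⟩
  · obtain ⟨hvF, hvc, y, hy, hlim⟩ := h.closed_uniform hp hm (fun n => (hu n).1)
      (fun n => (hu n).2) hL hv
    exact ⟨⟨hvF, hvc⟩, y, fun n => ⟨⟨(hy n).1, (hy n).2.1⟩, (hy n).2.2⟩, hlim⟩
  · obtain ⟨c, hc, hb⟩ := h.exists_crossing_bound hp hm
    exact ⟨c, hc, fun u hu hcr => hb u hu.1 hcr⟩

end IsSelfSimilarEnergy

theorem ae_eq_of_lpn_eq_zero (hp : 1 < p) {u w : K → ℝ} (hu : MemLp (u - w) (ENNReal.ofReal p) m)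
    (h0 : lpn m p (u - w) = 0) : u =ᵐ[m] w := by
  have hp0 : 0 < p := by linarith
  have hint : Integrable (fun x => |(u - w) x| ^ p) m := by
    have := hu.integrable_norm_rpow (by simpa using hp0) ENNReal.ofReal_ne_top
    rw [ENNReal.toReal_ofReal hp0.le] at this
    exact this
  have h0 : ∫ x, |(u - w) x| ^ p ∂m = 0 := by
    rw [← lpn_rpow hp, h0, Real.zero_rpow hp0.ne']
  rw [integral_eq_zero_iff_of_nonneg (fun x => by positivity) hint] at h0
  filter_upwards [h0] with x hx
  have : |(u - w) x| = 0 := by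
    by_contra hne
    have : 0 < |(u - w) x| ^ p := Real.rpow_pos_of_pos (lt_of_le_of_ne (abs_nonneg _)
      (Ne.symm hne)) _
    simp only [Pi.zero_apply] at hx
    linarith
  have := abs_eq_zero.1 this
  simp only [Pi.sub_apply] at this
  linarith

/-- Extension from the continuous functions to the whole domain. -/
theorem extend_energy (hp : 1 < p) (h : IsSelfSimilarEnergy hK m p ρ F E)
    (h' : IsSelfSimilarEnergy hK m p ρ' F' E') {c : ℝ} (hc : 0 < c)
    (hsub : ∀ u ∈ contPart F, u ∈ contPart F' ∧ E' u = c * E u) :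
    ∀ u ∈ F, u ∈ F' ∧ E' u = c * E u := by
  intro u hu
  have hp0 : 0 < p := by linarith
  have happ : ∀ n : ℕ, ∃ v ∈ F, Continuous v ∧ energyNorm m p E (u - v) < 1 / (n + 1) :=
    fun n => h.dense_energy u hu (1 / (n + 1)) (by positivity)
  choose v hv hvc hvu using happ
  have hlim : Tendsto (fun n : ℕ => (1 : ℝ) / (n + 1)) atTop (𝓝 0) :=
    tendsto_one_div_add_atTop_nhds_zero_nat
  have hv' : ∀ n, v n ∈ F' := fun n => (hsub _ ⟨hv n, hvc n⟩).1.1
  have hsym : ∀ a ∈ F, ∀ b ∈ F, energyNorm m p E (a - b) = energyNorm m p E (b - a) := by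
    intro a ha b hb
    have := h.energyNorm_smul hp (h.sub_mem hb ha) (-1)
    rw [abs_neg, abs_one, one_mul, neg_smul, one_smul, neg_sub] at this
    exact this
  set C : ℝ := (max 1 c) ^ (1 / p) with hC
  have hC0 : 0 < C := by
    have : (0 : ℝ) < max 1 c := lt_max_of_lt_left one_pos
    positivity
  have hcomp : ∀ w ∈ contPart F, energyNorm m p E' w ≤ C * energyNorm m p E w := by
    intro w hw
    have h1 := (hsub w hw).2
    have h2 := h.nonneg w hw.1
    have h3 : 0 ≤ ∫ x, |w x| ^ p ∂m := integral_nonneg fun x => by positivity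
    unfold energyNorm
    rw [hC, ← Real.mul_rpow (by positivity) (by positivity), h1]
    refine Real.rpow_le_rpow (by positivity) ?_ (by positivity)
    have h4 : 1 * ∫ x, |w x| ^ p ∂m ≤ max 1 c * ∫ x, |w x| ^ p ∂m :=
      mul_le_mul_of_nonneg_right (le_max_left _ _) h3
    have h5 : c * E w ≤ max 1 c * E w := mul_le_mul_of_nonneg_right (le_max_right _ _) h2
    linarith
  have hdiff : ∀ i j : ℕ, energyNorm m p E (v i - v j) ≤ 1 / (i + 1) + 1 / (j + 1) := by
    intro i j
    have e : v i - v j = (v i - u) + (u - v j) := by abel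
    rw [e]
    refine (h.energyNorm_add_le hp (h.sub_mem (hv i) hu) (h.sub_mem hu (hv j))).trans ?_
    rw [hsym _ (hv i) _ hu]
    exact add_le_add (hvu i).le (hvu j).le
  obtain ⟨w, hw, hwlim⟩ := h'.complete v hv' fun ε hε => by
    have hε' : 0 < ε / (4 * C) := by positivity
    obtain ⟨N, hN⟩ := eventually_atTop.1 (hlim.eventually (gt_mem_nhds hε'))
    refine ⟨N, fun k hk l hl => ?_⟩
    have h1 := hcomp _ ⟨h.sub_mem (hv k) (hv l), (hvc k).sub (hvc l)⟩
    have h2 := hdiff k l
    have h3 := hN k hk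
    have h4 := hN l hl
    calc energyNorm m p E' (v k - v l) ≤ C * energyNorm m p E (v k - v l) := h1
      _ ≤ C * (ε / (4 * C) + ε / (4 * C)) := by
        gcongr
        linarith
      _ = ε / 2 := by
        field_simp
        ring
      _ < ε := by linarith
  have huv0 : Tendsto (fun n => energyNorm m p E (u - v n)) atTop (𝓝 0) :=
    squeeze_zero (fun n => h.energyNorm_nonneg (h.sub_mem hu (hv n))) (fun n => (hvu n).le) hlim
  -- the limits agree
  have hmem : MemLp (u - w) (ENNReal.ofReal p) m := (h.memLp u hu).sub (h'.memLp w hw)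
  have hzero : lpn m p (u - w) = 0 := by
    have h1 : ∀ n, lpn m p (u - w) ≤ energyNorm m p E (u - v n) + energyNorm m p E' (v n - w) := by
      intro n
      have e : u - w = (u - v n) + (v n - w) := by abel
      rw [e]
      refine (lpn_add_le hp (h.memLp _ (h.sub_mem hu (hv n)))
        (h'.memLp _ (h'.sub_mem (hv' n) hw))).trans ?_
      exact add_le_add (h.lpn_le_energyNorm hp (h.sub_mem hu (hv n)))
        (h'.lpn_le_energyNorm hp (h'.sub_mem (hv' n) hw))
    have h2 := ge_of_tendsto' (huv0.add hwlim) h1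
    rw [add_zero] at h2
    exact le_antisymm h2 (lpn_nonneg _)
  have hae := ae_eq_of_lpn_eq_zero hp hmem hzero
  obtain ⟨huF', hEu⟩ := h'.congr w hw u hae
  refine ⟨huF', ?_⟩
  rw [hEu]
  -- convergence of the energies
  have hroot : ∀ {ρ₀ : ℝ} {F₀ : Set (K → ℝ)} {E₀ : (K → ℝ) → ℝ}
      (h₀ : IsSelfSimilarEnergy hK m p ρ₀ F₀ E₀) {a : K → ℝ} (_ : a ∈ F₀) (_ : ∀ n, v n ∈ F₀)
      (_ : Tendsto (fun n => energyNorm m p E₀ (a - v n)) atTop (𝓝 0)),
      Tendsto (fun n => E₀ (v n) ^ (1 / p)) atTop (𝓝 (E₀ a ^ (1 / p))) := by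
    intro ρ₀ F₀ E₀ h₀ a ha hv₀ hl
    rw [tendsto_iff_dist_tendsto_zero]
    refine squeeze_zero (fun n => dist_nonneg) (fun n => ?_) hl
    have hd := h₀.sub_mem ha (hv₀ n)
    have e1 := h₀.subadd _ hd _ (hv₀ n)
    rw [sub_add_cancel] at e1
    have e2 := h₀.subadd _ ha _ (h₀.smul_mem (-1) _ hd)
    have e3 : a + (-1 : ℝ) • (a - v n) = v n := by
      rw [neg_smul, one_smul]
      abel
    rw [e3, h₀.smul _ hd, abs_neg, abs_one, Real.one_rpow, one_mul] at e2
    have e4 : E₀ (a - v n) ^ (1 / p) ≤ energyNorm m p E₀ (a - v n) := by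
      have := h₀.energy_le_energyNorm hp hd
      calc E₀ (a - v n) ^ (1 / p) ≤ (energyNorm m p E₀ (a - v n) ^ p) ^ (1 / p) :=
            Real.rpow_le_rpow (h₀.nonneg _ hd) this (by positivity)
        _ = energyNorm m p E₀ (a - v n) := rpow_rpow_one_div hp0 (h₀.energyNorm_nonneg hd)
    rw [Real.dist_eq, abs_le]
    constructor <;> linarith
  have hlim1 := hroot h hu hv huv0
  have hlim2 := hroot h' hw hv' (by
    refine hwlim.congr fun n => ?_
    have := h'.energyNorm_smul hp (h'.sub_mem hw (hv' n)) (-1)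
    rw [abs_neg, abs_one, one_mul, neg_smul, one_smul, neg_sub] at this
    exact this)
  have hEv : ∀ n, E' (v n) ^ (1 / p) = c ^ (1 / p) * E (v n) ^ (1 / p) := fun n => by
    rw [(hsub _ ⟨hv n, hvc n⟩).2, Real.mul_rpow hc.le (h.nonneg _ (hv n))]
  have hlim3 : Tendsto (fun n => E' (v n) ^ (1 / p)) atTop (𝓝 (c ^ (1 / p) * E u ^ (1 / p))) :=
    (hlim1.const_mul (c ^ (1 / p))).congr fun n => (hEv n).symm
  have heq := tendsto_nhds_unique hlim2 hlim3
  have n1 := h.nonneg u hu
  have n2 := h'.nonneg w hw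
  rw [← Real.mul_rpow hc.le n1] at heq
  calc E' w = (E' w ^ (1 / p)) ^ p := (rpow_one_div_rpow hp0 n2).symm
    _ = ((c * E u) ^ (1 / p)) ^ p := by rw [heq]
    _ = c * E u := rpow_one_div_rpow hp0 (mul_nonneg hc.le n1)

/-- **Uniqueness of the self-similar `p`-energy** on the Sierpinski carpet, for every `p > 1`. -/
theorem unique_energy_all (hp : 1 < p) (hm : IsSelfSimilarMeasure hK m)
    (h : IsSelfSimilarEnergy hK m p ρ F E) (h' : IsSelfSimilarEnergy hK m p ρ' F' E') :
    ρ' = ρ ∧ F' = F ∧ ∃ c : ℝ, 0 < c ∧ ∀ u ∈ F, E' u = c * E u := by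
  have hR := h.reg hp hm
  have hR' := h'.reg hp hm
  have hρρ : ρ' = ρ := le_antisymm (hR'.rho_le hR) (hR.rho_le hR')
  subst hρρ
  have hAA : contPart F' = contPart F := Set.Subset.antisymm
    (fun u hu => (hR'.mem_and_le hR hu).1) fun u hu => (hR.mem_and_le hR' hu).1
  have hR'' := hR'
  rw [hAA] at hR''
  obtain ⟨c, hc, hcE⟩ := hR.proportional hR''
  have k1 := extend_energy hp h h' hc fun u hu => ⟨by rw [hAA]; exact hu, hcE u hu⟩
  have k2 := extend_energy hp h' h (inv_pos.2 hc) fun u hu => by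
    rw [hAA] at hu
    refine ⟨hu, ?_⟩
    rw [hcE u hu, inv_mul_cancel_left₀ hc.ne']
  exact ⟨rfl, Set.Subset.antisymm (fun u hu => (k2 u hu).1) fun u hu => (k1 u hu).1, c, hc,
    fun u hu => (k1 u hu).2⟩

end Pool.Agent.SierpinskiCarpet
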