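import Pool.Agent.helper33.SRPatch

/-!
# Collapsing an interval of values near a cell
-/

open MeasureTheory Filter Topology

namespace Pool.Agent.SierpinskiCarpet

variable {K : Set (ℝ × ℝ)} {hK : IsCarpet K} {A : Set (K → ℝ)} {p ρ : ℝ} {E : (K → ℝ) → ℝ}

theorem pow_expand' {p : ℝ} (hp : 1 ≤ p) {X Y Z M ζ : ℝ} (hX : 0 ≤ X) (hY : 0 ≤ Y) (hZ : 0 ≤ Z)
    (hYM : Y ≤ M) (hζ : 0 ≤ ζ) (hζ1 : ζ ≤ 1) (hZM : Z ≤ ζ ^ p * M)
    (h : X ^ (1 / p) ≤ Y ^ (1 / p) + Z ^ (1 / p)) : X ≤ Y + p * 2 ^ (p - 1) * ζ * M := by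
  have hp0 : 0 < p := by linarith
  have := pow_expand hp hX hY hZ hYM (show 0 ≤ ζ ^ p by positivity)
    (Real.rpow_le_one hζ hζ1 hp0.le) hZM h
  rwa [rpow_rpow_one_div hp0 hζ] at this

theorem rpow_add_rpow_le {p a b : ℝ} (hp : 1 ≤ p) (ha : 0 ≤ a) (hb : 0 ≤ b) :
    a ^ p + b ^ p ≤ (a + b) ^ p := Real.add_rpow_le_rpow_add ha hb hp

theorem add3_rpow_le {p a b c : ℝ} (hp : 1 ≤ p) (ha : 0 ≤ a) (hb : 0 ≤ b) (hc : 0 ≤ c) :
    (a + b + c) ^ p ≤ 3 ^ p * (a ^ p + b ^ p + c ^ p) := by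
  have hp0 : 0 < p := by linarith
  have h1 : a + b + c ≤ 3 * max a (max b c) := by
    have := le_max_left a (max b c)
    have := le_max_right a (max b c)
    have := le_max_left b c
    have := le_max_right b c
    linarith
  have h0 : 0 ≤ max a (max b c) := ha.trans (le_max_left _ _)
  have h2 : (max a (max b c)) ^ p ≤ a ^ p + b ^ p + c ^ p := by
    have e1 : 0 ≤ a ^ p := by positivity
    have e2 : 0 ≤ b ^ p := by positivity
    have e3 : 0 ≤ c ^ p := by positivity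
    rcases max_choice a (max b c) with h | h
    · rw [h]; linarith
    · rw [h]
      rcases max_choice b c with h' | h'
      · rw [h']; linarith
      · rw [h']; linarith
  calc (a + b + c) ^ p ≤ (3 * max a (max b c)) ^ p :=
        Real.rpow_le_rpow (by positivity) h1 hp0.le
    _ = 3 ^ p * (max a (max b c)) ^ p := Real.mul_rpow (by norm_num) h0
    _ ≤ _ := by gcongr

section Under

/-- The cells of level `n + k` below the neighbourhood of `y`. -/
def under (n k : ℕ) (y : List (Fin 8)) : Finset (List (Fin 8)) :=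
  (words (n + k)).filter fun v => Nb 1 y (v.take n)

theorem take_append_eq {n : ℕ} {w x : List (Fin 8)} (hw : w ∈ words n) : (w ++ x).take n = w := by
  have := mem_words.1 hw
  rw [← this, List.take_left']
  rfl

theorem sum_under {M : Type*} [AddCommMonoid M] (n k : ℕ) (y : List (Fin 8))
    (g : List (Fin 8) → M) :
    ∑ v ∈ under n k y, g v = ∑ w ∈ nbh 1 n y, ∑ x ∈ words k, g (w ++ x) := by
  rw [under, Finset.sum_filter, sum_words_add, nbh, Finset.sum_filter]
  refine Finset.sum_congr rfl fun w hw => ?_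
  split_ifs with h
  · refine Finset.sum_congr rfl fun x _ => ?_
    rw [take_append_eq hw, if_pos h]
  · refine Finset.sum_eq_zero fun x _ => ?_
    rw [take_append_eq hw, if_neg h]

theorem under_subset (n k : ℕ) (y : List (Fin 8)) : under n k y ⊆ words (n + k) :=
  Finset.filter_subset _ _

theorem exists_take {n k : ℕ} {v : List (Fin 8)} (hv : v ∈ words (n + k)) :
    ∃ w ∈ words n, ∃ x ∈ words k, v = w ++ x ∧ v.take n = w := by
  have hl := mem_words.1 hv
  refine ⟨v.take n, mem_words.2 (by rw [List.length_take]; omega), v.drop n,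
    mem_words.2 (by rw [List.length_drop]; omega), (List.take_append_drop n v).symm, rfl⟩

theorem gd_le_three (hK : IsCarpet K) {n : ℕ} {y w : List (Fin 8)} (hy : y ∈ words n)
    (hw : w ∈ nbh 1 n y) (z : K) : gd y (cell hK w z) ≤ 3 := by
  obtain ⟨d, hd⟩ := exists_gd y (cell hK w z)
  obtain ⟨hwn, hnb⟩ := mem_nbh.1 hw
  have hl : w.length = y.length := by rw [mem_words.1 hwn, mem_words.1 hy]
  rw [hd, ← hl, cell_co']
  have h1 : |cz d (pos y) - cz d (pos w)| ≤ 1 := hnb d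
  have h2 : |(cz d (pos y) : ℝ) - cz d (pos w)| ≤ 1 := by exact_mod_cast h1
  have h3 := abs_le.1 (abs_co_le hK d z)
  rw [abs_le] at h2 ⊢
  constructor <;> linarith

theorem gd_under (hK : IsCarpet K) {n k : ℕ} {y v : List (Fin 8)} (hy : y ∈ words n)
    (hv : v ∈ under n k y) (z : K) : gd y (cell hK v z) ≤ 3 := by
  rw [under, Finset.mem_filter] at hv
  obtain ⟨w, hw, x, hx, rfl, ht⟩ := exists_take hv.1
  rw [cell_append]
  rw [ht] at hv
  exact gd_le_three hK hy (mem_nbh.2 ⟨hw, hv.2⟩) _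

end Under

namespace Reg

variable (h : Reg hK p ρ A E)

include h

theorem energy_under {f : K → ℝ} (hf : f ∈ A) {n : ℕ} {y : List (Fin 8)} (hy : y ∈ words n)
    (k : ℕ) : ρ ^ (n + k) * ∑ v ∈ under n k y, E (f ∘ cell hK v) = ρ ^ n * enb hK E f y := by
  rw [sum_under, enb, mem_words.1 hy, pow_add, mul_assoc, Finset.mul_sum]
  congr 1
  refine Finset.sum_congr rfl fun w _ => ?_
  rw [← h.sum_words k _ (h.lat.cell_mem hf w)]
  simp only [cell_append, Function.comp_assoc]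

/-- The change of the energy by a local modification. -/
theorem energy_change {v φ : K → ℝ} (hv : v ∈ A) (hφ : v + φ ∈ A) {n : ℕ} {y : List (Fin 8)}
    (hs : ∀ w ∈ words n, ¬Nb 1 y w → ∀ z, φ (cell hK w z) = 0) (k : ℕ) :
    E v - E (v + φ) = ρ ^ (n + k) * ∑ x ∈ under n k y, E (v ∘ cell hK x) -
      ρ ^ (n + k) * ∑ x ∈ under n k y, E ((v + φ) ∘ cell hK x) := by
  rw [← h.sum_words (n + k) v hv, ← h.sum_words (n + k) _ hφ, ← mul_sub, ← mul_sub,
    ← Finset.sum_sub_distrib, ← Finset.sum_sub_distrib]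
  congr 1
  symm
  refine Finset.sum_subset (under_subset n k y) fun x hx hxu => ?_
  obtain ⟨w, hw, x', hx', rfl, ht⟩ := exists_take hx
  have hnb : ¬Nb 1 y w := fun hnb => hxu (Finset.mem_filter.2 ⟨hx, by rwa [ht]⟩)
  have e : (v + φ) ∘ cell hK (w ++ x') = v ∘ cell hK (w ++ x') := by
    funext z
    rw [cell_append]
    simp only [Function.comp_apply, Pi.add_apply]
    rw [hs w hw hnb, add_zero]
  rw [e, sub_self]

/-- The basic estimate for the gain of a modification. -/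
theorem gain_of_le {v φ : K → ℝ} (hv : v ∈ A) (hφ : v + φ ∈ A) {n : ℕ} {y : List (Fin 8)}
    (hs : ∀ w ∈ words n, ¬Nb 1 y w → ∀ z, φ (cell hK w z) = 0) {δ : ℝ} (hδ : ∀ x, |φ x| ≤ δ)
    {k : ℕ} (α b : List (Fin 8) → ℝ) (hα : ∀ x ∈ under n k y, 0 ≤ α x)
    (hb : ∀ x ∈ under n k y, 0 ≤ b x)
    (hle : ∀ x ∈ under n k y, E ((v + φ) ∘ cell hK x) ^ (1 / p) ≤ α x ^ (1 / p) + b x)
    {M ζ : ℝ} (hYM : ρ ^ (n + k) * ∑ x ∈ under n k y, α x ≤ M) (hζ : 0 ≤ ζ) (hζ1 : ζ ≤ 1)
    (hZ : ρ ^ (n + k) * ∑ x ∈ under n k y, b x ^ p ≤ ζ ^ p * M) :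
    Gain hK A E v δ n y (ρ ^ (n + k) * ∑ x ∈ under n k y, E (v ∘ cell hK x) -
      ρ ^ (n + k) * ∑ x ∈ under n k y, α x - p * 2 ^ (p - 1) * ζ * M) := by
  have hp := h.one_lt
  have hp0 := h.p_pos
  have hρ := h.rho_pos
  refine ⟨φ, hφ, hs, hδ, ?_⟩
  rw [h.energy_change hv hφ hs k]
  have hmain : ρ ^ (n + k) * ∑ x ∈ under n k y, E ((v + φ) ∘ cell hK x) ≤
      ρ ^ (n + k) * ∑ x ∈ under n k y, α x + p * 2 ^ (p - 1) * ζ * M := by
    refine pow_expand' hp.le (Z := ρ ^ (n + k) * ∑ x ∈ under n k y, b x ^ p) ?_ ?_ ?_ hYM hζ hζ1 hZ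
      ?_
    · exact mul_nonneg (by positivity) (Finset.sum_nonneg fun x _ => h.words_mem hφ)
    · exact mul_nonneg (by positivity) (Finset.sum_nonneg hα)
    · exact mul_nonneg (by positivity) (Finset.sum_nonneg fun x hx =>
        Real.rpow_nonneg (hb x hx) _)
    · refine root_sum_le hp (by positivity) _ _ _ _ (fun x _ => h.words_mem hφ) hα
        (fun x hx => Real.rpow_nonneg (hb x hx) _) fun x hx => ?_
      rw [rpow_rpow_one_div hp0 (hb x hx)]
      exact hle x hx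
  linarith

/-- Cut-off functions. -/
theorem exists_cutoff : ∃ C : ℝ, 0 < C ∧ ∀ (n : ℕ), ∀ y ∈ words n, ∃ χ ∈ A,
    (∀ z, χ (cell hK y z) = 1) ∧ (∀ w ∈ words n, ¬Nb 1 y w → ∀ z, χ (cell hK w z) = 0) ∧
    (∀ x, 0 ≤ χ x) ∧ ∀ w ∈ words n, E (χ ∘ cell hK w) ≤ C := by
  have hp := h.p_pos
  obtain ⟨τ, hτ⟩ := exists_template h.lat h.crossing
  set T : ℝ := ∑ c, E (τ c) ^ (1 / p) with hT
  have hn : ∀ c, 0 ≤ E (τ c) ^ (1 / p) := fun c => Real.rpow_nonneg (h.nonneg _ (hτ.mem c)) _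
  have hT0 : 0 ≤ T := Finset.sum_nonneg fun c _ => hn c
  have hTc : ∀ c, E (τ c) ^ (1 / p) ≤ T := fun c =>
    Finset.single_le_sum (f := fun c => E (τ c) ^ (1 / p)) (fun c _ => hn c) (Finset.mem_univ c)
  refine ⟨(4 * T) ^ p * 4 + 1, by positivity, fun n y hy => ?_⟩
  classical
  set φ : K → ℝ := fun x => if gd y x ≤ 1 then 1 else 0 with hφ
  obtain ⟨g, hg, hgi⟩ := exists_interp h.lat hτ n φ
  have hgA0 := h.lat.max_mem hg (h.lat.const_mem 0)
  refine ⟨fun x => max (g x) 0, hgA0, fun z => ?_, fun w hw hnb z => ?_,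
    fun x => le_max_right _ _, fun w hw => ?_⟩
  · have : g (cell hK y z) = 1 := by
      rw [hgi y hy z]
      have : ∀ c, φ (cell hK y (corner hK c)) = 1 := fun c => if_pos (gd_cell_le hK y _)
      simp only [this, one_mul]
      exact hτ.sum z
    simp only [this]
    norm_num
  · have : g (cell hK w z) = 0 := by
      rw [hgi w hw z]
      refine Finset.sum_eq_zero fun c _ => ?_
      have h3 : 3 ≤ gd y (cell hK w (corner hK c)) :=
        three_le_gd (by rw [mem_words.1 hw, mem_words.1 hy]) hnb _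
      have : φ (cell hK w (corner hK c)) = 0 := if_neg (by linarith)
      rw [this, zero_mul]
    simp only [this]
    norm_num
  · have e1 : (fun x => max (g x) 0) ∘ cell hK w = fun x => max ((g ∘ cell hK w) x) 0 := rfl
    rw [e1]
    refine (h.cut' (h.lat.cell_mem hg w) 0).trans ?_
    have e2 : g ∘ cell hK w = fun y => ∑ c, (φ ∘ cell hK w) (corner hK c) * τ c y := by
      funext y
      exact hgi w hw y
    rw [e2]
    refine (h.sem.template_le h.lat hτ hT0 hTc _).trans ?_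
    have e3 : cvar hK p (φ ∘ cell hK w) ≤ 4 := by
      have : ∀ c ∈ (Finset.univ : Finset (Bool × Bool)), |(φ ∘ cell hK w) (corner hK c) -
          (φ ∘ cell hK w) (corner hK (false, false))| ^ p ≤ 1 := by
        intro c _
        refine Real.rpow_le_one (abs_nonneg _) ?_ hp.le
        simp only [hφ, Function.comp_apply]
        split_ifs <;> norm_num
      refine (Finset.sum_le_sum this).trans (le_of_eq ?_)
      rw [Finset.sum_const, Finset.card_univ]
      simp only [Fintype.card_prod, Fintype.card_bool, nsmul_eq_mul]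
      norm_num
    have : 0 ≤ (4 * T) ^ p := by positivity
    nlinarith

end Reg

end Pool.Agent.SierpinskiCarpet
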