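import Pool.Agent.helper33.SRSide

/-!
# Cells near the boundary of larger cells
-/

open MeasureTheory Filter Topology

namespace Pool.Agent.SierpinskiCarpet

variable {K : Set (ℝ × ℝ)} {hK : IsCarpet K} {A : Set (K → ℝ)} {p ρ : ℝ} {E : (K → ℝ) → ℝ}

theorem cz_pos_append (d : Bool) (w x : List (Fin 8)) :
    cz d (pos (w ++ x)) = 3 ^ x.length * cz d (pos w) + cz d (pos x) := by
  induction w with
  | nil => simp [cz_pos_nil]
  | cons i w ih =>
    rw [List.cons_append, cz_pos_cons, cz_pos_cons, ih, List.length_append, pow_add]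
    ring

theorem si_cases (a : Bool) : si a = 1 ∨ si a = -1 := by cases a <;> simp [si]

/-- The cell touches the side. -/
def OnSide (d a : Bool) (w : List (Fin 8)) : Prop := 2 * cz d (pos w) = si a * (3 ^ w.length - 1)

instance (d a : Bool) (w : List (Fin 8)) : Decidable (OnSide d a w) := by
  unfold OnSide; infer_instance

theorem onSide_cons (d a : Bool) (i : Fin 8) (w : List (Fin 8)) :
    OnSide d a (i :: w) ↔ cz d (qz i) = si a ∧ OnSide d a w := by
  unfold OnSide
  rw [cz_pos_cons, List.length_cons, pow_succ]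
  have h1 := pos_le d w
  generalize (3 : ℤ) ^ w.length = N at *
  have hN : 1 ≤ N := by omega
  rcases qz_cases i d with h | h | h <;> rw [h] <;> rcases si_cases a with e | e <;> rw [e] <;>
    constructor <;> intro hh <;> omega

theorem sideE_eq (d a : Bool) (k : ℕ) : ∀ f : K → ℝ, sideE hK ρ E d a k f =
    ρ ^ k * ∑ w ∈ (words k).filter (OnSide d a), E (f ∘ cell hK w) := by
  induction k with
  | zero =>
    intro f
    have : (words 0).filter (OnSide d a) = {[]} := by
      rw [words, Finset.filter_singleton, if_pos]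
      simp [OnSide, cz_pos_nil]
    rw [this, Finset.sum_singleton, sideE, pow_zero, one_mul]
    rfl
  | succ k ih =>
    intro f
    have e1 : ∀ i, ∑ w ∈ words k, (if OnSide d a (i :: w) then E (f ∘ cell hK (i :: w)) else 0) =
        if cz d (qz i) = si a then
          ∑ w ∈ (words k).filter (OnSide d a), E ((f ∘ cellMap hK i) ∘ cell hK w) else 0 := by
      intro i
      split_ifs with hi
      · rw [Finset.sum_filter]
        refine Finset.sum_congr rfl fun w _ => ?_
        have : OnSide d a (i :: w) ↔ OnSide d a w := by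
          rw [onSide_cons]
          tauto
        by_cases hw : OnSide d a w
        · rw [if_pos hw, if_pos (this.2 hw)]
          rfl
        · rw [if_neg hw, if_neg (fun hh => hw (this.1 hh))]
      · refine Finset.sum_eq_zero fun w _ => if_neg fun hh => hi ((onSide_cons d a i w).1 hh).1
    rw [sideE, Finset.sum_filter, sum_words_succ]
    simp_rw [e1]
    rw [← Finset.sum_filter]
    simp_rw [ih]
    rw [← Finset.mul_sum, pow_succ, sideCells]
    ring

/-- The cell is close to the boundary. -/
def NearB (w : List (Fin 8)) : Prop := ∃ d, 3 ^ w.length - 3 ≤ |2 * cz d (pos w)|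

theorem nearB_parent {w : List (Fin 8)} {i : Fin 8} (h : NearB (w ++ [i])) :
    ∃ d a, OnSide d a w := by
  obtain ⟨d, hd⟩ := h
  refine ⟨d, ?_⟩
  rw [cz_pos_append, List.length_append] at hd
  have e1 : cz d (pos [i]) = cz d (qz i) := by
    rw [cz_pos_cons, cz_pos_nil]
    simp
  rw [e1] at hd
  simp only [List.length_cons, List.length_nil, zero_add, pow_one, pow_succ] at hd
  have h1 := pos_le d w
  have hodd : Odd ((3 : ℤ) ^ w.length) := (by decide : Odd (3 : ℤ)).pow
  obtain ⟨k, hk⟩ := hodd
  unfold OnSide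
  rw [hk] at h1 hd ⊢
  rw [le_abs] at hd
  rcases hd with hd | hd
  · refine ⟨true, ?_⟩
    simp only [si, if_true]
    rcases qz_cases i d with h | h | h <;> rw [h] at hd <;> omega
  · refine ⟨false, ?_⟩
    simp only [si]
    rcases qz_cases i d with h | h | h <;> rw [h] at hd <;> norm_num <;> omega

theorem words_one_mem {x : List (Fin 8)} (hx : x ∈ words 1) : ∃ i, x = [i] := by
  have := mem_words.1 hx
  exact List.length_eq_one_iff.1 this

open Classical in
theorem Reg.nearB_le (h : Reg hK p ρ A E) {f : K → ℝ} (hf : f ∈ A) (k : ℕ) :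
    ρ ^ (k + 1) * ∑ w ∈ (words (k + 1)).filter NearB, E (f ∘ cell hK w) ≤ bdE hK ρ E k f := by
  have hρ := h.rho_pos
  have hn : ∀ w, 0 ≤ E (f ∘ cell hK w) := fun _ => h.words_mem hf
  rw [Finset.sum_filter, sum_words_add]
  have h1 : ∀ w ∈ words k, ρ * ∑ x ∈ words 1, (if NearB (w ++ x) then
      E (f ∘ cell hK (w ++ x)) else 0) ≤
      ∑ c : Bool × Bool, if OnSide c.1 c.2 w then E (f ∘ cell hK w) else 0 := by
    intro w _
    by_cases hex : ∃ x ∈ words 1, NearB (w ++ x)
    · obtain ⟨x, hx, hnb⟩ := hex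
      obtain ⟨i, rfl⟩ := words_one_mem hx
      obtain ⟨d, a, hda⟩ := nearB_parent hnb
      have h2 : E (f ∘ cell hK w) ≤
          ∑ c : Bool × Bool, if OnSide c.1 c.2 w then E (f ∘ cell hK w) else 0 := by
        have := Finset.single_le_sum (s := (Finset.univ : Finset (Bool × Bool)))
          (f := fun c : Bool × Bool => if OnSide c.1 c.2 w then E (f ∘ cell hK w) else 0)
          (fun c _ => by split_ifs; exacts [hn w, le_rfl]) (Finset.mem_univ (d, a))
        simp only [if_pos hda] at this
        exact this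
      refine le_trans ?_ h2
      have h3 := h.sum_words 1 (f ∘ cell hK w) (h.lat.cell_mem hf w)
      rw [pow_one] at h3
      rw [← h3]
      gcongr with x _
      rw [cell_append]
      split_ifs
      · exact le_rfl
      · exact h.words_mem (h.lat.cell_mem hf w)
    · push Not at hex
      rw [Finset.sum_eq_zero fun x hx => if_neg (hex x hx), mul_zero]
      exact Finset.sum_nonneg fun c _ => by split_ifs; exacts [hn w, le_rfl]
  calc ρ ^ (k + 1) * ∑ w ∈ words k, ∑ x ∈ words 1, (if NearB (w ++ x) then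
        E (f ∘ cell hK (w ++ x)) else 0)
      = ρ ^ k * ∑ w ∈ words k, ρ * ∑ x ∈ words 1, (if NearB (w ++ x) then
        E (f ∘ cell hK (w ++ x)) else 0) := by
        rw [← Finset.mul_sum, pow_succ]
        ring
    _ ≤ ρ ^ k * ∑ w ∈ words k, ∑ c : Bool × Bool,
        if OnSide c.1 c.2 w then E (f ∘ cell hK w) else 0 := by
        gcongr with w hw
        exact h1 w hw
    _ = bdE hK ρ E k f := by
        rw [Finset.sum_comm, Finset.mul_sum, bdE]
        refine Finset.sum_congr rfl fun c _ => ?_
        rw [sideE_eq, Finset.sum_filter]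

open Classical in
/-- The energy of the cells near the boundary tends to zero. -/
theorem Reg.nearB_tendsto (h : Reg hK p ρ A E) {f : K → ℝ} (hf : f ∈ A) {ε : ℝ} (hε : 0 < ε) :
    ∃ k₀, ∀ k ≥ k₀, ρ ^ k * ∑ w ∈ (words k).filter NearB, E (f ∘ cell hK w) ≤ ε := by
  obtain ⟨k₀, hk₀⟩ := h.bdE_tendsto hf hε
  refine ⟨k₀ + 1, fun k hk => ?_⟩
  obtain ⟨k, rfl⟩ : ∃ j, k = j + 1 := ⟨k - 1, by omega⟩
  exact (h.nearB_le hf k).trans (hk₀ k (by omega))

/-- Cells close to a cell which is not near the boundary have the same ancestor. -/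
theorem ancestor_eq {w w' x x' : List (Fin 8)} (hw : w.length = w'.length)
    (hx : x.length = x'.length) (hxB : ¬NearB x) (hnb : Nb 2 (w ++ x) (w' ++ x')) : w' = w := by
  refine pos_injective _ _ hw.symm (cz_ext fun d => ?_)
  have h1 := hnb d
  rw [cz_pos_append, cz_pos_append, ← hx] at h1
  have h2 := pos_le d x'
  unfold NearB at hxB
  push Not at hxB
  have h3 := hxB d
  rw [← hx] at h2
  rw [abs_lt] at h3
  rw [abs_le] at h1
  have hodd : Odd ((3 : ℤ) ^ x.length) := (by decide : Odd (3 : ℤ)).pow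
  obtain ⟨k, hk⟩ := hodd
  have hN : (1 : ℤ) ≤ 3 ^ x.length := one_le_pow₀ (by norm_num)
  set N := (3 : ℤ) ^ x.length with hNdef
  set Δ := cz d (pos w) - cz d (pos w') with hΔ
  have h4 : N * cz d (pos w) - N * cz d (pos w') = N * Δ := by rw [hΔ]; ring
  have h5 : |2 * (N * Δ)| ≤ 2 * N - 2 := by
    rw [abs_le]
    constructor <;> omega
  have h6 : Δ = 0 := by
    by_contra hne
    have h7 : 1 ≤ |Δ| := Int.one_le_abs hne
    rw [abs_mul, abs_mul, abs_of_pos (by omega : (0 : ℤ) < N)] at h5
    have h8 : N * 1 ≤ N * |Δ| := Int.mul_le_mul_of_nonneg_left h7 (by omega)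
    rw [abs_of_pos (by norm_num : (0 : ℤ) < 2)] at h5
    omega
  omega

end Pool.Agent.SierpinskiCarpet
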