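import Pool.Agent.helper33.SRNear

/-!
# Local modifications
-/

open MeasureTheory Filter Topology

namespace Pool.Agent.SierpinskiCarpet

variable {K : Set (ℝ × ℝ)} {hK : IsCarpet K} {A : Set (K → ℝ)} {p ρ : ℝ} {E : (K → ℝ) → ℝ}

/-- The gain `γ` in energy is possible by a small modification near the cell `y`. -/
def Gain (hK : IsCarpet K) (A : Set (K → ℝ)) (E : (K → ℝ) → ℝ) (v : K → ℝ) (δ : ℝ) (n : ℕ)
    (y : List (Fin 8)) (γ : ℝ) : Prop :=
  ∃ φ : K → ℝ, v + φ ∈ A ∧ (∀ w ∈ words n, ¬Nb 1 y w → ∀ z, φ (cell hK w z) = 0) ∧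
    (∀ x, |φ x| ≤ δ) ∧ γ ≤ E v - E (v + φ)

theorem Gain.mono {v : K → ℝ} {δ : ℝ} {n : ℕ} {y : List (Fin 8)} {γ γ' : ℝ}
    (h : Gain hK A E v δ n y γ) (hγ : γ' ≤ γ) : Gain hK A E v δ n y γ' := by
  obtain ⟨φ, h1, h2, h3, h4⟩ := h
  exact ⟨φ, h1, h2, h3, hγ.trans h4⟩

namespace Reg

variable (h : Reg hK p ρ A E)

include h

omit h in
theorem gain_zero {v : K → ℝ} (hv : v ∈ A) {δ : ℝ} (hδ : 0 ≤ δ) (n : ℕ) (y : List (Fin 8)) :
    Gain hK A E v δ n y 0 :=
  ⟨0, by simpa using hv, fun _ _ _ _ => rfl, fun x => by simpa using hδ, by simp⟩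

theorem gain_neg {v : K → ℝ} (hv : v ∈ A) {δ : ℝ} {n : ℕ} {y : List (Fin 8)} {γ : ℝ}
    (hg : Gain hK A E (-v) δ n y γ) : Gain hK A E v δ n y γ := by
  obtain ⟨φ, h1, h2, h3, h4⟩ := hg
  have e : v + -φ = -(-v + φ) := by abel
  refine ⟨-φ, ?_, fun w hw hn z => ?_, fun x => ?_, ?_⟩
  · rw [e]
    exact h.neg_mem h1
  · rw [Pi.neg_apply, h2 w hw hn z, neg_zero]
  · rw [Pi.neg_apply, abs_neg]
    exact h3 x
  · rw [e, h.energy_neg h1]
    rwa [h.energy_neg hv] at h4

/-- Disjoint modifications. -/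
theorem disjoint_patch {v : K → ℝ} (hv : v ∈ A) {δ ε : ℝ} (hδ : 0 ≤ δ)
    (hlsc : ∀ g ∈ A, (∀ x, |g x - v x| ≤ δ) → E v ≤ E g + ε) (n : ℕ)
    (Y : Finset (List (Fin 8))) (γ : List (Fin 8) → ℝ)
    (hY : ∀ y ∈ Y, Gain hK A E v δ n y (γ y))
    (hd : ∀ y ∈ Y, ∀ y' ∈ Y, ∀ w, Nb 1 y w → Nb 1 y' w → y = y') : ∑ y ∈ Y, γ y ≤ ε := by
  classical
  have hρ := h.rho_pos
  choose! φ h1 h2 h3 h4 using hY
  set g : K → ℝ := fun x => v x + ∑ y ∈ Y, φ y x with hg
  have hcell : ∀ w ∈ words n, ∀ y ∈ Y, Nb 1 y w →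
      g ∘ cell hK w = (v + φ y) ∘ cell hK w := by
    intro w hw y hy hyw
    funext z
    simp only [hg, Function.comp_apply, Pi.add_apply]
    congr 1
    refine Finset.sum_eq_single y (fun y' hy' hne => ?_) (fun hy' => absurd hy hy')
    exact h2 y' hy' w hw (fun hn => hne (hd y' hy' y hy w hn hyw)) z
  have hcell' : ∀ w ∈ words n, (∀ y ∈ Y, ¬Nb 1 y w) → g ∘ cell hK w = v ∘ cell hK w := by
    intro w hw hnone
    funext z
    simp only [hg, Function.comp_apply]
    rw [Finset.sum_eq_zero fun y hy => h2 y hy w hw (hnone y hy) z, add_zero]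
  have hgA : g ∈ A := by
    refine h.lat.glue_words n fun w hw => ?_
    by_cases hex : ∃ y ∈ Y, Nb 1 y w
    · obtain ⟨y, hy, hyw⟩ := hex
      rw [hcell w hw y hy hyw]
      exact h.lat.cell_mem (h1 y hy) w
    · push Not at hex
      rw [hcell' w hw hex]
      exact h.lat.cell_mem hv w
  have hclose : ∀ x, |g x - v x| ≤ δ := by
    intro x
    obtain ⟨w, hw, z, rfl⟩ := exists_cell hK n x
    by_cases hex : ∃ y ∈ Y, Nb 1 y w
    · obtain ⟨y, hy, hyw⟩ := hex
      have := congrFun (hcell w hw y hy hyw) z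
      simp only [Function.comp_apply, Pi.add_apply] at this
      rw [this, add_sub_cancel_left]
      exact h3 y hy _
    · push Not at hex
      have := congrFun (hcell' w hw hex) z
      simp only [Function.comp_apply] at this
      rw [this, sub_self, abs_zero]
      exact hδ
  have hEg := hlsc g hgA hclose
  have hterm : ∀ w ∈ words n, E (v ∘ cell hK w) - E (g ∘ cell hK w) =
      ∑ y ∈ Y, (E (v ∘ cell hK w) - E ((v + φ y) ∘ cell hK w)) := by
    intro w hw
    have hz : ∀ y ∈ Y, ¬Nb 1 y w → E (v ∘ cell hK w) - E ((v + φ y) ∘ cell hK w) = 0 := by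
      intro y hy hn
      have : (v + φ y) ∘ cell hK w = v ∘ cell hK w := by
        funext z
        simp only [Function.comp_apply, Pi.add_apply]
        rw [h2 y hy w hw hn z, add_zero]
      rw [this, sub_self]
    by_cases hex : ∃ y ∈ Y, Nb 1 y w
    · obtain ⟨y, hy, hyw⟩ := hex
      rw [hcell w hw y hy hyw]
      symm
      exact Finset.sum_eq_single y (fun y' hy' hne =>
        hz y' hy' fun hn => hne (hd y' hy' y hy w hn hyw)) (fun hy' => absurd hy hy')
    · push Not at hex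
      rw [hcell' w hw hex, sub_self]
      exact (Finset.sum_eq_zero fun y hy => hz y hy (hex y hy)).symm
  have hsum : E v - E g = ∑ y ∈ Y, (E v - E (v + φ y)) := by
    calc E v - E g = ρ ^ n * ∑ w ∈ words n, (E (v ∘ cell hK w) - E (g ∘ cell hK w)) := by
          rw [Finset.sum_sub_distrib, mul_sub, h.sum_words n v hv, h.sum_words n g hgA]
      _ = ρ ^ n * ∑ w ∈ words n, ∑ y ∈ Y, (E (v ∘ cell hK w) - E ((v + φ y) ∘ cell hK w)) := by
          rw [Finset.sum_congr rfl hterm]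
      _ = ∑ y ∈ Y, (E v - E (v + φ y)) := by
          rw [Finset.sum_comm, Finset.mul_sum]
          refine Finset.sum_congr rfl fun y hy => ?_
          rw [Finset.sum_sub_distrib, mul_sub, h.sum_words n v hv, h.sum_words n _ (h1 y hy)]
  calc ∑ y ∈ Y, γ y ≤ ∑ y ∈ Y, (E v - E (v + φ y)) := Finset.sum_le_sum fun y hy => h4 y hy
    _ = E v - E g := hsum.symm
    _ ≤ ε := by linarith

/-- The total gain of small local modifications is small. -/
theorem patch {v : K → ℝ} (hv : v ∈ A) {ε : ℝ} (hε : 0 < ε) :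
    ∃ δ > 0, ∀ (n : ℕ) (Y : Finset (List (Fin 8))) (γ : List (Fin 8) → ℝ), Y ⊆ words n →
      (∀ y ∈ Y, Gain hK A E v δ n y (γ y)) → ∑ y ∈ Y, γ y ≤ ε := by
  classical
  obtain ⟨δ, hδ, hlsc⟩ := h.lsc_eps v (show 0 < ε / 9 by positivity)
  refine ⟨δ, hδ, fun n Y γ hYn hY => ?_⟩
  set T : Finset (ℤ × ℤ) := Finset.Ico 0 3 ×ˢ Finset.Ico 0 3 with hT
  have hTc : T.card = 9 := by rw [hT]; rfl
  have hmaps : ∀ y ∈ Y, ((pos y).1 % 3, (pos y).2 % 3) ∈ T := by
    intro y _
    rw [hT, Finset.mem_product, Finset.mem_Ico, Finset.mem_Ico]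
    simp only
    omega
  rw [← Finset.sum_fiberwise_of_maps_to hmaps]
  have hclass : ∀ t ∈ T, ∑ y ∈ Y with ((pos y).1 % 3, (pos y).2 % 3) = t, γ y ≤ ε / 9 := by
    intro t _
    refine h.disjoint_patch hv hδ.le hlsc n _ γ (fun y hy => hY y (Finset.mem_filter.1 hy).1) ?_
    intro y hy y' hy' w hyw hyw'
    rw [Finset.mem_filter] at hy hy'
    have e := hy.2.trans hy'.2.symm
    rw [Prod.mk.injEq] at e
    have a1 := hyw true
    have a2 := hyw false
    have b1 := hyw' true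
    have b2 := hyw' false
    simp only [cz_true, cz_false] at a1 a2 b1 b2
    rw [abs_le] at a1 a2 b1 b2
    refine pos_injective _ _ ?_ (Prod.ext ?_ ?_)
    · rw [mem_words.1 (hYn hy.1), mem_words.1 (hYn hy'.1)]
    · omega
    · omega
  refine (Finset.sum_le_sum hclass).trans (le_of_eq ?_)
  rw [Finset.sum_const, hTc, nsmul_eq_mul]
  push_cast
  ring

/-- Truncation on a part of a superlevel set. -/
theorem trunc_gain {g : K → ℝ} (hg : g ∈ A) {n : ℕ} {y : List (Fin 8)} (hy : y ∈ words n)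
    {s δ : ℝ} (hδ0 : 0 ≤ δ)
    (hcont : ∀ C : Set K, IsClosed C → IsPreconnected C → (∃ x ∈ C, gd y x ≤ 1) →
      (∃ x ∈ C, 3 ≤ gd y x) → ¬∀ x ∈ C, s ≤ g x)
    (hδ : ∀ x, gd y x ≤ 3 → g x - s ≤ δ) :
    ∃ m₀, ∀ m ≥ m₀, ∀ X ⊆ words m, (∀ x ∈ X, ∀ z, gd y (cell hK x z) ≤ 1 ∧ s ≤ g (cell hK x z)) →
      Gain hK A E g δ n y (ρ ^ m * ∑ x ∈ X, E (g ∘ cell hK x)) := by
  classical
  have := hK.instCompact
  have hρ := h.rho_pos
  have hgc := h.lat.cont g hg
  obtain ⟨S₁, S₂, c1, c2, hd, hS, hP, hQ⟩ := exists_sep (S := {x | s ≤ g x})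
    (P := {x | gd y x ≤ 1}) (Q := {x | 3 ≤ gd y x}) (isClosed_le continuous_const hgc)
    (isClosed_le (continuous_gd y) continuous_const)
    (isClosed_le continuous_const (continuous_gd y)) (by
      rintro C hC hCc hCp ⟨x, hx, hx1⟩ ⟨x', hx', hx3⟩
      exact hcont C hCc hCp ⟨x, hx, hx1⟩ ⟨x', hx', hx3⟩ fun x hx => hC hx)
  set ψ : K → ℝ := fun x => max (g x + (-s)) 0 with hψ
  have hψA : ψ ∈ A := h.lat.max_mem (h.lat.add_const_mem hg _) (h.lat.const_mem 0)
  have hψ0 : ∀ x, x ∉ S₁ → x ∉ S₂ → ψ x = 0 := fun x h1 h2 => by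
    have : g x < s := by
      by_contra hle
      have : x ∈ S₁ ∪ S₂ := by rw [hS]; exact not_lt.1 hle
      rcases this with h | h
      exacts [h1 h, h2 h]
    simp only [hψ]
    exact max_eq_right (by linarith)
  have hpA := h.lat.part_mem c1 c2 hd hψA hψ0
  set φ : K → ℝ := -part S₁ ψ with hφ
  have hgφ : g + φ ∈ A := by
    rw [hφ, ← sub_eq_add_neg]
    exact h.lat.sub_mem hg hpA
  obtain ⟨m₀, hm₀⟩ := exists_mesh_sep hK c1 c2 hd
  refine ⟨m₀, fun m hm X hX hXc => ⟨φ, hgφ, fun w hw hnb z => ?_, fun x => ?_, ?_⟩⟩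
  · -- support
    have h3 : 3 ≤ gd y (cell hK w z) :=
      three_le_gd (by rw [mem_words.1 hw, mem_words.1 hy]) hnb z
    rw [hφ, Pi.neg_apply, neg_eq_zero]
    by_cases hx : cell hK w z ∈ S₁
    · exfalso
      have : cell hK w z ∈ {x | s ≤ g x} := by rw [← hS]; exact Or.inl hx
      exact Set.disjoint_left.1 hd hx (hQ ⟨this, h3⟩)
    · exact part_of_notMem hx
  · -- size
    rw [hφ, Pi.neg_apply, abs_neg]
    by_cases hx : x ∈ S₁
    · rw [part_of_mem hx]
      have hxs : x ∈ {x | s ≤ g x} := by rw [← hS]; exact Or.inl hx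
      have h3 : gd y x ≤ 3 := by
        by_contra hlt
        exact Set.disjoint_left.1 hd hx (hQ ⟨hxs, (not_le.1 hlt).le⟩)
      have h4 : s ≤ g x := hxs
      have h5 := hδ x h3
      simp only [hψ]
      rw [max_eq_left (by linarith), abs_of_nonneg (by linarith)]
      linarith
    · rw [part_of_notMem hx, abs_zero]
      exact hδ0
  · -- the energy
    have hle : ∀ w ∈ words m, E ((g + φ) ∘ cell hK w) ≤ if w ∈ X then 0 else E (g ∘ cell hK w) := by
      intro w hw
      have e0 : (g + φ) ∘ cell hK w = g ∘ cell hK w - part S₁ ψ ∘ cell hK w := by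
        rw [hφ, ← sub_eq_add_neg]
        rfl
      rcases hm₀ m hm w hw with h1 | h2
      · have hwX : w ∉ X := by
          intro hwX
          obtain ⟨z₀⟩ := hK.instNonempty
          have := hXc w hwX z₀
          exact h1 z₀ (hP ⟨this.2, this.1⟩)
        rw [if_neg hwX, e0, part_cell_right h1]
        have : (g ∘ cell hK w - fun _ => 0) = g ∘ cell hK w := by
          funext x
          simp
        rw [this]
      · have e1 : (g + φ) ∘ cell hK w = fun z => min ((g ∘ cell hK w) z) s := by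
          rw [e0, part_cell_left hψ0 h2]
          funext z
          simp only [hψ, Pi.sub_apply, Function.comp_apply]
          rcases le_total (g (cell hK w z)) s with h3 | h3
          · rw [min_eq_left h3, max_eq_right (by linarith), sub_zero]
          · rw [min_eq_right h3, max_eq_left (by linarith)]
            ring
        rw [e1]
        split_ifs with hwX
        · have : (fun z => min ((g ∘ cell hK w) z) s) = fun _ => s := by
            funext z
            exact min_eq_right (hXc w hwX z).2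
          rw [this, h.energy_const]
        · exact h.cut _ (h.lat.cell_mem hg w) s
    have h1 : E (g + φ) ≤ ρ ^ m * ∑ w ∈ words m, if w ∈ X then 0 else E (g ∘ cell hK w) := by
      rw [← h.sum_words m _ hgφ]
      gcongr with w hw
      exact hle w hw
    have h2 : ∑ w ∈ words m, (if w ∈ X then 0 else E (g ∘ cell hK w)) +
        ∑ x ∈ X, E (g ∘ cell hK x) = ∑ w ∈ words m, E (g ∘ cell hK w) := by
      have e : ∑ x ∈ X, E (g ∘ cell hK x) =
          ∑ w ∈ words m, if w ∈ X then E (g ∘ cell hK w) else 0 := by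
        rw [Finset.sum_ite_mem, Finset.inter_eq_right.2 hX]
      rw [e, ← Finset.sum_add_distrib]
      refine Finset.sum_congr rfl fun w _ => ?_
      split_ifs <;> ring
    have h3 := h.sum_words m g hg
    rw [← h2, mul_add] at h3
    linarith

end Reg

end Pool.Agent.SierpinskiCarpet
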