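import Pool.Agent.helper33.SRVal

/-!
# Positions of cells and the folding map
-/

open MeasureTheory Filter Topology

namespace Pool.Agent.SierpinskiCarpet

variable {K : Set (ℝ × ℝ)} {hK : IsCarpet K}

section Coord

/-- The coordinates of a point. -/
def co (d : Bool) (z : ℝ × ℝ) : ℝ := if d then z.1 else z.2

/-- The coordinates of a lattice point. -/
def cz (d : Bool) (v : ℤ × ℤ) : ℤ := if d then v.1 else v.2

@[simp] theorem co_true (z : ℝ × ℝ) : co true z = z.1 := rfl
@[simp] theorem co_false (z : ℝ × ℝ) : co false z = z.2 := rfl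
@[simp] theorem cz_true (z : ℤ × ℤ) : cz true z = z.1 := rfl
@[simp] theorem cz_false (z : ℤ × ℤ) : cz false z = z.2 := rfl

theorem co_ext {z z' : ℝ × ℝ} (h : ∀ d, co d z = co d z') : z = z' :=
  Prod.ext (h true) (h false)

theorem cz_ext {z z' : ℤ × ℤ} (h : ∀ d, cz d z = cz d z') : z = z' :=
  Prod.ext (h true) (h false)

theorem continuous_co (d : Bool) : Continuous (co d) := by
  cases d
  · exact continuous_snd
  · exact continuous_fst

theorem abs_co_le (hK : IsCarpet K) (d : Bool) (x : K) : |co d x.1| ≤ 1 := by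
  cases d
  · exact abs_snd_le hK x
  · exact abs_fst_le hK x

theorem mem_side {d a : Bool} {x : K} : x ∈ side K d a ↔ co d x.1 = sgn a := Iff.rfl

/-- The integer points `q₁, …, q₈`. -/
def qz : Fin 8 → ℤ × ℤ :=
  ![(-1, -1), (0, -1), (1, -1), (1, 0), (1, 1), (0, 1), (-1, 1), (-1, 0)]

theorem q_eq (i : Fin 8) (d : Bool) : co d (q i) = cz d (qz i) := by
  fin_cases i <;> cases d <;> simp [q, qz, co, cz]

theorem qz_cases (i : Fin 8) (d : Bool) : cz d (qz i) = -1 ∨ cz d (qz i) = 0 ∨ cz d (qz i) = 1 := by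
  fin_cases i <;> cases d <;> simp [qz, cz]

theorem exists_qz {a b : ℤ} (ha : a = -1 ∨ a = 0 ∨ a = 1) (hb : b = -1 ∨ b = 0 ∨ b = 1)
    (h : ¬(a = 0 ∧ b = 0)) : ∃ i, qz i = (a, b) := by
  rcases ha with rfl | rfl | rfl <;> rcases hb with rfl | rfl | rfl
  · exact ⟨0, by simp [qz]⟩
  · exact ⟨7, by simp [qz]⟩
  · exact ⟨6, by simp [qz]⟩
  · exact ⟨1, by simp [qz]⟩
  · exact absurd ⟨rfl, rfl⟩ h
  · exact ⟨5, by simp [qz]⟩
  · exact ⟨2, by simp [qz]⟩
  · exact ⟨3, by simp [qz]⟩
  · exact ⟨4, by simp [qz]⟩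

theorem qz_injective : Function.Injective qz := by
  intro i j h
  fin_cases i <;> fin_cases j <;> first | rfl | (exfalso; simp [qz] at h)

theorem qz_ne (i : Fin 8) : ¬((qz i).1 = 0 ∧ (qz i).2 = 0) := by
  fin_cases i <;> simp [qz]

/-- The position of a cell. -/
def pos : List (Fin 8) → ℤ × ℤ
  | [] => (0, 0)
  | i :: w => (3 ^ w.length * (qz i).1 + (pos w).1, 3 ^ w.length * (qz i).2 + (pos w).2)

theorem cz_pos_nil (d : Bool) : cz d (pos []) = 0 := by cases d <;> rfl

theorem cz_pos_cons (d : Bool) (i : Fin 8) (w : List (Fin 8)) :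
    cz d (pos (i :: w)) = 3 ^ w.length * cz d (qz i) + cz d (pos w) := by cases d <;> rfl

theorem contraction_co (i : Fin 8) (d : Bool) (x : ℝ × ℝ) :
    co d (contraction i x) = (co d x + 2 * cz d (qz i)) / 3 := by
  cases d
  · rw [co_false, contraction_snd, ← q_eq]
    rfl
  · rw [co_true, contraction_fst, ← q_eq]
    rfl

theorem cell_co (hK : IsCarpet K) (d : Bool) (w : List (Fin 8)) (z : K) :
    co d (cell hK w z).1 = (co d z.1 + 2 * cz d (pos w)) / 3 ^ w.length := by
  induction w with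
  | nil => simp [cell_nil, cz_pos_nil]
  | cons i w ih =>
    rw [cell_cons, Function.comp_apply]
    change co d (contraction i (cell hK w z)) = _
    rw [contraction_co, ih, cz_pos_cons, List.length_cons]
    push_cast
    field_simp
    ring

theorem pos_le (d : Bool) (w : List (Fin 8)) :
    -(3 ^ w.length - 1) ≤ 2 * cz d (pos w) ∧ 2 * cz d (pos w) ≤ 3 ^ w.length - 1 := by
  induction w with
  | nil => simp [cz_pos_nil]
  | cons i w ih =>
    rw [cz_pos_cons, List.length_cons, pow_succ]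
    generalize (3 : ℤ) ^ w.length = N at *
    have hN : 1 ≤ N := by omega
    rcases qz_cases i d with h | h | h <;> rw [h] <;> constructor <;> omega

theorem pos_injective : ∀ (w w' : List (Fin 8)), w.length = w'.length → pos w = pos w' → w = w' := by
  intro w
  induction w with
  | nil =>
    intro w' hl _
    cases w' with
    | nil => rfl
    | cons i w' => simp at hl
  | cons i w ih =>
    intro w' hl hp
    cases w' with
    | nil => simp at hl
    | cons i' w' =>
      simp only [List.length_cons, Nat.add_right_cancel_iff] at hl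
      have key : ∀ d, cz d (qz i) = cz d (qz i') ∧ cz d (pos w) = cz d (pos w') := by
        intro d
        have e : cz d (pos (i :: w)) = cz d (pos (i' :: w')) := by rw [hp]
        rw [cz_pos_cons, cz_pos_cons, ← hl] at e
        have b1 := pos_le d w
        have b2 := pos_le d w'
        rw [← hl] at b2
        generalize (3 : ℤ) ^ w.length = N at *
        rcases qz_cases i d with h | h | h <;> rcases qz_cases i' d with h' | h' | h' <;>
          rw [h, h'] at e ⊢ <;> constructor <;> omega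
      have e1 : i = i' := qz_injective (cz_ext fun d => (key d).1)
      have e2 : w = w' := ih w' hl (cz_ext fun d => (key d).2)
      rw [e1, e2]

/-- The integer points which are positions of cells of level `n`. -/
def IsPos (n : ℕ) (v : ℤ × ℤ) : Prop := ∃ w ∈ words n, pos w = v

theorem isPos_succ {n : ℕ} {a b c d : ℤ} (hc : c = -1 ∨ c = 0 ∨ c = 1) (hd : d = -1 ∨ d = 0 ∨ d = 1)
    (h0 : ¬(c = 0 ∧ d = 0)) (h : IsPos n (a - 3 ^ n * c, b - 3 ^ n * d)) : IsPos (n + 1) (a, b) := by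
  obtain ⟨i, hi⟩ := exists_qz hc hd h0
  obtain ⟨w, hw, hp⟩ := h
  refine ⟨i :: w, mem_words.2 (by simp [mem_words.1 hw]), ?_⟩
  have hl := mem_words.1 hw
  simp only [pos, hp, hi, hl]
  refine Prod.ext ?_ ?_ <;> simp

theorem isPos_succ_iff {n : ℕ} {v : ℤ × ℤ} (h : IsPos (n + 1) v) :
    ∃ c d : ℤ, (c = -1 ∨ c = 0 ∨ c = 1) ∧ (d = -1 ∨ d = 0 ∨ d = 1) ∧ ¬(c = 0 ∧ d = 0) ∧
      IsPos n (v.1 - 3 ^ n * c, v.2 - 3 ^ n * d) := by
  obtain ⟨w, hw, hp⟩ := h
  cases w with
  | nil => simp [mem_words] at hw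
  | cons i w =>
    have hl : w.length = n := by simpa [mem_words] using hw
    refine ⟨(qz i).1, (qz i).2, qz_cases i true, qz_cases i false, qz_ne i, w, mem_words.2 hl, ?_⟩
    rw [← hp]
    simp only [pos, hl]
    refine Prod.ext ?_ ?_ <;> simp

theorem IsPos.le {n : ℕ} {v : ℤ × ℤ} (h : IsPos n v) (d : Bool) :
    -(3 ^ n - 1) ≤ 2 * cz d v ∧ 2 * cz d v ≤ 3 ^ n - 1 := by
  obtain ⟨w, hw, rfl⟩ := h
  rw [← mem_words.1 hw]
  exact pos_le d w

theorem isPos_bdry (n : ℕ) : ∀ (a b : ℤ), (2 * a = 3 ^ n - 1 ∨ 2 * a = -(3 ^ n - 1)) →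
    -(3 ^ n - 1) ≤ 2 * b → 2 * b ≤ 3 ^ n - 1 → IsPos n (a, b) ∧ IsPos n (b, a) := by
  induction n with
  | zero =>
    intro a b ha hb hb'
    have h1 : a = 0 := by simp at ha; omega
    have h2 : b = 0 := by simp at hb hb'; omega
    subst h1 h2
    exact ⟨⟨[], by simp [words], rfl⟩, ⟨[], by simp [words], rfl⟩⟩
  | succ n ih =>
    intro a b ha hb hb'
    have hN : (1 : ℤ) ≤ 3 ^ n := one_le_pow₀ (by norm_num)
    have hodd : ∃ k : ℤ, (3 : ℤ) ^ n = 2 * k + 1 := by
      have : Odd ((3 : ℤ) ^ n) := (by decide : Odd (3 : ℤ)).pow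
      obtain ⟨k, hk⟩ := this
      exact ⟨k, hk⟩
    rw [pow_succ] at ha hb hb'
    obtain ⟨c, hc, hac⟩ : ∃ c : ℤ, (c = -1 ∨ c = 1) ∧
        (2 * (a - 3 ^ n * c) = 3 ^ n - 1 ∨ 2 * (a - 3 ^ n * c) = -(3 ^ n - 1)) := by
      rcases ha with ha | ha
      · exact ⟨1, Or.inr rfl, Or.inl (by linarith)⟩
      · exact ⟨-1, Or.inl rfl, Or.inr (by linarith)⟩
    obtain ⟨d, hd, hbd, hbd'⟩ : ∃ d : ℤ, (d = -1 ∨ d = 0 ∨ d = 1) ∧
        -(3 ^ n - 1) ≤ 2 * (b - 3 ^ n * d) ∧ 2 * (b - 3 ^ n * d) ≤ 3 ^ n - 1 := by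
      obtain ⟨k, hk⟩ := hodd
      rw [hk] at hb hb' ⊢
      by_cases h1 : b < -k
      · exact ⟨-1, Or.inl rfl, by omega, by omega⟩
      by_cases h2 : b ≤ k
      · exact ⟨0, Or.inr (Or.inl rfl), by omega, by omega⟩
      · exact ⟨1, Or.inr (Or.inr rfl), by omega, by omega⟩
    obtain ⟨h1, h2⟩ := ih _ _ hac hbd hbd'
    have hc' : c = -1 ∨ c = 0 ∨ c = 1 := by omega
    exact ⟨isPos_succ hc' hd (by omega) h1, isPos_succ hd hc' (by omega) h2⟩

/-- Two neighbouring coordinates in different large cells. -/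
theorem adj_arith {a c c' s N : ℤ} (hN : 1 ≤ N) (hc : c = -1 ∨ c = 0 ∨ c = 1)
    (hc' : c' = -1 ∨ c' = 0 ∨ c' = 1) (hne : ¬c = c') (hs : s = 1 ∨ s = -1)
    (h1 : -(N - 1) ≤ 2 * (a - N * c)) (h2 : 2 * (a - N * c) ≤ N - 1)
    (h3 : -(N - 1) ≤ 2 * (a + s - N * c')) (h4 : 2 * (a + s - N * c') ≤ N - 1) :
    (2 * (a - N * c) = N - 1 ∨ 2 * (a - N * c) = -(N - 1)) ∧
      (2 * (a + s - N * c') = N - 1 ∨ 2 * (a + s - N * c') = -(N - 1)) ∧ c' = c + s := by
  rcases hs with rfl | rfl
  · rcases hc with rfl | rfl | rfl <;> rcases hc' with rfl | rfl | rfl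
    · exact absurd rfl hne
    · exact ⟨Or.inl (by omega), Or.inr (by omega), rfl⟩
    · exfalso; omega
    · exfalso; omega
    · exact absurd rfl hne
    · exact ⟨Or.inl (by omega), Or.inr (by omega), rfl⟩
    · exfalso; omega
    · exfalso; omega
    · exact absurd rfl hne
  · rcases hc with rfl | rfl | rfl <;> rcases hc' with rfl | rfl | rfl
    · exact absurd rfl hne
    · exfalso; omega
    · exfalso; omega
    · exact ⟨Or.inr (by omega), Or.inl (by omega), rfl⟩
    · exact absurd rfl hne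
    · exfalso; omega
    · exfalso; omega
    · exact ⟨Or.inr (by omega), Or.inl (by omega), rfl⟩
    · exact absurd rfl hne

/-- Diagonal neighbours have a common neighbour. -/
theorem isPos_diag (n : ℕ) : ∀ (a b s t : ℤ), (s = 1 ∨ s = -1) → (t = 1 ∨ t = -1) →
    IsPos n (a, b) → IsPos n (a + s, b + t) → IsPos n (a + s, b) ∨ IsPos n (a, b + t) := by
  induction n with
  | zero =>
    intro a b s t hs ht h h'
    have h1 := h.le true
    have h2 := h'.le true
    simp at h1 h2
    omega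
  | succ n ih =>
    intro a b s t hs ht h h'
    obtain ⟨c, d, hc, hd, hcd, h1⟩ := isPos_succ_iff h
    obtain ⟨c', d', hc', hd', hcd', h2⟩ := isPos_succ_iff h'
    simp only at h1 h2
    have x1 := h1.le true
    have y1 := h1.le false
    have x2 := h2.le true
    have y2 := h2.le false
    simp only [cz_true, cz_false] at x1 y1 x2 y2
    by_cases ec : c = c'
    · by_cases ed : d = d'
      · subst ec ed
        have e1 : (a + s - 3 ^ n * c, b + t - 3 ^ n * d) =
            ((a - 3 ^ n * c) + s, (b - 3 ^ n * d) + t) := by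
          refine Prod.ext ?_ ?_ <;> simp only <;> ring
        rw [e1] at h2
        rcases ih _ _ s t hs ht h1 h2 with h3 | h3
        · left
          refine isPos_succ hc hd hcd ?_
          have : a + s - 3 ^ n * c = a - 3 ^ n * c + s := by ring
          rwa [this]
        · right
          refine isPos_succ hc hd hcd ?_
          have : b + t - 3 ^ n * d = b - 3 ^ n * d + t := by ring
          rwa [this]
      · -- the second coordinate changes the large cell
        left
        subst ec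
        have hN : (1 : ℤ) ≤ 3 ^ n := one_le_pow₀ (by norm_num)
        refine isPos_succ hc hd hcd ?_
        refine (isPos_bdry n (b - 3 ^ n * d) (a + s - 3 ^ n * c) ?_ x2.1 x2.2).2
        exact (adj_arith hN hd hd' ed ht y1.1 y1.2 y2.1 y2.2).1
    · by_cases ed : d = d'
      · right
        subst ed
        have hN : (1 : ℤ) ≤ 3 ^ n := one_le_pow₀ (by norm_num)
        refine isPos_succ hc hd hcd ?_
        refine (isPos_bdry n (a - 3 ^ n * c) (b + t - 3 ^ n * d) ?_ y2.1 y2.2).1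
        exact (adj_arith hN hc hc' ec hs x1.1 x1.2 x2.1 x2.2).1
      · have hN : (1 : ℤ) ≤ 3 ^ n := one_le_pow₀ (by norm_num)
        have fa : (2 * (a - 3 ^ n * c) = 3 ^ n - 1 ∨ 2 * (a - 3 ^ n * c) = -(3 ^ n - 1)) ∧
            (2 * (a + s - 3 ^ n * c') = 3 ^ n - 1 ∨ 2 * (a + s - 3 ^ n * c') = -(3 ^ n - 1)) ∧
            c' = c + s := adj_arith hN hc hc' ec hs x1.1 x1.2 x2.1 x2.2
        have fb : (2 * (b - 3 ^ n * d) = 3 ^ n - 1 ∨ 2 * (b - 3 ^ n * d) = -(3 ^ n - 1)) ∧
            (2 * (b + t - 3 ^ n * d') = 3 ^ n - 1 ∨ 2 * (b + t - 3 ^ n * d') = -(3 ^ n - 1)) ∧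
            d' = d + t := adj_arith hN hd hd' ed ht y1.1 y1.2 y2.1 y2.2
        by_cases hz : c' = 0 ∧ d = 0
        · right
          refine isPos_succ hc hd' (by omega) ?_
          exact (isPos_bdry n _ _ fa.1 y2.1 y2.2).1
        · left
          refine isPos_succ hc' hd hz ?_
          exact (isPos_bdry n _ _ fa.2.1 y1.1 y1.2).1

end Coord

end Pool.Agent.SierpinskiCarpet
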