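import Mathlib

/-!
# Topological lemmas: separation of compact sets, continua and the crossing lemma
-/

open Set Filter Topology

namespace Pool.Agent.SierpinskiCarpet

section Top

variable {X : Type*} [TopologicalSpace X] [CompactSpace X] [T2Space X]

/-- If no continuum in `S` joins `P` and `Q` then `S` can be separated between `P` and `Q`. -/
theorem exists_sep {S P Q : Set X} (hS : IsClosed S) (hP : IsClosed P) (hQ : IsClosed Q)
    (h : ∀ C ⊆ S, IsClosed C → IsPreconnected C → (C ∩ P).Nonempty → ¬(C ∩ Q).Nonempty) :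
    ∃ S₁ S₂ : Set X, IsClosed S₁ ∧ IsClosed S₂ ∧ Disjoint S₁ S₂ ∧ S₁ ∪ S₂ = S ∧ S ∩ P ⊆ S₁ ∧
      S ∩ Q ⊆ S₂ := by
  have : CompactSpace S := isCompact_iff_compactSpace.1 hS.isCompact
  have hcl : Topology.IsClosedEmbedding (Subtype.val : S → X) := hS.isClosedEmbedding_subtypeVal
  let P' : Set S := Subtype.val ⁻¹' P
  let Q' : Set S := Subtype.val ⁻¹' Q
  have hP' : IsClosed P' := hP.preimage continuous_subtype_val
  have hQ' : IsClosed Q' := hQ.preimage continuous_subtype_val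
  have hx : ∀ x ∈ P', ∃ U : Set S, IsClopen U ∧ x ∈ U ∧ Q' ∩ U = ∅ := by
    intro x hxP
    have hd : Q' ∩ connectedComponent x = ∅ := by
      rw [Set.eq_empty_iff_forall_notMem]
      rintro y ⟨hyQ, hy⟩
      refine h (Subtype.val '' connectedComponent x) ?_ ?_ ?_ ⟨x.1, ⟨x, mem_connectedComponent, rfl⟩, hxP⟩
        ⟨y.1, ⟨y, hy, rfl⟩, hyQ⟩
      · rintro _ ⟨z, -, rfl⟩
        exact z.2
      · exact hcl.isClosedMap _ isClosed_connectedComponent
      · exact isPreconnected_connectedComponent.image _ continuous_subtype_val.continuousOn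
    rw [connectedComponent_eq_iInter_isClopen] at hd
    have : Nonempty { s : Set S // IsClopen s ∧ x ∈ s } := ⟨⟨univ, isClopen_univ, mem_univ _⟩⟩
    obtain ⟨U, hU⟩ := hQ'.isCompact.elim_directed_family_closed
      (fun s : { s : Set S // IsClopen s ∧ x ∈ s } => (s : Set S)) (fun s => s.2.1.1) hd (by
        intro s t
        exact ⟨⟨s.1 ∩ t.1, s.2.1.inter t.2.1, s.2.2, t.2.2⟩, Set.inter_subset_left,
          Set.inter_subset_right⟩)
    exact ⟨U.1, U.2.1, U.2.2, hU⟩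
  have hU : ∃ U : Set S, IsClopen U ∧ P' ⊆ U ∧ Q' ∩ U = ∅ := by
    refine hP'.isCompact.induction_on (p := fun s => ∃ U : Set S, IsClopen U ∧ s ⊆ U ∧ Q' ∩ U = ∅)
      ⟨∅, isClopen_empty, Set.Subset.rfl, by simp⟩ ?_ ?_ ?_
    · rintro s t hst ⟨U, hU, htU, hQU⟩
      exact ⟨U, hU, hst.trans htU, hQU⟩
    · rintro s t ⟨U, hU, hsU, hQU⟩ ⟨V, hV, htV, hQV⟩
      refine ⟨U ∪ V, hU.union hV, Set.union_subset_union hsU htV, ?_⟩
      rw [Set.inter_union_distrib_left, hQU, hQV, Set.union_empty]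
    · intro x hxP
      obtain ⟨U, hU, hxU, hQU⟩ := hx x hxP
      exact ⟨U, mem_nhdsWithin_of_mem_nhds (hU.2.mem_nhds hxU), U, hU, Set.Subset.rfl, hQU⟩
  obtain ⟨U, hU, hPU, hQU⟩ := hU
  refine ⟨Subtype.val '' U, Subtype.val '' Uᶜ, hcl.isClosedMap _ hU.1,
    hcl.isClosedMap _ hU.compl.1, ?_, ?_, ?_, ?_⟩
  · rw [Set.disjoint_image_iff Subtype.val_injective]
    exact disjoint_compl_right
  · rw [← Set.image_union, Set.union_compl_self, Set.image_univ, Subtype.range_val]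
  · rintro x ⟨hxS, hxP⟩
    exact ⟨⟨x, hxS⟩, hPU hxP, rfl⟩
  · rintro x ⟨hxS, hxQ⟩
    refine ⟨⟨x, hxS⟩, fun hxU => ?_, rfl⟩
    have : (⟨x, hxS⟩ : S) ∈ Q' ∩ U := ⟨hxQ, hxU⟩
    rw [hQU] at this
    exact this

omit [CompactSpace X] [T2Space X] in
/-- A preconnected subset of the union of two disjoint closed sets is contained in one of them. -/
theorem preconnected_sep {S₁ S₂ C : Set X} (h₁ : IsClosed S₁) (h₂ : IsClosed S₂)
    (hd : Disjoint S₁ S₂) (hC : IsPreconnected C) (hsub : C ⊆ S₁ ∪ S₂) {x y : X} (hx : x ∈ C)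
    (hy : y ∈ C) (hx1 : x ∈ S₁) : y ∈ S₁ := by
  by_contra hy1
  have hy2 : y ∈ S₂ := (hsub hy).resolve_left hy1
  obtain ⟨z, -, hz1, hz2⟩ := isPreconnected_closed_iff.1 hC S₁ S₂ h₁ h₂ hsub ⟨x, hx, hx1⟩
    ⟨y, hy, hy2⟩
  exact Set.disjoint_left.1 hd hz1 hz2

/-- Boundary bumping. -/
theorem exists_bump {C : Set X} (hC : IsClosed C) (hCc : IsPreconnected C) {g : X → ℝ}
    (hg : Continuous g) {α β : ℝ} (hαβ : α < β) (hα : ∃ x ∈ C, g x ≤ α) (hβ : ∃ x ∈ C, β ≤ g x) :
    ∃ C' ⊆ C, IsClosed C' ∧ IsPreconnected C' ∧ (∀ x ∈ C', α ≤ g x ∧ g x ≤ β) ∧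
      (∃ x ∈ C', g x = α) ∧ ∃ x ∈ C', g x = β := by
  by_contra hcon
  have hSc : IsClosed (C ∩ {x | α ≤ g x ∧ g x ≤ β}) :=
    hC.inter ((isClosed_le continuous_const hg).inter (isClosed_le hg continuous_const))
  obtain ⟨S₁, S₂, h1, h2, hd, hS, hP, hQ⟩ := exists_sep (S := C ∩ {x | α ≤ g x ∧ g x ≤ β})
    (P := {x | g x = α}) (Q := {x | g x = β}) hSc (isClosed_eq hg continuous_const)
    (isClosed_eq hg continuous_const) (by
      rintro C' hC' hC'c hC'p ⟨x, hx, hxα⟩ ⟨y, hy, hyβ⟩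
      exact hcon ⟨C', hC'.trans Set.inter_subset_left, hC'c, hC'p, fun z hz => (hC' hz).2,
        ⟨x, hx, hxα⟩, y, hy, hyβ⟩)
  obtain ⟨x, hx, hxα⟩ := hα
  obtain ⟨y, hy, hyβ⟩ := hβ
  have hdd : Disjoint ((C ∩ {x | g x ≤ α}) ∪ S₁) ((C ∩ {x | β ≤ g x}) ∪ S₂) := by
    rw [Set.disjoint_left]
    rintro z (⟨hzC, hz⟩ | hz) (⟨-, hz'⟩ | hz')
    · have e1 : g z ≤ α := hz
      have e2 : β ≤ g z := hz'
      linarith
    · have e1 : g z ≤ α := hz
      have e2 : z ∈ C ∩ {x | α ≤ g x ∧ g x ≤ β} := by rw [← hS]; exact Or.inr hz'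
      have e3 : z ∈ S₁ := hP ⟨e2, le_antisymm e1 e2.2.1⟩
      exact Set.disjoint_left.1 hd e3 hz'
    · have e1 : β ≤ g z := hz'
      have e2 : z ∈ C ∩ {x | α ≤ g x ∧ g x ≤ β} := by rw [← hS]; exact Or.inl hz
      have e3 : z ∈ S₂ := hQ ⟨e2, le_antisymm e2.2.2 e1⟩
      exact Set.disjoint_left.1 hd hz e3
    · exact Set.disjoint_left.1 hd hz hz'
  have hc1 : IsClosed ((C ∩ {x | g x ≤ α}) ∪ S₁) :=
    (hC.inter (isClosed_le hg continuous_const)).union h1
  have hc2 : IsClosed ((C ∩ {x | β ≤ g x}) ∪ S₂) :=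
    (hC.inter (isClosed_le continuous_const hg)).union h2
  have hsub : C ⊆ ((C ∩ {x | g x ≤ α}) ∪ S₁) ∪ ((C ∩ {x | β ≤ g x}) ∪ S₂) := by
    intro z hz
    by_cases e1 : g z ≤ α
    · exact Or.inl (Or.inl ⟨hz, e1⟩)
    by_cases e2 : β ≤ g z
    · exact Or.inr (Or.inl ⟨hz, e2⟩)
    have e3 : z ∈ S₁ ∪ S₂ := by
      rw [hS]
      exact ⟨hz, (not_le.1 e1).le, (not_le.1 e2).le⟩
    rcases e3 with e3 | e3
    · exact Or.inl (Or.inr e3)
    · exact Or.inr (Or.inr e3)
  have := preconnected_sep hc1 hc2 hdd hCc hsub hx hy (Or.inl ⟨hx, hxα⟩)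
  exact Set.disjoint_left.1 hdd this (Or.inl ⟨hy, hyβ⟩)

/-- Limits of continua joining two sets. -/
theorem exists_limit {S : Set X} (hS : IsClosed S) {g : X → ℝ} (hg : Continuous g) {α β : ℝ}
    (h : ∀ ε > 0, ∃ C ⊆ S, IsPreconnected C ∧ (∃ x ∈ C, g x ≤ α + ε) ∧ ∃ x ∈ C, β - ε ≤ g x) :
    ∃ C ⊆ S, IsClosed C ∧ IsPreconnected C ∧ (∃ x ∈ C, g x ≤ α) ∧ ∃ x ∈ C, β ≤ g x := by
  by_contra hcon
  obtain ⟨S₁, S₂, h1, h2, hd, hS', hP, hQ⟩ := exists_sep (S := S)
    (P := {x | g x ≤ α}) (Q := {x | β ≤ g x}) hS (isClosed_le hg continuous_const)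
    (isClosed_le continuous_const hg) (by
      rintro C' hC' hC'c hC'p ⟨x, hx, hxα⟩ ⟨y, hy, hyβ⟩
      exact hcon ⟨C', hC', hC'c, hC'p, ⟨x, hx, hxα⟩, y, hy, hyβ⟩)
  have e2 : ∃ ε > 0, ∀ x ∈ S₂, α + ε < g x := by
    rcases S₂.eq_empty_or_nonempty with he | hne
    · exact ⟨1, one_pos, by simp [he]⟩
    obtain ⟨x₀, hx₀, hmin⟩ := h2.isCompact.exists_isMinOn hne hg.continuousOn
    have : α < g x₀ := by
      by_contra hle
      have : x₀ ∈ S₁ := hP ⟨by rw [← hS']; exact Or.inr hx₀, not_lt.1 hle⟩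
      exact Set.disjoint_left.1 hd this hx₀
    refine ⟨(g x₀ - α) / 2, by linarith, fun x hx => ?_⟩
    have : g x₀ ≤ g x := hmin hx
    linarith
  have e1 : ∃ ε > 0, ∀ x ∈ S₁, g x < β - ε := by
    rcases S₁.eq_empty_or_nonempty with he | hne
    · exact ⟨1, one_pos, by simp [he]⟩
    obtain ⟨x₀, hx₀, hmax⟩ := h1.isCompact.exists_isMaxOn hne hg.continuousOn
    have : g x₀ < β := by
      by_contra hle
      have : x₀ ∈ S₂ := hQ ⟨by rw [← hS']; exact Or.inl hx₀, not_lt.1 hle⟩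
      exact Set.disjoint_left.1 hd hx₀ this
    refine ⟨(β - g x₀) / 2, by linarith, fun x hx => ?_⟩
    have : g x ≤ g x₀ := hmax hx
    linarith
  obtain ⟨ε₁, hε₁, e1⟩ := e1
  obtain ⟨ε₂, hε₂, e2⟩ := e2
  obtain ⟨C, hCS, hCp, ⟨x, hx, hxα⟩, y, hy, hyβ⟩ := h (min ε₁ ε₂) (lt_min hε₁ hε₂)
  have hx1 : x ∈ S₁ := by
    have : x ∈ S₁ ∪ S₂ := by rw [hS']; exact hCS hx
    rcases this with h | h
    · exact h
    · have := e2 x h
      have := min_le_right ε₁ ε₂
      linarith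
  have hy1 : y ∈ S₁ := preconnected_sep h1 h2 hd hCp (by rw [hS']; exact hCS) hx hy hx1
  have := e1 y hy1
  have := min_le_left ε₁ ε₂
  linarith

end Top

section Sperner

/-- Edges with labels `1` and `2`. -/
def edge (a b : Fin 3) : ZMod 2 := if (a = 1 ∧ b = 2) ∨ (a = 2 ∧ b = 1) then 1 else 0

/-- All labels occur. -/
def Rainbow (a b c : Fin 3) : Prop := ∀ x : Fin 3, x = a ∨ x = b ∨ x = c

instance (a b c : Fin 3) : Decidable (Rainbow a b c) := by unfold Rainbow; infer_instance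

theorem edge_sum : ∀ a b c : Fin 3, ¬Rainbow a b c → edge a b + edge b c + edge a c = 0 := by
  decide

theorem sperner_grid (m n : ℕ) (L : ℕ → ℕ → Fin 3) (h0 : ∀ j ≤ n, L 0 j = 0)
    (h1 : ∀ j ≤ n, L m j ≠ 0) (h2 : ∀ i ≤ m, L i 0 ≠ 2) (h3 : ∀ i ≤ m, L i n ≠ 1) :
    ∃ i < m, ∃ j < n, Rainbow (L i j) (L (i + 1) j) (L (i + 1) (j + 1)) ∨
      Rainbow (L i j) (L i (j + 1)) (L (i + 1) (j + 1)) := by
  by_contra hcon
  push Not at hcon
  have hchar : ∀ x : ZMod 2, x + x = 0 := by decide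
  have hsq : ∀ i < m, ∀ j < n, edge (L i j) (L (i + 1) j) + edge (L i (j + 1)) (L (i + 1) (j + 1)) +
      (edge (L i j) (L i (j + 1)) + edge (L (i + 1) j) (L (i + 1) (j + 1))) = 0 := by
    intro i hi j hj
    have e1 := edge_sum _ _ _ (hcon i hi j hj).1
    have e2 := edge_sum _ _ _ (hcon i hi j hj).2
    have e3 := hchar (edge (L i j) (L (i + 1) (j + 1)))
    linear_combination e1 + e2 - e3
  have hrow : ∀ j < n, ∀ k ≤ m, (∑ i ∈ Finset.range k, edge (L i j) (L (i + 1) j)) +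
      (∑ i ∈ Finset.range k, edge (L i (j + 1)) (L (i + 1) (j + 1))) =
        edge (L 0 j) (L 0 (j + 1)) + edge (L k j) (L k (j + 1)) := by
    intro j hj k
    induction k with
    | zero =>
      intro _
      simp only [Finset.range_zero, Finset.sum_empty, add_zero]
      exact (hchar _).symm
    | succ k ih =>
      intro hk
      rw [Finset.sum_range_succ, Finset.sum_range_succ]
      have e1 := ih (by omega)
      have e2 := hsq k (by omega) j hj
      have e3 := hchar (edge (L k j) (L k (j + 1)))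
      have e4 := hchar (edge (L (k + 1) j) (L (k + 1) (j + 1)))
      linear_combination e1 + e2 - e4
  have hcol : ∀ k ≤ n, (∑ i ∈ Finset.range m, edge (L i 0) (L (i + 1) 0)) +
      (∑ i ∈ Finset.range m, edge (L i k) (L (i + 1) k)) =
        ∑ j ∈ Finset.range k, (edge (L 0 j) (L 0 (j + 1)) + edge (L m j) (L m (j + 1))) := by
    intro k
    induction k with
    | zero =>
      intro _
      simp only [Finset.range_zero, Finset.sum_empty]
      exact hchar _
    | succ k ih =>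
      intro hk
      rw [Finset.sum_range_succ]
      have e1 := ih (by omega)
      have e2 := hrow k (by omega) m le_rfl
      have e3 := hchar (∑ i ∈ Finset.range m, edge (L i k) (L (i + 1) k))
      linear_combination e1 + e2 - e3
  have hz : ∀ a b : Fin 3, a ≠ 2 → b ≠ 2 → edge a b = 0 := by decide
  have hz' : ∀ a b : Fin 3, a ≠ 1 → b ≠ 1 → edge a b = 0 := by decide
  have hs : ∀ a b : Fin 3, a ≠ 0 → b ≠ 0 → edge a b = (if a = 2 then 1 else 0) +
    (if b = 2 then 1 else 0) := by decide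
  have e1 := hcol n le_rfl
  have e2 : ∑ i ∈ Finset.range m, edge (L i 0) (L (i + 1) 0) = 0 :=
    Finset.sum_eq_zero fun i hi => hz _ _ (h2 i (Finset.mem_range.1 hi).le)
      (h2 (i + 1) (Finset.mem_range.1 hi))
  have e3 : ∑ i ∈ Finset.range m, edge (L i n) (L (i + 1) n) = 0 :=
    Finset.sum_eq_zero fun i hi => hz' _ _ (h3 i (Finset.mem_range.1 hi).le)
      (h3 (i + 1) (Finset.mem_range.1 hi))
  have e4 : ∀ k ≤ n, ∑ j ∈ Finset.range k, (edge (L 0 j) (L 0 (j + 1)) +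
      edge (L m j) (L m (j + 1))) = (if L m 0 = 2 then (1 : ZMod 2) else 0) +
        (if L m k = 2 then 1 else 0) := by
    intro k
    induction k with
    | zero =>
      intro _
      simp only [Finset.range_zero, Finset.sum_empty]
      exact (hchar _).symm
    | succ k ih =>
      intro hk
      rw [Finset.sum_range_succ, ih (by omega), h0 k (by omega), h0 (k + 1) (by omega),
        hs _ _ (h1 k (by omega)) (h1 (k + 1) (by omega))]
      have : edge 0 0 = 0 := by decide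
      rw [this]
      have e3 := hchar (if L m k = 2 then (1 : ZMod 2) else 0)
      linear_combination e3
  rw [e2, e3, e4 n le_rfl] at e1
  have h5 : L m 0 = 1 := by
    have h6 := h1 0 (by omega)
    have h7 := h2 m le_rfl
    revert h6 h7
    generalize L m 0 = a
    revert a
    decide
  have h6 : L m n = 2 := by
    have h6 := h1 n le_rfl
    have h7 := h3 m le_rfl
    revert h6 h7
    generalize L m n = a
    revert a
    decide
  rw [h5, h6] at e1
  revert e1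
  decide

/-- Connected sets are chainable. -/
theorem exists_chain {X : Type*} [PseudoMetricSpace X] {C : Set X} (hC : IsPreconnected C) {δ : ℝ}
    (hδ : 0 < δ) {x y : X} (hx : x ∈ C) (hy : y ∈ C) :
    ∃ (n : ℕ) (a : ℕ → X), a 0 = x ∧ a n = y ∧ (∀ i, a i ∈ C) ∧
      ∀ i < n, dist (a i) (a (i + 1)) < δ := by
  refine hC.induction₂' (fun x y => ∃ (n : ℕ) (a : ℕ → X), a 0 = x ∧ a n = y ∧ (∀ i, a i ∈ C) ∧
      ∀ i < n, dist (a i) (a (i + 1)) < δ) ?_ ?_ hx hy
  · intro x hx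
    have h1 : ∀ᶠ y in 𝓝[C] x, dist y x < δ :=
      mem_nhdsWithin_of_mem_nhds (Metric.ball_mem_nhds x hδ)
    filter_upwards [h1, self_mem_nhdsWithin] with y hy hyC
    constructor
    · refine ⟨1, fun i => if i = 0 then x else y, by simp, by simp, ?_, ?_⟩
      · intro i
        simp only
        split_ifs <;> assumption
      · intro i hi
        have : i = 0 := by omega
        subst this
        simp only [if_true, zero_add, one_ne_zero, if_false]
        rwa [dist_comm]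
    · refine ⟨1, fun i => if i = 0 then y else x, by simp, by simp, ?_, ?_⟩
      · intro i
        simp only
        split_ifs <;> assumption
      · intro i hi
        have : i = 0 := by omega
        subst this
        simp only [if_true, zero_add, one_ne_zero, if_false]
        exact hy
  · rintro x y z - - - ⟨n, a, ha0, han, haC, ha⟩ ⟨m, b, hb0, hbm, hbC, hb⟩
    refine ⟨n + m, fun i => if i ≤ n then a i else b (i - n), by simp [ha0], ?_, ?_, ?_⟩
    · simp only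
      split_ifs with h
      · have : m = 0 := by omega
        subst this
        rw [add_zero, han, ← hb0, hbm]
      · rw [Nat.add_sub_cancel_left, hbm]
    · intro i
      simp only
      split_ifs
      · exact haC i
      · exact hbC _
    · intro i hi
      simp only
      by_cases h1 : i + 1 ≤ n
      · rw [if_pos (by omega), if_pos h1]
        exact ha i (by omega)
      · by_cases h2 : i ≤ n
        · have : i = n := by omega
          subst this
          rw [if_pos le_rfl, if_neg h1, han, ← hb0]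
          have := hb 0 (by omega)
          rwa [Nat.add_sub_cancel_left]
        · rw [if_neg h2, if_neg h1]
          have := hb (i - n) (by omega)
          rwa [show i + 1 - n = i - n + 1 by omega]

/-- Two continua in a square which cross it in different directions intersect. -/
theorem crossing_lemma {C D : Set (ℝ × ℝ)} (hC : IsCompact C) (hD : IsCompact D)
    (hCc : IsPreconnected C) (hDc : IsPreconnected D) (hCb : ∀ z ∈ C, |z.1| ≤ 1 ∧ |z.2| ≤ 1)
    (hDb : ∀ z ∈ D, |z.1| ≤ 1 ∧ |z.2| ≤ 1) (hC0 : ∃ z ∈ C, z.1 = -1) (hC1 : ∃ z ∈ C, z.1 = 1)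
    (hD0 : ∃ z ∈ D, z.2 = -1) (hD1 : ∃ z ∈ D, z.2 = 1) : (C ∩ D).Nonempty := by
  by_contra hne
  rw [Set.not_nonempty_iff_eq_empty, ← Set.disjoint_iff_inter_eq_empty] at hne
  obtain ⟨x, hx, hx1⟩ := hC0
  obtain ⟨x', hx', hx1'⟩ := hC1
  obtain ⟨y, hy, hy1⟩ := hD0
  obtain ⟨y', hy', hy1'⟩ := hD1
  obtain ⟨r, hr, hdist⟩ := hne.exists_thickenings hC hD.isClosed
  have hdist : ∀ a ∈ C, ∀ b ∈ D, r ≤ dist a b := by
    intro a ha b hb
    by_contra hlt
    push Not at hlt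
    exact Set.disjoint_left.1 hdist (Metric.mem_thickening_iff.2 ⟨a, ha, by rwa [dist_comm]⟩)
      (Metric.self_subset_thickening hr D hb)
  set δ : ℝ := min 1 (r / 6) with hδ
  have hδ0 : 0 < δ := lt_min one_pos (by positivity)
  have hδ1 : δ ≤ 1 := min_le_left _ _
  have hδr : δ ≤ r / 6 := min_le_right _ _
  obtain ⟨m, a, ha0, ham, haC, ha⟩ := exists_chain hCc hδ0 hx hx'
  obtain ⟨n, b, hb0, hbn, hbD, hb⟩ := exists_chain hDc hδ0 hy hy'
  set H₁ : ℕ → ℕ → ℝ := fun i j => (1 + δ) * (a i).1 - (b j).1 with hH₁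
  set H₂ : ℕ → ℕ → ℝ := fun i j => (a i).2 - (1 + δ) * (b j).2 with hH₂
  set L : ℕ → ℕ → Fin 3 := fun i j => if H₁ i j < 0 then 0 else if 0 ≤ H₂ i j then 1 else 2 with hL
  have hL0 : ∀ i j, L i j = 0 → H₁ i j < 0 := by
    intro i j h
    by_contra hc
    rw [hL] at h
    simp only [if_neg hc] at h
    split_ifs at h <;> simp at h
  have hL1 : ∀ i j, L i j = 1 → 0 ≤ H₁ i j ∧ 0 ≤ H₂ i j := by
    intro i j h
    rw [hL] at h
    simp only at h
    split_ifs at h with h1 h2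
    · simp at h
    · exact ⟨not_lt.1 h1, h2⟩
    · simp at h
  have hL2 : ∀ i j, L i j = 2 → 0 ≤ H₁ i j ∧ H₂ i j < 0 := by
    intro i j h
    rw [hL] at h
    simp only at h
    split_ifs at h with h1 h2
    · simp at h
    · simp at h
    · exact ⟨not_lt.1 h1, not_le.1 h2⟩
  have key := sperner_grid m n L (fun j _ => by
      have e1 := (abs_le.1 (hDb _ (hbD j)).1).1
      have : H₁ 0 j < 0 := by
        rw [hH₁]
        simp only [ha0, hx1]
        linarith
      rw [hL]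
      simp only [if_pos this]) (fun j _ h => by
      have e1 := (abs_le.1 (hDb _ (hbD j)).1).2
      have : 0 < H₁ m j := by
        rw [hH₁]
        simp only [ham, hx1']
        linarith
      exact absurd (hL0 _ _ h) (by linarith)) (fun i _ h => by
      have e1 := (abs_le.1 (hCb _ (haC i)).2).1
      have : 0 < H₂ i 0 := by
        rw [hH₂]
        simp only [hb0, hy1]
        linarith
      exact absurd (hL2 _ _ h).2 (by linarith)) (fun i _ h => by
      have e1 := (abs_le.1 (hCb _ (haC i)).2).2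
      have : H₂ i n < 0 := by
        rw [hH₂]
        simp only [hbn, hy1']
        linarith
      exact absurd (hL1 _ _ h).2 (by linarith))
  obtain ⟨i, hi, j, hj, hR⟩ := key
  have hab : ∀ u v : ℝ × ℝ, dist u v < δ → |u.1 - v.1| ≤ δ ∧ |u.2 - v.2| ≤ δ := by
    intro u v huv
    rw [Prod.dist_eq, Real.dist_eq, Real.dist_eq] at huv
    exact ⟨((le_max_left _ _).trans huv.le), (le_max_right _ _).trans huv.le⟩
  have hai : ∀ i', i' = i ∨ i' = i + 1 → |(a i').1 - (a i).1| ≤ δ ∧ |(a i').2 - (a i).2| ≤ δ := by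
    rintro i' (rfl | rfl)
    · simp [hδ0.le]
    · have := hab _ _ (ha i hi)
      rwa [abs_sub_comm, abs_sub_comm (a (i + 1)).2]
  have hbj : ∀ j', j' = j ∨ j' = j + 1 → |(b j').1 - (b j).1| ≤ δ ∧ |(b j').2 - (b j).2| ≤ δ := by
    rintro j' (rfl | rfl)
    · simp [hδ0.le]
    · have := hab _ _ (hb j hj)
      rwa [abs_sub_comm, abs_sub_comm (b (j + 1)).2]
  have hclose : ∀ i' j', (i' = i ∨ i' = i + 1) → (j' = j ∨ j' = j + 1) →
      |H₁ i' j' - H₁ i j| ≤ 3 * δ ∧ |H₂ i' j' - H₂ i j| ≤ 3 * δ := by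
    intro i' j' hi' hj'
    obtain ⟨e1, e2⟩ := hai i' hi'
    obtain ⟨e3, e4⟩ := hbj j' hj'
    rw [abs_le] at e1 e2 e3 e4
    rw [hH₁, hH₂]
    simp only
    constructor
    · rw [abs_le]
      constructor <;> nlinarith
    · rw [abs_le]
      constructor <;> nlinarith
  have hex : ∀ c : Fin 3, ∃ i' j', (i' = i ∨ i' = i + 1) ∧ (j' = j ∨ j' = j + 1) ∧ L i' j' = c := by
    intro c
    rcases hR with hR | hR
    · rcases hR c with h | h | h
      · exact ⟨i, j, Or.inl rfl, Or.inl rfl, h.symm⟩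
      · exact ⟨i + 1, j, Or.inr rfl, Or.inl rfl, h.symm⟩
      · exact ⟨i + 1, j + 1, Or.inr rfl, Or.inr rfl, h.symm⟩
    · rcases hR c with h | h | h
      · exact ⟨i, j, Or.inl rfl, Or.inl rfl, h.symm⟩
      · exact ⟨i, j + 1, Or.inl rfl, Or.inr rfl, h.symm⟩
      · exact ⟨i + 1, j + 1, Or.inr rfl, Or.inr rfl, h.symm⟩
  obtain ⟨i0, j0, hi0, hj0, h0⟩ := hex 0
  obtain ⟨i1, j1, hi1, hj1, h1⟩ := hex 1
  obtain ⟨i2, j2, hi2, hj2, h2⟩ := hex 2
  have c0 := (hclose i0 j0 hi0 hj0).1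
  have c1 := (hclose i1 j1 hi1 hj1)
  have c2 := (hclose i2 j2 hi2 hj2).2
  have f0 := hL0 _ _ h0
  have f1 := hL1 _ _ h1
  have f2 := (hL2 _ _ h2).2
  rw [abs_le] at c0 c2
  obtain ⟨c1, c1'⟩ := c1
  rw [abs_le] at c1 c1'
  have g1 : -(3 * δ) ≤ H₁ i j ∧ H₁ i j ≤ 3 * δ := ⟨by linarith, by linarith⟩
  have g2 : -(3 * δ) ≤ H₂ i j ∧ H₂ i j ≤ 3 * δ := ⟨by linarith, by linarith⟩
  have e1 := (hCb _ (haC i)).1
  have e2 := (hDb _ (hbD j)).2
  rw [abs_le] at e1 e2
  have hd := hdist _ (haC i) _ (hbD j)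
  have : dist (a i) (b j) ≤ 4 * δ := by
    rw [Prod.dist_eq, Real.dist_eq, Real.dist_eq]
    have k1 : (a i).1 - (b j).1 = H₁ i j - δ * (a i).1 := by rw [hH₁]; ring
    have k2 : (a i).2 - (b j).2 = H₂ i j + δ * (b j).2 := by rw [hH₂]; ring
    rw [k1, k2]
    refine max_le ?_ ?_ <;> rw [abs_le] <;> constructor <;> nlinarith
  linarith

end Sperner

end Pool.Agent.SierpinskiCarpet
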