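import Pool.Agent.helper33.SCLocal
import Pool.Agent.helper33.SRTop

/-!
# Regular energies: basic facts which do not need positive capacity of points
-/

open MeasureTheory Filter Topology

namespace Pool.Agent.SierpinskiCarpet

variable {K : Set (ℝ × ℝ)} {hK : IsCarpet K} {A : Set (K → ℝ)} {p ρ : ℝ} {E : (K → ℝ) → ℝ}

section Real

/-- Minkowski's inequality. -/
theorem minkowski {ι : Type*} {p : ℝ} (hp : 1 ≤ p) (s : Finset ι) (a b c : ι → ℝ)
    (ha : ∀ i ∈ s, 0 ≤ a i) (hb : ∀ i ∈ s, 0 ≤ b i) (hc : ∀ i ∈ s, 0 ≤ c i)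
    (h : ∀ i ∈ s, a i ^ (1 / p) ≤ b i ^ (1 / p) + c i ^ (1 / p)) :
    (∑ i ∈ s, a i) ^ (1 / p) ≤ (∑ i ∈ s, b i) ^ (1 / p) + (∑ i ∈ s, c i) ^ (1 / p) := by
  have hp0 : 0 < p := by linarith
  have h1 : ∑ i ∈ s, a i ≤ ∑ i ∈ s, |b i ^ (1 / p) + c i ^ (1 / p)| ^ p := by
    refine Finset.sum_le_sum fun i hi => ?_
    have e1 := h i hi
    have e2 : 0 ≤ b i ^ (1 / p) := Real.rpow_nonneg (hb i hi) _
    have e3 : 0 ≤ c i ^ (1 / p) := Real.rpow_nonneg (hc i hi) _
    rw [abs_of_nonneg (by linarith)]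
    calc a i = (a i ^ (1 / p)) ^ p := (rpow_one_div_rpow hp0 (ha i hi)).symm
      _ ≤ _ := Real.rpow_le_rpow (Real.rpow_nonneg (ha i hi) _) e1 hp0.le
  have h2 := Real.Lp_add_le s (fun i => b i ^ (1 / p)) (fun i => c i ^ (1 / p)) hp
  have h3 : ∑ i ∈ s, |b i ^ (1 / p)| ^ p = ∑ i ∈ s, b i := Finset.sum_congr rfl fun i hi => by
    rw [abs_of_nonneg (Real.rpow_nonneg (hb i hi) _), rpow_one_div_rpow hp0 (hb i hi)]
  have h4 : ∑ i ∈ s, |c i ^ (1 / p)| ^ p = ∑ i ∈ s, c i := Finset.sum_congr rfl fun i hi => by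
    rw [abs_of_nonneg (Real.rpow_nonneg (hc i hi) _), rpow_one_div_rpow hp0 (hc i hi)]
  rw [h3, h4] at h2
  refine le_trans ?_ h2
  exact Real.rpow_le_rpow (Finset.sum_nonneg ha) h1 (by positivity)

/-- Expansion of a power. -/
theorem pow_expand {p : ℝ} (hp : 1 ≤ p) {X Y Z M η : ℝ} (hX : 0 ≤ X) (hY : 0 ≤ Y) (hZ : 0 ≤ Z)
    (hYM : Y ≤ M) (hη : 0 ≤ η) (hη1 : η ≤ 1) (hZM : Z ≤ η * M)
    (h : X ^ (1 / p) ≤ Y ^ (1 / p) + Z ^ (1 / p)) :
    X ≤ Y + p * 2 ^ (p - 1) * η ^ (1 / p) * M := by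
  have hp0 : 0 < p := by linarith
  have hM : 0 ≤ M := hY.trans hYM
  set a := Y ^ (1 / p) with ha
  set b := Z ^ (1 / p) with hb
  have ha0 : 0 ≤ a := by positivity
  have hb0 : 0 ≤ b := by positivity
  have haM : a ≤ M ^ (1 / p) := Real.rpow_le_rpow hY hYM (by positivity)
  have hbM : b ≤ η ^ (1 / p) * M ^ (1 / p) := by
    rw [← Real.mul_rpow hη hM]
    exact Real.rpow_le_rpow hZ hZM (by positivity)
  have hη2 : η ^ (1 / p) ≤ 1 := Real.rpow_le_one hη hη1 (by positivity)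
  have hbM' : b ≤ M ^ (1 / p) := hbM.trans (by
    have : 0 ≤ M ^ (1 / p) := by positivity
    nlinarith)
  have h1 : X ≤ (a + b) ^ p := by
    calc X = (X ^ (1 / p)) ^ p := (rpow_one_div_rpow hp0 hX).symm
      _ ≤ _ := Real.rpow_le_rpow (by positivity) h hp0.le
  have h2 : (a + b) ^ p ≤ a ^ p + p * b * (a + b) ^ (p - 1) := by
    rcases eq_or_lt_of_le (add_nonneg ha0 hb0) with h0 | h0
    · have : a = 0 := by linarith
      have hb' : b = 0 := by linarith
      rw [this, hb', add_zero, Real.zero_rpow hp0.ne']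
      simp
    have e1 := one_add_mul_self_le_rpow_one_add (s := -(b / (a + b))) (p := p) (by
      rw [neg_le_neg_iff, div_le_one h0]
      linarith) hp
    have e2 : 1 + -(b / (a + b)) = a / (a + b) := by
      field_simp
      ring
    rw [e2, Real.div_rpow ha0 h0.le] at e1
    have e3 : 0 < (a + b) ^ p := by positivity
    have e4 := mul_le_mul_of_nonneg_left e1 e3.le
    have e5 : (a + b) ^ p * (a ^ p / (a + b) ^ p) = a ^ p := by
      field_simp
    have e6 : (a + b) ^ p = (a + b) ^ (p - 1) * (a + b) := by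
      rw [← Real.rpow_add_one h0.ne', sub_add_cancel]
    have e7 : (a + b) ^ p * (1 + p * -(b / (a + b))) = (a + b) ^ p - p * b * (a + b) ^ (p - 1) := by
      rw [e6]
      field_simp
      ring
    rw [e5, e7] at e4
    linarith
  have h3 : a ^ p = Y := rpow_one_div_rpow hp0 hY
  have h4 : (a + b) ^ (p - 1) ≤ 2 ^ (p - 1) * (M ^ (1 / p)) ^ (p - 1) := by
    rw [← Real.mul_rpow (by norm_num) (by positivity)]
    exact Real.rpow_le_rpow (by positivity) (by linarith) (by linarith)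
  have h5 : M ^ (1 / p) * (M ^ (1 / p)) ^ (p - 1) = M := by
    rcases eq_or_lt_of_le hM with h0 | h0
    · rw [← h0, Real.zero_rpow (by positivity), zero_mul]
    rw [← Real.rpow_mul hM, ← Real.rpow_add h0]
    have : 1 / p + 1 / p * (p - 1) = 1 := by field_simp; ring
    rw [this, Real.rpow_one]
  calc X ≤ (a + b) ^ p := h1
    _ ≤ a ^ p + p * b * (a + b) ^ (p - 1) := h2
    _ ≤ Y + p * (η ^ (1 / p) * M ^ (1 / p)) * (2 ^ (p - 1) * (M ^ (1 / p)) ^ (p - 1)) := by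
      rw [h3]
      gcongr
    _ = Y + p * 2 ^ (p - 1) * η ^ (1 / p) * (M ^ (1 / p) * (M ^ (1 / p)) ^ (p - 1)) := by ring
    _ = _ := by rw [h5]

end Real

section Glue

/-- Gluing over the cells of a fixed level. -/
theorem LatClass.glue_words (h : LatClass hK A) (n : ℕ) {u : K → ℝ}
    (hu : ∀ w ∈ words n, u ∘ cell hK w ∈ A) : u ∈ A := by
  induction n generalizing u with
  | zero => simpa [words, cell_nil] using hu [] (by simp [words])
  | succ n ih =>
    have h1 : ∀ i, u ∘ cellMap hK i ∈ A := fun i => ih fun w hw => by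
      have := hu (i :: w) (mem_words.2 (by simp [mem_words.1 hw]))
      rwa [cell_cons] at this
    exact h.glue u (continuous_of_comp hK fun i => h.cont _ (h1 i)) h1

/-- Small cells do not meet both of two disjoint closed sets. -/
theorem exists_mesh_sep (hK : IsCarpet K) {S₁ S₂ : Set K} (h1 : IsClosed S₁) (h2 : IsClosed S₂)
    (hd : Disjoint S₁ S₂) : ∃ n₀, ∀ n ≥ n₀, ∀ w ∈ words n,
      (∀ z, cell hK w z ∉ S₁) ∨ ∀ z, cell hK w z ∉ S₂ := by
  have := hK.instCompact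
  obtain ⟨f, hf1, hf2, -⟩ := exists_continuous_zero_one_of_isClosed h1 h2 hd
  obtain ⟨n₀, hn₀⟩ := exists_mesh hK f.continuous (ε := 1) one_pos
  refine ⟨n₀, fun n hn w hw => ?_⟩
  by_contra hcon
  push Not at hcon
  obtain ⟨⟨z, hz⟩, z', hz'⟩ := hcon
  have e1 := hn₀ n hn w hw z z'
  rw [hf1 hz, hf2 hz'] at e1
  norm_num at e1

open Classical in
/-- The restriction of `g` to the set `S`. -/
noncomputable def part (S : Set K) (g : K → ℝ) : K → ℝ := fun x => if x ∈ S then g x else 0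

theorem part_of_mem {S : Set K} {g : K → ℝ} {x : K} (h : x ∈ S) : part S g x = g x := if_pos h

theorem part_of_notMem {S : Set K} {g : K → ℝ} {x : K} (h : x ∉ S) : part S g x = 0 := if_neg h

theorem part_cell_left {S₁ S₂ : Set K} {g : K → ℝ} (hs : ∀ x, x ∉ S₁ → x ∉ S₂ → g x = 0)
    {w : List (Fin 8)} (hw : ∀ z, cell hK w z ∉ S₂) : part S₁ g ∘ cell hK w = g ∘ cell hK w := by
  funext z
  by_cases hz : cell hK w z ∈ S₁
  · exact part_of_mem hz
  · rw [Function.comp_apply, part_of_notMem hz, Function.comp_apply, hs _ hz (hw z)]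

theorem part_cell_right {S₁ : Set K} {g : K → ℝ} {w : List (Fin 8)}
    (hw : ∀ z, cell hK w z ∉ S₁) : part S₁ g ∘ cell hK w = fun _ => 0 := by
  funext z
  exact part_of_notMem (hw z)

/-- The restriction to a relatively clopen set. -/
theorem LatClass.part_mem (h : LatClass hK A) {S₁ S₂ : Set K} (h1 : IsClosed S₁)
    (h2 : IsClosed S₂) (hd : Disjoint S₁ S₂) {g : K → ℝ} (hg : g ∈ A)
    (hs : ∀ x, x ∉ S₁ → x ∉ S₂ → g x = 0) : part S₁ g ∈ A := by
  obtain ⟨n, hn⟩ := exists_mesh_sep hK h1 h2 hd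
  refine h.glue_words n fun w hw => ?_
  rcases hn n le_rfl w hw with h3 | h3
  · rw [part_cell_right h3]
    exact h.const_mem 0
  · rw [part_cell_left hs h3]
    exact h.cell_mem hg w

end Glue

/-- Energies on continuous functions with the properties used for the uniqueness theorem. -/
structure Reg (hK : IsCarpet K) (p ρ : ℝ) (A : Set (K → ℝ)) (E : (K → ℝ) → ℝ) : Prop
    extends Pre hK p ρ A E where
  three_le : 3 ^ p ≤ 8 * ρ
  reflX : ∀ u ∈ A, E (u ∘ reflX hK) = E u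
  reflY : ∀ u ∈ A, E (u ∘ reflY hK) = E u
  swap : ∀ u ∈ A, E (u ∘ swapXY hK) = E u
  cut : ∀ u ∈ A, ∀ s : ℝ, E (fun x => min (u x) s) ≤ E u
  closed : ∀ u : ℕ → K → ℝ, (∀ n, u n ∈ A) → ∀ L : ℝ, (∀ n, E (u n) ≤ L) → ∀ v : K → ℝ,
    (∀ ε > 0, ∃ N, ∀ n ≥ N, ∀ x, |u n x - v x| ≤ ε) →
    v ∈ A ∧ ∃ y : ℕ → K → ℝ, (∀ n, y n ∈ A ∧ y n ∈ convexHull ℝ (u '' Set.Ici n)) ∧
      Tendsto (fun n => E (y n - v)) atTop (𝓝 0)
  crossing : ∃ u ∈ A, IsCrossing u
  cross_pos : ∃ c : ℝ, 0 < c ∧ ∀ u ∈ A, IsCrossing u → c ≤ E u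

namespace Pre

variable (h : Pre hK p ρ A E)

include h

theorem le_of_words {f g : K → ℝ} (hf : f ∈ A) (hg : g ∈ A) (n : ℕ)
    (hle : ∀ w ∈ words n, E (f ∘ cell hK w) ≤ E (g ∘ cell hK w)) : E f ≤ E g := by
  have := h.rho_pos
  rw [← h.sum_words n f hf, ← h.sum_words n g hg]
  gcongr with w hw
  exact hle w hw

theorem sub_rpow_le {u v : K → ℝ} (hu : u ∈ A) (hv : v ∈ A) :
    E (u - v) ^ (1 / p) ≤ E u ^ (1 / p) + E v ^ (1 / p) := by
  have h1 := h.subadd u hu _ (h.lat.smul_mem (-1) v hv)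
  rw [h.smul v hv, abs_neg, abs_one, Real.one_rpow, one_mul] at h1
  have e : u + (-1 : ℝ) • v = u - v := by
    funext x
    simp [sub_eq_add_neg]
  rwa [e] at h1

theorem neg_mem {u : K → ℝ} (hu : u ∈ A) : -u ∈ A := by
  have := h.lat.smul_mem (-1) u hu
  rwa [neg_one_smul] at this

theorem words_mem {w : List (Fin 8)} {f : K → ℝ} (hf : f ∈ A) : 0 ≤ E (f ∘ cell hK w) :=
  h.nonneg _ (h.lat.cell_mem hf w)

end Pre

/-- The level `s` is crossed by `u` on the cell `w`. -/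
def Cross (hK : IsCarpet K) (u : K → ℝ) (s : ℝ) (w : List (Fin 8)) : Prop :=
  (∃ z, u (cell hK w z) ≤ s) ∧ ∃ z, s ≤ u (cell hK w z)

theorem not_cross {u : K → ℝ} {s : ℝ} {w : List (Fin 8)} (h : ¬Cross hK u s w) :
    (∀ z, s < u (cell hK w z)) ∨ ∀ z, u (cell hK w z) < s := by
  unfold Cross at h
  by_cases h1 : ∃ z, u (cell hK w z) ≤ s
  · right
    intro z
    by_contra hc
    exact h ⟨h1, z, not_lt.1 hc⟩
  · left
    push Not at h1
    exact h1

namespace Reg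

variable (h : Reg hK p ρ A E)

include h

theorem cut' {u : K → ℝ} (hu : u ∈ A) (s : ℝ) : E (fun x => max (u x) s) ≤ E u := by
  have h1 := h.cut _ (h.neg_mem hu) (-s)
  have e : (fun x => min ((-u) x) (-s)) = -fun x => max (u x) s := by
    funext x
    simp only [Pi.neg_apply, min_neg_neg]
  rwa [e, h.energy_neg (h.lat.max_mem hu (h.lat.const_mem s)), h.energy_neg hu] at h1

theorem clamp_le {u : K → ℝ} (hu : u ∈ A) (s t : ℝ) :
    E (fun x => max (min (u x) t) s) ≤ E u :=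
  (h.cut' (h.lat.min_mem hu (h.lat.const_mem t)) s).trans (h.cut u hu t)

theorem clamp_mem {u : K → ℝ} (hu : u ∈ A) (s t : ℝ) : (fun x => max (min (u x) t) s) ∈ A :=
  h.lat.max_mem (h.lat.min_mem hu (h.lat.const_mem t)) (h.lat.const_mem s)

/-- Sublevel sets of the energy are convex. -/
theorem energy_le_of_mem_convexHull {S : Set (K → ℝ)} {L : ℝ} (hS : ∀ u ∈ S, u ∈ A ∧ E u ≤ L)
    {y : K → ℝ} (hy : y ∈ convexHull ℝ S) : y ∈ A ∧ E y ≤ L := by
  have hp := h.p_pos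
  have hconv : Convex ℝ {u : K → ℝ | u ∈ A ∧ E u ≤ L} := by
    intro a ha b hb s t hs ht hst
    have h1 := h.lat.smul_mem s a ha.1
    have h2 := h.lat.smul_mem t b hb.1
    have h3 := h.lat.add_mem _ h1 _ h2
    refine ⟨h3, ?_⟩
    have hEa := h.nonneg a ha.1
    have hEb := h.nonneg b hb.1
    have hL : 0 ≤ L := hEa.trans ha.2
    have e1 : E (s • a) ^ (1 / p) ≤ s * L ^ (1 / p) := by
      rw [h.smul a ha.1, abs_of_nonneg hs, Real.mul_rpow (by positivity) hEa,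
        rpow_rpow_one_div hp hs]
      gcongr
      exact ha.2
    have e2 : E (t • b) ^ (1 / p) ≤ t * L ^ (1 / p) := by
      rw [h.smul b hb.1, abs_of_nonneg ht, Real.mul_rpow (by positivity) hEb,
        rpow_rpow_one_div hp ht]
      gcongr
      exact hb.2
    have e3 := h.subadd _ h1 _ h2
    have e4 : E (s • a + t • b) ^ (1 / p) ≤ L ^ (1 / p) := by
      calc _ ≤ _ := e3
        _ ≤ s * L ^ (1 / p) + t * L ^ (1 / p) := add_le_add e1 e2
        _ = L ^ (1 / p) := by rw [← add_mul, hst, one_mul]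
    have hnn := h.nonneg _ h3
    calc E (s • a + t • b) = (E (s • a + t • b) ^ (1 / p)) ^ p := (rpow_one_div_rpow hp hnn).symm
      _ ≤ (L ^ (1 / p)) ^ p := Real.rpow_le_rpow (by positivity) e4 hp.le
      _ = L := rpow_one_div_rpow hp hL
  exact convexHull_min hS hconv hy

/-- Lower semicontinuity of the energy under uniform convergence. -/
theorem lsc {u : ℕ → K → ℝ} (hu : ∀ n, u n ∈ A) {L : ℝ} (hL : ∀ n, E (u n) ≤ L) {v : K → ℝ}
    (hv : ∀ ε > 0, ∃ N, ∀ n ≥ N, ∀ x, |u n x - v x| ≤ ε) : v ∈ A ∧ E v ≤ L := by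
  have hp := h.p_pos
  obtain ⟨hvA, y, hy, hlim⟩ := h.closed u hu L hL v hv
  refine ⟨hvA, ?_⟩
  have hEv := h.nonneg v hvA
  have hL0 : 0 ≤ L := (h.nonneg _ (hu 0)).trans (hL 0)
  have hyL : ∀ n, E (y n) ≤ L := fun n => (h.energy_le_of_mem_convexHull (S := u '' Set.Ici n)
    (by rintro _ ⟨k, -, rfl⟩; exact ⟨hu k, hL k⟩) (hy n).2).2
  have key : ∀ n, E v ^ (1 / p) ≤ L ^ (1 / p) + E (y n - v) ^ (1 / p) := by
    intro n
    have e1 := h.subadd _ (hy n).1 _ (h.lat.sub_mem hvA (hy n).1)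
    have e2 : y n + (v - y n) = v := by abel
    have e3 : E (v - y n) = E (y n - v) := by
      rw [← h.energy_neg (h.lat.sub_mem (hy n).1 hvA), neg_sub]
    rw [e2, e3] at e1
    have e4 : E (y n) ^ (1 / p) ≤ L ^ (1 / p) :=
      Real.rpow_le_rpow (h.nonneg _ (hy n).1) (hyL n) (by positivity)
    linarith
  have hlim2 : Tendsto (fun n => L ^ (1 / p) + E (y n - v) ^ (1 / p)) atTop
      (𝓝 (L ^ (1 / p) + 0)) := by
    refine tendsto_const_nhds.add ?_
    have := hlim.rpow_const (p := 1 / p) (Or.inr (by positivity))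
    rwa [Real.zero_rpow (by positivity)] at this
  have e5 := ge_of_tendsto' hlim2 key
  rw [add_zero] at e5
  calc E v = (E v ^ (1 / p)) ^ p := (rpow_one_div_rpow hp hEv).symm
    _ ≤ (L ^ (1 / p)) ^ p := Real.rpow_le_rpow (by positivity) e5 hp.le
    _ = L := rpow_one_div_rpow hp hL0

/-- Lower semicontinuity, with epsilons. -/
theorem lsc_eps (v : K → ℝ) {ε : ℝ} (hε : 0 < ε) :
    ∃ δ > 0, ∀ g ∈ A, (∀ x, |g x - v x| ≤ δ) → E v ≤ E g + ε := by
  by_contra hcon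
  push Not at hcon
  choose g hgA hg hE using fun n : ℕ => hcon (1 / (n + 1)) (by positivity)
  have := (h.lsc hgA (L := E v - ε) (fun n => by linarith [hE n]) (v := v) (fun ε hε => by
    obtain ⟨N, hN⟩ := exists_nat_one_div_lt hε
    refine ⟨N, fun n hn x => (hg n x).trans ?_⟩
    refine le_trans ?_ hN.le
    have : (N : ℝ) ≤ n := by exact_mod_cast hn
    gcongr)).2
  linarith

/-- Near its zero set a function agrees with a function of small energy. -/
theorem exists_local {u : K → ℝ} (hu : u ∈ A) {κ : ℝ} (hκ : 0 < κ) :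
    ∃ ε > 0, ∃ y ∈ A, E y ≤ κ ∧ ∀ x, |u x| < ε → y x = u x := by
  have hpos : ∀ n : ℕ, (0 : ℝ) < 1 / (n + 1) := fun n => by positivity
  set v : ℕ → K → ℝ := fun n x => clamp (1 / (n + 1)) (u x) with hv
  have hvE : ∀ n, v n ∈ A ∧ E (v n) ≤ E u := fun n =>
    ⟨h.clamp_mem hu _ _, h.clamp_le hu _ _⟩
  have hlim : Tendsto (fun n : ℕ => (1 : ℝ) / (n + 1)) atTop (𝓝 0) :=
    tendsto_one_div_add_atTop_nhds_zero_nat
  obtain ⟨-, y, hy, hy0⟩ := h.closed v (fun n => (hvE n).1) _ (fun n => (hvE n).2) 0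
    (fun ε hε => by
      obtain ⟨N, hN⟩ := eventually_atTop.1 (hlim.eventually (gt_mem_nhds hε))
      refine ⟨N, fun n hn x => ?_⟩
      simp only [hv, Pi.zero_apply, sub_zero]
      exact (abs_clamp_le (hpos n).le _).trans (hN n hn).le)
  obtain ⟨n, hn⟩ := (hy0.eventually (gt_mem_nhds hκ)).exists
  rw [sub_zero] at hn
  have hconv : Convex ℝ {y : K → ℝ | ∃ ε > 0, ∀ x, |u x| < ε → y x = u x} := by
    rintro a ⟨ε₁, h1, ha⟩ b ⟨ε₂, h2, hb⟩ s t _ _ hst
    refine ⟨min ε₁ ε₂, lt_min h1 h2, fun x hx => ?_⟩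
    simp only [Pi.add_apply, Pi.smul_apply, smul_eq_mul]
    rw [ha x (hx.trans_le (min_le_left _ _)), hb x (hx.trans_le (min_le_right _ _)), ← add_mul,
      hst, one_mul]
  have hmem := convexHull_min (s := v '' Set.Ici n) (by
    rintro _ ⟨k, -, rfl⟩
    exact ⟨1 / (k + 1), hpos k, fun x hx => clamp_of_abs_le hx.le⟩) hconv (hy n).2
  obtain ⟨ε, hε, hyε⟩ := hmem
  exact ⟨ε, hε, y n, (hy n).1, hn.le, hyε⟩

/-- The energy of `u` on the cells where `u` crosses the level `s` tends to zero. -/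
theorem sum_cross {u : K → ℝ} (hu : u ∈ A) (s : ℝ) {κ : ℝ} (hκ : 0 < κ) :
    ∃ k₀, ∀ k ≥ k₀, ∀ B ⊆ words k, (∀ x ∈ B, Cross hK u s x) →
      ρ ^ k * ∑ x ∈ B, E (u ∘ cell hK x) ≤ κ := by
  have hρ := h.rho_pos
  obtain ⟨ε, hε, y, hyA, hyE, hy⟩ := h.exists_local (h.lat.add_const_mem hu (-s)) hκ
  obtain ⟨k₀, hk₀⟩ := exists_mesh hK (h.lat.cont u hu) hε
  refine ⟨k₀, fun k hk B hB hcr => ?_⟩
  have key : ∀ x ∈ B, E (u ∘ cell hK x) = E (y ∘ cell hK x) := by
    intro x hx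
    obtain ⟨⟨z, hz⟩, ⟨z', hz'⟩⟩ := hcr x hx
    have heq : y ∘ cell hK x = fun t => (u ∘ cell hK x) t + (-s) := by
      funext t
      refine hy _ ?_
      have h1 := abs_lt.1 (hk₀ k hk x (hB hx) z t)
      have h2 := abs_lt.1 (hk₀ k hk x (hB hx) z' t)
      rw [abs_lt]
      constructor <;> linarith
    rw [heq, h.add_const _ (h.lat.cell_mem hu x)]
  calc ρ ^ k * ∑ x ∈ B, E (u ∘ cell hK x) = ρ ^ k * ∑ x ∈ B, E (y ∘ cell hK x) := by
        rw [Finset.sum_congr rfl key]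
    _ ≤ ρ ^ k * ∑ x ∈ words k, E (y ∘ cell hK x) := by
        gcongr
        intro i _ _
        exact h.words_mem hyA
    _ = E y := h.sum_words k _ hyA
    _ ≤ κ := hyE

end Reg

end Pool.Agent.SierpinskiCarpet
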