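import Pool.Agent.helper33.SRComp

/-!
# The upper bound `2 ρ 3 ^ (1 - p) ≤ 1`
-/

open MeasureTheory Filter Topology

namespace Pool.Agent.SierpinskiCarpet

variable {K : Set (ℝ × ℝ)} {hK : IsCarpet K} {A : Set (K → ℝ)} {p ρ : ℝ} {E : (K → ℝ) → ℝ}

/-- The cells of the bottom row and of the top row. -/
def rl (b : Bool) (c : Fin 3) : Fin 8 := if b then ![6, 5, 4] c else ![0, 1, 2] c

theorem qz_rl (b : Bool) (c : Fin 3) :
    qz (rl b c) = (((c : ℕ) : ℤ) - 1, if b then 1 else -1) := by
  revert b c
  decide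

theorem rl_injective (b : Bool) : Function.Injective (rl b) := by
  intro c c' h
  cases b <;> fin_cases c <;> fin_cases c' <;> first | rfl | (exfalso; simp [rl] at h)

/-- The leftmost cell of a row. -/
def firstw (s : List Bool) : List (Fin 8) := s.map fun b => rl b 0

/-- The rightmost cell of a row. -/
def lastw (s : List Bool) : List (Fin 8) := s.map fun b => rl b 2

theorem row_ends (hK : IsCarpet K) (s : List Bool) (z z' : K) (hz : z.1.1 = 1) (hz' : z'.1.1 = -1)
    (hzz : z.1.2 = z'.1.2) : (cell hK (lastw s) z).1.1 = 1 ∧ (cell hK (firstw s) z').1.1 = -1 ∧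
      (cell hK (lastw s) z).1.2 = (cell hK (firstw s) z').1.2 := by
  induction s with
  | nil => exact ⟨hz, hz', hzz⟩
  | cons b s ih =>
    obtain ⟨h1, h2, h3⟩ := ih
    have c1 : ∀ (i : Fin 8) (x : K) (d : Bool), co d (cellMap hK i x).1 =
        (co d x.1 + 2 * cz d (qz i)) / 3 := fun i x d => contraction_co i d x
    have a1 := c1 (rl b 2) (cell hK (lastw s) z) true
    have a2 := c1 (rl b 2) (cell hK (lastw s) z) false
    have a3 := c1 (rl b 0) (cell hK (firstw s) z') true
    have a4 := c1 (rl b 0) (cell hK (firstw s) z') false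
    rw [qz_rl] at a1 a2 a3 a4
    simp only [co_true, co_false, cz_true, cz_false] at a1 a2 a3 a4
    refine ⟨?_, ?_, ?_⟩
    · change (cellMap hK (rl b 2) (cell hK (lastw s) z)).1.1 = 1
      rw [a1, h1]
      norm_num
    · change (cellMap hK (rl b 0) (cell hK (firstw s) z')).1.1 = -1
      rw [a3, h2]
      norm_num
    · change (cellMap hK (rl b 2) (cell hK (lastw s) z)).1.2 =
        (cellMap hK (rl b 0) (cell hK (firstw s) z')).1.2
      rw [a2, a4, h3]

/-- The sum of the oscillations along a row. -/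
noncomputable def rowS (hK : IsCarpet K) (A : Set (K → ℝ)) (E : (K → ℝ) → ℝ) (p : ℝ) :
    List Bool → (K → ℝ) → ℝ
  | [], f => kap A E p f
  | b :: s, f => ∑ c : Fin 3, rowS hK A E p s (f ∘ cellMap hK (rl b c))

/-- The energy on a row. -/
noncomputable def rowE (hK : IsCarpet K) (E : (K → ℝ) → ℝ) : List Bool → (K → ℝ) → ℝ
  | [], f => E f
  | b :: s, f => ∑ c : Fin 3, rowE hK E s (f ∘ cellMap hK (rl b c))

/-- All words of length `n` in two letters. -/
def bws : ℕ → List (List Bool)
  | 0 => [[]]
  | n + 1 => (bws n).map (List.cons true) ++ (bws n).map (List.cons false)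

theorem bws_length (n : ℕ) : (bws n).length = 2 ^ n := by
  induction n with
  | zero => rfl
  | succ n ih =>
    rw [bws, List.length_append, List.length_map, List.length_map, ih, pow_succ]
    ring

theorem length_of_mem_bws {n : ℕ} : ∀ s ∈ bws n, s.length = n := by
  induction n with
  | zero =>
    intro s hs
    rw [bws, List.mem_singleton] at hs
    rw [hs]
    rfl
  | succ n ih =>
    intro s hs
    rw [bws, List.mem_append, List.mem_map, List.mem_map] at hs
    rcases hs with ⟨t, ht, rfl⟩ | ⟨t, ht, rfl⟩ <;> rw [List.length_cons, ih t ht]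

namespace Reg

variable (h : Reg hK p ρ A E)

include h

theorem adj_h {f g : K → ℝ} (hf : f ∈ A) (hg : g ∈ A)
    (hfg : ∀ z z' : K, z.1.1 = 1 → z'.1.1 = -1 → z.1.2 = z'.1.2 → f z = g z') :
    |val f - val g| ≤ cadj p ρ * (kap A E p f + kap A E p g) := by
  have hEf := h.nonneg f hf
  have hEg := h.nonneg g hg
  have h1 := h.adj_right' hf (h.lat.reflX_mem g hg) fun x hx =>
    hfg x (SierpinskiCarpet.reflX hK x) hx (by simp [SierpinskiCarpet.reflX, hx]) rfl
  rw [h.reflX g hg, val_reflX] at h1
  have h2 := h.kpe_add_le hEf hEg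
  have h3 := h.cadj_pos
  have h4 := h.kpe_nonneg (e := E f + E g) (by linarith)
  rw [kap_eq, kap_eq]
  nlinarith

theorem rowE_nonneg (s : List Bool) : ∀ f ∈ A, 0 ≤ rowE hK E s f := by
  induction s with
  | nil => exact h.nonneg
  | cons b s ih =>
    intro f hf
    exact Finset.sum_nonneg fun c _ => ih _ (h.lat.comp_mem f hf _)

/-- The values along a row. -/
theorem row_chain (s : List Bool) : ∀ f ∈ A,
    cadj p ρ * kap A E p (f ∘ cell hK (firstw s)) + |vv hK f (lastw s) - vv hK f (firstw s)| +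
      cadj p ρ * kap A E p (f ∘ cell hK (lastw s)) ≤ 2 * cadj p ρ * rowS hK A E p s f := by
  induction s with
  | nil =>
    intro f hf
    change cadj p ρ * kap A E p f + |val f - val f| + cadj p ρ * kap A E p f ≤
      2 * cadj p ρ * kap A E p f
    rw [sub_self, abs_zero]
    linarith
  | cons b s ih =>
    intro f hf
    have m : ∀ c, f ∘ cellMap hK (rl b c) ∈ A := fun c => h.lat.comp_mem f hf _
    have i0 := ih _ (m 0)
    have i1 := ih _ (m 1)
    have i2 := ih _ (m 2)
    have e0 : rowS hK A E p (b :: s) f = rowS hK A E p s (f ∘ cellMap hK (rl b 0)) +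
        rowS hK A E p s (f ∘ cellMap hK (rl b 1)) + rowS hK A E p s (f ∘ cellMap hK (rl b 2)) := by
      rw [rowS, Fin.sum_univ_three]
    have link : ∀ c c' : Fin 3, (c' : ℕ) = c + 1 →
        |vv hK (f ∘ cellMap hK (rl b c)) (lastw s) - vv hK (f ∘ cellMap hK (rl b c')) (firstw s)| ≤
        cadj p ρ * (kap A E p ((f ∘ cellMap hK (rl b c)) ∘ cell hK (lastw s)) +
          kap A E p ((f ∘ cellMap hK (rl b c')) ∘ cell hK (firstw s))) := by
      intro c c' hcc
      refine h.adj_h (h.lat.cell_mem (m c) _) (h.lat.cell_mem (m c') _) ?_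
      intro z z' hz hz' hzz
      obtain ⟨r1, r2, r3⟩ := row_ends hK s z z' hz hz' hzz
      simp only [Function.comp_apply]
      congr 1
      refine ext_co fun d => ?_
      change co d (contraction _ _) = co d (contraction _ _)
      rw [contraction_co, contraction_co, qz_rl, qz_rl, hcc]
      cases d
      · simp only [co_false, cz_false]
        rw [r3]
      · simp only [co_true, cz_true]
        rw [r1, r2]
        push_cast
        ring
    have l01 := link 0 1 rfl
    have l12 := link 1 2 rfl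
    have f1 : f ∘ cell hK (firstw (b :: s)) = (f ∘ cellMap hK (rl b 0)) ∘ cell hK (firstw s) := rfl
    have f2 : f ∘ cell hK (lastw (b :: s)) = (f ∘ cellMap hK (rl b 2)) ∘ cell hK (lastw s) := rfl
    have f3 : vv hK f (lastw (b :: s)) = vv hK (f ∘ cellMap hK (rl b 2)) (lastw s) := rfl
    have f4 : vv hK f (firstw (b :: s)) = vv hK (f ∘ cellMap hK (rl b 0)) (firstw s) := rfl
    rw [e0, f1, f2, f3, f4]
    set a0 := vv hK (f ∘ cellMap hK (rl b 0)) (firstw s)
    set a0' := vv hK (f ∘ cellMap hK (rl b 0)) (lastw s)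
    set a1 := vv hK (f ∘ cellMap hK (rl b 1)) (firstw s)
    set a1' := vv hK (f ∘ cellMap hK (rl b 1)) (lastw s)
    set a2 := vv hK (f ∘ cellMap hK (rl b 2)) (firstw s)
    set a2' := vv hK (f ∘ cellMap hK (rl b 2)) (lastw s)
    have tri : |a2' - a0| ≤ |a0' - a0| + |a0' - a1| + |a1' - a1| + |a1' - a2| + |a2' - a2| := by
      have t : a2' - a0 = (a0' - a0) - (a0' - a1) + (a1' - a1) - (a1' - a2) + (a2' - a2) := by ring
      rw [t]
      refine (abs_add_le _ _).trans ?_
      gcongr
      refine (abs_sub _ _).trans ?_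
      gcongr
      refine (abs_add_le _ _).trans ?_
      gcongr
      exact abs_sub _ _
    linarith

/-- The Hölder inequality on a row. -/
theorem rowS_rpow_le (s : List Bool) : ∀ f ∈ A, 0 ≤ rowS hK A E p s f ∧
    rowS hK A E p s f ^ p * crc A E ≤ ((3 : ℝ) ^ (p - 1)) ^ s.length * rowE hK E s f := by
  have hp := h.one_lt
  have hcc := h.crc_pos
  induction s with
  | nil =>
    intro f hf
    refine ⟨h.kap_nonneg hf, ?_⟩
    change kap A E p f ^ p * crc A E ≤ _ ^ 0 * E f
    rw [h.kap_rpow hf, pow_zero, one_mul]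
  | cons b s ih =>
    intro f hf
    have m : ∀ c, f ∘ cellMap hK (rl b c) ∈ A := fun c => h.lat.comp_mem f hf _
    refine ⟨Finset.sum_nonneg fun c _ => (ih _ (m c)).1, ?_⟩
    have h1 := Real.rpow_sum_le_const_mul_sum_rpow (Finset.univ : Finset (Fin 3))
      (fun c => rowS hK A E p s (f ∘ cellMap hK (rl b c))) hp.le
    have h2 : ∀ c, |rowS hK A E p s (f ∘ cellMap hK (rl b c))| =
        rowS hK A E p s (f ∘ cellMap hK (rl b c)) := fun c => abs_of_nonneg (ih _ (m c)).1
    simp only [h2] at h1
    rw [Finset.card_univ, Fintype.card_fin] at h1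
    rw [rowS, rowE, List.length_cons, pow_succ]
    calc (∑ c, rowS hK A E p s (f ∘ cellMap hK (rl b c))) ^ p * crc A E
        ≤ (((3 : ℕ) : ℝ) ^ (p - 1) * ∑ c, rowS hK A E p s (f ∘ cellMap hK (rl b c)) ^ p) *
          crc A E := by gcongr
      _ = 3 ^ (p - 1) * ∑ c, rowS hK A E p s (f ∘ cellMap hK (rl b c)) ^ p * crc A E := by
          rw [← Finset.sum_mul]
          push_cast
          ring
      _ ≤ 3 ^ (p - 1) * ∑ c, ((3 : ℝ) ^ (p - 1)) ^ s.length *
          rowE hK E s (f ∘ cellMap hK (rl b c)) := by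
          refine mul_le_mul_of_nonneg_left ?_ (by positivity)
          exact Finset.sum_le_sum fun c _ => (ih _ (m c)).2
      _ = _ := by
          rw [← Finset.mul_sum]
          ring

/-- The energy on all full rows. -/
theorem sum_rowE_le (n : ℕ) : ∀ f ∈ A,
    ρ ^ n * ((bws n).map fun s => rowE hK E s f).sum ≤ E f := by
  have hρ := h.rho_pos
  induction n with
  | zero =>
    intro f hf
    simp [bws, rowE]
  | succ n ih =>
    intro f hf
    have m : ∀ i, f ∘ cellMap hK i ∈ A := fun i => h.lat.comp_mem f hf i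
    have key : ∀ b, (((bws n).map (List.cons b)).map fun s => rowE hK E s f).sum =
        ∑ c : Fin 3, ((bws n).map fun s => rowE hK E s (f ∘ cellMap hK (rl b c))).sum := by
      intro b
      rw [List.map_map]
      generalize bws n = L
      induction L with
      | nil => simp
      | cons s L ihL =>
        rw [List.map_cons, List.sum_cons, ihL]
        simp only [List.map_cons, List.sum_cons]
        rw [Finset.sum_add_distrib]
        rfl
    rw [bws, List.map_append, List.sum_append, key, key]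
    have h1 : ∀ b, ρ ^ n * ∑ c : Fin 3,
        ((bws n).map fun s => rowE hK E s (f ∘ cellMap hK (rl b c))).sum ≤
        ∑ c : Fin 3, E (f ∘ cellMap hK (rl b c)) := by
      intro b
      rw [Finset.mul_sum]
      exact Finset.sum_le_sum fun c _ => ih _ (m _)
    have h2 : ∑ c : Fin 3, E (f ∘ cellMap hK (rl true c)) +
        ∑ c : Fin 3, E (f ∘ cellMap hK (rl false c)) ≤ ∑ i, E (f ∘ cellMap hK i) := by
      rw [Fin.sum_univ_three, Fin.sum_univ_three, Fin.sum_univ_eight]
      have n3 := h.nonneg _ (m 3)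
      have n7 := h.nonneg _ (m 7)
      simp only [rl, if_true, Bool.false_eq_true, if_false, Matrix.cons_val]
      linarith
    calc ρ ^ (n + 1) * (∑ c : Fin 3,
          ((bws n).map fun s => rowE hK E s (f ∘ cellMap hK (rl true c))).sum + ∑ c : Fin 3,
          ((bws n).map fun s => rowE hK E s (f ∘ cellMap hK (rl false c))).sum)
        = ρ * (ρ ^ n * ∑ c : Fin 3,
          ((bws n).map fun s => rowE hK E s (f ∘ cellMap hK (rl true c))).sum + ρ ^ n * ∑ c : Fin 3,
          ((bws n).map fun s => rowE hK E s (f ∘ cellMap hK (rl false c))).sum) := by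
          rw [pow_succ]
          ring
      _ ≤ ρ * ∑ i, E (f ∘ cellMap hK i) := by
          gcongr
          exact (add_le_add (h1 true) (h1 false)).trans h2
      _ = E f := h.scaling f hf

/-- The scaling factor is bounded from above. -/
theorem two_rho_le : 2 * ρ * 3 ^ (1 - p) ≤ 1 := by
  have hp := h.p_pos
  have hρ := h.rho_pos
  have hcc := h.crc_pos
  have hc := h.cadj_pos
  obtain ⟨u, hu, hcr⟩ := h.crossing
  have hEu := h.nonneg u hu
  have hval0 : ∀ c : ℝ, val (fun _ : K => c) = c := fun c =>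
    le_antisymm (val_le_of_forall hK continuous_const fun _ => le_rfl)
      (le_val_of_forall hK continuous_const fun _ => le_rfl)
  have hkc : ∀ c : ℝ, kap A E p (fun _ : K => c) = 0 := fun c => by
    unfold kap
    rw [h.energy_const, zero_div, Real.zero_rpow (by positivity)]
  -- every row carries energy
  have hrow : ∀ s : List Bool, 1 ≤ 2 * cadj p ρ * rowS hK A E p s u := by
    intro s
    have h1 := h.row_chain s u hu
    have h2 : |val (fun _ : K => (0 : ℝ)) - val (u ∘ cell hK (firstw s))| ≤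
        cadj p ρ * (kap A E p (fun _ : K => (0 : ℝ)) + kap A E p (u ∘ cell hK (firstw s))) := by
      refine h.adj_h (h.lat.const_mem 0) (h.lat.cell_mem hu _) ?_
      intro z z' hz hz' hzz
      exact (hcr.left _ (row_ends hK s z z' hz hz' hzz).2.1).symm
    have h3 : |val (u ∘ cell hK (lastw s)) - val (fun _ : K => (1 : ℝ))| ≤
        cadj p ρ * (kap A E p (u ∘ cell hK (lastw s)) + kap A E p (fun _ : K => (1 : ℝ))) := by
      refine h.adj_h (h.lat.cell_mem hu _) (h.lat.const_mem 1) ?_
      intro z z' hz hz' hzz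
      exact hcr.right _ (row_ends hK s z z' hz hz' hzz).1
    rw [hval0, hkc] at h2 h3
    have h2' := abs_le.1 h2
    have h3' := abs_le.1 h3
    have h4 := abs_le.1 (le_refl |vv hK u (lastw s) - vv hK u (firstw s)|)
    have e1 : vv hK u (lastw s) = val (u ∘ cell hK (lastw s)) := rfl
    have e2 : vv hK u (firstw s) = val (u ∘ cell hK (firstw s)) := rfl
    rw [e1, e2] at h1 h4
    linarith
  set θ : ℝ := 2 * ρ * 3 ^ (1 - p) with hθ
  have hθ0 : 0 < θ := by positivity
  have hpow : ∀ n : ℕ, θ ^ n * crc A E ≤ (2 * cadj p ρ) ^ p * E u := by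
    intro n
    have h1 : ∀ s ∈ bws n, crc A E ≤
        (2 * cadj p ρ) ^ p * (((3 : ℝ) ^ (p - 1)) ^ n * rowE hK E s u) := by
      intro s hs
      obtain ⟨h2, h3⟩ := h.rowS_rpow_le s u hu
      rw [length_of_mem_bws s hs] at h3
      have h4 : 1 ≤ (2 * cadj p ρ * rowS hK A E p s u) ^ p :=
        Real.one_le_rpow (hrow s) hp.le
      rw [Real.mul_rpow (by positivity) h2] at h4
      calc crc A E ≤ ((2 * cadj p ρ) ^ p * rowS hK A E p s u ^ p) * crc A E := by nlinarith
        _ = (2 * cadj p ρ) ^ p * (rowS hK A E p s u ^ p * crc A E) := by ring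
        _ ≤ _ := by gcongr
    have h5 : (2 : ℝ) ^ n * crc A E ≤ (2 * cadj p ρ) ^ p * (((3 : ℝ) ^ (p - 1)) ^ n *
        ((bws n).map fun s => rowE hK E s u).sum) := by
      have h6 : ∀ L : List (List Bool), (∀ s ∈ L, crc A E ≤
          (2 * cadj p ρ) ^ p * (((3 : ℝ) ^ (p - 1)) ^ n * rowE hK E s u)) →
          (L.length : ℝ) * crc A E ≤ (2 * cadj p ρ) ^ p * (((3 : ℝ) ^ (p - 1)) ^ n *
            (L.map fun s => rowE hK E s u).sum) := by
        intro L
        induction L with
        | nil => intro _; simp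
        | cons s L ih =>
          intro hL
          have a1 := ih fun t ht => hL t (List.mem_cons_of_mem _ ht)
          have a2 := hL s List.mem_cons_self
          rw [List.length_cons, List.map_cons, List.sum_cons]
          push_cast
          rw [mul_add, mul_add, add_mul]
          linarith
      have h7 := h6 _ h1
      rw [bws_length] at h7
      exact_mod_cast h7
    have h8 := h.sum_rowE_le n u hu
    have e1 : θ ^ n = 2 ^ n * ρ ^ n * ((3 : ℝ) ^ (1 - p)) ^ n := by
      rw [hθ, mul_pow, mul_pow]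
    have e2 : ((3 : ℝ) ^ (1 - p)) ^ n * ((3 : ℝ) ^ (p - 1)) ^ n = 1 := by
      rw [← mul_pow, ← Real.rpow_add (by norm_num)]
      simp
    calc θ ^ n * crc A E = ρ ^ n * ((3 : ℝ) ^ (1 - p)) ^ n * (2 ^ n * crc A E) := by
          rw [e1]; ring
      _ ≤ ρ ^ n * ((3 : ℝ) ^ (1 - p)) ^ n * ((2 * cadj p ρ) ^ p * (((3 : ℝ) ^ (p - 1)) ^ n *
          ((bws n).map fun s => rowE hK E s u).sum)) := by gcongr
      _ = (((3 : ℝ) ^ (1 - p)) ^ n * ((3 : ℝ) ^ (p - 1)) ^ n) * ((2 * cadj p ρ) ^ p *
          (ρ ^ n * ((bws n).map fun s => rowE hK E s u).sum)) := by ring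
      _ ≤ 1 * ((2 * cadj p ρ) ^ p * E u) := by
          rw [e2]
          gcongr
      _ = _ := one_mul _
  by_contra hlt
  push Not at hlt
  have hlim := tendsto_pow_atTop_atTop_of_one_lt hlt
  obtain ⟨n, hn⟩ := (hlim.eventually (eventually_gt_atTop
    ((2 * cadj p ρ) ^ p * E u / crc A E))).exists
  rw [div_lt_iff₀ hcc] at hn
  linarith [hpow n]

end Reg

end Pool.Agent.SierpinskiCarpet
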