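import Pool.Agent.helper33.SRRow

/-!
# The energy near the sides vanishes
-/

open MeasureTheory Filter Topology

namespace Pool.Agent.SierpinskiCarpet

variable {K : Set (ℝ × ℝ)} {hK : IsCarpet K} {A : Set (K → ℝ)} {p ρ κ : ℝ}
  {E Q : (K → ℝ) → ℝ}

/-- The integer sign. -/
def si (a : Bool) : ℤ := if a then 1 else -1

/-- The cells of level one touching a side. -/
def sideCells (d a : Bool) : Finset (Fin 8) := Finset.univ.filter fun i => cz d (qz i) = si a

/-- The energy of the cells of level `k` touching a side. -/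
noncomputable def sideE (hK : IsCarpet K) (ρ : ℝ) (E : (K → ℝ) → ℝ) (d a : Bool) :
    ℕ → (K → ℝ) → ℝ
  | 0, f => E f
  | k + 1, f => ρ * ∑ i ∈ sideCells d a, sideE hK ρ E d a k (f ∘ cellMap hK i)

/-- The energy of the cells of level `k` touching the boundary. -/
noncomputable def bdE (hK : IsCarpet K) (ρ : ℝ) (E : (K → ℝ) → ℝ) (k : ℕ) (f : K → ℝ) : ℝ :=
  ∑ c : Bool × Bool, sideE hK ρ E c.1 c.2 k f

/-- The action of the reflection on the cells. -/
def ryc : Fin 8 → Fin 8 := ![6, 5, 4, 3, 2, 1, 0, 7]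

/-- The action of the swap on the cells. -/
def swc : Fin 8 → Fin 8 := ![0, 7, 6, 5, 4, 3, 2, 1]

theorem qz_ryc : ∀ i, qz (ryc i) = ((qz i).1, -(qz i).2) := by decide

theorem qz_swc : ∀ i, qz (swc i) = ((qz i).2, (qz i).1) := by decide

theorem ryc_ryc : ∀ i, ryc (ryc i) = i := by decide

theorem swc_swc : ∀ i, swc (swc i) = i := by decide

theorem comp_reflY_cellMap (f : K → ℝ) (i : Fin 8) :
    (f ∘ reflY hK) ∘ cellMap hK i = (f ∘ cellMap hK (ryc i)) ∘ reflY hK := by
  funext z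
  simp only [Function.comp_apply]
  congr 1
  refine ext_co fun d => ?_
  have h1 : ∀ z : K, co d (reflY hK z).1 = if d then co d z.1 else -co d z.1 := fun z => by
    cases d <;> rfl
  rw [h1]
  change _ = co d (contraction (ryc i) (reflY hK z))
  have h2 : co d (cellMap hK i z).1 = co d (contraction i z) := rfl
  rw [h2, contraction_co, contraction_co, h1, qz_ryc]
  cases d
  · simp only [co_false, cz_false, Bool.false_eq_true, if_false]
    push_cast
    ring
  · simp

theorem comp_swap_cellMap (f : K → ℝ) (i : Fin 8) :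
    (f ∘ swapXY hK) ∘ cellMap hK i = (f ∘ cellMap hK (swc i)) ∘ swapXY hK := by
  funext z
  simp only [Function.comp_apply]
  congr 1
  refine ext_co fun d => ?_
  have h1 : ∀ z : K, co d (swapXY hK z).1 = co (!d) z.1 := fun z => by
    cases d <;> rfl
  rw [h1]
  change co (!d) (contraction i z) = co d (contraction (swc i) (swapXY hK z))
  rw [contraction_co, contraction_co, h1, qz_swc]
  cases d <;> simp

theorem sum_sideCells_ryc (d a : Bool) (g : Fin 8 → ℝ) :
    ∑ i ∈ sideCells d a, g (ryc i) = ∑ i ∈ sideCells d (if d then a else !a), g i := by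
  refine Finset.sum_nbij' ryc ryc ?_ ?_ ?_ ?_ ?_
  · revert d a
    decide
  · revert d a
    decide
  · intro i _
    exact ryc_ryc i
  · intro i _
    exact ryc_ryc i
  · intro i _
    rfl

theorem sum_sideCells_swc (d a : Bool) (g : Fin 8 → ℝ) :
    ∑ i ∈ sideCells d a, g (swc i) = ∑ i ∈ sideCells (!d) a, g i := by
  refine Finset.sum_nbij' swc swc ?_ ?_ ?_ ?_ ?_
  · revert d a
    decide
  · revert d a
    decide
  · intro i _
    exact swc_swc i
  · intro i _
    exact swc_swc i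
  · intro i _
    rfl

namespace Sem

variable (hQ : Sem hK p κ A Q) (hA : LatClass hK A)

include hQ hA

/-- Sublevel sets are convex. -/
theorem convex_le (L : ℝ) : Convex ℝ {u : K → ℝ | u ∈ A ∧ Q u ≤ L} := by
  have hp := hQ.p_pos
  intro a ha b hb s t hs ht hst
  have h1 := hA.smul_mem s a ha.1
  have h2 := hA.smul_mem t b hb.1
  have h3 := hA.add_mem _ h1 _ h2
  refine ⟨h3, ?_⟩
  have hEa := hQ.nonneg a ha.1
  have hEb := hQ.nonneg b hb.1
  have hL : 0 ≤ L := hEa.trans ha.2
  have e1 : Q (s • a) ^ (1 / p) ≤ s * L ^ (1 / p) := by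
    rw [hQ.smul' hA ha.1, abs_of_nonneg hs]
    gcongr
    exact ha.2
  have e2 : Q (t • b) ^ (1 / p) ≤ t * L ^ (1 / p) := by
    rw [hQ.smul' hA hb.1, abs_of_nonneg ht]
    gcongr
    exact hb.2
  have e3 := hQ.subadd _ h1 _ h2
  have e4 : Q (s • a + t • b) ^ (1 / p) ≤ L ^ (1 / p) := by
    calc _ ≤ _ := e3
      _ ≤ s * L ^ (1 / p) + t * L ^ (1 / p) := add_le_add e1 e2
      _ = L ^ (1 / p) := by rw [← add_mul, hst, one_mul]
  have hnn := hQ.nonneg _ h3
  calc Q (s • a + t • b) = (Q (s • a + t • b) ^ (1 / p)) ^ p := (rpow_one_div_rpow hp hnn).symm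
    _ ≤ (L ^ (1 / p)) ^ p := Real.rpow_le_rpow (by positivity) e4 hp.le
    _ = L := rpow_one_div_rpow hp hL

end Sem

/-- Sums of `p`-th powers of seminorms. -/
theorem root_sum_le {ι : Type*} {p : ℝ} (hp : 1 < p) {c : ℝ} (hc : 0 ≤ c) (s : Finset ι)
    (a b d : ι → ℝ) (ha : ∀ i ∈ s, 0 ≤ a i) (hb : ∀ i ∈ s, 0 ≤ b i) (hd : ∀ i ∈ s, 0 ≤ d i)
    (h : ∀ i ∈ s, a i ^ (1 / p) ≤ b i ^ (1 / p) + d i ^ (1 / p)) :
    (c * ∑ i ∈ s, a i) ^ (1 / p) ≤ (c * ∑ i ∈ s, b i) ^ (1 / p) + (c * ∑ i ∈ s, d i) ^ (1 / p) := by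
  rw [Real.mul_rpow hc (Finset.sum_nonneg ha), Real.mul_rpow hc (Finset.sum_nonneg hb),
    Real.mul_rpow hc (Finset.sum_nonneg hd), ← mul_add]
  have := minkowski hp.le s a b d ha hb hd h
  gcongr

namespace Reg

variable (h : Reg hK p ρ A E)

include h

theorem sideE_nonneg (d a : Bool) (k : ℕ) : ∀ f ∈ A, 0 ≤ sideE hK ρ E d a k f := by
  have hρ := h.rho_pos
  induction k with
  | zero => exact h.nonneg
  | succ k ih =>
    intro f hf
    exact mul_nonneg hρ.le (Finset.sum_nonneg fun i _ => ih _ (h.lat.comp_mem f hf i))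

theorem sideE_succ_le (d a : Bool) (k : ℕ) : ∀ f ∈ A,
    sideE hK ρ E d a (k + 1) f ≤ sideE hK ρ E d a k f := by
  have hρ := h.rho_pos
  induction k with
  | zero =>
    intro f hf
    change ρ * ∑ i ∈ sideCells d a, E (f ∘ cellMap hK i) ≤ E f
    rw [← h.scaling f hf]
    gcongr
    · intro i _ _
      exact h.nonneg _ (h.lat.comp_mem f hf i)
    · exact Finset.subset_univ _
  | succ k ih =>
    intro f hf
    change ρ * ∑ i ∈ sideCells d a, sideE hK ρ E d a (k + 1) (f ∘ cellMap hK i) ≤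
      ρ * ∑ i ∈ sideCells d a, sideE hK ρ E d a k (f ∘ cellMap hK i)
    gcongr with i _
    exact ih _ (h.lat.comp_mem f hf i)

theorem sideE_add_const (d a : Bool) (k : ℕ) : ∀ f ∈ A, ∀ c : ℝ,
    sideE hK ρ E d a k (fun x => f x + c) = sideE hK ρ E d a k f := by
  induction k with
  | zero => exact h.add_const
  | succ k ih =>
    intro f hf c
    rw [sideE, sideE]
    congr 1
    exact Finset.sum_congr rfl fun i _ => ih _ (h.lat.comp_mem f hf i) c

theorem sideE_smul (d a : Bool) (k : ℕ) : ∀ f ∈ A, ∀ c : ℝ,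
    sideE hK ρ E d a k (c • f) = |c| ^ p * sideE hK ρ E d a k f := by
  induction k with
  | zero => exact h.smul
  | succ k ih =>
    intro f hf c
    have key : ∑ i ∈ sideCells d a, sideE hK ρ E d a k ((c • f) ∘ cellMap hK i) =
        |c| ^ p * ∑ i ∈ sideCells d a, sideE hK ρ E d a k (f ∘ cellMap hK i) := by
      rw [Finset.mul_sum]
      exact Finset.sum_congr rfl fun i _ => ih _ (h.lat.comp_mem f hf i) c
    rw [sideE, sideE, key]
    ring

theorem sideE_subadd (d a : Bool) (k : ℕ) : ∀ f ∈ A, ∀ g ∈ A,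
    sideE hK ρ E d a k (f + g) ^ (1 / p) ≤
      sideE hK ρ E d a k f ^ (1 / p) + sideE hK ρ E d a k g ^ (1 / p) := by
  have hρ := h.rho_pos
  induction k with
  | zero => exact h.subadd
  | succ k ih =>
    intro f hf g hg
    have m : ∀ f ∈ A, ∀ i, f ∘ cellMap hK i ∈ A := fun f hf i => h.lat.comp_mem f hf i
    refine root_sum_le h.one_lt hρ.le _ _ _ _ (fun i _ => h.sideE_nonneg d a k _ ?_)
      (fun i _ => h.sideE_nonneg d a k _ (m f hf i)) (fun i _ => h.sideE_nonneg d a k _ (m g hg i))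
      (fun i _ => ih _ (m f hf i) _ (m g hg i))
    exact m _ (h.lat.add_mem f hf g hg) i

theorem sideE_abs (d a : Bool) (k : ℕ) : ∀ f ∈ A,
    sideE hK ρ E d a k (fun x => |f x|) ≤ 3 ^ p * sideE hK ρ E d a k f := by
  have hρ := h.rho_pos
  have hp := h.p_pos
  induction k with
  | zero =>
    intro f hf
    have h1 := h.sem.abs_le f hf
    have h2 := h.nonneg _ (h.lat.abs_mem f hf)
    have h3 := h.nonneg f hf
    change E (fun x => |f x|) ≤ 3 ^ p * E f
    calc E (fun x => |f x|) = (E (fun x => |f x|) ^ (1 / p)) ^ p := (rpow_one_div_rpow hp h2).symm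
      _ ≤ (3 * E f ^ (1 / p)) ^ p := Real.rpow_le_rpow (by positivity) h1 hp.le
      _ = 3 ^ p * E f := by
        rw [Real.mul_rpow (by norm_num) (by positivity), rpow_one_div_rpow hp h3]
  | succ k ih =>
    intro f hf
    have key : ∑ i ∈ sideCells d a, sideE hK ρ E d a k ((fun x => |f x|) ∘ cellMap hK i) ≤
        3 ^ p * ∑ i ∈ sideCells d a, sideE hK ρ E d a k (f ∘ cellMap hK i) := by
      rw [Finset.mul_sum]
      exact Finset.sum_le_sum fun i _ => ih _ (h.lat.comp_mem f hf i)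
    rw [sideE, sideE]
    calc ρ * ∑ i ∈ sideCells d a, sideE hK ρ E d a k ((fun x => |f x|) ∘ cellMap hK i)
        ≤ ρ * (3 ^ p * ∑ i ∈ sideCells d a, sideE hK ρ E d a k (f ∘ cellMap hK i)) := by gcongr
      _ = _ := by ring

theorem sideE_reflY (k : ℕ) : ∀ (d a : Bool), ∀ f ∈ A,
    sideE hK ρ E d a k (f ∘ SierpinskiCarpet.reflY hK) =
      sideE hK ρ E d (if d then a else !a) k f := by
  induction k with
  | zero =>
    intro d a f hf
    exact h.reflY f hf
  | succ k ih =>
    intro d a f hf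
    rw [sideE, sideE]
    congr 1
    rw [← sum_sideCells_ryc d a]
    refine Finset.sum_congr rfl fun i _ => ?_
    rw [comp_reflY_cellMap, ih d a _ (h.lat.comp_mem f hf _)]

theorem sideE_swap (k : ℕ) : ∀ (d a : Bool), ∀ f ∈ A,
    sideE hK ρ E d a k (f ∘ swapXY hK) = sideE hK ρ E (!d) a k f := by
  induction k with
  | zero =>
    intro d a f hf
    exact h.swap f hf
  | succ k ih =>
    intro d a f hf
    rw [sideE, sideE]
    congr 1
    rw [← sum_sideCells_swc d a]
    refine Finset.sum_congr rfl fun i _ => ?_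
    rw [comp_swap_cellMap, ih d a _ (h.lat.comp_mem f hf _)]

theorem bdE_sem (k : ℕ) : Sem hK p 3 A (bdE hK ρ E k) where
  one_le := by norm_num
  p_pos := h.p_pos
  nonneg := fun u hu => Finset.sum_nonneg fun c _ => h.sideE_nonneg _ _ k u hu
  add_const := fun u hu c => Finset.sum_congr rfl fun b _ => h.sideE_add_const _ _ k u hu c
  smul := fun u hu c => by
    rw [bdE, bdE, Finset.mul_sum]
    exact Finset.sum_congr rfl fun b _ => h.sideE_smul _ _ k u hu c
  subadd := fun u hu v hv => minkowski h.one_lt.le _ _ _ _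
    (fun c _ => h.sideE_nonneg _ _ k _ (h.lat.add_mem u hu v hv))
    (fun c _ => h.sideE_nonneg _ _ k u hu) (fun c _ => h.sideE_nonneg _ _ k v hv)
    (fun c _ => h.sideE_subadd _ _ k u hu v hv)
  abs_le := fun u hu => by
    have hp := h.p_pos
    have h1 : bdE hK ρ E k (fun x => |u x|) ≤ 3 ^ p * bdE hK ρ E k u := by
      rw [bdE, bdE, Finset.mul_sum]
      exact Finset.sum_le_sum fun c _ => h.sideE_abs _ _ k u hu
    have h2 : 0 ≤ bdE hK ρ E k (fun x => |u x|) :=
      Finset.sum_nonneg fun c _ => h.sideE_nonneg _ _ k _ (h.lat.abs_mem u hu)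
    have h3 : 0 ≤ bdE hK ρ E k u := Finset.sum_nonneg fun c _ => h.sideE_nonneg _ _ k u hu
    calc bdE hK ρ E k (fun x => |u x|) ^ (1 / p) ≤ (3 ^ p * bdE hK ρ E k u) ^ (1 / p) :=
          Real.rpow_le_rpow h2 h1 (by positivity)
      _ = 3 * bdE hK ρ E k u ^ (1 / p) := by
          rw [Real.mul_rpow (by positivity) h3, rpow_rpow_one_div hp (by norm_num)]
  reflY := fun u hu => by
    unfold bdE
    rw [Fintype.sum_prod_type, Fintype.sum_prod_type, Fintype.sum_bool, Fintype.sum_bool,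
      Fintype.sum_bool, Fintype.sum_bool, Fintype.sum_bool, Fintype.sum_bool,
      h.sideE_reflY k _ _ u hu, h.sideE_reflY k _ _ u hu, h.sideE_reflY k _ _ u hu,
      h.sideE_reflY k _ _ u hu]
    simp only [if_true, Bool.false_eq_true, if_false, Bool.not_true, Bool.not_false]
    ring
  swap := fun u hu => by
    unfold bdE
    rw [Fintype.sum_prod_type, Fintype.sum_prod_type, Fintype.sum_bool, Fintype.sum_bool,
      Fintype.sum_bool, Fintype.sum_bool, Fintype.sum_bool, Fintype.sum_bool,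
      h.sideE_swap k _ _ u hu, h.sideE_swap k _ _ u hu, h.sideE_swap k _ _ u hu,
      h.sideE_swap k _ _ u hu]
    simp only [Bool.not_true, Bool.not_false]
    ring

theorem bdE_succ_le (k : ℕ) {f : K → ℝ} (hf : f ∈ A) :
    bdE hK ρ E (k + 1) f ≤ bdE hK ρ E k f :=
  Finset.sum_le_sum fun c _ => h.sideE_succ_le _ _ k f hf

theorem bdE_antitone {f : K → ℝ} (hf : f ∈ A) : Antitone fun k => bdE hK ρ E k f :=
  antitone_nat_of_succ_le fun k => h.bdE_succ_le k hf

omit h in
theorem bdE_zero (f : K → ℝ) : bdE hK ρ E 0 f = 4 * E f := by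
  unfold bdE
  simp only [sideE]
  rw [Finset.sum_const, Finset.card_univ]
  simp only [Fintype.card_prod, Fintype.card_bool, nsmul_eq_mul]
  push_cast
  ring

/-- The energy near a side is controlled by the energies near the sides of the cells. -/
theorem sideE_add_le (d a : Bool) (k n : ℕ) : ∀ f ∈ A,
    sideE hK ρ E d a (n + k) f ≤ ρ ^ n * ∑ w ∈ words n, sideE hK ρ E d a k (f ∘ cell hK w) := by
  have hρ := h.rho_pos
  induction n with
  | zero =>
    intro f hf
    rw [sum_words_zero, zero_add, pow_zero, one_mul]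
    rfl
  | succ n ih =>
    intro f hf
    rw [sum_words_succ, show n + 1 + k = (n + k) + 1 by ring, sideE]
    have m : ∀ i, f ∘ cellMap hK i ∈ A := fun i => h.lat.comp_mem f hf i
    calc ρ * ∑ i ∈ sideCells d a, sideE hK ρ E d a (n + k) (f ∘ cellMap hK i)
        ≤ ρ * ∑ i, sideE hK ρ E d a (n + k) (f ∘ cellMap hK i) := by
          gcongr
          · intro i _ _
            exact h.sideE_nonneg d a _ _ (m i)
          · exact Finset.subset_univ _
      _ ≤ ρ * ∑ i, ρ ^ n * ∑ w ∈ words n, sideE hK ρ E d a k ((f ∘ cellMap hK i) ∘ cell hK w) := by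
          gcongr with i _
          exact ih _ (m i)
      _ = ρ ^ (n + 1) * ∑ i, ∑ w ∈ words n, sideE hK ρ E d a k (f ∘ cell hK (i :: w)) := by
          rw [← Finset.mul_sum, pow_succ]
          simp only [cell_cons, Function.comp_assoc]
          ring

theorem bdE_add_le (k n : ℕ) {f : K → ℝ} (hf : f ∈ A) :
    bdE hK ρ E (n + k) f ≤ ρ ^ n * ∑ w ∈ words n, bdE hK ρ E k (f ∘ cell hK w) := by
  refine (Finset.sum_le_sum fun c _ => h.sideE_add_le c.1 c.2 k n f hf).trans (le_of_eq ?_)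
  rw [← Finset.mul_sum, Finset.sum_comm]
  rfl

/-- Crossing functions with small boundary energy. -/
theorem exists_small_crossing (j : ℕ) {u₀ : K → ℝ} (hu₀ : u₀ ∈ A) (hc₀ : IsCrossing u₀) :
    ∃ u ∈ A, IsCrossing u ∧ bdE hK ρ E j u ≤ (1 / 2) ^ j * (4 * E u₀) := by
  have hρ := h.rho_pos
  have hp := h.p_pos
  induction j with
  | zero => exact ⟨u₀, hu₀, hc₀, by rw [bdE_zero, pow_zero, one_mul]⟩
  | succ j ih =>
    obtain ⟨u, hu, hcr, huE⟩ := ih
    obtain ⟨g, hgc, hg⟩ := exists_columns hK hcr (fun c => (c + 1) / 3) (fun _ => 1 / 3)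
      (by norm_num) (by norm_num)
    have hr : ∀ i, u ∘ rmap hK i ∈ A := fun i => by
      unfold rmap
      split_ifs
      exacts [h.lat.reflY_mem u hu, hu]
    have hgi : ∀ i, g ∘ cellMap hK i = fun z => ((1 / 3 : ℝ) • (u ∘ rmap hK i)) z +
        ((q i).1 + 1) / 3 := fun i => by
      rw [hg i]
      funext z
      simp only [Pi.smul_apply, Function.comp_apply, smul_eq_mul]
      ring
    have hgA : g ∈ A := h.lat.glue g hgc fun i => by
      rw [hgi i]
      exact h.lat.add_const_mem (h.lat.smul_mem _ _ (hr i)) _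
    have hgcr : IsCrossing g := by
      refine ⟨hgc, fun x hx => ?_, fun x hx => ?_⟩
      · obtain ⟨i, y, rfl⟩ := exists_cellMap hK x
        obtain ⟨e1, e2⟩ := left_of_cell hK hx
        have e3 := congrFun (hg i) y
        simp only [Function.comp_apply] at e3
        rw [e3, e1, hcr.left _ (by rw [rmap_fst, e2])]
        norm_num
      · obtain ⟨i, y, rfl⟩ := exists_cellMap hK x
        obtain ⟨e1, e2⟩ := right_of_cell hK hx
        have e3 := congrFun (hg i) y
        simp only [Function.comp_apply] at e3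
        rw [e3, e1, hcr.right _ (by rw [rmap_fst, e2])]
        norm_num
    refine ⟨g, hgA, hgcr, ?_⟩
    have hcell : ∀ d a i, i ∈ sideCells d a → sideE hK ρ E d a j (g ∘ cellMap hK i) =
        (1 / 3) ^ p * sideE hK ρ E d a j u := by
      intro d a i hi
      rw [hgi i, h.sideE_add_const d a j _ (h.lat.smul_mem _ _ (hr i)),
        h.sideE_smul d a j _ (hr i), abs_of_pos (by norm_num)]
      congr 1
      unfold rmap
      split_ifs with h0
      · cases d
        · exfalso
          rw [sideCells, Finset.mem_filter] at hi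
          have e := q_eq i false
          simp only [co_false, cz_false] at e hi
          rw [h0, hi.2] at e
          cases a <;> simp [si] at e
        · rw [h.sideE_reflY j true a u hu]
          rfl
      · rfl
    have hcard : ∀ d a, (sideCells d a).card = 3 := by decide
    have hside : ∀ d a, sideE hK ρ E d a (j + 1) g ≤ 1 / 2 * sideE hK ρ E d a j u := by
      intro d a
      rw [sideE, Finset.sum_congr rfl (hcell d a), Finset.sum_const, hcard, nsmul_eq_mul]
      have h1 := h.two_rho_le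
      have h2 : (3 : ℝ) ^ (1 - p) = 3 * (1 / 3) ^ p := by
        rw [Real.rpow_sub (by norm_num), Real.rpow_one, one_div, Real.inv_rpow (by norm_num)]
        rfl
      rw [h2] at h1
      have h3 := h.sideE_nonneg d a j u hu
      push_cast
      nlinarith
    calc bdE hK ρ E (j + 1) g ≤ ∑ c : Bool × Bool, 1 / 2 * sideE hK ρ E c.1 c.2 j u :=
          Finset.sum_le_sum fun c _ => hside _ _
      _ = 1 / 2 * bdE hK ρ E j u := by rw [← Finset.mul_sum]; rfl
      _ ≤ 1 / 2 * ((1 / 2) ^ j * (4 * E u₀)) := by gcongr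
      _ = _ := by
        rw [pow_succ]
        ring

/-- The energy near the boundary vanishes. -/
theorem bdE_tendsto {f : K → ℝ} (hf : f ∈ A) {ε : ℝ} (hε : 0 < ε) :
    ∃ k₀, ∀ k ≥ k₀, bdE hK ρ E k f ≤ ε := by
  have hp := h.p_pos
  have hρ := h.rho_pos
  have hcc := h.crc_pos
  obtain ⟨u₀, hu₀, hc₀⟩ := h.crossing
  have hEu₀ := h.nonneg u₀ hu₀
  have hEf := h.nonneg f hf
  obtain ⟨φ, hφ1, hφ2⟩ := h.exists_vertex hf
  set C₁ : ℝ := 432 ^ p * (36 * (8 * cadj p ρ) ^ p * (E f / crc A E)) with hC₁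
  have hC₁0 : 0 ≤ C₁ := by
    have := h.cadj_pos
    positivity
  -- the main estimate
  have main : ∀ j : ℕ, ∀ η > 0, ∃ k₀, ∀ k ≥ k₀, bdE hK ρ E k f ^ (1 / p) ≤
      (C₁ * ((1 / 2) ^ j * (4 * E u₀))) ^ (1 / p) + (4 * η) ^ (1 / p) := by
    intro j η hη
    obtain ⟨u, hu, hcr, huj⟩ := h.exists_small_crossing j hu₀ hc₀
    set e : ℝ := (1 / 2) ^ j * (4 * E u₀) with he
    have he0 : 0 ≤ e := by positivity
    obtain ⟨τ, hτ, hτE⟩ := exists_template_le h.lat hu hcr
    choose g hgA hg using fun n => exists_interp h.lat hτ n (φ n)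
    -- boundary energies of the interpolants
    have hT : ∀ c, bdE hK ρ E j (τ c) ^ (1 / p) ≤ 108 * e ^ (1 / p) := by
      intro c
      refine (hτE p 3 _ (h.bdE_sem j) c).trans ?_
      have h2 : bdE hK ρ E j u ^ (1 / p) ≤ e ^ (1 / p) :=
        Real.rpow_le_rpow ((h.bdE_sem j).nonneg u hu) huj (by positivity)
      have h3 : (4 : ℝ) * 3 ^ 3 = 108 := by norm_num
      rw [h3]
      gcongr
    have hgb : ∀ n, bdE hK ρ E (n + j) (g n) ≤ C₁ * e := by
      intro n
      refine (h.bdE_add_le j n (hgA n)).trans ?_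
      have h1 : ∀ w ∈ words n, bdE hK ρ E j (g n ∘ cell hK w) ≤
          432 ^ p * e * cvar hK p (φ n ∘ cell hK w) := by
        intro w hw
        have e1 : g n ∘ cell hK w = fun y => ∑ c, (φ n ∘ cell hK w) (corner hK c) * τ c y := by
          funext y
          exact hg n w hw y
        rw [e1]
        refine ((h.bdE_sem j).template_le h.lat hτ (by positivity) hT _).trans (le_of_eq ?_)
        rw [← mul_assoc, Real.mul_rpow (by norm_num) (by positivity), rpow_one_div_rpow hp he0]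
        norm_num
      calc ρ ^ n * ∑ w ∈ words n, bdE hK ρ E j (g n ∘ cell hK w)
          ≤ ρ ^ n * ∑ w ∈ words n, 432 ^ p * e * cvar hK p (φ n ∘ cell hK w) := by
            gcongr with w hw
            exact h1 w hw
        _ = 432 ^ p * e * (ρ ^ n * ∑ w ∈ words n, cvar hK p (φ n ∘ cell hK w)) := by
            rw [← Finset.mul_sum]
            ring
        _ ≤ 432 ^ p * e * (36 * (8 * cadj p ρ) ^ p * (E f / crc A E)) := by
            have := hφ1 n
            gcongr
        _ = C₁ * e := by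
            rw [hC₁]
            ring
    -- the energies are bounded
    have hbound : ∃ L, ∀ n, E (g n) ≤ L := by
      have hT' : ∀ c, E (τ c) ^ (1 / p) ≤ 108 * E u ^ (1 / p) := by
        intro c
        refine (hτE p 3 _ h.sem c).trans (le_of_eq ?_)
        norm_num
      have hEu := h.nonneg u hu
      refine ⟨_, fun n => (h.energy_interp' hτ (by positivity) hT' (hgA n) (hg n)).trans
        (mul_le_mul_of_nonneg_left (hφ1 n) (by positivity))⟩
    obtain ⟨L, hL⟩ := hbound
    have hconv : ∀ ε > 0, ∃ N, ∀ n ≥ N, ∀ x, |g n x - f x| ≤ ε := by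
      intro ε hε
      obtain ⟨N, hN⟩ := hφ2 (ε / 8) (by positivity)
      refine ⟨N, fun n hn x => ?_⟩
      refine ((hg n).dist_le' hτ (hN n hn) x).trans (le_of_eq ?_)
      ring
    obtain ⟨-, y, hy, hy0⟩ := h.closed g hgA L hL f hconv
    obtain ⟨m, hm⟩ := (hy0.eventually (gt_mem_nhds hη)).exists
    -- the convex combination
    have hcv : Convex ℝ {v : K → ℝ | v ∈ A ∧ ∃ k₀, ∀ k ≥ k₀, bdE hK ρ E k v ≤ C₁ * e} := by
      rintro a ⟨haA, k₁, ha⟩ b ⟨hbA, k₂, hb⟩ s t hs ht hst
      refine ⟨h.lat.add_mem _ (h.lat.smul_mem s a haA) _ (h.lat.smul_mem t b hbA),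
        max k₁ k₂, fun k hk => ?_⟩
      exact ((h.bdE_sem k).convex_le h.lat (C₁ * e) ⟨haA, ha k (le_of_max_le_left hk)⟩
        ⟨hbA, hb k (le_of_max_le_right hk)⟩ hs ht hst).2
    obtain ⟨hyA, k₀, hk₀⟩ := convexHull_min (s := g '' Set.Ici m) (by
      rintro _ ⟨n, -, rfl⟩
      exact ⟨hgA n, n + j, fun k hk => (h.bdE_antitone (hgA n) hk).trans (hgb n)⟩) hcv (hy m).2
    refine ⟨k₀, fun k hk => ?_⟩
    have hd := h.lat.sub_mem hyA hf
    have e1 := (h.bdE_sem k).sub_le h.lat hyA hd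
    have e2 : y m - (y m - f) = f := by abel
    rw [e2] at e1
    have e3 : bdE hK ρ E k (y m) ^ (1 / p) ≤ (C₁ * e) ^ (1 / p) :=
      Real.rpow_le_rpow ((h.bdE_sem k).nonneg _ hyA) (hk₀ k hk) (by positivity)
    have e4 : bdE hK ρ E k (y m - f) ^ (1 / p) ≤ (4 * η) ^ (1 / p) := by
      refine Real.rpow_le_rpow ((h.bdE_sem k).nonneg _ hd) ?_ (by positivity)
      have := h.bdE_antitone hd (Nat.zero_le k)
      simp only at this
      rw [bdE_zero] at this
      linarith
    linarith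
  -- conclusion
  set δ : ℝ := ε ^ (1 / p) / 2 with hδ
  have hδ0 : 0 < δ := by positivity
  have hlim : Tendsto (fun j : ℕ => (C₁ * ((1 / 2) ^ j * (4 * E u₀))) ^ (1 / p)) atTop
      (𝓝 ((C₁ * (0 * (4 * E u₀))) ^ (1 / p))) := by
    refine Tendsto.rpow_const ?_ (Or.inr (by positivity))
    exact (((tendsto_pow_atTop_nhds_zero_of_lt_one (by norm_num) (by norm_num)).mul_const _).const_mul
      _)
  rw [zero_mul, mul_zero, Real.zero_rpow (by positivity)] at hlim
  obtain ⟨j, hj⟩ := (hlim.eventually (gt_mem_nhds hδ0)).exists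
  obtain ⟨k₀, hk₀⟩ := main j (δ ^ p / 4) (by positivity)
  refine ⟨k₀, fun k hk => ?_⟩
  have h1 := hk₀ k hk
  have h2 : (4 * (δ ^ p / 4)) ^ (1 / p) = δ := by
    rw [mul_div_cancel₀ _ (by norm_num : (4 : ℝ) ≠ 0), rpow_rpow_one_div hp hδ0.le]
  rw [h2] at h1
  have h3 : bdE hK ρ E k f ^ (1 / p) ≤ ε ^ (1 / p) := by linarith
  have h4 := (h.bdE_sem k).nonneg f hf
  calc bdE hK ρ E k f = (bdE hK ρ E k f ^ (1 / p)) ^ p := (rpow_one_div_rpow hp h4).symm
    _ ≤ (ε ^ (1 / p)) ^ p := Real.rpow_le_rpow (by positivity) h3 hp.le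
    _ = ε := rpow_one_div_rpow hp hε.le

end Reg

end Pool.Agent.SierpinskiCarpet
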