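import Pool.Agent.helper33.SRCollapse

/-!
# Draining a strip of values
-/

open MeasureTheory Filter Topology

namespace Pool.Agent.SierpinskiCarpet

variable {K : Set (ℝ × ℝ)} {hK : IsCarpet K} {A : Set (K → ℝ)} {p ρ : ℝ} {E : (K → ℝ) → ℝ}

theorem add4_rpow_le {p a b c d : ℝ} (hp : 0 < p) (ha : 0 ≤ a) (hb : 0 ≤ b) (hc : 0 ≤ c)
    (hd : 0 ≤ d) : (a + b + c + d) ^ p ≤ 4 ^ p * (a ^ p + b ^ p + c ^ p + d ^ p) := by
  have h1 := add_rpow_le hp (add_nonneg ha hb) (add_nonneg hc hd)
  have h2 := add_rpow_le hp ha hb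
  have h3 := add_rpow_le hp hc hd
  have e : (4 : ℝ) ^ p = 2 ^ p * 2 ^ p := by
    rw [← Real.mul_rpow (by norm_num) (by norm_num)]
    norm_num
  have h0 : (0 : ℝ) ≤ 2 ^ p := by positivity
  calc (a + b + c + d) ^ p = (a + b + (c + d)) ^ p := by rw [add_assoc (a + b)]
    _ ≤ 2 ^ p * ((a + b) ^ p + (c + d) ^ p) := h1
    _ ≤ 2 ^ p * (2 ^ p * (a ^ p + b ^ p) + 2 ^ p * (c ^ p + d ^ p)) := by gcongr
    _ = _ := by rw [e]; ring

/-- The normalised clamp. -/
noncomputable def nc (s₁ s₂ t : ℝ) : ℝ := max (min t s₂) s₁ + (-s₁)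

theorem nc_of_le {s₁ s₂ t : ℝ} (hs : s₁ ≤ s₂) (ht : t ≤ s₁) : nc s₁ s₂ t = 0 := by
  unfold nc
  rw [min_eq_left (ht.trans hs), max_eq_right ht]
  ring

theorem nc_of_ge {s₁ s₂ t : ℝ} (hs : s₁ ≤ s₂) (ht : s₂ ≤ t) : nc s₁ s₂ t = s₂ - s₁ := by
  unfold nc
  rw [min_eq_right ht, max_eq_left hs]
  ring

theorem nc_of_mem {s₁ s₂ t : ℝ} (h1 : s₁ ≤ t) (h2 : t ≤ s₂) : nc s₁ s₂ t = t - s₁ := by
  unfold nc
  rw [min_eq_left h2, max_eq_left h1]
  ring

theorem nc_nonneg (s₁ s₂ t : ℝ) : 0 ≤ nc s₁ s₂ t := by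
  unfold nc
  have : s₁ ≤ max (min t s₂) s₁ := le_max_right _ _
  linarith

theorem nc_le {s₁ s₂ : ℝ} (hs : s₁ ≤ s₂) (t : ℝ) : nc s₁ s₂ t ≤ s₂ - s₁ := by
  unfold nc
  have : max (min t s₂) s₁ ≤ s₂ := max_le (min_le_right _ _) hs
  linarith

/-- The trapezoid. -/
noncomputable def trap (s w m t : ℝ) : ℝ := nc s (s + m) t - nc (s + w - m) (s + w) t

theorem trap_bounds {s w m t : ℝ} (hm : 0 ≤ m) (hw : 2 * m ≤ w) :
    0 ≤ trap s w m t ∧ trap s w m t ≤ m := by
  unfold trap
  have h1 := nc_nonneg s (s + m) t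
  have h2 := nc_le (show s ≤ s + m by linarith) t
  have h3 := nc_nonneg (s + w - m) (s + w) t
  have h4 := nc_le (show s + w - m ≤ s + w by linarith) t
  refine ⟨?_, by linarith⟩
  rcases le_total t (s + w - m) with h | h
  · rw [nc_of_le (by linarith) h]
    linarith
  · rw [nc_of_ge (t := t) (show s ≤ s + m by linarith) (by linarith)]
    linarith

theorem trap_outside {s w m t : ℝ} (hm : 0 ≤ m) (hw : 2 * m ≤ w) (ht : t < s ∨ s + w < t) :
    trap s w m t = 0 := by
  unfold trap
  rcases ht with h | h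
  · rw [nc_of_le (by linarith) h.le, nc_of_le (by linarith) (by linarith), sub_zero]
  · rw [nc_of_ge (by linarith) (by linarith), nc_of_ge (by linarith) h.le]
    ring

theorem trap_plateau {s w m t : ℝ} (hm : 0 ≤ m) (h1 : s + m ≤ t)
    (h2 : t ≤ s + w - m) : trap s w m t = m := by
  unfold trap
  rw [nc_of_ge (by linarith) h1, nc_of_le (by linarith) h2]
  ring

namespace Reg

variable (h : Reg hK p ρ A E)

include h

theorem nc_mem {U : K → ℝ} (hU : U ∈ A) (s₁ s₂ : ℝ) : (fun z => nc s₁ s₂ (U z)) ∈ A :=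
  h.lat.add_const_mem (h.clamp_mem hU s₁ s₂) _

theorem nc_energy {U : K → ℝ} (hU : U ∈ A) (s₁ s₂ : ℝ) : E (fun z => nc s₁ s₂ (U z)) ≤ E U := by
  have := h.add_const _ (h.clamp_mem hU s₁ s₂) (-s₁)
  have h2 := h.clamp_le hU s₁ s₂
  calc E (fun z => nc s₁ s₂ (U z)) = E (fun z => max (min (U z) s₂) s₁) := this
    _ ≤ E U := h2

/-- Adding a multiple of a trapezoid function of `U` on a small cell. -/
theorem trap_cell {U V : K → ℝ} (hU : U ∈ A) (hV : V ∈ A) {s w m c : ℝ} (hm : 0 ≤ m)
    (hw : 2 * m ≤ w) {x : List (Fin 8)} {d : ℝ} (hd : 0 ≤ d)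
    (h1 : E ((V + c • U) ∘ cell hK x) ≤ E (V ∘ cell hK x) + d)
    (h2 : E ((V - c • U) ∘ cell hK x) ≤ E (V ∘ cell hK x) + d)
    [Decidable ((Cross hK U s x ∨ Cross hK U (s + m) x) ∨
      (Cross hK U (s + w - m) x ∨ Cross hK U (s + w) x))] :
    E (fun z => V (cell hK x z) + c * trap s w m (U (cell hK x z))) ^ (1 / p) ≤
      (E (V ∘ cell hK x) + d) ^ (1 / p) +
      if (Cross hK U s x ∨ Cross hK U (s + m) x) ∨
        (Cross hK U (s + w - m) x ∨ Cross hK U (s + w) x) then
        2 * |c| * E (U ∘ cell hK x) ^ (1 / p) else 0 := by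
  have hp := h.p_pos
  have hUx := h.lat.cell_mem hU x
  have hVx := h.lat.cell_mem hV x
  have hEV := h.nonneg _ hVx
  have hEU := h.nonneg _ hUx
  have n1 := h.nc_mem hUx s (s + m)
  have n2 := h.nc_mem hUx (s + w - m) (s + w)
  have hT := h.lat.sub_mem n1 n2
  have e0 : (fun z => V (cell hK x z) + c * trap s w m (U (cell hK x z))) =
      V ∘ cell hK x + c • ((fun z => nc s (s + m) ((U ∘ cell hK x) z)) -
        fun z => nc (s + w - m) (s + w) ((U ∘ cell hK x) z)) := rfl
  have hmem : (fun z => V (cell hK x z) + c * trap s w m (U (cell hK x z))) ∈ A := by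
    rw [e0]
    exact h.lat.add_mem _ hVx _ (h.lat.smul_mem c _ hT)
  split_ifs with hcr
  · rw [e0]
    have a1 := h.subadd _ hVx _ (h.lat.smul_mem c _ hT)
    rw [h.smul _ hT, Real.mul_rpow (by positivity) (h.nonneg _ hT),
      rpow_rpow_one_div hp (abs_nonneg _)] at a1
    have a2 := h.sub_rpow_le n1 n2
    have a3 : E (fun z => nc s (s + m) ((U ∘ cell hK x) z)) ^ (1 / p) ≤
        E (U ∘ cell hK x) ^ (1 / p) :=
      Real.rpow_le_rpow (h.nonneg _ n1) (h.nc_energy hUx _ _) (by positivity)
    have a4 : E (fun z => nc (s + w - m) (s + w) ((U ∘ cell hK x) z)) ^ (1 / p) ≤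
        E (U ∘ cell hK x) ^ (1 / p) :=
      Real.rpow_le_rpow (h.nonneg _ n2) (h.nc_energy hUx _ _) (by positivity)
    have a5 : E (V ∘ cell hK x) ^ (1 / p) ≤ (E (V ∘ cell hK x) + d) ^ (1 / p) :=
      Real.rpow_le_rpow hEV (by linarith) (by positivity)
    have a6 : |c| * E ((fun z => nc s (s + m) ((U ∘ cell hK x) z)) -
        fun z => nc (s + w - m) (s + w) ((U ∘ cell hK x) z)) ^ (1 / p) ≤
        |c| * (E (U ∘ cell hK x) ^ (1 / p) + E (U ∘ cell hK x) ^ (1 / p)) := by
      gcongr
      linarith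
    linarith
  · rw [add_zero]
    refine Real.rpow_le_rpow (h.nonneg _ hmem) ?_ (by positivity)
    push Not at hcr
    obtain ⟨⟨c1, c2⟩, c3, c4⟩ := hcr
    have mp : (V + c • U) ∘ cell hK x ∈ A :=
      h.lat.cell_mem (h.lat.add_mem _ hV _ (h.lat.smul_mem c _ hU)) x
    have mm : (V - c • U) ∘ cell hK x ∈ A :=
      h.lat.cell_mem (h.lat.sub_mem hV (h.lat.smul_mem c _ hU)) x
    -- constant case
    have hconst : ∀ c' : ℝ, (∀ z, trap s w m (U (cell hK x z)) = c') →
        E (fun z => V (cell hK x z) + c * trap s w m (U (cell hK x z))) ≤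
          E (V ∘ cell hK x) + d := by
      intro c' hc'
      have e : (fun z => V (cell hK x z) + c * trap s w m (U (cell hK x z))) =
          fun z => (V ∘ cell hK x) z + c * c' := by
        funext z
        rw [hc' z]
        rfl
      rw [e, h.add_const _ hVx]
      linarith
    rcases not_cross c1 with a | a
    · rcases not_cross c4 with b | b
      · exact hconst 0 fun z => trap_outside hm hw (Or.inr (b z))
      rcases not_cross c2 with a' | a'
      · rcases not_cross c3 with b' | b'
        · -- right slope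
          have e : (fun z => V (cell hK x z) + c * trap s w m (U (cell hK x z))) =
              fun z => ((V - c • U) ∘ cell hK x) z + c * (s + w) := by
            funext z
            simp only [Function.comp_apply, Pi.sub_apply, Pi.smul_apply, smul_eq_mul]
            unfold trap
            rw [nc_of_ge (by linarith) (a' z).le, nc_of_mem (b' z).le (b z).le]
            ring
          rw [e, h.add_const _ mm]
          exact h2
        · exact hconst m fun z => trap_plateau hm (a' z).le (b' z).le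
      · -- left slope
        have e : (fun z => V (cell hK x z) + c * trap s w m (U (cell hK x z))) =
            fun z => ((V + c • U) ∘ cell hK x) z + -(c * s) := by
          funext z
          simp only [Function.comp_apply, Pi.add_apply, Pi.smul_apply, smul_eq_mul]
          unfold trap
          have := a' z
          rw [nc_of_mem (a z).le this.le, nc_of_le (by linarith) (by linarith)]
          ring
        rw [e, h.add_const _ mp]
        exact h1
    · exact hconst 0 fun z => trap_outside hm hw (Or.inl (a z))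

/-- Draining towards the value `a` on a small cell. -/
theorem drain_cell {V : K → ℝ} (hV : V ∈ A) {a R t : ℝ} (hR : 0 ≤ R) (ht : 0 ≤ t) (ht1 : t ≤ 1)
    {x : List (Fin 8)} [Decidable (Cross hK V (a - R) x ∨ Cross hK V (a + R) x)] :
    E (fun z => V (cell hK x z) + t * (a - max (min (V (cell hK x z)) (a + R)) (a - R))) ^ (1 / p) ≤
      E (V ∘ cell hK x) ^ (1 / p) +
      if Cross hK V (a - R) x ∨ Cross hK V (a + R) x then E (V ∘ cell hK x) ^ (1 / p) else 0 := by
  have hp := h.p_pos
  have hVx := h.lat.cell_mem hV x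
  have hEV := h.nonneg _ hVx
  have hc := h.clamp_mem hVx (a - R) (a + R)
  have e0 : (fun z => V (cell hK x z) + t * (a - max (min (V (cell hK x z)) (a + R)) (a - R))) =
      fun z => (V ∘ cell hK x - t • fun z => max (min ((V ∘ cell hK x) z) (a + R)) (a - R)) z +
        t * a := by
    funext z
    simp only [Function.comp_apply, Pi.sub_apply, Pi.smul_apply, smul_eq_mul]
    ring
  have hm := h.lat.sub_mem hVx (h.lat.smul_mem t _ hc)
  split_ifs with hcr
  · rw [e0, h.add_const _ hm]
    refine (h.sub_rpow_le hVx (h.lat.smul_mem t _ hc)).trans ?_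
    rw [h.smul _ hc, Real.mul_rpow (by positivity) (h.nonneg _ hc),
      rpow_rpow_one_div hp (abs_nonneg _), abs_of_nonneg ht]
    have a1 : E (fun z => max (min ((V ∘ cell hK x) z) (a + R)) (a - R)) ^ (1 / p) ≤
        E (V ∘ cell hK x) ^ (1 / p) :=
      Real.rpow_le_rpow (h.nonneg _ hc) (h.clamp_le hVx _ _) (by positivity)
    have a2 : 0 ≤ E (V ∘ cell hK x) ^ (1 / p) := by positivity
    nlinarith [Real.rpow_nonneg (h.nonneg _ hc) (1 / p)]
  · rw [add_zero]
    refine Real.rpow_le_rpow (by rw [e0]; exact h.nonneg _ (h.lat.add_const_mem hm _)) ?_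
      (by positivity)
    push Not at hcr
    obtain ⟨c1, c2⟩ := hcr
    rcases not_cross c1 with b1 | b1
    · rcases not_cross c2 with b2 | b2
      · have e : (fun z => V (cell hK x z) +
            t * (a - max (min (V (cell hK x z)) (a + R)) (a - R))) =
            fun z => (V ∘ cell hK x) z + -(t * R) := by
          funext z
          rw [min_eq_right (b2 z).le, max_eq_left (by linarith)]
          simp only [Function.comp_apply]
          ring
        rw [e, h.add_const _ hVx]
      · have e : (fun z => V (cell hK x z) +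
            t * (a - max (min (V (cell hK x z)) (a + R)) (a - R))) =
            fun z => ((1 - t) • (V ∘ cell hK x)) z + t * a := by
          funext z
          rw [min_eq_left (b2 z).le, max_eq_left (b1 z).le]
          simp only [Function.comp_apply, Pi.smul_apply, smul_eq_mul]
          ring
        rw [e, h.add_const _ (h.lat.smul_mem _ _ hVx), h.smul _ hVx,
          abs_of_nonneg (by linarith)]
        have : (1 - t) ^ p ≤ 1 := Real.rpow_le_one (by linarith) (by linarith) hp.le
        nlinarith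
    · have e : (fun z => V (cell hK x z) +
          t * (a - max (min (V (cell hK x z)) (a + R)) (a - R))) =
          fun z => (V ∘ cell hK x) z + t * R := by
        funext z
        have := b1 z
        rw [min_eq_left (by linarith), max_eq_right (by linarith)]
        simp only [Function.comp_apply]
        ring
      rw [e, h.add_const _ hVx]

end Reg

end Pool.Agent.SierpinskiCarpet
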