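import Pool.Agent.helper33.SRIndex
import Pool.Agent.helper33.SCMain

/-!
# Two regular energies are proportional
-/

open MeasureTheory Filter Topology
open scoped ENNReal

namespace Pool.Agent.SierpinskiCarpet

variable {K : Set (ℝ × ℝ)} {hK : IsCarpet K} {A : Set (K → ℝ)} {p ρ M : ℝ}
  {E E' G : (K → ℝ) → ℝ}

namespace Reg

theorem mass_words' (h : Reg hK p ρ A E) {u v : K → ℝ} (hu : u ∈ A) (hv : v ∈ A) (k : ℕ) :
    mass hK ρ E u v k (words k) = E u + E v := by
  rw [mass, ← Finset.mul_sum, Finset.sum_add_distrib, mul_add, h.sum_words k u hu,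
    h.sum_words k v hv]

theorem sub_sum_words (h : Reg hK p ρ A E) (hG : Sub hK p ρ M A E G) (n : ℕ) :
    ∀ u ∈ A, ρ ^ n * ∑ w ∈ words n, G (u ∘ cell hK w) = G u := by
  induction n with
  | zero =>
    intro u _
    rw [sum_words_zero, pow_zero, one_mul]
    rfl
  | succ n ih =>
    intro u hu
    rw [sum_words_succ]
    have e1 : ∀ i : Fin 8, ρ ^ n * ∑ w ∈ words n, G (u ∘ cell hK (i :: w)) =
        G (u ∘ cellMap hK i) := fun i => ih _ (h.lat.comp_mem u hu i)
    rw [← hG.scaling u hu]
    simp_rw [← e1]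
    rw [← Finset.mul_sum, pow_succ]
    ring

/-- The estimate on a degenerate cell. -/
theorem sub_cell_bound (h : Reg hK p ρ A E) (hG : Sub hK p ρ M A E G) {κ c₀ : ℝ} (hκ : 0 < κ)
    (hc₀ : 0 < c₀)
    (hcont : ∀ x ∈ A, ∀ y ∈ A, ∀ ν : ℝ, E x ≤ ν → E (x + y) ≤ ν → E y ≤ c₀ * ν →
      |G (x + y) - G x| ≤ κ * ν) {f g : K → ℝ} (hf : f ∈ A) (hg : g ∈ A) {b : ℝ} (hb : |b| ≤ 1)
    (hd : E (f + b • g) ≤ c₀ * (E f + E g)) :
    G (f + g) ^ (1 / p) ≤ G f ^ (1 / p) + G g ^ (1 / p) +
      2 * (κ * (2 ^ p * (E f + E g))) ^ (1 / p) := by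
  have hp := h.p_pos
  have hp1 := h.one_lt
  have hEf := h.nonneg f hf
  have hEg := h.nonneg g hg
  set ν := 2 ^ p * (E f + E g) with hν
  have hone : (1 : ℝ) ≤ 2 ^ p := Real.one_le_rpow (by norm_num) hp.le
  have hν1 : E f + E g ≤ ν := by
    have : 0 ≤ E f + E g := by positivity
    rw [hν]
    nlinarith
  have hν0 : 0 ≤ ν := by positivity
  have hbg := h.lat.smul_mem b g hg
  set y := f + b • g with hy
  have hyA : y ∈ A := h.lat.add_mem f hf _ hbg
  have hyE : E y ≤ c₀ * ν := hd.trans (by gcongr)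
  have hr1 : 1 / p ≤ 1 := by rw [div_le_one hp]; exact hp1.le
  have hr0 : 0 ≤ 1 / p := by positivity
  -- first estimate
  have e1 : (1 - b) • g + y = f + g := by
    rw [hy, sub_smul, one_smul]
    abel
  have e2 : (-b) • g + y = f := by
    rw [hy, neg_smul]
    abel
  have hb1 : |1 - b| ≤ 2 := by
    have := abs_sub (1 : ℝ) b
    rw [abs_one] at this
    linarith
  have k1 := hcont _ (h.lat.smul_mem (1 - b) g hg) y hyA ν (by
    rw [h.smul g hg, hν]
    have : |1 - b| ^ p ≤ 2 ^ p := Real.rpow_le_rpow (abs_nonneg _) hb1 hp.le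
    gcongr
    linarith) (by rw [e1]; exact h.add_le hf hg) hyE
  have k2 := hcont _ (h.lat.smul_mem (-b) g hg) y hyA ν (by
    rw [h.smul g hg, abs_neg]
    have : |b| ^ p ≤ 1 := Real.rpow_le_one (abs_nonneg _) hb hp.le
    have : |b| ^ p * E g ≤ 1 * E g := by gcongr
    linarith) (by rw [e2]; linarith) hyE
  rw [e1, hG.smul g hg, abs_le] at k1
  rw [e2, hG.smul g hg, abs_neg, abs_le] at k2
  have hGf := hG.nonneg f hf
  have hGg := hG.nonneg g hg
  have hGfg := hG.nonneg _ (h.lat.add_mem f hf g hg)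
  have k3 : G (f + g) ^ (1 / p) ≤ |1 - b| * G g ^ (1 / p) + (κ * ν) ^ (1 / p) := by
    calc G (f + g) ^ (1 / p) ≤ (|1 - b| ^ p * G g + κ * ν) ^ (1 / p) := by
          refine Real.rpow_le_rpow hGfg (by linarith) hr0
      _ ≤ (|1 - b| ^ p * G g) ^ (1 / p) + (κ * ν) ^ (1 / p) :=
          rpow_add_le_of_le_one (by positivity) (by positivity) hr0 hr1
      _ = |1 - b| * G g ^ (1 / p) + (κ * ν) ^ (1 / p) := by
          rw [Real.mul_rpow (by positivity) hGg, rpow_rpow_one_div hp (abs_nonneg _)]
  have k4 : |b| * G g ^ (1 / p) ≤ G f ^ (1 / p) + (κ * ν) ^ (1 / p) := by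
    calc |b| * G g ^ (1 / p) = (|b| ^ p * G g) ^ (1 / p) := by
          rw [Real.mul_rpow (by positivity) hGg, rpow_rpow_one_div hp (abs_nonneg _)]
      _ ≤ (G f + κ * ν) ^ (1 / p) := Real.rpow_le_rpow (by positivity) (by linarith) hr0
      _ ≤ G f ^ (1 / p) + (κ * ν) ^ (1 / p) :=
          rpow_add_le_of_le_one hGf (by positivity) hr0 hr1
  have k5 : |1 - b| * G g ^ (1 / p) ≤ (1 + |b|) * G g ^ (1 / p) := by
    have := abs_sub (1 : ℝ) b
    rw [abs_one] at this
    gcongr
  linarith

open Classical in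
/-- The main consequence of the index one property. -/
theorem sub_subadd (h : Reg hK p ρ A E) (hG : Sub hK p ρ M A E G) {f g : K → ℝ} (hf : f ∈ A)
    (hg : g ∈ A) : G (f + g) ^ (1 / p) ≤ G f ^ (1 / p) + G g ^ (1 / p) := by
  have hp := h.p_pos
  have hp1 := h.one_lt
  have hρ := h.rho_pos
  have hM := hG.const_nonneg
  have hEf := h.nonneg f hf
  have hEg := h.nonneg g hg
  have hfg := h.lat.add_mem f hf g hg
  set D : ℝ := M * 2 ^ p + 2 ^ p * 2 ^ p * (E f + E g) with hD
  have hD0 : 0 ≤ D := by positivity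
  refine le_of_forall_pos_le_add fun ε hε => ?_
  set κ : ℝ := ε ^ p / (D + 1) with hκdef
  have hκ : 0 < κ := by positivity
  obtain ⟨c₀, hc₀, hcont⟩ := hG.cont κ hκ
  obtain ⟨n, hn⟩ := h.index_one hf hg hc₀ hκ
  set S := (words n).filter (fun w => ∀ a : ℝ × ℝ, max |a.1| |a.2| = 1 →
      c₀ * (E (f ∘ cell hK w) + E (g ∘ cell hK w)) ≤
        E (lin a (f ∘ cell hK w) (g ∘ cell hK w))) with hS
  have hSm := hn S (Finset.filter_subset _ _) fun w hw => (Finset.mem_filter.1 hw).2
  set ν : List (Fin 8) → ℝ := fun w => E (f ∘ cell hK w) + E (g ∘ cell hK w) with hν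
  have hν0 : ∀ w, 0 ≤ ν w := fun w =>
    add_nonneg (h.nonneg _ (h.lat.cell_mem hf w)) (h.nonneg _ (h.lat.cell_mem hg w))
  set coef : List (Fin 8) → ℝ := fun w => if w ∈ S then M * 2 ^ p else 2 ^ p * (κ * 2 ^ p)
    with hcoef
  have hcoef0 : ∀ w, 0 ≤ coef w := fun w => by
    simp only [hcoef]
    split_ifs <;> positivity
  have hcell : ∀ w ∈ words n, G ((f + g) ∘ cell hK w) ^ (1 / p) ≤
      G (f ∘ cell hK w) ^ (1 / p) + G (g ∘ cell hK w) ^ (1 / p) +
        (coef w * ν w) ^ (1 / p) := by
    intro w hw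
    have hfw := h.lat.cell_mem hf w
    have hgw := h.lat.cell_mem hg w
    have hfgw := h.lat.cell_mem hfg w
    have hGf := hG.nonneg _ hfw
    have hGg := hG.nonneg _ hgw
    have hν0w := hν0 w
    by_cases hwS : w ∈ S
    · have e1 : coef w = M * 2 ^ p := by simp only [hcoef, if_pos hwS]
      have h1 : G ((f + g) ∘ cell hK w) ^ (1 / p) ≤ (coef w * ν w) ^ (1 / p) := by
        refine Real.rpow_le_rpow (hG.nonneg _ hfgw) ?_ (by positivity)
        rw [e1]
        calc G ((f + g) ∘ cell hK w) ≤ M * E ((f + g) ∘ cell hK w) := hG.le _ hfgw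
          _ ≤ M * (2 ^ p * ν w) := by
            gcongr
            exact h.add_le hfw hgw
          _ = M * 2 ^ p * ν w := by ring
      have h2 : 0 ≤ G (f ∘ cell hK w) ^ (1 / p) := by positivity
      have h3 : 0 ≤ G (g ∘ cell hK w) ^ (1 / p) := by positivity
      linarith
    · have e1 : coef w = 2 ^ p * (κ * 2 ^ p) := by simp only [hcoef, if_neg hwS]
      have e2 : (coef w * ν w) ^ (1 / p) = 2 * (κ * (2 ^ p * ν w)) ^ (1 / p) := by
        rw [e1, mul_assoc, Real.mul_rpow (by positivity) (by positivity),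
          rpow_rpow_one_div hp (by norm_num), mul_assoc]
      rw [e2]
      have hnd : ∃ a : ℝ × ℝ, max |a.1| |a.2| = 1 ∧
          E (lin a (f ∘ cell hK w) (g ∘ cell hK w)) < c₀ * ν w := by
        by_contra hcon
        push Not at hcon
        exact hwS (Finset.mem_filter.2 ⟨hw, hcon⟩)
      obtain ⟨a, ha, haE⟩ := hnd
      rcases le_total |a.2| |a.1| with hle | hle
      · rw [max_eq_left hle] at ha
        have hane : a.1 ≠ 0 := by
          intro h0
          rw [h0, abs_zero] at ha
          norm_num at ha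
        have e3 : lin a (f ∘ cell hK w) (g ∘ cell hK w) =
            a.1 • (f ∘ cell hK w + (a.2 / a.1) • (g ∘ cell hK w)) := by
          rw [lin, smul_add, smul_smul, mul_div_cancel₀ _ hane]
        have e4 := h.smul _ (h.lat.add_mem _ hfw _ (h.lat.smul_mem (a.2 / a.1) _ hgw)) a.1
        rw [← e3, ha, Real.one_rpow, one_mul] at e4
        have e7 : E (f ∘ cell hK w + (a.2 / a.1) • (g ∘ cell hK w)) ≤ c₀ * ν w := by
          rw [← e4]
          exact haE.le
        exact h.sub_cell_bound hG hκ hc₀ hcont hfw hgw (b := a.2 / a.1)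
          (by rw [abs_div, ha, div_one, ← ha]; exact hle) e7
      · rw [max_eq_right hle] at ha
        have hane : a.2 ≠ 0 := by
          intro h0
          rw [h0, abs_zero] at ha
          norm_num at ha
        have e3 : lin a (f ∘ cell hK w) (g ∘ cell hK w) =
            a.2 • (g ∘ cell hK w + (a.1 / a.2) • (f ∘ cell hK w)) := by
          rw [lin, smul_add, smul_smul, mul_div_cancel₀ _ hane, add_comm]
        have e4 := h.smul _ (h.lat.add_mem _ hgw _ (h.lat.smul_mem (a.1 / a.2) _ hfw)) a.2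
        rw [← e3, ha, Real.one_rpow, one_mul] at e4
        have e7 : E (g ∘ cell hK w + (a.1 / a.2) • (f ∘ cell hK w)) ≤
            c₀ * (E (g ∘ cell hK w) + E (f ∘ cell hK w)) := by
          rw [← e4, add_comm (E (g ∘ cell hK w))]
          exact haE.le
        have e5 := h.sub_cell_bound hG hκ hc₀ hcont hgw hfw (b := a.1 / a.2)
          (by rw [abs_div, ha, div_one, ← ha]; exact hle) e7
        have e6 : (f + g) ∘ cell hK w = g ∘ cell hK w + f ∘ cell hK w := by
          funext x
          simp only [Function.comp_apply, Pi.add_apply]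
          ring
        rw [e6]
        simp only [hν]
        rw [add_comm (E (f ∘ cell hK w))]
        linarith
  -- Minkowski
  have hρn : 0 < ρ ^ n := by positivity
  set x : List (Fin 8) → ℝ := fun w => (ρ ^ n * G (f ∘ cell hK w)) ^ (1 / p) with hx
  set y : List (Fin 8) → ℝ := fun w => (ρ ^ n * G (g ∘ cell hK w)) ^ (1 / p) with hy
  set z : List (Fin 8) → ℝ := fun w => (ρ ^ n * (coef w * ν w)) ^ (1 / p) with hz
  have hx0 : ∀ w, 0 ≤ x w := fun w => by
    have := hG.nonneg _ (h.lat.cell_mem hf w)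
    positivity
  have hy0 : ∀ w, 0 ≤ y w := fun w => by
    have := hG.nonneg _ (h.lat.cell_mem hg w)
    positivity
  have hz0 : ∀ w, 0 ≤ z w := fun w => by
    have := hcoef0 w
    have := hν0 w
    positivity
  have hxp : ∑ w ∈ words n, x w ^ p = G f := by
    rw [← h.sub_sum_words hG n f hf, Finset.mul_sum]
    refine Finset.sum_congr rfl fun w _ => ?_
    exact rpow_one_div_rpow hp (mul_nonneg hρn.le (hG.nonneg _ (h.lat.cell_mem hf w)))
  have hyp : ∑ w ∈ words n, y w ^ p = G g := by
    rw [← h.sub_sum_words hG n g hg, Finset.mul_sum]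
    refine Finset.sum_congr rfl fun w _ => ?_
    exact rpow_one_div_rpow hp (mul_nonneg hρn.le (hG.nonneg _ (h.lat.cell_mem hg w)))
  have hzp : ∑ w ∈ words n, z w ^ p ≤ κ * D := by
    have e1 : ∀ w ∈ words n, z w ^ p ≤
        (if w ∈ S then M * 2 ^ p * (ρ ^ n * ν w) else 0) + κ * (2 ^ p * 2 ^ p) * (ρ ^ n * ν w) := by
      intro w _
      have h1 := hν0 w
      rw [hz]
      simp only
      rw [rpow_one_div_rpow hp (mul_nonneg hρn.le (mul_nonneg (hcoef0 w) h1))]
      simp only [hcoef]
      split_ifs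
      · have : 0 ≤ κ * (2 ^ p * 2 ^ p) * (ρ ^ n * ν w) := by positivity
        linarith
      · linarith
    refine (Finset.sum_le_sum e1).trans ?_
    have hSsub : S ⊆ words n := Finset.filter_subset _ _
    rw [Finset.sum_add_distrib, Finset.sum_ite_mem, Finset.inter_eq_right.2 hSsub]
    have e2 : ∑ w ∈ S, M * 2 ^ p * (ρ ^ n * ν w) = M * 2 ^ p * mass hK ρ E f g n S := by
      rw [mass, Finset.mul_sum]
    have e3 : ∑ w ∈ words n, κ * (2 ^ p * 2 ^ p) * (ρ ^ n * ν w) =
        κ * (2 ^ p * 2 ^ p) * (E f + E g) := by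
      rw [← h.mass_words' hf hg n, mass, Finset.mul_sum]
    rw [e2, e3, hD]
    have : M * 2 ^ p * mass hK ρ E f g n S ≤ M * 2 ^ p * κ := by gcongr
    linarith
  have hsum : ∀ w ∈ words n, (ρ ^ n * G ((f + g) ∘ cell hK w)) ^ (1 / p) ≤ x w + y w + z w := by
    intro w hw
    have h1 := hcell w hw
    simp only [hx, hy, hz]
    rw [Real.mul_rpow hρn.le (hG.nonneg _ (h.lat.cell_mem hfg w)),
      Real.mul_rpow hρn.le (hG.nonneg _ (h.lat.cell_mem hf w)),
      Real.mul_rpow hρn.le (hG.nonneg _ (h.lat.cell_mem hg w)),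
      Real.mul_rpow hρn.le (mul_nonneg (hcoef0 w) (hν0 w)), ← mul_add, ← mul_add]
    gcongr
  have hfin : G (f + g) ≤ ∑ w ∈ words n, (x w + y w + z w) ^ p := by
    rw [← h.sub_sum_words hG n _ hfg, Finset.mul_sum]
    refine Finset.sum_le_sum fun w hw => ?_
    have h1 := hG.nonneg _ (h.lat.cell_mem hfg w)
    rw [← rpow_one_div_rpow hp (show 0 ≤ ρ ^ n * G ((f + g) ∘ cell hK w) by positivity)]
    exact Real.rpow_le_rpow (by positivity) (hsum w hw) hp.le
  have hmink := Real.Lp_add_le_of_nonneg (s := words n) (f := fun w => x w + y w) (g := z) hp1.le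
    (fun w _ => add_nonneg (hx0 w) (hy0 w)) (fun w _ => hz0 w)
  have hmink2 := Real.Lp_add_le_of_nonneg (s := words n) (f := x) (g := y) hp1.le
    (fun w _ => hx0 w) (fun w _ => hy0 w)
  rw [hxp, hyp] at hmink2
  have hG0 := hG.nonneg _ hfg
  have h1 : G (f + g) ^ (1 / p) ≤ (∑ w ∈ words n, (x w + y w + z w) ^ p) ^ (1 / p) :=
    Real.rpow_le_rpow hG0 hfin (by positivity)
  have h2 : (∑ w ∈ words n, z w ^ p) ^ (1 / p) ≤ ε := by
    calc (∑ w ∈ words n, z w ^ p) ^ (1 / p) ≤ (ε ^ p) ^ (1 / p) := by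
          refine Real.rpow_le_rpow (Finset.sum_nonneg fun w _ => by
            have := hz0 w
            positivity) (hzp.trans ?_) (by positivity)
          rw [hκdef, div_mul_eq_mul_div, div_le_iff₀ (by positivity)]
          have : 0 < ε ^ p := by positivity
          nlinarith
      _ = ε := rpow_rpow_one_div hp hε.le
  linarith

/-- The energy is local. -/
theorem energy_split (h : Reg hK p ρ A E) {u : K → ℝ} (hu : u ∈ A) (s : ℝ) :
    E u = E (fun x => min (u x) s) + E (fun x => max (u x) s) := by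
  classical
  have hρ := h.rho_pos
  have hmin := h.lat.min_mem hu (h.lat.const_mem s)
  have hmax := h.lat.max_mem hu (h.lat.const_mem s)
  have key : ∀ κ > 0, |E u - E (fun x => min (u x) s) - E (fun x => max (u x) s)| ≤ κ := by
    intro κ hκ
    obtain ⟨k, hk⟩ := h.sum_cross hu s hκ
    have h1 := hk k le_rfl ((words k).filter fun x => Cross hK u s x) (Finset.filter_subset _ _)
      fun x hx => (Finset.mem_filter.1 hx).2
    rw [← h.sum_words k u hu, ← h.sum_words k _ hmin, ← h.sum_words k _ hmax, ← mul_sub, ← mul_sub,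
      ← Finset.sum_sub_distrib, ← Finset.sum_sub_distrib, abs_mul, abs_of_nonneg (by positivity)]
    refine le_trans ?_ h1
    gcongr
    rw [Finset.sum_filter]
    refine (Finset.abs_sum_le_sum_abs _ _).trans (Finset.sum_le_sum fun x _ => ?_)
    have hux := h.lat.cell_mem hu x
    have n1 := h.nonneg _ (h.lat.cell_mem hmin x)
    have n2 := h.nonneg _ (h.lat.cell_mem hmax x)
    have c1 : E ((fun x => min (u x) s) ∘ cell hK x) ≤ E (u ∘ cell hK x) := h.cut _ hux s
    have c2 : E ((fun x => max (u x) s) ∘ cell hK x) ≤ E (u ∘ cell hK x) := h.cut' hux s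
    split_ifs with hc
    · rw [abs_le]
      constructor <;> linarith
    · rcases not_cross hc with a | a
      · have e1 : (fun x => min (u x) s) ∘ cell hK x = fun _ => s := by
          funext z
          exact min_eq_right (a z).le
        have e2 : (fun x => max (u x) s) ∘ cell hK x = u ∘ cell hK x := by
          funext z
          exact max_eq_left (a z).le
        rw [e1, e2, h.energy_const]
        simp
      · have e1 : (fun x => min (u x) s) ∘ cell hK x = u ∘ cell hK x := by
          funext z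
          exact min_eq_left (a z).le
        have e2 : (fun x => max (u x) s) ∘ cell hK x = fun _ => s := by
          funext z
          exact max_eq_right (a z).le
        rw [e1, e2, h.energy_const]
        simp
  have h0 : |E u - E (fun x => min (u x) s) - E (fun x => max (u x) s)| = 0 :=
    le_antisymm (le_of_forall_pos_le_add fun ε hε => by rw [zero_add]; exact key ε hε)
      (abs_nonneg _)
  have := abs_eq_zero.1 h0
  linarith

/-- The difference of the energy `E'` and a multiple of a comparable energy `E`. -/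
theorem sub_of_reg (h : Reg hK p ρ A E) (h' : Reg hK p ρ A E') {c M : ℝ} (hc : 0 ≤ c) (hM : 0 ≤ M)
    (hle : ∀ u ∈ A, E' u ≤ M * E u) (hge : ∀ u ∈ A, c * E u ≤ E' u) :
    Sub hK p ρ M A E (fun u => E' u - c * E u) := by
  refine ⟨hM, fun u hu => by have := hge u hu; linarith, fun u hu => by
    have := hle u hu
    have := mul_nonneg hc (h.nonneg u hu)
    linarith, fun u hu a => by
    simp only [h.add_const u hu a, h'.add_const u hu a], fun u hu a => by
    simp only [h.smul u hu a, h'.smul u hu a]; ring, fun u hu => by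
    simp only [h.reflX u hu, h'.reflX u hu], fun u hu => by
    simp only [h.reflY u hu, h'.reflY u hu], fun u hu => by
    simp only [h.swap u hu, h'.swap u hu], fun u hu => ?_, fun κ hκ => ?_⟩
  · simp only [Finset.sum_sub_distrib, ← Finset.mul_sum]
    have h1 := h.scaling u hu
    have h2 := h'.scaling u hu
    rw [mul_sub, h2, ← h1]
    ring
  · obtain ⟨c₁, hc₁, h1⟩ := h.toPre.cont (show 0 < κ / (2 * (c + 1)) by positivity)
    obtain ⟨c₂, hc₂, h2⟩ := h'.toPre.cont (show 0 < κ / (2 * (M + 1)) by positivity)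
    refine ⟨min c₁ c₂, lt_min hc₁ hc₂, fun x hx y hy ν hxν hxyν hyν => ?_⟩
    have hxy := h.lat.add_mem x hx y hy
    have hν0 : 0 ≤ ν := (h.nonneg x hx).trans hxν
    have hbound : ∀ g ∈ A, E g ≤ ν → E' g ≤ (M + 1) * ν := fun g hg hgν => by
      have := hle g hg
      have : M * E g ≤ M * ν := by gcongr
      linarith
    have k1 := h1 x hx y hy ν hxν hxyν (hyν.trans (by gcongr; exact min_le_left _ _))
    have k2 := h2 x hx y hy ((M + 1) * ν) (hbound x hx hxν) (hbound _ hxy hxyν) (by
      have e1 := hle y hy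
      have e2 : E y ≤ c₂ * ν := hyν.trans (by gcongr; exact min_le_right _ _)
      have e3 : M * E y ≤ M * (c₂ * ν) := by gcongr
      have e4 : 0 ≤ c₂ * ν := by positivity
      linarith)
    have e5 : E' (x + y) - c * E (x + y) - (E' x - c * E x) =
        (E' (x + y) - E' x) - c * (E (x + y) - E x) := by ring
    rw [e5]
    refine (abs_sub _ _).trans ?_
    rw [abs_mul, abs_of_nonneg hc]
    have k3 : κ / (2 * (M + 1)) * ((M + 1) * ν) = κ / 2 * ν := by field_simp
    rw [k3] at k2
    have k4 : c * |E (x + y) - E x| ≤ (c + 1) * (κ / (2 * (c + 1)) * ν) := by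
      have : c * |E (x + y) - E x| ≤ (c + 1) * |E (x + y) - E x| := by
        gcongr
        linarith
      refine this.trans ?_
      gcongr
    have k5 : (c + 1) * (κ / (2 * (c + 1)) * ν) = κ / 2 * ν := by field_simp
    linarith

theorem ccmp_pos (h : Reg hK p ρ A E) : 0 < ccmp p ρ := by
  have := h.cadj_pos
  unfold ccmp
  positivity

/-- The perturbed difference is again a regular energy. -/
theorem reg_perturb (h : Reg hK p ρ A E) (h' : Reg hK p ρ A E') {c M ε : ℝ} (hc : 0 ≤ c)
    (hM : 0 ≤ M) (hle : ∀ u ∈ A, E' u ≤ M * E u) (hge : ∀ u ∈ A, c * E u ≤ E' u) (hε : 0 < ε) :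
    Reg hK p ρ A (fun u => E' u - c * E u + ε * E u) := by
  have hG := h.sub_of_reg h' hc hM hle hge
  have hp := h.p_pos
  have hp1 := h.one_lt
  have hsub : ∀ u ∈ A, ∀ v ∈ A, (E' (u + v) - c * E (u + v) + ε * E (u + v)) ^ (1 / p) ≤
      (E' u - c * E u + ε * E u) ^ (1 / p) + (E' v - c * E v + ε * E v) ^ (1 / p) := by
    intro u hu v hv
    have huv := h.lat.add_mem u hu v hv
    have a1 := hG.nonneg u hu
    have a2 := hG.nonneg v hv
    have a3 := hG.nonneg _ huv
    have b1 := h.nonneg u hu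
    have b2 := h.nonneg v hv
    have b3 := h.nonneg _ huv
    have s1 := h.sub_subadd hG hu hv
    have s2 : (ε * E (u + v)) ^ (1 / p) ≤ (ε * E u) ^ (1 / p) + (ε * E v) ^ (1 / p) := by
      rw [Real.mul_rpow hε.le b1, Real.mul_rpow hε.le b2, Real.mul_rpow hε.le b3, ← mul_add]
      gcongr
      exact h.subadd u hu v hv
    have key := minkowski hp1.le (Finset.univ : Finset (Fin 2))
      ![E' (u + v) - c * E (u + v), ε * E (u + v)] ![E' u - c * E u, ε * E u]
      ![E' v - c * E v, ε * E v]
      (fun i _ => by fin_cases i; exacts [a3, mul_nonneg hε.le b3])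
      (fun i _ => by fin_cases i; exacts [a1, mul_nonneg hε.le b1])
      (fun i _ => by fin_cases i; exacts [a2, mul_nonneg hε.le b2])
      (fun i _ => by fin_cases i; exacts [s1, s2])
    simpa [Fin.sum_univ_two] using key
  refine ⟨⟨h.lat, hp1, h.rho_pos, fun u hu => ?_, fun u hu a => ?_, fun u hu a => ?_, hsub,
    fun u hu => ?_⟩, h.three_le, fun u hu => ?_, fun u hu => ?_, fun u hu => ?_,
    fun u hu s => ?_, fun u hu L hL v hv => ?_, h.crossing, ?_⟩
  · have e1 : 0 ≤ E' u - c * E u := hG.nonneg u hu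
    have e2 := mul_nonneg hε.le (h.nonneg u hu)
    change 0 ≤ E' u - c * E u + ε * E u
    linarith
  · simp only [h.add_const u hu a, h'.add_const u hu a]
  · simp only [h.smul u hu a, h'.smul u hu a]
    ring
  · simp only [Finset.sum_sub_distrib, Finset.sum_add_distrib, ← Finset.mul_sum]
    have h1 := h.scaling u hu
    have h2 := h'.scaling u hu
    rw [mul_add, mul_sub, h2]
    calc E' u - ρ * (c * ∑ i, E (u ∘ cellMap hK i)) + ρ * (ε * ∑ i, E (u ∘ cellMap hK i)) =
        E' u - c * (ρ * ∑ i, E (u ∘ cellMap hK i)) + ε * (ρ * ∑ i, E (u ∘ cellMap hK i)) := by ring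
      _ = _ := by rw [h1]
  · simp only [h.reflX u hu, h'.reflX u hu]
  · simp only [h.reflY u hu, h'.reflY u hu]
  · simp only [h.swap u hu, h'.swap u hu]
  · have hmin := h.lat.min_mem hu (h.lat.const_mem s)
    have hmax := h.lat.max_mem hu (h.lat.const_mem s)
    have e1 := h.energy_split hu s
    have e2 := h'.energy_split hu s
    have e3 : 0 ≤ E' (fun x => max (u x) s) - c * E (fun x => max (u x) s) := hG.nonneg _ hmax
    have e4 := mul_le_mul_of_nonneg_left (h.cut u hu s) hε.le
    change E' (fun x => min (u x) s) - c * E (fun x => min (u x) s) +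
      ε * E (fun x => min (u x) s) ≤ E' u - c * E u + ε * E u
    have e5 : c * E u = c * E (fun x => min (u x) s) + c * E (fun x => max (u x) s) := by
      rw [e1, mul_add]
    linarith
  · have hLn : ∀ n, E (u n) ≤ L / ε := fun n => by
      rw [le_div_iff₀ hε]
      have e1 : 0 ≤ E' (u n) - c * E (u n) := hG.nonneg _ (hu n)
      have e2 : E' (u n) - c * E (u n) + ε * E (u n) ≤ L := hL n
      linarith
    obtain ⟨hvA, y, hy, hlim⟩ := h.closed u hu (L / ε) hLn v hv
    refine ⟨hvA, y, hy, ?_⟩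
    have hup : Tendsto (fun n => (M + ε) * E (y n - v)) atTop (𝓝 0) := by
      have := hlim.const_mul (M + ε)
      rwa [mul_zero] at this
    refine squeeze_zero (fun n => ?_) (fun n => ?_) hup
    · have hd := h.lat.sub_mem (hy n).1 hvA
      have e1 : 0 ≤ E' (y n - v) - c * E (y n - v) := hG.nonneg _ hd
      have e2 := mul_nonneg hε.le (h.nonneg _ hd)
      change 0 ≤ E' (y n - v) - c * E (y n - v) + ε * E (y n - v)
      linarith
    · have hd := h.lat.sub_mem (hy n).1 hvA
      have e1 : E' (y n - v) - c * E (y n - v) ≤ M * E (y n - v) := hG.le _ hd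
      change E' (y n - v) - c * E (y n - v) + ε * E (y n - v) ≤ (M + ε) * E (y n - v)
      linarith
  · obtain ⟨c', hc', hb⟩ := h.cross_pos
    refine ⟨ε * c', by positivity, fun u hu hcr => ?_⟩
    have e1 := mul_le_mul_of_nonneg_left (hb u hu hcr) hε.le
    have e2 : 0 ≤ E' u - c * E u := hG.nonneg u hu
    change ε * c' ≤ E' u - c * E u + ε * E u
    linarith

/-- Two regular energies with the same scaling factor and the same domain are proportional. -/
theorem proportional (h : Reg hK p ρ A E) (h' : Reg hK p ρ A E') :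
    ∃ c : ℝ, 0 < c ∧ ∀ u ∈ A, E' u = c * E u := by
  have hCC := h.ccmp_pos
  have c1 := h.crc_pos
  have c2 := h'.crc_pos
  set C := ccmp p ρ with hC
  set M := C * (crc A E' / crc A E) with hM
  set N := C * (crc A E / crc A E') with hN
  have hM0 : 0 < M := by positivity
  have hN0 : 0 < N := by positivity
  have hle : ∀ u ∈ A, E' u ≤ M * E u := fun u hu => (h.mem_and_le h' hu).2
  have hle' : ∀ u ∈ A, E u ≤ N * E' u := fun u hu => (h'.mem_and_le h hu).2
  obtain ⟨f₀, hf₀, hcr⟩ := h.crossing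
  have hE₀ : 0 < E f₀ := lt_of_lt_of_le c1 (h.crc_le hf₀ hcr)
  set S : Set ℝ := {c | ∀ u ∈ A, c * E u ≤ E' u} with hS
  have hSN : 1 / N ∈ S := fun u hu => by
    have := hle' u hu
    rw [div_mul_eq_mul_div, one_mul, div_le_iff₀ hN0]
    linarith
  have hSb : BddAbove S := ⟨E' f₀ / E f₀, fun c hc => by
    rw [le_div_iff₀ hE₀]
    exact hc f₀ hf₀⟩
  set m := sSup S with hm
  have hmN : 1 / N ≤ m := le_csSup hSb hSN
  have hm0 : 0 < m := lt_of_lt_of_le (by positivity) hmN
  have hmS : ∀ u ∈ A, m * E u ≤ E' u := by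
    intro u hu
    have hEu := h.nonneg u hu
    rcases hEu.eq_or_lt with h0 | h0
    · rw [← h0, mul_zero]
      exact h'.nonneg u hu
    · rw [← le_div_iff₀ h0]
      refine csSup_le ⟨_, hSN⟩ fun c hc => ?_
      rw [le_div_iff₀ h0]
      exact hc u hu
  refine ⟨m, hm0, fun u hu => le_antisymm ?_ (hmS u hu)⟩
  have hEu := h.nonneg u hu
  refine le_of_forall_pos_le_add fun δ hδ => ?_
  set ε : ℝ := δ / (C * C * E u + 1) with hε
  have hε0 : 0 < ε := by positivity
  have hR := h.reg_perturb h' hm0.le hM0.le hle hmS hε0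
  set Eε : (K → ℝ) → ℝ := fun u => E' u - m * E u + ε * E u with hEε
  have c3 := hR.crc_pos
  set a := crc A Eε with ha
  set b := crc A E with hb
  have k1 : ∀ f ∈ A, E f ≤ C * (b / a) * Eε f := fun f hf => (hR.mem_and_le h hf).2
  have k2 : Eε u ≤ C * (a / b) * E u := (h.mem_and_le hR hu).2
  have hmem : a / (b * C) + m - ε ∈ S := by
    intro f hf
    have h1 := k1 f hf
    have h2 : a / (b * C) * E f ≤ Eε f := by
      calc a / (b * C) * E f ≤ a / (b * C) * (C * (b / a) * Eε f) := by gcongr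
        _ = Eε f := by field_simp
    simp only [hEε] at h2
    linarith
  have h3 : a / (b * C) + m - ε ≤ m := le_csSup hSb hmem
  have h4 : a / b ≤ C * ε := by
    have e : a / b = C * (a / (b * C)) := by field_simp
    rw [e]
    gcongr
    linarith
  have h5 : Eε u ≤ C * (C * ε) * E u := k2.trans (by gcongr)
  have h6 : C * (C * ε) * E u ≤ δ := by
    rw [hε]
    have e : C * (C * (δ / (C * C * E u + 1))) * E u = δ * (C * C * E u) / (C * C * E u + 1) := by
      ring
    rw [e, div_le_iff₀ (by positivity)]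
    nlinarith
  have h7 : 0 ≤ ε * E u := by positivity
  simp only [hEε] at h5
  linarith

end Reg

end Pool.Agent.SierpinskiCarpet
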