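import Pool.Agent.helper33.SRReg

/-!
# Crossing values
-/

open MeasureTheory Filter Topology

namespace Pool.Agent.SierpinskiCarpet

variable {K : Set (ℝ × ℝ)} {hK : IsCarpet K} {A : Set (K → ℝ)} {p ρ : ℝ} {E : (K → ℝ) → ℝ}

section Cross

/-- `S` contains a continuum joining the left side with the right side. -/
def CrossH (S : Set K) : Prop :=
  ∃ C ⊆ S, IsClosed C ∧ IsPreconnected C ∧ (∃ x ∈ C, x.1.1 = -1) ∧ ∃ x ∈ C, x.1.1 = 1

/-- `S` contains a continuum joining the bottom side with the top side. -/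
def CrossV (S : Set K) : Prop :=
  ∃ C ⊆ S, IsClosed C ∧ IsPreconnected C ∧ (∃ x ∈ C, x.1.2 = -1) ∧ ∃ x ∈ C, x.1.2 = 1

theorem CrossH.mono {S T : Set K} (h : CrossH S) (hST : S ⊆ T) : CrossH T := by
  obtain ⟨C, hC, h'⟩ := h
  exact ⟨C, hC.trans hST, h'⟩

theorem CrossV.mono {S T : Set K} (h : CrossV S) (hST : S ⊆ T) : CrossV T := by
  obtain ⟨C, hC, h'⟩ := h
  exact ⟨C, hC.trans hST, h'⟩

theorem cross_inter (hK : IsCarpet K) {S T : Set K} (hS : CrossH S) (hT : CrossV T) :
    (S ∩ T).Nonempty := by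
  have := hK.instCompact
  obtain ⟨C, hCS, hCc, hCp, ⟨x, hx, hx1⟩, x', hx', hx1'⟩ := hS
  obtain ⟨D, hDT, hDc, hDp, ⟨y, hy, hy1⟩, y', hy', hy1'⟩ := hT
  obtain ⟨z, ⟨z₁, hz1, rfl⟩, z₂, hz2, hz⟩ := crossing_lemma (C := Subtype.val '' C)
    (D := Subtype.val '' D) (hCc.isCompact.image continuous_subtype_val)
    (hDc.isCompact.image continuous_subtype_val)
    (hCp.image _ continuous_subtype_val.continuousOn)
    (hDp.image _ continuous_subtype_val.continuousOn)
    (by rintro _ ⟨z, -, rfl⟩; exact ⟨abs_fst_le hK z, abs_snd_le hK z⟩)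
    (by rintro _ ⟨z, -, rfl⟩; exact ⟨abs_fst_le hK z, abs_snd_le hK z⟩)
    ⟨x.1, ⟨x, hx, rfl⟩, hx1⟩ ⟨x'.1, ⟨x', hx', rfl⟩, hx1'⟩
    ⟨y.1, ⟨y, hy, rfl⟩, hy1⟩ ⟨y'.1, ⟨y', hy', rfl⟩, hy1'⟩
  have : z₂ = z₁ := Subtype.ext hz
  subst this
  exact ⟨z₂, hCS hz1, hDT hz2⟩

theorem preconnected_preimage {T : K → K} (hT : Continuous T) (hTT : ∀ z, T (T z) = z) {C : Set K}
    (hC : IsPreconnected C) : IsPreconnected (T ⁻¹' C) := by
  rw [← Set.image_eq_preimage_of_inverse (g := T) (f := T) hTT hTT]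
  exact hC.image _ hT.continuousOn

theorem CrossH.reflX {S : Set K} (h : CrossH S) : CrossH (reflX hK ⁻¹' S) := by
  obtain ⟨C, hC, hc, hp, ⟨x, hx, hx1⟩, y, hy, hy1⟩ := h
  refine ⟨_, Set.preimage_mono hC, hc.preimage (continuous_reflX hK),
    preconnected_preimage (continuous_reflX hK) (reflX_reflX hK) hp,
    ⟨SierpinskiCarpet.reflX hK y, ?_, ?_⟩, SierpinskiCarpet.reflX hK x, ?_, ?_⟩
  · rwa [Set.mem_preimage, reflX_reflX]
  · simp [SierpinskiCarpet.reflX, hy1]
  · rwa [Set.mem_preimage, reflX_reflX]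
  · simp [SierpinskiCarpet.reflX, hx1]

theorem CrossH.reflY {S : Set K} (h : CrossH S) : CrossH (reflY hK ⁻¹' S) := by
  obtain ⟨C, hC, hc, hp, ⟨x, hx, hx1⟩, y, hy, hy1⟩ := h
  refine ⟨_, Set.preimage_mono hC, hc.preimage (continuous_reflY hK),
    preconnected_preimage (continuous_reflY hK) (reflY_reflY hK) hp,
    ⟨SierpinskiCarpet.reflY hK x, ?_, ?_⟩, SierpinskiCarpet.reflY hK y, ?_, ?_⟩
  · rwa [Set.mem_preimage, reflY_reflY]
  · simp [SierpinskiCarpet.reflY, hx1]
  · rwa [Set.mem_preimage, reflY_reflY]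
  · simp [SierpinskiCarpet.reflY, hy1]

theorem CrossH.swap {S : Set K} (h : CrossH S) : CrossV (swapXY hK ⁻¹' S) := by
  obtain ⟨C, hC, hc, hp, ⟨x, hx, hx1⟩, y, hy, hy1⟩ := h
  exact ⟨_, Set.preimage_mono hC, hc.preimage (continuous_swapXY hK),
    preconnected_preimage (continuous_swapXY hK) (swapXY_swapXY hK) hp,
    ⟨swapXY hK x, hx, hx1⟩, swapXY hK y, hy, hy1⟩

theorem CrossV.swap {S : Set K} (h : CrossV S) : CrossH (swapXY hK ⁻¹' S) := by
  obtain ⟨C, hC, hc, hp, ⟨x, hx, hx1⟩, y, hy, hy1⟩ := h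
  exact ⟨_, Set.preimage_mono hC, hc.preimage (continuous_swapXY hK),
    preconnected_preimage (continuous_swapXY hK) (swapXY_swapXY hK) hp,
    ⟨swapXY hK x, hx, hx1⟩, swapXY hK y, hy, hy1⟩

theorem bottom_mem (hK : IsCarpet K) {t : ℝ} (ht : |t| ≤ 1) : ((t, -1) : ℝ × ℝ) ∈ K := by
  have key : {z : ℝ × ℝ | |z.1| ≤ 1 ∧ z.2 = -1} ⊆ K := by
    refine subset_of_invariant ?_ ?_ ?_ hK.nonempty hK.isCompact.isClosed
    · rintro ⟨a, b⟩ ⟨ha, hb⟩
      simp only at ha hb
      subst hb
      rw [abs_le] at ha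
      have hex : ∃ c : ℝ, (c = -1 ∨ c = 0 ∨ c = 1) ∧ |3 * a - 2 * c| ≤ 1 := by
        rcases le_total a (-1 / 3) with h | h
        · exact ⟨-1, Or.inl rfl, by rw [abs_le]; constructor <;> linarith⟩
        rcases le_total a (1 / 3) with h' | h'
        · exact ⟨0, Or.inr (Or.inl rfl), by rw [abs_le]; constructor <;> linarith⟩
        · exact ⟨1, Or.inr (Or.inr rfl), by rw [abs_le]; constructor <;> linarith⟩
      obtain ⟨c, hc, hac⟩ := hex
      obtain ⟨i, hi⟩ := exists_q hc (Or.inl (rfl : (-1 : ℝ) = -1)) (fun h => by norm_num at h)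
      refine Set.mem_iUnion.2 ⟨i, (3 * a - 2 * c, -1), ⟨hac, rfl⟩, ?_⟩
      refine Prod.ext ?_ ?_
      · rw [contraction_fst, hi]
        ring
      · rw [contraction_snd, hi]
        norm_num
    · refine (Metric.isBounded_closedBall (x := (0 : ℝ × ℝ)) (r := 1)).subset ?_
      rintro ⟨a, b⟩ ⟨ha, hb⟩
      simp only at ha hb
      rw [mem_closedBall_zero_iff, Prod.norm_mk, Real.norm_eq_abs, Real.norm_eq_abs, hb]
      exact max_le ha (by norm_num)
    · intro i x hx
      exact (Set.ext_iff.1 hK.eq_iUnion _).2 (Set.mem_iUnion.2 ⟨i, x, hx, rfl⟩)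
  exact key ⟨ht, rfl⟩

theorem crossH_univ (hK : IsCarpet K) : CrossH (Set.univ : Set K) := by
  have hb : ∀ t : ℝ, |max (min t 1) (-1)| ≤ 1 := fun t => by
    rw [abs_le]
    exact ⟨le_max_right _ _, max_le (min_le_right _ _) (by norm_num)⟩
  let φ : ℝ → K := fun t => ⟨(max (min t 1) (-1), -1), bottom_mem hK (hb t)⟩
  have hφ : Continuous φ := Continuous.subtype_mk (by fun_prop) _
  have e : φ '' Set.Icc (-1) 1 = {x : K | x.1.2 = -1} := by
    ext x
    constructor
    · rintro ⟨t, -, rfl⟩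
      rfl
    · intro hx
      have h1 := abs_le.1 (abs_fst_le hK x)
      refine ⟨x.1.1, h1, Subtype.ext (Prod.ext ?_ ?_)⟩
      · change max (min x.1.1 1) (-1) = x.1.1
        rw [min_eq_left h1.2, max_eq_left h1.1]
      · exact (show x.1.2 = -1 from hx).symm
  refine ⟨{x : K | x.1.2 = -1}, Set.subset_univ _, isClosed_eq (by fun_prop) continuous_const, ?_,
    ⟨φ (-1), rfl, ?_⟩, φ 1, rfl, ?_⟩
  · rw [← e]
    exact isPreconnected_Icc.image _ hφ.continuousOn
  · change max (min (-1) (1 : ℝ)) (-1) = -1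
    norm_num
  · change max (min 1 (1 : ℝ)) (-1) = 1
    norm_num

/-- Continua in a full column. -/
theorem crossV_column (hK : IsCarpet K) {T S : Set K} (hT : CrossV T) (σ : ℝ) (hσ : σ = -1 ∨ σ = 1)
    (hS : ∀ i z, (q i).1 = σ → rmap hK i z ∈ T → cellMap hK i z ∈ S) : CrossV S := by
  have := hK.instCompact
  obtain ⟨C, hC, hc, hp, ⟨x, hx, hx1⟩, y, hy, hy1⟩ := hT
  have hσ' : σ = -1 ∨ σ = 0 ∨ σ = 1 := by tauto
  have hσ0 : σ ≠ 0 := by rcases hσ with rfl | rfl <;> norm_num
  obtain ⟨i₁, h1⟩ := exists_q hσ' (Or.inl (rfl : (-1 : ℝ) = -1)) (fun h => hσ0 h.1)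
  obtain ⟨i₂, h2⟩ := exists_q hσ' (Or.inr (Or.inl (rfl : (0 : ℝ) = 0))) (fun h => hσ0 h.1)
  obtain ⟨i₃, h3⟩ := exists_q hσ' (Or.inr (Or.inr (rfl : (1 : ℝ) = 1))) (fun h => hσ0 h.1)
  have r1 : rmap hK i₁ = id := by unfold rmap; rw [h1]; norm_num
  have r2 : rmap hK i₂ = reflY hK := by unfold rmap; rw [h2]; norm_num
  have r3 : rmap hK i₃ = id := by unfold rmap; rw [h3]; norm_num
  set C₁ : Set K := cellMap hK i₁ '' C with hC1
  set C₂ : Set K := (cellMap hK i₂ ∘ reflY hK) '' C with hC2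
  set C₃ : Set K := cellMap hK i₃ '' C with hC3
  have p1 : IsPreconnected C₁ := hp.image _ (continuous_cellMap hK i₁).continuousOn
  have p2 : IsPreconnected C₂ :=
    hp.image _ ((continuous_cellMap hK i₂).comp (continuous_reflY hK)).continuousOn
  have p3 : IsPreconnected C₃ := hp.image _ (continuous_cellMap hK i₃).continuousOn
  have c1 : IsClosed C₁ := (hc.isCompact.image (continuous_cellMap hK i₁)).isClosed
  have c2 : IsClosed C₂ :=
    (hc.isCompact.image ((continuous_cellMap hK i₂).comp (continuous_reflY hK))).isClosed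
  have c3 : IsClosed C₃ := (hc.isCompact.image (continuous_cellMap hK i₃)).isClosed
  have m12 : cellMap hK i₁ y = (cellMap hK i₂ ∘ reflY hK) y := by
    refine Subtype.ext (Prod.ext ?_ ?_)
    · change (contraction i₁ y).1 = (contraction i₂ (reflY hK y)).1
      rw [contraction_fst, contraction_fst, h1, h2]
      rfl
    · change (contraction i₁ y).2 = (contraction i₂ (reflY hK y)).2
      rw [contraction_snd, contraction_snd, h1, h2]
      change (y.1.2 + 2 * (-1)) / 3 = (-y.1.2 + 2 * 0) / 3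
      rw [hy1]
      norm_num
  have m23 : (cellMap hK i₂ ∘ reflY hK) x = cellMap hK i₃ x := by
    refine Subtype.ext (Prod.ext ?_ ?_)
    · change (contraction i₂ (reflY hK x)).1 = (contraction i₃ x).1
      rw [contraction_fst, contraction_fst, h3, h2]
      rfl
    · change (contraction i₂ (reflY hK x)).2 = (contraction i₃ x).2
      rw [contraction_snd, contraction_snd, h3, h2]
      change (-x.1.2 + 2 * 0) / 3 = (x.1.2 + 2 * 1) / 3
      rw [hx1]
      norm_num
  have p12 : IsPreconnected (C₁ ∪ C₂) :=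
    p1.union (cellMap hK i₁ y) ⟨y, hy, rfl⟩ (by rw [m12]; exact ⟨y, hy, rfl⟩) p2
  have p123 : IsPreconnected ((C₁ ∪ C₂) ∪ C₃) :=
    p12.union (cellMap hK i₃ x) (Or.inr (by rw [← m23]; exact ⟨x, hx, rfl⟩)) ⟨x, hx, rfl⟩ p3
  refine ⟨(C₁ ∪ C₂) ∪ C₃, ?_, (c1.union c2).union c3, p123,
    ⟨cellMap hK i₁ x, Or.inl (Or.inl ⟨x, hx, rfl⟩), ?_⟩, cellMap hK i₃ y, Or.inr ⟨y, hy, rfl⟩, ?_⟩
  · rintro _ ((⟨z, hz, rfl⟩ | ⟨z, hz, rfl⟩) | ⟨z, hz, rfl⟩)
    · exact hS i₁ z (by rw [h1]) (by rw [r1]; exact hC hz)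
    · exact hS i₂ _ (by rw [h2]) (by rw [r2, reflY_reflY]; exact hC hz)
    · exact hS i₃ z (by rw [h3]) (by rw [r3]; exact hC hz)
  · change (contraction i₁ x).2 = -1
    rw [contraction_snd, h1, hx1]
    norm_num
  · change (contraction i₃ y).2 = 1
    rw [contraction_snd, h3, hy1]
    norm_num

end Cross

section Val

/-- The crossing value of a function. -/
noncomputable def val (f : K → ℝ) : ℝ := sSup {s | CrossH {x | s ≤ f x}}

theorem crossH_bddAbove (hK : IsCarpet K) {f : K → ℝ} (hf : Continuous f) :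
    BddAbove {s | CrossH {x | s ≤ f x}} := by
  obtain ⟨R, -, hR⟩ := exists_bound hK hf
  refine ⟨R, ?_⟩
  rintro s ⟨C, hC, -, -, ⟨x, hx, -⟩, -⟩
  have : s ≤ f x := hC hx
  exact this.trans ((le_abs_self _).trans (hR x))

theorem le_val (hK : IsCarpet K) {f : K → ℝ} (hf : Continuous f) {s : ℝ}
    (h : CrossH {x | s ≤ f x}) : s ≤ val f :=
  le_csSup (crossH_bddAbove hK hf) h

theorem le_val_of_forall (hK : IsCarpet K) {f : K → ℝ} (hf : Continuous f) {s : ℝ}
    (h : ∀ x, s ≤ f x) : s ≤ val f :=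
  le_val hK hf ((crossH_univ hK).mono fun x _ => h x)

theorem crossH_nonempty (hK : IsCarpet K) {f : K → ℝ} (hf : Continuous f) :
    {s | CrossH {x | s ≤ f x}}.Nonempty := by
  obtain ⟨R, -, hR⟩ := exists_bound hK hf
  exact ⟨-R, (crossH_univ hK).mono fun x _ => (neg_le_of_abs_le (hR x))⟩

theorem val_le_of_forall (hK : IsCarpet K) {f : K → ℝ} (hf : Continuous f) {s : ℝ}
    (h : ∀ x, f x ≤ s) : val f ≤ s := by
  refine csSup_le (crossH_nonempty hK hf) ?_
  rintro t ⟨C, hC, -, -, ⟨x, hx, -⟩, -⟩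
  have : t ≤ f x := hC hx
  exact this.trans (h x)

theorem crossH_of_lt (hK : IsCarpet K) {f : K → ℝ} (hf : Continuous f) {s : ℝ} (h : s < val f) :
    CrossH {x | s ≤ f x} := by
  obtain ⟨t, ht, hst⟩ := exists_lt_of_lt_csSup (crossH_nonempty hK hf) h
  have ht' : CrossH {x | t ≤ f x} := ht
  exact ht'.mono fun x hx => hst.le.trans hx

theorem val_reflX (hK : IsCarpet K) (f : K → ℝ) : val (f ∘ reflX hK) = val f := by
  unfold val
  congr 1
  ext s
  constructor
  · intro h
    have h' : CrossH {x | s ≤ (f ∘ reflX hK) x} := h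
    have := h'.reflX (hK := hK)
    simpa [Set.preimage, reflX_reflX] using this
  · intro h
    have h' : CrossH {x | s ≤ f x} := h
    exact h'.reflX (hK := hK)

theorem val_reflY (hK : IsCarpet K) (f : K → ℝ) : val (f ∘ reflY hK) = val f := by
  unfold val
  congr 1
  ext s
  constructor
  · intro h
    have h' : CrossH {x | s ≤ (f ∘ reflY hK) x} := h
    have := h'.reflY (hK := hK)
    simpa [Set.preimage, reflY_reflY] using this
  · intro h
    have h' : CrossH {x | s ≤ f x} := h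
    exact h'.reflY (hK := hK)

theorem val_mono (hK : IsCarpet K) {f g : K → ℝ} (hf : Continuous f) (hg : Continuous g)
    (h : ∀ x, f x ≤ g x) : val f ≤ val g := by
  refine csSup_le (crossH_nonempty hK hf) fun s hs => ?_
  have hs' : CrossH {x | s ≤ f x} := hs
  exact le_val hK hg (hs'.mono fun x hx => le_trans hx (h x))

end Val

/-- The crossing constant. -/
noncomputable def crc (A : Set (K → ℝ)) (E : (K → ℝ) → ℝ) : ℝ :=
  sInf (E '' {u | u ∈ A ∧ IsCrossing u})

/-- The scale of oscillation. -/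
noncomputable def kap (A : Set (K → ℝ)) (E : (K → ℝ) → ℝ) (p : ℝ) (f : K → ℝ) : ℝ :=
  (E f / crc A E) ^ (1 / p)

/-- The constant of the adjacency estimate. -/
noncomputable def cadj (p ρ : ℝ) : ℝ := 6 + 2 * (5 * ρ) ^ (1 / p)

/-- The scale of oscillation belonging to the energy `e`. -/
noncomputable def kpe (A : Set (K → ℝ)) (E : (K → ℝ) → ℝ) (p e : ℝ) : ℝ :=
  (e / crc A E) ^ (1 / p)

/-- A side of the carpet. -/
def side (K : Set (ℝ × ℝ)) (d a : Bool) : Set K :=
  {x | (if d then x.1.1 else x.1.2) = sgn a}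

namespace Reg

variable (h : Reg hK p ρ A E)

include h

theorem crc_bdd : BddBelow (E '' {u | u ∈ A ∧ IsCrossing u}) :=
  ⟨0, by rintro _ ⟨u, hu, rfl⟩; exact h.nonneg u hu.1⟩

theorem crc_nonempty : (E '' {u | u ∈ A ∧ IsCrossing u}).Nonempty := by
  obtain ⟨u, hu, hc⟩ := h.crossing
  exact ⟨_, u, ⟨hu, hc⟩, rfl⟩

theorem crc_pos : 0 < crc A E := by
  obtain ⟨c, hc, hle⟩ := h.cross_pos
  refine lt_of_lt_of_le hc (le_csInf h.crc_nonempty ?_)
  rintro _ ⟨u, hu, rfl⟩
  exact hle u hu.1 hu.2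

theorem crc_le {u : K → ℝ} (hu : u ∈ A) (hc : IsCrossing u) : crc A E ≤ E u :=
  csInf_le h.crc_bdd ⟨u, ⟨hu, hc⟩, rfl⟩

theorem exists_crc : ∃ u ∈ A, IsCrossing u ∧ E u ≤ 2 * crc A E := by
  have h1 := h.crc_pos
  obtain ⟨_, ⟨u, hu, rfl⟩, hlt⟩ := exists_lt_of_csInf_lt h.crc_nonempty
    (show crc A E < 2 * crc A E by linarith)
  exact ⟨u, hu.1, hu.2, hlt.le⟩

theorem kap_nonneg {f : K → ℝ} (hf : f ∈ A) : 0 ≤ kap A E p f := by
  have := h.crc_pos
  have := h.nonneg f hf
  unfold kap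
  positivity

theorem kap_rpow {f : K → ℝ} (hf : f ∈ A) : kap A E p f ^ p * crc A E = E f := by
  have h1 := h.crc_pos
  have := h.nonneg f hf
  unfold kap
  rw [rpow_one_div_rpow h.p_pos (by positivity)]
  field_simp

/-- Either the sublevel set or the superlevel set is crossed. -/
theorem wd {f : K → ℝ} (hf : f ∈ A) {s τ : ℝ} (hτ : 0 < τ) (h1 : ¬CrossH {x | f x ≤ s + τ})
    (h2 : ¬CrossH {x | s ≤ f x}) : τ ^ p * crc A E ≤ E f := by
  have := hK.instCompact
  have hp := h.p_pos
  have hfc := h.lat.cont f hf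
  have hL : IsClosed {x : K | x.1.1 = -1} := isClosed_eq (by fun_prop) continuous_const
  have hR : IsClosed {x : K | x.1.1 = 1} := isClosed_eq (by fun_prop) continuous_const
  obtain ⟨S₁, S₂, cS1, cS2, dS, hS, hSL, hSR⟩ := exists_sep (S := {x | f x ≤ s + τ})
    (P := {x : K | x.1.1 = -1}) (Q := {x : K | x.1.1 = 1}) (isClosed_le hfc continuous_const) hL hR
    (by
      rintro C hC hc hp ⟨x, hx, hx1⟩ ⟨y, hy, hy1⟩
      exact h1 ⟨C, hC, hc, hp, ⟨x, hx, hx1⟩, y, hy, hy1⟩)
  obtain ⟨T₁, T₂, cT1, cT2, dT, hT, hTL, hTR⟩ := exists_sep (S := {x | s ≤ f x})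
    (P := {x : K | x.1.1 = -1}) (Q := {x : K | x.1.1 = 1}) (isClosed_le continuous_const hfc) hL hR
    (by
      rintro C hC hc hp ⟨x, hx, hx1⟩ ⟨y, hy, hy1⟩
      exact h2 ⟨C, hC, hc, hp, ⟨x, hx, hx1⟩, y, hy, hy1⟩)
  set g : K → ℝ := fun x => (τ⁻¹ • f) x + (-(τ⁻¹ * s)) with hg
  have hgA : g ∈ A := h.lat.add_const_mem (h.lat.smul_mem _ f hf) _
  set ψ : K → ℝ := fun x => max (min (g x) 1) 0 with hψ
  have hψA : ψ ∈ A := h.clamp_mem hgA 0 1
  have hψE : E ψ ≤ τ⁻¹ ^ p * E f := by
    refine (h.clamp_le hgA 0 1).trans ?_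
    rw [h.add_const _ (h.lat.smul_mem _ f hf), h.smul f hf, abs_of_pos (by positivity)]
  have hψ0 : ∀ x, f x ≤ s → ψ x = 0 := fun x hx => by
    have : g x ≤ 0 := by
      simp only [hg, Pi.smul_apply, smul_eq_mul]
      have : τ⁻¹ * f x ≤ τ⁻¹ * s := by gcongr
      linarith
    simp only [hψ]
    rw [min_eq_left (by linarith), max_eq_right this]
  have hψ1 : ∀ x, s + τ ≤ f x → ψ x = 1 := fun x hx => by
    have : 1 ≤ g x := by
      simp only [hg, Pi.smul_apply, smul_eq_mul]
      have : τ⁻¹ * (s + τ) ≤ τ⁻¹ * f x := by gcongr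
      have : τ⁻¹ * (s + τ) = τ⁻¹ * s + 1 := by field_simp
      linarith
    simp only [hψ]
    rw [min_eq_right this, max_eq_left (by norm_num)]
  set ψ' : K → ℝ := fun x => (-ψ) x + 1 with hψ'
  have hψ'A : ψ' ∈ A := h.lat.add_const_mem (h.neg_mem hψA) 1
  have nS : ∀ x, x ∉ S₁ → x ∉ S₂ → s + τ < f x := fun x hx1 hx2 => by
    by_contra hle
    have : x ∈ S₁ ∪ S₂ := by rw [hS]; exact not_lt.1 hle
    rcases this with h | h
    exacts [hx1 h, hx2 h]
  have nT : ∀ x, x ∉ T₁ → x ∉ T₂ → f x < s := fun x hx1 hx2 => by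
    by_contra hle
    have : x ∈ T₁ ∪ T₂ := by rw [hT]; exact not_lt.1 hle
    rcases this with h | h
    exacts [hx1 h, hx2 h]
  have sS : ∀ x, x ∉ S₂ → x ∉ S₁ → ψ' x = 0 := fun x hx2 hx1 => by
    simp only [hψ', Pi.neg_apply]
    rw [hψ1 x (nS x hx1 hx2).le]
    norm_num
  have sT : ∀ x, x ∉ T₂ → x ∉ T₁ → ψ x = 0 := fun x hx2 hx1 => hψ0 x (nT x hx1 hx2).le
  have mS := h.lat.part_mem cS2 cS1 dS.symm hψ'A sS
  have mT := h.lat.part_mem cT2 cT1 dT.symm hψA sT
  set H : K → ℝ := part S₂ ψ' + part T₂ ψ with hH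
  have hHA : H ∈ A := h.lat.add_mem _ mS _ mT
  have hHc : IsCrossing H := by
    refine ⟨h.lat.cont _ hHA, fun x hx => ?_, fun x hx => ?_⟩
    · have e1 : x ∉ S₂ := fun hx2 => by
        have : x ∈ {x | f x ≤ s + τ} := by rw [← hS]; exact Or.inr hx2
        exact Set.disjoint_left.1 dS (hSL ⟨this, hx⟩) hx2
      have e2 : x ∉ T₂ := fun hx2 => by
        have : x ∈ {x | s ≤ f x} := by rw [← hT]; exact Or.inr hx2
        exact Set.disjoint_left.1 dT (hTL ⟨this, hx⟩) hx2
      simp only [hH, Pi.add_apply]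
      rw [part_of_notMem e1, part_of_notMem e2, add_zero]
    · have e1 : x ∉ S₁ := fun hx2 => by
        have : x ∈ {x | f x ≤ s + τ} := by rw [← hS]; exact Or.inl hx2
        exact Set.disjoint_left.1 dS hx2 (hSR ⟨this, hx⟩)
      have e2 : x ∉ T₁ := fun hx2 => by
        have : x ∈ {x | s ≤ f x} := by rw [← hT]; exact Or.inl hx2
        exact Set.disjoint_left.1 dT hx2 (hTR ⟨this, hx⟩)
      have e3 : part S₂ ψ' x = ψ' x := by
        by_cases hx2 : x ∈ S₂
        · exact part_of_mem hx2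
        · rw [part_of_notMem hx2, sS x hx2 e1]
      have e4 : part T₂ ψ x = ψ x := by
        by_cases hx2 : x ∈ T₂
        · exact part_of_mem hx2
        · rw [part_of_notMem hx2, sT x hx2 e2]
      simp only [hH, Pi.add_apply]
      rw [e3, e4]
      simp only [hψ', Pi.neg_apply]
      ring
  have hHE : E H ≤ E ψ := by
    obtain ⟨n₁, hn1⟩ := exists_mesh_sep hK cS1 cS2 dS
    obtain ⟨n₂, hn2⟩ := exists_mesh_sep hK cT1 cT2 dT
    refine h.le_of_words hHA hψA (max n₁ n₂) fun w hw => ?_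
    have e0 : H ∘ cell hK w = part S₂ ψ' ∘ cell hK w + part T₂ ψ ∘ cell hK w := rfl
    have hwA := h.lat.cell_mem hψA w
    have hnn := h.nonneg _ hwA
    have eψ' : ψ' ∘ cell hK w = fun x => (-(ψ ∘ cell hK w)) x + 1 := rfl
    have eE : E (ψ' ∘ cell hK w) = E (ψ ∘ cell hK w) := by
      rw [eψ', h.add_const _ (h.neg_mem hwA), h.energy_neg hwA]
    rcases hn1 _ (le_max_left _ _) w hw with a | a <;>
      rcases hn2 _ (le_max_right _ _) w hw with b | b
    · rw [e0, part_cell_left sS a, part_cell_left sT b]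
      have : ψ' ∘ cell hK w + ψ ∘ cell hK w = fun _ => 1 := by
        funext x
        simp only [hψ', Pi.add_apply, Function.comp_apply, Pi.neg_apply]
        ring
      rw [this, h.energy_const]
      exact hnn
    · rw [e0, part_cell_left sS a, part_cell_right b]
      have : (ψ' ∘ cell hK w + fun _ => 0) = ψ' ∘ cell hK w := by
        funext x
        simp
      rw [this, eE]
    · rw [e0, part_cell_right a, part_cell_left sT b]
      have : (fun _ => 0) + ψ ∘ cell hK w = ψ ∘ cell hK w := by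
        funext x
        simp
      rw [this]
    · rw [e0, part_cell_right a, part_cell_right b]
      have : (fun _ => 0) + (fun _ => 0) = fun _ : K => (0 : ℝ) := by
        funext x
        simp
      rw [this, h.energy_const]
      exact hnn
  have h3 := (h.crc_le hHA hHc).trans (hHE.trans hψE)
  have h4 : τ ^ p * τ⁻¹ ^ p = 1 := by
    rw [← Real.mul_rpow (by positivity) (by positivity), mul_inv_cancel₀ hτ.ne', Real.one_rpow]
  calc τ ^ p * crc A E ≤ τ ^ p * (τ⁻¹ ^ p * E f) := by gcongr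
    _ = (τ ^ p * τ⁻¹ ^ p) * E f := by ring
    _ = E f := by rw [h4, one_mul]

theorem crossH_or {f : K → ℝ} (hf : f ∈ A) (s : ℝ) {τ : ℝ} (hτ : kap A E p f < τ) :
    CrossH {x | f x ≤ s + τ} ∨ CrossH {x | s ≤ f x} := by
  by_contra hcon
  push Not at hcon
  have hk := h.kap_nonneg hf
  have h1 := h.wd hf (lt_of_le_of_lt hk hτ) hcon.1 hcon.2
  have h2 := h.kap_rpow hf
  have h3 : kap A E p f ^ p < τ ^ p := Real.rpow_lt_rpow hk hτ h.p_pos
  have h4 := h.crc_pos
  nlinarith

theorem crossH_le {f : K → ℝ} (hf : f ∈ A) {τ : ℝ} (hτ : kap A E p f < τ) :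
    CrossH {x | f x ≤ val f + τ} := by
  set τ' := (kap A E p f + τ) / 2 with hτ'
  have h1 : kap A E p f < τ' := by rw [hτ']; linarith
  have h2 : τ' < τ := by rw [hτ']; linarith
  rcases h.crossH_or hf (val f + (τ - τ')) h1 with h3 | h3
  · have e : val f + (τ - τ') + τ' = val f + τ := by ring
    rwa [e] at h3
  · have := le_val hK (h.lat.cont f hf) h3
    linarith

theorem crossH_ge {f : K → ℝ} (hf : f ∈ A) {τ : ℝ} (hτ : 0 < τ) :
    CrossH {x | val f - τ ≤ f x} :=
  crossH_of_lt hK (h.lat.cont f hf) (by linarith)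

theorem kap_swap {f : K → ℝ} (hf : f ∈ A) : kap A E p (f ∘ swapXY hK) = kap A E p f := by
  unfold kap
  rw [h.swap f hf]

/-- A vertically crossed superlevel set. -/
theorem le_of_crossV {f : K → ℝ} (hf : f ∈ A) {s : ℝ} (hs : CrossV {x | s ≤ f x}) :
    s ≤ val f + kap A E p f := by
  refine le_of_forall_pos_le_add fun ε hε => ?_
  obtain ⟨x, hx1, hx2⟩ := cross_inter hK (h.crossH_le hf (τ := kap A E p f + ε) (by linarith)) hs
  have e1 : f x ≤ val f + (kap A E p f + ε) := hx1
  have e2 : s ≤ f x := hx2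
  linarith

/-- A vertically crossed sublevel set. -/
theorem ge_of_crossV {f : K → ℝ} (hf : f ∈ A) {s : ℝ} (hs : CrossV {x | f x ≤ s}) :
    val f ≤ s := by
  refine le_of_forall_pos_le_add fun ε hε => ?_
  obtain ⟨x, hx1, hx2⟩ := cross_inter hK (h.crossH_ge hf hε) hs
  have e1 : val f - ε ≤ f x := hx1
  have e2 : f x ≤ s := hx2
  linarith

theorem crossV_le {f : K → ℝ} (hf : f ∈ A) {τ : ℝ} (hτ : kap A E p f < τ) :
    CrossV {x | f x ≤ val f + 2 * τ} := by
  have hf' := h.lat.swap_mem f hf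
  set b := val (f ∘ swapXY hK) with hb
  have h1 : CrossV {x | f x ≤ b + τ} :=
    (h.crossH_le hf' (τ := τ) (by rwa [h.kap_swap hf])).swap (hK := hK)
  have hk := h.kap_nonneg hf
  have h2 : ∀ ε > 0, CrossV {x | b - ε ≤ f x} := fun ε hε =>
    (h.crossH_ge hf' hε).swap (hK := hK)
  have h3 := h.le_of_crossV hf (h2 (τ - kap A E p f) (by linarith))
  refine h1.mono fun x hx => ?_
  have e : f x ≤ b + τ := hx
  change f x ≤ val f + 2 * τ
  linarith

theorem crossV_ge {f : K → ℝ} (hf : f ∈ A) {τ : ℝ} (hτ : kap A E p f < τ) :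
    CrossV {x | val f - 2 * τ ≤ f x} := by
  have hf' := h.lat.swap_mem f hf
  set b := val (f ∘ swapXY hK) with hb
  have h1 : CrossV {x | f x ≤ b + τ} :=
    (h.crossH_le hf' (τ := τ) (by rwa [h.kap_swap hf])).swap (hK := hK)
  have hk := h.kap_nonneg hf
  have h2 : CrossV {x | b - τ ≤ f x} := (h.crossH_ge hf' (by linarith)).swap (hK := hK)
  have h3 := h.ge_of_crossV hf h1
  refine h2.mono fun x hx => ?_
  have e : b - τ ≤ f x := hx
  change val f - 2 * τ ≤ f x
  linarith

/-- A horizontally crossed sublevel set. -/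
theorem ge_of_crossH {f : K → ℝ} (hf : f ∈ A) {s : ℝ} (hs : CrossH {x | f x ≤ s}) :
    val f ≤ s + 2 * kap A E p f := by
  refine le_of_forall_pos_le_add fun ε hε => ?_
  obtain ⟨x, hx1, hx2⟩ := cross_inter hK hs (h.crossV_ge hf (τ := kap A E p f + ε / 2)
    (by linarith))
  have e1 : f x ≤ s := hx1
  have e2 : val f - 2 * (kap A E p f + ε / 2) ≤ f x := hx2
  linarith

theorem abs_val_swap_le {f : K → ℝ} (hf : f ∈ A) :
    |val (f ∘ swapXY hK) - val f| ≤ kap A E p f := by
  have hf' := h.lat.swap_mem f hf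
  have hk := h.kap_nonneg hf
  rw [abs_le]
  constructor
  · have : val f ≤ val (f ∘ swapXY hK) + kap A E p f := by
      refine le_of_forall_pos_le_add fun ε hε => ?_
      have h1 : CrossV {x | f x ≤ val (f ∘ swapXY hK) + (kap A E p f + ε)} :=
        (h.crossH_le hf' (τ := kap A E p f + ε) (by rw [h.kap_swap hf]; linarith)).swap (hK := hK)
      have := h.ge_of_crossV hf h1
      linarith
    linarith
  · have : val (f ∘ swapXY hK) ≤ val f + kap A E p f := by
      refine le_of_forall_pos_le_add fun ε hε => ?_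
      have h1 : CrossV {x | val (f ∘ swapXY hK) - ε ≤ f x} :=
        (h.crossH_ge hf' hε).swap (hK := hK)
      have := h.le_of_crossV hf h1
      linarith
    linarith

/-- Functions which agree on the right side have close values. -/
theorem adj_right {f g : K → ℝ} (hf : f ∈ A) (hg : g ∈ A) (hfg : ∀ x : K, x.1.1 = 1 → f x = g x) :
    |val f - val g| ≤ 2 * kap A E p f + 2 * kap A E p g +
      2 * (5 * ρ * (E f + E g) / crc A E) ^ (1 / p) := by
  classical
  have hρ := h.rho_pos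
  have hcc := h.crc_pos
  have hEf := h.nonneg f hf
  have hEg := h.nonneg g hg
  have hfc := h.lat.cont f hf
  have hgc := h.lat.cont g hg
  set gc : ℝ → K → ℝ := fun a => if a = -1 then f else if a = 0 then g ∘ SierpinskiCarpet.reflX hK else g with hgc'
  have g1 : gc (-1) = f := by simp [hgc']
  have g2 : gc 0 = g ∘ SierpinskiCarpet.reflX hK := by simp [hgc']
  have g3 : gc 1 = g := by simp only [hgc']; norm_num
  have hgcA : ∀ a, gc a ∈ A := fun a => by
    simp only [hgc']
    split_ifs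
    exacts [hf, h.lat.reflX_mem g hg, hg]
  obtain ⟨G, hGc, hG⟩ := exists_glue hK (fun i => gc (q i).1 ∘ rmap hK i)
    (fun i => (h.lat.cont _ (hgcA _)).comp (continuous_rmap hK i)) (by
      intro i j z z' e1 e2 hz hz' hzz'
      have er : rmap hK j = rmap hK i := by unfold rmap; rw [e2]
      simp only [Function.comp_apply]
      rcases q_fst i with a | a | a
      · rw [e1, a, g1, show (-1 : ℝ) + 1 = 0 by norm_num, g2, Function.comp_apply, er]
        rw [hfg _ (by rw [rmap_fst, hz])]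
        congr 1
        unfold rmap
        split_ifs
        · exact Subtype.ext (Prod.ext (by simp [SierpinskiCarpet.reflX, SierpinskiCarpet.reflY, hz, hz']) (by
            simp [SierpinskiCarpet.reflX, SierpinskiCarpet.reflY, hzz']))
        · exact Subtype.ext (Prod.ext (by simp [SierpinskiCarpet.reflX, hz, hz']) (by
            simp [SierpinskiCarpet.reflX, hzz']))
      · rw [e1, a, g2, show (0 : ℝ) + 1 = 1 by norm_num, g3, Function.comp_apply, er]
        congr 1
        unfold rmap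
        split_ifs
        · exact Subtype.ext (Prod.ext (by simp [SierpinskiCarpet.reflX, SierpinskiCarpet.reflY, hz, hz']) (by
            simp [SierpinskiCarpet.reflX, SierpinskiCarpet.reflY, hzz']))
        · exact Subtype.ext (Prod.ext (by simp [SierpinskiCarpet.reflX, hz, hz']) (by
            simp [SierpinskiCarpet.reflX, hzz']))
      · exfalso
        rw [a] at e1
        rcases q_fst j with h' | h' | h' <;> rw [h'] at e1 <;> norm_num at e1) (by
      intro i j z z' e1 e2 hz hz' hzz'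
      simp only [Function.comp_apply]
      rw [e2]
      congr 1
      unfold rmap
      rcases q_snd i with h | h | h
      · rw [if_neg (by rw [h]; norm_num), if_pos (by rw [e1, h]; norm_num)]
        exact Subtype.ext (Prod.ext hzz' (by simp [SierpinskiCarpet.reflY, hz, hz']))
      · rw [if_pos h, if_neg (by rw [e1, h]; norm_num)]
        exact Subtype.ext (Prod.ext hzz' (by simp [SierpinskiCarpet.reflY, hz, hz']))
      · exfalso
        rw [h] at e1
        rcases q_snd j with h' | h' | h' <;> rw [h'] at e1 <;> norm_num at e1)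
  have hrE : ∀ u ∈ A, ∀ i, u ∘ rmap hK i ∈ A ∧ E (u ∘ rmap hK i) = E u := by
    intro u hu i
    unfold rmap
    split_ifs
    · exact ⟨h.lat.reflY_mem u hu, h.reflY u hu⟩
    · exact ⟨hu, rfl⟩
  have hGA : G ∈ A := h.lat.glue G hGc fun i => by
    rw [hG i]
    exact (hrE _ (hgcA _) i).1
  have hGE : E G ≤ 5 * ρ * (E f + E g) := by
    rw [← h.scaling G hGA]
    have e1 : ∀ i, E (G ∘ cellMap hK i) = E (gc (q i).1) := fun i => by
      rw [hG i]
      exact (hrE _ (hgcA _) i).2
    simp_rw [e1]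
    rw [sum_columns (fun a => E (gc a)), g1, g2, g3, h.reflX g hg]
    nlinarith
  have hGk : kap A E p G ≤ (5 * ρ * (E f + E g) / crc A E) ^ (1 / p) := by
    unfold kap
    have := h.nonneg G hGA
    have := h.p_pos
    gcongr
  have hval : ∀ i z, G (cellMap hK i z) = gc (q i).1 (rmap hK i z) := fun i z =>
    congrFun (hG i) z
  -- comparison with the two outer columns
  have comp : ∀ u ∈ A, ∀ σ : ℝ, (σ = -1 ∨ σ = 1) → gc σ = u →
      |val G - val u| ≤ 2 * kap A E p u + kap A E p G := by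
    intro u hu σ hσ hgu
    have k1 := h.kap_nonneg hu
    have k2 := h.kap_nonneg hGA
    rw [abs_le]
    constructor
    · have : val u ≤ val G + kap A E p G + 2 * kap A E p u := by
        refine le_of_forall_pos_le_add fun ε hε => ?_
        have h1 := h.crossV_ge hu (τ := kap A E p u + ε / 2) (by linarith)
        have h2 : CrossV {x | val u - 2 * (kap A E p u + ε / 2) ≤ G x} :=
          crossV_column hK h1 σ hσ fun i z hi hz => by
            rw [Set.mem_ofPred_eq, hval, hi, hgu]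
            exact hz
        have := h.le_of_crossV hGA h2
        linarith
      linarith
    · have : val G ≤ val u + 2 * kap A E p u := by
        refine le_of_forall_pos_le_add fun ε hε => ?_
        have h1 := h.crossV_le hu (τ := kap A E p u + ε / 2) (by linarith)
        have h2 : CrossV {x | G x ≤ val u + 2 * (kap A E p u + ε / 2)} :=
          crossV_column hK h1 σ hσ fun i z hi hz => by
            rw [Set.mem_ofPred_eq, hval, hi, hgu]
            exact hz
        have := h.ge_of_crossV hGA h2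
        linarith
      linarith
  have c1 := abs_le.1 (comp f hf (-1) (Or.inl rfl) g1)
  have c2 := abs_le.1 (comp g hg 1 (Or.inr rfl) g3)
  rw [abs_le]
  constructor <;> linarith

omit h in
theorem kap_eq (f : K → ℝ) : kap A E p f = kpe A E p (E f) := rfl

theorem kpe_mono {e e' : ℝ} (he : 0 ≤ e) (hee : e ≤ e') : kpe A E p e ≤ kpe A E p e' := by
  have := h.crc_pos
  have := h.p_pos
  unfold kpe
  gcongr

theorem kpe_nonneg {e : ℝ} (he : 0 ≤ e) : 0 ≤ kpe A E p e := by
  have := h.crc_pos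
  unfold kpe
  positivity

theorem kpe_rpow {e : ℝ} (he : 0 ≤ e) : kpe A E p e ^ p * crc A E = e := by
  have h1 := h.crc_pos
  unfold kpe
  rw [rpow_one_div_rpow h.p_pos (by positivity)]
  field_simp

theorem kpe_mul {e b : ℝ} (he : 0 ≤ e) (hb : 0 ≤ b) :
    kpe A E p (b * e) = b ^ (1 / p) * kpe A E p e := by
  have h1 := h.crc_pos
  unfold kpe
  rw [mul_div_assoc, Real.mul_rpow hb (by positivity)]

theorem kpe_add_le {e e' : ℝ} (he : 0 ≤ e) (he' : 0 ≤ e') :
    kpe A E p (e + e') ≤ kpe A E p e + kpe A E p e' := by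
  have h1 := h.crc_pos
  have h2 := h.one_lt
  unfold kpe
  rw [add_div]
  exact Real.rpow_add_le_add_rpow (by positivity) (by positivity) (by positivity)
    (by rw [div_le_one (by linarith)]; linarith)

theorem cadj_pos : 0 < cadj p ρ := by
  have := h.rho_pos
  unfold cadj
  positivity

theorem adj_right' {f g : K → ℝ} (hf : f ∈ A) (hg : g ∈ A)
    (hfg : ∀ x : K, x.1.1 = 1 → f x = g x) :
    |val f - val g| ≤ (cadj p ρ - 2) * kpe A E p (E f + E g) := by
  have hρ := h.rho_pos
  have hcc := h.crc_pos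
  have hEf := h.nonneg f hf
  have hEg := h.nonneg g hg
  have h1 := h.adj_right hf hg hfg
  have h2 : kap A E p f ≤ kpe A E p (E f + E g) := h.kpe_mono hEf (by linarith)
  have h3 : kap A E p g ≤ kpe A E p (E f + E g) := h.kpe_mono hEg (by linarith)
  have h4 : (5 * ρ * (E f + E g) / crc A E) ^ (1 / p) =
      (5 * ρ) ^ (1 / p) * kpe A E p (E f + E g) := h.kpe_mul (by linarith) (by positivity)
  rw [h4] at h1
  unfold cadj
  linarith

/-- Functions which agree on a side have close values. -/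
theorem adj {f g : K → ℝ} (hf : f ∈ A) (hg : g ∈ A) (d a : Bool)
    (hfg : ∀ x ∈ side K d a, f x = g x) :
    |val f - val g| ≤ cadj p ρ * kpe A E p (E f + E g) := by
  have hEf := h.nonneg f hf
  have hEg := h.nonneg g hg
  have hk := h.kpe_nonneg (e := E f + E g) (by linarith)
  -- vertical sides
  have key : ∀ f ∈ A, ∀ g ∈ A, (∀ x ∈ side K true a, f x = g x) →
      |val f - val g| ≤ (cadj p ρ - 2) * kpe A E p (E f + E g) := by
    intro f hf g hg hfg
    cases a with
    | true =>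
      exact h.adj_right' hf hg fun x hx => hfg x (by simp [side, sgn, hx])
    | false =>
      have h1 := h.adj_right' (h.lat.reflX_mem f hf) (h.lat.reflX_mem g hg) fun x hx =>
        hfg _ (by simp [side, sgn, SierpinskiCarpet.reflX, hx])
      rwa [h.reflX f hf, h.reflX g hg, val_reflX, val_reflX] at h1
  cases d with
  | true =>
    refine (key f hf g hg hfg).trans ?_
    gcongr
    linarith
  | false =>
    have h1 := key _ (h.lat.swap_mem f hf) _ (h.lat.swap_mem g hg) fun x hx =>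
      hfg _ (by simpa [side, swapXY] using hx)
    rw [h.swap f hf, h.swap g hg] at h1
    have h2 := h.abs_val_swap_le hf
    have h3 := h.abs_val_swap_le hg
    have h4 : kap A E p f ≤ kpe A E p (E f + E g) := h.kpe_mono hEf (by linarith)
    have h5 : kap A E p g ≤ kpe A E p (E f + E g) := h.kpe_mono hEg (by linarith)
    rw [abs_le] at h1 h2 h3 ⊢
    constructor <;> nlinarith

theorem val_neg_le {f : K → ℝ} (hf : f ∈ A) : val (-f) ≤ -val f + 2 * kap A E p f := by
  refine csSup_le (crossH_nonempty hK (h.lat.cont _ (h.neg_mem hf))) fun s hs => ?_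
  have hs' : CrossH {x | f x ≤ -s} := by
    have h1 : CrossH {x | s ≤ (-f) x} := hs
    refine h1.mono fun x hx => ?_
    have e : s ≤ (-f) x := hx
    rw [Pi.neg_apply] at e
    change f x ≤ -s
    linarith
  have := h.ge_of_crossH hf hs'
  linarith

theorem energy_max_le {f g : K → ℝ} (hf : f ∈ A) (hg : g ∈ A) :
    E (fun x => max (f x) (g x)) ≤ 3 ^ p * (E f + E g) := by
  have hp := h.p_pos
  have hEf := h.nonneg f hf
  have hEg := h.nonneg g hg
  have hd := h.lat.sub_mem hg hf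
  have hm := h.lat.max_mem hd (h.lat.const_mem 0)
  have e : (fun x => max (f x) (g x)) = f + fun x => max ((g - f) x) 0 := by
    funext x
    simp only [Pi.add_apply, Pi.sub_apply]
    rcases le_total (f x) (g x) with hh | hh
    · rw [max_eq_right hh, max_eq_left (by linarith)]
      ring
    · rw [max_eq_left hh, max_eq_right (by linarith)]
      ring
  have h1 := h.subadd f hf _ hm
  have h2 : E (fun x => max ((g - f) x) 0) ≤ E (g - f) := h.cut' hd 0
  have h3 := h.sub_rpow_le hg hf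
  have h4 : E (fun x => max ((g - f) x) 0) ^ (1 / p) ≤ E (g - f) ^ (1 / p) :=
    Real.rpow_le_rpow (h.nonneg _ hm) h2 (by positivity)
  have h5 : E f ^ (1 / p) ≤ (E f + E g) ^ (1 / p) :=
    Real.rpow_le_rpow hEf (by linarith) (by positivity)
  have h6 : E g ^ (1 / p) ≤ (E f + E g) ^ (1 / p) :=
    Real.rpow_le_rpow hEg (by linarith) (by positivity)
  rw [← e] at h1
  have hMM := h.nonneg _ (h.lat.max_mem hf hg)
  calc E (fun x => max (f x) (g x)) = (E (fun x => max (f x) (g x)) ^ (1 / p)) ^ p :=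
        (rpow_one_div_rpow hp hMM).symm
    _ ≤ (3 * (E f + E g) ^ (1 / p)) ^ p :=
        Real.rpow_le_rpow (by positivity) (by linarith) hp.le
    _ = 3 ^ p * (E f + E g) := by
        rw [Real.mul_rpow (by norm_num) (by positivity), rpow_one_div_rpow hp (by linarith)]

end Reg

end Pool.Agent.SierpinskiCarpet
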